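import Pool.Agent.Lib.MP_250511_an.ST.Spec
import Pool.Agent.Lib.MP_250511_an.STA
import Pool.Agent.Lib.MP_250511_an.POL

/-!
Problem MP_250511_an, Q2: module ARA (the area inequality).
-/

set_option autoImplicit false

namespace Pool.Agent.Lib.MP250511.ST

open Complex Metric Set MeasureTheory Filter Topology
open scoped Real ENNReal

noncomputable section

namespace ARAM

/-- the integral of `‖z‖⁻²` over an annulus -/
theorem ann (s : ℝ) (hs : 0 < s) (hs1 : s ≤ 1) :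
    ∫⁻ z in {z : ℂ | s ≤ ‖z‖ ∧ ‖z‖ < 1}, ENNReal.ofReal ((‖z‖ ^ 2)⁻¹) =
      ENNReal.ofReal (2 * π * Real.log (1 / s)) := by
  have hae : ({z : ℂ | s ≤ ‖z‖ ∧ ‖z‖ < 1} : Set ℂ) =ᵐ[volume]
      ({z : ℂ | s < ‖z‖ ∧ ‖z‖ < 1} : Set ℂ) := by
    have h0 : volume (sphere (0 : ℂ) s) = 0 := Measure.addHaar_sphere _ _ _
    have h1 : ∀ᵐ z : ℂ, z ∉ sphere (0 : ℂ) s := measure_eq_zero_iff_ae_notMem.1 h0
    filter_upwards [h1] with z hz
    have hne : ‖z‖ ≠ s := fun h => hz (by simp [h])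
    apply propext
    change (s ≤ ‖z‖ ∧ ‖z‖ < 1) ↔ (s < ‖z‖ ∧ ‖z‖ < 1)
    exact ⟨fun h => ⟨lt_of_le_of_ne h.1 (Ne.symm hne), h.2⟩, fun h => ⟨h.1.le, h.2⟩⟩
  rw [setLIntegral_congr hae]
  have hcont : ContinuousOn (fun z : ℂ => (‖z‖ ^ 2)⁻¹) {z : ℂ | s ≤ ‖z‖ ∧ ‖z‖ ≤ 1} := by
    refine ContinuousOn.inv₀ (by fun_prop) ?_
    intro z hz
    have h1 : 0 < ‖z‖ := lt_of_lt_of_le hs hz.1
    positivity
  have hK : IsCompact {z : ℂ | s ≤ ‖z‖ ∧ ‖z‖ ≤ 1} := by
    have h1 : {z : ℂ | s ≤ ‖z‖ ∧ ‖z‖ ≤ 1} = closedBall 0 1 ∩ {z | s ≤ ‖z‖} := by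
      ext z
      simp only [mem_ofPred_eq, mem_inter_iff, mem_closedBall, dist_zero_right]
      tauto
    rw [h1]
    exact (isCompact_closedBall _ _).inter_right (isClosed_le continuous_const continuous_norm)
  have hint : Integrable (fun z : ℂ => (‖z‖ ^ 2)⁻¹)
      (volume.restrict {z : ℂ | s < ‖z‖ ∧ ‖z‖ < 1}) :=
    (hcont.integrableOn_compact hK).mono_set fun z hz => ⟨hz.1.le, hz.2.le⟩
  rw [← ofReal_integral_eq_lintegral_ofReal hint (Eventually.of_forall fun z => by positivity),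
    specPOL _ s 1 hs hs1 hcont]
  congr 1
  have h1 : ∀ t ∈ uIcc s 1, t * ∫ θ in (-π)..π, (‖(t : ℂ) * exp (θ * I)‖ ^ 2)⁻¹ =
      2 * π * t⁻¹ := by
    intro t ht
    rw [uIcc_of_le hs1] at ht
    have ht0 : 0 < t := lt_of_lt_of_le hs ht.1
    have h2 : ∀ θ : ℝ, (‖(t : ℂ) * exp (θ * I)‖ ^ 2)⁻¹ = (t ^ 2)⁻¹ := by
      intro θ
      rw [norm_mul, Complex.norm_exp_ofReal_mul_I, mul_one, Complex.norm_real, Real.norm_eq_abs,
        sq_abs]
    simp only [h2, intervalIntegral.integral_const, smul_eq_mul]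
    field_simp
    ring
  rw [intervalIntegral.integral_congr h1, intervalIntegral.integral_const_mul,
    integral_inv_of_pos hs one_pos]

end ARAM

open ARAM STAM in
theorem specARA : SpecARA := by
  intro m E F s hs hs1 hE hF hinj hb hdisj
  set G : ℂ → ℝ≥0∞ := fun z => ENNReal.ofReal ((‖z‖ ^ 2)⁻¹) with hG
  have hd : ∀ k, ∀ z ∈ E k, HasDerivAt (F k) (deriv (F k) z) z := fun k z hz =>
    ((hF k).differentiableAt ((hE k).mem_nhds hz)).hasDerivAt
  have h1 : ∀ k, ∫⁻ ζ in E k, ENNReal.ofReal (‖deriv (F k) ζ / F k ζ‖ ^ 2) =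
      ∫⁻ w in F k '' E k, G w := by
    intro k
    rw [change (hE k).measurableSet (hd k) (hinj k) G]
    refine setLIntegral_congr_fun (hE k).measurableSet fun z _ => ?_
    simp only [hG]
    rw [← ENNReal.ofReal_mul (by positivity), norm_div, div_pow, div_eq_mul_inv]
  have hm : ∀ k, MeasurableSet (F k '' E k) := fun k =>
    measurable_image_of_fderivWithin (hE k).measurableSet
      (f' := fun z => (ContinuousLinearMap.mul ℝ ℂ) (deriv (F k) z)) (fun z hz =>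
        (real_deriv (hd k z hz)).hasFDerivWithinAt) (hinj k)
  have hpd : Pairwise (Function.onFun Disjoint fun k => F k '' E k) := fun k l hkl => hdisj k l hkl
  calc ∑ k, ∫⁻ ζ in E k, ENNReal.ofReal (‖deriv (F k) ζ / F k ζ‖ ^ 2)
      = ∑ k, ∫⁻ w in F k '' E k, G w := Finset.sum_congr rfl fun k _ => h1 k
    _ = ∫⁻ w in ⋃ k, F k '' E k, G w := by
        rw [lintegral_iUnion hm hpd, tsum_fintype]
    _ ≤ ∫⁻ w in {z : ℂ | s ≤ ‖z‖ ∧ ‖z‖ < 1}, G w := by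
        refine lintegral_mono_set ?_
        intro w hw
        rw [mem_iUnion] at hw
        obtain ⟨k, ζ, hζ, rfl⟩ := hw
        exact hb k ζ hζ
    _ = ENNReal.ofReal (2 * π * Real.log (1 / s)) := ann s hs hs1

end

end Pool.Agent.Lib.MP250511.ST
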