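import Pool.Agent.Lib.MP_250511_an.ST.Spec3

/-!
ASM: the assembly.
-/

set_option autoImplicit false

namespace Pool.Agent.Lib.MP250511.ST

open Complex Metric Set MeasureTheory Filter Topology
open scoped Real ENNReal

noncomputable section

namespace ASMM

theorem rot_pt (ρ θ φ : ℝ) : exp ((φ : ℂ) * I) * pt ρ θ = pt ρ (θ + φ) := by
  unfold pt
  rw [← Complex.exp_add]
  congr 1
  push_cast
  ring

theorem pt_period (ρ θ : ℝ) : pt ρ (θ + 2 * π) = pt ρ θ := by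
  rw [← rot_pt]
  have h : exp (((2 * π : ℝ) : ℂ) * I) = 1 := by
    push_cast
    exact Complex.exp_two_pi_mul_I
  rw [h, one_mul]

theorem norm_rot (φ : ℝ) (w : ℂ) : ‖exp ((φ : ℂ) * I) * w‖ = ‖w‖ := by
  rw [norm_mul, Complex.norm_exp_ofReal_mul_I, one_mul]

theorem rot_inv (φ : ℝ) (w : ℂ) : exp ((φ : ℂ) * I) * (exp (((-φ : ℝ) : ℂ) * I) * w) = w := by
  rw [← mul_assoc, ← Complex.exp_add]
  have : (φ : ℂ) * I + ((-φ : ℝ) : ℂ) * I = 0 := by
    push_cast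
    ring
  rw [this, Complex.exp_zero, one_mul]

theorem norm_sub_rot (φ : ℝ) (w cs : ℂ) :
    ‖w - exp (((-φ : ℝ) : ℂ) * I) * cs‖ = ‖exp ((φ : ℂ) * I) * w - cs‖ := by
  rw [← norm_rot φ (w - exp (((-φ : ℝ) : ℂ) * I) * cs), mul_sub, rot_inv]

/-- the geometric data -/
structure Geo (W : Set ℂ) (cs : ℂ) (r : ℝ) : Prop where
  star : StarC W
  hit : Hit W
  r0 : 0 < r
  r1 : r ≤ 1
  cen : ‖cs‖ < r
  emp : ∀ w ∈ W, r ≤ ‖w - cs‖

theorem sector (hROR : SpecROR) (p : Ptl) (α₀ α₁ : ℝ) (hp : Valid p α₀ α₁) (W : Set ℂ) (cs : ℂ)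
    (r : ℝ) (hg : Geo W cs r) (α ρ₁ ρ₂ θ : ℝ) (h0 : 0 < α) (h1 : α ≤ 1) (h2 : α₀ ≤ α)
    (h3 : α ≤ α₁) (m1 : pt ρ₁ θ ∈ W) (m2 : pt ρ₂ (θ + π * α) ∈ W) (c1 : ‖pt ρ₁ θ - cs‖ = r)
    (c2 : ‖pt ρ₂ (θ + π * α) - cs‖ = r) :
    SecVal W θ α (α / 2 * (p.A₀ + p.A₁ * α + p.g₁ * ρ₁ + p.g₂ * ρ₂)) := by
  set ψ : ℝ := θ + π * (α / 2) with hψ
  have e1 : -(π * (α / 2)) + ψ = θ := by rw [hψ]; ring
  have e2 : π * (α / 2) + ψ = θ + π * α := by rw [hψ]; ring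
  have hcfg : Cfg {w | exp ((ψ : ℂ) * I) * w ∈ W} (exp (((-ψ : ℝ) : ℂ) * I) * cs) r α ρ₁ ρ₂ :=
    { star := by
        intro w hw t ht
        have := hg.star _ hw t ht
        simp only [mem_setOf_eq]
        have e : exp ((ψ : ℂ) * I) * ((t : ℂ) * w) = (t : ℂ) * (exp ((ψ : ℂ) * I) * w) := by ring
        rw [e]
        exact this
      hit := by
        intro c
        obtain ⟨w, hw, hwc⟩ := hg.hit (exp ((ψ : ℂ) * I) * c)
        refine ⟨exp (((-ψ : ℝ) : ℂ) * I) * w, ?_, ?_⟩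
        · simp only [mem_setOf_eq]
          rw [rot_inv]
          exact hw
        · rw [norm_sub_rev, norm_sub_rot, norm_sub_rev]
          exact hwc
      r0 := hg.r0
      r1 := hg.r1
      cen := by
        rw [norm_rot]
        exact hg.cen
      emp := by
        intro w hw
        rw [norm_sub_rot]
        exact hg.emp _ hw
      al0 := h0
      al1 := h1
      m1 := by
        simp only [mem_setOf_eq]
        rw [rot_pt, e1]
        exact m1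
      m2 := by
        simp only [mem_setOf_eq]
        rw [rot_pt, e2]
        exact m2
      c1 := by
        rw [norm_sub_rot, rot_pt, e1]
        exact c1
      c2 := by
        rw [norm_sub_rot, rot_pt, e2]
        exact c2 }
  have h4 := hp _ _ r α ρ₁ ρ₂ hcfg h2 h3
  have h5 := hROR W _ ψ _ _ h4
  rw [e1] at h5
  exact h5

theorem dub2 (hDUB : SpecDUB) (f : ℂ → ℂ) (R : ℝ) (hf : Cmap f R) (hW : StarC (f '' ball 0 1)ᶜ)
    (a b u v θ : ℝ) (ha : 0 < a) (hb : 0 < b) (hs : a + b = 2)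
    (h1 : SecVal (f '' ball 0 1)ᶜ θ a u) (h2 : SecVal (f '' ball 0 1)ᶜ (θ + π * a) b v) :
    Real.log R ≤ u + v := by
  have h := hDUB f R hf hW 2 ![a, b] ![u, v] θ
    (by
      intro k
      fin_cases k
      · exact ha
      · exact hb)
    (by
      rw [Fin.sum_univ_two]
      exact hs)
    (by
      intro k
      fin_cases k
      · have : psum ![a, b] ((0 : Fin 2) : ℕ) = 0 := by
          simp [psum]
        show SecVal _ (θ + π * psum ![a, b] ((0 : Fin 2) : ℕ)) a u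
        rw [this, mul_zero, add_zero]
        exact h1
      · have : psum ![a, b] ((1 : Fin 2) : ℕ) = a := by
          simp [psum, Finset.sum_filter]
        show SecVal _ (θ + π * psum ![a, b] ((1 : Fin 2) : ℕ)) b v
        rw [this]
        exact h2)
  rw [Fin.sum_univ_two] at h
  exact h

theorem dub3 (hDUB : SpecDUB) (f : ℂ → ℂ) (R : ℝ) (hf : Cmap f R) (hW : StarC (f '' ball 0 1)ᶜ)
    (a b c u v w θ : ℝ) (ha : 0 < a) (hb : 0 < b) (hc : 0 < c) (hs : a + b + c = 2)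
    (h1 : SecVal (f '' ball 0 1)ᶜ θ a u) (h2 : SecVal (f '' ball 0 1)ᶜ (θ + π * a) b v)
    (h3 : SecVal (f '' ball 0 1)ᶜ (θ + π * (a + b)) c w) :
    Real.log R ≤ u + v + w := by
  have h := hDUB f R hf hW 3 ![a, b, c] ![u, v, w] θ
    (by
      intro k
      fin_cases k
      · exact ha
      · exact hb
      · exact hc)
    (by
      rw [Fin.sum_univ_three]
      exact hs)
    (by
      intro k
      fin_cases k
      · have : psum ![a, b, c] ((0 : Fin 3) : ℕ) = 0 := by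
          simp [psum]
        show SecVal _ (θ + π * psum ![a, b, c] ((0 : Fin 3) : ℕ)) a u
        rw [this, mul_zero, add_zero]
        exact h1
      · have : psum ![a, b, c] ((1 : Fin 3) : ℕ) = a := by
          simp [psum, Finset.sum_filter]
        show SecVal _ (θ + π * psum ![a, b, c] ((1 : Fin 3) : ℕ)) b v
        rw [this]
        exact h2
      · have : psum ![a, b, c] ((2 : Fin 3) : ℕ) = a + b := by
          simp [psum, Finset.sum_filter, Fin.sum_univ_three]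
        show SecVal _ (θ + π * psum ![a, b, c] ((2 : Fin 3) : ℕ)) c w
        rw [this]
        exact h3)
  rw [Fin.sum_univ_three] at h
  exact h

/-- the power of the origin -/
theorem power (cs : ℂ) (r ρ₁ ρ₂ θ : ℝ) (hr : 0 < r) (hr1 : r ≤ 1) (c1 : ‖pt ρ₁ θ - cs‖ = r)
    (c2 : ‖pt ρ₂ (θ + π) - cs‖ = r) : ρ₁ + ρ₂ ≤ 0 := by
  have e : ∀ ρ θ : ℝ, pt ρ θ = (Real.exp ρ : ℂ) * ((Real.cos θ : ℂ) + (Real.sin θ : ℂ) * I) := by
    intro ρ θ
    unfold pt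
    rw [Complex.exp_add, Complex.ofReal_exp, Complex.exp_mul_I, Complex.ofReal_cos,
      Complex.ofReal_sin]
  have n0 : ∀ E C S : ℝ, ‖(E : ℂ) * ((C : ℂ) + (S : ℂ) * I) - cs‖ ^ 2 = (E * C - cs.re) ^ 2 +
      (E * S - cs.im) ^ 2 := by
    intro E C S
    rw [← Complex.normSq_eq_norm_sq, Complex.normSq_apply]
    simp
    ring
  have n : ∀ (ρ θ : ℝ), ‖pt ρ θ - cs‖ ^ 2 = (Real.exp ρ * Real.cos θ - cs.re) ^ 2 +
      (Real.exp ρ * Real.sin θ - cs.im) ^ 2 := by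
    intro ρ θ
    rw [e]
    exact n0 _ _ _
  have h1 := n ρ₁ θ
  have h2 := n ρ₂ (θ + π)
  rw [c1] at h1
  rw [c2, Real.cos_add_pi, Real.sin_add_pi] at h2
  have hsc := Real.sin_sq_add_cos_sq θ
  set a := Real.exp ρ₁ with ha
  set b := Real.exp ρ₂ with hb
  have ha0 : 0 < a := Real.exp_pos _
  have hb0 : 0 < b := Real.exp_pos _
  set d := Real.cos θ * cs.re + Real.sin θ * cs.im with hd
  have k1 : a ^ 2 - 2 * a * d = r ^ 2 - (cs.re ^ 2 + cs.im ^ 2) := by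
    rw [hd]
    linear_combination -h1 + a ^ 2 * (-hsc)
  have k2 : b ^ 2 + 2 * b * d = r ^ 2 - (cs.re ^ 2 + cs.im ^ 2) := by
    rw [hd]
    linear_combination -h2 + b ^ 2 * (-hsc)
  have k3 : (a + b) * (a * b) = (a + b) * (r ^ 2 - (cs.re ^ 2 + cs.im ^ 2)) := by
    linear_combination b * k1 + a * k2
  have k4 : a * b = r ^ 2 - (cs.re ^ 2 + cs.im ^ 2) := mul_left_cancel₀ (by positivity) k3
  have k5 : a * b ≤ 1 := by
    rw [k4]
    nlinarith [sq_nonneg cs.re, sq_nonneg cs.im]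
  rw [ha, hb, ← Real.exp_add] at k5
  exact Real.exp_le_one_iff.1 k5

/-- three directions, the last opening is the smallest -/
theorem caseB (hDUB : SpecDUB) (hROR : SpecROR) (hCEL : SpecCEL) (V : ℝ) (hcov : Cover V)
    (f : ℂ → ℂ) (R : ℝ) (hf : Cmap f R) (cs : ℂ) (r : ℝ) (hg : Geo (f '' ball 0 1)ᶜ cs r)
    (θ a₁ a₂ a₃ ρ₁ ρ₂ ρ₃ : ℝ) (h1 : 0 < a₁) (h1' : a₁ < 1) (h2 : 0 < a₂) (h2' : a₂ < 1)
    (h3 : 0 < a₃) (hs : a₁ + a₂ + a₃ = 2) (hm1 : a₃ ≤ a₁) (hm2 : a₃ ≤ a₂)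
    (w1 : pt ρ₁ θ ∈ (f '' ball 0 1)ᶜ) (w2 : pt ρ₂ (θ + π * a₁) ∈ (f '' ball 0 1)ᶜ)
    (w3 : pt ρ₃ (θ + π * (a₁ + a₂)) ∈ (f '' ball 0 1)ᶜ) (c1 : ‖pt ρ₁ θ - cs‖ = r)
    (c2 : ‖pt ρ₂ (θ + π * a₁) - cs‖ = r) (c3 : ‖pt ρ₃ (θ + π * (a₁ + a₂)) - cs‖ = r) :
    Real.log R ≤ V := by
  have e3 : 2 - a₁ - a₂ = a₃ := by linarith
  obtain ⟨k, m₁, m₃, hok, x0, x1, y0, y1, v00, v01, v10, v11, pA, pB, pC⟩ :=
    hcov a₁ a₂ h1 h1' h2 h2' (by linarith) (by linarith) (by linarith)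
  have w1' : pt ρ₁ (θ + π * (a₁ + a₂) + π * a₃) ∈ (f '' ball 0 1)ᶜ := by
    have : θ + π * (a₁ + a₂) + π * a₃ = θ + 2 * π := by
      rw [add_assoc, ← mul_add, hs]
      ring
    rw [this, pt_period]
    exact w1
  have c1' : ‖pt ρ₁ (θ + π * (a₁ + a₂) + π * a₃) - cs‖ = r := by
    have : θ + π * (a₁ + a₂) + π * a₃ = θ + 2 * π := by
      rw [add_assoc, ← mul_add, hs]
      ring
    rw [this, pt_period]
    exact c1
  have w3' : pt ρ₃ (θ + π * a₁ + π * a₂) ∈ (f '' ball 0 1)ᶜ := by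
    rw [add_assoc, ← mul_add]
    exact w3
  have c3' : ‖pt ρ₃ (θ + π * a₁ + π * a₂) - cs‖ = r := by
    rw [add_assoc, ← mul_add]
    exact c3
  rw [e3] at pC
  have s1 := sector hROR k.pA _ _ pA _ cs r hg a₁ ρ₁ ρ₂ θ h1 h1'.le le_rfl le_rfl w1 w2 c1 c2
  have s2 := sector hROR k.pB _ _ pB _ cs r hg a₂ ρ₂ ρ₃ (θ + π * a₁) h2 h2'.le le_rfl le_rfl w2 w3'
    c2 c3'
  have s3 := sector hROR k.pC _ _ pC _ cs r hg a₃ ρ₃ ρ₁ (θ + π * (a₁ + a₂)) h3 (by linarith)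
    le_rfl le_rfl w3 w1' c3 c1'
  have hlog := dub3 hDUB f R hf hg.star a₁ a₂ a₃ _ _ _ θ h1 h2 h3 hs s1 s2 s3
  refine hlog.trans ?_
  have hφ : ∀ (ρ u : ℝ), ‖pt ρ u - exp (((-(θ + π * a₁) : ℝ) : ℂ) * I) * cs‖ =
      ‖pt ρ (u + (θ + π * a₁)) - cs‖ := by
    intro ρ u
    rw [norm_sub_rot, rot_pt]
  have hcel := hCEL k m₁ m₃ V hok v00 v01 v10 v11 (exp (((-(θ + π * a₁) : ℝ) : ℂ) * I) * cs) r
    a₁ a₂ ρ₁ ρ₂ ρ₃ hg.r0 hg.r1 (by rw [norm_rot]; exact hg.cen) x0 x1 y0 y1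
    (by
      rw [hφ]
      have : -(π * a₁) + (θ + π * a₁) = θ := by ring
      rw [this]
      exact c1)
    (by
      rw [hφ, zero_add]
      exact c2)
    (by
      rw [hφ]
      have : π * a₂ + (θ + π * a₁) = θ + π * (a₁ + a₂) := by ring
      rw [this]
      exact c3)
  rw [e3] at hcel
  exact hcel

end ASMM

open ASMM in
/-- ASM -/
theorem specASM (hDUB : SpecDUB) (hDLM : SpecDLM) (hDLC : SpecDLC) (hROR : SpecROR)
    (hCEL : SpecCEL) (hSCL : SpecSCL) : SpecASM := by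
  intro V p hcov hp hg12 hg0 hAV
  by_contra hcon
  push Not at hcon
  obtain ⟨q, hq1, hq2⟩ := exists_between hcon
  have hqt : q ≠ ⊤ := ne_top_of_lt hq2
  set τ : ℝ := q.toReal with hτ
  have hqτ : ENNReal.ofReal τ = q := ENNReal.ofReal_toReal hqt
  have hτ0 : 0 < τ := ENNReal.toReal_pos (ne_bot_of_gt hq1) hqt
  rw [← hqτ] at hq1 hq2
  have hτV : τ < Real.exp (-V) := (ENNReal.ofReal_lt_ofReal_iff (Real.exp_pos _)).1 hq2
  obtain ⟨f, hf, hcl, h0, hst, hhit⟩ := hSCL τ hτ0 hq1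
  have hlogR : V < Real.log (1 / τ) := by
    rw [one_div, Real.log_inv]
    have := Real.log_lt_log hτ0 hτV
    rw [Real.log_exp] at this
    linarith
  refine absurd ?_ (not_le.2 hlogR)
  obtain ⟨cs, r, hr0, hr1, hcen, hemp, hconv⟩ := hDLM _ hcl h0 hhit
  have hg : Geo (f '' ball 0 1)ᶜ cs r := ⟨hst, hhit, hr0, hr1, hcen, hemp⟩
  have hA0 : (0 : ℂ) ∉ {w | w ∈ (f '' ball 0 1)ᶜ ∧ ‖w - cs‖ = r} := fun h => h0 h.1
  rcases hDLC _ hA0 hconv with ⟨θ, ρ₁, ρ₂, w1, w2⟩ |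
    ⟨θ, a₁, a₂, a₃, ρ₁, ρ₂, ρ₃, p1, q1, p2, q2, p3, q3, hs, w1, w2, w3⟩
  · have w2' : pt ρ₂ (θ + π * 1) ∈ (f '' ball 0 1)ᶜ := by
      rw [mul_one]
      exact w2.1
    have c2' : ‖pt ρ₂ (θ + π * 1) - cs‖ = r := by
      rw [mul_one]
      exact w2.2
    have e : θ + π * 1 + π * 1 = θ + 2 * π := by ring
    have w1' : pt ρ₁ (θ + π * 1 + π * 1) ∈ (f '' ball 0 1)ᶜ := by
      rw [e, pt_period]
      exact w1.1
    have c1' : ‖pt ρ₁ (θ + π * 1 + π * 1) - cs‖ = r := by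
      rw [e, pt_period]
      exact w1.2
    have s1 := sector hROR p 1 1 hp _ cs r hg 1 ρ₁ ρ₂ θ one_pos le_rfl le_rfl le_rfl w1.1 w2' w1.2
      c2'
    have s2 := sector hROR p 1 1 hp _ cs r hg 1 ρ₂ ρ₁ (θ + π * 1) one_pos le_rfl le_rfl le_rfl w2'
      w1' c2' c1'
    have h1 := dub2 hDUB f _ hf hst 1 1 _ _ θ one_pos one_pos (by norm_num) s1 s2
    have h2 := power cs r ρ₁ ρ₂ θ hr0 hr1 w1.2 w2.2
    have h3 : p.g₁ * (ρ₁ + ρ₂) ≤ 0 := mul_nonpos_of_nonneg_of_nonpos hg0 h2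
    rw [← hg12] at h1
    linarith
  · rcases le_total a₁ a₂ with h12 | h12
    · rcases le_total a₁ a₃ with h13 | h13
      · -- `a₁` is the smallest
        refine caseB hDUB hROR hCEL V hcov f _ hf cs r hg (θ + π * a₁) a₂ a₃ a₁ ρ₂ ρ₃ ρ₁ p2 q2 p3 q3
          p1 (by linarith) h12 h13 w2.1 ?_ ?_ w2.2 ?_ ?_
        · rw [add_assoc, ← mul_add]
          exact w3.1
        · have : θ + π * a₁ + π * (a₂ + a₃) = θ + 2 * π := by
            rw [add_assoc, ← mul_add, ← add_assoc, hs]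
            ring
          rw [this, pt_period]
          exact w1.1
        · rw [add_assoc, ← mul_add]
          exact w3.2
        · have : θ + π * a₁ + π * (a₂ + a₃) = θ + 2 * π := by
            rw [add_assoc, ← mul_add, ← add_assoc, hs]
            ring
          rw [this, pt_period]
          exact w1.2
      · -- `a₃` is the smallest
        exact caseB hDUB hROR hCEL V hcov f _ hf cs r hg θ a₁ a₂ a₃ ρ₁ ρ₂ ρ₃ p1 q1 p2 q2 p3 hs
          h13 (h13.trans h12) w1.1 w2.1 w3.1 w1.2 w2.2 w3.2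
    · rcases le_total a₂ a₃ with h23 | h23
      · -- `a₂` is the smallest
        have e1 : θ + π * (a₁ + a₂) + π * a₃ = θ + 2 * π := by
          rw [add_assoc, ← mul_add, hs]
          ring
        have e2 : θ + π * (a₁ + a₂) + π * (a₃ + a₁) = (θ + π * a₁) + 2 * π := by
          have : a₃ = 2 - a₁ - a₂ := by linarith
          rw [this]
          ring
        refine caseB hDUB hROR hCEL V hcov f _ hf cs r hg (θ + π * (a₁ + a₂)) a₃ a₁ a₂ ρ₃ ρ₁ ρ₂ p3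
          q3 p1 q1 p2 (by linarith) h23 h12 w3.1 ?_ ?_ w3.2 ?_ ?_
        · rw [e1, pt_period]
          exact w1.1
        · rw [e2, pt_period]
          exact w2.1
        · rw [e1, pt_period]
          exact w1.2
        · rw [e2, pt_period]
          exact w2.2
      · -- `a₃` is the smallest
        exact caseB hDUB hROR hCEL V hcov f _ hf cs r hg θ a₁ a₂ a₃ ρ₁ ρ₂ ρ₃ p1 q1 p2 q2 p3 hs
          (h23.trans h12) h23 w1.1 w2.1 w3.1 w1.2 w2.2 w3.2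

end

end Pool.Agent.Lib.MP250511.ST
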