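import Pool.Agent.Lib.MP_250511_an.ST.Spec2

/-!
Problem MP_250511_an, Q2.  Module BAS: sectors without inner slits, arbitrary weights.
-/

set_option autoImplicit false

namespace Pool.Agent.Lib.MP250511.ST

open Complex Metric Set MeasureTheory Filter Topology
open scoped Real ENNReal

noncomputable section

namespace BASM

theorem term {t q : ℝ} (ht : 0 < t) (hq : 0 < q) :
    q * Real.log (2 * t) ≤ q * Real.log 4 + q * Real.log q + t / 2 - q := by
  have h1 : Real.log (2 * t) = Real.log 4 + Real.log q + Real.log (t / (2 * q)) := by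
    rw [← Real.log_mul (by norm_num) hq.ne', ← Real.log_mul (by positivity) (by positivity)]
    congr 1
    field_simp
    ring
  have h2 : Real.log (t / (2 * q)) ≤ t / (2 * q) - 1 := Real.log_le_sub_one_of_pos (by positivity)
  have h3 : q * (t / (2 * q)) = t / 2 := by
    field_simp
  rw [h1]
  nlinarith

end BASM

open BASM in
theorem specBAS (hQFM : SpecQFM) : SpecBAS := by
  intro W θ α ρ₁ ρ₂ q hα hq hq1 h1 h2
  have key := hQFM W θ 0 (fun _ => α) ![ρ₁, ρ₂] ![q, 1 - q]
    (q * ρ₁ + (1 - q) * ρ₂ + α * (Real.log 4 + q * Real.log q + (1 - q) * Real.log (1 - q)))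
    (fun _ => hα) ?_ ?_ ?_
  · simpa using key
  · have hp0 : psum (fun _ : Fin (0 + 1) => α) 0 = 0 := by simp [psum]
    have hp1 : psum (fun _ : Fin (0 + 1) => α) 1 = α := by
      unfold psum
      rw [Finset.filter_true_of_mem]
      · simp
      · intro l _
        exact l.isLt
    intro j
    match j with
    | ⟨0, _⟩ =>
      change pt ρ₁ (θ + π * psum (fun _ : Fin (0 + 1) => α) 0) ∈ W
      rw [hp0, mul_zero, add_zero]
      exact h1
    | ⟨1, _⟩ =>
      change pt ρ₂ (θ + π * psum (fun _ : Fin (0 + 1) => α) 1) ∈ W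
      rw [hp1]
      exact h2
  · simp
  · intro X B hI
    have hX0 : X 0 = 1 := hI.top
    have hX1 : X 1 = -1 := hI.bot
    have hB1 : B 0 < 1 := by
      have := hI.l 0
      rw [← hX0]
      exact this
    have hB2 : -1 < B 0 := by
      have := hI.r 0
      rw [← hX1]
      exact this
    have e0 : HH (fun _ : Fin (0 + 1) => α) B (X 0) = α * Real.log (2 * (1 - B 0)) := by
      unfold HH
      rw [Fin.sum_univ_one, hX0, abs_of_pos (by linarith)]
    have e1 : HH (fun _ : Fin (0 + 1) => α) B (X 1) = α * Real.log (2 * (1 + B 0)) := by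
      unfold HH
      rw [Fin.sum_univ_one, hX1, abs_of_neg (by linarith)]
      congr 3
      ring
    rw [Fin.sum_univ_two]
    change q * (ρ₁ + HH (fun _ : Fin (0 + 1) => α) B (X 0)) +
      (1 - q) * (ρ₂ + HH (fun _ : Fin (0 + 1) => α) B (X 1)) ≤ _
    rw [e0, e1]
    have t1 := term (t := 1 - B 0) (q := q) (by linarith) hq
    have t2 := term (t := 1 + B 0) (q := 1 - q) (by linarith) (by linarith)
    have t3 : q * Real.log (2 * (1 - B 0)) + (1 - q) * Real.log (2 * (1 + B 0)) ≤
        Real.log 4 + q * Real.log q + (1 - q) * Real.log (1 - q) := by linarith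
    have t4 := mul_le_mul_of_nonneg_left t3 hα.le
    linarith

end

end Pool.Agent.Lib.MP250511.ST
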