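import Pool.Agent.Lib.MP_250511_an.ST.Spec3

/-!
CEL: one cell of the final inequality.
-/

set_option autoImplicit false

namespace Pool.Agent.Lib.MP250511.ST

open Complex Metric Set MeasureTheory Filter Topology
open scoped Real ENNReal

noncomputable section

namespace CELM

theorem pt_ee (ρ u : ℝ) : pt ρ (π * u) = (Real.exp ρ : ℂ) * ee u := by
  unfold pt ee
  rw [Complex.exp_add, Complex.ofReal_exp]

theorem dot_mul (a : ℝ) (z w : ℂ) : dot ((a : ℂ) * z) w = a * dot z w := by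
  unfold dot
  simp
  ring

theorem dot_add (z z' w : ℂ) : dot (z + z') w = dot z w + dot z' w := by
  unfold dot
  simp
  ring

theorem dot_comb (c n₁ n₂ n₃ : ℂ) (a b d : ℝ) :
    dot c ((a : ℂ) * n₁ + b * n₂ + d * n₃) = a * dot c n₁ + b * dot c n₂ + d * dot c n₃ := by
  unfold dot
  simp
  ring

theorem dot_le (z w : ℂ) : dot z w ≤ ‖z‖ * ‖w‖ := by
  have h1 : dot z w = (z * (starRingEnd ℂ) w).re := by
    unfold dot
    simp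
  rw [h1, ← Complex.norm_conj w, ← norm_mul]
  exact Complex.re_le_norm _

theorem dot_ge (z w : ℂ) : -(‖z‖ * ‖w‖) ≤ dot z w := by
  have h := dot_le (-z) w
  have h2 : dot (-z) w = -dot z w := by
    unfold dot
    simp
    ring
  rw [h2, norm_neg] at h
  linarith

/-- the tangent bound -/
theorem tip_le (cs w n : ℂ) (r : ℝ) (hr : 0 < r) (hr1 : r ≤ 1) (hn : ‖n‖ = 1)
    (hw : ‖w - cs‖ = r) (hcs : ‖cs‖ < r) : dot w n ≤ 1 + dot (cs / r) n := by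
  have h1 : dot w n = dot (w - cs) n + dot cs n := by
    rw [← dot_add]
    congr 1
    ring
  have h2 := dot_le (w - cs) n
  rw [hw, hn, mul_one] at h2
  have hrc : (r : ℂ) ≠ 0 := by exact_mod_cast hr.ne'
  have h3 : dot cs n = r * dot (cs / r) n := by
    rw [← dot_mul]
    congr 1
    field_simp
  have h4 : -1 < dot (cs / r) n := by
    have h5 := dot_ge cs n
    rw [hn, mul_one, h3] at h5
    by_contra hc
    push Not at hc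
    nlinarith
  rw [h1, h3]
  nlinarith

theorem norm_c (cs : ℂ) (r : ℝ) (hr : 0 < r) (hcs : ‖cs‖ < r) : ‖cs / (r : ℂ)‖ < 1 := by
  rw [norm_div, Complex.norm_real, Real.norm_of_nonneg hr.le, div_lt_one hr]
  exact hcs

theorem rho_le (cs e n : ℂ) (r ρ : ℝ) (hr : 0 < r) (hr1 : r ≤ 1) (hn : ‖n‖ = 1)
    (hw : ‖(Real.exp ρ : ℂ) * e - cs‖ = r) (hcs : ‖cs‖ < r) (hd : 0 < dot e n) :
    ρ ≤ Real.log (1 + dot (cs / r) n) - Real.log (dot e n) := by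
  have h1 := tip_le cs _ n r hr hr1 hn hw hcs
  rw [dot_mul] at h1
  have h2 : 0 < Real.exp ρ * dot e n := mul_pos (Real.exp_pos _) hd
  have h3 := Real.log_le_log h2 h1
  rw [Real.log_mul (Real.exp_pos _).ne' hd.ne', Real.log_exp] at h3
  linarith

/-- the function `G` -/
def GX (k : Cell) (c : ℂ) (x y : ℝ) : ℝ :=
  k.base x y + k.q₁ x y * Real.log (1 + dot c k.n₁) + k.q₂ x y * Real.log (1 + dot c k.n₂) +
    k.q₃ x y * Real.log (1 + dot c k.n₃)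

theorem affine_convex (s : Set ℝ) (hs : Convex ℝ s) (a b : ℝ) :
    ConvexOn ℝ s (fun x => a + b * x) := by
  refine ⟨hs, fun x _ y _ u v _ _ huv => le_of_eq ?_⟩
  simp only [smul_eq_mul]
  linear_combination (-a) * huv

theorem convex_x (hCVX : SpecCVX) (k : Cell) (m₁ m₃ : ℝ) (h : k.Ok m₁ m₃) (c : ℂ) (y : ℝ)
    (hy0 : k.y₀ ≤ y) (hy1 : y ≤ k.y₁) : ConvexOn ℝ (Icc k.x₀ k.x₁) (fun x => GX k c x y) := by
  have h1 := hCVX ((2 - y) * k.pC.g₂ / 2) ((k.pA.g₁ - k.pC.g₂) / 2) (k.pA.A₁ + k.pC.A₁) m₁ (-1)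
    k.x₀ k.x₁ k.n₁ (Or.inr rfl) h.u₁ h.hm₁
    (fun x hx0 hx1 => by
      have := h.hq₁ x y hx0 hx1 hy0 hy1
      unfold Cell.q₁ at this
      linarith)
    (fun x hx0 hx1 => by
      rw [neg_one_mul]
      exact h.d₁ x hx0 hx1)
    (by linarith [h.cx']) (by
      have := h.cx
      have e : ((k.pA.g₁ - k.pC.g₂) / 2) ^ 2 = (k.pA.g₁ - k.pC.g₂) ^ 2 / 4 := by ring
      rw [e]
      linarith)
  have h2 := h1.add (affine_convex (Icc k.x₀ k.x₁) (convex_Icc _ _)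
    (y / 2 * (k.pB.A₀ + k.pB.A₁ * y) + (2 - y) / 2 * (k.pC.A₀ + k.pC.A₁ * (2 - y)) -
      y * k.pB.g₁ / 2 * Real.log (dot 1 k.n₂) -
      (y * k.pB.g₂ + (2 - y) * k.pC.g₁) / 2 * Real.log (dot (ee y) k.n₃) +
      (2 - y) * k.pC.g₂ / 2 * Real.log (1 + dot c k.n₁) +
      y * k.pB.g₁ / 2 * Real.log (1 + dot c k.n₂) +
      (y * k.pB.g₂ + (2 - y) * k.pC.g₁) / 2 * Real.log (1 + dot c k.n₃))
    (k.pA.A₀ / 2 - k.pC.A₀ / 2 - (2 - y) * k.pC.A₁ - k.pA.g₂ / 2 * Real.log (dot 1 k.n₂) +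
      k.pC.g₁ / 2 * Real.log (dot (ee y) k.n₃) +
      (k.pA.g₁ - k.pC.g₂) / 2 * Real.log (1 + dot c k.n₁) +
      k.pA.g₂ / 2 * Real.log (1 + dot c k.n₂) - k.pC.g₁ / 2 * Real.log (1 + dot c k.n₃)))
  refine h2.congr fun x _ => ?_
  simp only [Pi.add_apply, GX, Cell.base, Cell.q₁, Cell.q₂, Cell.q₃, neg_one_mul]
  ring

theorem convex_y (hCVX : SpecCVX) (k : Cell) (m₁ m₃ : ℝ) (h : k.Ok m₁ m₃) (c : ℂ) (x : ℝ)
    (hx0 : k.x₀ ≤ x) (hx1 : x ≤ k.x₁) : ConvexOn ℝ (Icc k.y₀ k.y₁) (fun y => GX k c x y) := by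
  have h1 := hCVX ((2 - x) * k.pC.g₁ / 2) ((k.pB.g₂ - k.pC.g₁) / 2) (k.pB.A₁ + k.pC.A₁) m₃ 1
    k.y₀ k.y₁ k.n₃ (Or.inl rfl) h.u₃ h.hm₃
    (fun y hy0 hy1 => by
      have := h.hq₃ x y hx0 hx1 hy0 hy1
      unfold Cell.q₃ at this
      linarith)
    (fun y hy0 hy1 => by
      rw [one_mul]
      exact h.d₃ y hy0 hy1)
    (by linarith [h.cy']) (by
      have := h.cy
      have e : ((k.pB.g₂ - k.pC.g₁) / 2) ^ 2 = (k.pB.g₂ - k.pC.g₁) ^ 2 / 4 := by ring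
      rw [e]
      linarith)
  have h2 := h1.add (affine_convex (Icc k.y₀ k.y₁) (convex_Icc _ _)
    (x / 2 * (k.pA.A₀ + k.pA.A₁ * x) + (2 - x) / 2 * (k.pC.A₀ + k.pC.A₁ * (2 - x)) -
      ((2 - x) * k.pC.g₂ + x * k.pA.g₁) / 2 * Real.log (dot (ee (-x)) k.n₁) -
      x * k.pA.g₂ / 2 * Real.log (dot 1 k.n₂) +
      ((2 - x) * k.pC.g₂ + x * k.pA.g₁) / 2 * Real.log (1 + dot c k.n₁) +
      x * k.pA.g₂ / 2 * Real.log (1 + dot c k.n₂) +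
      (2 - x) * k.pC.g₁ / 2 * Real.log (1 + dot c k.n₃))
    (k.pB.A₀ / 2 - k.pC.A₀ / 2 - (2 - x) * k.pC.A₁ +
      k.pC.g₂ / 2 * Real.log (dot (ee (-x)) k.n₁) - k.pB.g₁ / 2 * Real.log (dot 1 k.n₂) -
      k.pC.g₂ / 2 * Real.log (1 + dot c k.n₁) + k.pB.g₁ / 2 * Real.log (1 + dot c k.n₂) +
      (k.pB.g₂ - k.pC.g₁) / 2 * Real.log (1 + dot c k.n₃)))
  refine h2.congr fun y _ => ?_
  simp only [Pi.add_apply, GX, Cell.base, Cell.q₁, Cell.q₂, Cell.q₃, one_mul]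
  ring

/-- one term at a vertex -/
theorem term_le (q μ t : ℝ) (hq : 0 ≤ q) (hμ : 0 < μ) (ht : 0 < 1 + t) :
    q * Real.log (1 + t) ≤ q * (Real.log (q / μ) - 1) + μ * (1 + t) := by
  rcases hq.eq_or_lt with h | h
  · rw [← h]
    have := mul_pos hμ ht
    linarith
  · have h1 := Real.log_le_sub_one_of_pos (div_pos (mul_pos hμ ht) h)
    rw [Real.log_div (mul_pos hμ ht).ne' h.ne', Real.log_mul hμ.ne' ht.ne'] at h1
    have h2 := mul_le_mul_of_nonneg_left h1 h.le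
    have h3 : q * (μ * (1 + t) / q - 1) = μ * (1 + t) - q := by
      field_simp
    rw [h3] at h2
    rw [Real.log_div h.ne' hμ.ne']
    linarith

theorem vtx_le (k : Cell) (V x y : ℝ) (c : ℂ) (hc : ‖c‖ < 1) (hu₁ : ‖k.n₁‖ = 1)
    (hu₂ : ‖k.n₂‖ = 1) (hu₃ : ‖k.n₃‖ = 1) (h₁ : 0 ≤ k.q₁ x y) (h₂ : 0 ≤ k.q₂ x y)
    (h₃ : 0 ≤ k.q₃ x y) (hV : k.Vtx V x y) : GX k c x y ≤ V := by
  obtain ⟨a, b, d, ha, hb, hd, h⟩ := hV
  have p1 : 0 < 1 + dot c k.n₁ := by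
    have := dot_ge c k.n₁
    rw [hu₁, mul_one] at this
    linarith
  have p2 : 0 < 1 + dot c k.n₂ := by
    have := dot_ge c k.n₂
    rw [hu₂, mul_one] at this
    linarith
  have p3 : 0 < 1 + dot c k.n₃ := by
    have := dot_ge c k.n₃
    rw [hu₃, mul_one] at this
    linarith
  have t1 := term_le _ a _ h₁ ha p1
  have t2 := term_le _ b _ h₂ hb p2
  have t3 := term_le _ d _ h₃ hd p3
  have t4 := dot_le c ((a : ℂ) * k.n₁ + b * k.n₂ + d * k.n₃)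
  rw [dot_comb] at t4
  have t5 : ‖c‖ * ‖(a : ℂ) * k.n₁ + b * k.n₂ + d * k.n₃‖ ≤
      ‖(a : ℂ) * k.n₁ + b * k.n₂ + d * k.n₃‖ := by
    have := norm_nonneg ((a : ℂ) * k.n₁ + b * k.n₂ + d * k.n₃)
    nlinarith
  unfold GX
  linarith

end CELM

open CELM in
/-- CEL -/
theorem specCEL (hCVX : SpecCVX) : SpecCEL := by
  intro k m₁ m₃ V h v00 v01 v10 v11 cs r x y ρ₁ ρ₂ ρ₃ hr hr1 hcs hx0 hx1 hy0 hy1 c1 c2 c3
  set c : ℂ := cs / (r : ℂ) with hcdef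
  have hc : ‖c‖ < 1 := norm_c cs r hr hcs
  have e1 : pt ρ₁ (-(π * x)) = (Real.exp ρ₁ : ℂ) * ee (-x) := by
    rw [← pt_ee]
    congr 1
    ring
  have e2 : pt ρ₂ 0 = (Real.exp ρ₂ : ℂ) * 1 := by
    have h0 := pt_ee ρ₂ 0
    have h1 : ee 0 = 1 := by
      unfold ee
      simp
    rw [h1, mul_zero] at h0
    exact h0
  have e3 : pt ρ₃ (π * y) = (Real.exp ρ₃ : ℂ) * ee y := pt_ee _ _
  rw [e1] at c1
  rw [e2] at c2
  rw [e3] at c3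
  have r1 := rho_le cs (ee (-x)) k.n₁ r ρ₁ hr hr1 h.u₁ c1 hcs (h.d₁ x hx0 hx1)
  have r2 := rho_le cs 1 k.n₂ r ρ₂ hr hr1 h.u₂ c2 hcs h.d₂
  have r3 := rho_le cs (ee y) k.n₃ r ρ₃ hr hr1 h.u₃ c3 hcs (h.d₃ y hy0 hy1)
  rw [← hcdef] at r1 r2 r3
  have q1 : 0 ≤ k.q₁ x y := h.hm₁.le.trans (h.hq₁ x y hx0 hx1 hy0 hy1)
  have q2 : 0 ≤ k.q₂ x y := h.hq₂ x y hx0 hx1 hy0 hy1
  have q3 : 0 ≤ k.q₃ x y := h.hm₃.le.trans (h.hq₃ x y hx0 hx1 hy0 hy1)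
  have s1 := mul_le_mul_of_nonneg_left r1 q1
  have s2 := mul_le_mul_of_nonneg_left r2 q2
  have s3 := mul_le_mul_of_nonneg_left r3 q3
  have hL : x / 2 * (k.pA.A₀ + k.pA.A₁ * x + k.pA.g₁ * ρ₁ + k.pA.g₂ * ρ₂) +
      y / 2 * (k.pB.A₀ + k.pB.A₁ * y + k.pB.g₁ * ρ₂ + k.pB.g₂ * ρ₃) +
      (2 - x - y) / 2 * (k.pC.A₀ + k.pC.A₁ * (2 - x - y) + k.pC.g₁ * ρ₃ + k.pC.g₂ * ρ₁) =
      x / 2 * (k.pA.A₀ + k.pA.A₁ * x) + y / 2 * (k.pB.A₀ + k.pB.A₁ * y) +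
      (2 - x - y) / 2 * (k.pC.A₀ + k.pC.A₁ * (2 - x - y)) + k.q₁ x y * ρ₁ + k.q₂ x y * ρ₂ +
      k.q₃ x y * ρ₃ := by
    unfold Cell.q₁ Cell.q₂ Cell.q₃
    ring
  rw [hL]
  have hG : x / 2 * (k.pA.A₀ + k.pA.A₁ * x) + y / 2 * (k.pB.A₀ + k.pB.A₁ * y) +
      (2 - x - y) / 2 * (k.pC.A₀ + k.pC.A₁ * (2 - x - y)) + k.q₁ x y * ρ₁ + k.q₂ x y * ρ₂ +
      k.q₃ x y * ρ₃ ≤ GX k c x y := by
    unfold GX Cell.base
    linarith
  refine hG.trans ?_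
  have vx : ∀ x' y', (x' = k.x₀ ∨ x' = k.x₁) → (y' = k.y₀ ∨ y' = k.y₁) → k.Vtx V x' y' →
      GX k c x' y' ≤ V := by
    intro x' y' hx' hy' hv
    have a1 : k.x₀ ≤ x' := by
      rcases hx' with rfl | rfl
      · exact le_rfl
      · exact h.hx.2.1
    have a2 : x' ≤ k.x₁ := by
      rcases hx' with rfl | rfl
      · exact h.hx.2.1
      · exact le_rfl
    have b1 : k.y₀ ≤ y' := by
      rcases hy' with rfl | rfl
      · exact le_rfl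
      · exact h.hy.2.1
    have b2 : y' ≤ k.y₁ := by
      rcases hy' with rfl | rfl
      · exact h.hy.2.1
      · exact le_rfl
    exact vtx_le k V x' y' c hc h.u₁ h.u₂ h.u₃ (h.hm₁.le.trans (h.hq₁ x' y' a1 a2 b1 b2))
      (h.hq₂ x' y' a1 a2 b1 b2) (h.hm₃.le.trans (h.hq₃ x' y' a1 a2 b1 b2)) hv
  have edge : ∀ x', (x' = k.x₀ ∨ x' = k.x₁) → k.Vtx V x' k.y₀ → k.Vtx V x' k.y₁ →
      GX k c x' y ≤ V := by
    intro x' hx' hv0 hv1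
    have a1 : k.x₀ ≤ x' := by
      rcases hx' with rfl | rfl
      · exact le_rfl
      · exact h.hx.2.1
    have a2 : x' ≤ k.x₁ := by
      rcases hx' with rfl | rfl
      · exact h.hx.2.1
      · exact le_rfl
    have hcv := convex_y hCVX k m₁ m₃ h c x' a1 a2
    have := hcv.le_max_of_mem_Icc (left_mem_Icc.2 h.hy.2.1) (right_mem_Icc.2 h.hy.2.1) ⟨hy0, hy1⟩
    exact this.trans (max_le (vx x' _ hx' (Or.inl rfl) hv0) (vx x' _ hx' (Or.inr rfl) hv1))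
  have hcv := convex_x hCVX k m₁ m₃ h c y hy0 hy1
  have := hcv.le_max_of_mem_Icc (left_mem_Icc.2 h.hx.2.1) (right_mem_Icc.2 h.hx.2.1) ⟨hx0, hx1⟩
  exact this.trans (max_le (edge _ (Or.inl rfl) v00 v01) (edge _ (Or.inr rfl) v10 v11))

end

end Pool.Agent.Lib.MP250511.ST
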