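import Pool.Agent.Lib.MP_250511_an.ST.INT

/-!
Problem MP_250511_an, row 317, module CER: the certificate for the dual form.
-/

set_option autoImplicit false

namespace Pool.Agent.Lib.MP250511.ST

open Complex Metric Set MeasureTheory Filter Topology
open scoped Real ENNReal

open INTM in
/-- CER. -/
theorem specCER : SpecCER := by
  intro n a Q X₀ X B₀ B ha hQ h₀ h
  have hsign : ∀ j l, 0 < (X j - B l) / (X₀ j - B₀ l) := by
    intro j l
    by_cases hjl : (j : ℕ) ≤ l
    · exact div_pos (pos h j l hjl) (pos h₀ j l hjl)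
    · push Not at hjl
      exact div_pos_of_neg_of_neg (neg h j l hjl) (neg h₀ j l hjl)
  have hne₀ : ∀ j l, X₀ j - B₀ l ≠ 0 := by
    intro j l h0
    have := hsign j l
    rw [h0, div_zero] at this
    exact lt_irrefl _ this
  have hne : ∀ j l, X j - B l ≠ 0 := by
    intro j l h0
    have := hsign j l
    rw [h0, zero_div] at this
    exact lt_irrefl _ this
  have h1 : ∑ j, Q j * HH a B (X j) ≤
      ∑ j, Q j * ∑ l, a l * (Real.log (2 * |X₀ j - B₀ l|) - 1) +
      ∑ j, Q j * ∑ l, a l * ((X j - B l) / (X₀ j - B₀ l)) := by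
    rw [← Finset.sum_add_distrib]
    refine Finset.sum_le_sum ?_
    intro j _
    rw [← mul_add]
    refine mul_le_mul_of_nonneg_left ?_ (hQ j)
    rw [← Finset.sum_add_distrib]
    unfold HH
    refine Finset.sum_le_sum ?_
    intro l _
    rw [← mul_add]
    exact mul_le_mul_of_nonneg_left (log_tan (hsign j l) (hne j l) (hne₀ j l)) (ha l)
  have h2 : ∑ j, Q j * ∑ l, a l * ((X j - B l) / (X₀ j - B₀ l)) =
      ∑ j, Q j * X j * ∑ l, a l / (X₀ j - B₀ l) -
        ∑ l, a l * B l * ∑ j, Q j / (X₀ j - B₀ l) := by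
    have e1 : ∑ l, a l * B l * ∑ j, Q j / (X₀ j - B₀ l) =
        ∑ j, ∑ l, a l * B l * (Q j / (X₀ j - B₀ l)) := by
      simp_rw [Finset.mul_sum]
      rw [Finset.sum_comm]
    rw [e1, ← Finset.sum_sub_distrib]
    refine Finset.sum_congr rfl ?_
    intro j _
    rw [Finset.mul_sum, Finset.mul_sum, ← Finset.sum_sub_distrib]
    refine Finset.sum_congr rfl ?_
    intro l _
    ring
  have h0l : (0 : Fin (n + 2)) ≠ Fin.last (n + 1) := by
    intro h3
    have := congrArg Fin.val h3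
    simp at this
  have h3 : ∑ j, Q j * X j * ∑ l, a l / (X₀ j - B₀ l) ≤
      Q 0 * ∑ l, a l / (1 - B₀ l) + Q (Fin.last (n + 1)) * ∑ l, a l / (1 + B₀ l) +
      ∑ j ∈ Finset.univ.filter (fun j => j ≠ 0 ∧ j ≠ Fin.last (n + 1)),
        Q j * |∑ l, a l / (X₀ j - B₀ l)| := by
    have e1 : ∀ f : Fin (n + 2) → ℝ, ∑ j, f j = f 0 + f (Fin.last (n + 1)) +
        ∑ j ∈ Finset.univ.filter (fun j => j ≠ 0 ∧ j ≠ Fin.last (n + 1)), f j := by
      intro f
      have e2 : (Finset.univ : Finset (Fin (n + 2))) =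
          insert 0 (insert (Fin.last (n + 1))
            (Finset.univ.filter (fun j => j ≠ 0 ∧ j ≠ Fin.last (n + 1)))) := by
        ext j
        simp only [Finset.mem_univ, Finset.mem_insert, Finset.mem_filter, true_and, true_iff]
        tauto
      rw [e2, Finset.sum_insert (by simp [h0l]), Finset.sum_insert (by simp)]
      rw [← e2]
      ring
    rw [e1 (fun j => Q j * X j * ∑ l, a l / (X₀ j - B₀ l))]
    have e3 : Q 0 * X 0 * ∑ l, a l / (X₀ 0 - B₀ l) = Q 0 * ∑ l, a l / (1 - B₀ l) := by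
      rw [h.top, h₀.top, mul_one]
    have e4 : Q (Fin.last (n + 1)) * X (Fin.last (n + 1)) *
        ∑ l, a l / (X₀ (Fin.last (n + 1)) - B₀ l) =
        Q (Fin.last (n + 1)) * ∑ l, a l / (1 + B₀ l) := by
      rw [h.bot, h₀.bot, mul_assoc]
      congr 1
      rw [Finset.mul_sum]
      refine Finset.sum_congr rfl ?_
      intro l _
      have : (-1 : ℝ) - B₀ l = -(1 + B₀ l) := by ring
      rw [this, div_neg]
      ring
    have e5 : ∑ j ∈ Finset.univ.filter (fun j => j ≠ 0 ∧ j ≠ Fin.last (n + 1)),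
        Q j * X j * ∑ l, a l / (X₀ j - B₀ l) ≤
        ∑ j ∈ Finset.univ.filter (fun j => j ≠ 0 ∧ j ≠ Fin.last (n + 1)),
        Q j * |∑ l, a l / (X₀ j - B₀ l)| := by
      refine Finset.sum_le_sum ?_
      intro j _
      rw [mul_assoc]
      refine mul_le_mul_of_nonneg_left ?_ (hQ j)
      refine (le_abs_self _).trans ?_
      rw [abs_mul]
      exact mul_le_of_le_one_left (abs_nonneg _) (X_abs h j)
    simp only [e3, e4]
    linarith
  have h4 : -∑ l, a l * B l * ∑ j, Q j / (X₀ j - B₀ l) ≤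
      ∑ l, a l * |∑ j, Q j / (X₀ j - B₀ l)| := by
    rw [← Finset.sum_neg_distrib]
    refine Finset.sum_le_sum ?_
    intro l _
    have e1 : -(a l * B l * ∑ j, Q j / (X₀ j - B₀ l)) =
        a l * (-(B l) * ∑ j, Q j / (X₀ j - B₀ l)) := by ring
    rw [e1]
    refine mul_le_mul_of_nonneg_left ?_ (ha l)
    refine (le_abs_self _).trans ?_
    rw [abs_mul, abs_neg]
    exact mul_le_of_le_one_left (abs_nonneg _) (B_abs h l).le
  rw [h2] at h1
  linarith

end Pool.Agent.Lib.MP250511.ST
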