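import Pool.Agent.Lib.MP_250511_an.ST.Spec

/-!
Problem MP_250511_an, row 317, module INT: the critical points are the maxima.
-/

set_option autoImplicit false

namespace Pool.Agent.Lib.MP250511.ST

open Complex Metric Set MeasureTheory Filter Topology
open scoped Real ENNReal

namespace INTM

lemma X_anti {n : ℕ} {X : Fin (n + 2) → ℝ} {B : Fin (n + 1) → ℝ} (h : Inter n X B) :
    StrictAnti X := by
  rw [Fin.strictAnti_iff_succ_lt]
  intro i
  exact (h.r i).trans (h.l i)

lemma B_anti {n : ℕ} {X : Fin (n + 2) → ℝ} {B : Fin (n + 1) → ℝ} (h : Inter n X B) :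
    StrictAnti B := by
  rw [Fin.strictAnti_iff_succ_lt]
  intro i
  have h1 := h.l i.succ
  have h2 := h.r i.castSucc
  rw [Fin.succ_castSucc] at h2
  exact h1.trans h2

lemma pos {n : ℕ} {X : Fin (n + 2) → ℝ} {B : Fin (n + 1) → ℝ} (h : Inter n X B)
    (j : Fin (n + 2)) (l : Fin (n + 1)) (hjl : (j : ℕ) ≤ l) : 0 < X j - B l := by
  have h1 : j ≤ l.castSucc := by
    rw [Fin.le_def]
    simpa using hjl
  have h2 := (X_anti h).antitone h1
  have h3 := h.l l
  linarith

lemma neg {n : ℕ} {X : Fin (n + 2) → ℝ} {B : Fin (n + 1) → ℝ} (h : Inter n X B)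
    (j : Fin (n + 2)) (l : Fin (n + 1)) (hjl : (l : ℕ) < j) : X j - B l < 0 := by
  have h1 : l.succ ≤ j := by
    rw [Fin.le_def]
    simpa using hjl
  have h2 := (X_anti h).antitone h1
  have h3 := h.r l
  linarith

lemma X_abs {n : ℕ} {X : Fin (n + 2) → ℝ} {B : Fin (n + 1) → ℝ} (h : Inter n X B)
    (j : Fin (n + 2)) : |X j| ≤ 1 := by
  have h1 := (X_anti h).antitone (Fin.zero_le j)
  have h2 := (X_anti h).antitone (Fin.le_last j)
  rw [h.top] at h1
  rw [h.bot] at h2
  exact abs_le.2 ⟨h2, h1⟩

lemma B_abs {n : ℕ} {X : Fin (n + 2) → ℝ} {B : Fin (n + 1) → ℝ} (h : Inter n X B)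
    (l : Fin (n + 1)) : |B l| < 1 := by
  have h1 := abs_le.1 (X_abs h l.castSucc)
  have h2 := abs_le.1 (X_abs h l.succ)
  have h3 := h.l l
  have h4 := h.r l
  exact abs_lt.2 ⟨by linarith [h2.1], by linarith [h1.2]⟩

lemma lt_cnt {n : ℕ} {B : Fin (n + 1) → ℝ} (hB : StrictAnti B) (x : ℝ) (l : Fin (n + 1)) :
    (l : ℕ) < cnt B x ↔ x < B l := by
  constructor
  · intro h
    by_contra h1
    push Not at h1
    have h2 : (Finset.univ.filter fun m => x < B m) ⊆ Finset.Iio l := by
      intro m hm
      rw [Finset.mem_filter] at hm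
      rw [Finset.mem_Iio]
      by_contra h3
      push Not at h3
      have := hB.antitone h3
      linarith [hm.2]
    have h3 := Finset.card_le_card h2
    rw [Fin.card_Iio] at h3
    unfold cnt at h
    omega
  · intro h
    have h2 : Finset.Iic l ⊆ (Finset.univ.filter fun m => x < B m) := by
      intro m hm
      rw [Finset.mem_Iic] at hm
      rw [Finset.mem_filter]
      exact ⟨Finset.mem_univ _, h.trans_le (hB.antitone hm)⟩
    have h3 := Finset.card_le_card h2
    rw [Fin.card_Iic] at h3
    unfold cnt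
    omega

/-- the tangent of the logarithm -/
lemma log_tan {s t : ℝ} (h : 0 < s / t) (hs : s ≠ 0) (ht : t ≠ 0) :
    Real.log (2 * |s|) ≤ Real.log (2 * |t|) - 1 + s / t := by
  have h1 : 2 * |s| = 2 * |t| * (s / t) := by
    have h2 : s / t = |s| / |t| := by rw [← abs_div, abs_of_pos h]
    rw [h2]
    have : |t| ≠ 0 := abs_ne_zero.2 ht
    field_simp
  rw [h1, Real.log_mul (by have := abs_pos.2 ht; positivity) h.ne']
  have := Real.log_le_sub_one_of_pos h
  linarith

end INTM

open INTM in
/-- INT. -/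
theorem specINT : SpecINT := by
  intro n a X B ha h hc
  refine ⟨B_anti h, B_abs h, ?_⟩
  intro x hx hxB
  have hcard : cnt B x ≤ n + 1 := by
    unfold cnt
    refine (Finset.card_filter_le _ _).trans ?_
    simp
  refine ⟨by omega, ?_⟩
  set j : Fin (n + 2) := ⟨cnt B x, by omega⟩ with hj
  have hjv : (j : ℕ) = cnt B x := rfl
  have hsign : ∀ l, 0 < (x - B l) / (X j - B l) := by
    intro l
    rcases lt_or_gt_of_ne (hxB l) with h1 | h1
    · have h2 : (l : ℕ) < j := by rw [hjv]; exact (lt_cnt (B_anti h) x l).2 h1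
      exact div_pos_of_neg_of_neg (by linarith) (neg h j l h2)
    · have h2 : ¬ ((l : ℕ) < cnt B x) := by
        rw [lt_cnt (B_anti h) x l]
        linarith
      exact div_pos (by linarith) (pos h j l (by rw [hjv]; omega))
  have hne : ∀ l, X j - B l ≠ 0 := by
    intro l h0
    have := hsign l
    rw [h0, div_zero] at this
    exact lt_irrefl _ this
  have h1 : HH a B x ≤ HH a B (X j) + (x - X j) * ∑ l, a l / (X j - B l) := by
    unfold HH
    rw [Finset.mul_sum, ← Finset.sum_add_distrib]
    refine Finset.sum_le_sum ?_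
    intro l _
    have h2 := log_tan (hsign l) (sub_ne_zero.2 (hxB l)) (hne l)
    have h3 : (x - B l) / (X j - B l) = 1 + (x - X j) / (X j - B l) := by
      have := hne l
      field_simp
      ring
    have h4 := mul_le_mul_of_nonneg_left h2 (ha l).le
    rw [h3] at h4
    have h5 : a l * (Real.log (2 * |X j - B l|) - 1 + (1 + (x - X j) / (X j - B l))) =
        a l * Real.log (2 * |X j - B l|) + (x - X j) * (a l / (X j - B l)) := by ring
    linarith
  refine h1.trans ?_
  have hx' := abs_le.1 hx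
  suffices h2 : (x - X j) * ∑ l, a l / (X j - B l) ≤ 0 by linarith
  by_cases hj0 : j = 0
  · have h3 : X j = 1 := by rw [hj0, h.top]
    refine mul_nonpos_of_nonpos_of_nonneg (by rw [h3]; linarith [hx'.2]) ?_
    refine Finset.sum_nonneg ?_
    intro l _
    refine (div_pos (ha l) (pos h j l ?_)).le
    rw [hj0]
    simp
  · by_cases hjl : j = Fin.last (n + 1)
    · have h3 : X j = -1 := by rw [hjl, h.bot]
      refine mul_nonpos_of_nonneg_of_nonpos (by rw [h3]; linarith [hx'.1]) ?_
      refine Finset.sum_nonpos ?_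
      intro l _
      refine (div_neg_of_pos_of_neg (ha l) (neg h j l ?_)).le
      rw [hjl]
      simp
      omega
    · rw [hc j hj0 hjl, mul_zero]

end Pool.Agent.Lib.MP250511.ST
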