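import Pool.Agent.Lib.MP_250511_an.ST.Spec2
import Pool.Agent.Lib.MP_250511_an.ST.INT

/-!
Problem MP_250511_an, Q2: module CEW (helper19), the bound from a dual certificate.
-/

set_option autoImplicit false

namespace Pool.Agent.Lib.MP250511.ST

open Finset

namespace CEWM

theorem term {p w x : ℝ} (hp : 0 ≤ p) (hw : w ≠ 0) (hx : x ≠ 0) (hs : 0 < w * x) :
    p * Real.log (2 * |x|) ≤ p * (Real.log (2 * p / |w|) - 1) + w * x := by
  rcases hp.eq_or_lt with rfl | hp
  · simpa using hs.le
  have hw' : 0 < |w| := abs_pos.2 hw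
  have hx' : 0 < |x| := abs_pos.2 hx
  have e : w * x = |w| * |x| := by rw [← abs_mul, abs_of_pos hs]
  have h1 := Real.log_le_sub_one_of_pos (x := |w| * |x| / p) (by positivity)
  have h2 : Real.log (2 * |x|) = Real.log (2 * p / |w|) + Real.log (|w| * |x| / p) := by
    rw [← Real.log_mul (by positivity) (by positivity)]
    congr 1
    field_simp
  rw [h2, e]
  have h3 : p * Real.log (|w| * |x| / p) ≤ p * (|w| * |x| / p - 1) :=
    mul_le_mul_of_nonneg_left h1 hp.le
  have h4 : p * (|w| * |x| / p - 1) = |w| * |x| - p := by field_simp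
  rw [h4] at h3
  linarith

end CEWM

open CEWM in
theorem specCEW : SpecCEW := by
  intro n a Q w ha hQ hpos hneg hcol hrow X B h
  have hwx : ∀ j l, 0 < w j l * (X j - B l) ∧ w j l ≠ 0 ∧ X j - B l ≠ 0 := by
    intro j l
    rcases le_or_gt (j : ℕ) l with h1 | h1
    · exact ⟨mul_pos (hpos j l h1) (INTM.pos h j l h1), (hpos j l h1).ne',
        (INTM.pos h j l h1).ne'⟩
    · exact ⟨mul_pos_of_neg_of_neg (hneg j l h1) (INTM.neg h j l h1), (hneg j l h1).ne,
        (INTM.neg h j l h1).ne⟩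
  have h1 : ∑ j, Q j * HH a B (X j) ≤
      ∑ j, ∑ l, Q j * a l * (Real.log (2 * (Q j * a l) / |w j l|) - 1) +
      ∑ j, ∑ l, w j l * (X j - B l) := by
    rw [← sum_add_distrib]
    refine sum_le_sum fun j _ => ?_
    rw [← sum_add_distrib]
    unfold HH
    rw [mul_sum]
    refine sum_le_sum fun l _ => ?_
    rw [← mul_assoc]
    exact term (mul_nonneg (hQ j) (ha l)) (hwx j l).2.1 (hwx j l).2.2 (hwx j l).1
  have h2 : ∑ j, ∑ l, w j l * (X j - B l) = ∑ j, X j * ∑ l, w j l := by
    have e1 : ∑ j, ∑ l, w j l * (X j - B l) =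
        ∑ j, X j * ∑ l, w j l - ∑ l, B l * ∑ j, w j l := by
      have e2 : ∑ l, B l * ∑ j, w j l = ∑ j, ∑ l, B l * w j l := by
        rw [sum_comm]
        exact sum_congr rfl fun l _ => by rw [mul_sum]
      rw [e2, ← sum_sub_distrib]
      refine sum_congr rfl fun j _ => ?_
      rw [mul_sum, ← sum_sub_distrib]
      exact sum_congr rfl fun l _ => by ring
    rw [e1]
    simp [hcol]
  have h0l : (0 : Fin (n + 2)) ≠ Fin.last (n + 1) := by
    intro h3
    have := congrArg Fin.val h3
    simp at this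
  have h3 : ∑ j, X j * ∑ l, w j l = ∑ l, (w 0 l - w (Fin.last (n + 1)) l) := by
    rw [← sum_subset (subset_univ ({0, Fin.last (n + 1)} : Finset (Fin (n + 2))))
      (fun j _ hj => ?_)]
    · rw [sum_pair h0l, h.top, h.bot, sum_sub_distrib]
      ring
    · simp only [mem_insert, mem_singleton, not_or] at hj
      rw [hrow j hj.1 hj.2, mul_zero]
  rw [h2, h3] at h1
  exact h1

end Pool.Agent.Lib.MP250511.ST
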