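import Pool.Agent.Lib.MP_250511_an.ST.Spec4

/-!
Problem MP_250511_an, Q2, part 4.  Module CHI: soundness of the checker (from TIP, QRI, LFI, EMI,
QUE).
-/

set_option autoImplicit false

namespace Pool.Agent.Lib.MP250511.ST.Chk

open Complex Metric Set MeasureTheory Filter Topology
open scoped Real ENNReal

namespace CHIM

/-- the parts cover the directions in `[u, up)` -/
def Cov (b : Box) (p : Ptl) (S : List ISl) (c : ℂ) (u up : ℕ) : Prop :=
  ∀ w : ℝ, ((u : ℝ) - 2048) / 2048 ≤ w → w < ((up : ℝ) - 2048) / 2048 →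
    ∃ (s : Slt) (S₁ S₂ : List Slt), s.c = c ∧ s.Ok ∧ s.lo ≤ w ∧
      w < s.hi ∧ (S₁ ++ S₂).Sublist (S.map ISl.slt) ∧ (∀ t ∈ S₁, t.hi ≤ s.lo) ∧
      (∀ t ∈ S₂, s.hi ≤ t.lo) ∧ ST.Good b p (S₁ ++ s :: S₂)

theorem keepR_cons (v : ℕ) (s : ISl) (S : List ISl) (m : ℕ) :
    keepR v (s :: S) m = bif (Nat.beq (Nat.mod m 2) 1 && Nat.ble v s.lo) then
      s :: keepR v S (Nat.div m 2) else keepR v S (Nat.div m 2) := rfl

theorem keepL_cons (u v : ℕ) (c s : ISl) (S : List ISl) (m : ℕ) :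
    keepL u v c (s :: S) m = bif Nat.beq (Nat.mod m 2) 1 then
        (bif Nat.ble s.hi u then s :: keepL u v c S (Nat.div m 2) else c :: keepR v (s :: S) m)
      else keepL u v c S (Nat.div m 2) := rfl

theorem keepR_sub (v : ℕ) (S : List ISl) : ∀ m : ℕ,
    (keepR v S m).Sublist S ∧ ∀ t ∈ keepR v S m, v ≤ t.lo := by
  induction S with
  | nil => exact fun m => ⟨List.Sublist.refl _, fun t ht => absurd ht (List.not_mem_nil)⟩
  | cons s S ih =>
    intro m
    rw [keepR_cons]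
    cases hb : (Nat.beq (Nat.mod m 2) 1 && Nat.ble v s.lo) with
    | false =>
      rw [cond_false]
      exact ⟨(ih _).1.cons _, (ih _).2⟩
    | true =>
      rw [cond_true]
      refine ⟨(ih _).1.cons_cons _, fun t ht => ?_⟩
      rcases List.mem_cons.1 ht with rfl | ht
      · exact Nat.le_of_ble_eq_true (Bool.and_eq_true _ _ ▸ hb).2
      · exact (ih _).2 t ht

theorem keepL_sub (u v : ℕ) (c : ISl) (S : List ISl) : ∀ m : ℕ,
    ∃ S₁ S₂ : List ISl, keepL u v c S m = S₁ ++ c :: S₂ ∧ (S₁ ++ S₂).Sublist S ∧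
      (∀ t ∈ S₁, t.hi ≤ u) ∧ ∀ t ∈ S₂, v ≤ t.lo := by
  induction S with
  | nil => exact fun m => ⟨[], [], rfl, List.Sublist.refl _,
      fun t ht => absurd ht (List.not_mem_nil), fun t ht => absurd ht (List.not_mem_nil)⟩
  | cons s S ih =>
    intro m
    rw [keepL_cons]
    cases hb : Nat.beq (Nat.mod m 2) 1 with
    | false =>
      rw [cond_false]
      obtain ⟨S₁, S₂, h1, h2, h3, h4⟩ := ih (Nat.div m 2)
      exact ⟨S₁, S₂, h1, h2.cons _, h3, h4⟩
    | true =>
      rw [cond_true]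
      cases hc : Nat.ble s.hi u with
      | false =>
        rw [cond_false]
        refine ⟨[], keepR v (s :: S) m, rfl, (keepR_sub v (s :: S) m).1,
          fun t ht => absurd ht (List.not_mem_nil), (keepR_sub v (s :: S) m).2⟩
      | true =>
        rw [cond_true]
        obtain ⟨S₁, S₂, h1, h2, h3, h4⟩ := ih (Nat.div m 2)
        refine ⟨s :: S₁, S₂, by rw [h1]; rfl, h2.cons_cons _, fun t ht => ?_, h4⟩
        rcases List.mem_cons.1 ht with rfl | ht
        · exact Nat.le_of_ble_eq_true hc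
        · exact h3 t ht

theorem dir_le {a b : ℕ} (h : a ≤ b) : ((a : ℝ) - 2048) / 2048 ≤ ((b : ℝ) - 2048) / 2048 := by
  have : (a : ℝ) ≤ b := by exact_mod_cast h
  linarith

theorem split1 {p : Ptl} {S : List Slt} {a1 b1 a2 b2 al0 al1 m : ℕ}
    (h1 : ST.Good (bx a1 m a2 b2 al0 al1) p S) (h2 : ST.Good (bx m b1 a2 b2 al0 al1) p S) :
    ST.Good (bx a1 b1 a2 b2 al0 al1) p S := by
  intro W cs r α ρ₁ ρ₂ hC g1 g2 g3 g4 g5 g6
  rcases le_total (Real.exp ρ₁) ((m : ℝ) / 256) with h | h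
  · exact h1 W cs r α ρ₁ ρ₂ hC g1 h g3 g4 g5 g6
  · exact h2 W cs r α ρ₁ ρ₂ hC h g2 g3 g4 g5 g6

theorem split2 {p : Ptl} {S : List Slt} {a1 b1 a2 b2 al0 al1 m : ℕ}
    (h1 : ST.Good (bx a1 b1 a2 m al0 al1) p S) (h2 : ST.Good (bx a1 b1 m b2 al0 al1) p S) :
    ST.Good (bx a1 b1 a2 b2 al0 al1) p S := by
  intro W cs r α ρ₁ ρ₂ hC g1 g2 g3 g4 g5 g6
  rcases le_total (Real.exp ρ₂) ((m : ℝ) / 256) with h | h
  · exact h1 W cs r α ρ₁ ρ₂ hC g1 g2 g3 h g5 g6
  · exact h2 W cs r α ρ₁ ρ₂ hC g1 g2 h g4 g5 g6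

theorem split3 {p : Ptl} {S : List Slt} {a1 b1 a2 b2 al0 al1 m : ℕ}
    (h1 : ST.Good (bx a1 b1 a2 b2 al0 m) p S) (h2 : ST.Good (bx a1 b1 a2 b2 m al1) p S) :
    ST.Good (bx a1 b1 a2 b2 al0 al1) p S := by
  intro W cs r α ρ₁ ρ₂ hC g1 g2 g3 g4 g5 g6
  rcases le_total α ((m : ℝ) / 1024) with h | h
  · exact h1 W cs r α ρ₁ ρ₂ hC g1 g2 g3 g4 g5 h
  · exact h2 W cs r α ρ₁ ρ₂ hC g1 g2 g3 g4 h g6

theorem main (hTIP : SpecTIP) (hQRI : SpecQRI) (hLFI : SpecLFI) (hEMI : SpecEMI) (hQUE : SpecQUE)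
    (P : IPt) (t : T) : ∀ (md : Bool) (a1 b1 a2 b2 al0 al1 : ℕ) (S : List ISl)
    (x yu yv u up : ℕ), (∀ s ∈ S, s.Good) →
    chk P t md a1 b1 a2 b2 al0 al1 S x yu yv u up = true →
    (md = false → ST.Good (bx a1 b1 a2 b2 al0 al1) P.ptl (S.map ISl.slt)) ∧
    (md = true → Cov (bx a1 b1 a2 b2 al0 al1) P.ptl S
      ⟨(x : ℝ) / 512, ((yu : ℝ) - yv) / 512⟩ u up) := by
  induction t with
  | lf Q W =>
    intro md a1 b1 a2 b2 al0 al1 S x yu yv u up hS h
    have h' : (!md && leaf P a1 b1 a2 b2 al0 al1 S Q W) = true := h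
    cases md with
    | true => exact absurd h' (by simp)
    | false =>
      refine ⟨fun _ => hLFI P a1 b1 a2 b2 al0 al1 S Q W hS ?_, fun h => absurd h (by simp)⟩
      simpa using h'
  | qy x0 yu0 yv0 kP kQ K um up0 ps ih =>
    intro md a1 b1 a2 b2 al0 al1 S x yu yv u up hS h
    have h' : (!md && (qOk a1 b1 a2 b2 al0 al1 x0 yu0 yv0 kP kQ K um up0 &&
      chk P ps true a1 b1 a2 b2 al0 al1 S x0 yu0 yv0 um up0)) = true := h
    cases md with
    | true => exact absurd h' (by simp)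
    | false =>
      rw [Bool.and_eq_true, Bool.and_eq_true] at h'
      refine ⟨fun _ => ?_, fun h => absurd h (by simp)⟩
      have hq := hQRI a1 b1 a2 b2 al0 al1 x0 yu0 yv0 kP kQ K um up0 h'.2.1
      have hc := (ih true a1 b1 a2 b2 al0 al1 S x0 yu0 yv0 um up0 hS h'.2.2).2 rfl
      exact hQUE _ _ _ _ _ _ _ _ _ hq fun w hw1 hw2 => hc w hw1.le hw2
  | pt v k mask t rest iht ihr =>
    intro md a1 b1 a2 b2 al0 al1 S x yu yv u up hS h
    have h' : (md && (slOk x yu yv k u v &&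
        (chk P t false a1 b1 a2 b2 al0 al1 (keepL u v (mkS x yu yv k u v) S mask) 0 0 0 0 0 &&
          chk P rest true a1 b1 a2 b2 al0 al1 S x yu yv v up))) = true := h
    cases md with
    | false => exact absurd h' (by simp)
    | true =>
      rw [Bool.and_eq_true, Bool.and_eq_true, Bool.and_eq_true] at h'
      obtain ⟨-, hsl, ht, hr⟩ := h'
      refine ⟨fun h => absurd h (by simp), fun _ => ?_⟩
      have hg := hTIP x yu yv k u v hsl
      have hc := (ihr true a1 b1 a2 b2 al0 al1 S x yu yv v up hS hr).2 rfl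
      obtain ⟨S₁, S₂, e1, e2, e3, e4⟩ := keepL_sub u v (mkS x yu yv k u v) S mask
      have hall : ∀ s ∈ keepL u v (mkS x yu yv k u v) S mask, s.Good := by
        intro s hs
        rw [e1] at hs
        rcases List.mem_append.1 hs with hs | hs
        · exact hS s (e2.subset (List.mem_append_left _ hs))
        · rcases List.mem_cons.1 hs with rfl | hs
          · exact hg
          · exact hS s (e2.subset (List.mem_append_right _ hs))
      have hgt := (iht false a1 b1 a2 b2 al0 al1 _ 0 0 0 0 0 hall ht).1 rfl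
      rw [e1, List.map_append, List.map_cons] at hgt
      intro w hw1 hw2
      rcases lt_or_ge w (((v : ℝ) - 2048) / 2048) with hw | hw
      · refine ⟨(mkS x yu yv k u v).slt, S₁.map ISl.slt, S₂.map ISl.slt, rfl, hg.ok, hw1, hw, ?_,
          ?_, ?_, hgt⟩
        · rw [← List.map_append]
          exact e2.map _
        · intro t ht
          obtain ⟨s, hs, rfl⟩ := List.mem_map.1 ht
          exact dir_le (e3 s hs)
        · intro t ht
          obtain ⟨s, hs, rfl⟩ := List.mem_map.1 ht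
          exact dir_le (e4 s hs)
      · exact hc w hw hw2
  | nl =>
    intro md a1 b1 a2 b2 al0 al1 S x yu yv u up hS h
    have h' : (md && Nat.ble up u) = true := h
    cases md with
    | false => exact absurd h' (by simp)
    | true =>
      rw [Bool.and_eq_true, Nat.ble_eq] at h'
      refine ⟨fun h => absurd h (by simp), fun _ w hw1 hw2 => ?_⟩
      exact absurd (hw1.trans_lt hw2) (not_lt.2 (dir_le h'.2))
  | sp dim m t₁ t₂ ih1 ih2 =>
    intro md a1 b1 a2 b2 al0 al1 S x yu yv u up hS h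
    have h' : (!md && (bif Nat.beq dim 1 then
          (chk P t₁ false a1 m a2 b2 al0 al1 S 0 0 0 0 0 &&
            chk P t₂ false m b1 a2 b2 al0 al1 S 0 0 0 0 0)
        else bif Nat.beq dim 2 then
          (chk P t₁ false a1 b1 a2 m al0 al1 S 0 0 0 0 0 &&
            chk P t₂ false a1 b1 m b2 al0 al1 S 0 0 0 0 0)
        else
          (chk P t₁ false a1 b1 a2 b2 al0 m S 0 0 0 0 0 &&
            chk P t₂ false a1 b1 a2 b2 m al1 S 0 0 0 0 0))) = true := h
    cases md with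
    | true => exact absurd h' (by simp)
    | false =>
      refine ⟨fun _ => ?_, fun h => absurd h (by simp)⟩
      rw [Bool.and_eq_true] at h'
      have h2 := h'.2
      cases hd1 : Nat.beq dim 1 with
      | true =>
        rw [hd1, cond_true, Bool.and_eq_true] at h2
        exact split1 ((ih1 _ _ _ _ _ _ _ _ _ _ _ _ _ hS h2.1).1 rfl)
          ((ih2 _ _ _ _ _ _ _ _ _ _ _ _ _ hS h2.2).1 rfl)
      | false =>
        rw [hd1, cond_false] at h2
        cases hd2 : Nat.beq dim 2 with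
        | true =>
          rw [hd2, cond_true, Bool.and_eq_true] at h2
          exact split2 ((ih1 _ _ _ _ _ _ _ _ _ _ _ _ _ hS h2.1).1 rfl)
            ((ih2 _ _ _ _ _ _ _ _ _ _ _ _ _ hS h2.2).1 rfl)
        | false =>
          rw [hd2, cond_false, Bool.and_eq_true] at h2
          exact split3 ((ih1 _ _ _ _ _ _ _ _ _ _ _ _ _ hS h2.1).1 rfl)
            ((ih2 _ _ _ _ _ _ _ _ _ _ _ _ _ hS h2.2).1 rfl)
  | em =>
    intro md a1 b1 a2 b2 al0 al1 S x yu yv u up hS h
    have h' : (!md && emOk a1 a2 al0) = true := h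
    cases md with
    | true => exact absurd h' (by simp)
    | false =>
      rw [Bool.and_eq_true] at h'
      exact ⟨fun _ => hEMI P a1 b1 a2 b2 al0 al1 _ h'.2, fun h => absurd h (by simp)⟩

end CHIM

/-- CHI -/
theorem CHI (hTIP : SpecTIP) (hQRI : SpecQRI) (hLFI : SpecLFI) (hEMI : SpecEMI)
    (hQUE : SpecQUE) : SpecCHI := by
  intro P a1 b1 a2 b2 al0 al1 t h
  exact (CHIM.main hTIP hQRI hLFI hEMI hQUE P t false a1 b1 a2 b2 al0 al1 [] 0 0 0 0 0
    (fun s hs => absurd hs (List.not_mem_nil)) h).1 rfl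

end Pool.Agent.Lib.MP250511.ST.Chk
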