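import Pool.Agent.Lib.MP_250511_an.ST.Spec3

/-!
Problem MP_250511_an, Q2: module `CVX` (convexity of `-(a + b x) log (dot (ee (s x)) n) + A x² / 2`).
-/

set_option autoImplicit false

namespace Pool.Agent.Lib.MP250511.ST

open Complex Metric Set MeasureTheory Filter Topology
open scoped Real ENNReal

noncomputable section

namespace CVXM

/-- `dot (ee u) n` in real terms -/
theorem dot_ee (u : ℝ) (n : ℂ) : dot (ee u) n = Real.cos (π * u) * n.re + Real.sin (π * u) * n.im := by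
  unfold dot ee
  rw [Complex.exp_ofReal_mul_I_re, Complex.exp_ofReal_mul_I_im]

def DD (s p q x : ℝ) : ℝ := Real.cos (π * (s * x)) * p + Real.sin (π * (s * x)) * q

def EE (s p q x : ℝ) : ℝ := s * (-Real.sin (π * (s * x)) * p + Real.cos (π * (s * x)) * q)

theorem hasDerivAt_DD (s p q x : ℝ) : HasDerivAt (DD s p q) (π * EE s p q x) x := by
  have h0 : HasDerivAt (fun x : ℝ => π * (s * x)) (π * (s * 1)) x :=
    ((hasDerivAt_id x).const_mul s).const_mul π
  have h1 := (h0.cos.mul_const p).add (h0.sin.mul_const q)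
  refine h1.congr_deriv ?_
  unfold EE
  ring

theorem hasDerivAt_EE (s p q x : ℝ) (hs : s ^ 2 = 1) :
    HasDerivAt (EE s p q) (-(π * DD s p q x)) x := by
  have h0 : HasDerivAt (fun x : ℝ => π * (s * x)) (π * (s * 1)) x :=
    ((hasDerivAt_id x).const_mul s).const_mul π
  have h1 := ((h0.sin.neg.mul_const p).add (h0.cos.mul_const q)).const_mul s
  refine h1.congr_deriv ?_
  unfold DD
  have : s * (-(Real.cos (π * (s * x)) * (π * (s * 1))) * p +
      -Real.sin (π * (s * x)) * (π * (s * 1)) * q) =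
      -(s ^ 2 * (π * (Real.cos (π * (s * x)) * p + Real.sin (π * (s * x)) * q))) := by ring
  rw [this, hs, one_mul]

theorem sq_add (s p q x : ℝ) (hs : s ^ 2 = 1) (hn : p ^ 2 + q ^ 2 = 1) :
    DD s p q x ^ 2 + EE s p q x ^ 2 = 1 := by
  unfold DD EE
  have h := Real.sin_sq_add_cos_sq (π * (s * x))
  set S := Real.sin (π * (s * x))
  set C := Real.cos (π * (s * x))
  have : (C * p + S * q) ^ 2 + (s * (-S * p + C * q)) ^ 2 =
      (C * p + S * q) ^ 2 + s ^ 2 * (-S * p + C * q) ^ 2 := by ring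
  rw [this, hs]
  have : (C * p + S * q) ^ 2 + 1 * (-S * p + C * q) ^ 2 = (S ^ 2 + C ^ 2) * (p ^ 2 + q ^ 2) := by ring
  rw [this, h, hn]
  norm_num

theorem key (Q b A m D E : ℝ) (hm : 0 < m) (hQ : m ≤ Q) (h1 : 0 ≤ 9.8 * m + A)
    (h2 : b ^ 2 ≤ m * (9.8 * m + A)) :
    0 ≤ Q * π ^ 2 * E ^ 2 - 2 * b * π * E * D + (Q * π ^ 2 + A) * D ^ 2 := by
  have hπ : (9.8 : ℝ) ≤ π ^ 2 := by
    have := Real.pi_gt_d4
    nlinarith
  have hQ0 : 0 < Q := lt_of_lt_of_le hm hQ
  have h3 : 9.8 * m + A ≤ Q * π ^ 2 + A := by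
    have : m * 9.8 ≤ Q * π ^ 2 := mul_le_mul hQ hπ (by norm_num) hQ0.le
    linarith
  have h4 : b ^ 2 ≤ Q * (Q * π ^ 2 + A) :=
    h2.trans (mul_le_mul hQ h3 h1 hQ0.le)
  have hp := Real.pi_pos
  -- multiply by Q
  have h5 : 0 ≤ Q * (Q * π ^ 2 * E ^ 2 - 2 * b * π * E * D + (Q * π ^ 2 + A) * D ^ 2) := by
    have : Q * (Q * π ^ 2 * E ^ 2 - 2 * b * π * E * D + (Q * π ^ 2 + A) * D ^ 2) =
        (Q * π * E - b * D) ^ 2 + (Q * (Q * π ^ 2 + A) - b ^ 2) * D ^ 2 := by ring
    rw [this]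
    have := mul_nonneg (sub_nonneg.2 h4) (sq_nonneg D)
    positivity
  exact nonneg_of_mul_nonneg_right h5 hQ0

end CVXM

theorem specCVX : SpecCVX := by
  intro a b A m s x₀ x₁ n hs hn hm hQ hD h1 h2
  have hs2 : s ^ 2 = 1 := by rcases hs with h | h <;> rw [h] <;> norm_num
  have hn2 : n.re ^ 2 + n.im ^ 2 = 1 := by
    have := Complex.sq_norm n
    rw [hn, Complex.normSq_apply] at this
    nlinarith
  set p := n.re with hp
  set q := n.im with hq
  have hdd : ∀ x, dot (ee (s * x)) n = CVXM.DD s p q x := fun x => CVXM.dot_ee _ _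
  have hDp : ∀ x, x₀ ≤ x → x ≤ x₁ → 0 < CVXM.DD s p q x := by
    intro x hx hx'
    rw [← hdd]
    exact hD x hx hx'
  have hfe : (fun x => -((a + b * x) * Real.log (dot (ee (s * x)) n)) + A * x ^ 2 / 2) =
      fun x => -((a + b * x) * Real.log (CVXM.DD s p q x)) + A * x ^ 2 / 2 := by
    funext x
    rw [hdd]
  rw [hfe]
  have hd1 : ∀ x, x₀ ≤ x → x ≤ x₁ →
      HasDerivAt (fun x => -((a + b * x) * Real.log (CVXM.DD s p q x)) + A * x ^ 2 / 2)
        (-(b * Real.log (CVXM.DD s p q x) +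
          (a + b * x) * (π * CVXM.EE s p q x / CVXM.DD s p q x)) + A * x) x := by
    intro x hx hx'
    have hD0 := (hDp x hx hx').ne'
    have ha : HasDerivAt (fun x : ℝ => a + b * x) (b * 1) x :=
      ((hasDerivAt_id x).const_mul b).const_add a
    have hl := (CVXM.hasDerivAt_DD s p q x).log hD0
    have hsq : HasDerivAt (fun x : ℝ => A * x ^ 2 / 2) (A * (2 * x ^ 1) / 2) x := by
      have := ((hasDerivAt_pow 2 x).const_mul A).div_const 2
      simpa using this
    refine ((ha.mul hl).neg.add hsq).congr_deriv ?_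
    ring
  have hd2 : ∀ x, x₀ ≤ x → x ≤ x₁ →
      HasDerivAt (fun x => -(b * Real.log (CVXM.DD s p q x) +
          (a + b * x) * (π * CVXM.EE s p q x / CVXM.DD s p q x)) + A * x)
        (-(2 * b * (π * CVXM.EE s p q x / CVXM.DD s p q x)) +
          (a + b * x) * π ^ 2 * (1 / CVXM.DD s p q x ^ 2) + A) x := by
    intro x hx hx'
    have hD0 := (hDp x hx hx').ne'
    have ha : HasDerivAt (fun x : ℝ => a + b * x) (b * 1) x :=
      ((hasDerivAt_id x).const_mul b).const_add a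
    have hl := (CVXM.hasDerivAt_DD s p q x).log hD0
    have hq := ((CVXM.hasDerivAt_EE s p q x hs2).const_mul π).div (CVXM.hasDerivAt_DD s p q x) hD0
    have hA : HasDerivAt (fun x : ℝ => A * x) (A * 1) x := (hasDerivAt_id x).const_mul A
    refine (((hl.const_mul b).add (ha.mul hq)).neg.add hA).congr_deriv ?_
    have he := CVXM.sq_add s p q x hs2 hn2
    have : (π * -(π * CVXM.DD s p q x) * CVXM.DD s p q x -
        π * CVXM.EE s p q x * (π * CVXM.EE s p q x)) = -π ^ 2 := by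
      have : (π * -(π * CVXM.DD s p q x) * CVXM.DD s p q x -
        π * CVXM.EE s p q x * (π * CVXM.EE s p q x)) =
          -π ^ 2 * (CVXM.DD s p q x ^ 2 + CVXM.EE s p q x ^ 2) := by ring
      rw [this, he, mul_one]
    rw [this, Pi.div_apply]
    field_simp
    ring
  refine convexOn_of_hasDerivWithinAt2_nonneg (convex_Icc _ _)
    (f' := fun x => -(b * Real.log (CVXM.DD s p q x) +
          (a + b * x) * (π * CVXM.EE s p q x / CVXM.DD s p q x)) + A * x)
    (f'' := fun x => -(2 * b * (π * CVXM.EE s p q x / CVXM.DD s p q x)) +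
          (a + b * x) * π ^ 2 * (1 / CVXM.DD s p q x ^ 2) + A) ?_ ?_ ?_ ?_
  · intro x hx
    exact (hd1 x hx.1 hx.2).continuousAt.continuousWithinAt
  · intro x hx
    rw [interior_Icc] at hx
    exact (hd1 x hx.1.le hx.2.le).hasDerivWithinAt
  · intro x hx
    rw [interior_Icc] at hx
    exact (hd2 x hx.1.le hx.2.le).hasDerivWithinAt
  · intro x hx
    rw [interior_Icc] at hx
    have hDx := hDp x hx.1.le hx.2.le
    have hD0 := hDx.ne'
    have he := CVXM.sq_add s p q x hs2 hn2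
    have hk := CVXM.key (a + b * x) b A m (CVXM.DD s p q x) (CVXM.EE s p q x) hm
      (hQ x hx.1.le hx.2.le) h1 h2
    show 0 ≤ -(2 * b * (π * CVXM.EE s p q x / CVXM.DD s p q x)) +
          (a + b * x) * π ^ 2 * (1 / CVXM.DD s p q x ^ 2) + A
    generalize CVXM.DD s p q x = D at *
    generalize CVXM.EE s p q x = E at *
    have h6 : -(2 * b * (π * E / D)) + (a + b * x) * π ^ 2 * (1 / D ^ 2) + A =
        ((a + b * x) * π ^ 2 * E ^ 2 - 2 * b * π * E * D +
          ((a + b * x) * π ^ 2 + A) * D ^ 2) / D ^ 2 := by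
      rw [← he]
      field_simp
      ring
    rw [h6]
    exact div_nonneg hk (sq_nonneg D)

end

end Pool.Agent.Lib.MP250511.ST
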