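import Pool.Agent.Lib.MP_250511_an.ST.Chk0

/-!
Problem MP_250511_an, Q2, part 4: the integer checker of the certificates of part 2 (query game in
one sector).  Everything is a natural number and is written for evaluation by the kernel.

Units: directions `1/2048` (in units of `π`), all directions are biased by `2048`; radii `1/256`;
openings `1/1024`; centres `1/512`, centre `(x, yu - yv) / 512`; weights `1/1024`; `κ` in `1/1024`;
dual matrix `2⁻²⁰`; potentials `2⁻²⁰`; logarithms `2⁻³⁰`, biased by `2³⁴`.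
-/

set_option autoImplicit false

namespace Pool.Agent.Lib.MP250511.ST.Chk

/-! ## Sums -/

/-- `f 0 + .. + f (n - 1)` -/
def sumTo (n : ℕ) (f : ℕ → ℕ) : ℕ :=
  Nat.rec (motive := fun _ => ℕ) 0 (fun k s => Nat.add s (f k)) n

/-- `f 0 ∧ .. ∧ f (n - 1)` -/
def allTo (n : ℕ) (f : ℕ → Bool) : Bool :=
  Nat.rec (motive := fun _ => Bool) true (fun k s => and (f k) s) n

/-! ## Trigonometric functions -/

/-- distance -/
def dst (a b : ℕ) : ℕ := Nat.add (Nat.sub a b) (Nat.sub b a)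

/-- positive part of `2³⁰ cos (π d / 2048)`, `d ≤ 4096` -/
def cp (d : ℕ) : ℕ :=
  bif Nat.ble d 1024 then cT d else bif Nat.ble 3072 d then cT (Nat.sub 4096 d) else 0

/-- negative part of `2³⁰ cos (π d / 2048)`, `d ≤ 4096` -/
def cn (d : ℕ) : ℕ :=
  bif Nat.ble d 1024 then 0 else bif Nat.ble 3072 d then 0 else cT (dst d 2048)

/-! ## Slits and potentials -/

/-- integer data of a slit: directions `lo`, `hi` and normal direction `k`, centre
`(x, yu - yv) / 512`, upper bounds `tl`, `th` of the tip logarithm at `lo`, `hi` -/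
structure ISl where
  lo : ℕ
  hi : ℕ
  x : ℕ
  yu : ℕ
  yv : ℕ
  k : ℕ
  tl : ℕ
  th : ℕ

/-- potential `A + (Bp - Bn) α + g₁ ρ₁ + g₂ ρ₂`, units `2⁻²⁰` -/
structure IPt where
  A : ℕ
  Bp : ℕ
  Bn : ℕ
  g₁ : ℕ
  g₂ : ℕ

/-- `2³⁹ (1 + dot c ν)` with `ν` of direction `k` is `hp - hm`, error at most `he` -/
def hp (x yu yv k : ℕ) : ℕ :=
  Nat.add 549755813888 (Nat.add (Nat.mul x (cp (dst k 2048)))
    (Nat.add (Nat.mul yu (cp (dst k 3072))) (Nat.mul yv (cn (dst k 3072)))))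

def hm (x yu yv k : ℕ) : ℕ :=
  Nat.add (Nat.mul x (cn (dst k 2048)))
    (Nat.add (Nat.mul yu (cn (dst k 3072))) (Nat.mul yv (cp (dst k 3072))))

def he (x yu yv : ℕ) : ℕ := Nat.mul 2 (Nat.add x (Nat.add yu yv))

/-- `1 + dot c ν > 0` -/
def hPos (x yu yv k : ℕ) : Bool := Nat.blt (Nat.add (hm x yu yv k) (he x yu yv)) (hp x yu yv k)

/-- upper bound of `2³⁹ (1 + dot c ν)` -/
def hU (x yu yv k : ℕ) : ℕ := Nat.sub (Nat.add (hp x yu yv k) (he x yu yv)) (hm x yu yv k)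

/-- upper bound of the tip logarithm in direction `v`; `H = hU x yu yv k` -/
def tip (H k v : ℕ) : ℕ :=
  Nat.sub (Nat.add (lu H 31) 17179869184)
    (Nat.add (lw (Nat.sub (cT (dst v k)) 2) 19) (Nat.mul 9 LN2L))

/-- conditions for a direction `v` of a slit -/
def vOk (k v : ℕ) : Bool := and (Nat.ble (dst v k) 1023) (Nat.ble 3 (cT (dst v k)))

/-- conditions for a new slit -/
def slOk (x yu yv k lo hi : ℕ) : Bool :=
  and (Nat.blt lo hi) (and (and (Nat.ble k 4096) (and (Nat.ble 1024 lo) (Nat.ble hi 3072)))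
    (and (and (vOk k lo) (vOk k hi)) (and (hPos x yu yv k)
      (and (Nat.ble 1 (Nat.shiftRight (hU x yu yv k) 31))
        (Nat.ble (Nat.shiftRight (hU x yu yv k) 31) 2048)))))

/-- the new slit `[lo, hi)` of the query with centre `(x, yu - yv) / 512` and normal direction `k` -/
def mkS (x yu yv k lo hi : ℕ) : ISl :=
  ⟨lo, hi, x, yu, yv, k, tip (hU x yu yv k) k lo, tip (hU x yu yv k) k hi⟩

/-! ## Queries

Vectors `(a, bu - bv)` with `a, bu, bv` natural numbers; units `2⁻³⁰`, error of each coordinate at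
most `2`. -/

/-- error bound -/
def er (a bu bv c du dv : ℕ) : ℕ :=
  Nat.add (Nat.mul 2 (Nat.add (Nat.add a (Nat.add bu bv)) (Nat.add c (Nat.add du dv)))) 9

/-- `crs (a, bu - bv) (c, du - dv) > 0` -/
def crP (a bu bv c du dv : ℕ) : Bool :=
  Nat.ble (Nat.add (er a bu bv c du dv) (Nat.add (Nat.mul a dv) (Nat.mul bu c)))
    (Nat.add (Nat.mul a du) (Nat.mul bv c))

/-- `dot (a, bu - bv) (c, du - dv) > 0` -/
def dtP (a bu bv c du dv : ℕ) : Bool :=
  Nat.ble (Nat.add (er a bu bv c du dv) (Nat.add (Nat.mul bu dv) (Nat.mul bv du)))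
    (Nat.add (Nat.mul a c) (Nat.add (Nat.mul bu du) (Nat.mul bv dv)))

/-- upper bound of `√(1 + κ²)`, `κ = K / 1024`, units `2⁻²⁰`; it is `(z / s + s) / 2` with
`z = 1 + κ²`, `s = 1 + κ / 2` -/
def sqK (K : ℕ) : ℕ :=
  Nat.add 1 (Nat.div (Nat.add (Nat.add 1 (Nat.div (Nat.mul (Nat.add 1048576 (Nat.mul K K)) 2048)
    (Nat.add 2048 K))) (Nat.mul (Nat.add 2048 K) 512)) 2)

/-- upper bound of `|p|²`, `p = (px, ± py)`; units `2⁻⁶⁰` -/
def p2 (px py : ℕ) : ℕ :=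
  Nat.add (Nat.add (Nat.mul px px) (Nat.mul py py)) (Nat.add (Nat.mul 4 (Nat.add px py)) 8)

/-- upper bound of `|p|` from `P2 = p2 px py`, units `2⁻³⁰`; it is `(|p|² + 1) / 2` -/
def pN (P2 : ℕ) : ℕ := Nat.add 1 (Nat.div (Nat.add (Nat.add 1 (Nat.shiftRight P2 30)) 1073741824) 2)

/-- upper bound of `10 √(1 + κ²) (b₁ b₂ + (b₁ + b₂) |p| / 4) (α₁ - α₀)² / 8`, units `2⁻⁷⁸`;
`da = al1 - al0` -/
def eta (b1 b2 da K P2 : ℕ) : ℕ :=
  Nat.add 1 (Nat.shiftRight (Nat.mul (Nat.mul (Nat.mul 10 (sqK K))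
    (Nat.add (Nat.shiftLeft (Nat.mul b1 b2) 30) (Nat.mul (Nat.mul (Nat.add b1 b2) (pN P2)) 64)))
    (Nat.mul da da)) 11)

/-- error of the vertex expression, units `2⁻⁷⁸` -/
def erV (b1 b2 K px pu pv : ℕ) : ℕ :=
  Nat.mul (Nat.add 1024 K) (Nat.add (Nat.shiftLeft (Nat.mul b1 b2) 23) (Nat.mul (Nat.add b1 b2)
    (Nat.add (Nat.mul 2 (Nat.add 2147483648 (Nat.add px (Nat.add pu pv)))) 32)))

/-- a vertex `(r₁, r₂)` -/
def vx (R ML MG L1 G1 L2 G2 r1 r2 : ℕ) : Bool :=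
  Nat.blt (Nat.add (Nat.add (Nat.mul (Nat.mul r1 r2) ML) R) (Nat.add (Nat.mul r1 L1) (Nat.mul r2 L2)))
    (Nat.add (Nat.mul (Nat.mul r1 r2) MG) (Nat.add (Nat.mul r1 G1) (Nat.mul r2 G2)))

/-- the four vertices `(r₁, r₂)` -/
def vx4 (a1 b1 a2 b2 R ML MG L1 G1 L2 G2 : ℕ) : Bool :=
  and (and (vx R ML MG L1 G1 L2 G2 a1 a2) (vx R ML MG L1 G1 L2 G2 a1 b2))
    (and (vx R ML MG L1 G1 L2 G2 b1 a2) (vx R ML MG L1 G1 L2 G2 b1 b2))

/-- the vertices for one opening and both signs; `C = - cos (π α)`, `D = sin (π α)`, `cx = c px`,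
`sx = s px`, `cu = c pu`, `cv = c pv`, `su = s pu`, `sv = s pv` with `c = cos (π α / 2)`,
`s = sin (π α / 2)` -/
def vxA (a1 b1 a2 b2 K R C D cx sx cu cv su sv : ℕ) : Bool :=
  and
    (vx4 a1 b1 a2 b2 R (Nat.shiftLeft (Nat.mul K D) 22) (Nat.shiftLeft C 32)
      (Nat.add (Nat.mul 1024 su) (Nat.mul K cv))
      (Nat.add (Nat.mul 1024 (Nat.add cx sv)) (Nat.mul K (Nat.add cu sx)))
      (Nat.add (Nat.mul 1024 sv) (Nat.mul K cu))
      (Nat.add (Nat.mul 1024 (Nat.add cx su)) (Nat.mul K (Nat.add sx cv))))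
    (vx4 a1 b1 a2 b2 R 0 (Nat.add (Nat.shiftLeft C 32) (Nat.shiftLeft (Nat.mul K D) 22))
      (Nat.add (Nat.mul 1024 su) (Nat.mul K (Nat.add cu sx)))
      (Nat.add (Nat.mul 1024 (Nat.add cx sv)) (Nat.mul K cv))
      (Nat.add (Nat.mul 1024 sv) (Nat.mul K (Nat.add sx cv)))
      (Nat.add (Nat.mul 1024 (Nat.add cx su)) (Nat.mul K cu)))

/-- the vertices for the opening `al` -/
def vxB (a1 b1 a2 b2 K R px pu pv al : ℕ) : Bool :=
  vxA a1 b1 a2 b2 K R (cT (Nat.sub 2048 (Nat.mul 2 al))) (cT (Nat.sub (Nat.mul 2 al) 1024))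
    (Nat.mul (cT al) px) (Nat.mul (cT (Nat.sub 1024 al)) px)
    (Nat.mul (cT al) pu) (Nat.mul (cT al) pv)
    (Nat.mul (cT (Nat.sub 1024 al)) pu) (Nat.mul (cT (Nat.sub 1024 al)) pv)

/-- `P2 2¹⁸ + eta + erV` -/
def lR (b1 b2 da K px pu pv : ℕ) : ℕ :=
  Nat.add (Nat.add (Nat.shiftLeft (p2 px (dst pu pv)) 18) (eta b1 b2 da K (p2 px (dst pu pv))))
    (erV b1 b2 K px pu pv)

/-- the lens condition for the point `(px, pu - pv)` -/
def lens (a1 b1 a2 b2 al0 al1 K px pu pv : ℕ) : Bool :=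
  and (vxB a1 b1 a2 b2 K (lR b1 b2 (Nat.sub al1 al0) K px pu pv) px pu pv al0)
    (vxB a1 b1 a2 b2 K (lR b1 b2 (Nat.sub al1 al0) K px pu pv) px pu pv al1)

/-- lower bound of `a₁² + a₂² - 2 a₁ a₂ cos (π α₀)`, units `2⁻⁴⁶` -/
def l2 (a1 a2 al0 : ℕ) : ℕ :=
  Nat.add (Nat.shiftLeft (Nat.add (Nat.mul a1 a1) (Nat.mul a2 a2)) 30)
    (Nat.mul (Nat.mul 2 (Nat.mul a1 a2)) (Nat.sub (cT (Nat.sub 2048 (Nat.mul 2 al0))) 2))

/-- `4 ≤ (κ² + 1) (a₁² + a₂² - 2 a₁ a₂ cos (π α₀))` -/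
def kOk (a1 a2 al0 K : ℕ) : Bool :=
  Nat.ble 295147905179352825856 (Nat.mul (Nat.add (Nat.mul K K) 1048576) (l2 a1 a2 al0))

/-- the conditions on the box (for queries) -/
def boxOk (a1 b1 a2 b2 al0 al1 : ℕ) : Bool :=
  and (and (Nat.ble 1 a1) (Nat.ble a1 b1)) (and (and (Nat.ble 1 a2) (Nat.ble a2 b2))
    (and (Nat.ble 512 al0) (and (Nat.ble al0 al1) (Nat.ble al1 1024))))

/-- the conditions for the points `p = (px, pu - pv)`, `q = (qx, qu - qv)` -/
def qp (a1 b1 a2 b2 al0 al1 K um up px pu pv qx qu qv : ℕ) : Bool :=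
  and (and (crP px pu pv qx qu qv)
      (and (and (crP (cp (dst um 2048)) (cp (dst um 3072)) (cn (dst um 3072)) px pu pv)
          (dtP (cp (dst um 2048)) (cp (dst um 3072)) (cn (dst um 3072)) px pu pv))
        (and (crP qx qu qv (cp (dst up 2048)) (cp (dst up 3072)) (cn (dst up 3072)))
          (dtP qx qu qv (cp (dst up 2048)) (cp (dst up 3072)) (cn (dst up 3072))))))
    (and (lens a1 b1 a2 b2 al0 al1 K px pu pv) (lens a1 b1 a2 b2 al0 al1 K qx qu qv))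

/-- first coordinate of `c + ee k` (if `pxOk`) -/
def pX (x k : ℕ) : ℕ := Nat.sub (Nat.add (Nat.mul x 2097152) (cp (dst k 2048))) (cn (dst k 2048))

def pxOk (x k : ℕ) : Bool := Nat.ble (cn (dst k 2048)) (Nat.add (Nat.mul x 2097152) (cp (dst k 2048)))

/-- second coordinate of `c + ee k`: positive and negative part -/
def pU (yu k : ℕ) : ℕ := Nat.add (Nat.mul yu 2097152) (cp (dst k 3072))

def pV (yv k : ℕ) : ℕ := Nat.add (Nat.mul yv 2097152) (cn (dst k 3072))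

/-- the query with centre `(x, yu - yv) / 512`, back directions `kP`, `kQ`, cover `[um, up]` -/
def qOk (a1 b1 a2 b2 al0 al1 x yu yv kP kQ K um up : ℕ) : Bool :=
  and (and (boxOk a1 b1 a2 b2 al0 al1) (and (Nat.ble kP 4096) (Nat.ble kQ 4096)))
    (and (and (Nat.blt um up) (and (Nat.ble 2048 (Nat.add um al0)) (Nat.ble up (Nat.add 2048 al0))))
      (and (and (Nat.blt 2048 (Nat.mod (Nat.sub (Nat.add kQ 8192) kP) 4096))
          (and (and (hPos x yu yv kP) (hPos x yu yv kQ)) (and (pxOk x kP) (pxOk x kQ))))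
        (and (kOk a1 a2 al0 K)
          (qp a1 b1 a2 b2 al0 al1 K um up (pX x kP) (pU yu kP) (pV yv kP) (pX x kQ) (pU yu kQ)
            (pV yv kQ)))))

/-! ## Leaves -/

/-- weight `j`: 12 bits each -/
def qj (Q j : ℕ) : ℕ := Nat.mod (Nat.shiftRight Q (Nat.mul 12 j)) 4096

/-- packed entry `(j, l)` of the dual matrix: 28 bits each, `|w| + 2²⁴ s`; `s` is the shift for the
logarithm -/
def wx (W n j l : ℕ) : ℕ :=
  Nat.mod (Nat.shiftRight W (Nat.mul 28 (Nat.add (Nat.mul j (Nat.succ n)) l))) 268435456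

/-- the dual matrix `w` (absolute values; positive for `j ≤ l`, negative for `l < j`) is feasible -/
def wOk (n : ℕ) (w : ℕ → ℕ → ℕ) : Bool :=
  and (allTo (Nat.succ n) (fun l => Nat.beq (sumTo (Nat.succ l) (fun j => w j l))
      (sumTo (Nat.sub (Nat.succ n) l) (fun i => w (Nat.add (Nat.succ l) i) l))))
    (and (allTo n (fun j => Nat.beq (sumTo (Nat.succ j) (fun l => w (Nat.succ j) l))
        (sumTo (Nat.sub n j) (fun i => w (Nat.succ j) (Nat.add (Nat.succ j) i)))))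
      (allTo (Nat.add n 2) (fun j => allTo (Nat.succ n) (fun l => Nat.ble 1 (w j l)))))

/-- upper bound of `2³⁴ + 2³⁰ log m`, times `m` -/
def ml (m : ℕ) : ℕ := Nat.mul m (Nat.add (le m) 16)

/-- `∑ q_j log |w_jl|` for the column `l` (lower bound, biased); `x` packed entries -/
def fl (n : ℕ) (q : ℕ → ℕ) (x : ℕ → ℕ → ℕ) (l : ℕ) : ℕ :=
  sumTo (Nat.add n 2) (fun j => Nat.mul (q j) (lw (Nat.mod (x j l) 16777216)
    (Nat.shiftRight (x j l) 24)))

/-- `∑_l (w_0l + w_{n+1,l})` -/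
def ws (n : ℕ) (x : ℕ → ℕ → ℕ) : ℕ :=
  sumTo (Nat.succ n) (fun l => Nat.add (Nat.mod (x 0 l) 16777216) (Nat.mod (x (Nat.succ n) l) 16777216))

/-- all vertices of a leaf: `e` last direction `2048 + al`, `k` number of slits already used, `u` last
direction, `A = c₁ + ∑ (1024 ml g_l + 2048 q_{l+1} t_l)`, `B = c₂ + ∑ g_l F l` -/
def vxs (q F : ℕ → ℕ) (e : ℕ) : List ISl → ℕ → ℕ → ℕ → ℕ → Bool
  | [], k, u, A, B => and (Nat.ble u e)
      (Nat.ble (Nat.add A (Nat.mul 1024 (ml (Nat.sub e u)))) (Nat.add B (Nat.mul (Nat.sub e u) (F k))))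
  | s :: S, k, u, A, B =>
      and (and (Nat.ble u s.lo) (vxs q F e S (Nat.succ k) s.lo
          (Nat.add A (Nat.add (Nat.mul 1024 (ml (Nat.sub s.lo u)))
            (Nat.mul 2048 (Nat.mul (q (Nat.succ k)) s.tl)))) (Nat.add B (Nat.mul (Nat.sub s.lo u) (F k)))))
        (and (Nat.ble u s.hi) (vxs q F e S (Nat.succ k) s.hi
          (Nat.add A (Nat.add (Nat.mul 1024 (ml (Nat.sub s.hi u)))
            (Nat.mul 2048 (Nat.mul (q (Nat.succ k)) s.th)))) (Nat.add B (Nat.mul (Nat.sub s.hi u) (F k)))))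

/-- the terms of an end with weight `q`, `g` of the potential, outer radius `b`: left-hand side -/
def endL (g q b : ℕ) : ℕ :=
  bif Nat.ble g (Nat.mul 1024 q) then
    Nat.mul (Nat.mul 2 (Nat.sub (Nat.mul 1024 q) g)) (Nat.add (le b) 16)
  else Nat.mul (Nat.mul 2 (Nat.sub g (Nat.mul 1024 q))) (Nat.add 17179869184 (Nat.mul 8 LN2U))

/-- the same, right-hand side; `a` inner radius -/
def endR (g q a : ℕ) : ℕ :=
  bif Nat.ble g (Nat.mul 1024 q) then
    Nat.mul (Nat.mul 2 (Nat.sub (Nat.mul 1024 q) g)) (Nat.add 17179869184 (Nat.mul 8 LN2L))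
  else Nat.mul (Nat.mul 2 (Nat.sub g (Nat.mul 1024 q))) (le a)

/-- the condition for an end -/
def endOk (g q a b : ℕ) : Bool :=
  and (and (Nat.ble 1 b) (Nat.ble b 2048)) (and (Nat.ble a b) (or (Nat.ble g (Nat.mul 1024 q))
    (Nat.ble 1 a)))

/-- left-hand constant: `e` terms of the ends, `E = ∑ ml q_j`, `w = ws` -/
def cL (P : IPt) (e E w al : ℕ) : ℕ :=
  Nat.add (Nat.add e (Nat.shiftLeft w 31))
    (Nat.add (Nat.mul E (Nat.mul 2 al)) (Nat.mul (Nat.mul P.Bn al) 2097152))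

/-- right-hand constant: `e` terms of the ends, `F = ∑ q_{k+1}` (inner weights) -/
def cR (P : IPt) (e F al : ℕ) : ℕ :=
  Nat.add (Nat.add e (Nat.add (Nat.mul 18691697672192 (Nat.mul 2 al)) (Nat.mul F 35184372088832)))
    (Nat.add (Nat.mul P.A 2147483648) (Nat.mul (Nat.mul P.Bp al) 2097152))

/-- the leaf with `n` known slits `S`, packed weights `Q` and packed dual matrix `W` -/
def leafN (P : IPt) (a1 b1 a2 b2 al0 al1 : ℕ) (S : List ISl) (Q W n : ℕ) : Bool :=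
  and (and (and (and (Nat.ble al0 al1) (Nat.ble al1 1024)) (Nat.beq (sumTo (Nat.add n 2) (qj Q)) 1024))
      (wOk n (fun j l => Nat.mod (wx W n j l) 16777216)))
    (and (and (endOk P.g₁ (qj Q 0) a1 b1) (endOk P.g₂ (qj Q (Nat.succ n)) a2 b2))
      ((fun e1 e2 E F w : ℕ =>
        and (vxs (qj Q) (fl n (qj Q) (wx W n)) (Nat.add 2048 al0) S 0 (Nat.sub 2048 al0)
            (cL P e1 E w al0) (cR P e2 F al0))
          (vxs (qj Q) (fl n (qj Q) (wx W n)) (Nat.add 2048 al1) S 0 (Nat.sub 2048 al1)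
            (cL P e1 E w al1) (cR P e2 F al1)))
        (Nat.add (endL P.g₁ (qj Q 0) b1) (endL P.g₂ (qj Q (Nat.succ n)) b2))
        (Nat.add (endR P.g₁ (qj Q 0) a1) (endR P.g₂ (qj Q (Nat.succ n)) a2))
        (sumTo (Nat.add n 2) (fun j => ml (qj Q j)))
        (sumTo n (fun k => qj Q (Nat.succ k)))
        (ws n (wx W n))))

/-- the leaf check -/
def leaf (P : IPt) (a1 b1 a2 b2 al0 al1 : ℕ) (S : List ISl) (Q W : ℕ) : Bool :=
  leafN P a1 b1 a2 b2 al0 al1 S Q W S.length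

/-! ## Trees -/

/-- certificates: leaf, query (centre `(x, yu - yv) / 512`, back directions, `κ`, cover `[um, up]`,
parts), part (right end, normal direction, mask of the slits that are kept, certificate, further
parts), end of the parts, split of the box (`dim = 1`: `r₁`, `2`: `r₂`, otherwise `α`) at `m`, empty
box -/
inductive T : Type
  | lf (Q W : ℕ) : T
  | qy (x yu yv kP kQ K um up : ℕ) (ps : T) : T
  | pt (v k mask : ℕ) (t rest : T) : T
  | nl : T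
  | sp (dim m : ℕ) (t₁ t₂ : T) : T
  | em : T

/-- slits of the mask with `v ≤ lo` -/
def keepR (v : ℕ) : List ISl → ℕ → List ISl
  | [], _ => []
  | s :: S, m => bif and (Nat.beq (Nat.mod m 2) 1) (Nat.ble v s.lo) then s :: keepR v S (Nat.div m 2)
      else keepR v S (Nat.div m 2)

/-- the slits of the mask on the left of `u`, the new slit `c`, the slits of the mask on the right of
`v` -/
def keepL (u v : ℕ) (c : ISl) : List ISl → ℕ → List ISl
  | [], _ => [c]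
  | s :: S, m => bif Nat.beq (Nat.mod m 2) 1 then
        (bif Nat.ble s.hi u then s :: keepL u v c S (Nat.div m 2) else c :: keepR v (s :: S) m)
      else keepL u v c S (Nat.div m 2)

/-- `4 < a₁² + a₂² - 2 a₁ a₂ cos (π α₀)` -/
def emOk (a1 a2 al0 : ℕ) : Bool :=
  and (and (Nat.ble 512 al0) (Nat.ble al0 1024)) (Nat.blt 281474976710656 (l2 a1 a2 al0))

/-- The checker.  `md = false`: the tree `t` proves the potential in the box with the known slits `S`.
`md = true`: `t` is a list of parts which covers the directions in `[u, up)` for the query with centre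
`(x, yu - yv) / 512`. -/
def chk (P : IPt) : T → (md : Bool) → (a1 b1 a2 b2 al0 al1 : ℕ) → (S : List ISl) →
    (x yu yv u up : ℕ) → Bool
  | T.lf Q W, md, a1, b1, a2, b2, al0, al1, S, _, _, _, _, _ =>
      and (not md) (leaf P a1 b1 a2 b2 al0 al1 S Q W)
  | T.qy x yu yv kP kQ K um up ps, md, a1, b1, a2, b2, al0, al1, S, _, _, _, _, _ =>
      and (not md) (and (qOk a1 b1 a2 b2 al0 al1 x yu yv kP kQ K um up)
        (chk P ps true a1 b1 a2 b2 al0 al1 S x yu yv um up))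
  | T.pt v k mask t rest, md, a1, b1, a2, b2, al0, al1, S, x, yu, yv, u, up =>
      and md (and (slOk x yu yv k u v)
        (and (chk P t false a1 b1 a2 b2 al0 al1 (keepL u v (mkS x yu yv k u v) S mask) 0 0 0 0 0)
          (chk P rest true a1 b1 a2 b2 al0 al1 S x yu yv v up)))
  | T.nl, md, _, _, _, _, _, _, _, _, _, _, u, up => and md (Nat.ble up u)
  | T.sp dim m t₁ t₂, md, a1, b1, a2, b2, al0, al1, S, _, _, _, _, _ =>
      and (not md) (bif Nat.beq dim 1 then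
          and (chk P t₁ false a1 m a2 b2 al0 al1 S 0 0 0 0 0)
            (chk P t₂ false m b1 a2 b2 al0 al1 S 0 0 0 0 0)
        else bif Nat.beq dim 2 then
          and (chk P t₁ false a1 b1 a2 m al0 al1 S 0 0 0 0 0)
            (chk P t₂ false a1 b1 m b2 al0 al1 S 0 0 0 0 0)
        else
          and (chk P t₁ false a1 b1 a2 b2 al0 m S 0 0 0 0 0)
            (chk P t₂ false a1 b1 a2 b2 m al1 S 0 0 0 0 0))
  | T.em, md, a1, _, a2, _, al0, _, _, _, _, _, _, _ => and (not md) (emOk a1 a2 al0)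

/-- one top box -/
def top (P : IPt) (a1 b1 a2 b2 al0 al1 : ℕ) (t : T) : Bool :=
  chk P t false a1 b1 a2 b2 al0 al1 [] 0 0 0 0 0

/-! ## Meaning -/

noncomputable section

/-- the slit described by integer data -/
def ISl.slt (s : ISl) : Slt :=
  ⟨((s.lo : ℝ) - 2048) / 2048, ((s.hi : ℝ) - 2048) / 2048,
    ⟨(s.x : ℝ) / 512, ((s.yu : ℝ) - s.yv) / 512⟩, ee (((s.k : ℝ) - 2048) / 2048)⟩

/-- correct slit data -/
structure ISl.Good (s : ISl) : Prop where
  ok : s.slt.Ok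
  tl : s.slt.tip s.slt.lo ≤ ((s.tl : ℝ) - 2 ^ 34) / 2 ^ 30
  th : s.slt.tip s.slt.hi ≤ ((s.th : ℝ) - 2 ^ 34) / 2 ^ 30

/-- the potential -/
def IPt.ptl (P : IPt) : Ptl :=
  ⟨(P.A : ℝ) / 2 ^ 20, ((P.Bp : ℝ) - P.Bn) / 2 ^ 20, (P.g₁ : ℝ) / 2 ^ 20, (P.g₂ : ℝ) / 2 ^ 20⟩

/-- the box -/
def bx (a1 b1 a2 b2 al0 al1 : ℕ) : Box :=
  ⟨(a1 : ℝ) / 256, (b1 : ℝ) / 256, (a2 : ℝ) / 256, (b2 : ℝ) / 256, (al0 : ℝ) / 1024, (al1 : ℝ) / 1024⟩

end

end Pool.Agent.Lib.MP250511.ST.Chk
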