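import Pool.Agent.Lib.MP_250511_an.ST.Spec4

/-!
Problem MP_250511_an, Q2, part 5: the integer checker of the final inequality (three sectors).

Units: openings `1/256`; directions `1/2048` (in units of `π`), biased by `4096`; potentials `2⁻²⁰`;
weights `q_j` in `2⁻²⁹`; `μ_j` in `2⁻²⁰`; norms in `2⁻⁵⁰`; logarithms `2⁻³⁰`, biased by `2³⁴` where
`le`, `lw`, `lu` are used; `V` in `2⁻³⁰`; the inequality in `2⁻⁵⁹`.
-/

set_option autoImplicit false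

namespace Pool.Agent.Lib.MP250511.ST.Chk

/-- Integer data of the potential of a sector: `A₀ = A / 2²⁰`,
`BL / 2³⁰ - 1 ≤ A₁ ≤ BU / 2³⁰ - 1`, `g₁`, `g₂` in `2⁻²⁰`. -/
structure Sec where
  A : ℕ
  BU : ℕ
  BL : ℕ
  g₁ : ℕ
  g₂ : ℕ

/-- the potential without inner slits with weights `Q / 64`, `1 - Q / 64` -/
def secB (Q : ℕ) : Sec :=
  ⟨0, Nat.sub (Nat.add 1073741825 (Nat.div (Nat.add (ml Q) (ml (Nat.sub 64 Q))) 64))
      (Nat.add 17179869184 (Nat.mul 4 LN2L)),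
    Nat.sub (Nat.add 1073741824 (Nat.div (Nat.add (Nat.mul Q (le Q))
        (Nat.mul (Nat.sub 64 Q) (le (Nat.sub 64 Q)))) 64))
      (Nat.add 17179869184 (Nat.mul 4 LN2U)),
    Nat.mul Q 16384, Nat.mul (Nat.sub 64 Q) 16384⟩

/-- the sector data of a potential -/
def secP (P : IPt) : Sec :=
  ⟨P.A, Nat.sub (Nat.add 1073741824 (Nat.mul P.Bp 1024)) (Nat.mul P.Bn 1024),
    Nat.sub (Nat.add 1073741824 (Nat.mul P.Bp 1024)) (Nat.mul P.Bn 1024), P.g₁, P.g₂⟩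

/-- entry of a table of potentials -/
def tb (D : IPt) : List IPt → ℕ → IPt
  | [], _ => D
  | P :: l, i => bif Nat.beq i 0 then P else tb D l (Nat.pred i)

/-- code `c < 64`: no inner slits, weights `c / 64`, `1 - c / 64`; code `64 + i`: potential `i` -/
def sec (tab : ℕ → IPt) (c : ℕ) : Sec := bif Nat.ble 64 c then secP (tab (Nat.sub c 64)) else secB c

/-- the code `c` may be used for the openings `[z0, z1]`; potential `i ≤ 14` is valid in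
`[8 (17 + i), 8 (18 + i)] / 256` -/
def rgOk (tab : ℕ → IPt) (c z0 z1 : ℕ) : Bool :=
  bif Nat.ble 64 c then
    and (and (Nat.ble (Nat.mul 8 (Nat.add 17 (Nat.sub c 64))) z0)
        (Nat.ble z1 (Nat.mul 8 (Nat.add 18 (Nat.sub c 64)))))
      (and (Nat.ble c 78) (Nat.ble (tab (Nat.sub c 64)).Bn 1048576))
  else and (Nat.ble 1 c) (Nat.ble z1 256)

/-- a vertex: `μ₁ μ₂ μ₃` and an upper bound `N` of the norm of `∑ μ_j n_j` -/
structure Vt where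
  μ₁ : ℕ
  μ₂ : ℕ
  μ₃ : ℕ
  N : ℕ

/-- upper bound of `- 2³⁰ log cos (π d / 2048)` (if `3 ≤ cT d`) -/
def lc (d : ℕ) : ℕ :=
  Nat.sub (Nat.add 17179869184 (Nat.mul 30 LN2U)) (lw (Nat.sub (cT d) 2) 19)

/-- upper bound of the absolute value of `∑ μ_j (u_j - v_j)`, error of `u_j - v_j` at most `2` -/
def vc (m1 m2 m3 u1 v1 u2 v2 u3 v3 : ℕ) : ℕ :=
  Nat.add (dst (Nat.add (Nat.mul m1 u1) (Nat.add (Nat.mul m2 u2) (Nat.mul m3 u3)))
    (Nat.add (Nat.mul m1 v1) (Nat.add (Nat.mul m2 v2) (Nat.mul m3 v3))))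
    (Nat.mul 2 (Nat.add m1 (Nat.add m2 m3)))

/-- `N ≥ ‖∑ μ_j n_j‖` -/
def nOk (t : Vt) (k1 k2 k3 : ℕ) : Bool :=
  (fun a b : ℕ => Nat.ble (Nat.add (Nat.mul a a) (Nat.mul b b)) (Nat.mul t.N t.N))
    (vc t.μ₁ t.μ₂ t.μ₃ (cp (dst k1 4096)) (cn (dst k1 4096)) (cp (dst k2 4096)) (cn (dst k2 4096))
      (cp (dst k3 4096)) (cn (dst k3 4096)))
    (vc t.μ₁ t.μ₂ t.μ₃ (cp (dst k1 5120)) (cn (dst k1 5120)) (cp (dst k2 5120)) (cn (dst k2 5120))
      (cp (dst k3 5120)) (cn (dst k3 5120)))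

/-- left-hand terms of a tip: weight `q` (`2⁻²⁹`), `m = μ_j`, direction at distance `d` from the
normal: `q (- log cos + log q - 1 - log μ) + μ` -/
def tL (q m d : ℕ) : ℕ :=
  Nat.add (Nat.mul q (Nat.add (lc d) (lu q 18))) (Nat.mul m 549755813888)

/-- right-hand terms of a tip -/
def tR (q m : ℕ) : ℕ :=
  Nat.mul q (Nat.add (lw m 9) (Nat.add (Nat.mul 9 LN2L) 1073741824))

/-- conditions for a tip -/
def tOk (q m d : ℕ) : Bool :=
  and (and (Nat.ble 1 m) (Nat.ble 3 (cT d)))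
    (and (Nat.ble 1 (Nat.shiftRight q 18)) (Nat.ble (Nat.shiftRight q 18) 2048))

/-- left-hand terms of a sector with opening `x / 256` -/
def sL (s : Sec) (x : ℕ) : ℕ :=
  Nat.add (Nat.mul (Nat.mul x s.A) 1073741824) (Nat.mul (Nat.mul (Nat.mul x x) s.BU) 4096)

/-- right-hand terms of a sector -/
def sR (x : ℕ) : ℕ := Nat.mul (Nat.mul x x) 4398046511104

/-- the inequality at a vertex; `z = 512 - x - y`, `d1 d2 d3` distances to the normals -/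
def vIn (V x y z q1 q2 q3 d1 d2 d3 : ℕ) (A B C : Sec) (t : Vt) : Bool :=
  and (and (tOk q1 t.μ₁ d1) (and (tOk q2 t.μ₂ d2) (tOk q3 t.μ₃ d3)))
    (Nat.ble (Nat.add (Nat.add (tL q1 t.μ₁ d1) (Nat.add (tL q2 t.μ₂ d2) (tL q3 t.μ₃ d3)))
        (Nat.add (Nat.add (sL A x) (Nat.add (sL B y) (sL C z))) (Nat.mul t.N 512)))
      (Nat.add (Nat.add (tR q1 t.μ₁) (Nat.add (tR q2 t.μ₂) (tR q3 t.μ₃)))
        (Nat.add (Nat.add (sR x) (Nat.add (sR y) (sR z))) (Nat.mul V 536870912))))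

/-- a vertex of a cell -/
def vtx (V x y k1 k2 k3 m1 m3 : ℕ) (A B C : Sec) (t : Vt) : Bool :=
  (fun z q1 q2 q3 : ℕ =>
    and (and (nOk t k1 k2 k3) (and (Nat.ble m1 q1) (Nat.ble m3 q3)))
      (vIn V x y z q1 q2 q3 (dst (Nat.sub 4096 (Nat.mul 8 x)) k1) (dst 4096 k2)
        (dst (Nat.add 4096 (Nat.mul 8 y)) k3) A B C t))
    (Nat.sub 512 (Nat.add x y))
    (Nat.add (Nat.mul (Nat.sub 512 (Nat.add x y)) C.g₂) (Nat.mul x A.g₁))
    (Nat.add (Nat.mul x A.g₂) (Nat.mul y B.g₁))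
    (Nat.add (Nat.mul y B.g₂) (Nat.mul (Nat.sub 512 (Nat.add x y)) C.g₁))

/-- a convexity condition: `((g - g') / 2)² ≤ m (9.8 m + A₁ + A₁')` -/
def cvOk (m g g' B B' : ℕ) : Bool :=
  and (and (Nat.ble 1 m) (Nat.ble 21474836480 (Nat.add (Nat.mul 196 m) (Nat.mul 10 (Nat.add B B')))))
    (Nat.ble (Nat.mul 1310720 (Nat.mul (dst g g') (dst g g')))
      (Nat.mul m (Nat.sub (Nat.add (Nat.mul 196 m) (Nat.mul 10 (Nat.add B B'))) 21474836480)))

/-- The cell `[x0, x1] × [y0, y1]` with sector codes `sA sB sC`, normal directions `k1 k2 k3`, lower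
bounds `m1`, `m3` of `q₁`, `q₃`, vertices `(x0,y0)`, `(x0,y1)`, `(x1,y0)`, `(x1,y1)`. -/
def cell (tab : ℕ → IPt) (V x0 x1 y0 y1 sA sB sC k1 k2 k3 m1 m3 : ℕ) (t00 t01 t10 t11 : Vt) : Bool :=
  and (and (and (and (Nat.ble x0 x1) (Nat.ble x1 256)) (and (Nat.ble y0 y1) (Nat.ble y1 256)))
      (and (and (rgOk tab sA x0 x1) (rgOk tab sB y0 y1))
        (rgOk tab sC (Nat.sub 512 (Nat.add x1 y1)) (Nat.sub 512 (Nat.add x0 y0)))))
    (and (and (and (and (Nat.ble 1024 k1) (Nat.ble k1 7168)) (and (Nat.ble 1024 k2) (Nat.ble k2 7168)))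
        (and (and (Nat.ble 1024 k3) (Nat.ble k3 7168))
          (and (Nat.ble (dst (Nat.sub 4096 (Nat.mul 8 x0)) k1) 1023)
            (and (Nat.ble (dst (Nat.sub 4096 (Nat.mul 8 x1)) k1) 1023)
              (and (Nat.ble (dst 4096 k2) 1023)
                (and (Nat.ble (dst (Nat.add 4096 (Nat.mul 8 y0)) k3) 1023)
                  (Nat.ble (dst (Nat.add 4096 (Nat.mul 8 y1)) k3) 1023)))))))
      ((fun A B C : Sec =>
        and (and (cvOk m1 A.g₁ C.g₂ A.BL C.BL) (cvOk m3 B.g₂ C.g₁ B.BL C.BL))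
          (and (and (vtx V x0 y0 k1 k2 k3 m1 m3 A B C t00) (vtx V x0 y1 k1 k2 k3 m1 m3 A B C t01))
            (and (vtx V x1 y0 k1 k2 k3 m1 m3 A B C t10) (vtx V x1 y1 k1 k2 k3 m1 m3 A B C t11))))
        (sec tab sA) (sec tab sB) (sec tab sC)))

/-- certificate of the cover: cell, splits of `x`, `y` at `m`, no point of the domain -/
inductive R : Type
  | cl (sA sB sC k1 k2 k3 m1 m3 : ℕ) (t00 t01 t10 t11 : Vt) : R
  | sx (m : ℕ) (l r : R) : R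
  | sy (m : ℕ) (l r : R) : R
  | out : R

/-- the checker for the half open rectangle `[x0, x1) × [y0, y1)`; the domain is
`x, y < 1`, `2 - x - y ≤ x`, `2 - x - y ≤ y` -/
def rchk (tab : ℕ → IPt) (V : ℕ) : R → (x0 x1 y0 y1 : ℕ) → Bool
  | R.cl sA sB sC k1 k2 k3 m1 m3 t00 t01 t10 t11, x0, x1, y0, y1 =>
      cell tab V x0 x1 y0 y1 sA sB sC k1 k2 k3 m1 m3 t00 t01 t10 t11
  | R.sx m l r, x0, x1, y0, y1 => and (rchk tab V l x0 m y0 y1) (rchk tab V r m x1 y0 y1)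
  | R.sy m l r, x0, x1, y0, y1 => and (rchk tab V l x0 x1 y0 m) (rchk tab V r x0 x1 m y1)
  | R.out, _, x1, _, y1 => or (Nat.ble (Nat.add x1 (Nat.mul 2 y1)) 512)
      (Nat.ble (Nat.add y1 (Nat.mul 2 x1)) 512)

end Pool.Agent.Lib.MP250511.ST.Chk
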