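import Mathlib

/-! # Constants `exp (- V / 2³⁰)` (MP_250511_an, Q2) -/

set_option autoImplicit false

namespace Pool.Agent.Lib.MP250511.ST.Chk

/-- general form: an upper bound `W` of `V` and the value at `W` -/
theorem exp_of_le {V W : ℕ} {r : ℝ} (h : V ≤ W) (hr : r ≤ Real.exp (-((W : ℝ) / 2 ^ 30))) :
    r ≤ Real.exp (-((V : ℝ) / 2 ^ 30)) := by
  refine hr.trans (Real.exp_le_exp.2 ?_)
  have : (V : ℝ) ≤ W := by exact_mod_cast h
  have h2 : (V : ℝ) / 2 ^ 30 ≤ (W : ℝ) / 2 ^ 30 := div_le_div_of_nonneg_right this (by positivity)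
  linarith

theorem exp_lb {x r : ℝ} (h0 : 0 ≤ x) (h1 : x ≤ 1)
    (hs : (∑ m ∈ Finset.range 12, x ^ m / (Nat.factorial m : ℝ))
      + x ^ 12 * ((12 : ℕ) + 1) / ((Nat.factorial 12 : ℝ) * (12 : ℕ)) ≤ 1 / r) :
    r ≤ Real.exp (-x) := by
  have h := (Real.exp_bound' h0 h1 (n := 12) (by norm_num)).trans hs
  rw [Real.exp_neg]
  have hp := Real.exp_pos x
  have h3 : (1 / r)⁻¹ ≤ (Real.exp x)⁻¹ := inv_anti₀ hp h
  rwa [one_div, inv_inv] at h3

theorem log615 {V : ℕ} (h : V ≤ 521981000) : (615 : ℝ) / 1000 ≤ Real.exp (-((V : ℝ) / 2 ^ 30)) := by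
  refine exp_of_le h (exp_lb (by positivity) (by norm_num) ?_)
  simp only [Finset.sum_range_succ, Finset.sum_range_zero, Nat.factorial]
  norm_num

theorem log62 {V : ℕ} (h : V ≤ 513286700) : (62 : ℝ) / 100 ≤ Real.exp (-((V : ℝ) / 2 ^ 30)) := by
  refine exp_of_le h (exp_lb (by positivity) (by norm_num) ?_)
  simp only [Finset.sum_range_succ, Finset.sum_range_zero, Nat.factorial]
  norm_num

theorem log625 {V : ℕ} (h : V ≤ 504662400) : (625 : ℝ) / 1000 ≤ Real.exp (-((V : ℝ) / 2 ^ 30)) := by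
  refine exp_of_le h (exp_lb (by positivity) (by norm_num) ?_)
  simp only [Finset.sum_range_succ, Finset.sum_range_zero, Nat.factorial]
  norm_num

theorem log63 {V : ℕ} (h : V ≤ 496106700) : (63 : ℝ) / 100 ≤ Real.exp (-((V : ℝ) / 2 ^ 30)) := by
  refine exp_of_le h (exp_lb (by positivity) (by norm_num) ?_)
  simp only [Finset.sum_range_succ, Finset.sum_range_zero, Nat.factorial]
  norm_num

/-- from the end of the checker to the bound of `S₁` (in `ℝ≥0∞`) -/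
theorem ofReal_le {V : ℕ} {r : ℝ} {S : ENNReal} (hr : r ≤ Real.exp (-((V : ℝ) / 2 ^ 30)))
    (h : ENNReal.ofReal (Real.exp (-((V : ℝ) / 2 ^ 30))) ≤ S) : ENNReal.ofReal r ≤ S :=
  (ENNReal.ofReal_le_ofReal hr).trans h

end Pool.Agent.Lib.MP250511.ST.Chk
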