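import Pool.Agent.Lib.MP_250511_an.ST.Spec

/-!
DLC: two or three directions.
-/

set_option autoImplicit false

namespace Pool.Agent.Lib.MP250511.ST

open Complex Metric Set MeasureTheory Filter Topology
open scoped Real ENNReal

namespace DLCM

theorem pt_norm (z : ℂ) (hz : z ≠ 0) (θ : ℝ) :
    pt (Real.log ‖z‖) θ = (‖z‖ : ℂ) * exp (θ * I) := by
  unfold pt
  rw [Complex.exp_add, ← Complex.ofReal_exp, Real.exp_log (norm_pos_iff.2 hz)]

theorem pt_arg (z : ℂ) (hz : z ≠ 0) : pt (Real.log ‖z‖) (arg z) = z := by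
  rw [pt_norm z hz, Complex.norm_mul_exp_arg_mul_I]

/-- the direction of `w` from the direction of `z` and the argument of `w / z` -/
theorem turn (z w : ℂ) (hz : z ≠ 0) (θ : ℝ) (h : (‖z‖ : ℂ) * exp (θ * I) = z) :
    (‖w‖ : ℂ) * exp (((θ + arg (w / z) : ℝ) : ℂ) * I) = w := by
  have hz' : (‖z‖ : ℂ) ≠ 0 := by
    rw [Ne, Complex.ofReal_eq_zero]
    exact norm_ne_zero_iff.2 hz
  have h1 := Complex.norm_mul_exp_arg_mul_I (w / z)
  rw [norm_div, Complex.ofReal_div] at h1
  have e : ((θ + arg (w / z) : ℝ) : ℂ) * I = θ * I + arg (w / z) * I := by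
    push_cast
    ring
  rw [e, Complex.exp_add]
  have h2 : (‖w‖ : ℂ) * (exp (θ * I) * exp (arg (w / z) * I)) =
      ((‖z‖ : ℂ) * exp (θ * I)) * ((‖w‖ : ℂ) / ‖z‖ * exp (arg (w / z) * I)) := by
    field_simp
  rw [h2, h, h1]
  field_simp

/-- opposite directions -/
theorem opp (A : Set ℂ) (z w : ℂ) (hz : z ∈ A) (hw : w ∈ A) (hz0 : z ≠ 0) (t : ℝ) (ht : 0 < t)
    (h : w = -((t : ℂ) * z)) : ∃ θ ρ₁ ρ₂ : ℝ, pt ρ₁ θ ∈ A ∧ pt ρ₂ (θ + π) ∈ A := by
  have hw0 : w ≠ 0 := by
    rw [h]
    exact neg_ne_zero.2 (mul_ne_zero (by exact_mod_cast ht.ne') hz0)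
  refine ⟨arg z, Real.log ‖z‖, Real.log ‖w‖, ?_, ?_⟩
  · rw [pt_arg z hz0]
    exact hz
  · rw [pt_norm w hw0]
    have h1 := Complex.norm_mul_exp_arg_mul_I z
    have e : ((arg z + π : ℝ) : ℂ) * I = arg z * I + π * I := by
      push_cast
      ring
    rw [e, Complex.exp_add, Complex.exp_pi_mul_I]
    have h2 : (‖w‖ : ℂ) = t * ‖z‖ := by
      rw [h, norm_neg, norm_mul, Complex.norm_real, Real.norm_of_nonneg ht.le]
      push_cast
      ring
    have h3 : (‖w‖ : ℂ) * (exp (arg z * I) * -1) = w := by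
      rw [h2, h]
      linear_combination (-(t : ℂ)) * h1
    rw [h3]
    exact hw

theorem arg_range (z w : ℂ) (hz : z ≠ 0) (h : 0 < crs z w) :
    0 < arg (w / z) ∧ arg (w / z) < π := by
  have h1 : (w / z).im = crs z w / normSq z := by
    rw [Complex.div_im]
    unfold crs
    ring
  have h2 : 0 < (w / z).im := by
    rw [h1]
    exact div_pos h (Complex.normSq_pos.2 hz)
  refine ⟨?_, ?_⟩
  · rcases lt_or_eq_of_le (Complex.arg_nonneg_iff.2 h2.le) with h3 | h3
    · exact h3
    · exfalso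
      have h4 := Complex.arg_eq_zero_iff.1 h3.symm
      linarith [h4.2]
  · rcases lt_or_eq_of_le (Complex.arg_le_pi (w / z)) with h3 | h3
    · exact h3
    · exfalso
      have h4 := Complex.arg_eq_pi_iff.1 h3
      linarith [h4.2]

/-- three directions -/
theorem three (A : Set ℂ) (x y z : ℂ) (hx : x ∈ A) (hy : y ∈ A) (hz : z ∈ A) (hx0 : x ≠ 0)
    (hy0 : y ≠ 0) (hz0 : z ≠ 0) (h1 : 0 < crs x y) (h2 : 0 < crs y z) (h3 : 0 < crs z x) :
    ∃ θ a₁ a₂ a₃ ρ₁ ρ₂ ρ₃ : ℝ, 0 < a₁ ∧ a₁ < 1 ∧ 0 < a₂ ∧ a₂ < 1 ∧ 0 < a₃ ∧ a₃ < 1 ∧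
    a₁ + a₂ + a₃ = 2 ∧ pt ρ₁ θ ∈ A ∧ pt ρ₂ (θ + π * a₁) ∈ A ∧ pt ρ₃ (θ + π * (a₁ + a₂)) ∈ A := by
  obtain ⟨p1, q1⟩ := arg_range x y hx0 h1
  obtain ⟨p2, q2⟩ := arg_range y z hy0 h2
  obtain ⟨p3, q3⟩ := arg_range z x hz0 h3
  have hpi := Real.pi_pos
  have e0 := Complex.norm_mul_exp_arg_mul_I x
  have e1 := turn x y hx0 _ e0
  have e2 := turn y z hy0 _ e1
  have e3 := turn z x hz0 _ e2
  have hs : arg (y / x) + arg (z / y) + arg (x / z) = 2 * π := by
    have h4 : exp (((arg (y / x) + arg (z / y) + arg (x / z) : ℝ) : ℂ) * I) = 1 := by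
      have hxn : (‖x‖ : ℂ) ≠ 0 := by
        rw [Ne, Complex.ofReal_eq_zero]
        exact norm_ne_zero_iff.2 hx0
      have e4 : (‖x‖ : ℂ) * exp (((arg x + arg (y / x) + arg (z / y) + arg (x / z) : ℝ) : ℂ) * I) =
          ((‖x‖ : ℂ) * exp (arg x * I)) *
            exp (((arg (y / x) + arg (z / y) + arg (x / z) : ℝ) : ℂ) * I) := by
        rw [mul_assoc, ← Complex.exp_add]
        congr 2
        push_cast
        ring
      rw [e3, e0] at e4
      have e5 : x * (exp (((arg (y / x) + arg (z / y) + arg (x / z) : ℝ) : ℂ) * I) - 1) = 0 := by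
        linear_combination -e4
      rcases mul_eq_zero.1 e5 with h | h
      · exact absurd h hx0
      · linear_combination h
    obtain ⟨n, hn⟩ := Complex.exp_eq_one_iff.1 h4
    have h5 : arg (y / x) + arg (z / y) + arg (x / z) = n * (2 * π) := by
      have h6 : ((arg (y / x) + arg (z / y) + arg (x / z) : ℝ) : ℂ) * I =
          ((n * (2 * π) : ℝ) : ℂ) * I := by
        rw [hn]
        push_cast
        ring
      have h7 := mul_right_cancel₀ Complex.I_ne_zero h6
      exact_mod_cast h7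
    have h8 : (0 : ℝ) < n * (2 * π) := by rw [← h5]; linarith
    have h9 : (n : ℝ) * (2 * π) < 3 * π := by rw [← h5]; linarith
    have h10 : (0 : ℝ) < n := by
      by_contra hc
      push Not at hc
      nlinarith
    have h11 : (n : ℝ) < 2 := by
      by_contra hc
      push Not at hc
      nlinarith
    have h12 : 0 < n := by exact_mod_cast h10
    have h13 : n < 2 := by exact_mod_cast h11
    have h14 : n = 1 := by omega
    rw [h5, h14]
    push_cast
    ring
  have r1 : π * (arg (y / x) / π) = arg (y / x) := by field_simp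
  have r2 : π * (arg (y / x) / π + arg (z / y) / π) = arg (y / x) + arg (z / y) := by field_simp
  refine ⟨arg x, arg (y / x) / π, arg (z / y) / π, arg (x / z) / π, Real.log ‖x‖, Real.log ‖y‖,
    Real.log ‖z‖, div_pos p1 hpi, (div_lt_one hpi).2 q1, div_pos p2 hpi, (div_lt_one hpi).2 q2,
    div_pos p3 hpi, (div_lt_one hpi).2 q3, ?_, ?_, ?_, ?_⟩
  · rw [← add_div, ← add_div, hs]
    field_simp
  · rw [pt_arg x hx0]
    exact hx
  · rw [pt_norm y hy0, r1, e1]
    exact hy
  · rw [pt_norm z hz0, r2, ← add_assoc, e2]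
    exact hz

/-- positive combination of three points -/
theorem comb3 (A : Set ℂ) (h0 : (0 : ℂ) ∉ A) (x y z : ℂ) (hx : x ∈ A) (hy : y ∈ A) (hz : z ∈ A)
    (a b c : ℝ) (ha : 0 < a) (hb : 0 < b) (hc : 0 < c)
    (h : (a : ℂ) * x + (b : ℂ) * y + (c : ℂ) * z = 0) :
    (∃ θ ρ₁ ρ₂ : ℝ, pt ρ₁ θ ∈ A ∧ pt ρ₂ (θ + π) ∈ A) ∨
    ∃ θ a₁ a₂ a₃ ρ₁ ρ₂ ρ₃ : ℝ, 0 < a₁ ∧ a₁ < 1 ∧ 0 < a₂ ∧ a₂ < 1 ∧ 0 < a₃ ∧ a₃ < 1 ∧
    a₁ + a₂ + a₃ = 2 ∧ pt ρ₁ θ ∈ A ∧ pt ρ₂ (θ + π * a₁) ∈ A ∧ pt ρ₃ (θ + π * (a₁ + a₂)) ∈ A := by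
  have hx0 : x ≠ 0 := fun e => h0 (e ▸ hx)
  have hy0 : y ≠ 0 := fun e => h0 (e ▸ hy)
  have hz0 : z ≠ 0 := fun e => h0 (e ▸ hz)
  have hre : a * x.re + b * y.re + c * z.re = 0 := by
    have := congrArg Complex.re h
    simpa using this
  have him : a * x.im + b * y.im + c * z.im = 0 := by
    have := congrArg Complex.im h
    simpa using this
  have k1 : b * crs x y = c * crs z x := by
    unfold crs
    linear_combination x.re * him - x.im * hre
  have k2 : a * crs x y = c * crs y z := by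
    unfold crs
    linear_combination y.im * hre - y.re * him
  rcases lt_trichotomy (crs x y) 0 with hD | hD | hD
  · right
    have d1 : crs z x < 0 := by
      by_contra hh
      push Not at hh
      nlinarith [mul_nonneg hc.le hh]
    have d2 : crs y z < 0 := by
      by_contra hh
      push Not at hh
      nlinarith [mul_nonneg hc.le hh]
    have e1 : crs x z = -crs z x := by unfold crs; ring
    have e2 : crs z y = -crs y z := by unfold crs; ring
    have e3 : crs y x = -crs x y := by unfold crs; ring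
    exact three A x z y hx hz hy hx0 hz0 hy0 (by linarith) (by linarith) (by linarith)
  · left
    -- y = s x
    have hxx : 0 < x.re ^ 2 + x.im ^ 2 := by
      have := Complex.normSq_pos.2 hx0
      rw [Complex.normSq_apply] at this
      nlinarith
    set s : ℝ := (x.re * y.re + x.im * y.im) / (x.re ^ 2 + x.im ^ 2) with hs
    have hys : y = (s : ℂ) * x := by
      unfold crs at hD
      apply Complex.ext
      · simp only [Complex.mul_re, Complex.ofReal_re, Complex.ofReal_im, zero_mul, sub_zero]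
        rw [hs, div_mul_eq_mul_div, eq_div_iff hxx.ne']
        linear_combination x.im * (-hD)
      · simp only [Complex.mul_im, Complex.ofReal_re, Complex.ofReal_im, zero_mul, add_zero]
        rw [hs, div_mul_eq_mul_div, eq_div_iff hxx.ne']
        linear_combination x.re * hD
    rcases lt_trichotomy s 0 with h1 | h1 | h1
    · refine opp A x y hx hy hx0 (-s) (by linarith) ?_
      rw [hys]
      push_cast
      ring
    · exfalso
      apply hy0
      rw [hys, h1]
      simp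
    · have hcc : (c : ℂ) ≠ 0 := by exact_mod_cast hc.ne'
      refine opp A x z hx hz hx0 ((a + b * s) / c) (by positivity) ?_
      rw [hys] at h
      push_cast
      field_simp
      linear_combination h
  · right
    have d1 : 0 < crs z x := by
      by_contra hh
      push Not at hh
      nlinarith [mul_nonneg hc.le (neg_nonneg.2 hh)]
    have d2 : 0 < crs y z := by
      by_contra hh
      push Not at hh
      nlinarith [mul_nonneg hc.le (neg_nonneg.2 hh)]
    exact three A x y z hx hy hz hx0 hy0 hz0 hD d2 d1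

end DLCM

open DLCM in
/-- DLC -/
theorem specDLC : SpecDLC := by
  intro A h0 hA
  obtain ⟨ι, _, z, w, hz, hind, hw, hw1, hsum⟩ := eq_pos_convex_span_of_mem_convexHull hA
  have hcard : Fintype.card ι ≤ 3 := by
    have h1 := hind.card_le_finrank_succ
    have h2 : Module.finrank ℝ (vectorSpan ℝ (Set.range z)) ≤ Module.finrank ℝ ℂ :=
      Submodule.finrank_le _
    rw [Complex.finrank_real_complex] at h2
    omega
  have hzA : ∀ i, z i ∈ A := fun i => hz (Set.mem_range_self i)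
  have e := Fintype.equivFin ι
  interval_cases hc : Fintype.card ι
  · exfalso
    have := Fintype.card_eq_zero_iff.1 hc
    simp at hw1
  · exfalso
    obtain ⟨i, hi⟩ := Fintype.card_eq_one_iff.1 hc
    have h1 : ∑ j, w j • z j = w i • z i := Finset.sum_eq_single i (fun j _ hj => absurd (hi j) hj)
      (fun h => absurd (Finset.mem_univ _) h)
    rw [h1] at hsum
    rcases smul_eq_zero.1 hsum with h2 | h2
    · exact (hw i).ne' h2
    · exact h0 (h2 ▸ hzA i)
  · left
    rw [← e.symm.sum_comp, Fin.sum_univ_two] at hsum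
    set x := z (e.symm 0)
    set y := z (e.symm 1)
    have hx : x ∈ A := hzA _
    have hy : y ∈ A := hzA _
    have hx0 : x ≠ 0 := fun e => h0 (e ▸ hx)
    have ha := hw (e.symm 0)
    have hb := hw (e.symm 1)
    have hbb : ((w (e.symm 1) : ℝ) : ℂ) ≠ 0 := by exact_mod_cast hb.ne'
    refine opp A x y hx hy hx0 (w (e.symm 0) / w (e.symm 1)) (div_pos ha hb) ?_
    simp only [Complex.real_smul] at hsum
    push_cast
    field_simp
    linear_combination hsum
  · rw [← e.symm.sum_comp, Fin.sum_univ_three] at hsum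
    simp only [Complex.real_smul] at hsum
    exact comb3 A h0 _ _ _ (hzA _) (hzA _) (hzA _) _ _ _ (hw _) (hw _) (hw _) hsum

end Pool.Agent.Lib.MP250511.ST
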