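import Pool.Agent.Lib.MP_250511_an.ST.Spec

/-! Problem MP_250511_an, Q2, module DLM: the maximal disc. -/

set_option autoImplicit false

namespace Pool.Agent.Lib.MP250511.ST

open Complex Metric Set MeasureTheory Filter Topology
open scoped Real ENNReal

noncomputable section

namespace DLMM

lemma nsub (w c : ℂ) : ‖w - c‖ ^ 2 = ‖w‖ ^ 2 - 2 * (c.re * w.re + c.im * w.im) + ‖c‖ ^ 2 := by
  rw [← Complex.normSq_eq_norm_sq, ← Complex.normSq_eq_norm_sq, ← Complex.normSq_eq_norm_sq,
    Complex.normSq_apply, Complex.normSq_apply, Complex.normSq_apply]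
  simp only [Complex.sub_re, Complex.sub_im]
  ring

lemma frep (f : ℂ →L[ℝ] ℝ) (w : ℂ) : f w = (f 1) * w.re + (f I) * w.im := by
  have h : w = w.re • (1 : ℂ) + w.im • I := by
    apply Complex.ext <;> simp
  conv_lhs => rw [h]
  rw [map_add, map_smul, map_smul]
  simp only [smul_eq_mul]
  ring

lemma hull3 {A : Set ℂ} {x : ℂ} (hx : x ∈ convexHull ℝ A) : ∃ (p : Fin 3 → ℂ) (w : Fin 3 → ℝ),
    (∀ i, p i ∈ A) ∧ (∀ i, 0 ≤ w i) ∧ ∑ i, w i = 1 ∧ ∑ i, w i • p i = x := by
  obtain ⟨ι, hι, z, w, hz, haff, hw, hw1, hx1⟩ := eq_pos_convex_span_of_mem_convexHull hx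
  have hcard : Fintype.card ι ≤ Fintype.card (Fin 3) := by
    have h := haff.card_le_finrank_succ
    have h2 : Module.finrank ℝ (vectorSpan ℝ (Set.range z)) ≤ Module.finrank ℝ ℂ :=
      Submodule.finrank_le _
    rw [Complex.finrank_real_complex] at h2
    rw [Fintype.card_fin]
    omega
  obtain ⟨e⟩ := Function.Embedding.nonempty_of_card_le hcard
  have hne : Nonempty ι := by
    by_contra hcon
    rw [not_nonempty_iff] at hcon
    simp at hw1
  obtain ⟨i0⟩ := hne
  have hsum : ∀ {M : Type} [AddCommMonoid M] (F : Fin 3 → M), (∀ j, (¬ ∃ i, e i = j) → F j = 0) →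
      ∑ j, F j = ∑ i, F (e i) := by
    intro M _ F hF
    rw [← Finset.sum_map Finset.univ e F]
    symm
    apply Finset.sum_subset (Finset.subset_univ _)
    intro j _ hj
    apply hF
    rintro ⟨i, rfl⟩
    exact hj (Finset.mem_map_of_mem _ (Finset.mem_univ _))
  refine ⟨Function.extend e z (fun _ => z i0), Function.extend e w 0, ?_, ?_, ?_, ?_⟩
  · intro j
    by_cases h : ∃ i, e i = j
    · obtain ⟨i, rfl⟩ := h
      rw [e.injective.extend_apply]
      exact hz ⟨i, rfl⟩
    · rw [Function.extend_apply' _ _ _ h]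
      exact hz ⟨i0, rfl⟩
  · intro j
    by_cases h : ∃ i, e i = j
    · obtain ⟨i, rfl⟩ := h
      rw [e.injective.extend_apply]
      exact (hw i).le
    · rw [Function.extend_apply' _ _ _ h]
      simp
  · rw [hsum _ (fun j hj => by rw [Function.extend_apply' _ _ _ hj]; rfl)]
    simp only [e.injective.extend_apply]
    exact hw1
  · rw [hsum _ (fun j hj => by rw [Function.extend_apply' w _ _ hj]; simp)]
    simp only [e.injective.extend_apply]
    exact hx1

lemma hullc {A : Set ℂ} (hA : IsCompact A) : IsCompact (convexHull ℝ A) := by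
  have h : convexHull ℝ A = (fun q : (Fin 3 → ℝ) × (Fin 3 → ℂ) => ∑ i, q.1 i • q.2 i) ''
      (stdSimplex ℝ (Fin 3) ×ˢ Set.pi univ (fun _ => A)) := by
    apply Subset.antisymm
    · intro x hx
      obtain ⟨p, w, hp, hw, hw1, hx1⟩ := hull3 hx
      exact ⟨(w, p), ⟨⟨hw, hw1⟩, fun i _ => hp i⟩, hx1⟩
    · rintro x ⟨⟨w, p⟩, ⟨⟨hw, hw1⟩, hp⟩, rfl⟩
      exact (convex_convexHull ℝ A).sum_mem (fun i _ => hw i) hw1
        (fun i _ => subset_convexHull ℝ A (hp i (mem_univ i)))
  rw [h]
  have h1 : IsCompact (stdSimplex ℝ (Fin 3)) := isCompact_stdSimplex ℝ (Fin 3)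
  have h2 : IsCompact (Set.pi univ (fun _ : Fin 3 => A)) := isCompact_univ_pi fun _ => hA
  apply (h1.prod h2).image
  fun_prop

end DLMM

open DLMM in
theorem specDLM : SpecDLM := by
  intro W hW h0 hH
  obtain ⟨w0, hw0, -⟩ := hH 0
  have hne : W.Nonempty := ⟨w0, hw0⟩
  have hΦc : Continuous (fun c : ℂ => (infDist c W) ^ 2 - ‖c‖ ^ 2) :=
    ((continuous_infDist_pt W).pow 2).sub (continuous_norm.pow 2)
  have hd1 : ∀ c : ℂ, infDist c W ≤ 1 := by
    intro c
    obtain ⟨w, hw, h⟩ := hH c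
    refine (infDist_le_dist_of_mem hw).trans ?_
    rw [dist_comm, dist_eq_norm]
    exact h
  have hd0 : 0 < infDist (0 : ℂ) W := (hW.notMem_iff_infDist_pos hne).1 h0
  obtain ⟨cs, -, hmax⟩ := (isCompact_closedBall (0 : ℂ) 1).exists_isMaxOn ⟨0, by simp⟩
    hΦc.continuousOn
  have hcs0 : (infDist (0 : ℂ) W) ^ 2 ≤ (infDist cs W) ^ 2 - ‖cs‖ ^ 2 := by
    have := hmax (show (0 : ℂ) ∈ closedBall (0 : ℂ) 1 by simp)
    simpa using this
  have hglob : ∀ c : ℂ, (infDist c W) ^ 2 - ‖c‖ ^ 2 ≤ (infDist cs W) ^ 2 - ‖cs‖ ^ 2 := by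
    intro c
    by_cases hc : ‖c‖ ≤ 1
    · exact hmax (show c ∈ closedBall (0 : ℂ) 1 by simpa using hc)
    · push Not at hc
      have h1 := hd1 c
      have h2 : 0 ≤ infDist c W := infDist_nonneg
      nlinarith [sq_nonneg (infDist (0 : ℂ) W)]
  have hr0 : 0 ≤ infDist cs W := infDist_nonneg
  have hlt : ‖cs‖ < infDist cs W := by
    apply lt_of_pow_lt_pow_left₀ 2 hr0
    nlinarith [hd0, hcs0]
  have hrpos : 0 < infDist cs W := lt_of_le_of_lt (norm_nonneg _) hlt
  refine ⟨cs, infDist cs W, hrpos, hd1 cs, hlt, ?_, ?_⟩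
  · intro w hw
    have := infDist_le_dist_of_mem (x := cs) hw
    rwa [dist_comm, dist_eq_norm] at this
  · by_contra hcon
    have hAc : IsCompact {w : ℂ | w ∈ W ∧ ‖w - cs‖ = infDist cs W} := by
      apply Metric.isCompact_of_isClosed_isBounded
      · exact hW.inter (isClosed_eq (by fun_prop) continuous_const)
      · refine (isBounded_closedBall (x := cs) (r := infDist cs W)).subset ?_
        intro w hw
        rw [mem_closedBall, dist_eq_norm]
        exact hw.2.le
    obtain ⟨f, u, hu0, hu⟩ := geometric_hahn_banach_point_closed (convex_convexHull ℝ _)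
      (hullc hAc).isClosed hcon
    rw [map_zero] at hu0
    -- the points
    let v : ℂ := ⟨f 1, f I⟩
    have hfv : ∀ w : ℂ, f w = v.re * w.re + v.im * w.im := fun w => frep f w
    let c : ℕ → ℂ := fun n => cs - ((1 / ((n : ℝ) + 1) : ℝ) : ℂ) * v
    have hclim : Tendsto c atTop (𝓝 cs) := by
      have h1 : Tendsto (fun n : ℕ => ((1 / ((n : ℝ) + 1) : ℝ) : ℂ)) atTop (𝓝 ((0 : ℝ) : ℂ)) :=
        (Complex.continuous_ofReal.tendsto 0).comp tendsto_one_div_add_atTop_nhds_zero_nat
      have h2 := (h1.mul_const v).const_sub cs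
      simpa [c] using h2
    have hnear : ∀ n, ∃ w ∈ W, infDist (c n) W = dist (c n) w :=
      fun n => hW.exists_infDist_eq_dist hne (c n)
    choose w hwW hwd using hnear
    have hfle : ∀ n, f (w n) ≤ 0 := by
      intro n
      have h1 := hglob (c n)
      rw [hwd n, dist_comm, dist_eq_norm, nsub] at h1
      have h2 := infDist_le_dist_of_mem (x := cs) (hwW n)
      rw [dist_comm, dist_eq_norm] at h2
      have h3 : (infDist cs W) ^ 2 ≤ ‖w n - cs‖ ^ 2 := pow_le_pow_left₀ hr0 h2 2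
      rw [nsub] at h3
      have hre : (c n).re = cs.re - (1 / ((n : ℝ) + 1)) * v.re := by
        simp only [c, Complex.sub_re, Complex.re_ofReal_mul]
      have him : (c n).im = cs.im - (1 / ((n : ℝ) + 1)) * v.im := by
        simp only [c, Complex.sub_im, Complex.im_ofReal_mul]
      rw [hre, him] at h1
      have h4 : (1 / ((n : ℝ) + 1)) * f (w n) ≤ 0 := by
        rw [hfv]
        nlinarith
      have h5 : 0 < 1 / ((n : ℝ) + 1) := by positivity
      by_contra h6
      push Not at h6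
      nlinarith [mul_pos h5 h6]
    have hbdd : ∀ n, w n ∈ closedBall (0 : ℂ) (‖cs‖ + ‖v‖ + 1) := by
      intro n
      rw [mem_closedBall, dist_zero_right]
      have h1 : ‖w n - c n‖ ≤ 1 := by
        rw [← dist_eq_norm, dist_comm, ← hwd n]
        exact hd1 _
      have h2 : ‖c n‖ ≤ ‖cs‖ + ‖v‖ := by
        refine (norm_sub_le _ _).trans ?_
        rw [norm_mul, Complex.norm_real]
        have h3 : ‖(1 / ((n : ℝ) + 1) : ℝ)‖ ≤ 1 := by
          rw [Real.norm_of_nonneg (by positivity)]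
          rw [div_le_one (by positivity)]
          have : (0 : ℝ) ≤ n := Nat.cast_nonneg n
          linarith
        nlinarith [norm_nonneg v]
      calc ‖w n‖ = ‖(w n - c n) + c n‖ := by rw [sub_add_cancel]
        _ ≤ ‖w n - c n‖ + ‖c n‖ := norm_add_le _ _
        _ ≤ ‖cs‖ + ‖v‖ + 1 := by linarith
    obtain ⟨p, -, φ, hφ, hlim⟩ := (isCompact_closedBall (0 : ℂ) (‖cs‖ + ‖v‖ + 1)).tendsto_subseq hbdd
    have hpW : p ∈ W := hW.mem_of_tendsto hlim (Eventually.of_forall fun n => hwW (φ n))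
    have hcφ : Tendsto (fun n => c (φ n)) atTop (𝓝 cs) := hclim.comp hφ.tendsto_atTop
    have hd2 : Tendsto (fun n => infDist (c (φ n)) W) atTop (𝓝 (infDist cs W)) :=
      ((continuous_infDist_pt W).tendsto cs).comp hcφ
    have hd3 : Tendsto (fun n => dist (c (φ n)) (w (φ n))) atTop (𝓝 (dist cs p)) :=
      hcφ.dist hlim
    have hd4 : infDist cs W = dist cs p := by
      refine tendsto_nhds_unique hd2 ?_
      refine hd3.congr ?_
      intro n
      exact (hwd (φ n)).symm
    have hpA : p ∈ {w : ℂ | w ∈ W ∧ ‖w - cs‖ = infDist cs W} := by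
      refine ⟨hpW, ?_⟩
      rw [hd4, dist_comm, dist_eq_norm]
    have hup := hu p (subset_convexHull ℝ _ hpA)
    have hfp : f p ≤ 0 :=
      le_of_tendsto ((f.continuous.tendsto p).comp hlim) (Eventually.of_forall fun n => hfle (φ n))
    linarith

end

end Pool.Agent.Lib.MP250511.ST
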