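import Pool.Agent.Lib.MP_250511_an.ST.Spec
import Pool.Agent.Lib.MP_250511_an.INV

/-!
DUB: the decoupling inequality.
-/

set_option autoImplicit false

namespace Pool.Agent.Lib.MP250511.ST

open Complex Metric Set MeasureTheory Filter Topology
open scoped Real ENNReal

namespace DUBM

theorem h_inj {f h : ℂ → ℂ} (hi : Invf f h) {w₁ w₂ : ℂ} (h1 : w₁ ∈ f '' ball 0 1)
    (h2 : w₂ ∈ f '' ball 0 1) (e : h w₁ = h w₂) : w₁ = w₂ := by
  obtain ⟨z₁, hz₁, rfl⟩ := h1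
  obtain ⟨z₂, hz₂, rfl⟩ := h2
  rw [(hi z₁ hz₁).1, (hi z₂ hz₂).1] at e
  rw [e]

theorem h_norm {f h : ℂ → ℂ} (hi : Invf f h) {w : ℂ} (h1 : w ∈ f '' ball 0 1) : ‖h w‖ < 1 := by
  obtain ⟨z, hz, rfl⟩ := h1
  rw [(hi z hz).1]
  simpa using hz

theorem h_diff {f h : ℂ → ℂ} (hi : Invf f h) {w : ℂ} (h1 : w ∈ f '' ball 0 1) :
    DifferentiableAt ℂ h w := by
  obtain ⟨z, hz, rfl⟩ := h1
  exact (hi z hz).2.differentiableAt

theorem ww_diff (hSLF : SpecSLF) {n : ℕ} (a B : Fin (n + 1) → ℝ) (c θ : ℝ) (ha : ∀ l, 0 < a l)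
    (hB : ∀ l, |B l| < 1) {ζ : ℂ} (hζ : ζ.re < 0) : DifferentiableAt ℂ (ww a B c θ) ζ := by
  have h1 := ((hSLF (n + 1) a B (Nat.succ_pos n) ha hB).1 ζ hζ).1
  have h2 : DifferentiableAt ℂ (fun ζ => (c : ℂ) + θ * I + GG a B ζ) ζ := by
    exact (differentiableAt_const _).add h1
  exact h2.cexp

theorem EE_open (hSLF : SpecSLF) {n : ℕ} (f : ℂ → ℂ) (hf : IsOpen (f '' ball 0 1))
    (a B : Fin (n + 1) → ℝ) (c θ X : ℝ) (ha : ∀ l, 0 < a l) (hB : ∀ l, |B l| < 1) :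
    IsOpen (EE f a B c θ X) := by
  have hO : IsOpen {ζ : ℂ | -X < ζ.re ∧ ζ.re < 0 ∧ 0 < ζ.im ∧ ζ.im < π} := by
    refine (isOpen_lt continuous_const Complex.continuous_re).inter
      ((isOpen_lt Complex.continuous_re continuous_const).inter
        ((isOpen_lt continuous_const Complex.continuous_im).inter
          (isOpen_lt Complex.continuous_im continuous_const)))
  have hc : ContinuousOn (ww a B c θ) {ζ : ℂ | -X < ζ.re ∧ ζ.re < 0 ∧ 0 < ζ.im ∧ ζ.im < π} :=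
    fun ζ hζ => (ww_diff hSLF a B c θ ha hB hζ.2.1).continuousAt.continuousWithinAt
  have h1 := hc.isOpen_inter_preimage hO hf
  convert h1 using 1
  ext ζ
  simp only [EE, mem_setOf_eq, mem_inter_iff, mem_preimage]
  tauto

theorem ww_eq {n n' : ℕ} (a B : Fin (n + 1) → ℝ) (c θ : ℝ) (a' B' : Fin (n' + 1) → ℝ) (c' θ' : ℝ)
    (ζ ξ : ℂ) (h : ww a B c θ ζ = ww a' B' c' θ' ξ) :
    ∃ j : ℤ, (c : ℂ) + θ * I + GG a B ζ = (c' : ℂ) + θ' * I + GG a' B' ξ + j * (2 * π * I) ∧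
      θ + (GG a B ζ).im = θ' + (GG a' B' ξ).im + j * (2 * π) := by
  obtain ⟨j, hj⟩ := Complex.exp_eq_exp_iff_exists_int.1 h
  refine ⟨j, hj, ?_⟩
  have h1 := congrArg Complex.im hj
  simpa using h1

theorem int_zero {j : ℤ} (h1 : -(2 * π) < (j : ℝ) * (2 * π)) (h2 : (j : ℝ) * (2 * π) < 2 * π) :
    j = 0 := by
  have hpi := Real.pi_pos
  have h3 : (-1 : ℝ) < j := by
    by_contra hc
    push Not at hc
    nlinarith
  have h4 : (j : ℝ) < 1 := by
    by_contra hc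
    push Not at hc
    nlinarith
  have h5 : -1 < j := by exact_mod_cast h3
  have h6 : j < 1 := by exact_mod_cast h4
  omega

theorem psum_nonneg {m : ℕ} (al : Fin m → ℝ) (h : ∀ k, 0 < al k) (j : ℕ) : 0 ≤ psum al j :=
  Finset.sum_nonneg fun l _ => (h l).le

theorem psum_add {m : ℕ} (al : Fin m → ℝ) (h : ∀ k, 0 < al k) (k : Fin m) (s : Finset (Fin m))
    (hs : ∀ l : Fin m, (l : ℕ) ≤ k → l ∈ s) : psum al k + al k ≤ ∑ l ∈ s, al l := by
  unfold psum
  have hk : k ∉ Finset.univ.filter (fun l : Fin m => (l : ℕ) < k) := by simp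
  rw [add_comm, ← Finset.sum_insert hk]
  refine Finset.sum_le_sum_of_subset_of_nonneg ?_ fun l _ _ => (h l).le
  intro l hl
  rw [Finset.mem_insert, Finset.mem_filter] at hl
  rcases hl with rfl | hl
  · exact hs _ le_rfl
  · exact hs _ hl.2.le

theorem psum_lt {m : ℕ} (al : Fin m → ℝ) (h : ∀ k, 0 < al k) (k l : Fin m) (hkl : k < l) :
    psum al k + al k ≤ psum al l := by
  refine psum_add al h k _ fun i hi => ?_
  rw [Finset.mem_filter]
  exact ⟨Finset.mem_univ _, lt_of_le_of_lt hi hkl⟩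

theorem psum_le {m : ℕ} (al : Fin m → ℝ) (h : ∀ k, 0 < al k) (k : Fin m) :
    psum al k + al k ≤ ∑ l, al l :=
  psum_add al h k _ fun i _ => Finset.mem_univ _

/-- the data of one sector -/
structure Dat (W : Set ℂ) (θ α v : ℝ) where
  n : ℕ
  a : Fin (n + 1) → ℝ
  B : Fin (n + 1) → ℝ
  ρ : ℕ → ℝ
  c : ℝ
  pa : ∀ l, 0 < a l
  sa : ∑ l, a l = α
  mem : ∀ j ≤ n + 1, pt (ρ j) (θ + π * psum a j) ∈ W
  anti : StrictAnti B
  ab : ∀ l, |B l| < 1
  bd : ∀ X : ℝ, |X| ≤ 1 → (∀ l, X ≠ B l) → ρ (cnt B X) + HH a B X ≤ c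
  le : α / 2 * c ≤ v

theorem exDat {W : Set ℂ} {θ α v : ℝ} (h : SecVal W θ α v) : Nonempty (Dat W θ α v) := by
  obtain ⟨n, a, B, ρ, c, h1, h2, h3, h4, h5, h6, h7⟩ := h
  exact ⟨⟨n, a, B, ρ, c, h1, h2, h3, h4, h5, h6, h7⟩⟩

/-- the images of two sectors are disjoint -/
theorem disj (hSLB : SpecSLB) {W : Set ℂ} {m : ℕ} (al v : Fin m → ℝ) (θ₀ : ℝ)
    (hal : ∀ k, 0 < al k) (hs : ∑ k, al k = 2)
    (d : ∀ k : Fin m, Dat W (θ₀ + π * psum al k) (al k) (v k)) (k l : Fin m) (hkl : k < l)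
    (ζ ξ : ℂ) (hζ1 : ζ.re < 0) (hζ2 : 0 < ζ.im) (hζ3 : ζ.im < π) (hξ1 : ξ.re < 0) (hξ2 : 0 < ξ.im)
    (hξ3 : ξ.im < π)
    (h : ww (d k).a (d k).B (d k).c (θ₀ + π * psum al k) ζ =
      ww (d l).a (d l).B (d l).c (θ₀ + π * psum al l) ξ) : False := by
  obtain ⟨j, -, hj⟩ := ww_eq _ _ _ _ _ _ _ _ _ _ h
  obtain ⟨a1, a2⟩ := (hSLB _ (d k).a (d k).B (Nat.succ_pos _) (d k).pa (d k).ab (d k).anti).1
    ζ hζ1 hζ2 hζ3
  obtain ⟨b1, b2⟩ := (hSLB _ (d l).a (d l).B (Nat.succ_pos _) (d l).pa (d l).ab (d l).anti).1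
    ξ hξ1 hξ2 hξ3
  rw [(d k).sa] at a2
  rw [(d l).sa] at b2
  have hpi := Real.pi_pos
  have p1 := mul_le_mul_of_nonneg_left (psum_lt al hal k l hkl) hpi.le
  have p2 := mul_le_mul_of_nonneg_left (psum_le al hal l) hpi.le
  have p3 := mul_nonneg hpi.le (psum_nonneg al hal k)
  rw [hs] at p2
  have hj0 : j = 0 := by
    apply int_zero
    · linarith
    · linarith
  rw [hj0] at hj
  push_cast at hj
  linarith

/-- the function is injective on one sector -/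
theorem inj1 (hSLF : SpecSLF) (hSLB : SpecSLB) {W : Set ℂ} {θ α v : ℝ} (hα : α ≤ 2)
    (d : Dat W θ α v) (ζ ξ : ℂ) (hζ1 : ζ.re < 0) (hζ2 : 0 < ζ.im) (hζ3 : ζ.im < π)
    (hξ1 : ξ.re < 0) (hξ2 : 0 < ξ.im) (hξ3 : ξ.im < π)
    (h : ww d.a d.B d.c θ ζ = ww d.a d.B d.c θ ξ) : ζ = ξ := by
  obtain ⟨j, hj1, hj⟩ := ww_eq _ _ _ _ _ _ _ _ _ _ h
  obtain ⟨a1, a2⟩ := (hSLB _ d.a d.B (Nat.succ_pos _) d.pa d.ab d.anti).1 ζ hζ1 hζ2 hζ3
  obtain ⟨b1, b2⟩ := (hSLB _ d.a d.B (Nat.succ_pos _) d.pa d.ab d.anti).1 ξ hξ1 hξ2 hξ3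
  rw [d.sa] at a2 b2
  have hpi := Real.pi_pos
  have p2 := mul_le_mul_of_nonneg_left hα hpi.le
  have hj0 : j = 0 := by
    apply int_zero
    · linarith
    · linarith
  rw [hj0] at hj1
  push_cast at hj1
  have h2 : GG d.a d.B ζ = GG d.a d.B ξ := by linear_combination hj1
  exact (hSLF _ d.a d.B (Nat.succ_pos _) d.pa d.ab).2.1 hζ1 hξ1 h2

/-- the real inequality -/
theorem fin_ineq {m : ℕ} (al c : Fin m → ℝ) (hal : ∀ k, 0 < al k) (hs : ∑ k, al k = 2)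
    (L M ε : ℝ) (hM : ∀ k, 0 < M + c k - L)
    (h : ∑ k, π * (M - ε) ^ 2 / ((M + c k - L) / al k) ≤ 2 * π * (M + ε)) :
    2 * L - 6 * ε ≤ ∑ k, al k * c k := by
  have hpi := Real.pi_pos
  have h1 : ∀ k, π * (al k * (M - 2 * ε - (c k - L))) ≤ π * (M - ε) ^ 2 / ((M + c k - L) / al k) := by
    intro k
    rw [div_div_eq_mul_div, le_div_iff₀ (hM k)]
    have h2 : (M - 2 * ε - (c k - L)) * (M + c k - L) ≤ (M - ε) ^ 2 := by
      nlinarith [sq_nonneg (ε + (c k - L))]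
    have h3 := mul_le_mul_of_nonneg_left h2 (mul_nonneg hpi.le (hal k).le)
    nlinarith [h3]
  have h4 := (Finset.sum_le_sum fun k (_ : k ∈ Finset.univ) => h1 k).trans h
  rw [← Finset.mul_sum] at h4
  have h5 : ∑ k, al k * (M - 2 * ε - (c k - L)) = 2 * (M - 2 * ε + L) - ∑ k, al k * c k := by
    have : ∀ k, al k * (M - 2 * ε - (c k - L)) = al k * (M - 2 * ε + L) - al k * c k := by
      intro k
      ring
    rw [Finset.sum_congr rfl fun k _ => this k, Finset.sum_sub_distrib, ← Finset.sum_mul, hs]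
  rw [h5] at h4
  have h6 : 2 * (M - 2 * ε + L) - ∑ k, al k * c k ≤ 2 * (M + ε) := by
    by_contra hc
    push Not at hc
    have := mul_lt_mul_of_pos_left hc hpi
    linarith
  linarith

end DUBM

open DUBM in
/-- DUB -/
theorem specDUB (hSLF : SpecSLF) (hSLB : SpecSLB) (hSEL : SpecSEL) (hSEI : SpecSEI)
    (hARA : SpecARA) : SpecDUB := by
  intro f R hf hW m al v θ₀ hal hs hsec
  obtain ⟨-, hopen, h, hinv⟩ := specINV f hf.an hf.inj
  have hi : Invf f h := hinv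
  have hpi := Real.pi_pos
  set d : ∀ k : Fin m, Dat (f '' ball 0 1)ᶜ (θ₀ + π * psum al k) (al k) (v k) :=
    fun k => (exDat (hsec k)).some with hd
  have hal2 : ∀ k, al k ≤ 2 := by
    intro k
    have := psum_le al hal k
    have h0 := psum_nonneg al hal k
    rw [hs] at this
    linarith
  have key : ∀ ε : ℝ, 0 < ε → 2 * Real.log R - 6 * ε ≤ ∑ k, al k * (d k).c := by
    intro ε hε
    have e1 : ∀ k : Fin m, ∀ᶠ M : ℝ in atTop,
        ∀ ζ ∈ EE f (d k).a (d k).B (d k).c (θ₀ + π * psum al k) ((M + (d k).c - Real.log R) / al k),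
          Real.exp (-M - ε) ≤ ‖h (ww (d k).a (d k).B (d k).c (θ₀ + π * psum al k) ζ)‖ := by
      intro k
      have h1 := hSEL f h R hf hi (d k).n (d k).a (d k).B (d k).c (θ₀ + π * psum al k)
        (d k).pa (d k).ab ε hε
      rw [(d k).sa] at h1
      filter_upwards [h1] with M hM
      exact hM.2
    have e2 : ∀ k : Fin m, ∀ᶠ M : ℝ in atTop,
        ENNReal.ofReal (π * (M - ε) ^ 2 / ((M + (d k).c - Real.log R) / al k)) ≤
        ∫⁻ ζ in EE f (d k).a (d k).B (d k).c (θ₀ + π * psum al k)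
            ((M + (d k).c - Real.log R) / al k),
          ENNReal.ofReal (‖deriv (fun ζ => h (ww (d k).a (d k).B (d k).c
            (θ₀ + π * psum al k) ζ)) ζ / h (ww (d k).a (d k).B (d k).c
            (θ₀ + π * psum al k) ζ)‖ ^ 2) := by
      intro k
      have h1 := hSEI f h R hf hi hW (d k).n (d k).a (d k).B (d k).ρ (d k).c (θ₀ + π * psum al k)
        (d k).pa (d k).mem (d k).anti (d k).ab (d k).bd ε hε
      rw [(d k).sa] at h1
      exact h1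
    have e3 : ∀ k : Fin m, ∀ᶠ M : ℝ in atTop, 0 < M + (d k).c - Real.log R := by
      intro k
      filter_upwards [eventually_gt_atTop (Real.log R - (d k).c)] with M hM
      linarith
    have e4 : ∀ᶠ M : ℝ in atTop, 0 < M := eventually_gt_atTop 0
    obtain ⟨M, g1, g2, g3, g4⟩ := ((eventually_all.2 e1).and ((eventually_all.2 e2).and
      ((eventually_all.2 e3).and e4))).exists
    set E : Fin m → Set ℂ := fun k => EE f (d k).a (d k).B (d k).c (θ₀ + π * psum al k)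
      ((M + (d k).c - Real.log R) / al k) with hE
    set F : Fin m → ℂ → ℂ := fun k ζ =>
      h (ww (d k).a (d k).B (d k).c (θ₀ + π * psum al k) ζ) with hF
    have hs0 : (0 : ℝ) < Real.exp (-M - ε) := Real.exp_pos _
    have hs1 : Real.exp (-M - ε) ≤ 1 := Real.exp_le_one_iff.2 (by linarith)
    have hA := hARA m E F (Real.exp (-M - ε)) hs0 hs1
      (fun k => EE_open hSLF f hopen _ _ _ _ _ (d k).pa (d k).ab)
      (by
        intro k ζ hζ
        have hζ' := hζ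
        simp only [hE, EE, mem_setOf_eq] at hζ'
        exact ((h_diff hi hζ'.2.2.2.2).comp ζ
          (ww_diff hSLF _ _ _ _ (d k).pa (d k).ab hζ'.2.1)).differentiableWithinAt)
      (by
        intro k ζ hζ ξ hξ he
        simp only [hE, EE, mem_setOf_eq] at hζ hξ
        exact inj1 hSLF hSLB (hal2 k) (d k) ζ ξ hζ.2.1 hζ.2.2.1 hζ.2.2.2.1 hξ.2.1 hξ.2.2.1
          hξ.2.2.2.1 (h_inj hi hζ.2.2.2.2 hξ.2.2.2.2 he))
      (by
        intro k ζ hζ
        refine ⟨g1 k ζ hζ, ?_⟩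
        simp only [hE, EE, mem_setOf_eq] at hζ
        exact h_norm hi hζ.2.2.2.2)
      (by
        intro k l hkl
        rw [Set.disjoint_left]
        rintro _ ⟨ζ, hζ, rfl⟩ ⟨ξ, hξ, he⟩
        simp only [hE, EE, mem_setOf_eq] at hζ hξ
        have he' := h_inj hi hξ.2.2.2.2 hζ.2.2.2.2 he
        rcases lt_or_gt_of_ne hkl with h1 | h1
        · exact disj hSLB al v θ₀ hal hs d k l h1 ζ ξ hζ.2.1 hζ.2.2.1 hζ.2.2.2.1 hξ.2.1 hξ.2.2.1
            hξ.2.2.2.1 he'.symm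
        · exact disj hSLB al v θ₀ hal hs d l k h1 ξ ζ hξ.2.1 hξ.2.2.1 hξ.2.2.2.1 hζ.2.1 hζ.2.2.1
            hζ.2.2.2.1 he')
    have hlog : Real.log (1 / Real.exp (-M - ε)) = M + ε := by
      rw [one_div, ← Real.exp_neg, Real.log_exp]
      ring
    rw [hlog] at hA
    have hB := (Finset.sum_le_sum fun k (_ : k ∈ Finset.univ) => g2 k).trans hA
    have hnn : ∀ k ∈ (Finset.univ : Finset (Fin m)),
        0 ≤ π * (M - ε) ^ 2 / ((M + (d k).c - Real.log R) / al k) := fun k _ =>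
      div_nonneg (mul_nonneg hpi.le (sq_nonneg _)) (div_nonneg (g3 k).le (hal k).le)
    rw [← ENNReal.ofReal_sum_of_nonneg hnn] at hB
    have hC := (ENNReal.ofReal_le_ofReal_iff (by positivity)).1 hB
    exact fin_ineq al (fun k => (d k).c) hal hs (Real.log R) M ε g3 hC
  have h2 : 2 * Real.log R ≤ ∑ k, al k * (d k).c := by
    refine le_of_forall_pos_le_add fun ε hε => ?_
    have := key (ε / 6) (by positivity)
    linarith
  have h3 : ∑ k, al k * (d k).c = 2 * ∑ k, al k / 2 * (d k).c := by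
    rw [Finset.mul_sum]
    refine Finset.sum_congr rfl fun k _ => ?_
    ring
  have h4 : ∑ k, al k / 2 * (d k).c ≤ ∑ k, v k := Finset.sum_le_sum fun k _ => (d k).le
  linarith

end Pool.Agent.Lib.MP250511.ST
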