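import Pool.Agent.Lib.MP_250511_an.Defs

/-!
Problem MP_250511_an, Q2: a lower bound for the starlike schlicht Bloch constant `S₁`.  Definitions.
-/

set_option autoImplicit false

namespace Pool.Agent.Lib.MP250511.ST

open Complex Metric Set MeasureTheory Filter Topology
open scoped Real ENNReal

noncomputable section

/-- `t w ∈ W` for `w ∈ W` and `t ≥ 1` (the complement of a set that is star-shaped about `0`) -/
def StarC (W : Set ℂ) : Prop := ∀ w ∈ W, ∀ t : ℝ, 1 ≤ t → (t : ℂ) * w ∈ W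

/-- every closed disc of radius `1` meets `W` -/
def Hit (W : Set ℂ) : Prop := ∀ c : ℂ, ∃ w ∈ W, ‖w - c‖ ≤ 1

/-- injective analytic map of the unit disc with `f 0 = 0` and `f' 0 = R > 0` -/
structure Cmap (f : ℂ → ℂ) (R : ℝ) : Prop where
  an : AnalyticOnNhd ℂ f (ball 0 1)
  inj : InjOn f (ball 0 1)
  zero : f 0 = 0
  pos : 0 < R
  der : deriv f 0 = R

/-- `h` is the inverse function of `f` -/
def Invf (f h : ℂ → ℂ) : Prop :=
  ∀ z ∈ ball (0 : ℂ) 1, h (f z) = z ∧ HasDerivAt h (deriv f z)⁻¹ (f z)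

/-- the point with logarithm of the modulus `ρ` and argument `θ` -/
def pt (ρ θ : ℝ) : ℂ := exp ((ρ : ℂ) + θ * I)

/-- `∑ a_l log (2 |X - B_l|)` -/
def HH {n : ℕ} (a B : Fin n → ℝ) (X : ℝ) : ℝ := ∑ l, a l * Real.log (2 * |X - B l|)

/-- the logarithm of the (power of the) slit function in the logarithmic coordinate:
`α ζ - ∑ a_l log (1 - 2 B_l e^ζ + e^{2 ζ})`, `α = ∑ a_l` -/
def GG {n : ℕ} (a B : Fin n → ℝ) (ζ : ℂ) : ℂ :=
  ((∑ l, a l : ℝ) : ℂ) * ζ - ∑ l, (a l : ℂ) * Complex.log (1 - 2 * (B l : ℂ) * exp ζ + exp ζ ^ 2)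

/-- the number of `l` with `X < B l` -/
def cnt {n : ℕ} (B : Fin n → ℝ) (X : ℝ) : ℕ := (Finset.univ.filter fun l => X < B l).card

/-- `∑_{l < j} a l` -/
def psum {n : ℕ} (a : Fin n → ℝ) (j : ℕ) : ℝ :=
  ∑ l ∈ Finset.univ.filter (fun l : Fin n => (l : ℕ) < j), a l

/-- The sector with first ray in direction `θ` and opening `π α`: there are points of `W` in the
directions `θ + π ∑_{l<j} a l` (`j = 0, .., n + 1`, first and last on the sides of the sector) and a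
slit function whose slits start at these points or farther out; `α c / 2` is the contribution of the
sector to the bound of `log R`. -/
def SecVal (W : Set ℂ) (θ α v : ℝ) : Prop :=
  ∃ (n : ℕ) (a B : Fin (n + 1) → ℝ) (ρ : ℕ → ℝ) (c : ℝ),
    (∀ l, 0 < a l) ∧ ∑ l, a l = α ∧
    (∀ j ≤ n + 1, pt (ρ j) (θ + π * psum a j) ∈ W) ∧
    StrictAnti B ∧ (∀ l, |B l| < 1) ∧
    (∀ X : ℝ, |X| ≤ 1 → (∀ l, X ≠ B l) → ρ (cnt B X) + HH a B X ≤ c) ∧
    α / 2 * c ≤ v

/-- the map of the half strip into the sector -/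
def ww {n : ℕ} (a B : Fin n → ℝ) (c θ : ℝ) (ζ : ℂ) : ℂ := exp ((c : ℂ) + θ * I + GG a B ζ)

/-- the part `- X < re ζ` of the half strip that is mapped into `f(D)` -/
def EE {n : ℕ} (f : ℂ → ℂ) (a B : Fin n → ℝ) (c θ X : ℝ) : Set ℂ :=
  {ζ | -X < ζ.re ∧ ζ.re < 0 ∧ 0 < ζ.im ∧ ζ.im < π ∧ ww a B c θ ζ ∈ f '' ball 0 1}

/-- interlacing: `1 = X 0 > B 0 > X 1 > B 1 > ... > B n > X (n + 1) = -1` -/
structure Inter (n : ℕ) (X : Fin (n + 2) → ℝ) (B : Fin (n + 1) → ℝ) : Prop where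
  top : X 0 = 1
  bot : X (Fin.last (n + 1)) = -1
  l : ∀ j : Fin (n + 1), B j < X j.castSucc
  r : ∀ j : Fin (n + 1), X j.succ < B j

/-- cross product -/
def crs (z w : ℂ) : ℝ := z.re * w.im - z.im * w.re

/-- scalar product -/
def dot (z w : ℂ) : ℝ := z.re * w.re + z.im * w.im

end

end Pool.Agent.Lib.MP250511.ST
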