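import Pool.Agent.Lib.MP_250511_an.ST.LCH

/-!
Problem MP_250511_an, Q2: module EMB (helper19), empty boxes.
-/

set_option autoImplicit false

namespace Pool.Agent.Lib.MP250511.ST

open Complex Metric Set MeasureTheory Filter Topology
open scoped Real ENNReal

namespace EMBM

theorem pt_eq (ρ u : ℝ) : pt ρ (π * u) = (Real.exp ρ : ℂ) * ee u := by
  unfold pt ee
  rw [Complex.exp_add, Complex.ofReal_exp]

theorem grow {a₁ a₂ r₁ r₂ c c' : ℝ} (ha₁ : 0 ≤ a₁) (ha₂ : 0 ≤ a₂) (h₁ : a₁ ≤ r₁) (h₂ : a₂ ≤ r₂)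
    (hc : c' ≤ c) (hc0 : c ≤ 0) :
    a₁ ^ 2 + a₂ ^ 2 - 2 * a₁ * a₂ * c ≤ r₁ ^ 2 + r₂ ^ 2 - 2 * r₁ * r₂ * c' := by
  have h3 : a₁ * a₂ ≤ r₁ * r₂ := mul_le_mul h₁ h₂ ha₂ (ha₁.trans h₁)
  have h4 : a₁ ^ 2 ≤ r₁ ^ 2 := pow_le_pow_left₀ ha₁ h₁ 2
  have h5 : a₂ ^ 2 ≤ r₂ ^ 2 := pow_le_pow_left₀ ha₂ h₂ 2
  have h6 : 0 ≤ a₁ * a₂ := mul_nonneg ha₁ ha₂
  have h7 : a₁ * a₂ * (-c) ≤ r₁ * r₂ * (-c') :=
    mul_le_mul h3 (by linarith) (by linarith) (h6.trans h3)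
  nlinarith

end EMBM

open EMBM in
theorem specEMB : SpecEMB := by
  intro b p S ha1 ha2 hα h W cs r α ρ₁ ρ₂ hC h1 _ h3 _ h5 _ us _ _ _
  exfalso
  have e1 : pt ρ₁ (-(π * (α / 2))) = (Real.exp ρ₁ : ℂ) * ee (-(α / 2)) := by
    rw [← pt_eq]; congr 1; ring
  have e2 : pt ρ₂ (π * (α / 2)) = (Real.exp ρ₂ : ℂ) * ee (α / 2) := pt_eq _ _
  have hn := LCHM.nrm (Real.exp ρ₁) (Real.exp ρ₂) α
  rw [← e1, ← e2] at hn
  have hd : ‖pt ρ₁ (-(π * (α / 2))) - pt ρ₂ (π * (α / 2))‖ ≤ 2 := by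
    have e3 : pt ρ₁ (-(π * (α / 2))) - pt ρ₂ (π * (α / 2)) =
        (pt ρ₁ (-(π * (α / 2))) - cs) - (pt ρ₂ (π * (α / 2)) - cs) := by ring
    rw [e3]
    refine (norm_sub_le _ _).trans ?_
    rw [hC.c1, hC.c2]
    have := hC.r1
    linarith
  have hd2 := pow_le_pow_left₀ (norm_nonneg _) hd 2
  rw [hn] at hd2
  have hα1 : α ≤ 1 := hC.al1
  have hcos : Real.cos (π * α) ≤ Real.cos (π * b.α₀) :=
    Real.cos_le_cos_of_nonneg_of_le_pi (mul_nonneg Real.pi_pos.le (by linarith))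
      (by nlinarith [Real.pi_pos]) (mul_le_mul_of_nonneg_left h5 Real.pi_pos.le)
  have hcos0 : Real.cos (π * b.α₀) ≤ 0 :=
    Real.cos_nonpos_of_pi_div_two_le_of_le (by nlinarith [Real.pi_pos])
      (by nlinarith [Real.pi_pos])
  have := grow ha1 ha2 h1 h3 hcos hcos0
  linarith

end Pool.Agent.Lib.MP250511.ST
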