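import Pool.Agent.Lib.MP_250511_an.ST.Spec4

/-!
# EMI: empty boxes (MP_250511_an, Q2, part 4)
-/

set_option autoImplicit false

namespace Pool.Agent.Lib.MP250511.ST.Chk

open Complex Metric Set MeasureTheory Filter Topology
open scoped Real ENNReal

namespace EMIM

/-- the lower bound `l2` -/
theorem l2_le (hCOS : SpecCOS) (a1 a2 al0 : ℕ) (h1 : 512 ≤ al0) (h2 : al0 ≤ 1024) :
    ((l2 a1 a2 al0 : ℕ) : ℝ) ≤ 2 ^ 30 * ((a1 : ℝ) ^ 2 + (a2 : ℝ) ^ 2) -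
      2 ^ 31 * (a1 : ℝ) * a2 * Real.cos (π * ((al0 : ℝ) / 1024)) := by
  set j : ℕ := 2048 - 2 * al0 with hj
  have hj1 : j ≤ 1024 := by omega
  have hc := hCOS j hj1
  have hcos : Real.cos (π * ((al0 : ℝ) / 1024)) = - Real.cos (Real.pi * j / 2048) := by
    have : (j : ℝ) = 2048 - 2 * (al0 : ℝ) := by
      rw [hj, Nat.cast_sub (by omega)]; push_cast; ring
    rw [this, ← Real.cos_pi_sub]
    congr 1
    ring
  have hcn : 0 ≤ Real.cos (Real.pi * j / 2048) := by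
    apply Real.cos_nonneg_of_neg_pi_div_two_le_of_le
    · have : 0 ≤ Real.pi * (j : ℝ) / 2048 := by positivity
      linarith [Real.pi_pos]
    · have hj2 : (j : ℝ) ≤ 1024 := by exact_mod_cast hj1
      have : Real.pi * (j : ℝ) ≤ Real.pi * 1024 := mul_le_mul_of_nonneg_left hj2 Real.pi_pos.le
      linarith
  have hs : ((cT j - 2 : ℕ) : ℝ) ≤ 2 ^ 30 * Real.cos (Real.pi * j / 2048) := by
    rcases le_total 2 (cT j) with h | h
    · rw [Nat.cast_sub h]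
      have := (abs_le.mp hc).2
      push_cast
      linarith
    · rw [Nat.sub_eq_zero_of_le h]
      push_cast
      positivity
  have e : l2 a1 a2 al0 = (a1 * a1 + a2 * a2) * 2 ^ 30 + 2 * (a1 * a2) * (cT j - 2) := by
    have : l2 a1 a2 al0 = (a1 * a1 + a2 * a2) <<< 30 + 2 * (a1 * a2) * (cT j - 2) := rfl
    rw [this, Nat.shiftLeft_eq]
  rw [e, hcos]
  push_cast
  have hp : (0 : ℝ) ≤ 2 * ((a1 : ℝ) * a2) := by positivity
  have := mul_le_mul_of_nonneg_left hs hp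
  nlinarith [this]

end EMIM

theorem specEMI (hCOS : SpecCOS) (hEMB : SpecEMB) : SpecEMI := by
  intro P a1 b1 a2 b2 al0 al1 S h
  unfold emOk at h
  rw [Bool.and_eq_true, Bool.and_eq_true, Nat.ble_eq, Nat.ble_eq, blt_iff] at h
  obtain ⟨⟨h1, h2⟩, h3⟩ := h
  have h4 := EMIM.l2_le hCOS a1 a2 al0 h1 h2
  have h5 : (281474976710656 : ℝ) < ((l2 a1 a2 al0 : ℕ) : ℝ) := by exact_mod_cast h3
  refine hEMB (bx a1 b1 a2 b2 al0 al1) P.ptl S ?_ ?_ ?_ ?_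
  · show (0 : ℝ) ≤ (a1 : ℝ) / 256
    positivity
  · show (0 : ℝ) ≤ (a2 : ℝ) / 256
    positivity
  · show (1 : ℝ) / 2 ≤ (al0 : ℝ) / 1024
    have : (512 : ℝ) ≤ al0 := by exact_mod_cast h1
    linarith
  · show (4 : ℝ) < ((a1 : ℝ) / 256) ^ 2 + ((a2 : ℝ) / 256) ^ 2 -
      2 * ((a1 : ℝ) / 256) * ((a2 : ℝ) / 256) * Real.cos (π * ((al0 : ℝ) / 1024))
    have e : ((a1 : ℝ) / 256) ^ 2 + ((a2 : ℝ) / 256) ^ 2 -
      2 * ((a1 : ℝ) / 256) * ((a2 : ℝ) / 256) * Real.cos (π * ((al0 : ℝ) / 1024)) =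
      (2 ^ 30 * ((a1 : ℝ) ^ 2 + (a2 : ℝ) ^ 2) -
      2 ^ 31 * (a1 : ℝ) * a2 * Real.cos (π * ((al0 : ℝ) / 1024))) / 2 ^ 46 := by ring
    rw [e, lt_div_iff₀ (by positivity)]
    norm_num
    linarith

end Pool.Agent.Lib.MP250511.ST.Chk
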