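import Pool.Agent.Lib.MP_250511_an.ST.Spec5

/-!
Problem MP_250511_an, Q2, part 5.  Module END: the end (from RCH, ASM).
-/

set_option autoImplicit false

namespace Pool.Agent.Lib.MP250511.ST.Chk

open Complex Metric Set MeasureTheory Filter Topology
open scoped Real ENNReal

/-- END -/
theorem END (hRCH : SpecRCH) (hASM : SpecASM) : SpecEND := by
  intro tab V t hv hr hg hV
  have hcov : Cover ((V : ℝ) / 2 ^ 30) := hRCH tab V t hv hr
  have hval : Valid (tab 14).ptl 1 1 := by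
    intro W cs r α ρ₁ ρ₂ hC h0 h1
    refine hv 14 le_rfl W cs r α ρ₁ ρ₂ hC ?_ ?_
    · push_cast
      linarith
    · push_cast
      linarith
  refine hASM ((V : ℝ) / 2 ^ 30) (tab 14).ptl hcov hval ?_ ?_ ?_
  · show ((tab 14).g₁ : ℝ) / 2 ^ 20 = ((tab 14).g₂ : ℝ) / 2 ^ 20
    rw [hg]
  · show 0 ≤ ((tab 14).g₁ : ℝ) / 2 ^ 20
    positivity
  · show ((tab 14).A : ℝ) / 2 ^ 20 + (((tab 14).Bp : ℝ) - (tab 14).Bn) / 2 ^ 20 ≤ (V : ℝ) / 2 ^ 30
    have h : 1024 * (((tab 14).A : ℝ) + (tab 14).Bp) ≤ (V : ℝ) + 1024 * (tab 14).Bn := by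
      exact_mod_cast hV
    rw [← add_div, div_le_div_iff₀ (by positivity) (by positivity)]
    linarith

end Pool.Agent.Lib.MP250511.ST.Chk
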