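import Pool.Agent.Lib.MP_250511_an.ST.Spec

/-!
# EQA: a maximum of the minimum exists
-/

set_option autoImplicit false

namespace Pool.Agent.Lib.MP250511.ST

open Complex Metric Set MeasureTheory Filter Topology
open scoped Real ENNReal

namespace EQAM

variable {n : ℕ}

theorem anti {X : Fin (n + 2) → ℝ} {B : Fin (n + 1) → ℝ} (h : Inter n X B) : StrictAnti X := by
  rw [Fin.strictAnti_iff_succ_lt]
  intro i
  exact (h.r i).trans (h.l i)

theorem X_le {X : Fin (n + 2) → ℝ} {B : Fin (n + 1) → ℝ} (h : Inter n X B) (j : Fin (n + 2)) :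
    X j ≤ 1 := by
  rw [← h.top]
  exact (anti h).antitone (Fin.zero_le j)

theorem le_X {X : Fin (n + 2) → ℝ} {B : Fin (n + 1) → ℝ} (h : Inter n X B) (j : Fin (n + 2)) :
    -1 ≤ X j := by
  rw [← h.bot]
  exact (anti h).antitone (Fin.le_last j)

theorem B_le {X : Fin (n + 2) → ℝ} {B : Fin (n + 1) → ℝ} (h : Inter n X B) (l : Fin (n + 1)) :
    B l ≤ 1 := (h.l l).le.trans (X_le h _)

theorem le_B {X : Fin (n + 2) → ℝ} {B : Fin (n + 1) → ℝ} (h : Inter n X B) (l : Fin (n + 1)) :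
    -1 ≤ B l := (le_X h _).trans (h.r l).le

theorem ne {X : Fin (n + 2) → ℝ} {B : Fin (n + 1) → ℝ} (h : Inter n X B) (j : Fin (n + 2))
    (l : Fin (n + 1)) : X j ≠ B l := by
  rcases le_or_gt j l.castSucc with h1 | h1
  · exact ((h.l l).trans_le ((anti h).antitone h1)).ne'
  · have h2 : l.succ ≤ j := by
      rw [Fin.le_def, Fin.val_succ]
      have := Fin.lt_def.1 h1
      rw [Fin.val_castSucc] at this
      omega
    exact (((anti h).antitone h2).trans_lt (h.r l)).ne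

theorem abs_le {X : Fin (n + 2) → ℝ} {B : Fin (n + 1) → ℝ} (h : Inter n X B) (j : Fin (n + 2))
    (l : Fin (n + 1)) : |X j - B l| ≤ 2 := by
  rw [abs_sub_le_iff]
  have := X_le h j
  have := le_X h j
  have := B_le h l
  have := le_B h l
  constructor <;> linarith

theorem log_le {X : Fin (n + 2) → ℝ} {B : Fin (n + 1) → ℝ} (h : Inter n X B) (j : Fin (n + 2))
    (l : Fin (n + 1)) : Real.log (2 * |X j - B l|) ≤ Real.log 4 := by
  have h1 : 0 < |X j - B l| := abs_pos.2 (sub_ne_zero.2 (ne h j l))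
  exact Real.log_le_log (by positivity) (by linarith [abs_le h j l])

/-- the distances are bounded below -/
theorem low (a : Fin (n + 1) → ℝ) (ha : ∀ l, 0 < a l) (ρ : Fin (n + 2) → ℝ) (c₀ : ℝ) :
    ∃ δ : ℝ, 0 < δ ∧ ∀ (X : Fin (n + 2) → ℝ) (B : Fin (n + 1) → ℝ), Inter n X B →
      (∀ j, c₀ ≤ ρ j + HH a B (X j)) → ∀ j l, δ ≤ |X j - B l| := by
  obtain ⟨M, hM⟩ : ∃ M, M = (∑ l, a l) * Real.log 4 := ⟨_, rfl⟩
  obtain ⟨L, hL⟩ : ∃ L, L = ∑ j, ∑ l, |(c₀ - ρ j - M) / a l| := ⟨_, rfl⟩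
  refine ⟨Real.exp (-L) / 2, by positivity, fun X B h hc j l => ?_⟩
  have h1 : 0 < |X j - B l| := abs_pos.2 (sub_ne_zero.2 (ne h j l))
  have hlog4 : 0 ≤ Real.log 4 := Real.log_nonneg (by norm_num)
  have h2 : HH a B (X j) ≤ a l * Real.log (2 * |X j - B l|) + M := by
    unfold HH
    rw [← Finset.add_sum_erase _ _ (Finset.mem_univ l), hM, Finset.sum_mul]
    refine add_le_add le_rfl ?_
    refine (Finset.sum_le_sum (g := fun l => a l * Real.log 4) fun i _ =>
      mul_le_mul_of_nonneg_left (log_le h j i) (ha i).le).trans ?_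
    exact Finset.sum_le_sum_of_subset_of_nonneg (Finset.erase_subset _ _) fun i _ _ =>
      mul_nonneg (ha i).le hlog4
  have h3 : (c₀ - ρ j - M) / a l ≤ Real.log (2 * |X j - B l|) := by
    rw [div_le_iff₀ (ha l)]
    have := hc j
    linarith
  have h4 : |(c₀ - ρ j - M) / a l| ≤ L := by
    rw [hL]
    refine le_trans ?_ (Finset.single_le_sum (f := fun j => ∑ l, |(c₀ - ρ j - M) / a l|)
      (fun i _ => Finset.sum_nonneg fun _ _ => abs_nonneg _) (Finset.mem_univ j))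
    exact Finset.single_le_sum (f := fun l => |(c₀ - ρ j - M) / a l|)
      (fun _ _ => abs_nonneg _) (Finset.mem_univ l)
  have h5 : -L ≤ Real.log (2 * |X j - B l|) := by
    have := neg_abs_le ((c₀ - ρ j - M) / a l)
    linarith
  have h6 := (Real.le_log_iff_exp_le (by positivity)).1 h5
  linarith

/-- an interlacing point -/
theorem exists_inter (n : ℕ) : ∃ (X : Fin (n + 2) → ℝ) (B : Fin (n + 1) → ℝ), Inter n X B := by
  have hn : (0 : ℝ) < (n : ℝ) + 1 := by positivity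
  refine ⟨fun j => 1 - 2 * (j : ℕ) / ((n : ℝ) + 1), fun l => 1 - (2 * (l : ℕ) + 1) / ((n : ℝ) + 1),
    ?_, ?_, ?_, ?_⟩
  · simp
  · rw [Fin.val_last]
    push_cast
    field_simp
    ring
  · intro j
    rw [Fin.val_castSucc]
    have : 2 * ((j : ℕ) : ℝ) / ((n : ℝ) + 1) < (2 * ((j : ℕ) : ℝ) + 1) / ((n : ℝ) + 1) :=
      div_lt_div_of_pos_right (by linarith) hn
    linarith
  · intro j
    rw [Fin.val_succ]
    push_cast
    have : (2 * ((j : ℕ) : ℝ) + 1) / ((n : ℝ) + 1) < 2 * (((j : ℕ) : ℝ) + 1) / ((n : ℝ) + 1) :=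
      div_lt_div_of_pos_right (by linarith) hn
    linarith

/-- the compact set -/
def KK (n : ℕ) (δ : ℝ) : Set ((Fin (n + 2) → ℝ) × (Fin (n + 1) → ℝ)) :=
  {z | z.1 0 = 1 ∧ z.1 (Fin.last (n + 1)) = -1 ∧ (∀ j : Fin (n + 1), δ ≤ z.1 j.castSucc - z.2 j) ∧
    ∀ j : Fin (n + 1), δ ≤ z.2 j - z.1 j.succ}

theorem KK_inter {δ : ℝ} (hδ : 0 < δ) {z : (Fin (n + 2) → ℝ) × (Fin (n + 1) → ℝ)}
    (hz : z ∈ KK n δ) : Inter n z.1 z.2 :=
  ⟨hz.1, hz.2.1, fun j => by linarith [hz.2.2.1 j], fun j => by linarith [hz.2.2.2 j]⟩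

theorem KK_compact {δ : ℝ} (hδ : 0 < δ) : IsCompact (KK n δ) := by
  have hbox : IsCompact ((Set.pi Set.univ fun _ : Fin (n + 2) => Icc (-1 : ℝ) 1) ×ˢ
      (Set.pi Set.univ fun _ : Fin (n + 1) => Icc (-1 : ℝ) 1)) :=
    (isCompact_univ_pi fun _ => isCompact_Icc).prod (isCompact_univ_pi fun _ => isCompact_Icc)
  refine hbox.of_isClosed_subset ?_ ?_
  · have c1 : ∀ i : Fin (n + 2), Continuous
        fun z : (Fin (n + 2) → ℝ) × (Fin (n + 1) → ℝ) => z.1 i :=
      fun i => (continuous_apply i).comp continuous_fst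
    have c2 : ∀ i : Fin (n + 1), Continuous
        fun z : (Fin (n + 2) → ℝ) × (Fin (n + 1) → ℝ) => z.2 i :=
      fun i => (continuous_apply i).comp continuous_snd
    have e : KK n δ = {z | z.1 0 = 1} ∩ ({z | z.1 (Fin.last (n + 1)) = -1} ∩
        ((⋂ j : Fin (n + 1), {z | δ ≤ z.1 j.castSucc - z.2 j}) ∩
          ⋂ j : Fin (n + 1), {z | δ ≤ z.2 j - z.1 j.succ})) := by
      ext z
      simp only [KK, mem_ofPred_eq, mem_inter_iff, mem_iInter]
    rw [e]
    exact (isClosed_eq (c1 _) continuous_const).inter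
      ((isClosed_eq (c1 _) continuous_const).inter
        ((isClosed_iInter fun j => isClosed_le continuous_const ((c1 _).sub (c2 _))).inter
          (isClosed_iInter fun j => isClosed_le continuous_const ((c2 _).sub (c1 _)))))
  · intro z hz
    have hI := KK_inter hδ hz
    exact ⟨fun j _ => ⟨le_X hI j, X_le hI j⟩, fun l _ => ⟨le_B hI l, B_le hI l⟩⟩

/-- the minimum -/
noncomputable def mm (a : Fin (n + 1) → ℝ) (ρ : Fin (n + 2) → ℝ)
    (z : (Fin (n + 2) → ℝ) × (Fin (n + 1) → ℝ)) : ℝ :=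
  Finset.univ.inf' ⟨0, Finset.mem_univ _⟩ fun j => ρ j + HH a z.2 (z.1 j)

theorem mm_cont (a : Fin (n + 1) → ℝ) (ρ : Fin (n + 2) → ℝ) {δ : ℝ} (hδ : 0 < δ) :
    ContinuousOn (mm a ρ) (KK n δ) := by
  unfold mm
  refine ContinuousOn.finset_inf'_apply _ fun j _ => ?_
  unfold HH
  refine continuousOn_const.add (continuousOn_finsetSum _ fun l _ => ?_)
  refine continuousOn_const.mul (ContinuousOn.log ?_ ?_)
  · have c1 : Continuous fun z : (Fin (n + 2) → ℝ) × (Fin (n + 1) → ℝ) => z.1 j :=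
      (continuous_apply j).comp continuous_fst
    have c2 : Continuous fun z : (Fin (n + 2) → ℝ) × (Fin (n + 1) → ℝ) => z.2 l :=
      (continuous_apply l).comp continuous_snd
    exact (continuous_const.mul (c1.sub c2).abs).continuousOn
  · intro z hz
    have h1 : 0 < |z.1 j - z.2 l| := abs_pos.2 (sub_ne_zero.2 (ne (KK_inter hδ hz) j l))
    positivity

end EQAM

open EQAM in
/-- EQA -/
theorem specEQA : SpecEQA := by
  intro n a ρ ha
  obtain ⟨X₀, B₀, h₀⟩ := exists_inter n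
  obtain ⟨c₀, hc₀⟩ : ∃ c₀, c₀ = mm a ρ (X₀, B₀) := ⟨_, rfl⟩
  obtain ⟨δ, hδ, hlow⟩ := low a ha ρ c₀
  have hmem : ∀ X B, Inter n X B → (∀ j, c₀ ≤ ρ j + HH a B (X j)) → (X, B) ∈ KK n δ := by
    intro X B h hc
    refine ⟨h.top, h.bot, fun j => ?_, fun j => ?_⟩
    · have := hlow X B h hc j.castSucc j
      rwa [abs_of_pos (sub_pos.2 (h.l j))] at this
    · have := hlow X B h hc j.succ j
      rwa [abs_sub_comm, abs_of_pos (sub_pos.2 (h.r j))] at this
  have hne : (KK n δ).Nonempty := ⟨(X₀, B₀), hmem X₀ B₀ h₀ fun j => by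
    rw [hc₀]
    exact Finset.inf'_le _ (Finset.mem_univ j)⟩
  obtain ⟨z, hz, hmax⟩ := (KK_compact (n := n) hδ).exists_isMaxOn hne (mm_cont a ρ hδ)
  have hcz : c₀ ≤ mm a ρ z := by
    rw [hc₀]
    exact hmax (hmem X₀ B₀ h₀ fun j => by
      rw [hc₀]
      exact Finset.inf'_le _ (Finset.mem_univ j))
  refine ⟨z.1, z.2, mm a ρ z, KK_inter hδ hz, fun j => Finset.inf'_le _ (Finset.mem_univ j), ?_⟩
  intro X' B' h' hcon
  have h1 := hmem X' B' h' fun j => hcz.trans (hcon j).le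
  have h2 : mm a ρ (X', B') ≤ mm a ρ z := hmax h1
  have h3 : mm a ρ z < mm a ρ (X', B') := by
    conv_rhs => unfold mm
    rw [Finset.lt_inf'_iff]
    intro j _
    exact hcon j
  linarith

end Pool.Agent.Lib.MP250511.ST
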