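import Pool.Agent.Lib.MP_250511_an.ST.Spec

/-!
Problem MP_250511_an, Q2.  Module EQB: multipliers at the maximum.
-/

set_option autoImplicit false

namespace Pool.Agent.Lib.MP250511.ST

open Complex Metric Set MeasureTheory Filter Topology
open scoped Real ENNReal

noncomputable section

namespace EQBM

/-- the gradient of the `j`-th value -/
def DD {n : ℕ} (a : Fin (n + 1) → ℝ) (X : Fin (n + 2) → ℝ) (B : Fin (n + 1) → ℝ)
    (j : Fin (n + 2)) : (Fin (n + 2) → ℝ) × (Fin (n + 1) → ℝ) :=
  (fun i => if i = j ∧ j ≠ 0 ∧ j ≠ Fin.last (n + 1) then ∑ l, a l / (X j - B l) else 0,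
   fun l => -(a l / (X j - B l)))

/-- the combination of the gradients -/
def TT {n : ℕ} (a : Fin (n + 1) → ℝ) (X : Fin (n + 2) → ℝ) (B : Fin (n + 1) → ℝ) :
    (Fin (n + 2) → ℝ) →ₗ[ℝ] (Fin (n + 2) → ℝ) × (Fin (n + 1) → ℝ) :=
  ∑ j, (LinearMap.proj j : (Fin (n + 2) → ℝ) →ₗ[ℝ] ℝ).smulRight (DD a X B j)

theorem TT_apply {n : ℕ} (a : Fin (n + 1) → ℝ) (X : Fin (n + 2) → ℝ) (B : Fin (n + 1) → ℝ)
    (lam : Fin (n + 2) → ℝ) : TT a X B lam = ∑ j, lam j • DD a X B j := by
  simp [TT]

/-- the pairing with a direction -/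
theorem pair {n : ℕ} (a : Fin (n + 1) → ℝ) (X : Fin (n + 2) → ℝ) (B : Fin (n + 1) → ℝ)
    (j : Fin (n + 2)) (x : Fin (n + 2) → ℝ) (b : Fin (n + 1) → ℝ) (h0 : x 0 = 0)
    (h1 : x (Fin.last (n + 1)) = 0) :
    ∑ i, (DD a X B j).1 i * x i + ∑ l, (DD a X B j).2 l * b l =
      ∑ l, a l * ((x j - b l) / (X j - B l)) := by
  have h2 : ∑ i, (DD a X B j).1 i * x i = ∑ l, a l / (X j - B l) * x j := by
    rw [Finset.sum_eq_single j]
    · by_cases h : j ≠ 0 ∧ j ≠ Fin.last (n + 1)
      · rw [show (DD a X B j).1 j = ∑ l, a l / (X j - B l) from if_pos ⟨rfl, h⟩, Finset.sum_mul]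
      · have hx : x j = 0 := by
          rw [not_and_or, not_not, not_not] at h
          rcases h with h | h
          · rw [h, h0]
          · rw [h, h1]
        simp [hx]
    · intro i _ hi
      simp only [DD]
      rw [if_neg (fun h => hi h.1), zero_mul]
    · intro h
      exact absurd (Finset.mem_univ j) h
  rw [h2, ← Finset.sum_add_distrib]
  refine Finset.sum_congr rfl fun l _ => ?_
  simp only [DD]
  ring

theorem HH_eq {n : ℕ} (a B : Fin n → ℝ) (X : ℝ) :
    HH a B X = ∑ l, a l * Real.log (2 * (X - B l)) := by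
  unfold HH
  refine Finset.sum_congr rfl fun l _ => ?_
  rw [← Real.log_abs (2 * (X - B l)), abs_mul, abs_two]

theorem deriv_HH {n : ℕ} (a B b : Fin n → ℝ) (X x : ℝ) (h : ∀ l, X - B l ≠ 0) :
    HasDerivAt (fun t : ℝ => HH a (fun l => B l + t * b l) (X + t * x))
      (∑ l, a l * ((x - b l) / (X - B l))) 0 := by
  simp only [HH_eq]
  have h1 : ∀ l ∈ (Finset.univ : Finset (Fin n)),
      HasDerivAt (fun t : ℝ => a l * Real.log (2 * (X + t * x - (B l + t * b l))))
        (a l * ((x - b l) / (X - B l))) 0 := by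
    intro l _
    refine HasDerivAt.const_mul _ ?_
    have h2 : HasDerivAt (fun t : ℝ => X + t * x) x 0 := by
      simpa using ((hasDerivAt_id (0 : ℝ)).mul_const x).const_add X
    have h3 : HasDerivAt (fun t : ℝ => B l + t * b l) (b l) 0 := by
      simpa using ((hasDerivAt_id (0 : ℝ)).mul_const (b l)).const_add (B l)
    have h4 := (h2.sub h3).const_mul 2
    have h5 := h4.log (by simpa using h l)
    refine h5.congr_deriv ?_
    have := h l
    simp only [Pi.sub_apply, zero_mul, add_zero]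
    rw [mul_div_mul_left _ _ two_ne_zero]
  have h2 := HasDerivAt.sum h1
  refine h2.congr_of_eventuallyEq (Eventually.of_forall fun t => ?_)
  simp

theorem lt_of_deriv {g : ℝ → ℝ} {g' : ℝ} (h : HasDerivAt g g' 0) (hp : 0 < g') :
    ∀ᶠ t in 𝓝[>] (0 : ℝ), g 0 < g t := by
  have h1 := hasDerivAt_iff_tendsto_slope.1 h
  have h2 : ∀ᶠ t in 𝓝[≠] (0 : ℝ), 0 < slope g 0 t := h1.eventually (lt_mem_nhds hp)
  have h3 : 𝓝[>] (0 : ℝ) ≤ 𝓝[≠] (0 : ℝ) := nhdsWithin_mono _ fun t ht => ne_of_gt ht
  filter_upwards [h3 h2, self_mem_nhdsWithin] with t ht ht0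
  have ht0' : 0 < t := ht0
  rw [slope_def_field, sub_zero] at ht
  have := (div_pos_iff_of_pos_right ht0').1 ht
  linarith

theorem ne_of_inter {n : ℕ} {X : Fin (n + 2) → ℝ} {B : Fin (n + 1) → ℝ} (h : Inter n X B)
    (j : Fin (n + 2)) (l : Fin (n + 1)) : X j - B l ≠ 0 := by
  have hanti : StrictAnti X := by
    refine Fin.strictAnti_iff_succ_lt.2 fun i => ?_
    exact (h.r i).trans (h.l i)
  rcases le_or_gt j l.castSucc with h1 | h1
  · have h2 := hanti.antitone h1
    have h3 := h.l l
    have : 0 < X j - B l := by linarith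
    exact this.ne'
  · have h4 : l.succ ≤ j := Fin.castSucc_lt_iff_succ_le.1 h1
    have h2 := hanti.antitone h4
    have h3 := h.r l
    have : X j - B l < 0 := by linarith
    exact this.ne

/-- the improved point -/
theorem improve {n : ℕ} (a : Fin (n + 1) → ℝ) (ρ : Fin (n + 2) → ℝ)
    (X : Fin (n + 2) → ℝ) (B : Fin (n + 1) → ℝ) (c : ℝ) (hI : Inter n X B)
    (hc : ∀ j, c ≤ ρ j + HH a B (X j)) (x : Fin (n + 2) → ℝ) (b : Fin (n + 1) → ℝ)
    (h0 : x 0 = 0) (h1 : x (Fin.last (n + 1)) = 0)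
    (hp : ∀ j, ¬ c < ρ j + HH a B (X j) → 0 < ∑ l, a l * ((x j - b l) / (X j - B l))) :
    ∃ X' B', Inter n X' B' ∧ ∀ j, c < ρ j + HH a B' (X' j) := by
  have hA : ∀ j, ∀ᶠ t in 𝓝[>] (0 : ℝ),
      c < ρ j + HH a (fun l => B l + t * b l) (X j + t * x j) := by
    intro j
    have hd := deriv_HH a B b (X j) (x j) (ne_of_inter hI j)
    have hz : HH a (fun l => B l + 0 * b l) (X j + 0 * x j) = HH a B (X j) := by simp
    by_cases h : c < ρ j + HH a B (X j)
    · have hcont := (hd.continuousAt.const_add (ρ j))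
      have h2 : ∀ᶠ t in 𝓝 (0 : ℝ), c < ρ j + HH a (fun l => B l + t * b l) (X j + t * x j) := by
        refine hcont.eventually (lt_mem_nhds ?_)
        change c < ρ j + HH a (fun l => B l + 0 * b l) (X j + 0 * x j)
        rw [hz]
        exact h
      exact nhdsWithin_le_nhds h2
    · filter_upwards [lt_of_deriv hd (hp j h)] with t ht
      have h3 : HH a B (X j) < HH a (fun l => B l + t * b l) (X j + t * x j) := by
        rw [← hz]
        exact ht
      linarith [hc j]
  have hL : ∀ j : Fin (n + 1), ∀ᶠ t in 𝓝[>] (0 : ℝ),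
      B j + t * b j < X j.castSucc + t * x j.castSucc := by
    intro j
    have h2 : ContinuousAt (fun t : ℝ => X j.castSucc + t * x j.castSucc - (B j + t * b j)) 0 := by
      fun_prop
    have h3 : ∀ᶠ t in 𝓝 (0 : ℝ), 0 < X j.castSucc + t * x j.castSucc - (B j + t * b j) := by
      refine h2.eventually (lt_mem_nhds ?_)
      have := hI.l j
      change 0 < X j.castSucc + 0 * x j.castSucc - (B j + 0 * b j)
      linarith
    filter_upwards [nhdsWithin_le_nhds h3] with t ht
    linarith
  have hR : ∀ j : Fin (n + 1), ∀ᶠ t in 𝓝[>] (0 : ℝ),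
      X j.succ + t * x j.succ < B j + t * b j := by
    intro j
    have h2 : ContinuousAt (fun t : ℝ => B j + t * b j - (X j.succ + t * x j.succ)) 0 := by
      fun_prop
    have h3 : ∀ᶠ t in 𝓝 (0 : ℝ), 0 < B j + t * b j - (X j.succ + t * x j.succ) := by
      refine h2.eventually (lt_mem_nhds ?_)
      have := hI.r j
      change 0 < B j + 0 * b j - (X j.succ + 0 * x j.succ)
      linarith
    filter_upwards [nhdsWithin_le_nhds h3] with t ht
    linarith
  have hall := (eventually_all.2 hA).and ((eventually_all.2 hL).and (eventually_all.2 hR))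
  obtain ⟨t, ht1, ht2, ht3⟩ := hall.exists
  refine ⟨fun j => X j + t * x j, fun l => B l + t * b l, ⟨?_, ?_, ht2, ht3⟩, ht1⟩
  · simp [h0, hI.top]
  · simp [h1, hI.bot]

theorem dual_apply {n : ℕ} (f : StrongDual ℝ ((Fin (n + 2) → ℝ) × (Fin (n + 1) → ℝ)))
    (p : (Fin (n + 2) → ℝ) × (Fin (n + 1) → ℝ)) :
    f p = ∑ i, p.1 i * f (Pi.single i 1, 0) + ∑ l, p.2 l * f (0, Pi.single l 1) := by
  have h1 : p = ∑ i, p.1 i • ((Pi.single i 1, 0) : (Fin (n + 2) → ℝ) × (Fin (n + 1) → ℝ)) +
      ∑ l, p.2 l • ((0, Pi.single l 1) : (Fin (n + 2) → ℝ) × (Fin (n + 1) → ℝ)) := by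
    refine Prod.ext ?_ ?_
    · funext k
      simp [Prod.fst_sum, Finset.sum_apply, Pi.single_apply]
    · funext k
      simp [Prod.snd_sum, Finset.sum_apply, Pi.single_apply]
  conv_lhs => rw [h1]
  rw [map_add, map_sum, map_sum]
  simp only [map_smul, smul_eq_mul]

end EQBM

open EQBM in
theorem specEQB : SpecEQB := by
  intro n a ρ ha X B c hI hc hmax
  set S : Set (Fin (n + 2) → ℝ) := stdSimplex ℝ (Fin (n + 2)) ∩
    {lam | ∀ j, c < ρ j + HH a B (X j) → lam j = 0} with hS
  have hcl : IsClosed {lam : Fin (n + 2) → ℝ | ∀ j, c < ρ j + HH a B (X j) → lam j = 0} := by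
    simp only [Set.ofPred_forall]
    exact isClosed_iInter fun j => isClosed_iInter fun _ =>
      isClosed_eq (continuous_apply j) continuous_const
  have hcomp : IsCompact S := (isCompact_stdSimplex _ _).inter_right hcl
  have hconv : Convex ℝ S := by
    refine (convex_stdSimplex ℝ _).inter ?_
    intro x hx y hy s t _ _ _ j hj
    simp [hx j hj, hy j hj]
  set K := TT a X B '' S with hK
  have hKc : Convex ℝ K := hconv.linear_image _
  have hKk : IsClosed K := (hcomp.image (TT a X B).continuous_of_finiteDimensional).isClosed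
  by_cases h0 : (0 : (Fin (n + 2) → ℝ) × (Fin (n + 1) → ℝ)) ∈ K
  · obtain ⟨lam, ⟨hl1, hl2⟩, hl3⟩ := h0
    refine ⟨lam, hl1.1, hl1.2, hl2, fun x b hx0 hx1 => ?_⟩
    rw [TT_apply] at hl3
    have h1 : ∀ i, ∑ j, lam j * (DD a X B j).1 i = 0 := by
      intro i
      have := congrFun (congrArg Prod.fst hl3) i
      simpa [Prod.fst_sum, Finset.sum_apply] using this
    have h2 : ∀ l, ∑ j, lam j * (DD a X B j).2 l = 0 := by
      intro l
      have := congrFun (congrArg Prod.snd hl3) l
      simpa [Prod.snd_sum, Finset.sum_apply] using this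
    have h3 : ∑ j, lam j * ∑ l, a l * ((x j - b l) / (X j - B l)) =
        ∑ i, (∑ j, lam j * (DD a X B j).1 i) * x i +
          ∑ l, (∑ j, lam j * (DD a X B j).2 l) * b l := by
      simp only [Finset.sum_mul]
      rw [Finset.sum_comm, Finset.sum_comm (s := (Finset.univ : Finset (Fin (n + 1)))),
        ← Finset.sum_add_distrib]
      refine Finset.sum_congr rfl fun j _ => ?_
      rw [← pair a X B j x b hx0 hx1, mul_add, Finset.mul_sum, Finset.mul_sum]
      simp only [mul_assoc]
    rw [h3]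
    simp [h1, h2]
  · exfalso
    obtain ⟨f, u, hu, hf⟩ := geometric_hahn_banach_point_closed hKc hKk h0
    rw [map_zero] at hu
    have hfD : ∀ j, ¬ c < ρ j + HH a B (X j) → 0 < f (DD a X B j) := by
      intro j hj
      refine hu.trans (hf _ ⟨Pi.single j 1, ⟨single_mem_stdSimplex ℝ j, ?_⟩, ?_⟩)
      · intro i hi
        have : i ≠ j := by
          rintro rfl
          exact hj hi
        simp [this]
      · rw [TT_apply, Finset.sum_eq_single j]
        · simp
        · intro i _ hi
          simp [hi]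
        · intro h
          exact absurd (Finset.mem_univ j) h
    set x : Fin (n + 2) → ℝ := fun i => if i = 0 ∨ i = Fin.last (n + 1) then 0 else
      f (Pi.single i 1, 0) with hx
    set b : Fin (n + 1) → ℝ := fun l => f (0, Pi.single l 1) with hb
    have hx0 : x 0 = 0 := by simp [hx]
    have hx1 : x (Fin.last (n + 1)) = 0 := by simp [hx]
    have hval : ∀ j, f (DD a X B j) = ∑ l, a l * ((x j - b l) / (X j - B l)) := by
      intro j
      rw [← pair a X B j x b hx0 hx1, dual_apply f]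
      congr 1
      refine Finset.sum_congr rfl fun i _ => ?_
      by_cases hi : i = 0 ∨ i = Fin.last (n + 1)
      · have : (DD a X B j).1 i = 0 := by
          simp only [DD]
          rw [if_neg]
          rintro ⟨h2, h3, h4⟩
          rw [← h2] at h3 h4
          exact hi.elim h3 h4
        rw [this, zero_mul, zero_mul]
      · simp only [hx]
        rw [if_neg hi]
    obtain ⟨X', B', hI', hc'⟩ := improve a ρ X B c hI hc x b hx0 hx1 fun j hj => by
      rw [← hval j]
      exact hfD j hj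
    exact hmax X' B' hI' hc'

end

end Pool.Agent.Lib.MP250511.ST
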