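import Pool.Agent.Lib.MP_250511_an.ST.Spec

/-!
Problem MP_250511_an, row 317, module EQL: equal tips.
-/

set_option autoImplicit false

namespace Pool.Agent.Lib.MP250511.ST

open Complex Metric Set MeasureTheory Filter Topology
open scoped Real ENNReal

namespace EQLM

lemma X_anti {n : ℕ} {X : Fin (n + 2) → ℝ} {B : Fin (n + 1) → ℝ} (h : Inter n X B) :
    StrictAnti X := by
  rw [Fin.strictAnti_iff_succ_lt]
  intro i
  exact (h.r i).trans (h.l i)

lemma B_anti {n : ℕ} {X : Fin (n + 2) → ℝ} {B : Fin (n + 1) → ℝ} (h : Inter n X B) :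
    StrictAnti B := by
  rw [Fin.strictAnti_iff_succ_lt]
  intro i
  have h1 := h.l i.succ
  have h2 := h.r i.castSucc
  rw [Fin.succ_castSucc] at h2
  exact h1.trans h2

lemma X_ne_B {n : ℕ} {X : Fin (n + 2) → ℝ} {B : Fin (n + 1) → ℝ} (h : Inter n X B)
    (j : Fin (n + 2)) (l : Fin (n + 1)) : X j - B l ≠ 0 := by
  rw [sub_ne_zero]
  rcases le_total j l.castSucc with h1 | h1
  · have h2 := (X_anti h).antitone h1
    exact ((h.l l).trans_le h2).ne'
  · rcases h1.lt_or_eq with h3 | h3
    · have h4 : l.succ ≤ j := by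
        rw [Fin.le_def]
        rw [Fin.lt_def] at h3
        simpa using h3
      have h2 := (X_anti h).antitone h4
      exact (h2.trans_lt (h.r l)).ne
    · rw [← h3]
      exact (h.l l).ne'

open Polynomial in
lemma lam_ne {n : ℕ} {X : Fin (n + 2) → ℝ} {B : Fin (n + 1) → ℝ} (h : Inter n X B)
    (lam : Fin (n + 2) → ℝ) (hs : ∑ j, lam j = 1)
    (hz : ∀ l, ∑ j, lam j / (X j - B l) = 0) : ∀ j, lam j ≠ 0 := by
  classical
  by_contra hcon
  push Not at hcon
  obtain ⟨j₀, hj₀⟩ := hcon
  obtain ⟨J, hJ⟩ : ∃ J : Finset (Fin (n + 2)), J = Finset.univ.filter (fun j => lam j ≠ 0) :=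
    ⟨_, rfl⟩
  have hmem : ∀ j, j ∈ J ↔ lam j ≠ 0 := by intro j; simp [hJ]
  have hJne : J.Nonempty := by
    by_contra he
    rw [Finset.not_nonempty_iff_eq_empty] at he
    have : ∀ j, lam j = 0 := by
      intro j
      by_contra hj
      have := (hmem j).2 hj
      rw [he] at this
      simp at this
    simp [this] at hs
  have hJcard : J.card ≤ n + 1 := by
    have h1 : J ⊆ Finset.univ.erase j₀ := by
      intro j hj
      rw [Finset.mem_erase]
      refine ⟨?_, Finset.mem_univ _⟩
      rintro rfl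
      exact (hmem j).1 hj hj₀
    have h2 := Finset.card_le_card h1
    rw [Finset.card_erase_of_mem (Finset.mem_univ _), Finset.card_univ, Fintype.card_fin] at h2
    simpa using h2
  obtain ⟨P, hP⟩ : ∃ P : ℝ[X], P = ∑ j ∈ J, C (lam j) * ∏ i ∈ J.erase j, (C (X i) - Polynomial.X) :=
    ⟨_, rfl⟩
  have hev : ∀ t, P.eval t = ∑ j ∈ J, lam j * ∏ i ∈ J.erase j, (X i - t) := by
    intro t
    rw [hP, eval_finsetSum]
    refine Finset.sum_congr rfl fun j _ => ?_
    rw [eval_mul, eval_C, eval_prod]
    simp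
  have hdeg : P.natDegree < Fintype.card (Fin (n + 1)) := by
    rw [Fintype.card_fin]
    have h1 : P.natDegree ≤ J.card - 1 := by
      rw [hP]
      refine natDegree_sum_le_of_forall_le _ _ fun j hj => ?_
      refine (natDegree_C_mul_le _ _).trans ?_
      refine (natDegree_prod_le _ _).trans ?_
      refine (Finset.sum_le_card_nsmul _ _ 1 fun i _ => ?_).trans ?_
      · refine (natDegree_sub_le _ _).trans ?_
        simp
      · rw [Finset.card_erase_of_mem hj]
        simp
    have h2 := hJne.card_pos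
    omega
  have hzero : P = 0 := by
    refine eq_zero_of_natDegree_lt_card_of_eval_eq_zero P (B_anti h).injective (fun l => ?_) hdeg
    rw [hev]
    have h1 : ∑ j ∈ J, lam j / (X j - B l) = 0 := by
      rw [← hz l]
      refine Finset.sum_subset (Finset.subset_univ _) fun j _ hj => ?_
      have : lam j = 0 := by
        by_contra hne
        exact hj ((hmem j).2 hne)
      rw [this, zero_div]
    have h2 : ∑ j ∈ J, lam j * ∏ i ∈ J.erase j, (X i - B l) =
        (∏ i ∈ J, (X i - B l)) * ∑ j ∈ J, lam j / (X j - B l) := by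
      rw [Finset.mul_sum]
      refine Finset.sum_congr rfl fun j hj => ?_
      rw [← Finset.mul_prod_erase J _ hj]
      have := X_ne_B h j l
      field_simp
    rw [h2, h1, mul_zero]
  obtain ⟨k, hk⟩ := hJne
  have h3 := hev (X k)
  rw [hzero, eval_zero, Finset.sum_eq_single_of_mem k hk] at h3
  · have h4 : ∏ i ∈ J.erase k, (X i - X k) ≠ 0 := by
      rw [Finset.prod_ne_zero_iff]
      intro i hi
      rw [sub_ne_zero]
      intro h5
      exact (Finset.mem_erase.1 hi).1 ((X_anti h).injective h5)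
    exact mul_ne_zero ((hmem k).1 hk) h4 h3.symm
  · intro j _ hjk
    have : ∏ i ∈ J.erase j, (X i - X k) = 0 :=
      Finset.prod_eq_zero (Finset.mem_erase.2 ⟨hjk.symm, hk⟩) (sub_self _)
    rw [this, mul_zero]

end EQLM

open EQLM in
theorem specEQL (hEQA : SpecEQA) (hEQB : SpecEQB) : SpecEQL := by
  intro n a ρ ha
  obtain ⟨X, B, c, hI, hc, hmax⟩ := hEQA n a ρ ha
  obtain ⟨lam, hl0, hl1, hl2, hl3⟩ := hEQB n a ρ ha X B c hI hc hmax
  have hz : ∀ l, ∑ j, lam j / (X j - B l) = 0 := by
    intro l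
    have h1 := hl3 0 (Pi.single l 1) rfl rfl
    have h2 : ∀ j, lam j * ∑ l', a l' * (((0 : Fin (n + 2) → ℝ) j - (Pi.single l 1 : Fin (n + 1) → ℝ) l') / (X j - B l')) =
        (- a l) * (lam j / (X j - B l)) := by
      intro j
      rw [Finset.sum_eq_single l]
      · simp only [Pi.zero_apply, Pi.single_eq_same]
        ring
      · intro b _ hb
        simp [Pi.single_eq_of_ne hb]
      · intro hh
        exact absurd (Finset.mem_univ _) hh
    simp_rw [h2] at h1
    rw [← Finset.mul_sum] at h1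
    rcases mul_eq_zero.1 h1 with h3 | h3
    · exact absurd h3 (neg_ne_zero.2 (ha l).ne')
    · exact h3
  have hne := lam_ne hI lam hl1 hz
  refine ⟨X, B, c, hI, fun j => ?_, fun j hj0 hjl => ?_⟩
  · by_contra hcon
    exact hne j (hl2 j (lt_of_le_of_ne (hc j) (Ne.symm hcon)))
  · have h1 := hl3 (Pi.single j 1) 0 (Pi.single_eq_of_ne hj0.symm _)
      (Pi.single_eq_of_ne hjl.symm _)
    rw [Finset.sum_eq_single j] at h1
    · have h2 := (mul_eq_zero.1 h1).resolve_left (hne j)
      simp only [Pi.single_eq_same, Pi.zero_apply, sub_zero] at h2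
      rw [← h2]
      refine Finset.sum_congr rfl fun l _ => ?_
      ring
    · intro i _ hi
      simp [Pi.single_eq_of_ne hi]
    · intro hh
      exact absurd (Finset.mem_univ _) hh

end Pool.Agent.Lib.MP250511.ST
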