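import Pool.Agent.Lib.MP_250511_an.ST.Spec

/-!
# EXT: at a point outside the image the inverse function tends to the circle
-/

set_option autoImplicit false

namespace Pool.Agent.Lib.MP250511.ST

open Complex Metric Set MeasureTheory Filter Topology
open scoped Real ENNReal

theorem specEXT : SpecEXT := by
  intro f R hf l w z w₁ hw hw₁ hz
  rw [tendsto_order]
  constructor
  · intro a ha
    have hs1 : max a (1 / 2) < 1 := max_lt ha (by norm_num)
    have hsub : closedBall (0 : ℂ) (max a (1 / 2)) ⊆ ball 0 1 := closedBall_subset_ball hs1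
    have hc : IsCompact (f '' closedBall (0 : ℂ) (max a (1 / 2))) :=
      (isCompact_closedBall _ _).image_of_continuousOn (hf.an.continuousOn.mono hsub)
    have hn : w₁ ∉ f '' closedBall (0 : ℂ) (max a (1 / 2)) := fun h => hw₁ (image_mono hsub h)
    have hev : ∀ᶠ x in l, w x ∈ (f '' closedBall (0 : ℂ) (max a (1 / 2)))ᶜ :=
      hw (hc.isClosed.isOpen_compl.mem_nhds hn)
    filter_upwards [hev, hz] with x hx1 hx2
    by_contra hcon
    push Not at hcon
    apply hx1
    refine ⟨z x, ?_, hx2.2⟩
    rw [mem_closedBall_zero_iff]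
    exact hcon.trans (le_max_left _ _)
  · intro b hb
    filter_upwards [hz] with x hx
    exact lt_trans (mem_ball_zero_iff.1 hx.1) hb

end Pool.Agent.Lib.MP250511.ST
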