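import Pool.Agent.Lib.MP_250511_an.ST.Spec4

/-!
# HPM: the number `1 + dot c ν` (MP_250511_an, Q2, part 4)
-/

set_option autoImplicit false

namespace Pool.Agent.Lib.MP250511.ST.Chk

open Complex Metric Set MeasureTheory Filter Topology
open scoped Real ENNReal

namespace HPMM

theorem ee_re' (u : ℝ) : (ee u).re = Real.cos (π * u) := by
  unfold ee
  rw [Complex.exp_ofReal_mul_I_re]

theorem ee_im' (u : ℝ) : (ee u).im = Real.sin (π * u) := by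
  unfold ee
  rw [Complex.exp_ofReal_mul_I_im]

end HPMM

theorem specHPM (hTRG : SpecTRG) : SpecHPM := by
  intro x yu yv k hk
  obtain ⟨h1, h2⟩ := hTRG k hk
  have e1 : ((hp x yu yv k : ℕ) : ℝ) = 549755813888 + ((x : ℝ) * (cp (dst k 2048) : ℝ) +
      ((yu : ℝ) * (cp (dst k 3072) : ℝ) + (yv : ℝ) * (cn (dst k 3072) : ℝ))) := by
    have : hp x yu yv k = 549755813888 + (x * cp (dst k 2048) +
      (yu * cp (dst k 3072) + yv * cn (dst k 3072))) := rfl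
    rw [this]; push_cast; ring
  have e2 : ((hm x yu yv k : ℕ) : ℝ) = (x : ℝ) * (cn (dst k 2048) : ℝ) +
      ((yu : ℝ) * (cn (dst k 3072) : ℝ) + (yv : ℝ) * (cp (dst k 3072) : ℝ)) := by
    have : hm x yu yv k = x * cn (dst k 2048) + (yu * cn (dst k 3072) + yv * cp (dst k 3072)) := rfl
    rw [this]; push_cast; ring
  have e3 : ((he x yu yv : ℕ) : ℝ) = 2 * ((x : ℝ) + ((yu : ℝ) + (yv : ℝ))) := by
    have : he x yu yv = 2 * (x + (yu + yv)) := rfl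
    rw [this]; push_cast; ring
  have e4 : dot ⟨(x : ℝ) / 512, ((yu : ℝ) - yv) / 512⟩ (ee (((k : ℝ) - 2048) / 2048)) =
      (x : ℝ) / 512 * Real.cos (π * (((k : ℝ) - 2048) / 2048)) +
        ((yu : ℝ) - yv) / 512 * Real.sin (π * (((k : ℝ) - 2048) / 2048)) := by
    unfold dot
    rw [HPMM.ee_re', HPMM.ee_im']
  rw [e1, e2, e3, e4]
  set C := Real.cos (π * (((k : ℝ) - 2048) / 2048))
  set S := Real.sin (π * (((k : ℝ) - 2048) / 2048))
  set c1 := (cp (dst k 2048) : ℝ)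
  set c2 := (cn (dst k 2048) : ℝ)
  set s1 := (cp (dst k 3072) : ℝ)
  set s2 := (cn (dst k 3072) : ℝ)
  have hx : (0 : ℝ) ≤ x := Nat.cast_nonneg _
  have hu : (0 : ℝ) ≤ yu := Nat.cast_nonneg _
  have hv : (0 : ℝ) ≤ yv := Nat.cast_nonneg _
  have e5 : (549755813888 + ((x : ℝ) * c1 + ((yu : ℝ) * s1 + (yv : ℝ) * s2)) -
      ((x : ℝ) * c2 + ((yu : ℝ) * s2 + (yv : ℝ) * s1))) -
      2 ^ 39 * (1 + ((x : ℝ) / 512 * C + ((yu : ℝ) - yv) / 512 * S)) =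
      x * ((c1 - c2) - 2 ^ 30 * C) + yu * ((s1 - s2) - 2 ^ 30 * S) +
        yv * (-((s1 - s2) - 2 ^ 30 * S)) := by ring
  rw [e5]
  have t1 : |(x : ℝ) * ((c1 - c2) - 2 ^ 30 * C)| ≤ (x : ℝ) * 2 := by
    rw [abs_mul, abs_of_nonneg hx]
    exact mul_le_mul_of_nonneg_left h1 hx
  have t2 : |(yu : ℝ) * ((s1 - s2) - 2 ^ 30 * S)| ≤ (yu : ℝ) * 2 := by
    rw [abs_mul, abs_of_nonneg hu]
    exact mul_le_mul_of_nonneg_left h2 hu
  have t3 : |(yv : ℝ) * (-((s1 - s2) - 2 ^ 30 * S))| ≤ (yv : ℝ) * 2 := by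
    rw [abs_mul, abs_of_nonneg hv, abs_neg]
    exact mul_le_mul_of_nonneg_left h2 hv
  have t4 := abs_add_le ((x : ℝ) * ((c1 - c2) - 2 ^ 30 * C) + yu * ((s1 - s2) - 2 ^ 30 * S))
    (yv * (-((s1 - s2) - 2 ^ 30 * S)))
  have t5 := abs_add_le ((x : ℝ) * ((c1 - c2) - 2 ^ 30 * C)) (yu * ((s1 - s2) - 2 ^ 30 * S))
  refine t4.trans ?_
  refine (add_le_add (t5.trans (add_le_add t1 t2)) t3).trans (le_of_eq ?_)
  ring

end Pool.Agent.Lib.MP250511.ST.Chk
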