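import Pool.Agent.Lib.MP_250511_an.ST.Spec2

/-!
Module LCH: a checkable form of the lens condition.
-/

set_option autoImplicit false

namespace Pool.Agent.Lib.MP250511.ST

open Complex Metric Set MeasureTheory Filter Topology
open scoped Real ENNReal

noncomputable section

namespace LCHM

/-- trigonometric sums -/
def tg (X A B C D α : ℝ) : ℝ :=
  X + A * Real.cos (π * α) + B * Real.sin (π * α) + C * Real.cos (π * (α / 2)) +
    D * Real.sin (π * (α / 2))

theorem der_cos (k α : ℝ) : HasDerivAt (fun t : ℝ => Real.cos (π * (t * k)))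
    (-(π * k * Real.sin (π * (α * k)))) α := by
  have h1 : HasDerivAt (fun t : ℝ => π * (t * k)) (π * (1 * k)) α :=
    ((hasDerivAt_id α).mul_const k).const_mul π
  have h2 := h1.cos
  convert h2 using 1
  ring

theorem der_sin (k α : ℝ) : HasDerivAt (fun t : ℝ => Real.sin (π * (t * k)))
    (π * k * Real.cos (π * (α * k))) α := by
  have h1 : HasDerivAt (fun t : ℝ => π * (t * k)) (π * (1 * k)) α :=
    ((hasDerivAt_id α).mul_const k).const_mul π
  have h2 := h1.sin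
  convert h2 using 1
  ring

theorem tg_max {X A B C D K a b : ℝ}
    (hK : ∀ α, π ^ 2 * (A * Real.cos (π * α) + B * Real.sin (π * α)) +
      π ^ 2 / 4 * (C * Real.cos (π * (α / 2)) + D * Real.sin (π * (α / 2))) ≤ K)
    {α : ℝ} (h1 : a ≤ α) (h2 : α ≤ b) :
    tg X A B C D α ≤ max (tg X A B C D a) (tg X A B C D b) + K * (b - a) ^ 2 / 8 := by
  set h : ℝ → ℝ := fun t => X + A * Real.cos (π * (t * 1)) + B * Real.sin (π * (t * 1)) +
    C * Real.cos (π * (t * (1 / 2))) + D * Real.sin (π * (t * (1 / 2))) -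
      K / 2 * ((t - a) * (b - t)) with hh
  set h' : ℝ → ℝ := fun t => A * (-(π * 1 * Real.sin (π * (t * 1)))) +
    B * (π * 1 * Real.cos (π * (t * 1))) +
    C * (-(π * (1 / 2) * Real.sin (π * (t * (1 / 2))))) +
    D * (π * (1 / 2) * Real.cos (π * (t * (1 / 2)))) -
      K / 2 * (1 * (b - t) + (t - a) * (-1)) with hh'
  set h'' : ℝ → ℝ := fun t => A * (-(π * 1 * (π * 1 * Real.cos (π * (t * 1))))) +
    B * (π * 1 * (-(π * 1 * Real.sin (π * (t * 1))))) +
    C * (-(π * (1 / 2) * (π * (1 / 2) * Real.cos (π * (t * (1 / 2)))))) +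
    D * (π * (1 / 2) * (-(π * (1 / 2) * Real.sin (π * (t * (1 / 2)))))) -
      K / 2 * (1 * (-1) + 1 * (-1)) with hh''
  have d1 : ∀ t, HasDerivAt h (h' t) t := by
    intro t
    have e1 := (((((der_cos 1 t).const_mul A).const_add X).add
      ((der_sin 1 t).const_mul B)).add ((der_cos (1 / 2) t).const_mul C)).add
      ((der_sin (1 / 2) t).const_mul D)
    have e2 := (((hasDerivAt_id t).sub_const a).mul ((hasDerivAt_id t).const_sub b)).const_mul
      (K / 2)
    exact e1.sub e2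
  have d2 : ∀ t, HasDerivAt h' (h'' t) t := by
    intro t
    have e1 := (((((der_sin 1 t).const_mul (π * 1)).neg.const_mul A).add
      (((der_cos 1 t).const_mul (π * 1)).const_mul B)).add
      (((der_sin (1 / 2) t).const_mul (π * (1 / 2))).neg.const_mul C)).add
      (((der_cos (1 / 2) t).const_mul (π * (1 / 2))).const_mul D)
    have e2 := ((((hasDerivAt_id t).const_sub b).const_mul (1 : ℝ)).add
      (((hasDerivAt_id t).sub_const a).mul_const (-1 : ℝ))).const_mul (K / 2)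
    exact e1.sub e2
  have hconv : ConvexOn ℝ (Icc a b) h := by
    apply convexOn_of_hasDerivWithinAt2_nonneg (f' := h') (f'' := h'') (convex_Icc a b)
    · exact fun t _ => (d1 t).continuousAt.continuousWithinAt
    · exact fun t _ => (d1 t).hasDerivWithinAt
    · exact fun t _ => (d2 t).hasDerivWithinAt
    · intro t _
      have h3 := hK t
      rw [hh'']
      have e1 : t * 1 = t := mul_one t
      have e2 : t * (1 / 2) = t / 2 := by ring
      simp only [e1, e2]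
      nlinarith [h3]
  have h3 : h α ≤ max (h a) (h b) :=
    hconv.le_max_of_mem_Icc (left_mem_Icc.2 (h1.trans h2)) (right_mem_Icc.2 (h1.trans h2)) ⟨h1, h2⟩
  have e1 : ∀ t : ℝ, t * 1 = t := mul_one
  have e2 : ∀ t : ℝ, t * (1 / 2) = t / 2 := fun t => by ring
  have h4 : ∀ t, h t = tg X A B C D t - K / 2 * ((t - a) * (b - t)) := by
    intro t
    rw [hh]
    simp only [e1, e2]
    rfl
  rw [h4, h4, h4] at h3
  simp only [sub_self, zero_mul, mul_zero, sub_zero] at h3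
  by_cases hK0 : 0 ≤ K
  · have h5 : (α - a) * (b - α) ≤ (b - a) ^ 2 / 4 := by nlinarith [sq_nonneg (2 * α - a - b)]
    have h6 : K / 2 * ((α - a) * (b - α)) ≤ K / 2 * ((b - a) ^ 2 / 4) :=
      mul_le_mul_of_nonneg_left h5 (by linarith)
    linarith
  · exfalso
    -- the mean value of the trigonometric sum is zero, so `K ≥ 0`
    have k1 := hK 0
    have k2 := hK 1
    have k3 := hK 2
    have k4 := hK 3
    have q1 : Real.cos (π * 0) = 1 := by simp
    have q2 : Real.sin (π * 0) = 0 := by simp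
    have q3 : Real.cos (π * 1) = -1 := by simp
    have q4 : Real.sin (π * 1) = 0 := by simp
    have q5 : Real.cos (π * 2) = 1 := by rw [mul_comm]; exact Real.cos_two_pi
    have q6 : Real.sin (π * 2) = 0 := by rw [mul_comm]; exact Real.sin_two_pi
    have q7 : π * 3 = π + 2 * π := by ring
    have q8 : Real.cos (π * 3) = -1 := by rw [q7, Real.cos_add_two_pi, Real.cos_pi]
    have q9 : Real.sin (π * 3) = 0 := by rw [q7, Real.sin_add_two_pi, Real.sin_pi]
    have p1 : Real.cos (π * (0 / 2)) = 1 := by simp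
    have p2 : Real.sin (π * (0 / 2)) = 0 := by simp
    have p3 : Real.cos (π * (1 / 2)) = 0 := by
      have : π * (1 / 2) = π / 2 := by ring
      rw [this, Real.cos_pi_div_two]
    have p4 : Real.sin (π * (1 / 2)) = 1 := by
      have : π * (1 / 2) = π / 2 := by ring
      rw [this, Real.sin_pi_div_two]
    have p5 : Real.cos (π * (2 / 2)) = -1 := by
      have : π * (2 / 2) = π := by ring
      rw [this, Real.cos_pi]
    have p6 : Real.sin (π * (2 / 2)) = 0 := by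
      have : π * (2 / 2) = π := by ring
      rw [this, Real.sin_pi]
    have p7 : π * (3 / 2) = π / 2 + π := by ring
    have p8 : Real.cos (π * (3 / 2)) = 0 := by rw [p7, Real.cos_add_pi, Real.cos_pi_div_two, neg_zero]
    have p9 : Real.sin (π * (3 / 2)) = -1 := by rw [p7, Real.sin_add_pi, Real.sin_pi_div_two]
    rw [q1, q2, p1, p2] at k1
    rw [q3, q4, p3, p4] at k2
    rw [q5, q6, p5, p6] at k3
    rw [q8, q9, p8, p9] at k4
    nlinarith

theorem aff {m n a b r : ℝ} (h1 : a ≤ r) (h2 : r ≤ b) (ha : m * a + n < 0) (hb : m * b + n < 0) :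
    m * r + n < 0 := by
  rcases le_total 0 m with h | h
  · nlinarith [mul_le_mul_of_nonneg_left h2 h]
  · nlinarith [mul_le_mul_of_nonpos_left h1 h]

theorem ee_re (u : ℝ) : (ee u).re = Real.cos (π * u) := by
  unfold ee
  rw [Complex.exp_ofReal_mul_I_re]

theorem ee_im (u : ℝ) : (ee u).im = Real.sin (π * u) := by
  unfold ee
  rw [Complex.exp_ofReal_mul_I_im]

theorem cos_neg_half (α : ℝ) : Real.cos (π * (-(α / 2))) = Real.cos (π * (α / 2)) := by
  rw [mul_neg, Real.cos_neg]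

theorem sin_neg_half (α : ℝ) : Real.sin (π * (-(α / 2))) = -Real.sin (π * (α / 2)) := by
  rw [mul_neg, Real.sin_neg]

theorem cos_dbl (α : ℝ) : Real.cos (π * α) =
    Real.cos (π * (α / 2)) ^ 2 - Real.sin (π * (α / 2)) ^ 2 := by
  have h : π * α = 2 * (π * (α / 2)) := by ring
  rw [h, Real.cos_two_mul']

theorem sin_dbl (α : ℝ) : Real.sin (π * α) =
    2 * Real.sin (π * (α / 2)) * Real.cos (π * (α / 2)) := by
  have h : π * α = 2 * (π * (α / 2)) := by ring
  rw [h, Real.sin_two_mul]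

/-- the value of the form -/
theorem form (r₁ r₂ α τ : ℝ) (p : ℂ) :
    dot (r₁ * ee (-(α / 2)) - p) (r₂ * ee (α / 2) - p) +
      τ * crs (r₁ * ee (-(α / 2)) - p) (r₂ * ee (α / 2) - p) =
    r₁ * r₂ * (Real.cos (π * α) + τ * Real.sin (π * α)) -
      r₁ * (dot (ee (-(α / 2))) p + τ * crs (ee (-(α / 2))) p) -
      r₂ * (dot (ee (α / 2)) p + τ * crs p (ee (α / 2))) + ‖p‖ ^ 2 := by
  rw [← Complex.normSq_eq_norm_sq, Complex.normSq_apply, cos_dbl α, sin_dbl α]
  unfold dot crs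
  simp only [sub_re, sub_im, mul_re, mul_im, ofReal_re, ofReal_im, ee_re, ee_im, cos_neg_half,
    sin_neg_half]
  ring

theorem nrm (r₁ r₂ α : ℝ) : ‖(r₁ : ℂ) * ee (-(α / 2)) - r₂ * ee (α / 2)‖ ^ 2 =
    r₁ ^ 2 + r₂ ^ 2 - 2 * r₁ * r₂ * Real.cos (π * α) := by
  rw [← Complex.normSq_eq_norm_sq, Complex.normSq_apply, cos_dbl α]
  simp only [sub_re, sub_im, mul_re, mul_im, ofReal_re, ofReal_im, ee_re, ee_im, cos_neg_half,
    sin_neg_half]
  have h := Real.sin_sq_add_cos_sq (π * (α / 2))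
  linear_combination (r₁ ^ 2 + r₂ ^ 2) * h

/-- Cauchy-Schwarz for a rotated vector. -/
theorem cs {c s x y R : ℝ} (h1 : c ^ 2 + s ^ 2 = 1) (hR : 0 ≤ R) (h2 : x ^ 2 + y ^ 2 ≤ R ^ 2) :
    c * x + s * y ≤ R := by
  have h3 : (c * x + s * y) ^ 2 ≤ R ^ 2 := by nlinarith [sq_nonneg (c * y - s * x)]
  exact le_of_sq_le_sq h3 hR

/-- The bound of the second derivative. -/
theorem bound {r₁ r₂ b₁ b₂ τ κ : ℝ} (p : ℂ) (hτ : τ ^ 2 = κ ^ 2) (h1 : 0 ≤ r₁) (h2 : 0 ≤ r₂)
    (hb1 : r₁ ≤ b₁) (hb2 : r₂ ≤ b₂) (α : ℝ) :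
    π ^ 2 * (r₁ * r₂ * Real.cos (π * α) + r₁ * r₂ * τ * Real.sin (π * α)) +
      π ^ 2 / 4 * ((-(r₁ * (p.re + τ * p.im)) - r₂ * (p.re - τ * p.im)) *
        Real.cos (π * (α / 2)) +
        (-(r₁ * (-p.im + τ * p.re)) - r₂ * (p.im + τ * p.re)) * Real.sin (π * (α / 2))) ≤
    10 * Real.sqrt (1 + κ ^ 2) * (b₁ * b₂ + (b₁ + b₂) * ‖p‖ / 4) := by
  set k := Real.sqrt (1 + κ ^ 2) with hk
  have hk0 : 0 ≤ k := Real.sqrt_nonneg _
  have hk2 : k ^ 2 = 1 + κ ^ 2 := Real.sq_sqrt (by positivity)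
  have hp : ‖p‖ ^ 2 = p.re ^ 2 + p.im ^ 2 := by
    rw [← Complex.normSq_eq_norm_sq, Complex.normSq_apply]
    ring
  have hp0 : 0 ≤ ‖p‖ := norm_nonneg p
  have c1 : Real.cos (π * α) ^ 2 + Real.sin (π * α) ^ 2 = 1 := Real.cos_sq_add_sin_sq _
  have c2 : Real.cos (π * (α / 2)) ^ 2 + Real.sin (π * (α / 2)) ^ 2 = 1 :=
    Real.cos_sq_add_sin_sq _
  set c := Real.cos (π * (α / 2))
  set s := Real.sin (π * (α / 2))
  have t1 : Real.cos (π * α) * 1 + Real.sin (π * α) * τ ≤ k :=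
    cs c1 hk0 (by rw [hk2, hτ, one_pow])
  have t2 : c * (-(p.re + τ * p.im)) + s * (-(-p.im + τ * p.re)) ≤ k * ‖p‖ := by
    apply cs c2 (mul_nonneg hk0 hp0)
    rw [mul_pow, hk2, hp, ← hτ]
    nlinarith
  have t3 : c * (-(p.re - τ * p.im)) + s * (-(p.im + τ * p.re)) ≤ k * ‖p‖ := by
    apply cs c2 (mul_nonneg hk0 hp0)
    rw [mul_pow, hk2, hp, ← hτ]
    nlinarith
  have u1 : r₁ * r₂ * (Real.cos (π * α) * 1 + Real.sin (π * α) * τ) ≤ b₁ * b₂ * k := by
    have : r₁ * r₂ ≤ b₁ * b₂ := mul_le_mul hb1 hb2 h2 (h1.trans hb1)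
    calc r₁ * r₂ * (Real.cos (π * α) * 1 + Real.sin (π * α) * τ) ≤ r₁ * r₂ * k :=
          mul_le_mul_of_nonneg_left t1 (mul_nonneg h1 h2)
      _ ≤ b₁ * b₂ * k := mul_le_mul_of_nonneg_right this hk0
  have u2 : r₁ * (c * (-(p.re + τ * p.im)) + s * (-(-p.im + τ * p.re))) ≤ b₁ * (k * ‖p‖) :=
    (mul_le_mul_of_nonneg_left t2 h1).trans
      (mul_le_mul_of_nonneg_right hb1 (mul_nonneg hk0 hp0))
  have u3 : r₂ * (c * (-(p.re - τ * p.im)) + s * (-(p.im + τ * p.re))) ≤ b₂ * (k * ‖p‖) :=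
    (mul_le_mul_of_nonneg_left t3 h2).trans
      (mul_le_mul_of_nonneg_right hb2 (mul_nonneg hk0 hp0))
  have hpi : π ^ 2 ≤ 10 := by
    have := Real.pi_lt_d2
    have := Real.pi_pos
    nlinarith
  have hpi0 : 0 ≤ π ^ 2 := by positivity
  have hS0 : 0 ≤ b₁ * b₂ * k + (b₁ + b₂) * (k * ‖p‖) / 4 := by
    have := h1.trans hb1
    have := h2.trans hb2
    positivity
  have v1 : r₁ * r₂ * Real.cos (π * α) + r₁ * r₂ * τ * Real.sin (π * α) +
      1 / 4 * ((-(r₁ * (p.re + τ * p.im)) - r₂ * (p.re - τ * p.im)) * c +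
        (-(r₁ * (-p.im + τ * p.re)) - r₂ * (p.im + τ * p.re)) * s) ≤
      b₁ * b₂ * k + (b₁ + b₂) * (k * ‖p‖) / 4 := by
    nlinarith
  have v2 := mul_le_mul_of_nonneg_left v1 hpi0
  have v3 := mul_le_mul_of_nonneg_right hpi hS0
  nlinarith

/-- The form as a trigonometric sum. -/
theorem form_tg (r₁ r₂ α τ : ℝ) (p : ℂ) :
    r₁ * r₂ * (Real.cos (π * α) + τ * Real.sin (π * α)) -
      r₁ * (dot (ee (-(α / 2))) p + τ * crs (ee (-(α / 2))) p) -
      r₂ * (dot (ee (α / 2)) p + τ * crs p (ee (α / 2))) + ‖p‖ ^ 2 =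
    tg (‖p‖ ^ 2) (r₁ * r₂) (r₁ * r₂ * τ) (-(r₁ * (p.re + τ * p.im)) - r₂ * (p.re - τ * p.im))
      (-(r₁ * (-p.im + τ * p.re)) - r₂ * (p.im + τ * p.re)) α := by
  unfold dot crs tg
  simp only [ee_re, ee_im, cos_neg_half, sin_neg_half]
  ring

end LCHM

open LCHM in
theorem specLCH : SpecLCH := by
  intro b κ η p hκ ha1 hab1 ha2 hab2 hα0 hα01 hα1 hk hη hv r₁ r₂ α h1 h2 h3 h4 h5 h6 _
  refine ⟨?_, ?_⟩
  · rw [nrm]
    refine hk.trans (mul_le_mul_of_nonneg_left ?_ (by positivity))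
    have c1 : Real.cos (π * b.α₀) ≤ 0 := by
      apply Real.cos_nonpos_of_pi_div_two_le_of_le
      · have := Real.pi_pos
        nlinarith
      · have := Real.pi_pos
        nlinarith
    have c2 : Real.cos (π * α) ≤ Real.cos (π * b.α₀) := by
      apply Real.cos_le_cos_of_nonneg_of_le_pi
      · have := Real.pi_pos
        nlinarith
      · have := Real.pi_pos
        nlinarith
      · exact mul_le_mul_of_nonneg_left h5 Real.pi_pos.le
    have c3 : b.a1 * b.a2 ≤ r₁ * r₂ := mul_le_mul h1 h3 ha2.le (ha1.le.trans h1)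
    have c4 : 0 ≤ b.a1 * b.a2 := mul_nonneg ha1.le ha2.le
    have c5 : b.a1 ^ 2 ≤ r₁ ^ 2 := pow_le_pow_left₀ ha1.le h1 2
    have c6 : b.a2 ^ 2 ≤ r₂ ^ 2 := pow_le_pow_left₀ ha2.le h3 2
    have c7 : b.a1 * b.a2 * (-Real.cos (π * b.α₀)) ≤ r₁ * r₂ * (-Real.cos (π * α)) :=
      mul_le_mul c3 (by linarith) (by linarith) (c4.trans c3)
    nlinarith
  · have key : ∀ σ : ℝ, (σ = 1 ∨ σ = -1) →
        dot (r₁ * ee (-(α / 2)) - p) (r₂ * ee (α / 2) - p) +
          σ * κ * crs (r₁ * ee (-(α / 2)) - p) (r₂ * ee (α / 2) - p) < 0 := by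
      intro σ hσ
      rw [form]
      have hτ : (σ * κ) ^ 2 = κ ^ 2 := by
        rcases hσ with rfl | rfl <;> ring
      -- vertices
      have vt : ∀ s₁ s₂ : ℝ, (s₁ = b.a1 ∨ s₁ = b.b1) → (s₂ = b.a2 ∨ s₂ = b.b2) →
          s₁ * s₂ * (Real.cos (π * α) + σ * κ * Real.sin (π * α)) -
            s₁ * (dot (ee (-(α / 2))) p + σ * κ * crs (ee (-(α / 2))) p) -
            s₂ * (dot (ee (α / 2)) p + σ * κ * crs p (ee (α / 2))) + ‖p‖ ^ 2 < 0 := by
        intro s₁ s₂ hs1 hs2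
        have e1 := hv s₁ s₂ b.α₀ σ hs1 hs2 (Or.inl rfl) hσ
        have e2 := hv s₁ s₂ b.α₁ σ hs1 hs2 (Or.inr rfl) hσ
        rw [form_tg] at e1 e2 ⊢
        have p1 : 0 ≤ s₁ := by
          rcases hs1 with rfl | rfl
          · exact ha1.le
          · exact ha1.le.trans hab1
        have p2 : 0 ≤ s₂ := by
          rcases hs2 with rfl | rfl
          · exact ha2.le
          · exact ha2.le.trans hab2
        have q1 : s₁ ≤ b.b1 := by
          rcases hs1 with rfl | rfl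
          · exact hab1
          · exact le_rfl
        have q2 : s₂ ≤ b.b2 := by
          rcases hs2 with rfl | rfl
          · exact hab2
          · exact le_rfl
        have e3 := tg_max (X := ‖p‖ ^ 2) (bound (κ := κ) p hτ p1 p2 q1 q2) h5 h6
        have e4 : max _ _ < -η := max_lt (lt_neg_iff_add_neg.2 e1) (lt_neg_iff_add_neg.2 e2)
        linarith
      have w1 : ∀ s₁ : ℝ, (s₁ = b.a1 ∨ s₁ = b.b1) →
          s₁ * r₂ * (Real.cos (π * α) + σ * κ * Real.sin (π * α)) -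
            s₁ * (dot (ee (-(α / 2))) p + σ * κ * crs (ee (-(α / 2))) p) -
            r₂ * (dot (ee (α / 2)) p + σ * κ * crs p (ee (α / 2))) + ‖p‖ ^ 2 < 0 := by
        intro s₁ hs1
        have e1 := vt s₁ b.a2 hs1 (Or.inl rfl)
        have e2 := vt s₁ b.b2 hs1 (Or.inr rfl)
        have e3 := aff (m := s₁ * (Real.cos (π * α) + σ * κ * Real.sin (π * α)) -
          (dot (ee (α / 2)) p + σ * κ * crs p (ee (α / 2))))
          (n := -(s₁ * (dot (ee (-(α / 2))) p + σ * κ * crs (ee (-(α / 2))) p)) + ‖p‖ ^ 2)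
          h3 h4 (by linarith) (by linarith)
        linarith
      have e1 := w1 b.a1 (Or.inl rfl)
      have e2 := w1 b.b1 (Or.inr rfl)
      have e3 := aff (m := r₂ * (Real.cos (π * α) + σ * κ * Real.sin (π * α)) -
        (dot (ee (-(α / 2))) p + σ * κ * crs (ee (-(α / 2))) p))
        (n := -(r₂ * (dot (ee (α / 2)) p + σ * κ * crs p (ee (α / 2)))) + ‖p‖ ^ 2)
        h1 h2 (by linarith) (by linarith)
      linarith
    rcases abs_cases (crs (r₁ * ee (-(α / 2)) - p) (r₂ * ee (α / 2) - p)) with ⟨h, -⟩ | ⟨h, -⟩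
    · rw [h]
      have := key 1 (Or.inl rfl)
      rwa [one_mul] at this
    · rw [h]
      have := key (-1) (Or.inr rfl)
      have e : κ * -crs (r₁ * ee (-(α / 2)) - p) (r₂ * ee (α / 2) - p) =
          -1 * κ * crs (r₁ * ee (-(α / 2)) - p) (r₂ * ee (α / 2) - p) := by ring
      rwa [e]

end

end Pool.Agent.Lib.MP250511.ST
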