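import Pool.Agent.Lib.MP_250511_an.ST.Spec2

/-!
Problem MP_250511_an, Q2.  Module LEF: the leaf rule.
-/

set_option autoImplicit false

namespace Pool.Agent.Lib.MP250511.ST

open Complex Metric Set MeasureTheory Filter Topology
open scoped Real ENNReal

noncomputable section

namespace LEFM

/-- the directions, as a function on the natural numbers -/
def eN {m : ℕ} (α : ℝ) (v : Fin m → ℝ) (k : ℕ) : ℝ :=
  if k = 0 then -(α / 2) else if h : k - 1 < m then v ⟨k - 1, h⟩ else α / 2

theorem ex_eq {m : ℕ} (α : ℝ) (v : Fin m → ℝ) (j : Fin (m + 2)) : ex α v j = eN α v j := by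
  refine Fin.cases ?_ (fun i => ?_) j
  · simp [ex, eN]
  · refine Fin.lastCases ?_ (fun k => ?_) i
    · simp [ex, eN]
    · simp [ex, eN]

theorem gp_eq {m : ℕ} (α : ℝ) (v : Fin m → ℝ) (l : Fin (m + 1)) :
    gp α v l = eN α v (l + 1) - eN α v l := by
  unfold gp
  rw [ex_eq, ex_eq]
  simp

theorem psum_zero {n : ℕ} (a : Fin n → ℝ) : psum a 0 = 0 := by simp [psum]

theorem psum_succ {n : ℕ} (a : Fin n → ℝ) (j : ℕ) (h : j < n) :
    psum a (j + 1) = psum a j + a ⟨j, h⟩ := by
  unfold psum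
  have h1 : (Finset.univ.filter fun l : Fin n => (l : ℕ) < j + 1) =
      insert ⟨j, h⟩ (Finset.univ.filter fun l : Fin n => (l : ℕ) < j) := by
    ext l
    simp only [Finset.mem_filter, Finset.mem_univ, true_and, Finset.mem_insert, Fin.ext_iff]
    omega
  rw [h1, Finset.sum_insert (by simp), add_comm]

theorem psum_top {n : ℕ} (a : Fin n → ℝ) : psum a n = ∑ l, a l := by
  unfold psum
  rw [Finset.filter_true_of_mem]
  intro l _
  exact l.isLt

theorem psum_gp {m : ℕ} (α : ℝ) (v : Fin m → ℝ) : ∀ j : ℕ, j ≤ m + 1 →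
    psum (gp α v) j = eN α v j + α / 2 := by
  intro j
  induction j with
  | zero =>
    intro _
    rw [psum_zero]
    simp [eN]
  | succ j ih =>
    intro hj
    rw [psum_succ _ j (by omega), ih (by omega), gp_eq]
    ring

theorem sum_gp {m : ℕ} (α : ℝ) (v : Fin m → ℝ) : ∑ l, gp α v l = α := by
  rw [← psum_top, psum_gp α v (m + 1) le_rfl]
  simp [eN]

theorem gp_pos {m : ℕ} {α : ℝ} {v : Fin m → ℝ} (hα : 0 < α) (hv : StrictMono v)
    (hb : ∀ k, -(α / 2) < v k ∧ v k < α / 2) (l : Fin (m + 1)) : 0 < gp α v l := by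
  rw [gp_eq]
  obtain ⟨l, hl⟩ := l
  cases l with
  | zero =>
    simp only [eN, zero_add, if_true, one_ne_zero, if_false, Nat.sub_self]
    split_ifs with h
    · linarith [(hb ⟨0, h⟩).1]
    · linarith
  | succ k =>
    have hk : k < m := by omega
    simp only [eN, Nat.add_eq_zero_iff, one_ne_zero, and_false, if_false, Nat.add_sub_cancel]
    rw [dif_pos hk]
    split_ifs with h
    · have : v ⟨k, hk⟩ < v ⟨k + 1, h⟩ := hv (by simp)
      linarith
    · linarith [(hb ⟨k, hk⟩).2]

/-- the linear combination rule for the directions -/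
theorem ex_lin {m : ℕ} (α α' s t : ℝ) (v v' : Fin m → ℝ) (j : Fin (m + 2)) :
    ex (s * α + t * α') (fun k => s * v k + t * v' k) j = s * ex α v j + t * ex α' v' j := by
  refine Fin.cases ?_ (fun i => ?_) j
  · simp only [ex, Fin.cons_zero]
    ring
  · refine Fin.lastCases ?_ (fun k => ?_) i
    · simp only [ex, Fin.cons_succ, Fin.snoc_last]
      ring
    · simp only [ex, Fin.cons_succ, Fin.snoc_castSucc]

theorem gp_lin {m : ℕ} (α α' s t : ℝ) (v v' : Fin m → ℝ) (l : Fin (m + 1)) :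
    gp (s * α + t * α') (fun k => s * v k + t * v' k) l = s * gp α v l + t * gp α' v' l := by
  unfold gp
  rw [ex_lin, ex_lin]
  ring

theorem HH_lin {m : ℕ} (α α' s t : ℝ) (v v' : Fin m → ℝ) (B : Fin (m + 1) → ℝ) (X : ℝ) :
    HH (gp (s * α + t * α') (fun k => s * v k + t * v' k)) B X =
      s * HH (gp α v) B X + t * HH (gp α' v') B X := by
  unfold HH
  rw [Finset.mul_sum, Finset.mul_sum, ← Finset.sum_add_distrib]
  refine Finset.sum_congr rfl fun l _ => ?_
  rw [gp_lin]
  ring

/-- the function of the parameters -/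
def FF (A₀ A₁ β γ ρ₁ ρ₂ : ℝ) (S : List Slt) (Q : Fin (S.length + 2) → ℝ)
    (X : Fin (S.length + 2) → ℝ) (B : Fin (S.length + 1) → ℝ) (α : ℝ) (v : Fin S.length → ℝ) : ℝ :=
  (Q 0 - β) * ρ₁ + (Q (Fin.last _) - γ) * ρ₂ +
    ∑ k : Fin S.length, Q k.succ.castSucc * (S.get k).tip (v k) +
    ∑ j, Q j * HH (gp α v) B (X j) - A₀ - A₁ * α

theorem FF_conv (A₀ A₁ β γ ρ₁ ρ₂ : ℝ) (S : List Slt) (Q : Fin (S.length + 2) → ℝ)
    (X : Fin (S.length + 2) → ℝ) (B : Fin (S.length + 1) → ℝ) (hQ : ∀ j, 0 ≤ Q j)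
    (hT : ∀ k : Fin S.length, ConvexOn ℝ (Icc (S.get k).lo (S.get k).hi) (S.get k).tip)
    (α α' s t : ℝ) (v v' : Fin S.length → ℝ) (hs : 0 ≤ s) (ht : 0 ≤ t) (hst : s + t = 1)
    (hv : ∀ k, v k ∈ Icc (S.get k).lo (S.get k).hi)
    (hv' : ∀ k, v' k ∈ Icc (S.get k).lo (S.get k).hi) :
    FF A₀ A₁ β γ ρ₁ ρ₂ S Q X B (s * α + t * α') (fun k => s * v k + t * v' k) ≤
      s * FF A₀ A₁ β γ ρ₁ ρ₂ S Q X B α v + t * FF A₀ A₁ β γ ρ₁ ρ₂ S Q X B α' v' := by
  unfold FF
  have h1 : ∑ j, Q j * HH (gp (s * α + t * α') (fun k => s * v k + t * v' k)) B (X j) =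
      s * ∑ j, Q j * HH (gp α v) B (X j) + t * ∑ j, Q j * HH (gp α' v') B (X j) := by
    rw [Finset.mul_sum, Finset.mul_sum, ← Finset.sum_add_distrib]
    refine Finset.sum_congr rfl fun j _ => ?_
    rw [HH_lin]
    ring
  have h2 : ∑ k : Fin S.length, Q k.succ.castSucc * (S.get k).tip (s * v k + t * v' k) ≤
      s * ∑ k : Fin S.length, Q k.succ.castSucc * (S.get k).tip (v k) +
      t * ∑ k : Fin S.length, Q k.succ.castSucc * (S.get k).tip (v' k) := by
    rw [Finset.mul_sum, Finset.mul_sum, ← Finset.sum_add_distrib]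
    refine Finset.sum_le_sum fun k _ => ?_
    have h3 := (hT k).2 (hv k) (hv' k) hs ht hst
    simp only [smul_eq_mul] at h3
    have h4 := mul_le_mul_of_nonneg_left h3 (hQ k.succ.castSucc)
    linarith
  rw [h1]
  have h5 : t = 1 - s := by linarith
  subst h5
  nlinarith

/-- a linear function of the logarithm of the modulus on an interval -/
theorem end_bound {q ρ a1 b1 R : ℝ} (h1 : a1 ≤ Real.exp ρ) (h2 : Real.exp ρ ≤ b1)
    (h3 : q * Real.log b1 ≤ R) (h4 : 0 ≤ q ∨ (0 < a1 ∧ q * Real.log a1 ≤ R)) : q * ρ ≤ R := by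
  have hb : 0 < b1 := (Real.exp_pos ρ).trans_le h2
  have h5 : ρ ≤ Real.log b1 := (Real.le_log_iff_exp_le hb).2 h2
  rcases le_or_gt 0 q with hq | hq
  · exact (mul_le_mul_of_nonneg_left h5 hq).trans h3
  · rcases h4 with h4 | ⟨h6, h7⟩
    · exact absurd h4 (not_le.2 hq)
    · have h8 : Real.log a1 ≤ ρ := (Real.log_le_iff_le_exp h6).2 h1
      exact (mul_le_mul_of_nonpos_left h8 hq.le).trans h7

end LEFM

open LEFM in
theorem specLEF (hQFM : SpecQFM) (hTCX : SpecTCX) (hVTX : SpecVTX) : SpecLEF := by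
  intro b P S Q hb hOk hQ hQ1 hV W cs r α ρ₁ ρ₂ hC ha1 hb1 ha2 hb2 hα₀ hα₁ us hus hpw hin
  have hlen : S.length = us.length := hus.length_eq
  have hT : ∀ k : Fin S.length, ConvexOn ℝ (Icc (S.get k).lo (S.get k).hi) (S.get k).tip :=
    fun k => hTCX _ (hOk _ (List.get_mem S k))
  set v : Fin S.length → ℝ := fun k => us.get ⟨k, by rw [← hlen]; exact k.isLt⟩ with hvdef
  have hvS : ∀ k : Fin S.length, (S.get k).lo ≤ v k ∧ v k < (S.get k).hi ∧
      pt ((S.get k).tip (v k)) (π * v k) ∈ W := by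
    intro k
    exact hus.get k.isLt (by rw [← hlen]; exact k.isLt)
  have hvm : StrictMono v := by
    intro i j hij
    have := List.pairwise_iff_getElem.1 hpw i j (by rw [← hlen]; exact i.isLt)
      (by rw [← hlen]; exact j.isLt) hij
    simpa [hvdef] using this
  have hvb : ∀ k, -(α / 2) < v k ∧ v k < α / 2 := fun k => hin _ (List.get_mem us _)
  set ρ : Fin (S.length + 2) → ℝ :=
    Fin.cons ρ₁ (Fin.snoc (fun k => (S.get k).tip (v k)) ρ₂) with hρ
  have key := hQFM W (-(π * (α / 2))) S.length (gp α v) ρ Q (P.A₀ + P.A₁ * α + P.g₁ * ρ₁ + P.g₂ * ρ₂)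
    (gp_pos hC.al0 hvm hvb) ?_ hQ1 ?_
  · rw [sum_gp] at key
    exact key
  · intro j
    have hang : -(π * (α / 2)) + π * psum (gp α v) j = π * ex α v j := by
      rw [psum_gp α v j (by omega), ex_eq]
      ring
    rw [hang]
    refine Fin.cases ?_ (fun i => ?_) j
    · have h1 : π * ex α v 0 = -(π * (α / 2)) := by
        simp only [ex, Fin.cons_zero]
        ring
      rw [h1, hρ, Fin.cons_zero]
      exact hC.m1
    · refine Fin.lastCases ?_ (fun k => ?_) i
      · have h1 : π * ex α v (Fin.last S.length).succ = π * (α / 2) := by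
          simp only [ex, Fin.cons_succ, Fin.snoc_last]
        rw [h1, hρ, Fin.cons_succ, Fin.snoc_last]
        exact hC.m2
      · have h1 : ex α v k.castSucc.succ = v k := by
          simp only [ex, Fin.cons_succ, Fin.snoc_castSucc]
        rw [h1, hρ, Fin.cons_succ, Fin.snoc_castSucc]
        exact (hvS k).2.2
  · intro X B hI
    -- the function on the box
    let lo : Fin (S.length + 1) → ℝ := Fin.cons b.α₀ (fun k => (S.get k).lo)
    let hi : Fin (S.length + 1) → ℝ := Fin.cons b.α₁ (fun k => (S.get k).hi)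
    let F : (Fin (S.length + 1) → ℝ) → ℝ := fun p =>
      FF P.A₀ P.A₁ P.g₁ P.g₂ ρ₁ ρ₂ S Q X B (p 0) (fun k => p k.succ)
    have hlohi : ∀ i, lo i ≤ hi i := by
      intro i
      refine Fin.cases ?_ (fun k => ?_) i
      · exact hb
      · exact (hOk _ (List.get_mem S k)).lt.le
    have hconv : ∀ (i : Fin (S.length + 1)) (p : Fin (S.length + 1) → ℝ),
        (∀ k, p k ∈ Icc (lo k) (hi k)) →
        ConvexOn ℝ (Icc (lo i) (hi i)) (fun t => F (Function.update p i t)) := by
      intro i p hp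
      refine ⟨convex_Icc _ _, fun x hx y hy s t hs ht hst => ?_⟩
      have hup : ∀ z ∈ Icc (lo i) (hi i), ∀ k, Function.update p i z k ∈ Icc (lo k) (hi k) := by
        intro z hz k
        by_cases hk : k = i
        · subst hk
          rw [Function.update_self]
          exact hz
        · rw [Function.update_of_ne hk]
          exact hp k
      have hcomb : ∀ k, Function.update p i (s • x + t • y) k =
          s * Function.update p i x k + t * Function.update p i y k := by
        intro k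
        by_cases hk : k = i
        · subst hk
          simp
        · rw [Function.update_of_ne hk, Function.update_of_ne hk, Function.update_of_ne hk,
            ← add_mul, hst, one_mul]
      have h1 : F (Function.update p i (s • x + t • y)) = FF P.A₀ P.A₁ P.g₁ P.g₂ ρ₁ ρ₂ S Q X B
          (s * Function.update p i x 0 + t * Function.update p i y 0)
          (fun k => s * Function.update p i x k.succ + t * Function.update p i y k.succ) := by
        change FF P.A₀ P.A₁ P.g₁ P.g₂ ρ₁ ρ₂ S Q X B (Function.update p i (s • x + t • y) 0)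
          (fun k => Function.update p i (s • x + t • y) k.succ) = _
        simp only [hcomb]
      refine h1.trans_le ?_
      exact FF_conv P.A₀ P.A₁ P.g₁ P.g₂ ρ₁ ρ₂ S Q X B hQ hT _ _ s t _ _ hs ht hst
        (fun k => hup x hx k.succ) (fun k => hup y hy k.succ)
    have hvert : ∀ p : Fin (S.length + 1) → ℝ, (∀ k, p k = lo k ∨ p k = hi k) → F p ≤ 0 := by
      intro p hp
      obtain ⟨N, R₁, R₂, hN, hr1, hr1', hr2, hr2', hfin⟩ :=
        hV (p 0) (fun k => p k.succ) (hp 0) (fun k => hp k.succ)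
      have e1 := end_bound ha1 hb1 hr1 (hr1'.imp (fun h => sub_nonneg.2 h) id)
      have e2 := end_bound ha2 hb2 hr2 (hr2'.imp (fun h => sub_nonneg.2 h) id)
      have e3 := hN X B hI
      change FF P.A₀ P.A₁ P.g₁ P.g₂ ρ₁ ρ₂ S Q X B (p 0) (fun k => p k.succ) ≤ 0
      unfold FF
      linarith
    have hF := hVTX (S.length + 1) lo hi F hlohi hconv hvert (Fin.cons α v) (by
      intro k
      refine Fin.cases ?_ (fun k => ?_) k
      · exact ⟨hα₀, hα₁⟩
      · exact ⟨(hvS k).1, (hvS k).2.1.le⟩)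
    have hF' : FF P.A₀ P.A₁ P.g₁ P.g₂ ρ₁ ρ₂ S Q X B α v ≤ 0 := hF
    unfold FF at hF'
    have hsum : ∑ j, Q j * ρ j = Q 0 * ρ₁ +
        (∑ k : Fin S.length, Q k.succ.castSucc * (S.get k).tip (v k) +
          Q (Fin.last _) * ρ₂) := by
      have hr0 : ρ 0 = ρ₁ := rfl
      have hrl : ρ (Fin.last S.length).succ = ρ₂ := by
        rw [hρ, Fin.cons_succ, Fin.snoc_last]
      have hrk : ∀ k : Fin S.length, ρ k.castSucc.succ = (S.get k).tip (v k) := by
        intro k
        rw [hρ, Fin.cons_succ, Fin.snoc_castSucc]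
      rw [Fin.sum_univ_succ, Fin.sum_univ_castSucc, hr0, hrl]
      simp only [hrk]
      rfl
    have hsplit : ∑ j, Q j * (ρ j + HH (gp α v) B (X j)) =
        ∑ j, Q j * ρ j + ∑ j, Q j * HH (gp α v) B (X j) := by
      rw [← Finset.sum_add_distrib]
      exact Finset.sum_congr rfl fun j _ => mul_add _ _ _
    rw [hsplit, hsum]
    linarith

end

end Pool.Agent.Lib.MP250511.ST
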