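import Pool.Agent.Lib.MP_250511_an.ST.Spec4

/-!
Problem MP_250511_an, Q2, part 4.  Module LNI: the lens condition in integers (from COS, LCH).
-/

set_option autoImplicit false

namespace Pool.Agent.Lib.MP250511.ST.Chk

open Complex Metric Set MeasureTheory Filter Topology
open scoped Real ENNReal

namespace LNIM

/-! ### Basic facts on the operations -/

theorem shl (a k : ℕ) : Nat.shiftLeft a k = a * 2 ^ k := Nat.shiftLeft_eq a k

theorem shr (a k : ℕ) : Nat.shiftRight a k = a / 2 ^ k := Nat.shiftRight_eq_div_pow a k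

theorem bleN (a b : ℕ) : Nat.ble a b = true ↔ a ≤ b := by rw [Nat.ble_eq]

/-! ### Real estimates -/

theorem prod_err {a b a' b' : ℝ} (h1 : |a - a'| ≤ 2) (h2 : |b - b'| ≤ 2) :
    |a * b - a' * b'| ≤ 2 * |a| + 2 * |b| + 4 := by
  have e : a * b - a' * b' = a * (b - b') + (a - a') * b' := by ring
  have hb : |b'| ≤ |b| + 2 := by
    have : b' = b - (b - b') := by ring
    rw [this]
    exact (abs_sub _ _).trans (by linarith)
  rw [e]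
  refine (abs_add_le _ _).trans ?_
  rw [abs_mul, abs_mul]
  have g1 : |a| * |b - b'| ≤ |a| * 2 := mul_le_mul_of_nonneg_left h2 (abs_nonneg a)
  have g2 : |a - a'| * |b'| ≤ 2 * |b'| := mul_le_mul_of_nonneg_right h1 (abs_nonneg _)
  linarith

/-- error of one of the sums `1024 (c x - s y) + τ (c y + s x)`, `|τ| ≤ K` -/
theorem n_err {c s x y ct st xt yt K τ E u v : ℝ} (hK : 0 ≤ K) (hτ : |τ| ≤ K)
    (hc : |c - ct| ≤ 2) (hs : |s - st| ≤ 2) (hx : |x - xt| ≤ 2) (hy : |y - yt| ≤ 2)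
    (hcs : |c| + |s| ≤ 2 ^ 31 + 4) (hxy : |x| + |y| ≤ E) (hu : |u| = 1) (hv : |v| = 1) :
    |(1024 * (c * x - u * (s * y)) + τ * (v * (c * y) + s * x)) -
      (1024 * (ct * xt - u * (st * yt)) + τ * (v * (ct * yt) + st * xt))| ≤
      (1024 + K) * (2 * (2 ^ 31 + E) + 32) := by
  have e1 := prod_err hc hx
  have e2 := prod_err hs hy
  have e3 := prod_err hc hy
  have e4 := prod_err hs hx
  have e : (1024 * (c * x - u * (s * y)) + τ * (v * (c * y) + s * x)) -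
      (1024 * (ct * xt - u * (st * yt)) + τ * (v * (ct * yt) + st * xt)) =
      1024 * ((c * x - ct * xt) - u * (s * y - st * yt)) +
        τ * (v * (c * y - ct * yt) + (s * x - st * xt)) := by ring
  rw [e]
  have g1 : |(c * x - ct * xt) - u * (s * y - st * yt)| ≤ 2 * (2 ^ 31 + E) + 32 := by
    refine (abs_sub _ _).trans ?_
    rw [abs_mul, hu, one_mul]
    linarith
  have g2 : |v * (c * y - ct * yt) + (s * x - st * xt)| ≤ 2 * (2 ^ 31 + E) + 32 := by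
    refine (abs_add_le _ _).trans ?_
    rw [abs_mul, hv, one_mul]
    linarith
  refine (abs_add_le _ _).trans ?_
  rw [abs_mul, abs_mul]
  have g0 : (0 : ℝ) ≤ 2 * (2 ^ 31 + E) + 32 := (abs_nonneg _).trans g1
  have g3 : |(1024 : ℝ)| * |(c * x - ct * xt) - u * (s * y - st * yt)| ≤
      1024 * (2 * (2 ^ 31 + E) + 32) := by
    rw [abs_of_pos (by norm_num : (0 : ℝ) < 1024)]
    exact mul_le_mul_of_nonneg_left g1 (by norm_num)
  have g4 : |τ| * |v * (c * y - ct * yt) + (s * x - st * xt)| ≤ K * (2 * (2 ^ 31 + E) + 32) :=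
    mul_le_mul hτ g2 (abs_nonneg _) hK
  linarith

/-- the vertex inequality over the reals -/
theorem vert_real {R1 R2 B1 B2 K τ C D c s x y Ct Dt ct st xt yt P2 et E : ℝ}
    (hR1 : 0 ≤ R1) (hR2 : 0 ≤ R2) (hB1 : R1 ≤ B1) (hB2 : R2 ≤ B2)
    (hK : 0 ≤ K) (hτ : |τ| ≤ K) (hC : |C - Ct| ≤ 2) (hD : |D - Dt| ≤ 2)
    (hc : |c - ct| ≤ 2) (hs : |s - st| ≤ 2) (hx : |x - xt| ≤ 2) (hy : |y - yt| ≤ 2)
    (hcs : |c| + |s| ≤ 2 ^ 31 + 4) (hxy : |x| + |y| ≤ E) (hP : xt ^ 2 + yt ^ 2 ≤ P2)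
    (h : P2 * 2 ^ 18 + et + (1024 + K) * (B1 * B2 * 2 ^ 23 + (B1 + B2) * (2 * (2 ^ 31 + E) + 32)) +
      R1 * R2 * (τ * D * 2 ^ 22 - C * 2 ^ 32) -
      R1 * (1024 * (c * x - s * y) + τ * (c * y + s * x)) -
      R2 * (1024 * (c * x + s * y) + τ * (s * x - c * y)) < 0) :
    R1 * R2 * (τ * Dt * 2 ^ 22 - Ct * 2 ^ 32) -
      R1 * (1024 * (ct * xt - st * yt) + τ * (ct * yt + st * xt)) -
      R2 * (1024 * (ct * xt + st * yt) + τ * (st * xt - ct * yt)) + (xt ^ 2 + yt ^ 2) * 2 ^ 18 + et < 0 := by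
  have n1 := n_err (u := 1) (v := 1) hK hτ hc hs hx hy hcs hxy (by norm_num) (by norm_num)
  have n2 := n_err (u := -1) (v := -1) hK hτ hc hs hx hy hcs hxy (by norm_num) (by norm_num)
  set Q : ℝ := (1024 + K) * (2 * (2 ^ 31 + E) + 32) with hQ
  have hQ0 : 0 ≤ Q := (abs_nonneg _).trans n1
  have hRR : 0 ≤ R1 * R2 := mul_nonneg hR1 hR2
  have hRB : R1 * R2 ≤ B1 * B2 := mul_le_mul hB1 hB2 hR2 (hR1.trans hB1)
  have m1 : -((1024 * (ct * xt - st * yt) + τ * (ct * yt + st * xt))) ≤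
      -(1024 * (c * x - s * y) + τ * (c * y + s * x)) + Q := by
    have := (abs_le.mp n1).2
    have h' : (1024 * (c * x - 1 * (s * y)) + τ * (1 * (c * y) + s * x)) -
      (1024 * (ct * xt - 1 * (st * yt)) + τ * (1 * (ct * yt) + st * xt)) =
      (1024 * (c * x - s * y) + τ * (c * y + s * x)) -
      (1024 * (ct * xt - st * yt) + τ * (ct * yt + st * xt)) := by ring
    rw [h'] at this
    linarith
  have m2 : -((1024 * (ct * xt + st * yt) + τ * (st * xt - ct * yt))) ≤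
      -(1024 * (c * x + s * y) + τ * (s * x - c * y)) + Q := by
    have := (abs_le.mp n2).2
    have h' : (1024 * (c * x - -1 * (s * y)) + τ * (-1 * (c * y) + s * x)) -
      (1024 * (ct * xt - -1 * (st * yt)) + τ * (-1 * (ct * yt) + st * xt)) =
      (1024 * (c * x + s * y) + τ * (s * x - c * y)) -
      (1024 * (ct * xt + st * yt) + τ * (st * xt - ct * yt)) := by ring
    rw [h'] at this
    linarith
  have m3 : τ * Dt * 2 ^ 22 - Ct * 2 ^ 32 ≤ τ * D * 2 ^ 22 - C * 2 ^ 32 + (1024 + K) * 2 ^ 23 := by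
    have a1 : τ * Dt - τ * D ≤ K * 2 := by
      have : τ * Dt - τ * D = τ * (Dt - D) := by ring
      rw [this]
      refine (le_abs_self _).trans ?_
      rw [abs_mul]
      refine mul_le_mul hτ ?_ (abs_nonneg _) hK
      rw [abs_sub_comm]
      exact hD
    have a2 := (abs_le.mp hC).2
    have a3 : τ * Dt * 2 ^ 22 ≤ (τ * D + K * 2) * 2 ^ 22 :=
      mul_le_mul_of_nonneg_right (by linarith) (by norm_num)
    have a4 : C * 2 ^ 32 ≤ (Ct + 2) * 2 ^ 32 := mul_le_mul_of_nonneg_right (by linarith) (by norm_num)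
    have a5 : (K * 2) * (2 : ℝ) ^ 22 = K * 2 ^ 23 := by ring
    have a6 : (2 : ℝ) * 2 ^ 32 = 1024 * 2 ^ 23 := by norm_num
    have a7 : (1024 + K) * (2 : ℝ) ^ 23 = 1024 * 2 ^ 23 + K * 2 ^ 23 := by ring
    have a8 : (τ * D + K * 2) * (2 : ℝ) ^ 22 = τ * D * 2 ^ 22 + K * 2 ^ 23 := by ring
    have a9 : (Ct + 2) * (2 : ℝ) ^ 32 = Ct * 2 ^ 32 + 1024 * 2 ^ 23 := by ring
    linarith
  have k3 : R1 * R2 * (τ * Dt * 2 ^ 22 - Ct * 2 ^ 32) ≤
      R1 * R2 * (τ * D * 2 ^ 22 - C * 2 ^ 32) + B1 * B2 * ((1024 + K) * 2 ^ 23) := by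
    have t1 := mul_le_mul_of_nonneg_left m3 hRR
    have t2 : R1 * R2 * ((1024 + K) * 2 ^ 23) ≤ B1 * B2 * ((1024 + K) * 2 ^ 23) :=
      mul_le_mul_of_nonneg_right hRB (by positivity)
    have t3 : R1 * R2 * (τ * D * 2 ^ 22 - C * 2 ^ 32 + (1024 + K) * 2 ^ 23) =
      R1 * R2 * (τ * D * 2 ^ 22 - C * 2 ^ 32) + R1 * R2 * ((1024 + K) * 2 ^ 23) := by ring
    rw [t3] at t1
    linarith
  have k1 : -(R1 * (1024 * (ct * xt - st * yt) + τ * (ct * yt + st * xt))) ≤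
      -(R1 * (1024 * (c * x - s * y) + τ * (c * y + s * x))) + B1 * Q := by
    have t1 := mul_le_mul_of_nonneg_left m1 hR1
    have t2 : R1 * Q ≤ B1 * Q := mul_le_mul_of_nonneg_right hB1 hQ0
    have t3 : R1 * (-(1024 * (c * x - s * y) + τ * (c * y + s * x)) + Q) =
      -(R1 * (1024 * (c * x - s * y) + τ * (c * y + s * x))) + R1 * Q := by ring
    have t4 : R1 * -((1024 * (ct * xt - st * yt) + τ * (ct * yt + st * xt))) =
      -(R1 * (1024 * (ct * xt - st * yt) + τ * (ct * yt + st * xt))) := by ring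
    rw [t3, t4] at t1
    linarith
  have k2 : -(R2 * (1024 * (ct * xt + st * yt) + τ * (st * xt - ct * yt))) ≤
      -(R2 * (1024 * (c * x + s * y) + τ * (s * x - c * y))) + B2 * Q := by
    have t1 := mul_le_mul_of_nonneg_left m2 hR2
    have t2 : R2 * Q ≤ B2 * Q := mul_le_mul_of_nonneg_right hB2 hQ0
    have t3 : R2 * (-(1024 * (c * x + s * y) + τ * (s * x - c * y)) + Q) =
      -(R2 * (1024 * (c * x + s * y) + τ * (s * x - c * y))) + R2 * Q := by ring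
    have t4 : R2 * -((1024 * (ct * xt + st * yt) + τ * (st * xt - ct * yt))) =
      -(R2 * (1024 * (ct * xt + st * yt) + τ * (st * xt - ct * yt))) := by ring
    rw [t3, t4] at t1
    linarith
  have k4 : (xt ^ 2 + yt ^ 2) * 2 ^ 18 ≤ P2 * 2 ^ 18 :=
    mul_le_mul_of_nonneg_right hP (by norm_num)
  have k5 : (1024 + K) * (B1 * B2 * 2 ^ 23 + (B1 + B2) * (2 * (2 ^ 31 + E) + 32)) =
      B1 * B2 * ((1024 + K) * 2 ^ 23) + B1 * Q + B2 * Q := by rw [hQ]; ring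
  rw [k5] at h
  linarith

/-! ### Cosines -/

theorem cC (hCOS : SpecCOS) {al : ℕ} (h1 : 512 ≤ al) (h2 : al ≤ 1024) :
    |(cT (2048 - 2 * al) : ℝ) - (-(2 ^ 30 * Real.cos (π * ((al : ℝ) / 1024))))| ≤ 2 := by
  have h := hCOS (2048 - 2 * al) (by omega)
  have e : Real.cos (Real.pi * ((2048 - 2 * al : ℕ) : ℝ) / 2048) =
      -Real.cos (π * ((al : ℝ) / 1024)) := by
    rw [← Real.cos_pi_sub]
    congr 1
    rw [Nat.cast_sub (by omega)]
    push_cast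
    ring
  rw [e] at h
  rw [show (-(2 ^ 30 * Real.cos (π * ((al : ℝ) / 1024)))) =
    2 ^ 30 * -Real.cos (π * ((al : ℝ) / 1024)) by ring]
  exact h

theorem cD (hCOS : SpecCOS) {al : ℕ} (h1 : 512 ≤ al) (h2 : al ≤ 1024) :
    |(cT (2 * al - 1024) : ℝ) - 2 ^ 30 * Real.sin (π * ((al : ℝ) / 1024))| ≤ 2 := by
  have h := hCOS (2 * al - 1024) (by omega)
  have e : Real.cos (Real.pi * ((2 * al - 1024 : ℕ) : ℝ) / 2048) =
      Real.sin (π * ((al : ℝ) / 1024)) := by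
    rw [← Real.cos_sub_pi_div_two]
    congr 1
    rw [Nat.cast_sub (by omega)]
    push_cast
    ring
  rw [e] at h
  exact h

theorem cc (hCOS : SpecCOS) {al : ℕ} (h2 : al ≤ 1024) :
    |(cT al : ℝ) - 2 ^ 30 * Real.cos (π * ((al : ℝ) / 1024 / 2))| ≤ 2 := by
  have h := hCOS al h2
  have e : Real.cos (Real.pi * (al : ℝ) / 2048) = Real.cos (π * ((al : ℝ) / 1024 / 2)) := by
    congr 1
    ring
  rw [e] at h
  exact h

theorem cs' (hCOS : SpecCOS) {al : ℕ} (h2 : al ≤ 1024) :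
    |(cT (1024 - al) : ℝ) - 2 ^ 30 * Real.sin (π * ((al : ℝ) / 1024 / 2))| ≤ 2 := by
  have h := hCOS (1024 - al) (by omega)
  have e : Real.cos (Real.pi * ((1024 - al : ℕ) : ℝ) / 2048) =
      Real.sin (π * ((al : ℝ) / 1024 / 2)) := by
    rw [← Real.cos_pi_div_two_sub]
    congr 1
    rw [Nat.cast_sub (by omega)]
    push_cast
    ring
  rw [e] at h
  exact h

theorem cT_abs (hCOS : SpecCOS) {k : ℕ} (h : k ≤ 1024) : |(cT k : ℝ)| ≤ 2 ^ 30 + 2 := by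
  have h1 := hCOS k h
  have h2 := Real.cos_le_one (Real.pi * k / 2048)
  rw [abs_of_nonneg (Nat.cast_nonneg _)]
  have h3 := (abs_le.mp h1).2
  nlinarith

/-! ### The check at a vertex -/

theorem vx_iff (R ML MG L1 G1 L2 G2 r1 r2 : ℕ) :
    vx R ML MG L1 G1 L2 G2 r1 r2 = true ↔
      r1 * r2 * ML + R + (r1 * L1 + r2 * L2) < r1 * r2 * MG + (r1 * G1 + r2 * G2) :=
  blt_iff _ _

theorem vx4_iff {a1 b1 a2 b2 R ML MG L1 G1 L2 G2 : ℕ}
    (h : vx4 a1 b1 a2 b2 R ML MG L1 G1 L2 G2 = true) {r1 r2 : ℕ} (h1 : r1 = a1 ∨ r1 = b1)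
    (h2 : r2 = a2 ∨ r2 = b2) :
    r1 * r2 * ML + R + (r1 * L1 + r2 * L2) < r1 * r2 * MG + (r1 * G1 + r2 * G2) := by
  have h' : ((vx R ML MG L1 G1 L2 G2 a1 a2 && vx R ML MG L1 G1 L2 G2 a1 b2) &&
      (vx R ML MG L1 G1 L2 G2 b1 a2 && vx R ML MG L1 G1 L2 G2 b1 b2)) = true := h
  rw [Bool.and_eq_true, Bool.and_eq_true, Bool.and_eq_true] at h'
  rw [← vx_iff]
  rcases h1 with rfl | rfl <;> rcases h2 with rfl | rfl
  · exact h'.1.1
  · exact h'.1.2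
  · exact h'.2.1
  · exact h'.2.2

/-- both signs, general numbers -/
theorem vxA_real {a1 b1 a2 b2 K R C D c s px pu pv : ℕ}
    (h : vxA a1 b1 a2 b2 K R C D (Nat.mul c px) (Nat.mul s px) (Nat.mul c pu) (Nat.mul c pv)
      (Nat.mul s pu) (Nat.mul s pv) = true) {r1 r2 : ℕ} (h1 : r1 = a1 ∨ r1 = b1)
    (h2 : r2 = a2 ∨ r2 = b2) {σ : ℝ} (hσ : σ = 1 ∨ σ = -1) :
    (R : ℝ) + (r1 : ℝ) * r2 * ((σ * K) * D * 2 ^ 22 - C * 2 ^ 32) -
      r1 * (1024 * ((c : ℝ) * px - s * ((pu : ℝ) - pv)) + (σ * K) * ((c : ℝ) * ((pu : ℝ) - pv) + s * px)) -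
      r2 * (1024 * ((c : ℝ) * px + s * ((pu : ℝ) - pv)) + (σ * K) * ((s : ℝ) * px - c * ((pu : ℝ) - pv))) < 0 := by
  have h' := h
  unfold vxA at h'
  rw [Bool.and_eq_true] at h'
  rcases hσ with rfl | rfl
  · have g := vx4_iff h'.1 h1 h2
    rw [shl, shl] at g
    simp only [Nat.mul_eq, Nat.add_eq] at g
    have g' : ((r1 * r2 * (K * D * 2 ^ 22) + R + (r1 * (1024 * (s * pu) + K * (c * pv)) +
        r2 * (1024 * (s * pv) + K * (c * pu))) : ℕ) : ℝ) <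
        ((r1 * r2 * (C * 2 ^ 32) + (r1 * (1024 * (c * px + s * pv) + K * (c * pu + s * px)) +
        r2 * (1024 * (c * px + s * pu) + K * (s * px + c * pv))) : ℕ) : ℝ) := by exact_mod_cast g
    push_cast at g'
    nlinarith [g']
  · have g := vx4_iff h'.2 h1 h2
    rw [shl, shl] at g
    simp only [Nat.mul_eq, Nat.add_eq] at g
    have g' : ((r1 * r2 * 0 + R + (r1 * (1024 * (s * pu) + K * (c * pu + s * px)) +
        r2 * (1024 * (s * pv) + K * (s * px + c * pv))) : ℕ) : ℝ) <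
        ((r1 * r2 * (C * 2 ^ 32 + K * D * 2 ^ 22) + (r1 * (1024 * (c * px + s * pv) + K * (c * pv)) +
        r2 * (1024 * (c * px + s * pu) + K * (c * pu))) : ℕ) : ℝ) := by exact_mod_cast g
    push_cast at g'
    nlinarith [g']

/-! ### Norms -/

theorem p2_ge {px pu pv : ℕ} {p : ℂ} (h1 : |(px : ℝ) - 2 ^ 30 * p.re| ≤ 2)
    (h2 : |((pu : ℝ) - pv) - 2 ^ 30 * p.im| ≤ 2) :
    (2 ^ 30 * p.re) ^ 2 + (2 ^ 30 * p.im) ^ 2 ≤ (p2 px (dst pu pv) : ℝ) := by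
  have e : (p2 px (dst pu pv) : ℝ) = (px : ℝ) * px + (dst pu pv : ℝ) * (dst pu pv) +
      (4 * (px + (dst pu pv : ℝ)) + 8) := by
    unfold p2
    simp only [Nat.mul_eq, Nat.add_eq]
    push_cast
    ring
  have hd : (dst pu pv : ℝ) = |(pu : ℝ) - pv| := by
    have e : dst pu pv = (pu - pv) + (pv - pu) := rfl
    rw [e]
    rcases le_total pu pv with h | h
    · rw [Nat.sub_eq_zero_of_le h, zero_add, Nat.cast_sub h, abs_of_nonpos]
      · ring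
      · have : (pu : ℝ) ≤ pv := by exact_mod_cast h
        linarith
    · rw [Nat.sub_eq_zero_of_le h, add_zero, Nat.cast_sub h, abs_of_nonneg]
      have : (pv : ℝ) ≤ pu := by exact_mod_cast h
      linarith
  rw [e, hd]
  have g1 : |2 ^ 30 * p.re| ≤ (px : ℝ) + 2 := by
    have : 2 ^ 30 * p.re = (px : ℝ) - ((px : ℝ) - 2 ^ 30 * p.re) := by ring
    rw [this]
    refine (abs_sub _ _).trans ?_
    rw [abs_of_nonneg (Nat.cast_nonneg px)]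
    linarith
  have g2 : |2 ^ 30 * p.im| ≤ |(pu : ℝ) - pv| + 2 := by
    have : 2 ^ 30 * p.im = ((pu : ℝ) - pv) - (((pu : ℝ) - pv) - 2 ^ 30 * p.im) := by ring
    rw [this]
    refine (abs_sub _ _).trans ?_
    linarith
  have q1 : (2 ^ 30 * p.re) ^ 2 ≤ ((px : ℝ) + 2) ^ 2 := by
    rw [← sq_abs]
    exact pow_le_pow_left₀ (abs_nonneg _) g1 2
  have q2 : (2 ^ 30 * p.im) ^ 2 ≤ (|(pu : ℝ) - pv| + 2) ^ 2 := by
    rw [← sq_abs (2 ^ 30 * p.im)]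
    exact pow_le_pow_left₀ (abs_nonneg _) g2 2
  nlinarith

theorem norm_sq' (p : ℂ) : ‖p‖ ^ 2 = p.re ^ 2 + p.im ^ 2 := by
  rw [← Complex.normSq_eq_norm_sq, Complex.normSq_apply]
  ring

theorem pN_ge {P2 : ℕ} {p : ℂ} (h : (2 ^ 30 * p.re) ^ 2 + (2 ^ 30 * p.im) ^ 2 ≤ (P2 : ℝ)) :
    2 ^ 30 * ‖p‖ ≤ (pN P2 : ℝ) := by
  have e : pN P2 = 1 + (1 + P2 / 2 ^ 30 + 1073741824) / 2 := by
    unfold pN
    rw [shr]
    rfl
  have h1 : (P2 : ℝ) / 2 ^ 30 ≤ ((1 + P2 / 2 ^ 30 : ℕ) : ℝ) := by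
    rw [div_le_iff₀ (by norm_num)]
    have : P2 ≤ (1 + P2 / 2 ^ 30) * 2 ^ 30 := by omega
    exact_mod_cast this
  have h2 : ((1 + P2 / 2 ^ 30 + 1073741824 : ℕ) : ℝ) / 2 ≤
      ((1 + (1 + P2 / 2 ^ 30 + 1073741824) / 2 : ℕ) : ℝ) := by
    rw [div_le_iff₀ (by norm_num)]
    have : (1 + P2 / 2 ^ 30 + 1073741824) ≤ (1 + (1 + P2 / 2 ^ 30 + 1073741824) / 2) * 2 := by
      omega
    exact_mod_cast this
  rw [e]
  refine le_trans ?_ h2
  have h3 : 2 ^ 60 * ‖p‖ ^ 2 ≤ (P2 : ℝ) := by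
    rw [norm_sq']
    nlinarith
  have h4 : 2 ^ 30 * ‖p‖ ^ 2 ≤ (P2 : ℝ) / 2 ^ 30 := by
    rw [le_div_iff₀ (by norm_num)]
    nlinarith
  have h5 : ((1 + P2 / 2 ^ 30 + 1073741824 : ℕ) : ℝ) =
      ((1 + P2 / 2 ^ 30 : ℕ) : ℝ) + 1073741824 := by push_cast; ring
  rw [h5]
  nlinarith [sq_nonneg (‖p‖ - 1)]

theorem sqK_ge (K : ℕ) : 2 ^ 20 * Real.sqrt (1 + ((K : ℝ) / 1024) ^ 2) ≤ (sqK K : ℝ) := by
  have e : sqK K = 1 + (1 + (1048576 + K * K) * 2048 / (2048 + K) + (2048 + K) * 512) / 2 := rfl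
  set A : ℕ := (1048576 + K * K) * 2048 / (2048 + K) with hA
  have hK : (0 : ℝ) < 2048 + K := by positivity
  have h1 : ((1048576 + K * K) * 2048 : ℝ) / (2048 + K) ≤ ((1 + A : ℕ) : ℝ) := by
    rw [div_le_iff₀ hK]
    have : (1048576 + K * K) * 2048 ≤ (1 + A) * (2048 + K) := by
      have := Nat.lt_mul_div_succ ((1048576 + K * K) * 2048) (show 0 < 2048 + K by omega)
      rw [← hA] at this
      nlinarith
    exact_mod_cast this
  have h2 : ((1 + A + (2048 + K) * 512 : ℕ) : ℝ) / 2 ≤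
      ((1 + (1 + A + (2048 + K) * 512) / 2 : ℕ) : ℝ) := by
    rw [div_le_iff₀ (by norm_num)]
    have : (1 + A + (2048 + K) * 512) ≤ (1 + (1 + A + (2048 + K) * 512) / 2) * 2 := by
      omega
    exact_mod_cast this
  rw [e]
  refine le_trans ?_ h2
  have h5 : ((1 + A + (2048 + K) * 512 : ℕ) : ℝ) = ((1 + A : ℕ) : ℝ) + (2048 + K) * 512 := by
    push_cast; ring
  rw [h5]
  set z : ℝ := 1 + ((K : ℝ) / 1024) ^ 2 with hz
  set t : ℝ := Real.sqrt z with ht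
  have hz0 : 0 ≤ z := by positivity
  have ht2 : t ^ 2 = z := Real.sq_sqrt hz0
  have h6 : ((1048576 + K * K) * 2048 : ℝ) / (2048 + K) = 2 ^ 31 * t ^ 2 / (2048 + K) := by
    rw [ht2, hz]
    congr 1
    ring
  rw [h6] at h1
  have h7 : 2 ^ 21 * t - (2048 + (K : ℝ)) * 512 ≤ 2 ^ 31 * t ^ 2 / (2048 + K) := by
    rw [le_div_iff₀ hK]
    nlinarith [sq_nonneg (2 ^ 11 * t - (2048 + (K : ℝ)))]
  linarith

/-! ### The constants of LCH -/

theorem eta_ge {b1 b2 da K P2 : ℕ} {p : ℂ} {d : ℝ} (hd : d = (da : ℝ) / 1024)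
    (h : (2 ^ 30 * p.re) ^ 2 + (2 ^ 30 * p.im) ^ 2 ≤ (P2 : ℝ)) :
    10 * Real.sqrt (1 + ((K : ℝ) / 1024) ^ 2) * ((b1 : ℝ) / 256 * ((b2 : ℝ) / 256) +
      ((b1 : ℝ) / 256 + (b2 : ℝ) / 256) * ‖p‖ / 4) * d ^ 2 / 8 ≤
    (eta b1 b2 da K P2 : ℝ) / 2 ^ 78 := by
  have hp := pN_ge h
  have hk := sqK_ge K
  have e : eta b1 b2 da K P2 = 1 + (10 * sqK K * (b1 * b2 * 2 ^ 30 + (b1 + b2) * pN P2 * 64) *
      (da * da)) / 2 ^ 11 := by
    unfold eta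
    rw [shr, shl]
    rfl
  set X : ℕ := b1 * b2 * 2 ^ 30 + (b1 + b2) * pN P2 * 64 with hX
  set Y : ℕ := 10 * sqK K * X * (da * da) with hY
  have h1 : (Y : ℝ) / 2 ^ 11 ≤ ((1 + Y / 2 ^ 11 : ℕ) : ℝ) := by
    rw [div_le_iff₀ (by norm_num)]
    have : Y ≤ (1 + Y / 2 ^ 11) * 2 ^ 11 := by omega
    exact_mod_cast this
  rw [e]
  have h2 : (Y : ℝ) / 2 ^ 11 / 2 ^ 78 ≤ ((1 + Y / 2 ^ 11 : ℕ) : ℝ) / 2 ^ 78 :=
    div_le_div_of_nonneg_right h1 (by norm_num)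
  refine le_trans ?_ h2
  have hXr : (b1 : ℝ) / 256 * ((b2 : ℝ) / 256) + ((b1 : ℝ) / 256 + (b2 : ℝ) / 256) * ‖p‖ / 4 ≤
      (X : ℝ) / 2 ^ 46 := by
    rw [hX]
    push_cast
    rw [le_div_iff₀ (by norm_num)]
    have hb : 0 ≤ ((b1 : ℝ) + b2) := by positivity
    nlinarith [mul_le_mul_of_nonneg_left hp hb]
  have hs : 10 * Real.sqrt (1 + ((K : ℝ) / 1024) ^ 2) ≤ 10 * ((sqK K : ℝ) / 2 ^ 20) := by
    refine mul_le_mul_of_nonneg_left ?_ (by norm_num)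
    rw [le_div_iff₀ (by norm_num)]
    linarith
  have hn : 0 ≤ (b1 : ℝ) / 256 * ((b2 : ℝ) / 256) + ((b1 : ℝ) / 256 + (b2 : ℝ) / 256) * ‖p‖ / 4 := by
    positivity
  have hm := mul_le_mul hs hXr hn (by positivity)
  have hm2 := mul_le_mul_of_nonneg_right hm (show (0 : ℝ) ≤ d ^ 2 / 8 by positivity)
  have e2 : (Y : ℝ) / 2 ^ 11 / 2 ^ 78 = 10 * ((sqK K : ℝ) / 2 ^ 20) * ((X : ℝ) / 2 ^ 46) * (d ^ 2 / 8) := by
    rw [hY, hd]
    push_cast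
    ring
  rw [e2]
  refine le_trans (le_of_eq ?_) hm2
  ring

theorem kOk_real (hCOS : SpecCOS) {a1 a2 al0 K : ℕ} (h0 : 512 ≤ al0) (h1 : al0 ≤ 1024)
    (h : kOk a1 a2 al0 K = true) :
    4 ≤ (((K : ℝ) / 1024) ^ 2 + 1) * (((a1 : ℝ) / 256) ^ 2 + ((a2 : ℝ) / 256) ^ 2 -
      2 * ((a1 : ℝ) / 256) * ((a2 : ℝ) / 256) * Real.cos (π * ((al0 : ℝ) / 1024))) := by
  have h' : 295147905179352825856 ≤ (K * K + 1048576) * l2 a1 a2 al0 := (bleN _ _).mp h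
  have e : l2 a1 a2 al0 = (a1 * a1 + a2 * a2) * 2 ^ 30 + 2 * (a1 * a2) * (cT (2048 - 2 * al0) - 2) := by
    unfold l2
    rw [shl]
    rfl
  have hc : ((cT (2048 - 2 * al0) - 2 : ℕ) : ℝ) ≤
      -(2 ^ 30 * Real.cos (π * ((al0 : ℝ) / 1024))) := by
    have g := cC hCOS h0 h1
    have g2 := (abs_le.mp g).2
    rcases le_total 2 (cT (2048 - 2 * al0)) with g3 | g3
    · rw [Nat.cast_sub g3]
      push_cast
      linarith
    · rw [Nat.sub_eq_zero_of_le g3, Nat.cast_zero]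
      have hcos : Real.cos (π * ((al0 : ℝ) / 1024)) ≤ 0 := by
        apply Real.cos_nonpos_of_pi_div_two_le_of_le
        · have : (512 : ℝ) ≤ al0 := by exact_mod_cast h0
          nlinarith [Real.pi_pos]
        · have : (al0 : ℝ) ≤ 1024 := by exact_mod_cast h1
          nlinarith [Real.pi_pos]
      nlinarith
  rw [e] at h'
  set c' : ℕ := cT (2048 - 2 * al0) - 2 with hc'
  have h2 : (295147905179352825856 : ℝ) ≤
      ((K : ℝ) * K + 1048576) * (((a1 : ℝ) * a1 + a2 * a2) * 2 ^ 30 + 2 * (a1 * a2) * c') := by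
    exact_mod_cast h'
  set q : ℝ := Real.cos (π * ((al0 : ℝ) / 1024)) with hq
  have h3 : 2 * ((a1 : ℝ) * a2) * c' ≤ 2 * ((a1 : ℝ) * a2) * (-(2 ^ 30 * q)) :=
    mul_le_mul_of_nonneg_left hc (by positivity)
  have h4 : (((a1 : ℝ) * a1 + a2 * a2) * 2 ^ 30 + 2 * (a1 * a2) * c') ≤
      2 ^ 46 * (((a1 : ℝ) / 256) ^ 2 + ((a2 : ℝ) / 256) ^ 2 -
      2 * ((a1 : ℝ) / 256) * ((a2 : ℝ) / 256) * q) := by
    have : 2 ^ 46 * (((a1 : ℝ) / 256) ^ 2 + ((a2 : ℝ) / 256) ^ 2 -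
      2 * ((a1 : ℝ) / 256) * ((a2 : ℝ) / 256) * q) =
      ((a1 : ℝ) * a1 + a2 * a2) * 2 ^ 30 + 2 * ((a1 : ℝ) * a2) * (-(2 ^ 30 * q)) := by ring
    rw [this]
    linarith
  have h5 := mul_le_mul_of_nonneg_left h4 (show (0 : ℝ) ≤ (K : ℝ) * K + 1048576 by positivity)
  have h6 : ((K : ℝ) * K + 1048576) * (2 ^ 46 * (((a1 : ℝ) / 256) ^ 2 + ((a2 : ℝ) / 256) ^ 2 -
      2 * ((a1 : ℝ) / 256) * ((a2 : ℝ) / 256) * q)) =
      2 ^ 66 * ((((K : ℝ) / 1024) ^ 2 + 1) * (((a1 : ℝ) / 256) ^ 2 + ((a2 : ℝ) / 256) ^ 2 -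
      2 * ((a1 : ℝ) / 256) * ((a2 : ℝ) / 256) * q)) := by ring
  rw [h6] at h5
  have h7 : (295147905179352825856 : ℝ) = 2 ^ 66 * 4 := by norm_num
  rw [h7] at h2
  exact le_of_mul_le_mul_left (h2.trans h5) (by norm_num)

/-! ### The vertex condition of LCH -/

theorem ee_re (u : ℝ) : (ee u).re = Real.cos (π * u) := by
  unfold ee
  exact Complex.exp_ofReal_mul_I_re _

theorem ee_im (u : ℝ) : (ee u).im = Real.sin (π * u) := by
  unfold ee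
  exact Complex.exp_ofReal_mul_I_im _

theorem vertex (hCOS : SpecCOS) {a1 b1 a2 b2 da K px pu pv al : ℕ} {p : ℂ}
    (h0 : 512 ≤ al) (h1 : al ≤ 1024) (hab1 : a1 ≤ b1) (hab2 : a2 ≤ b2)
    (hx : |(px : ℝ) - 2 ^ 30 * p.re| ≤ 2) (hy : |((pu : ℝ) - pv) - 2 ^ 30 * p.im| ≤ 2)
    (h : vxB a1 b1 a2 b2 K (lR b1 b2 da K px pu pv) px pu pv al = true)
    {r1 r2 : ℕ} (hr1 : r1 = a1 ∨ r1 = b1) (hr2 : r2 = a2 ∨ r2 = b2) {σ : ℝ} (hσ : σ = 1 ∨ σ = -1) :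
    (r1 : ℝ) / 256 * ((r2 : ℝ) / 256) * (Real.cos (π * ((al : ℝ) / 1024)) +
        σ * ((K : ℝ) / 1024) * Real.sin (π * ((al : ℝ) / 1024))) -
      (r1 : ℝ) / 256 * (dot (ee (-((al : ℝ) / 1024 / 2))) p +
        σ * ((K : ℝ) / 1024) * crs (ee (-((al : ℝ) / 1024 / 2))) p) -
      (r2 : ℝ) / 256 * (dot (ee ((al : ℝ) / 1024 / 2)) p +
        σ * ((K : ℝ) / 1024) * crs p (ee ((al : ℝ) / 1024 / 2))) + ‖p‖ ^ 2 +
      (eta b1 b2 da K (p2 px (dst pu pv)) : ℝ) / 2 ^ 78 < 0 := by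
  have h' : vxA a1 b1 a2 b2 K (lR b1 b2 da K px pu pv) (cT (2048 - 2 * al)) (cT (2 * al - 1024))
      (Nat.mul (cT al) px) (Nat.mul (cT (1024 - al)) px) (Nat.mul (cT al) pu) (Nat.mul (cT al) pv)
      (Nat.mul (cT (1024 - al)) pu) (Nat.mul (cT (1024 - al)) pv) = true := h
  have g := vxA_real h' hr1 hr2 hσ
  have eR : (lR b1 b2 da K px pu pv : ℝ) = (p2 px (dst pu pv) : ℝ) * 2 ^ 18 +
      (eta b1 b2 da K (p2 px (dst pu pv)) : ℝ) + (1024 + (K : ℝ)) * ((b1 : ℝ) * b2 * 2 ^ 23 +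
      ((b1 : ℝ) + b2) * (2 * (2 ^ 31 + ((px : ℝ) + (pu + pv))) + 32)) := by
    have e : lR b1 b2 da K px pu pv = p2 px (dst pu pv) * 2 ^ 18 +
        eta b1 b2 da K (p2 px (dst pu pv)) + (1024 + K) * (b1 * b2 * 2 ^ 23 +
        (b1 + b2) * (2 * (2147483648 + (px + (pu + pv))) + 32)) := by
      unfold lR erV
      rw [shl, shl]
      rfl
    rw [e]
    push_cast
    ring
  rw [eR] at g
  have hR1 : (r1 : ℝ) ≤ b1 := by
    rcases hr1 with rfl | rfl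
    · exact_mod_cast hab1
    · exact le_rfl
  have hR2 : (r2 : ℝ) ≤ b2 := by
    rcases hr2 with rfl | rfl
    · exact_mod_cast hab2
    · exact le_rfl
  have hτ : |σ * (K : ℝ)| ≤ K := by
    rcases hσ with rfl | rfl
    · rw [one_mul, abs_of_nonneg (Nat.cast_nonneg _)]
    · rw [neg_one_mul, abs_neg, abs_of_nonneg (Nat.cast_nonneg _)]
  have hcs : |(cT al : ℝ)| + |(cT (1024 - al) : ℝ)| ≤ 2 ^ 31 + 4 := by
    have t1 := cT_abs hCOS h1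
    have t2 := cT_abs hCOS (show 1024 - al ≤ 1024 by omega)
    linarith
  have hxy : |(px : ℝ)| + |(pu : ℝ) - pv| ≤ (px : ℝ) + (pu + pv) := by
    rw [abs_of_nonneg (Nat.cast_nonneg px)]
    have t : |(pu : ℝ) - pv| ≤ pu + pv := by
      refine (abs_sub _ _).trans ?_
      rw [abs_of_nonneg (Nat.cast_nonneg pu), abs_of_nonneg (Nat.cast_nonneg pv)]
    linarith
  have key := vert_real (R1 := (r1 : ℝ)) (R2 := (r2 : ℝ)) (B1 := (b1 : ℝ)) (B2 := (b2 : ℝ))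
    (K := (K : ℝ)) (τ := σ * K) (et := (eta b1 b2 da K (p2 px (dst pu pv)) : ℝ))
    (Nat.cast_nonneg _) (Nat.cast_nonneg _) hR1 hR2 (Nat.cast_nonneg _) hτ (cC hCOS h0 h1)
    (cD hCOS h0 h1) (cc hCOS h1) (cs' hCOS h1) hx hy hcs hxy (p2_ge hx hy) (by linarith [g])
  set al' : ℝ := (al : ℝ) / 1024 with hal
  unfold dot crs
  rw [ee_re, ee_im, ee_re, ee_im, norm_sq', mul_neg, Real.cos_neg, Real.sin_neg]
  have e2 : (r1 : ℝ) / 256 * ((r2 : ℝ) / 256) * (Real.cos (π * al') +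
        σ * ((K : ℝ) / 1024) * Real.sin (π * al')) -
      (r1 : ℝ) / 256 * (Real.cos (π * (al' / 2)) * p.re + -Real.sin (π * (al' / 2)) * p.im +
        σ * ((K : ℝ) / 1024) * (Real.cos (π * (al' / 2)) * p.im - -Real.sin (π * (al' / 2)) * p.re)) -
      (r2 : ℝ) / 256 * (Real.cos (π * (al' / 2)) * p.re + Real.sin (π * (al' / 2)) * p.im +
        σ * ((K : ℝ) / 1024) * (p.re * Real.sin (π * (al' / 2)) - p.im * Real.cos (π * (al' / 2)))) +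
      (p.re ^ 2 + p.im ^ 2) + (eta b1 b2 da K (p2 px (dst pu pv)) : ℝ) / 2 ^ 78 =
      ((r1 : ℝ) * r2 * (σ * K * (2 ^ 30 * Real.sin (π * al')) * 2 ^ 22 -
          -(2 ^ 30 * Real.cos (π * al')) * 2 ^ 32) -
        r1 * (1024 * (2 ^ 30 * Real.cos (π * (al' / 2)) * (2 ^ 30 * p.re) -
            2 ^ 30 * Real.sin (π * (al' / 2)) * (2 ^ 30 * p.im)) +
          σ * K * (2 ^ 30 * Real.cos (π * (al' / 2)) * (2 ^ 30 * p.im) +
            2 ^ 30 * Real.sin (π * (al' / 2)) * (2 ^ 30 * p.re))) -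
        r2 * (1024 * (2 ^ 30 * Real.cos (π * (al' / 2)) * (2 ^ 30 * p.re) +
            2 ^ 30 * Real.sin (π * (al' / 2)) * (2 ^ 30 * p.im)) +
          σ * K * (2 ^ 30 * Real.sin (π * (al' / 2)) * (2 ^ 30 * p.re) -
            2 ^ 30 * Real.cos (π * (al' / 2)) * (2 ^ 30 * p.im))) +
        ((2 ^ 30 * p.re) ^ 2 + (2 ^ 30 * p.im) ^ 2) * 2 ^ 18 +
        (eta b1 b2 da K (p2 px (dst pu pv)) : ℝ)) / 2 ^ 78 := by ring
  rw [e2]
  exact div_neg_of_neg_of_pos key (by norm_num)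

end LNIM

open LNIM in
/-- LNI -/
theorem LNI (h₁ : SpecCOS) (h₂ : SpecLCH) : SpecLNI := by
  intro a1 b1 a2 b2 al0 al1 K px pu pv p hbox hk hpx hpy hl
  have hb : ((Nat.ble 1 a1 && Nat.ble a1 b1) && ((Nat.ble 1 a2 && Nat.ble a2 b2) &&
      (Nat.ble 512 al0 && (Nat.ble al0 al1 && Nat.ble al1 1024)))) = true := hbox
  simp only [Bool.and_eq_true, Nat.ble_eq] at hb
  obtain ⟨⟨ha1, hab1⟩, ⟨ha2, hab2⟩, h512, h01, h1024⟩ := hb
  have hl' : (vxB a1 b1 a2 b2 K (lR b1 b2 (al1 - al0) K px pu pv) px pu pv al0 &&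
      vxB a1 b1 a2 b2 K (lR b1 b2 (al1 - al0) K px pu pv) px pu pv al1) = true := hl
  rw [Bool.and_eq_true] at hl'
  have c1 : (1 : ℝ) ≤ a1 := by exact_mod_cast ha1
  have c2 : (1 : ℝ) ≤ a2 := by exact_mod_cast ha2
  have c3 : (a1 : ℝ) ≤ b1 := by exact_mod_cast hab1
  have c4 : (a2 : ℝ) ≤ b2 := by exact_mod_cast hab2
  have c5 : (512 : ℝ) ≤ al0 := by exact_mod_cast h512
  have c6 : (al0 : ℝ) ≤ al1 := by exact_mod_cast h01
  have c7 : (al1 : ℝ) ≤ 1024 := by exact_mod_cast h1024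
  refine h₂ (bx a1 b1 a2 b2 al0 al1) ((K : ℝ) / 1024)
    ((eta b1 b2 (al1 - al0) K (p2 px (dst pu pv)) : ℝ) / 2 ^ 78) p (by positivity) ?_ ?_ ?_ ?_ ?_ ?_ ?_
    ?_ ?_ ?_
  · show 0 < (a1 : ℝ) / 256
    linarith
  · show (a1 : ℝ) / 256 ≤ (b1 : ℝ) / 256
    linarith
  · show 0 < (a2 : ℝ) / 256
    linarith
  · show (a2 : ℝ) / 256 ≤ (b2 : ℝ) / 256
    linarith
  · show 1 / 2 ≤ (al0 : ℝ) / 1024
    linarith
  · show (al0 : ℝ) / 1024 ≤ (al1 : ℝ) / 1024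
    linarith
  · show (al1 : ℝ) / 1024 ≤ 1
    linarith
  · exact kOk_real h₁ h512 (by omega) hk
  · refine eta_ge (b1 := b1) (b2 := b2) (K := K) ?_ (p2_ge hpx hpy)
    show (al1 : ℝ) / 1024 - (al0 : ℝ) / 1024 = ((al1 - al0 : ℕ) : ℝ) / 1024
    rw [Nat.cast_sub h01]
    ring
  · intro r₁ r₂ α σ hr1 hr2 hα hσ
    have hr1' : ∃ r : ℕ, (r = a1 ∨ r = b1) ∧ r₁ = (r : ℝ) / 256 := by
      rcases hr1 with h | h
      · exact ⟨a1, Or.inl rfl, h⟩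
      · exact ⟨b1, Or.inr rfl, h⟩
    have hr2' : ∃ r : ℕ, (r = a2 ∨ r = b2) ∧ r₂ = (r : ℝ) / 256 := by
      rcases hr2 with h | h
      · exact ⟨a2, Or.inl rfl, h⟩
      · exact ⟨b2, Or.inr rfl, h⟩
    obtain ⟨s1, hs1, rfl⟩ := hr1'
    obtain ⟨s2, hs2, rfl⟩ := hr2'
    rcases hα with h | h
    · have h' : α = (al0 : ℝ) / 1024 := h
      rw [h']
      exact vertex h₁ h512 (by omega) hab1 hab2 hpx hpy hl'.1 hs1 hs2 hσ
    · have h' : α = (al1 : ℝ) / 1024 := h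
      rw [h']
      exact vertex h₁ (by omega) h1024 hab1 hab2 hpx hpy hl'.2 hs1 hs2 hσ

end Pool.Agent.Lib.MP250511.ST.Chk
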