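import Pool.Agent.Lib.MP_250511_an.ST.Spec

/-!
Problem MP_250511_an, Q2: the lens of two points.
-/

set_option autoImplicit false

namespace Pool.Agent.Lib.MP250511.ST

open Complex Metric Set MeasureTheory Filter Topology
open scoped Real ENNReal

namespace LNSM

/-- The lens inequality in coordinates. -/
theorem lens (a1 a2 b1 b2 p1 p2 r κ : ℝ) (hr : 0 < r) (hr1 : r ≤ 1)
    (ha : a1 ^ 2 + a2 ^ 2 = r ^ 2) (hb : b1 ^ 2 + b2 ^ 2 = r ^ 2) (hk : 0 ≤ κ)
    (h4 : 4 ≤ (κ ^ 2 + 1) * ((a1 - b1) ^ 2 + (a2 - b2) ^ 2))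
    (hD : ((a1 - p1) * (b1 - p1) + (a2 - p2) * (b2 - p2)) +
      κ * |(a1 - p1) * (b2 - p2) - (a2 - p2) * (b1 - p1)| < 0) : p1 ^ 2 + p2 ^ 2 < r ^ 2 := by
  set L := (a1 - b1) ^ 2 + (a2 - b2) ^ 2 with hL
  have hLpos : 0 < L := by
    by_contra h
    have h0 : L = 0 := le_antisymm (not_lt.mp h) (by positivity)
    rw [h0, mul_zero] at h4
    linarith
  -- `a + b = s * J (b - a)`
  set s := ((a2 + b2) * (b1 - a1) - (a1 + b1) * (b2 - a2)) / L with hs
  have hsL : s * L = (a2 + b2) * (b1 - a1) - (a1 + b1) * (b2 - a2) := by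
    rw [hs]
    field_simp
  have hab : (a1 + b1) * (b1 - a1) + (a2 + b2) * (b2 - a2) = 0 := by linarith
  have e1 : a1 + b1 = -(s * (b2 - a2)) := by
    have h : (a1 + b1) * L = -(s * (b2 - a2)) * L := by
      have h' : -(s * (b2 - a2)) * L = -(b2 - a2) * (s * L) := by ring
      rw [h', hsL, hL]
      linear_combination (b1 - a1) * hab
    exact mul_right_cancel₀ hLpos.ne' h
  have e2 : a2 + b2 = s * (b1 - a1) := by
    have h : (a2 + b2) * L = (s * (b1 - a1)) * L := by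
      have h' : (s * (b1 - a1)) * L = (b1 - a1) * (s * L) := by ring
      rw [h', hsL, hL]
      linear_combination (b2 - a2) * hab
    exact mul_right_cancel₀ hLpos.ne' h
  have hM : (a1 + b1) ^ 2 + (a2 + b2) ^ 2 = s ^ 2 * L := by
    rw [e1, e2, hL]
    ring
  have hpar : (a1 + b1) ^ 2 + (a2 + b2) ^ 2 + L = 4 * r ^ 2 := by
    rw [hL]
    linear_combination 2 * ha + 2 * hb
  have hr2 : r ^ 2 ≤ 1 := by nlinarith
  have hsk : s ^ 2 ≤ κ ^ 2 := by
    have h : s ^ 2 * L ≤ κ ^ 2 * L := by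
      rw [← hM]
      nlinarith
    exact le_of_mul_le_mul_right h hLpos
  have habs : |s| ≤ κ := by
    rw [← abs_of_nonneg hk]
    exact sq_le_sq.mp hsk
  set C := (a1 - p1) * (b2 - p2) - (a2 - p2) * (b1 - p1) with hC
  have hX : p1 ^ 2 + p2 ^ 2 - r ^ 2 - ((a1 - p1) * (b1 - p1) + (a2 - p2) * (b2 - p2)) = s * C := by
    have hb1 : s * C = p1 * (a1 + b1) + p2 * (a2 + b2) - ((a1 + b1) ^ 2 + (a2 + b2) ^ 2) / 2 := by
      have h1 : s * C = (s * (b1 - a1)) * p2 - (s * (b2 - a2)) * p1 +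
          s * (a1 * b2 - a2 * b1) := by
        rw [hC]
        ring
      have h2 : s * (b2 - a2) = -(a1 + b1) := by linarith
      have h3 : s * (a1 * b2 - a2 * b1) = - ((a1 + b1) ^ 2 + (a2 + b2) ^ 2) / 2 := by
        have h4 : 2 * (a1 * b2 - a2 * b1) = (a1 + b1) * (b2 - a2) - (a2 + b2) * (b1 - a1) := by ring
        have h5 : 2 * (s * (a1 * b2 - a2 * b1)) =
            (a1 + b1) * (s * (b2 - a2)) - (a2 + b2) * (s * (b1 - a1)) := by
          linear_combination s * h4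
        rw [h2, ← e2] at h5
        linarith
      rw [h1, ← e2, h2, h3]
      ring
    rw [hb1]
    linear_combination (1 / 2) * ha + (1 / 2) * hb
  have hle : s * C ≤ κ * |C| := by
    calc s * C ≤ |s * C| := le_abs_self _
      _ = |s| * |C| := abs_mul _ _
      _ ≤ κ * |C| := mul_le_mul_of_nonneg_right habs (abs_nonneg _)
  linarith

end LNSM

open LNSM in
theorem specLNS : SpecLNS := by
  intro cs w₁ w₂ p r κ hr hr1 h1 h2 _ hk h4 hD
  have key : ∀ z : ℂ, ‖z‖ ^ 2 = z.re ^ 2 + z.im ^ 2 := by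
    intro z
    rw [← Complex.normSq_eq_norm_sq, Complex.normSq_apply]
    ring
  have ha : (w₁ - cs).re ^ 2 + (w₁ - cs).im ^ 2 = r ^ 2 := by rw [← key, h1]
  have hb : (w₂ - cs).re ^ 2 + (w₂ - cs).im ^ 2 = r ^ 2 := by rw [← key, h2]
  have h := lens (w₁ - cs).re (w₁ - cs).im (w₂ - cs).re (w₂ - cs).im (p - cs).re (p - cs).im r κ hr
    hr1 ha hb hk (by
      refine h4.trans (le_of_eq ?_)
      rw [key]
      simp only [Complex.sub_re, Complex.sub_im]
      ring) (by
      unfold dot crs at hD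
      simp only [Complex.sub_re, Complex.sub_im] at hD ⊢
      have e1 : (w₁.re - cs.re - (p.re - cs.re)) * (w₂.re - cs.re - (p.re - cs.re)) +
          (w₁.im - cs.im - (p.im - cs.im)) * (w₂.im - cs.im - (p.im - cs.im)) =
          (w₁.re - p.re) * (w₂.re - p.re) + (w₁.im - p.im) * (w₂.im - p.im) := by ring
      have e2 : (w₁.re - cs.re - (p.re - cs.re)) * (w₂.im - cs.im - (p.im - cs.im)) -
          (w₁.im - cs.im - (p.im - cs.im)) * (w₂.re - cs.re - (p.re - cs.re)) =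
          (w₁.re - p.re) * (w₂.im - p.im) - (w₁.im - p.im) * (w₂.re - p.re) := by ring
      rw [e1, e2]
      exact hD)
  rw [← key] at h
  exact lt_of_pow_lt_pow_left₀ 2 hr.le h

end Pool.Agent.Lib.MP250511.ST
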