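import Pool.Agent.Lib.MP_250511_an.ST.Spec5

/-! # Module LOG: a numerical constant -/

set_option autoImplicit false

namespace Pool.Agent.Lib.MP250511.ST.Chk

theorem LOG : SpecLOG := by
  unfold SpecLOG
  have h0 : (0 : ℝ) ≤ 496106000 / 2 ^ 30 := by positivity
  have h1 : (496106000 : ℝ) / 2 ^ 30 ≤ 1 := by norm_num
  have h := Real.exp_bound' h0 h1 (n := 10) (by norm_num)
  have h2 : Real.exp ((496106000 : ℝ) / 2 ^ 30) ≤ 100 / 63 := by
    refine h.trans ?_
    simp only [Finset.sum_range_succ, Finset.sum_range_zero, Nat.factorial]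
    norm_num
  rw [Real.exp_neg]
  have h3 : ((100 : ℝ) / 63)⁻¹ ≤ (Real.exp ((496106000 : ℝ) / 2 ^ 30))⁻¹ := inv_anti₀ (Real.exp_pos _) h2
  refine le_trans ?_ h3
  norm_num

end Pool.Agent.Lib.MP250511.ST.Chk
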