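import Pool.Agent.Lib.MP_250511_an.ST.Spec

/-!
# NEA: behaviour near `0`
-/

set_option autoImplicit false

namespace Pool.Agent.Lib.MP250511.ST

open Complex Metric Set MeasureTheory Filter Topology
open scoped Real ENNReal

namespace NEAM

/-- `f z = R z (1 + o(1))` -/
theorem linear {f : ℂ → ℂ} {R : ℝ} (h : Cmap f R) {κ : ℝ} (hκ : 0 < κ) :
    ∃ δ : ℝ, 0 < δ ∧ δ ≤ 1 ∧ ∀ z : ℂ, ‖z‖ < δ → ‖f z - R * z‖ ≤ κ * ‖z‖ := by
  have h0 : (0 : ℂ) ∈ ball (0 : ℂ) 1 := mem_ball_self one_pos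
  have hd : HasDerivAt f (R : ℂ) 0 := by
    rw [← h.der]
    exact (h.an 0 h0).differentiableAt.hasDerivAt
  have hlo := (hasDerivAt_iff_isLittleO.1 hd).def hκ
  rw [Metric.eventually_nhds_iff] at hlo
  obtain ⟨δ, hδ, hb⟩ := hlo
  refine ⟨min δ 1, lt_min hδ one_pos, min_le_right _ _, fun z hz => ?_⟩
  have := hb (y := z) (by
    rw [dist_zero_right]
    exact hz.trans_le (min_le_left _ _))
  simp only [h.zero, sub_zero, smul_eq_mul] at this
  rwa [mul_comm z] at this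

/-- the image of a small disc contains a disc -/
theorem image_open {f : ℂ → ℂ} {R : ℝ} (h : Cmap f R) {δ : ℝ} (hδ : 0 < δ) (hδ1 : δ ≤ 1) :
    ∃ η : ℝ, 0 < η ∧ ball (0 : ℂ) η ⊆ f '' ball 0 δ := by
  have hopen : IsOpen (f '' ball (0 : ℂ) δ) := by
    rcases h.an.is_constant_or_isOpen (convex_ball (0 : ℂ) 1).isPreconnected with ⟨w, hw⟩ | hop
    · exfalso
      have h0 : (0 : ℂ) ∈ ball (0 : ℂ) 1 := mem_ball_self one_pos
      have h1 : (1 / 2 : ℂ) ∈ ball (0 : ℂ) 1 := by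
        rw [mem_ball_zero_iff]
        norm_num
      have := h.inj h0 h1 (by rw [hw 0 h0, hw _ h1])
      norm_num at this
    · exact hop _ (ball_subset_ball hδ1) isOpen_ball
  have hmem : (0 : ℂ) ∈ f '' ball (0 : ℂ) δ := ⟨0, mem_ball_self hδ, h.zero⟩
  obtain ⟨η, hη, hs⟩ := Metric.isOpen_iff.1 hopen 0 hmem
  exact ⟨η, hη, hs⟩

end NEAM

open NEAM in
/-- NEA -/
theorem specNEA : SpecNEA := by
  intro f R h ε hε
  have hR := h.pos
  obtain ⟨κ, hκ⟩ : ∃ κ, κ = R * ε / (1 + ε) := ⟨_, rfl⟩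
  have h1ε : 0 < 1 + ε := by linarith
  have hκ0 : 0 < κ := by
    rw [hκ]
    positivity
  have hκ1 : κ * (1 + ε) = R * ε := by
    rw [hκ]
    field_simp
  obtain ⟨δ, hδ, hδ1, hlin⟩ := linear h hκ0
  obtain ⟨η, hη, hsub⟩ := image_open h hδ hδ1
  have hpre : ∀ z ∈ ball (0 : ℂ) 1, ‖f z‖ < η → ‖z‖ < δ := by
    intro z hz hfz
    obtain ⟨z', hz', e⟩ := hsub (mem_ball_zero_iff.2 hfz)
    have : z' = z := h.inj (ball_subset_ball hδ1 hz') hz e
    rw [← this]
    exact mem_ball_zero_iff.1 hz'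
  refine ⟨min η (R * δ), lt_min hη (mul_pos hR hδ), ?_, ?_, ?_⟩
  · intro w hw
    exact image_mono (ball_subset_ball hδ1)
      (hsub (mem_ball_zero_iff.2 (hw.trans_le (min_le_left _ _))))
  · intro z hz hfz
    have h1 := hlin z (hpre z hz (hfz.trans_le (min_le_left _ _)))
    have h2 : ‖(R : ℂ) * z‖ = R * ‖z‖ := by
      rw [norm_mul, Complex.norm_real, Real.norm_of_nonneg hR.le]
    have h3 : ‖(R : ℂ) * z‖ ≤ ‖f z‖ + ‖f z - R * z‖ := by
      have : (R : ℂ) * z = f z - (f z - R * z) := by ring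
      calc ‖(R : ℂ) * z‖ = ‖f z - (f z - R * z)‖ := by rw [← this]
        _ ≤ _ := norm_sub_le _ _
    rw [h2] at h3
    have h4 : (R - κ) * ‖z‖ ≤ ‖f z‖ := by linarith
    have h5 : (R - κ) * (1 + ε) = R := by linarith [hκ1, mul_comm R ε]
    rw [mul_div_assoc', le_div_iff₀ hR]
    have h6 := mul_le_mul_of_nonneg_left h4 h1ε.le
    calc ‖z‖ * R = (1 + ε) * ((R - κ) * ‖z‖) := by
          conv_lhs => rw [← h5]
          ring
      _ ≤ (1 + ε) * ‖f z‖ := h6
  · intro z hz t ht0 ht hfz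
    rcases le_or_gt 1 ε with h1 | h1
    · have : (1 - ε) * (t / R) ≤ 0 :=
        mul_nonpos_of_nonpos_of_nonneg (by linarith) (by positivity)
      exact this.trans (norm_nonneg z)
    · by_contra hcon
      push Not at hcon
      have hz1 : ‖z‖ * R < (1 - ε) * t := by
        rw [mul_div_assoc', lt_div_iff₀ hR] at hcon
        exact hcon
      have hz2 : ‖z‖ < δ := by
        have h2 : t < R * δ := ht.trans_le (min_le_right _ _)
        have h3 : (1 - ε) * t ≤ t := by nlinarith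
        nlinarith
      have h4 := hlin z hz2
      have h5 : ‖f z‖ ≤ R * ‖z‖ + κ * ‖z‖ := by
        have e : f z = (R : ℂ) * z + (f z - R * z) := by ring
        calc ‖f z‖ = ‖(R : ℂ) * z + (f z - R * z)‖ := by rw [← e]
          _ ≤ ‖(R : ℂ) * z‖ + ‖f z - R * z‖ := norm_add_le _ _
          _ ≤ _ := by
            rw [norm_mul, Complex.norm_real, Real.norm_of_nonneg hR.le]
            linarith
      -- `(R + κ) ‖z‖ < t`
      have h6 : (R + κ) * (1 - ε) ≤ R := by
        have : (R + κ) * (1 - ε) * (1 + ε) ≤ R * (1 + ε) := by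
          have : (R + κ) * (1 - ε) * (1 + ε) = (1 - ε) * (R * (1 + ε) + κ * (1 + ε)) := by ring
          rw [this, hκ1]
          nlinarith [mul_pos hR (mul_pos hε hε)]
        exact le_of_mul_le_mul_right this h1ε
      have h7 : (R + κ) * (‖z‖ * R) < (R + κ) * ((1 - ε) * t) :=
        mul_lt_mul_of_pos_left hz1 (by linarith)
      have h8 : (R + κ) * (1 - ε) * t ≤ R * t := mul_le_mul_of_nonneg_right h6 ht0.le
      have h9 : (R + κ) * ‖z‖ * R < t * R := by
        calc (R + κ) * ‖z‖ * R = (R + κ) * (‖z‖ * R) := by ring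
          _ < (R + κ) * ((1 - ε) * t) := h7
          _ = (R + κ) * (1 - ε) * t := by ring
          _ ≤ R * t := h8
          _ = t * R := mul_comm _ _
      have h10 : (R + κ) * ‖z‖ < t := lt_of_mul_lt_mul_right h9 hR.le
      linarith

end Pool.Agent.Lib.MP250511.ST
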