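import Pool.Agent.Lib.MP_250511_an.ST.Spec5

/-!
Problem MP_250511_an, Q2, part 5.  Module NTR: cosine and sine of a biased direction.
-/

set_option autoImplicit false

namespace Pool.Agent.Lib.MP250511.ST.Chk

open Complex Metric Set MeasureTheory Filter Topology
open scoped Real ENNReal

noncomputable section

namespace NTRM

theorem cast_dst (a b : ℕ) : ((dst a b : ℕ) : ℝ) = |(a : ℝ) - b| := by
  have h : dst a b = (a - b) + (b - a) := rfl
  rw [h]
  rcases le_total a b with hab | hab
  · have : (a : ℝ) ≤ b := by exact_mod_cast hab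
    rw [Nat.sub_eq_zero_of_le hab, zero_add, Nat.cast_sub hab, abs_of_nonpos (by linarith)]
    ring
  · have : (b : ℝ) ≤ a := by exact_mod_cast hab
    rw [Nat.sub_eq_zero_of_le hab, add_zero, Nat.cast_sub hab, abs_of_nonneg (by linarith)]

/-- the cosine for distances up to a full turn -/
theorem cpn (hCOS : SpecCOS) (d : ℕ) (hd : d ≤ 4096) :
    |((cp d : ℝ) - cn d) - 2 ^ 30 * Real.cos (π * (d : ℝ) / 2048)| ≤ 2 := by
  by_cases h1 : d ≤ 1024
  · have hb : Nat.ble d 1024 = true := Nat.ble_eq.mpr h1
    have e1 : cp d = cT d := by unfold cp; rw [hb, cond_true]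
    have e2 : cn d = 0 := by unfold cn; rw [hb, cond_true]
    rw [e1, e2, Nat.cast_zero, sub_zero]
    exact hCOS d h1
  · have hb : Nat.ble d 1024 = false := by
      cases hx : Nat.ble d 1024 with
      | false => rfl
      | true => exact absurd (Nat.ble_eq.mp hx) h1
    by_cases h2 : 3072 ≤ d
    · have hb2 : Nat.ble 3072 d = true := Nat.ble_eq.mpr h2
      have e1 : cp d = cT (4096 - d) := by
        unfold cp; rw [hb, cond_false, hb2, cond_true]; rfl
      have e2 : cn d = 0 := by unfold cn; rw [hb, cond_false, hb2, cond_true]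
      rw [e1, e2, Nat.cast_zero, sub_zero]
      have h3 := hCOS (4096 - d) (by omega)
      have h4 : Real.cos (π * ((4096 - d : ℕ) : ℝ) / 2048) = Real.cos (π * (d : ℝ) / 2048) := by
        rw [Nat.cast_sub hd, ← Real.cos_two_pi_sub (π * (d : ℝ) / 2048)]
        congr 1
        push_cast
        ring
      rw [h4] at h3
      exact h3
    · have hb2 : Nat.ble 3072 d = false := by
        cases hx : Nat.ble 3072 d with
        | false => rfl
        | true => exact absurd (Nat.ble_eq.mp hx) h2
      have e1 : cp d = 0 := by unfold cp; rw [hb, cond_false, hb2, cond_false]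
      have e2 : cn d = cT (dst d 2048) := by unfold cn; rw [hb, cond_false, hb2, cond_false]
      rw [e1, e2, Nat.cast_zero, zero_sub]
      have hdd : dst d 2048 ≤ 1024 := by
        have : dst d 2048 = (d - 2048) + (2048 - d) := rfl
        rw [this]; omega
      have h3 := hCOS (dst d 2048) hdd
      have h4 : Real.cos (π * ((dst d 2048 : ℕ) : ℝ) / 2048) = - Real.cos (π * (d : ℝ) / 2048) := by
        rw [cast_dst]
        have e3 : π * |(d : ℝ) - (2048 : ℕ)| / 2048 = |π * (d : ℝ) / 2048 - π| := by
          have : π * (d : ℝ) / 2048 - π = (π / 2048) * ((d : ℝ) - (2048 : ℕ)) := by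
            push_cast; ring
          rw [this, abs_mul, abs_of_pos (by positivity : (0 : ℝ) < π / 2048)]
          ring
        rw [e3, Real.cos_abs, Real.cos_sub_pi]
      rw [h4] at h3
      rw [← abs_neg]
      calc |-(-(cT (dst d 2048) : ℝ) - 2 ^ 30 * Real.cos (π * (d : ℝ) / 2048))|
          = |(cT (dst d 2048) : ℝ) - 2 ^ 30 * -Real.cos (π * (d : ℝ) / 2048)| := by
            congr 1; ring
        _ ≤ 2 := h3

end NTRM

open NTRM in
theorem specNTR (hCOS : SpecCOS) : SpecNTR := by
  intro k h1 h2
  have d1 : dst k 4096 ≤ 4096 := by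
    have : dst k 4096 = (k - 4096) + (4096 - k) := rfl
    rw [this]; omega
  have d2 : dst k 5120 ≤ 4096 := by
    have : dst k 5120 = (k - 5120) + (5120 - k) := rfl
    rw [this]; omega
  have c1 := cpn hCOS _ d1
  have c2 := cpn hCOS _ d2
  have e1 : Real.cos (π * ((dst k 4096 : ℕ) : ℝ) / 2048) =
      Real.cos (π * (((k : ℝ) - 4096) / 2048)) := by
    rw [cast_dst, ← Real.cos_abs (π * (((k : ℝ) - 4096) / 2048))]
    congr 1
    have : π * (((k : ℝ) - 4096) / 2048) = (π / 2048) * ((k : ℝ) - (4096 : ℕ)) := by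
      push_cast; ring
    rw [this, abs_mul, abs_of_pos (by positivity : (0 : ℝ) < π / 2048)]
    ring
  have e2 : Real.cos (π * ((dst k 5120 : ℕ) : ℝ) / 2048) =
      Real.sin (π * (((k : ℝ) - 4096) / 2048)) := by
    rw [cast_dst, ← Real.cos_sub_pi_div_two (π * (((k : ℝ) - 4096) / 2048)),
      ← Real.cos_abs (π * (((k : ℝ) - 4096) / 2048) - π / 2)]
    congr 1
    have : π * (((k : ℝ) - 4096) / 2048) - π / 2 = (π / 2048) * ((k : ℝ) - (5120 : ℕ)) := by
      push_cast; ring
    rw [this, abs_mul, abs_of_pos (by positivity : (0 : ℝ) < π / 2048)]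
    ring
  rw [e1] at c1
  rw [e2] at c2
  exact ⟨c1, c2⟩

end

end Pool.Agent.Lib.MP250511.ST.Chk
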