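import Pool.Agent.Lib.MP_250511_an.ST.Spec4

/-!
Problem MP_250511_an, Q2, part 4.  Module QRI: a checked query is a query (from TRG, HPM, LNI).
-/

set_option autoImplicit false

namespace Pool.Agent.Lib.MP250511.ST.Chk

open Complex Metric Set MeasureTheory Filter Topology
open scoped Real ENNReal

namespace QRIM

theorem ee_re (u : ℝ) : (ee u).re = Real.cos (π * u) := by
  unfold ee
  exact Complex.exp_ofReal_mul_I_re _

theorem ee_im (u : ℝ) : (ee u).im = Real.sin (π * u) := by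
  unfold ee
  exact Complex.exp_ofReal_mul_I_im _

theorem ee_norm (u : ℝ) : ‖ee u‖ = 1 := by
  unfold ee
  exact Complex.norm_exp_ofReal_mul_I _

/-! ### Products of approximate numbers -/

theorem prod_err {a b a' b' : ℝ} (h1 : |a - a'| ≤ 2) (h2 : |b - b'| ≤ 2) :
    |a * b - a' * b'| ≤ 2 * |a| + 2 * |b| + 4 := by
  have e : a * b - a' * b' = a * (b - b') + (a - a') * b' := by ring
  have hb : |b'| ≤ |b| + 2 := by
    have : b' = b - (b - b') := by ring
    rw [this]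
    exact (abs_sub _ _).trans (by linarith)
  rw [e]
  refine (abs_add_le _ _).trans ?_
  rw [abs_mul, abs_mul]
  have g1 : |a| * |b - b'| ≤ |a| * 2 := mul_le_mul_of_nonneg_left h2 (abs_nonneg a)
  have g2 : |a - a'| * |b'| ≤ 2 * |b'| := mul_le_mul_of_nonneg_right h1 (abs_nonneg _)
  linarith

theorem abs_dif (u v : ℕ) : |(u : ℝ) - v| ≤ (u : ℝ) + v := by
  have h1 : (0 : ℝ) ≤ u := Nat.cast_nonneg u
  have h2 : (0 : ℝ) ≤ v := Nat.cast_nonneg v
  rw [abs_le]
  constructor <;> linarith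

/-- the pair `(a, bu - bv)` approximates `2³⁰ z` -/
def Ap (a bu bv : ℕ) (z : ℂ) : Prop :=
  |(a : ℝ) - 2 ^ 30 * z.re| ≤ 2 ∧ |((bu : ℝ) - bv) - 2 ^ 30 * z.im| ≤ 2

theorem crP_pos {a bu bv c du dv : ℕ} {z w : ℂ} (hz : Ap a bu bv z) (hw : Ap c du dv w)
    (h : crP a bu bv c du dv = true) : 0 < crs z w := by
  have h1 : (2 * ((a + (bu + bv)) + (c + (du + dv))) + 9) + (a * dv + bu * c) ≤
      a * du + bv * c := Nat.le_of_ble_eq_true h
  have h2 : (2 * (((a : ℝ) + (bu + bv)) + (c + (du + dv))) + 9) + (a * dv + bu * c) ≤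
      (a : ℝ) * du + bv * c := by exact_mod_cast h1
  have e1 := prod_err hz.1 hw.2
  have e2 := prod_err hz.2 hw.1
  have f1 := abs_dif du dv
  have f2 := abs_dif bu bv
  rw [abs_of_nonneg (Nat.cast_nonneg a : (0 : ℝ) ≤ a)] at e1
  rw [abs_of_nonneg (Nat.cast_nonneg c : (0 : ℝ) ≤ c)] at e2
  have g1 := (abs_le.1 e1).2
  have g2 := (abs_le.1 e2).1
  have key : 0 < 2 ^ 60 * crs z w := by
    have : 2 ^ 60 * crs z w = (2 ^ 30 * z.re) * (2 ^ 30 * w.im) -
        (2 ^ 30 * z.im) * (2 ^ 30 * w.re) := by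
      unfold crs; ring
    rw [this]
    linarith
  exact pos_of_mul_pos_right key (by positivity)

theorem dtP_pos {a bu bv c du dv : ℕ} {z w : ℂ} (hz : Ap a bu bv z) (hw : Ap c du dv w)
    (h : dtP a bu bv c du dv = true) : 0 < dot z w := by
  have h1 : (2 * ((a + (bu + bv)) + (c + (du + dv))) + 9) + (bu * dv + bv * du) ≤
      a * c + (bu * du + bv * dv) := Nat.le_of_ble_eq_true h
  have h2 : (2 * (((a : ℝ) + (bu + bv)) + (c + (du + dv))) + 9) + (bu * dv + bv * du) ≤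
      (a : ℝ) * c + (bu * du + bv * dv) := by exact_mod_cast h1
  have e1 := prod_err hz.1 hw.1
  have e2 := prod_err hz.2 hw.2
  have f1 := abs_dif du dv
  have f2 := abs_dif bu bv
  rw [abs_of_nonneg (Nat.cast_nonneg a : (0 : ℝ) ≤ a),
    abs_of_nonneg (Nat.cast_nonneg c : (0 : ℝ) ≤ c)] at e1
  have g1 := (abs_le.1 e1).2
  have g2 := (abs_le.1 e2).2
  have key : 0 < 2 ^ 60 * dot z w := by
    have : 2 ^ 60 * dot z w = (2 ^ 30 * z.re) * (2 ^ 30 * w.re) +
        (2 ^ 30 * z.im) * (2 ^ 30 * w.im) := by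
      unfold dot; ring
    rw [this]
    linarith
  exact pos_of_mul_pos_right key (by positivity)

/-! ### Approximations -/

/-- the point `c + ee k` -/
theorem ap_point (hT : SpecTRG) {x yu yv k : ℕ} (hk : k ≤ 4096) (hx : pxOk x k = true) :
    Ap (pX x k) (pU yu k) (pV yv k)
      ((⟨(x : ℝ) / 512, ((yu : ℝ) - yv) / 512⟩ : ℂ) + ee (((k : ℝ) - 2048) / 2048)) := by
  obtain ⟨h1, h2⟩ := hT k hk
  have h3 : cn (dst k 2048) ≤ x * 2097152 + cp (dst k 2048) := Nat.le_of_ble_eq_true hx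
  have e1 : ((pX x k : ℕ) : ℝ) = (x : ℝ) * 2097152 + cp (dst k 2048) - cn (dst k 2048) := by
    have : pX x k = (x * 2097152 + cp (dst k 2048)) - cn (dst k 2048) := rfl
    rw [this, Nat.cast_sub h3]
    push_cast
    ring
  have e2 : ((pU yu k : ℕ) : ℝ) = (yu : ℝ) * 2097152 + cp (dst k 3072) := by
    have : pU yu k = yu * 2097152 + cp (dst k 3072) := rfl
    rw [this]
    push_cast
    ring
  have e3 : ((pV yv k : ℕ) : ℝ) = (yv : ℝ) * 2097152 + cn (dst k 3072) := by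
    have : pV yv k = yv * 2097152 + cn (dst k 3072) := rfl
    rw [this]
    push_cast
    ring
  constructor
  · rw [Complex.add_re, ee_re, e1]
    have : ((x : ℝ) * 2097152 + cp (dst k 2048) - cn (dst k 2048)) -
        2 ^ 30 * ((x : ℝ) / 512 + Real.cos (π * (((k : ℝ) - 2048) / 2048))) =
        ((cp (dst k 2048) : ℝ) - cn (dst k 2048)) -
          2 ^ 30 * Real.cos (π * (((k : ℝ) - 2048) / 2048)) := by ring
    show |((x : ℝ) * 2097152 + cp (dst k 2048) - cn (dst k 2048)) -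
        2 ^ 30 * ((x : ℝ) / 512 + Real.cos (π * (((k : ℝ) - 2048) / 2048)))| ≤ 2
    rw [this]
    exact h1
  · rw [Complex.add_im, ee_im, e2, e3]
    have : (((yu : ℝ) * 2097152 + cp (dst k 3072)) - ((yv : ℝ) * 2097152 + cn (dst k 3072))) -
        2 ^ 30 * (((yu : ℝ) - yv) / 512 + Real.sin (π * (((k : ℝ) - 2048) / 2048))) =
        ((cp (dst k 3072) : ℝ) - cn (dst k 3072)) -
          2 ^ 30 * Real.sin (π * (((k : ℝ) - 2048) / 2048)) := by ring
    show |(((yu : ℝ) * 2097152 + cp (dst k 3072)) - ((yv : ℝ) * 2097152 + cn (dst k 3072))) -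
        2 ^ 30 * (((yu : ℝ) - yv) / 512 + Real.sin (π * (((k : ℝ) - 2048) / 2048)))| ≤ 2
    rw [this]
    exact h2

/-- the unit vector in direction `u`, `1024 ≤ u ≤ 3072` -/
theorem ap_dir (hT : SpecTRG) {u : ℕ} (h1 : 1024 ≤ u) (h2 : u ≤ 3072) :
    Ap (cp (dst u 2048)) (cp (dst u 3072)) (cn (dst u 3072)) (ee (((u : ℝ) - 2048) / 2048)) := by
  obtain ⟨g1, g2⟩ := hT u (by omega)
  have hd : dst u 2048 ≤ 1024 := by
    show (u - 2048) + (2048 - u) ≤ 1024
    omega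
  have hn : cn (dst u 2048) = 0 := by
    unfold cn
    rw [Nat.ble_eq_true_of_le hd, cond_true]
  rw [hn, Nat.cast_zero, sub_zero] at g1
  constructor
  · rw [ee_re]; exact g1
  · rw [ee_im]; exact g2

/-- the number `dot P (c + P)` -/
theorem pf_pos (hT : SpecHPM) {x yu yv k : ℕ} (hk : k ≤ 4096) (h : hPos x yu yv k = true) :
    0 < dot (ee (((k : ℝ) - 2048) / 2048))
      ((⟨(x : ℝ) / 512, ((yu : ℝ) - yv) / 512⟩ : ℂ) + ee (((k : ℝ) - 2048) / 2048)) := by
  have h1 := hT x yu yv k hk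
  have h2 : hm x yu yv k + he x yu yv < hp x yu yv k := (blt_iff _ _).1 h
  have h3 : ((hm x yu yv k : ℕ) : ℝ) + ((he x yu yv : ℕ) : ℝ) < ((hp x yu yv k : ℕ) : ℝ) := by
    exact_mod_cast h2
  have h4 := (abs_le.1 h1).2
  have h5 : 0 < 1 + dot (⟨(x : ℝ) / 512, ((yu : ℝ) - yv) / 512⟩ : ℂ)
      (ee (((k : ℝ) - 2048) / 2048)) := by
    have : (0 : ℝ) < 2 ^ 39 * (1 + dot (⟨(x : ℝ) / 512, ((yu : ℝ) - yv) / 512⟩ : ℂ)
      (ee (((k : ℝ) - 2048) / 2048))) := by linarith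
    exact pos_of_mul_pos_right this (by positivity)
  have e : dot (ee (((k : ℝ) - 2048) / 2048))
      ((⟨(x : ℝ) / 512, ((yu : ℝ) - yv) / 512⟩ : ℂ) + ee (((k : ℝ) - 2048) / 2048)) =
      1 + dot (⟨(x : ℝ) / 512, ((yu : ℝ) - yv) / 512⟩ : ℂ) (ee (((k : ℝ) - 2048) / 2048)) := by
    unfold dot
    rw [Complex.add_re, Complex.add_im, ee_re, ee_im]
    have := Real.sin_sq_add_cos_sq (π * (((k : ℝ) - 2048) / 2048))
    linear_combination this
  rw [e]
  exact h5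

theorem bk_neg {kP kQ : ℕ} (_hP : kP ≤ 4096) (h : 2048 < (kQ + 8192 - kP) % 4096) :
    crs (ee (((kP : ℝ) - 2048) / 2048)) (ee (((kQ : ℝ) - 2048) / 2048)) < 0 := by
  set m := (kQ + 8192 - kP) % 4096 with hm
  set q := (kQ + 8192 - kP) / 4096 with hq
  have h1 : 4096 * q + m = kQ + 8192 - kP := Nat.div_add_mod _ _
  have h2 : 4096 * q + m + kP = kQ + 8192 := by omega
  have h3 : m < 4096 := Nat.mod_lt _ (by norm_num)
  have h4 : 4096 * (q : ℝ) + m + kP = kQ + 8192 := by exact_mod_cast h2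
  have h5 : (2048 : ℝ) < m := by exact_mod_cast h
  have h6 : (m : ℝ) < 4096 := by exact_mod_cast h3
  have e1 : crs (ee (((kP : ℝ) - 2048) / 2048)) (ee (((kQ : ℝ) - 2048) / 2048)) =
      Real.sin (π * (((kQ : ℝ) - 2048) / 2048) - π * (((kP : ℝ) - 2048) / 2048)) := by
    unfold crs
    rw [ee_re, ee_im, ee_re, ee_im, Real.sin_sub]
    ring
  have e2 : π * (((kQ : ℝ) - 2048) / 2048) - π * (((kP : ℝ) - 2048) / 2048) =
      (π * ((m : ℝ) / 2048) - 2 * π) + ((q : ℤ) - 1 : ℤ) * (2 * π) := by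
    have : (kQ : ℝ) = 4096 * (q : ℝ) + m + kP - 8192 := by linarith
    rw [this]
    push_cast
    ring
  rw [e1, e2, Real.sin_add_int_mul_two_pi]
  have hpi := Real.pi_pos
  apply Real.sin_neg_of_neg_of_neg_pi_lt
  · have : π * ((m : ℝ) / 2048) < π * 2 := by
      apply mul_lt_mul_of_pos_left _ hpi
      linarith
    linarith
  · have : π * 1 < π * ((m : ℝ) / 2048) := by
      apply mul_lt_mul_of_pos_left _ hpi
      linarith
    linarith

end QRIM

open QRIM in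
/-- QRI -/
theorem QRI (hTRG : SpecTRG) (hHPM : SpecHPM) (hLNI : SpecLNI) : SpecQRI := by
  intro a1 b1 a2 b2 al0 al1 x yu yv kP kQ K um up h
  have h' : (((boxOk a1 b1 a2 b2 al0 al1) && (Nat.ble kP 4096 && Nat.ble kQ 4096)) &&
      ((Nat.blt um up && (Nat.ble 2048 (um + al0) && Nat.ble up (2048 + al0))) &&
        ((Nat.blt 2048 ((kQ + 8192 - kP) % 4096) &&
            ((hPos x yu yv kP && hPos x yu yv kQ) && (pxOk x kP && pxOk x kQ))) &&
          (kOk a1 a2 al0 K &&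
            (qp a1 b1 a2 b2 al0 al1 K um up (pX x kP) (pU yu kP) (pV yv kP) (pX x kQ) (pU yu kQ)
              (pV yv kQ)))))) = true := h
  simp only [Bool.and_eq_true] at h'
  obtain ⟨⟨hbox, hkP, hkQ⟩, ⟨hlt, hlo, hhi⟩, ⟨hmod, ⟨hpP, hpQ⟩, hxP, hxQ⟩, hk, hqp⟩ := h'
  have hb : ((Nat.ble 1 a1 && Nat.ble a1 b1) && ((Nat.ble 1 a2 && Nat.ble a2 b2) &&
      (Nat.ble 512 al0 && (Nat.ble al0 al1 && Nat.ble al1 1024)))) = true := hbox
  simp only [Bool.and_eq_true, Nat.ble_eq] at hb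
  obtain ⟨⟨ha1, hab1⟩, ⟨ha2, hab2⟩, h512, h01, h1024⟩ := hb
  rw [Nat.ble_eq] at hkP hkQ hlo hhi
  rw [blt_iff] at hlt hmod
  have hq' : ((crP (pX x kP) (pU yu kP) (pV yv kP) (pX x kQ) (pU yu kQ) (pV yv kQ) &&
      ((crP (cp (dst um 2048)) (cp (dst um 3072)) (cn (dst um 3072)) (pX x kP) (pU yu kP)
            (pV yv kP) &&
          dtP (cp (dst um 2048)) (cp (dst um 3072)) (cn (dst um 3072)) (pX x kP) (pU yu kP)
            (pV yv kP)) &&
        (crP (pX x kQ) (pU yu kQ) (pV yv kQ) (cp (dst up 2048)) (cp (dst up 3072))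
            (cn (dst up 3072)) &&
          dtP (pX x kQ) (pU yu kQ) (pV yv kQ) (cp (dst up 2048)) (cp (dst up 3072))
            (cn (dst up 3072))))) &&
    (lens a1 b1 a2 b2 al0 al1 K (pX x kP) (pU yu kP) (pV yv kP) &&
      lens a1 b1 a2 b2 al0 al1 K (pX x kQ) (pU yu kQ) (pV yv kQ))) = true := hqp
  simp only [Bool.and_eq_true] at hq'
  obtain ⟨⟨hcn, ⟨hd1, hd2⟩, hd3, hd4⟩, hl1, hl2⟩ := hq'
  have hP := ap_point (x := x) (yu := yu) (yv := yv) hTRG hkP hxP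
  have hQ := ap_point (x := x) (yu := yu) (yv := yv) hTRG hkQ hxQ
  have hum := ap_dir (u := um) hTRG (by omega) (by omega)
  have hup := ap_dir (u := up) hTRG (by omega) (by omega)
  have c1 : (1 : ℝ) ≤ a1 := by exact_mod_cast ha1
  have c2 : (1 : ℝ) ≤ a2 := by exact_mod_cast ha2
  have c3 : (um : ℝ) < up := by exact_mod_cast hlt
  have c4 : (2048 : ℝ) ≤ (um : ℝ) + al0 := by exact_mod_cast hlo
  have c5 : (up : ℝ) ≤ 2048 + (al0 : ℝ) := by exact_mod_cast hhi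
  exact {
    k0 := by positivity
    a1 := by
      show 0 < (a1 : ℝ) / 256
      linarith
    a2 := by
      show 0 < (a2 : ℝ) / 256
      linarith
    pn := ee_norm _
    qn := ee_norm _
    pf := pf_pos hHPM hkP hpP
    qf := pf_pos hHPM hkQ hpQ
    bk := bk_neg hkP hmod
    cn := crP_pos hP hQ hcn
    lp := hLNI a1 b1 a2 b2 al0 al1 K _ _ _ _ hbox hk hP.1 hP.2 hl1
    lq := hLNI a1 b1 a2 b2 al0 al1 K _ _ _ _ hbox hk hQ.1 hQ.2 hl2
    lt := by linarith
    lo := by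
      show -((al0 : ℝ) / 1024 / 2) ≤ ((um : ℝ) - 2048) / 2048
      linarith
    hi := by
      show ((up : ℝ) - 2048) / 2048 ≤ (al0 : ℝ) / 1024 / 2
      linarith
    d1 := (crP_pos hum hP hd1).le
    d2 := dtP_pos hum hP hd2
    d3 := (crP_pos hQ hup hd3).le
    d4 := dtP_pos hQ hup hd4 }

end Pool.Agent.Lib.MP250511.ST.Chk
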