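import Pool.Agent.Lib.MP_250511_an.ST.Spec

/-!
# QRY: a query disc
-/

set_option autoImplicit false

namespace Pool.Agent.Lib.MP250511.ST

open Complex Metric Set MeasureTheory Filter Topology
open scoped Real ENNReal

namespace QRYM

/-- parts (ii)-(iv) in coordinates -/
theorem key (P1 P2 Q1 Q2 W1 W2 u v r : ℝ) (hP : P1 ^ 2 + P2 ^ 2 = 1) (hQ : Q1 ^ 2 + Q2 ^ 2 = 1)
    (hPQ : P1 * Q2 - P2 * Q1 < 0)
    (hD : (W1 - P1) * (Q2 - P2) - (W2 - P2) * (Q1 - P1) ≤ 0) (hW : W1 ^ 2 + W2 ^ 2 ≤ 1)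
    (hr0 : 0 < r) (hr1 : r ≤ 1) (hp : (P1 - u) ^ 2 + (P2 - v) ^ 2 < r ^ 2)
    (hq : (Q1 - u) ^ 2 + (Q2 - v) ^ 2 < r ^ 2) (hw : r ^ 2 ≤ (W1 - u) ^ 2 + (W2 - v) ^ 2) :
    False := by
  obtain ⟨s, hs⟩ : ∃ s, s = (W1 * Q2 - W2 * Q1) / (P1 * Q2 - P2 * Q1) := ⟨_, rfl⟩
  obtain ⟨t, ht⟩ : ∃ t, t = (P1 * W2 - P2 * W1) / (P1 * Q2 - P2 * Q1) := ⟨_, rfl⟩
  have hne : P1 * Q2 - P2 * Q1 ≠ 0 := hPQ.ne
  have e1 : W1 = s * P1 + t * Q1 := by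
    rw [hs, ht, div_mul_eq_mul_div, div_mul_eq_mul_div, ← add_div, eq_div_iff hne]
    ring
  have e2 : W2 = s * P2 + t * Q2 := by
    rw [hs, ht, div_mul_eq_mul_div, div_mul_eq_mul_div, ← add_div, eq_div_iff hne]
    ring
  clear hs ht
  subst e1 e2
  have hst : 1 ≤ s + t := by
    by_contra hcon
    push Not at hcon
    have : 0 < (s + t - 1) * (P1 * Q2 - P2 * Q1) := mul_pos_of_neg_of_neg (by linarith) hPQ
    nlinarith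
  have hdot : P1 * Q1 + P2 * Q2 < 1 := by
    have h1 : (P1 * Q1 + P2 * Q2) ^ 2 + (P1 * Q2 - P2 * Q1) ^ 2 = 1 := by
      have : (P1 * Q1 + P2 * Q2) ^ 2 + (P1 * Q2 - P2 * Q1) ^ 2 =
          (P1 ^ 2 + P2 ^ 2) * (Q1 ^ 2 + Q2 ^ 2) := by ring
      rw [this, hP, hQ, one_mul]
    have h2 : 0 < (P1 * Q2 - P2 * Q1) ^ 2 := by positivity
    nlinarith
  have hexp : (s * P1 + t * Q1) ^ 2 + (s * P2 + t * Q2) ^ 2 =
      (s + t) ^ 2 - 2 * (s * t) * (1 - (P1 * Q1 + P2 * Q2)) := by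
    have : (s * P1 + t * Q1) ^ 2 + (s * P2 + t * Q2) ^ 2 = s ^ 2 * (P1 ^ 2 + P2 ^ 2) +
        t ^ 2 * (Q1 ^ 2 + Q2 ^ 2) + 2 * (s * t) * (P1 * Q1 + P2 * Q2) := by ring
    rw [this, hP, hQ]
    ring
  have hsum : 1 ≤ (s + t) ^ 2 := by nlinarith
  have hstn : 0 ≤ s * t := by
    by_contra hcon
    push Not at hcon
    have : 0 < -(s * t) * (1 - (P1 * Q1 + P2 * Q2)) := mul_pos (by linarith) (by linarith)
    rw [hexp] at hW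
    nlinarith
  have hs0 : 0 ≤ s := by
    by_contra hcon
    push Not at hcon
    nlinarith
  have ht0 : 0 ≤ t := by
    by_contra hcon
    push Not at hcon
    nlinarith
  have hA : 0 ≤ u ^ 2 + v ^ 2 - r ^ 2 + 1 := by nlinarith [sq_nonneg u, sq_nonneg v]
  have hLp : u ^ 2 + v ^ 2 - r ^ 2 + 1 - 2 * (P1 * u + P2 * v) < 0 := by nlinarith
  have hLq : u ^ 2 + v ^ 2 - r ^ 2 + 1 - 2 * (Q1 * u + Q2 * v) < 0 := by nlinarith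
  have hLw : 0 ≤ u ^ 2 + v ^ 2 - r ^ 2 + 1 - 2 * ((s * P1 + t * Q1) * u + (s * P2 + t * Q2) * v) := by
    nlinarith
  have e3 : u ^ 2 + v ^ 2 - r ^ 2 + 1 - 2 * ((s * P1 + t * Q1) * u + (s * P2 + t * Q2) * v) =
      (u ^ 2 + v ^ 2 - r ^ 2 + 1) * (1 - s - t) +
      s * (u ^ 2 + v ^ 2 - r ^ 2 + 1 - 2 * (P1 * u + P2 * v)) +
      t * (u ^ 2 + v ^ 2 - r ^ 2 + 1 - 2 * (Q1 * u + Q2 * v)) := by ring
  rw [e3] at hLw
  have h1 : (u ^ 2 + v ^ 2 - r ^ 2 + 1) * (1 - s - t) ≤ 0 :=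
    mul_nonpos_of_nonneg_of_nonpos hA (by linarith)
  have h2 : s * (u ^ 2 + v ^ 2 - r ^ 2 + 1 - 2 * (P1 * u + P2 * v)) ≤ 0 :=
    mul_nonpos_of_nonneg_of_nonpos hs0 hLp.le
  have h3 : t * (u ^ 2 + v ^ 2 - r ^ 2 + 1 - 2 * (Q1 * u + Q2 * v)) ≤ 0 :=
    mul_nonpos_of_nonneg_of_nonpos ht0 hLq.le
  rcases lt_or_eq_of_le hs0 with h | h
  · have : s * (u ^ 2 + v ^ 2 - r ^ 2 + 1 - 2 * (P1 * u + P2 * v)) < 0 := mul_neg_of_pos_of_neg h hLp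
    linarith
  · have h' : 0 < t := by linarith
    have : t * (u ^ 2 + v ^ 2 - r ^ 2 + 1 - 2 * (Q1 * u + Q2 * v)) < 0 := mul_neg_of_pos_of_neg h' hLq
    linarith

/-- part (i), first case -/
theorem case1 (x y P1 P2 Q1 Q2 W1 W2 : ℝ) (hP : P1 ^ 2 + P2 ^ 2 = 1) (hQ : Q1 ^ 2 + Q2 ^ 2 = 1)
    (hPp : 0 < P1 * (x + P1) + P2 * (y + P2)) (hPQ : P1 * Q2 - P2 * Q1 < 0)
    (hpq : 0 < (x + P1) * (y + Q2) - (y + P2) * (x + Q1)) (hW : W1 ^ 2 + W2 ^ 2 ≤ 1)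
    (h : (x + P1) * (y + W2) - (y + P2) * (x + W1) ≤ 0) :
    (W1 - P1) * (Q2 - P2) - (W2 - P2) * (Q1 - P1) ≤ 0 := by
  by_contra hcon
  push Not at hcon
  have hv : (W1 - P1) * P1 + (W2 - P2) * P2 ≤ 0 := by
    nlinarith [sq_nonneg (W1 - P1), sq_nonneg (W2 - P2)]
  have he : (Q1 - P1) * P1 + (Q2 - P2) * P2 < 0 := by
    have h1 : (P1 * Q1 + P2 * Q2) ^ 2 + (P1 * Q2 - P2 * Q1) ^ 2 = 1 := by
      have : (P1 * Q1 + P2 * Q2) ^ 2 + (P1 * Q2 - P2 * Q1) ^ 2 =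
          (P1 ^ 2 + P2 ^ 2) * (Q1 ^ 2 + Q2 ^ 2) := by ring
      rw [this, hP, hQ, one_mul]
    have h2 : 0 < (P1 * Q2 - P2 * Q1) ^ 2 := by
      have := hPQ.ne
      positivity
    nlinarith
  have hcpe : 0 < (x + P1) * (Q2 - P2) - (y + P2) * (Q1 - P1) := by nlinarith
  have hcpv : (x + P1) * (W2 - P2) - (y + P2) * (W1 - P1) ≤ 0 := by nlinarith
  have hid : ((x + P1) * (Q2 - P2) - (y + P2) * (Q1 - P1)) * ((W1 - P1) * P1 + (W2 - P2) * P2) =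
      ((W1 - P1) * (Q2 - P2) - (W2 - P2) * (Q1 - P1)) * (P1 * (x + P1) + P2 * (y + P2)) +
      ((x + P1) * (W2 - P2) - (y + P2) * (W1 - P1)) * ((Q1 - P1) * P1 + (Q2 - P2) * P2) := by ring
  have h1 : ((x + P1) * (Q2 - P2) - (y + P2) * (Q1 - P1)) * ((W1 - P1) * P1 + (W2 - P2) * P2) ≤ 0 :=
    mul_nonpos_of_nonneg_of_nonpos hcpe.le hv
  have h2 := mul_pos hcon hPp
  have h3 : 0 ≤ ((x + P1) * (W2 - P2) - (y + P2) * (W1 - P1)) *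
      ((Q1 - P1) * P1 + (Q2 - P2) * P2) := mul_nonneg_of_nonpos_of_nonpos hcpv he.le
  linarith

/-- part (i), second case -/
theorem case2 (x y P1 P2 Q1 Q2 W1 W2 : ℝ) (hP : P1 ^ 2 + P2 ^ 2 = 1) (hQ : Q1 ^ 2 + Q2 ^ 2 = 1)
    (hQq : 0 < Q1 * (x + Q1) + Q2 * (y + Q2)) (hPQ : P1 * Q2 - P2 * Q1 < 0)
    (hpq : 0 < (x + P1) * (y + Q2) - (y + P2) * (x + Q1)) (hW : W1 ^ 2 + W2 ^ 2 ≤ 1)
    (h : (x + W1) * (y + Q2) - (y + W2) * (x + Q1) ≤ 0) :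
    (W1 - P1) * (Q2 - P2) - (W2 - P2) * (Q1 - P1) ≤ 0 := by
  have := case1 x (-y) Q1 (-Q2) P1 (-P2) W1 (-W2) (by rw [neg_sq]; exact hQ)
    (by rw [neg_sq]; exact hP) (by nlinarith) (by nlinarith) (by nlinarith)
    (by rw [neg_sq]; exact hW) (by nlinarith)
  nlinarith

end QRYM

open QRYM in
/-- QRY -/
theorem specQRY : SpecQRY := by
  intro cs c' P Q w r hr0 hr1 hP hQ hPp hQq hPQ hpq hp hq hw hrw
  have sqn : ∀ z : ℂ, ‖z‖ ^ 2 = z.re ^ 2 + z.im ^ 2 := by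
    intro z
    rw [Complex.sq_norm, Complex.normSq_apply]
    ring
  have hP2 : P.re ^ 2 + P.im ^ 2 = 1 := by rw [← sqn, hP, one_pow]
  have hQ2 : Q.re ^ 2 + Q.im ^ 2 = 1 := by rw [← sqn, hQ, one_pow]
  obtain ⟨W, rfl⟩ : ∃ W, w = c' + W := ⟨w - c', by ring⟩
  have hW2 : W.re ^ 2 + W.im ^ 2 ≤ 1 := by
    rw [add_sub_cancel_left] at hw
    rw [← sqn]
    nlinarith [norm_nonneg W]
  have hp2 : (P.re - (cs.re - c'.re)) ^ 2 + (P.im - (cs.im - c'.im)) ^ 2 < r ^ 2 := by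
    have h1 : ‖c' + P - cs‖ ^ 2 < r ^ 2 := by nlinarith [norm_nonneg (c' + P - cs)]
    rw [sqn] at h1
    simp only [sub_re, add_re, sub_im, add_im] at h1
    nlinarith
  have hq2 : (Q.re - (cs.re - c'.re)) ^ 2 + (Q.im - (cs.im - c'.im)) ^ 2 < r ^ 2 := by
    have h1 : ‖c' + Q - cs‖ ^ 2 < r ^ 2 := by nlinarith [norm_nonneg (c' + Q - cs)]
    rw [sqn] at h1
    simp only [sub_re, add_re, sub_im, add_im] at h1
    nlinarith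
  have hw2 : r ^ 2 ≤ (W.re - (cs.re - c'.re)) ^ 2 + (W.im - (cs.im - c'.im)) ^ 2 := by
    have h1 : r ^ 2 ≤ ‖c' + W - cs‖ ^ 2 := by nlinarith
    rw [sqn] at h1
    simp only [sub_re, add_re, sub_im, add_im] at h1
    nlinarith
  simp only [dot, crs, add_re, add_im] at hPp hQq hPQ hpq ⊢
  constructor
  · by_contra hcon
    push Not at hcon
    exact key P.re P.im Q.re Q.im W.re W.im _ _ r hP2 hQ2 hPQ
      (case1 c'.re c'.im P.re P.im Q.re Q.im W.re W.im hP2 hQ2 hPp hPQ hpq hW2 hcon) hW2 hr0 hr1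
      hp2 hq2 hw2
  · by_contra hcon
    push Not at hcon
    exact key P.re P.im Q.re Q.im W.re W.im _ _ r hP2 hQ2 hPQ
      (case2 c'.re c'.im P.re P.im Q.re Q.im W.re W.im hP2 hQ2 hQq hPQ hpq hW2 hcon) hW2 hr0 hr1
      hp2 hq2 hw2

end Pool.Agent.Lib.MP250511.ST
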