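import Pool.Agent.Lib.MP_250511_an.ST.Spec2

/-!
Problem MP_250511_an, Q2: module QUA (helper28), the answer of a valid query.
-/

set_option autoImplicit false

namespace Pool.Agent.Lib.MP250511.ST

open Complex Metric Set MeasureTheory Filter Topology
open scoped Real ENNReal

namespace QUAM

theorem pos_of_sin {t : ℝ} (h1 : -π < t) (h2 : 0 < Real.sin t) : 0 < t := by
  by_contra h
  have := Real.sin_nonpos_of_nonpos_of_neg_pi_le (not_lt.1 h) h1.le
  linarith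

theorem lt_pi_of_sin {t : ℝ} (h1 : t ≤ π) (h2 : 0 < Real.sin t) : t < π := by
  rcases lt_or_eq_of_le h1 with h | h
  · exact h
  · rw [h, Real.sin_pi] at h2
    exact absurd h2 (lt_irrefl 0)

/-- `z = e^{log |z|} e^{i (a + arg (z e^{-i a}))}` -/
theorem polar (z : ℂ) (hz : z ≠ 0) (a : ℝ) :
    z = exp ((Real.log ‖z‖ : ℂ) + ((a + arg (z * exp (-(a : ℂ) * I)) : ℝ) : ℂ) * I) := by
  have h1 : z * exp (-(a : ℂ) * I) ≠ 0 := mul_ne_zero hz (Complex.exp_ne_zero _)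
  have h2 : ‖z * exp (-(a : ℂ) * I)‖ = ‖z‖ := by
    rw [norm_mul]
    have : ‖exp (-(a : ℂ) * I)‖ = 1 := by
      rw [← Complex.ofReal_neg]; exact Complex.norm_exp_ofReal_mul_I _
    rw [this, mul_one]
  have h3 := Complex.exp_log h1
  have h4 : Complex.log (z * exp (-(a : ℂ) * I)) =
      (Real.log ‖z‖ : ℂ) + (arg (z * exp (-(a : ℂ) * I)) : ℂ) * I := by
    rw [Complex.log, h2]
  rw [h4] at h3
  have h5 : z = exp ((Real.log ‖z‖ : ℂ) + (arg (z * exp (-(a : ℂ) * I)) : ℂ) * I) *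
      exp ((a : ℂ) * I) := by
    rw [h3, mul_assoc, ← Complex.exp_add]
    simp
  rw [← Complex.exp_add] at h5
  refine h5.trans ?_
  congr 1
  push_cast
  ring

theorem crs_exp (x y a b : ℝ) :
    crs (exp ((x : ℂ) + (a : ℂ) * I)) (exp ((y : ℂ) + (b : ℂ) * I)) =
      Real.exp x * Real.exp y * Real.sin (b - a) := by
  unfold crs
  rw [Complex.exp_re, Complex.exp_im, Complex.exp_re, Complex.exp_im]
  simp only [Complex.add_re, Complex.ofReal_re, Complex.mul_re, Complex.I_re, mul_zero,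
    Complex.ofReal_im, Complex.I_im, mul_one, sub_self, add_zero, Complex.add_im, Complex.mul_im,
    zero_add]
  rw [Real.sin_sub]
  ring

theorem rot_re (z : ℂ) (u : ℝ) : (z * exp (-((π * u : ℝ) : ℂ) * I)).re = dot (ee u) z := by
  unfold dot ee
  rw [← Complex.ofReal_neg, Complex.exp_ofReal_mul_I_re, Complex.exp_ofReal_mul_I_im,
    Complex.mul_re, Complex.exp_ofReal_mul_I_re, Complex.exp_ofReal_mul_I_im, Real.cos_neg,
    Real.sin_neg]
  ring

theorem rot_im (z : ℂ) (u : ℝ) : (z * exp (-((π * u : ℝ) : ℂ) * I)).im = crs (ee u) z := by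
  unfold crs ee
  rw [← Complex.ofReal_neg, Complex.exp_ofReal_mul_I_re, Complex.exp_ofReal_mul_I_im,
    Complex.mul_im, Complex.exp_ofReal_mul_I_re, Complex.exp_ofReal_mul_I_im, Real.cos_neg,
    Real.sin_neg]
  ring

theorem ne_of_crs {z w : ℂ} (h : 0 < crs z w) : z ≠ 0 ∧ w ≠ 0 := by
  constructor
  · rintro rfl; simp [crs] at h
  · rintro rfl; simp [crs] at h

/-- the angle argument -/
theorem angles {p q w : ℂ} {um up : ℝ} (hlt : um < up) (hle : up - um ≤ 1)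
    (d1 : 0 ≤ crs (ee um) p) (d2 : 0 < dot (ee um) p) (d3 : 0 ≤ crs q (ee up))
    (d4 : 0 < dot q (ee up)) (hpq : 0 < crs p q) (hpw : 0 < crs p w) (hwq : 0 < crs w q) :
    ∃ u : ℝ, um < u ∧ u < up ∧ pt (Real.log ‖w‖) (π * u) = w := by
  obtain ⟨hp0, hq0⟩ := ne_of_crs hpq
  have hw0 := (ne_of_crs hpw).2
  -- angle of `p`
  set δ₁ : ℝ := arg (p * exp (-((π * um : ℝ) : ℂ) * I)) with hδ₁
  have hδ₁0 : 0 ≤ δ₁ := by
    rw [hδ₁, Complex.arg_nonneg_iff, rot_im]; exact d1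
  have hδ₁1 : δ₁ < π / 2 := by
    have : |δ₁| < π / 2 := by
      rw [hδ₁, Complex.abs_arg_lt_pi_div_two_iff, rot_re]; exact Or.inl d2
    exact (abs_lt.1 this).2
  have hp := polar p hp0 (π * um)
  rw [← hδ₁] at hp
  -- angle of `q`
  set δ₄ : ℝ := arg (q * exp (-((π * up : ℝ) : ℂ) * I)) with hδ₄
  have hcs : crs (ee up) q = -crs q (ee up) := by unfold crs; ring
  have hds : dot (ee up) q = dot q (ee up) := by unfold dot; ring
  have hre : 0 < (q * exp (-((π * up : ℝ) : ℂ) * I)).re := by rw [rot_re, hds]; exact d4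
  have hδ₄1 : -(π / 2) < δ₄ := by
    have : |δ₄| < π / 2 := by
      rw [hδ₄, Complex.abs_arg_lt_pi_div_two_iff]; exact Or.inl hre
    exact (abs_lt.1 this).1
  have hδ₄0 : δ₄ ≤ 0 := by
    by_contra hc
    rw [not_le] at hc
    have h1 : Real.sin δ₄ = (q * exp (-((π * up : ℝ) : ℂ) * I)).im /
        ‖q * exp (-((π * up : ℝ) : ℂ) * I)‖ := Complex.sin_arg _
    have h2 : 0 < Real.sin δ₄ := by
      refine Real.sin_pos_of_pos_of_lt_pi hc ?_
      have : |δ₄| < π / 2 := by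
        rw [hδ₄, Complex.abs_arg_lt_pi_div_two_iff]; exact Or.inl hre
      have h3 := (abs_lt.1 this).2
      have := Real.pi_pos
      linarith
    rw [h1, rot_im, hcs] at h2
    have h3 : -crs q (ee up) / ‖q * exp (-((π * up : ℝ) : ℂ) * I)‖ ≤ 0 :=
      div_nonpos_of_nonpos_of_nonneg (by linarith) (norm_nonneg _)
    linarith
  have hq := polar q hq0 (π * up)
  rw [← hδ₄] at hq
  -- the difference of the two angles
  have hπ := Real.pi_pos
  have hs1 : 0 < Real.sin (π * up + δ₄ - (π * um + δ₁)) := by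
    have h := hpq
    rw [hp, hq, crs_exp] at h
    have he : 0 < Real.exp (Real.log ‖p‖) * Real.exp (Real.log ‖q‖) := by positivity
    exact (pos_iff_pos_of_mul_pos h).1 he
  have hlt' : 0 < π * (up - um) := mul_pos hπ (by linarith)
  have hle' : π * (up - um) ≤ π := by nlinarith
  have hpos := pos_of_sin (t := π * up + δ₄ - (π * um + δ₁)) (by nlinarith) hs1
  -- angle of `w`
  set τ : ℝ := arg (w * exp (-((π * um + δ₁ : ℝ) : ℂ) * I)) with hτ
  have hw := polar w hw0 (π * um + δ₁)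
  rw [← hτ] at hw
  have hs2 : 0 < Real.sin τ := by
    have h := hpw
    rw [hp, hw, crs_exp] at h
    have he : 0 < Real.exp (Real.log ‖p‖) * Real.exp (Real.log ‖w‖) := by positivity
    have h' := (pos_iff_pos_of_mul_pos h).1 he
    have e : π * um + δ₁ + τ - (π * um + δ₁) = τ := by ring
    rwa [e] at h'
  have hτ1 : τ ≤ π := Complex.arg_le_pi _
  have hτ0 : -π < τ := Complex.neg_pi_lt_arg _
  have hτpos := pos_of_sin hτ0 hs2
  have hτlt := lt_pi_of_sin hτ1 hs2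
  have hs3 : 0 < Real.sin (π * up + δ₄ - (π * um + δ₁ + τ)) := by
    have h := hwq
    rw [hw, hq, crs_exp] at h
    have he : 0 < Real.exp (Real.log ‖w‖) * Real.exp (Real.log ‖q‖) := by positivity
    exact (pos_iff_pos_of_mul_pos h).1 he
  have hlast := pos_of_sin (t := π * up + δ₄ - (π * um + δ₁ + τ)) (by linarith) hs3
  refine ⟨(π * um + δ₁ + τ) / π, ?_, ?_, ?_⟩
  · rw [lt_div_iff₀ hπ]; nlinarith
  · rw [div_lt_iff₀ hπ]; nlinarith
  · have e : π * ((π * um + δ₁ + τ) / π) = π * um + δ₁ + τ := by field_simp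
    rw [e]
    unfold pt
    exact hw.symm

end QUAM

open QUAM in
theorem specQUA (hQRY : SpecQRY) (hLNS : SpecLNS) : SpecQUA := by
  intro b c P Q κ um up hq W cs r α ρ₁ ρ₂ hC h1 h2 h3 h4 h5 h6
  have e1 : pt ρ₁ (-(π * (α / 2))) = (Real.exp ρ₁ : ℂ) * ee (-(α / 2)) := by
    unfold pt ee
    rw [Complex.exp_add, Complex.ofReal_exp]
    congr 2
    push_cast
    ring
  have e2 : pt ρ₂ (π * (α / 2)) = (Real.exp ρ₂ : ℂ) * ee (α / 2) := by
    unfold pt ee
    rw [Complex.exp_add, Complex.ofReal_exp]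
  have hc1 := hC.c1
  have hc2 := hC.c2
  rw [e1] at hc1
  rw [e2] at hc2
  have hd : ‖(Real.exp ρ₁ : ℂ) * ee (-(α / 2)) - (Real.exp ρ₂ : ℂ) * ee (α / 2)‖ ≤ 2 := by
    have e3 : (Real.exp ρ₁ : ℂ) * ee (-(α / 2)) - (Real.exp ρ₂ : ℂ) * ee (α / 2) =
        ((Real.exp ρ₁ : ℂ) * ee (-(α / 2)) - cs) - ((Real.exp ρ₂ : ℂ) * ee (α / 2) - cs) := by
      ring
    rw [e3]
    refine (norm_sub_le _ _).trans ?_
    rw [hc1, hc2]
    have := hC.r1
    linarith
  have hP := hq.lp (Real.exp ρ₁) (Real.exp ρ₂) α h1 h2 h3 h4 h5 h6 hd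
  have hQ := hq.lq (Real.exp ρ₁) (Real.exp ρ₂) α h1 h2 h3 h4 h5 h6 hd
  have hne : (Real.exp ρ₁ : ℂ) * ee (-(α / 2)) ≠ (Real.exp ρ₂ : ℂ) * ee (α / 2) := by
    intro h
    have h7 := hP.1
    rw [h, sub_self, norm_zero] at h7
    norm_num at h7
  have hPr := hLNS cs _ _ (c + P) r κ hC.r0 hC.r1 hc1 hc2 hne hq.k0 hP.1 hP.2
  have hQr := hLNS cs _ _ (c + Q) r κ hC.r0 hC.r1 hc1 hc2 hne hq.k0 hQ.1 hQ.2
  obtain ⟨w, hwW, hwc⟩ := hC.hit c
  obtain ⟨hpw, hwq⟩ := hQRY cs c P Q w r hC.r0 hC.r1 hq.pn hq.qn hq.pf hq.qf hq.bk hq.cn hPr hQr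
    hwc (hC.emp w hwW)
  have hal := hC.al1
  obtain ⟨u, hu1, hu2, hu3⟩ := angles hq.lt (by have := hq.lo; have := hq.hi; linarith)
    hq.d1 hq.d2 hq.d3 hq.d4 hq.cn hpw hwq
  refine ⟨Real.log ‖w‖, u, hu1, hu2, ?_, ?_⟩
  · rw [hu3]; exact hwW
  · rw [hu3]; exact hwc

end Pool.Agent.Lib.MP250511.ST
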