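import Pool.Agent.Lib.MP_250511_an.ST.Spec2

/-!
Problem MP_250511_an, Q2: module QUE (helper28), the query rule.
-/

set_option autoImplicit false

namespace Pool.Agent.Lib.MP250511.ST

open Complex Metric Set MeasureTheory Filter Topology
open scoped Real ENNReal

namespace QUEM

theorem dot_le (z w : ℂ) : dot z w ≤ ‖z‖ * ‖w‖ := by
  have h1 : dot z w = (z * (starRingEnd ℂ) w).re := by
    simp [dot, Complex.mul_re]
  rw [h1]
  refine (Complex.re_le_norm _).trans ?_
  rw [norm_mul, Complex.norm_conj]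

theorem sub_forall {A B : Type*} {R : A → B → Prop} {S' S : List A} (h : S'.Sublist S) :
    ∀ us : List B, List.Forall₂ R S us → ∃ us' : List B, us'.Sublist us ∧ List.Forall₂ R S' us' := by
  induction h with
  | slnil => intro us _; exact ⟨[], List.nil_sublist _, List.Forall₂.nil⟩
  | cons a _ ih =>
    intro us hus
    cases hus with
    | cons h1 h2 =>
      obtain ⟨us', h3, h4⟩ := ih _ h2
      exact ⟨us', h3.cons _, h4⟩
  | cons_cons a _ ih =>
    intro us hus
    cases hus with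
    | cons h1 h2 =>
      obtain ⟨us', h3, h4⟩ := ih _ h2
      exact ⟨_, h3.cons_cons _, List.Forall₂.cons h1 h4⟩

theorem split_forall {A B : Type*} {R : A → B → Prop} (S₁ S₂ : List A) :
    ∀ us : List B, List.Forall₂ R (S₁ ++ S₂) us →
      ∃ us₁ us₂ : List B, us = us₁ ++ us₂ ∧ List.Forall₂ R S₁ us₁ ∧ List.Forall₂ R S₂ us₂ := by
  induction S₁ with
  | nil => intro us hus; exact ⟨[], us, rfl, List.Forall₂.nil, hus⟩
  | cons a S₁ ih =>
    intro us hus
    rw [List.cons_append] at hus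
    cases hus with
    | cons h1 h2 =>
      obtain ⟨us₁, us₂, h3, h4, h5⟩ := ih _ h2
      exact ⟨_ :: us₁, us₂, by rw [h3]; rfl, List.Forall₂.cons h1 h4, h5⟩

theorem mem_forall {A B : Type*} {R : A → B → Prop} {S : List A} {us : List B}
    (h : List.Forall₂ R S us) : ∀ u ∈ us, ∃ s ∈ S, R s u := by
  induction h with
  | nil => intro u hu; simp at hu
  | cons h1 _ ih =>
    intro u hu
    rcases List.mem_cons.1 hu with rfl | hu
    · exact ⟨_, List.mem_cons_self, h1⟩
    · obtain ⟨s, hs, hr⟩ := ih u hu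
      exact ⟨s, List.mem_cons_of_mem _ hs, hr⟩

theorem append_forall {A B : Type*} {R : A → B → Prop} {S₁ S₂ : List A} {us₁ us₂ : List B}
    (h1 : List.Forall₂ R S₁ us₁) (h2 : List.Forall₂ R S₂ us₂) :
    List.Forall₂ R (S₁ ++ S₂) (us₁ ++ us₂) := by
  induction h1 with
  | nil => exact h2
  | cons h _ ih => exact List.Forall₂.cons h ih

end QUEM

open QUEM in
theorem specQUE (hQUA : SpecQUA) : SpecQUE := by
  intro b p S c P Q κ um up hq hcov W cs r α ρ₁ ρ₂ hC h1 h2 h3 h4 h5 h6 us hus hpw hin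
  obtain ⟨ρ, u, hu1, hu2, hW, hd⟩ := hQUA b c P Q κ um up hq W cs r α ρ₁ ρ₂ hC h1 h2 h3 h4 h5 h6
  obtain ⟨s, S₁, S₂, hsc, hok, hlo, hhi, hsub, hS1, hS2, hgood⟩ := hcov u hu1 hu2
  obtain ⟨us', hsu, hfo⟩ := sub_forall hsub us hus
  obtain ⟨us₁, us₂, rfl, hf1, hf2⟩ := split_forall S₁ S₂ us' hfo
  have hpw' := hpw.sublist hsu
  have hmem : ∀ v ∈ us₁ ++ us₂, -(α / 2) < v ∧ v < α / 2 := fun v hv => hin v (hsu.subset hv)
  -- the point in direction `u` of the tangent line
  have hdt : 0 < dot (ee u) s.ν := hok.dt u hlo hhi.le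
  have hρ : ρ ≤ s.tip u := by
    unfold Slt.tip
    rw [Real.le_log_iff_exp_le (div_pos hok.ps hdt), le_div_iff₀ hdt]
    have e1 : pt ρ (π * u) = (Real.exp ρ : ℂ) * ee u := by
      unfold pt ee
      rw [Complex.exp_add, Complex.ofReal_exp]
    have e2 : Real.exp ρ * dot (ee u) s.ν = dot (pt ρ (π * u)) s.ν := by
      rw [e1]; simp only [dot, Complex.mul_re, Complex.mul_im, Complex.ofReal_re,
        Complex.ofReal_im]; ring
    have e3 : dot (pt ρ (π * u)) s.ν = dot (pt ρ (π * u) - c) s.ν + dot c s.ν := by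
      simp only [dot, Complex.sub_re, Complex.sub_im]; ring
    have e4 := dot_le (pt ρ (π * u) - c) s.ν
    rw [hok.un, mul_one] at e4
    rw [e2, e3, hsc]
    linarith
  have hW2 : pt (s.tip u) (π * u) ∈ W := by
    have := hC.star _ hW (Real.exp (s.tip u - ρ)) (Real.one_le_exp (by linarith))
    have e : ((Real.exp (s.tip u - ρ) : ℝ) : ℂ) * pt ρ (π * u) = pt (s.tip u) (π * u) := by
      unfold pt
      rw [Complex.ofReal_exp, ← Complex.exp_add]
      congr 1
      push_cast
      ring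
    rwa [e] at this
  have hα0 : -(α / 2) < u := by have := hq.lo; linarith
  have hα1 : u < α / 2 := by have := hq.hi; linarith
  refine hgood W cs r α ρ₁ ρ₂ hC h1 h2 h3 h4 h5 h6 (us₁ ++ u :: us₂) ?_ ?_ ?_
  · exact append_forall hf1 (List.Forall₂.cons ⟨hlo, hhi, hW2⟩ hf2)
  · have hp := List.pairwise_append.1 hpw'
    refine List.pairwise_append.2 ⟨hp.1, List.pairwise_cons.2 ⟨?_, hp.2.1⟩, ?_⟩
    · intro v hv
      obtain ⟨t, ht, hr⟩ := mem_forall hf2 v hv
      exact hhi.trans_le ((hS2 t ht).trans hr.1)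
    · intro v hv v' hv'
      have hvu : v < u := by
        obtain ⟨t, ht, hr⟩ := mem_forall hf1 v hv
        exact hr.2.1.trans_le ((hS1 t ht).trans hlo)
      rcases List.mem_cons.1 hv' with rfl | hv'
      · exact hvu
      · exact hp.2.2 v hv v' hv'
  · intro v hv
    rcases List.mem_append.1 hv with hv | hv
    · exact hmem v (List.mem_append_left _ hv)
    · rcases List.mem_cons.1 hv with rfl | hv
      · exact ⟨hα0, hα1⟩
      · exact hmem v (List.mem_append_right _ hv)

end Pool.Agent.Lib.MP250511.ST
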