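import Pool.Agent.Lib.MP_250511_an.ST.Spec

/-!
Problem MP_250511_an, Q2: module RAY (helper19), one ray.
-/

set_option autoImplicit false

namespace Pool.Agent.Lib.MP250511.ST

open Complex Metric Set MeasureTheory Filter Topology
open scoped Real ENNReal

noncomputable section

namespace RAYM

/-- Cauchy-Schwarz. -/
theorem cs (f : ℝ → ℝ) {a b : ℝ} (hab : a < b) (hf : ContinuousOn f (Icc a b)) :
    (∫ t in a..b, f t) ^ 2 ≤ (b - a) * ∫ t in a..b, f t ^ 2 := by
  have hu : uIcc a b = Icc a b := uIcc_of_le hab.le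
  have h1 : IntervalIntegrable f volume a b := ContinuousOn.intervalIntegrable (by rwa [hu])
  have h2 : IntervalIntegrable (fun t => f t ^ 2) volume a b :=
    ContinuousOn.intervalIntegrable (by rw [hu]; exact hf.pow 2)
  set I := ∫ t in a..b, f t with hI
  set Q := ∫ t in a..b, f t ^ 2 with hQ
  have hba : 0 < b - a := sub_pos.2 hab
  set c := I / (b - a) with hc
  have h3 : ∫ t in a..b, (f t - c) ^ 2 = Q - 2 * c * I + c ^ 2 * (b - a) := by
    have e : ∀ t, (f t - c) ^ 2 = f t ^ 2 - 2 * c * f t + c ^ 2 := fun t => by ring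
    simp only [e]
    rw [intervalIntegral.integral_add (h2.sub (h1.const_mul _)) intervalIntegrable_const,
      intervalIntegral.integral_sub h2 (h1.const_mul _), intervalIntegral.integral_const_mul,
      intervalIntegral.integral_const, smul_eq_mul]
    ring
  have h4 : 0 ≤ ∫ t in a..b, (f t - c) ^ 2 :=
    intervalIntegral.integral_nonneg hab.le fun t _ => sq_nonneg _
  rw [h3] at h4
  have h5 : c * (b - a) = I := by rw [hc]; field_simp
  have h6 : 0 ≤ (Q - 2 * c * I + c ^ 2 * (b - a)) * (b - a) := mul_nonneg h4 hba.le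
  have h7 : (Q - 2 * c * I + c ^ 2 * (b - a)) * (b - a) = (b - a) * Q - I ^ 2 := by
    linear_combination (-2 * I + c * (b - a) + I) * h5
  linarith

/-- The estimate on a closed interval. -/
theorem seg (v v' : ℝ → ℂ) {a b : ℝ} (hab : a < b)
    (hd : ∀ t ∈ Icc a b, HasDerivAt v (v' t) t ∧ v t ≠ 0) (hc : ContinuousOn v' (Icc a b)) :
    ContinuousOn (fun t => ‖v' t / v t‖ ^ 2) (Icc a b) ∧
    (Real.log ‖v b‖ - Real.log ‖v a‖) ^ 2 ≤ (b - a) * ∫ t in a..b, ‖v' t / v t‖ ^ 2 := by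
  have hu : uIcc a b = Icc a b := uIcc_of_le hab.le
  have hv : ContinuousOn v (Icc a b) := fun t ht => (hd t ht).1.continuousAt.continuousWithinAt
  have hg : ContinuousOn (fun t => ‖v' t / v t‖ ^ 2) (Icc a b) :=
    ((hc.div hv fun t ht => (hd t ht).2).norm).pow 2
  refine ⟨hg, ?_⟩
  set d : ℝ → ℝ := fun t => inner ℝ (v t) (v' t) / ‖v t‖ ^ 2 with hdd
  have hder : ∀ t ∈ Icc a b, HasDerivAt (fun t => Real.log ‖v t‖) (d t) t := by
    intro t ht
    have h1 := (hd t ht).1.norm_sq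
    have h2 : ‖v t‖ ^ 2 ≠ 0 := pow_ne_zero _ (norm_ne_zero_iff.2 (hd t ht).2)
    have h3 := (h1.log h2).const_mul (1 / 2)
    have e : (fun t => 1 / 2 * Real.log (‖v t‖ ^ 2)) = fun t => Real.log ‖v t‖ := by
      funext s
      rw [Real.log_pow]
      push_cast
      ring
    rw [e] at h3
    exact h3.congr_deriv (by simp only [hdd]; ring)
  have hdc : ContinuousOn d (Icc a b) := by
    refine ContinuousOn.div ?_ (hv.norm.pow 2) fun t ht =>
      pow_ne_zero _ (norm_ne_zero_iff.2 (hd t ht).2)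
    exact hv.inner hc
  have h1 : ∫ t in a..b, d t = Real.log ‖v b‖ - Real.log ‖v a‖ :=
    intervalIntegral.integral_eq_sub_of_hasDerivAt (fun t ht => hder t (by rwa [hu] at ht))
      (ContinuousOn.intervalIntegrable (by rwa [hu]))
  rw [← h1]
  refine (cs d hab hdc).trans (mul_le_mul_of_nonneg_left ?_ (sub_pos.2 hab).le)
  refine intervalIntegral.integral_mono_on hab.le
    (ContinuousOn.intervalIntegrable (by rw [hu]; exact hdc.pow 2))
    (ContinuousOn.intervalIntegrable (by rwa [hu])) fun t ht => ?_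
  have h2 : 0 < ‖v t‖ := norm_pos_iff.2 (hd t ht).2
  have h3 := abs_real_inner_le_norm (v t) (v' t)
  rw [← sq_abs (d t)]
  refine pow_le_pow_left₀ (abs_nonneg _) ?_ 2
  rw [hdd]
  simp only
  rw [abs_div, abs_of_pos (pow_pos h2 2), norm_div, div_le_div_iff₀ (pow_pos h2 2) h2]
  nlinarith [h3, h2.le]

end RAYM

open RAYM in
theorem specRAY : SpecRAY := by
  intro X E v v' hX hE hXE hd hc hlim
  set S : Set ℝ := {x | -X < x ∧ x ≤ 0 ∧ ∀ y, -X ≤ y → y < x → y ∈ E} with hS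
  obtain ⟨ε, hε, hball⟩ := Metric.isOpen_iff.1 hE (-X) hXE
  have hne : S.Nonempty := by
    refine ⟨min (-X + ε) 0, ?_, min_le_right _ _, ?_⟩
    · exact lt_min (by linarith) (by linarith)
    · intro y hy1 hy2
      apply hball
      rw [Metric.mem_ball, Real.dist_eq, abs_lt]
      have := lt_of_lt_of_le hy2 (min_le_left _ _)
      constructor <;> linarith
  have hbd : BddAbove S := ⟨0, fun x hx => hx.2.1⟩
  set x₁ := sSup S with hx₁
  have hx1le : x₁ ≤ 0 := csSup_le hne fun x hx => hx.2.1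
  have hx1gt : -X < x₁ := by
    obtain ⟨x, hx⟩ := hne
    exact lt_of_lt_of_le hx.1 (le_csSup hbd hx)
  have hin : ∀ y, -X ≤ y → y < x₁ → y ∈ E := by
    intro y hy1 hy2
    obtain ⟨x, hx, hyx⟩ := exists_lt_of_lt_csSup hne hy2
    exact hx.2.2 y hy1 hyx
  have hout : x₁ ∉ E ∨ x₁ = 0 := by
    by_contra hcon
    push Not at hcon
    obtain ⟨h1, h2⟩ := hcon
    have h3 : x₁ < 0 := lt_of_le_of_ne hx1le h2
    obtain ⟨δ, hδ, hb⟩ := Metric.isOpen_iff.1 hE x₁ h1
    have h4 : min (x₁ + δ) 0 ∈ S := by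
      refine ⟨lt_min (by linarith) (by linarith), min_le_right _ _, ?_⟩
      intro y hy1 hy2
      rcases lt_or_ge y x₁ with h5 | h5
      · exact hin y hy1 h5
      · apply hb
        rw [Metric.mem_ball, Real.dist_eq, abs_lt]
        have := lt_of_lt_of_le hy2 (min_le_left _ _)
        constructor <;> linarith
    have h5 := le_csSup hbd h4
    rw [← hx₁] at h5
    have h6 : x₁ < min (x₁ + δ) 0 := lt_min (by linarith) h3
    linarith
  have hT := hlim x₁ hx1gt hx1le hin hout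
  have hT2 : Tendsto (fun x => ENNReal.ofReal ((Real.log ‖v x‖ - Real.log ‖v (-X)‖) ^ 2))
      (𝓝[<] x₁) (𝓝 (ENNReal.ofReal (Real.log ‖v (-X)‖ ^ 2))) := by
    have h1 : Tendsto (fun x => Real.log ‖v x‖) (𝓝[<] x₁) (𝓝 (Real.log 1)) :=
      hT.log one_ne_zero
    rw [Real.log_one] at h1
    have h2 := ((h1.sub_const (Real.log ‖v (-X)‖)).pow 2)
    have h3 := ENNReal.tendsto_ofReal h2
    have e : (0 - Real.log ‖v (-X)‖) ^ 2 = Real.log ‖v (-X)‖ ^ 2 := by ring
    rw [e] at h3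
    exact h3
  refine le_of_tendsto hT2 ?_
  have hev : ∀ᶠ x in 𝓝[<] x₁, x ∈ Ioo (-X) x₁ := Ioo_mem_nhdsLT hx1gt
  filter_upwards [hev] with x hx
  have hsub : ∀ t ∈ Icc (-X) x, t ∈ E ∩ Iio 0 := fun t ht =>
    ⟨hin t ht.1 (lt_of_le_of_lt ht.2 hx.2),
      lt_of_lt_of_le (lt_of_le_of_lt ht.2 hx.2) hx1le⟩
  obtain ⟨hgc, hle⟩ := seg v v' (a := -X) (b := x) hx.1
    (fun t ht => ⟨(hd t (hsub t ht).1 (hsub t ht).2).1, (hd t (hsub t ht).1 (hsub t ht).2).2.1⟩)
    (hc.mono hsub)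
  have hI0 : 0 ≤ ∫ t in (-X)..x, ‖v' t / v t‖ ^ 2 :=
    intervalIntegral.integral_nonneg hx.1.le fun t _ => sq_nonneg _
  have h1 : (Real.log ‖v x‖ - Real.log ‖v (-X)‖) ^ 2 ≤
      X * ∫ t in (-X)..x, ‖v' t / v t‖ ^ 2 := by
    refine hle.trans (mul_le_mul_of_nonneg_right ?_ hI0)
    have := hx.2
    linarith
  refine (ENNReal.ofReal_le_ofReal h1).trans ?_
  rw [ENNReal.ofReal_mul hX.le]
  refine mul_le_mul_right ?_ _
  have hint : IntegrableOn (fun t => ‖v' t / v t‖ ^ 2) (Ioc (-X) x) :=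
    (hgc.integrableOn_Icc).mono_set Ioc_subset_Icc_self
  rw [intervalIntegral.integral_of_le hx.1.le,
    ofReal_integral_eq_lintegral_ofReal hint (Eventually.of_forall fun t => sq_nonneg _)]
  refine lintegral_mono_set ?_
  intro t ht
  have ht' := hsub t ⟨ht.1.le, ht.2⟩
  exact ⟨ht'.1, ht.1, ht'.2⟩

end

end Pool.Agent.Lib.MP250511.ST
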