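import Pool.Agent.Lib.MP_250511_an.ST.Spec5

/-!
Problem MP_250511_an, row 323, module RCH: the cover of the domain by checked cells.
-/

set_option autoImplicit false

namespace Pool.Agent.Lib.MP250511.ST.Chk

open Complex Metric Set MeasureTheory Filter Topology
open scoped Real ENNReal

namespace RCHM

theorem ble_iff (a b : ℕ) : Nat.ble a b = true ↔ a ≤ b := by
  rw [Nat.ble_eq]

theorem valid_sub {p : Ptl} {α₀ α₁ z : ℝ} (h : Valid p α₀ α₁) (h0 : α₀ ≤ z) (h1 : z ≤ α₁) :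
    Valid p z z := by
  intro W cs r α ρ₁ ρ₂ hc ha hb
  exact h W cs r α ρ₁ ρ₂ hc (h0.trans ha) (hb.trans h1)

theorem valid_rg (hVBA : SpecVBA) (tab : ℕ → IPt)
    (hT : ∀ i : ℕ, i ≤ 14 → Valid (tab i).ptl ((17 + (i : ℝ)) / 32) ((18 + (i : ℝ)) / 32))
    (c z0 z1 : ℕ) (h : rgOk tab c z0 z1 = true) (z : ℝ) (hz : 0 ≤ z) (h0 : (z0 : ℝ) / 256 ≤ z)
    (h1 : z ≤ (z1 : ℝ) / 256) : Valid (ptS tab c) z z := by
  unfold rgOk at h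
  by_cases hc : 64 ≤ c
  · have hb : Nat.ble 64 c = true := (ble_iff _ _).mpr hc
    rw [hb, cond_true] at h
    simp only [Bool.and_eq_true, ble_iff, Nat.mul_eq, Nat.add_eq, Nat.sub_eq] at h
    obtain ⟨⟨h2, h3⟩, h4, _⟩ := h
    obtain ⟨i, rfl⟩ := Nat.exists_eq_add_of_le hc
    have hi : 64 + i - 64 = i := by omega
    rw [hi] at h2 h3
    have hi14 : i ≤ 14 := by omega
    have hp : ptS tab (64 + i) = (tab i).ptl := by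
      unfold ptS
      rw [if_neg (by omega), hi]
    rw [hp]
    have h2' : (8 : ℝ) * (17 + i) ≤ z0 := by exact_mod_cast h2
    have h3' : (z1 : ℝ) ≤ 8 * (18 + i) := by exact_mod_cast h3
    exact valid_sub (hT i hi14) (by linarith) (by linarith)
  · have hb : Nat.ble 64 c = false := by
      rw [Bool.eq_false_iff]
      intro h'
      exact hc ((ble_iff _ _).mp h')
    rw [hb, cond_false] at h
    simp only [Bool.and_eq_true, ble_iff] at h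
    obtain ⟨h2, h3⟩ := h
    have hp : ptS tab c = ⟨0, Real.log 4 + (c : ℝ) / 64 * Real.log ((c : ℝ) / 64) +
      (1 - (c : ℝ) / 64) * Real.log (1 - (c : ℝ) / 64), (c : ℝ) / 64, 1 - (c : ℝ) / 64⟩ := by
      unfold ptS
      rw [if_pos (by omega)]
    rw [hp]
    have hc1 : (1 : ℝ) ≤ c := by exact_mod_cast h2
    have hc2 : (c : ℝ) < 64 := by exact_mod_cast (not_le.mp hc)
    have h3' : (z1 : ℝ) ≤ 256 := by exact_mod_cast h3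
    exact valid_sub (hVBA ((c : ℝ) / 64) (by linarith) (by linarith)) hz (by linarith)

/-- the cover property at one point -/
def At (V x y : ℝ) : Prop :=
  ∃ (k : Cell) (m₁ m₃ : ℝ), k.Ok m₁ m₃ ∧ k.x₀ ≤ x ∧ x ≤ k.x₁ ∧ k.y₀ ≤ y ∧ y ≤ k.y₁ ∧
      k.Vtx V k.x₀ k.y₀ ∧ k.Vtx V k.x₀ k.y₁ ∧ k.Vtx V k.x₁ k.y₀ ∧ k.Vtx V k.x₁ k.y₁ ∧
      Valid k.pA x x ∧ Valid k.pB y y ∧ Valid k.pC (2 - x - y) (2 - x - y)

theorem cell_rg (tab : ℕ → IPt) (V x0 x1 y0 y1 sA sB sC k1 k2 k3 m1 m3 : ℕ) (t00 t01 t10 t11 : Vt)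
    (h : cell tab V x0 x1 y0 y1 sA sB sC k1 k2 k3 m1 m3 t00 t01 t10 t11 = true) :
    (x0 ≤ x1 ∧ x1 ≤ 256) ∧ (y0 ≤ y1 ∧ y1 ≤ 256) ∧ rgOk tab sA x0 x1 = true ∧
      rgOk tab sB y0 y1 = true ∧ rgOk tab sC (512 - (x1 + y1)) (512 - (x0 + y0)) = true := by
  unfold cell at h
  have h' := ((Bool.and_eq_true _ _).mp h).1
  obtain ⟨ha, hb⟩ := (Bool.and_eq_true _ _).mp h'
  obtain ⟨ha1, ha2⟩ := (Bool.and_eq_true _ _).mp ha
  obtain ⟨ha3, ha4⟩ := (Bool.and_eq_true _ _).mp ha1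
  obtain ⟨ha5, ha6⟩ := (Bool.and_eq_true _ _).mp ha2
  obtain ⟨hb1, hb2⟩ := (Bool.and_eq_true _ _).mp hb
  obtain ⟨hb3, hb4⟩ := (Bool.and_eq_true _ _).mp hb1
  exact ⟨⟨(ble_iff _ _).mp ha3, (ble_iff _ _).mp ha4⟩, ⟨(ble_iff _ _).mp ha5, (ble_iff _ _).mp ha6⟩,
    hb3, hb4, hb2⟩

theorem at_cell (hRCI : SpecRCI) (hVBA : SpecVBA) (tab : ℕ → IPt)
    (hT : ∀ i : ℕ, i ≤ 14 → Valid (tab i).ptl ((17 + (i : ℝ)) / 32) ((18 + (i : ℝ)) / 32))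
    (V x0 x1 y0 y1 sA sB sC k1 k2 k3 m1 m3 : ℕ) (t00 t01 t10 t11 : Vt)
    (h : cell tab V x0 x1 y0 y1 sA sB sC k1 k2 k3 m1 m3 t00 t01 t10 t11 = true) (x y : ℝ)
    (hx : 0 < x) (hy : 0 < y) (hxy : 0 < 2 - x - y)
    (hx0 : (x0 : ℝ) / 256 ≤ x) (hx1 : x < (x1 : ℝ) / 256)
    (hy0 : (y0 : ℝ) / 256 ≤ y) (hy1 : y < (y1 : ℝ) / 256) : At ((V : ℝ) / 2 ^ 30) x y := by
  obtain ⟨⟨hxa, hxb⟩, ⟨hya, hyb⟩, hA, hB, hC⟩ :=
    cell_rg tab V x0 x1 y0 y1 sA sB sC k1 k2 k3 m1 m3 t00 t01 t10 t11 h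
  obtain ⟨hok, h00, h01, h10, h11⟩ := hRCI tab V x0 x1 y0 y1 sA sB sC k1 k2 k3 m1 m3 t00 t01 t10 t11 h
  have e1 : ((512 - (x1 + y1) : ℕ) : ℝ) = 512 - (x1 + y1) := by
    rw [Nat.cast_sub (by omega)]
    push_cast
    ring
  have e2 : ((512 - (x0 + y0) : ℕ) : ℝ) = 512 - (x0 + y0) := by
    rw [Nat.cast_sub (by omega)]
    push_cast
    ring
  refine ⟨cellR tab x0 x1 y0 y1 sA sB sC k1 k2 k3, (m1 : ℝ) / 2 ^ 29, (m3 : ℝ) / 2 ^ 29, hok,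
    hx0, hx1.le, hy0, hy1.le, h00, h01, h10, h11, ?_, ?_, ?_⟩
  · exact valid_rg hVBA tab hT sA x0 x1 hA x hx.le hx0 hx1.le
  · exact valid_rg hVBA tab hT sB y0 y1 hB y hy.le hy0 hy1.le
  · refine valid_rg hVBA tab hT sC _ _ hC (2 - x - y) hxy.le ?_ ?_
    · rw [e1]; linarith
    · rw [e2]; linarith

theorem main (hRCI : SpecRCI) (hVBA : SpecVBA) (tab : ℕ → IPt)
    (hT : ∀ i : ℕ, i ≤ 14 → Valid (tab i).ptl ((17 + (i : ℝ)) / 32) ((18 + (i : ℝ)) / 32))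
    (V : ℕ) (t : R) : ∀ x0 x1 y0 y1 : ℕ, rchk tab V t x0 x1 y0 y1 = true → ∀ x y : ℝ, 0 < x →
      0 < y → 0 < 2 - x - y → 2 - x - y ≤ x → 2 - x - y ≤ y → (x0 : ℝ) / 256 ≤ x →
      x < (x1 : ℝ) / 256 → (y0 : ℝ) / 256 ≤ y → y < (y1 : ℝ) / 256 →
      At ((V : ℝ) / 2 ^ 30) x y := by
  induction t with
  | cl sA sB sC k1 k2 k3 m1 m3 t00 t01 t10 t11 =>
    intro x0 x1 y0 y1 h x y hx hy hxy _ _ h1 h2 h3 h4
    exact at_cell hRCI hVBA tab hT V x0 x1 y0 y1 sA sB sC k1 k2 k3 m1 m3 t00 t01 t10 t11 h x y hx hy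
      hxy h1 h2 h3 h4
  | sx m l r ihl ihr =>
    intro x0 x1 y0 y1 h x y hx hy hxy hz1 hz2 h1 h2 h3 h4
    have h' : (rchk tab V l x0 m y0 y1 && rchk tab V r m x1 y0 y1) = true := h
    obtain ⟨ha, hb⟩ := (Bool.and_eq_true _ _).mp h'
    by_cases hm : x < (m : ℝ) / 256
    · exact ihl x0 m y0 y1 ha x y hx hy hxy hz1 hz2 h1 hm h3 h4
    · exact ihr m x1 y0 y1 hb x y hx hy hxy hz1 hz2 (not_lt.mp hm) h2 h3 h4
  | sy m l r ihl ihr =>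
    intro x0 x1 y0 y1 h x y hx hy hxy hz1 hz2 h1 h2 h3 h4
    have h' : (rchk tab V l x0 x1 y0 m && rchk tab V r x0 x1 m y1) = true := h
    obtain ⟨ha, hb⟩ := (Bool.and_eq_true _ _).mp h'
    by_cases hm : y < (m : ℝ) / 256
    · exact ihl x0 x1 y0 m ha x y hx hy hxy hz1 hz2 h1 h2 h3 hm
    · exact ihr x0 x1 m y1 hb x y hx hy hxy hz1 hz2 h1 h2 (not_lt.mp hm) h4
  | out =>
    intro x0 x1 y0 y1 h x y hx hy hxy hz1 hz2 h1 h2 h3 h4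
    exfalso
    have h' : (Nat.ble (x1 + 2 * y1) 512 || Nat.ble (y1 + 2 * x1) 512) = true := h
    rcases (Bool.or_eq_true _ _).mp h' with ha | ha
    · have hb : x1 + 2 * y1 ≤ 512 := (ble_iff _ _).mp ha
      have hc : (x1 : ℝ) + 2 * y1 ≤ 512 := by exact_mod_cast hb
      linarith
    · have hb : y1 + 2 * x1 ≤ 512 := (ble_iff _ _).mp ha
      have hc : (y1 : ℝ) + 2 * x1 ≤ 512 := by exact_mod_cast hb
      linarith

end RCHM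

open RCHM in
theorem RCH (hRCI : SpecRCI) (hVBA : SpecVBA) : SpecRCH := by
  intro tab V t hT h x y hx hx1 hy hy1 hxy hz1 hz2
  have e0 : ((0 : ℕ) : ℝ) / 256 = 0 := by norm_num
  have e1 : ((256 : ℕ) : ℝ) / 256 = 1 := by norm_num
  exact main hRCI hVBA tab hT V t 0 256 0 256 h x y hx hy hxy hz1 hz2 (by rw [e0]; exact hx.le)
    (by rw [e1]; exact hx1) (by rw [e0]; exact hy.le) (by rw [e1]; exact hy1)

end Pool.Agent.Lib.MP250511.ST.Chk
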