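import Pool.Agent.Lib.MP_250511_an.ST.Spec5

/-!
Problem MP_250511_an, Q2, part 5.  Module RCI: a checked cell is a cell of the certificate
(from SCG, VRT).
-/

set_option autoImplicit false

namespace Pool.Agent.Lib.MP250511.ST.Chk

open Complex Metric Set MeasureTheory Filter Topology
open scoped Real ENNReal

namespace RCIM

theorem ee_re (u : ℝ) : (ee u).re = Real.cos (π * u) := by
  unfold ee
  exact Complex.exp_ofReal_mul_I_re _

theorem ee_im (u : ℝ) : (ee u).im = Real.sin (π * u) := by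
  unfold ee
  exact Complex.exp_ofReal_mul_I_im _

theorem ee_norm (u : ℝ) : ‖ee u‖ = 1 := by
  unfold ee
  exact Complex.norm_exp_ofReal_mul_I _

theorem dot_ee (u v : ℝ) : dot (ee u) (ee v) = Real.cos (π * u - π * v) := by
  unfold dot
  rw [ee_re, ee_im, ee_re, ee_im, Real.cos_sub]

theorem dot_one_ee (v : ℝ) : dot 1 (ee v) = Real.cos (π * v) := by
  unfold dot
  rw [ee_re, ee_im]
  simp

theorem dst_cast (a b : ℕ) : (dst a b : ℝ) = |(a : ℝ) - b| := by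
  have e : dst a b = (a - b) + (b - a) := rfl
  rw [e]
  rcases le_total a b with h | h
  · rw [Nat.sub_eq_zero_of_le h, zero_add, Nat.cast_sub h, abs_of_nonpos]
    · ring
    · have : (a : ℝ) ≤ b := by exact_mod_cast h
      linarith
  · rw [Nat.sub_eq_zero_of_le h, add_zero, Nat.cast_sub h, abs_of_nonneg]
    have : (b : ℝ) ≤ a := by exact_mod_cast h
    linarith

/-- the cosine is positive between two ends -/
theorem cos_mid {u v w k : ℝ} (h1 : |u - k| < 1 / 2) (h2 : |v - k| < 1 / 2) (hu : u ≤ w)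
    (hw : w ≤ v) : 0 < Real.cos (π * w - π * k) := by
  have a1 := (abs_lt.mp h1).1
  have a2 := (abs_lt.mp h2).2
  have hpi := Real.pi_pos
  have b1 : -(1 / 2) < w - k := by linarith
  have b2 : w - k < 1 / 2 := by linarith
  have c1 := mul_lt_mul_of_pos_left b1 hpi
  have c2 := mul_lt_mul_of_pos_left b2 hpi
  apply Real.cos_pos_of_mem_Ioo
  constructor
  · linarith
  · linarith

/-- an affine function on a rectangle -/
theorem aff {a b c x0 x1 y0 y1 m : ℝ} (h00 : m ≤ a + b * x0 + c * y0)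
    (h01 : m ≤ a + b * x0 + c * y1) (h10 : m ≤ a + b * x1 + c * y0)
    (h11 : m ≤ a + b * x1 + c * y1) {x y : ℝ} (hx0 : x0 ≤ x) (hx1 : x ≤ x1) (hy0 : y0 ≤ y)
    (hy1 : y ≤ y1) : m ≤ a + b * x + c * y := by
  rcases le_total 0 b with hb | hb <;> rcases le_total 0 c with hc | hc
  · have u := mul_le_mul_of_nonneg_left hx0 hb
    have v := mul_le_mul_of_nonneg_left hy0 hc
    linarith
  · have u := mul_le_mul_of_nonneg_left hx0 hb
    have v := mul_le_mul_of_nonpos_left hy1 hc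
    linarith
  · have u := mul_le_mul_of_nonpos_left hx1 hb
    have v := mul_le_mul_of_nonneg_left hy0 hc
    linarith
  · have u := mul_le_mul_of_nonpos_left hx1 hb
    have v := mul_le_mul_of_nonpos_left hy1 hc
    linarith

/-- the convexity condition -/
theorem cv {m g g' B B' : ℕ} (h : cvOk m g g' B B' = true) {γ γ' a a' : ℝ}
    (hg : γ = (g : ℝ) / 2 ^ 20) (hg' : γ' = (g' : ℝ) / 2 ^ 20) (ha : (B : ℝ) / 2 ^ 30 - 1 ≤ a)
    (ha' : (B' : ℝ) / 2 ^ 30 - 1 ≤ a') :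
    0 < (m : ℝ) / 2 ^ 29 ∧
      (γ - γ') ^ 2 / 4 ≤ (m : ℝ) / 2 ^ 29 * (9.8 * ((m : ℝ) / 2 ^ 29) + a + a') ∧
      0 ≤ 9.8 * ((m : ℝ) / 2 ^ 29) + a + a' := by
  have h' : ((Nat.ble 1 m && Nat.ble 21474836480 (196 * m + 10 * (B + B'))) &&
      Nat.ble (1310720 * (dst g g' * dst g g'))
        (m * (196 * m + 10 * (B + B') - 21474836480))) = true := h
  simp only [Bool.and_eq_true, Nat.ble_eq] at h'
  obtain ⟨⟨hm, hD⟩, hc⟩ := h'
  have hm0 : (0 : ℝ) < m := by exact_mod_cast hm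
  have hDr : (21474836480 : ℝ) ≤ 196 * m + 10 * (B + B') := by exact_mod_cast hD
  have hcr : (1310720 : ℝ) * ((dst g g' : ℝ) * (dst g g' : ℝ)) ≤
      m * (196 * m + 10 * (B + B') - 21474836480) := by
    have h2 : ((1310720 * (dst g g' * dst g g') : ℕ) : ℝ) ≤
        ((m * (196 * m + 10 * (B + B') - 21474836480) : ℕ) : ℝ) := Nat.cast_le.mpr hc
    rw [Nat.cast_mul, Nat.cast_mul m, Nat.cast_sub hD] at h2
    push_cast at h2
    linarith
  rw [dst_cast, abs_mul_abs_self] at hcr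
  have hlow : (196 * (m : ℝ) + 10 * (B + B') - 21474836480) / (10 * 2 ^ 30) ≤
      9.8 * ((m : ℝ) / 2 ^ 29) + a + a' := by
    have e : (196 * (m : ℝ) + 10 * (B + B') - 21474836480) / (10 * 2 ^ 30) =
        9.8 * ((m : ℝ) / 2 ^ 29) + ((B : ℝ) / 2 ^ 30 - 1) + ((B' : ℝ) / 2 ^ 30 - 1) := by
      norm_num
      ring
    rw [e]
    linarith
  have hmp : 0 < (m : ℝ) / 2 ^ 29 := div_pos hm0 (by norm_num)
  refine ⟨hmp, ?_, ?_⟩
  · refine le_trans ?_ (mul_le_mul_of_nonneg_left hlow hmp.le)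
    rw [hg, hg']
    have e1 : ((g : ℝ) / 2 ^ 20 - (g' : ℝ) / 2 ^ 20) ^ 2 / 4 =
        (1310720 * (((g : ℝ) - g') * ((g : ℝ) - g'))) / (10 * 2 ^ 59) := by
      norm_num
      ring
    have e2 : (m : ℝ) / 2 ^ 29 *
        ((196 * (m : ℝ) + 10 * (B + B') - 21474836480) / (10 * 2 ^ 30)) =
        (m * (196 * m + 10 * (B + B') - 21474836480)) / (10 * 2 ^ 59) := by
      norm_num
      ring
    rw [e1, e2]
    exact div_le_div_of_nonneg_right hcr (by norm_num)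
  · refine le_trans ?_ hlow
    apply div_nonneg
    · linarith
    · norm_num

/-- distance of directions -/
theorem dst_lt {a k : ℕ} (h : dst a k ≤ 1023) {u : ℝ} (hu : u = ((a : ℝ) - 4096) / 2048) :
    |u - ((k : ℝ) - 4096) / 2048| < 1 / 2 := by
  have h1 : (dst a k : ℝ) ≤ 1023 := by exact_mod_cast h
  rw [dst_cast] at h1
  rw [hu, show ((a : ℝ) - 4096) / 2048 - ((k : ℝ) - 4096) / 2048 = ((a : ℝ) - k) / 2048 by ring,
    abs_div, abs_of_pos (by norm_num : (0 : ℝ) < 2048)]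
  rw [div_lt_iff₀ (by norm_num)]
  linarith

end RCIM

open RCIM in
theorem RCI (h₁ : SpecSCG) (h₂ : SpecVRT) : SpecRCI := by
  intro tab V x0 x1 y0 y1 sA sB sC k1 k2 k3 m1 m3 t00 t01 t10 t11 h
  unfold cell at h
  simp only [Bool.and_eq_true, Nat.ble_eq] at h
  obtain ⟨⟨⟨⟨hx01, hx1⟩, hy01, hy1⟩, ⟨rA, rB⟩, rC⟩, ⟨⟨⟨k1a, k1b⟩, k2a, k2b⟩, ⟨k3a, k3b⟩, dx0, dx1,
    d2, dy0, dy1⟩, ⟨c1, c3⟩, ⟨v00, v01⟩, v10, v11⟩ := h
  have gA := h₁ tab sA _ _ rA
  have gB := h₁ tab sB _ _ rB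
  have gC := h₁ tab sC _ _ rC
  have hx0 : x0 ≤ 256 := le_trans hx01 hx1
  have hy0 : y0 ≤ 256 := le_trans hy01 hy1
  obtain ⟨w00, p00, q00, r00⟩ := h₂ tab V x0 x1 y0 y1 x0 y0 sA sB sC k1 k2 k3 m1 m3 t00 hx0 hy0
    gA gB gC k1a k1b k2a k2b k3a k3b dx0 d2 dy0 v00
  obtain ⟨w01, p01, q01, r01⟩ := h₂ tab V x0 x1 y0 y1 x0 y1 sA sB sC k1 k2 k3 m1 m3 t01 hx0 hy1
    gA gB gC k1a k1b k2a k2b k3a k3b dx0 d2 dy1 v01
  obtain ⟨w10, p10, q10, r10⟩ := h₂ tab V x0 x1 y0 y1 x1 y0 sA sB sC k1 k2 k3 m1 m3 t10 hx1 hy0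
    gA gB gC k1a k1b k2a k2b k3a k3b dx1 d2 dy0 v10
  obtain ⟨w11, p11, q11, r11⟩ := h₂ tab V x0 x1 y0 y1 x1 y1 sA sB sC k1 k2 k3 m1 m3 t11 hx1 hy1
    gA gB gC k1a k1b k2a k2b k3a k3b dx1 d2 dy1 v11
  refine ⟨?_, w00, w01, w10, w11⟩
  have X0 : (0 : ℝ) ≤ (x0 : ℝ) := Nat.cast_nonneg _
  have Y0 : (0 : ℝ) ≤ (y0 : ℝ) := Nat.cast_nonneg _
  have X01 : (x0 : ℝ) ≤ x1 := by exact_mod_cast hx01
  have Y01 : (y0 : ℝ) ≤ y1 := by exact_mod_cast hy01
  have X1 : (x1 : ℝ) ≤ 256 := by exact_mod_cast hx1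
  have Y1 : (y1 : ℝ) ≤ 256 := by exact_mod_cast hy1
  obtain ⟨hm1, hc1, hc1'⟩ := cv c1 gA.g₁ gC.g₂ gA.L gC.L
  obtain ⟨hm3, hc3, hc3'⟩ := cv c3 gB.g₂ gC.g₁ gB.L gC.L
  constructor
  · exact ⟨by show (0 : ℝ) ≤ (x0 : ℝ) / 256; positivity,
      by show (x0 : ℝ) / 256 ≤ (x1 : ℝ) / 256; linarith,
      by show (x1 : ℝ) / 256 ≤ 1; linarith⟩
  · exact ⟨by show (0 : ℝ) ≤ (y0 : ℝ) / 256; positivity,
      by show (y0 : ℝ) / 256 ≤ (y1 : ℝ) / 256; linarith,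
      by show (y1 : ℝ) / 256 ≤ 1; linarith⟩
  · exact ee_norm _
  · exact ee_norm _
  · exact ee_norm _
  · intro x hx hx'
    change (x0 : ℝ) / 256 ≤ x at hx
    change x ≤ (x1 : ℝ) / 256 at hx'
    show 0 < dot (ee (-x)) (ee (((k1 : ℝ) - 4096) / 2048))
    rw [dot_ee]
    refine cos_mid (u := -((x1 : ℝ) / 256)) (v := -((x0 : ℝ) / 256)) (dst_lt dx1 ?_)
      (dst_lt dx0 ?_) (by linarith) (by linarith)
    · rw [show Nat.sub 4096 (Nat.mul 8 x1) = 4096 - 8 * x1 from rfl, Nat.cast_sub (by omega)]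
      push_cast
      ring
    · rw [show Nat.sub 4096 (Nat.mul 8 x0) = 4096 - 8 * x0 from rfl, Nat.cast_sub (by omega)]
      push_cast
      ring
  · show 0 < dot 1 (ee (((k2 : ℝ) - 4096) / 2048))
    have h0 := dst_lt d2 (u := 0) (by norm_num)
    have := cos_mid h0 h0 le_rfl le_rfl
    rw [dot_one_ee]
    rw [show π * 0 - π * (((k2 : ℝ) - 4096) / 2048) = -(π * (((k2 : ℝ) - 4096) / 2048)) by ring,
      Real.cos_neg] at this
    exact this
  · intro y hy hy'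
    change (y0 : ℝ) / 256 ≤ y at hy
    change y ≤ (y1 : ℝ) / 256 at hy'
    show 0 < dot (ee y) (ee (((k3 : ℝ) - 4096) / 2048))
    rw [dot_ee]
    refine cos_mid (u := (y0 : ℝ) / 256) (v := (y1 : ℝ) / 256) (dst_lt dy0 ?_)
      (dst_lt dy1 ?_) (by linarith) (by linarith)
    · rw [show Nat.add 4096 (Nat.mul 8 y0) = 4096 + 8 * y0 from rfl]
      push_cast
      ring
    · rw [show Nat.add 4096 (Nat.mul 8 y1) = 4096 + 8 * y1 from rfl]
      push_cast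
      ring
  · exact hm1
  · exact hm3
  · intro x y hx hx' hy hy'
    have e : ∀ u v : ℝ, (cellR tab x0 x1 y0 y1 sA sB sC k1 k2 k3).q₁ u v =
        (ptS tab sC).g₂ + ((ptS tab sA).g₁ - (ptS tab sC).g₂) / 2 * u +
          (-((ptS tab sC).g₂ / 2)) * v := by
      intro u v
      show ((2 - u - v) * (ptS tab sC).g₂ + u * (ptS tab sA).g₁) / 2 = _
      ring
    rw [e] at p00 p01 p10 p11
    rw [e]
    exact aff p00 p01 p10 p11 hx hx' hy hy'
  · intro x y hx hx' hy hy'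
    have e : ∀ u v : ℝ, (cellR tab x0 x1 y0 y1 sA sB sC k1 k2 k3).q₂ u v =
        0 + (ptS tab sA).g₂ / 2 * u + (ptS tab sB).g₁ / 2 * v := by
      intro u v
      show (u * (ptS tab sA).g₂ + v * (ptS tab sB).g₁) / 2 = _
      ring
    rw [e] at q00 q01 q10 q11
    rw [e]
    exact aff q00 q01 q10 q11 hx hx' hy hy'
  · intro x y hx hx' hy hy'
    have e : ∀ u v : ℝ, (cellR tab x0 x1 y0 y1 sA sB sC k1 k2 k3).q₃ u v =
        (ptS tab sC).g₁ + (-((ptS tab sC).g₁ / 2)) * u +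
          ((ptS tab sB).g₂ - (ptS tab sC).g₁) / 2 * v := by
      intro u v
      show (v * (ptS tab sB).g₂ + (2 - u - v) * (ptS tab sC).g₁) / 2 = _
      ring
    rw [e] at r00 r01 r10 r11
    rw [e]
    exact aff r00 r01 r10 r11 hx hx' hy hy'
  · exact hc1
  · exact hc1'
  · exact hc3
  · exact hc3'

end Pool.Agent.Lib.MP250511.ST.Chk
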