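import Pool.Agent.Lib.MP_250511_an.ST.Spec2

/-! Module ROR: rotation of the sector certificate. -/

set_option autoImplicit false

namespace Pool.Agent.Lib.MP250511.ST

open scoped Real

namespace RORM

theorem rot_pt (ρ φ ψ : ℝ) : Complex.exp ((φ : ℂ) * Complex.I) * pt ρ ψ = pt ρ (ψ + φ) := by
  unfold pt
  rw [← Complex.exp_add]
  congr 1
  push_cast
  ring

end RORM

theorem specROR : SpecROR := by
  intro W θ φ α v h
  obtain ⟨n, a, B, ρ, c, ha, hs, hp, hB, hB1, hc, hv⟩ := h
  refine ⟨n, a, B, ρ, c, ha, hs, ?_, hB, hB1, hc, hv⟩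
  intro j hj
  have h1 := hp j hj
  rw [Set.mem_ofPred_eq, RORM.rot_pt] at h1
  have e : θ + φ + π * psum a j = θ + π * psum a j + φ := by ring
  rw [e]
  exact h1

end Pool.Agent.Lib.MP250511.ST
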