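import Pool.Agent.Lib.MP_250511_an.ST.Spec5

/-!
Problem MP_250511_an, Q2, part 5.  Module SCG: sector data of the potentials.
-/

set_option autoImplicit false

namespace Pool.Agent.Lib.MP250511.ST.Chk

open Complex Metric Set MeasureTheory Filter Topology
open scoped Real ENNReal

noncomputable section

namespace SCGM

theorem nmul (a b : ℕ) : Nat.mul a b = a * b := rfl
theorem nadd (a b : ℕ) : Nat.add a b = a + b := rfl
theorem nsub (a b : ℕ) : Nat.sub a b = a - b := rfl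
theorem ndiv (a b : ℕ) : Nat.div a b = a / b := rfl

theorem ble_false (g m : ℕ) (h : m < g) : Nat.ble g m = false := by
  cases hx : Nat.ble g m with
  | false => rfl
  | true => exact absurd (Nat.ble_eq.mp hx) (Nat.not_le.mpr h)

theorem ml_eq (m : ℕ) : ml m = m * (le m + 16) := by
  unfold ml; rw [nmul, nadd]

theorem BU_eq (Q : ℕ) : (secB Q).BU = (1073741825 + (ml Q + ml (64 - Q)) / 64) -
    (17179869184 + 4 * LN2L) := by
  unfold secB
  dsimp only
  rw [nsub _ (Nat.add 17179869184 _), nadd 1073741825, nadd 17179869184, nmul 4 LN2L, ndiv,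
    nadd (ml Q), nsub 64 Q]

theorem BL_eq (Q : ℕ) : (secB Q).BL = (1073741824 + (Q * le Q + (64 - Q) * le (64 - Q)) / 64) -
    (17179869184 + 4 * LN2U) := by
  unfold secB
  dsimp only
  rw [nsub _ (Nat.add 17179869184 (Nat.mul 4 LN2U)), nadd 1073741824, nadd 17179869184,
    nmul 4 LN2U, ndiv, nadd (Nat.mul Q (le Q)), nsub 64 Q, nmul Q (le Q), nmul (64 - Q)]

theorem div_lo (a : ℕ) : (a : ℝ) / 64 - 1 ≤ ((a / 64 : ℕ) : ℝ) := by
  have h1 : a < 64 * (a / 64 + 1) := by omega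
  have h2 : (a : ℝ) < 64 * (((a / 64 : ℕ) : ℝ) + 1) := by exact_mod_cast h1
  linarith

theorem div_hi (a : ℕ) : ((a / 64 : ℕ) : ℝ) ≤ (a : ℝ) / 64 := by
  have h1 : 64 * (a / 64) ≤ a := by omega
  have h2 : 64 * ((a / 64 : ℕ) : ℝ) ≤ (a : ℝ) := by exact_mod_cast h1
  linarith

theorem sub_lo (a b : ℕ) : (a : ℝ) - b ≤ ((a - b : ℕ) : ℝ) := by
  have h1 : a ≤ (a - b) + b := by omega
  have h2 : (a : ℝ) ≤ ((a - b : ℕ) : ℝ) + b := by exact_mod_cast h1
  linarith

/-- the coefficient of the potential without inner slits -/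
theorem A1_eq (Q : ℕ) (h1 : 1 ≤ Q) (h2 : Q ≤ 63) :
    Real.log 4 + (Q : ℝ) / 64 * Real.log ((Q : ℝ) / 64) +
      (1 - (Q : ℝ) / 64) * Real.log (1 - (Q : ℝ) / 64) =
    ((Q : ℝ) * Real.log Q + ((64 - Q : ℕ) : ℝ) * Real.log ((64 - Q : ℕ) : ℝ)) / 64 -
      4 * Real.log 2 := by
  have hQ : (Q : ℝ) ≠ 0 := by exact_mod_cast (by omega : Q ≠ 0)
  have hR : ((64 - Q : ℕ) : ℝ) ≠ 0 := by exact_mod_cast (by omega : 64 - Q ≠ 0)
  have hc : ((64 - Q : ℕ) : ℝ) = 64 - (Q : ℝ) := by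
    rw [Nat.cast_sub (by omega)]; norm_num
  have e4 : Real.log 4 = 2 * Real.log 2 := by
    rw [show (4 : ℝ) = 2 ^ (2 : ℕ) by norm_num, Real.log_pow]; norm_num
  have e64 : Real.log 64 = 6 * Real.log 2 := by
    rw [show (64 : ℝ) = 2 ^ (6 : ℕ) by norm_num, Real.log_pow]; norm_num
  have e1 : 1 - (Q : ℝ) / 64 = ((64 - Q : ℕ) : ℝ) / 64 := by rw [hc]; ring
  rw [e1, Real.log_div hQ (by norm_num), Real.log_div hR (by norm_num), e4, e64, hc]
  ring

theorem A1_ge (Q : ℕ) (h1 : 1 ≤ Q) (h2 : Q ≤ 63) :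
    -1 ≤ Real.log 4 + (Q : ℝ) / 64 * Real.log ((Q : ℝ) / 64) +
      (1 - (Q : ℝ) / 64) * Real.log (1 - (Q : ℝ) / 64) := by
  have hQ : (1 : ℝ) ≤ (Q : ℝ) := by exact_mod_cast h1
  have hQ2 : (Q : ℝ) ≤ 63 := by exact_mod_cast h2
  have key : ∀ x : ℝ, 0 < x → x - 1 ≤ x * Real.log x := by
    intro x hx
    have := mul_le_mul_of_nonneg_left (Real.one_sub_inv_le_log_of_pos hx) hx.le
    rwa [mul_sub, mul_one, mul_inv_cancel₀ hx.ne'] at this
  have k1 := key ((Q : ℝ) / 64) (by linarith)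
  have k2 := key (1 - (Q : ℝ) / 64) (by linarith)
  have k3 : 0 ≤ Real.log 4 := Real.log_nonneg (by norm_num)
  linarith

end SCGM

open SCGM in
theorem specSCG (hLEE : SpecLEE) (hLN2 : SpecLN2) : SpecSCG := by
  intro tab c z0 z1 h
  by_cases hc : 64 ≤ c
  · have hb : Nat.ble 64 c = true := Nat.ble_eq.mpr hc
    have e1 : sec tab c = secP (tab (c - 64)) := by
      unfold sec; rw [hb, cond_true, nsub]
    have e2 : ptS tab c = (tab (c - 64)).ptl := by
      unfold ptS; rw [if_neg (by omega)]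
    have hBn : (tab (c - 64)).Bn ≤ 1048576 := by
      unfold rgOk at h
      rw [hb, cond_true, Bool.and_eq_true, Bool.and_eq_true, Bool.and_eq_true, Nat.ble_eq,
        Nat.ble_eq, Nat.ble_eq, Nat.ble_eq, nsub] at h
      exact h.2.2
    rw [e1, e2]
    generalize tab (c - 64) = P at hBn
    have hB : ((Nat.sub (Nat.add 1073741824 (Nat.mul P.Bp 1024)) (Nat.mul P.Bn 1024) : ℕ) : ℝ) =
        1073741824 + (P.Bp : ℝ) * 1024 - (P.Bn : ℝ) * 1024 := by
      rw [nsub, nadd, nmul, nmul, Nat.cast_sub (by omega)]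
      push_cast
      ring
    refine ⟨rfl, ?_, ?_, rfl, rfl⟩
    · show ((P.Bp : ℝ) - P.Bn) / 2 ^ 20 ≤
        ((Nat.sub (Nat.add 1073741824 (Nat.mul P.Bp 1024)) (Nat.mul P.Bn 1024) : ℕ) : ℝ) / 2 ^ 30 - 1
      rw [hB]
      apply le_of_eq
      ring
    · show ((Nat.sub (Nat.add 1073741824 (Nat.mul P.Bp 1024)) (Nat.mul P.Bn 1024) : ℕ) : ℝ) / 2 ^ 30 - 1
        ≤ ((P.Bp : ℝ) - P.Bn) / 2 ^ 20
      rw [hB]
      apply le_of_eq
      ring
  · have hb : Nat.ble 64 c = false := ble_false _ _ (by omega)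
    have e1 : sec tab c = secB c := by
      unfold sec; rw [hb, cond_false]
    have hc1 : 1 ≤ c := by
      unfold rgOk at h
      rw [hb, cond_false, Bool.and_eq_true, Nat.ble_eq, Nat.ble_eq] at h
      exact h.1
    have hc2 : c ≤ 63 := by omega
    have e2 : ptS tab c = ⟨0, Real.log 4 + (c : ℝ) / 64 * Real.log ((c : ℝ) / 64) +
      (1 - (c : ℝ) / 64) * Real.log (1 - (c : ℝ) / 64), (c : ℝ) / 64, 1 - (c : ℝ) / 64⟩ := by
      unfold ptS; rw [if_pos (by omega)]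
    obtain ⟨hl1, hl2⟩ := hLN2
    obtain ⟨a1, a2⟩ := hLEE c hc1 (by omega)
    obtain ⟨b1, b2⟩ := hLEE (64 - c) (by omega) (by omega)
    have hcr : ((64 - c : ℕ) : ℝ) = 64 - (c : ℝ) := by
      rw [Nat.cast_sub (by omega)]; norm_num
    have hc0 : (0 : ℝ) ≤ (c : ℝ) := Nat.cast_nonneg _
    have hd0 : (0 : ℝ) ≤ ((64 - c : ℕ) : ℝ) := Nat.cast_nonneg _
    have m1 := mul_le_mul_of_nonneg_left a1 hc0
    have m2 := mul_le_mul_of_nonneg_left a2 hc0
    have m3 := mul_le_mul_of_nonneg_left b1 hd0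
    have m4 := mul_le_mul_of_nonneg_left b2 hd0
    rw [e1, e2]
    refine ⟨?_, ?_, ?_, ?_, ?_⟩
    · show (0 : ℝ) = ((0 : ℕ) : ℝ) / 2 ^ 20
      simp
    · show Real.log 4 + (c : ℝ) / 64 * Real.log ((c : ℝ) / 64) +
        (1 - (c : ℝ) / 64) * Real.log (1 - (c : ℝ) / 64) ≤ ((secB c).BU : ℝ) / 2 ^ 30 - 1
      rw [A1_eq c hc1 hc2, BU_eq]
      have s1 := sub_lo (1073741825 + (ml c + ml (64 - c)) / 64) (17179869184 + 4 * LN2L)
      have s2 := div_lo (ml c + ml (64 - c))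
      rw [ml_eq, ml_eq] at s1 s2
      rw [ml_eq, ml_eq]
      have e3 : ((c * (le c + 16) + (64 - c) * (le (64 - c) + 16) : ℕ) : ℝ) =
          (c : ℝ) * ((le c : ℝ) + 16) + ((64 - c : ℕ) : ℝ) * ((le (64 - c) : ℝ) + 16) := by
        push_cast; ring
      have e4 : ((1073741825 + (c * (le c + 16) + (64 - c) * (le (64 - c) + 16)) / 64 : ℕ) : ℝ) =
          1073741825 + (((c * (le c + 16) + (64 - c) * (le (64 - c) + 16)) / 64 : ℕ) : ℝ) := by
        rw [Nat.cast_add]; norm_num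
      have e5 : ((17179869184 + 4 * LN2L : ℕ) : ℝ) = 17179869184 + 4 * (LN2L : ℝ) := by
        rw [Nat.cast_add, Nat.cast_mul]; norm_num
      rw [e3] at s2
      rw [e4, e5] at s1
      rw [le_sub_iff_add_le, le_div_iff₀ (by positivity)]
      refine le_trans ?_ s1
      have hs : (c : ℝ) + ((64 - c : ℕ) : ℝ) = 64 := by rw [hcr]; ring
      generalize ((64 - c : ℕ) : ℝ) = D at *
      generalize (((c * (le c + 16) + (64 - c) * (le (64 - c) + 16)) / 64 : ℕ) : ℝ) = X at *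
      clear s1 e3 e4 e5 e1 e2 h
      nlinarith [m2, m4, s2, hl1, hs]
    · show ((secB c).BL : ℝ) / 2 ^ 30 - 1 ≤ Real.log 4 + (c : ℝ) / 64 * Real.log ((c : ℝ) / 64) +
        (1 - (c : ℝ) / 64) * Real.log (1 - (c : ℝ) / 64)
      rw [BL_eq]
      by_cases hle : 17179869184 + 4 * LN2U ≤
          1073741824 + (c * le c + (64 - c) * le (64 - c)) / 64
      · rw [A1_eq c hc1 hc2, Nat.cast_sub hle]
        have s2 := div_hi (c * le c + (64 - c) * le (64 - c))
        have e3 : ((c * le c + (64 - c) * le (64 - c) : ℕ) : ℝ) =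
            (c : ℝ) * (le c : ℝ) + ((64 - c : ℕ) : ℝ) * (le (64 - c) : ℝ) := by
          push_cast; ring
        have e4 : ((1073741824 + (c * le c + (64 - c) * le (64 - c)) / 64 : ℕ) : ℝ) =
            1073741824 + (((c * le c + (64 - c) * le (64 - c)) / 64 : ℕ) : ℝ) := by
          rw [Nat.cast_add]; norm_num
        have e5 : ((17179869184 + 4 * LN2U : ℕ) : ℝ) = 17179869184 + 4 * (LN2U : ℝ) := by
          rw [Nat.cast_add, Nat.cast_mul]; norm_num
        rw [e3] at s2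
        rw [e4, e5, sub_le_iff_le_add, div_le_iff₀ (by positivity)]
        have hs : (c : ℝ) + ((64 - c : ℕ) : ℝ) = 64 := by rw [hcr]; ring
        generalize ((64 - c : ℕ) : ℝ) = D at *
        generalize (((c * le c + (64 - c) * le (64 - c)) / 64 : ℕ) : ℝ) = X at *
        clear e3 e4 e5 e1 e2 h hle
        nlinarith [m1, m3, s2, hl2, hs]
      · rw [Nat.sub_eq_zero_of_le (by omega), Nat.cast_zero, zero_div, zero_sub]
        exact A1_ge c hc1 hc2
    · show (c : ℝ) / 64 = ((Nat.mul c 16384 : ℕ) : ℝ) / 2 ^ 20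
      rw [nmul]
      push_cast
      ring
    · show 1 - (c : ℝ) / 64 = ((Nat.mul (Nat.sub 64 c) 16384 : ℕ) : ℝ) / 2 ^ 20
      rw [nmul, nsub, Nat.cast_mul, hcr]
      push_cast
      ring

end

end Pool.Agent.Lib.MP250511.ST.Chk
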