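import Pool.Agent.Lib.MP_250511_an.ST.Spec
import Pool.Agent.Lib.MP_250511_an.INV

/-! Module SCL: normalisation. -/

set_option autoImplicit false

namespace Pool.Agent.Lib.MP250511.ST

open Complex Metric Set
open scoped Real ENNReal

theorem specSCL : SpecSCL := by
  intro τ hτ hS
  obtain ⟨g, hg⟩ := iInf_lt_iff.1 hS
  obtain ⟨⟨hU, hstar⟩, hr⟩ := iInf_lt_iff.1 hg
  have hτ' : (τ : ℂ) ≠ 0 := by exact_mod_cast hτ.ne'
  have hfa : AnalyticOnNhd ℂ (fun z => g z / (τ : ℂ)) (ball 0 1) := fun z hz =>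
    (hU.an z hz).div analyticAt_const hτ'
  have hfi : InjOn (fun z => g z / (τ : ℂ)) (ball 0 1) := by
    intro z hz w hw h
    apply hU.inj hz hw
    have h1 : g z / (τ : ℂ) = g w / (τ : ℂ) := h
    rwa [div_left_inj' hτ'] at h1
  have hmem : ∀ w : ℂ, w ∈ (fun z => g z / (τ : ℂ)) '' ball 0 1 ↔ (τ : ℂ) * w ∈ g '' ball 0 1 := by
    intro w
    constructor
    · rintro ⟨z, hz, rfl⟩
      exact ⟨z, hz, by field_simp⟩
    · rintro ⟨z, hz, h⟩
      refine ⟨z, hz, ?_⟩
      show g z / (τ : ℂ) = w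
      rw [h]; field_simp
  refine ⟨fun z => g z / (τ : ℂ), ⟨hfa, hfi, ?_, by positivity, ?_⟩, ?_, ?_, ?_, ?_⟩
  · show g 0 / (τ : ℂ) = 0
    rw [hU.zero, zero_div]
  · rw [deriv_div_const, hU.one]
    push_cast
    ring
  · rw [isClosed_compl_iff]
    exact (specINV _ hfa hfi).2.1
  · intro h
    apply h
    rw [hmem]
    exact ⟨0, mem_ball_self one_pos, by rw [hU.zero, mul_zero]⟩
  · intro w hw t ht h
    apply hw
    rw [hmem] at h ⊢
    have ht0 : (0 : ℝ) < t := by linarith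
    have h1 := hstar.smul_mem h (t := 1 / t) (by positivity) (by
      rw [div_le_one ht0]; exact ht)
    have e : (1 / t : ℝ) • ((τ : ℂ) * ((t : ℂ) * w)) = (τ : ℂ) * w := by
      have ht' : (t : ℂ) ≠ 0 := by exact_mod_cast ht0.ne'
      rw [Complex.real_smul]
      push_cast
      field_simp
    rw [e] at h1
    exact h1
  · intro c
    by_contra hcon
    push Not at hcon
    have hsub : ball ((τ : ℂ) * c) τ ⊆ g '' ball 0 1 := by
      intro v hv
      by_contra hv'
      have h1 : v / (τ : ℂ) ∈ ((fun z => g z / (τ : ℂ)) '' ball 0 1)ᶜ := by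
        intro h
        rw [hmem] at h
        apply hv'
        have e : (τ : ℂ) * (v / (τ : ℂ)) = v := by field_simp
        rwa [e] at h
      have h2 := hcon _ h1
      rw [mem_ball, dist_eq_norm] at hv
      have e : v / (τ : ℂ) - c = (v - (τ : ℂ) * c) / (τ : ℂ) := by field_simp
      rw [e, norm_div, Complex.norm_real, Real.norm_of_nonneg hτ.le, lt_div_iff₀ hτ, one_mul] at h2
      linarith
    have h3 : ENNReal.ofReal τ ≤ rho g :=
      le_iSup₂_of_le (f := fun (c : ℂ) (r : ℝ) => ⨆ (_ : ball c r ⊆ g '' ball 0 1),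
        ENNReal.ofReal r) ((τ : ℂ) * c) τ (le_iSup_of_le hsub le_rfl)
    exact absurd hr (not_lt.2 h3)

end Pool.Agent.Lib.MP250511.ST
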