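import Pool.Agent.Lib.MP_250511_an.ST.Spec4

/-!
# SEG: consecutive boxes (MP_250511_an, Q2, part 4)
-/

set_option autoImplicit false

namespace Pool.Agent.Lib.MP250511.ST.Chk

open Complex Metric Set MeasureTheory Filter Topology
open scoped Real ENNReal

theorem specSEG (hCHI : SpecCHI) : SpecSEG := by
  intro P al0 al1 a b l
  induction l with
  | nil =>
    intro u v h r₁ r₂ α _ _ h3 h4 _ _
    exfalso
    have h' : v ≤ u := Nat.ble_eq.mp h
    have h'' : (v : ℝ) ≤ u := by exact_mod_cast h'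
    linarith
  | cons x l ih =>
    intro u v h r₁ r₂ α h1 h2 h3 h4 h5 h6
    obtain ⟨m, t⟩ := x
    have hh : (top P a b u m al0 al1 t && segOk P al0 al1 a b l m v) = true := h
    rw [Bool.and_eq_true] at hh
    rcases le_or_gt r₂ ((m : ℝ) / 256) with hm | hm
    · exact ⟨bx a b u m al0 al1, hCHI P a b u m al0 al1 t hh.1, h1.le, h2, h3.le, hm, h5, h6⟩
    · exact ih m v hh.2 r₁ r₂ α h1 h2 hm h4 h5 h6

end Pool.Agent.Lib.MP250511.ST.Chk
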