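import Pool.Agent.Lib.MP_250511_an.ST.Spec

/-!
Problem MP_250511_an, Q2: module SEL (the bounds at the level `m`, from SLF, NEA).
-/

set_option autoImplicit false

namespace Pool.Agent.Lib.MP250511.ST

open Complex Metric Set MeasureTheory Filter Topology
open scoped Real ENNReal

noncomputable section

namespace SELM

/-- the modulus of the map of the half strip -/
theorem norm_ww {n : ℕ} (a B : Fin n → ℝ) (c θ : ℝ) (ζ : ℂ) :
    ‖ww a B c θ ζ‖ = Real.exp (c + (GG a B ζ).re) := by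
  unfold ww
  rw [Complex.norm_exp]
  congr 1
  simp

/-- the real part increases along horizontal lines -/
theorem re_mono {n : ℕ} (a B : Fin n → ℝ)
    (hd : ∀ ζ : ℂ, ζ.re < 0 → DifferentiableAt ℂ (GG a B) ζ ∧ 0 < (deriv (GG a B) ζ).re)
    (x₀ x₁ y : ℝ) (h : x₀ ≤ x₁) (h1 : x₁ < 0) :
    (GG a B ((x₀ : ℂ) + y * I)).re ≤ (GG a B ((x₁ : ℂ) + y * I)).re := by
  set g : ℝ → ℝ := fun x => (GG a B ((x : ℂ) + y * I)).re with hg
  have hder : ∀ x : ℝ, x < 0 → HasDerivAt g ((deriv (GG a B) ((x : ℂ) + y * I)).re) x := by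
    intro x hx
    have h2 : ((x : ℂ) + y * I).re < 0 := by simpa using hx
    have h3 : HasDerivAt (fun z : ℂ => GG a B (z + y * I)) (deriv (GG a B) ((x : ℂ) + y * I))
        (x : ℂ) := by
      have h4 := (hd _ h2).1.hasDerivAt
      have h5 : HasDerivAt (fun z : ℂ => z + y * I) 1 (x : ℂ) :=
        (hasDerivAt_id (x : ℂ)).add_const _
      have h6 := HasDerivAt.comp (x : ℂ) h4 h5
      rw [mul_one] at h6
      exact h6
    exact h3.real_of_complex
  have hmono : MonotoneOn g (Icc x₀ x₁) := by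
    refine monotoneOn_of_deriv_nonneg (convex_Icc _ _) ?_ ?_ ?_
    · intro x hx
      exact (hder x (lt_of_le_of_lt hx.2 h1)).continuousAt.continuousWithinAt
    · intro x hx
      rw [interior_Icc] at hx
      exact (hder x (hx.2.trans h1)).differentiableAt.differentiableWithinAt
    · intro x hx
      rw [interior_Icc] at hx
      have hx0 : x < 0 := hx.2.trans h1
      rw [(hder x hx0).deriv]
      exact (hd _ (by simpa using hx0)).2.le
  exact hmono (left_mem_Icc.2 h) (right_mem_Icc.2 h) h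

end SELM

open SELM in
theorem specSEL (hSLF : SpecSLF) (hNEA : SpecNEA) : SpecSEL := by
  intro f h R hf hh n a B c θ ha hB ε hε
  obtain ⟨hd, _, K, hK⟩ := hSLF (n + 1) a B (Nat.succ_pos n) ha hB
  set α : ℝ := ∑ l, a l with hα
  have hα0 : 0 < α := Finset.sum_pos (fun l _ => ha l) Finset.univ_nonempty
  have hR := hf.pos
  set ε' : ℝ := 1 - Real.exp (-(ε / 2)) with hε'
  have he1 : Real.exp (-(ε / 2)) < 1 := by
    rw [Real.exp_lt_one_iff]
    linarith
  have he0 : 0 < Real.exp (-(ε / 2)) := Real.exp_pos _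
  have hε'0 : 0 < ε' := by linarith
  have hε'1 : 1 + ε' ≤ Real.exp (ε / 2) := by
    have h1 : Real.exp (-(ε / 2)) = (Real.exp (ε / 2))⁻¹ := Real.exp_neg _
    have h2 : 0 < Real.exp (ε / 2) := Real.exp_pos _
    have h3 : 2 ≤ Real.exp (ε / 2) + (Real.exp (ε / 2))⁻¹ := by
      have h4 : Real.exp (ε / 2) + (Real.exp (ε / 2))⁻¹ - 2 =
          (Real.exp (ε / 2) - 1) ^ 2 * (Real.exp (ε / 2))⁻¹ := by
        field_simp
        ring
      have h5 : 0 ≤ (Real.exp (ε / 2) - 1) ^ 2 * (Real.exp (ε / 2))⁻¹ := by positivity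
      linarith
    rw [hε', h1]
    linarith
  obtain ⟨η, hη, hN1, hN2, hN3⟩ := hNEA f R hf ε' hε'0
  -- the level
  have hX : Tendsto (fun m : ℝ => (m + c - Real.log R) / α) atTop atTop := by
    have h1 : Tendsto (fun m : ℝ => m + (c - Real.log R)) atTop atTop :=
      tendsto_atTop_add_const_right _ _ tendsto_id
    have h2 := h1.atTop_div_const hα0
    refine h2.congr fun m => ?_
    ring
  have hX1 : ∀ᶠ m : ℝ in atTop, 1 ≤ (m + c - Real.log R) / α := hX.eventually_ge_atTop 1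
  have hX2 : ∀ᶠ m : ℝ in atTop, K * Real.exp (-((m + c - Real.log R) / α)) ≤ ε / 2 := by
    have h1 : Tendsto (fun m : ℝ => K * Real.exp (-((m + c - Real.log R) / α))) atTop (𝓝 (K * 0)) :=
      (Real.tendsto_exp_atBot.comp (tendsto_neg_atTop_atBot.comp hX)).const_mul K
    rw [mul_zero] at h1
    exact h1.eventually (eventually_le_nhds (by linarith))
  have hX3 : ∀ᶠ m : ℝ in atTop, R * Real.exp (-m + ε / 2) < η := by
    have h0 : Tendsto (fun m : ℝ => -m + ε / 2) atTop atBot :=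
      tendsto_atBot_add_const_right _ _ tendsto_neg_atTop_atBot
    have h1 : Tendsto (fun m : ℝ => R * Real.exp (-m + ε / 2)) atTop (𝓝 (R * 0)) :=
      (Real.tendsto_exp_atBot.comp h0).const_mul R
    rw [mul_zero] at h1
    exact h1.eventually (eventually_lt_nhds hη)
  filter_upwards [hX1, hX2, hX3] with m hm1 hm2 hm3
  set X : ℝ := (m + c - Real.log R) / α with hXdef
  have hαX : α * X = m + c - Real.log R := by
    rw [hXdef]
    field_simp
  have hre : ∀ y : ℝ, |(GG a B (((-X : ℝ) : ℂ) + y * I)).re + α * X| ≤ ε / 2 := by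
    intro y
    have h1 : (((-X : ℝ) : ℂ) + y * I).re = -X := by simp
    have h2 := hK (((-X : ℝ) : ℂ) + y * I) (by rw [h1]; linarith)
    rw [h1] at h2
    have h3 := (Complex.abs_re_le_norm _).trans (h2.trans hm2)
    have h4 : (GG a B (((-X : ℝ) : ℂ) + y * I) - ((α : ℝ) : ℂ) * (((-X : ℝ) : ℂ) + y * I)).re =
        (GG a B (((-X : ℝ) : ℂ) + y * I)).re + α * X := by
      simp
    rw [h4] at h3
    exact h3
  have hRexp : ∀ t : ℝ, Real.exp (c + (-(α * X) + t)) = R * Real.exp (-m + t) := by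
    intro t
    have h1 : c + (-(α * X) + t) = Real.log R + (-m + t) := by
      rw [hαX]
      ring
    rw [h1, Real.exp_add, Real.exp_log hR]
  constructor
  · intro y
    have hw : ‖ww a B c θ (((-X : ℝ) : ℂ) + y * I)‖ ≤ R * Real.exp (-m + ε / 2) := by
      rw [norm_ww, ← hRexp]
      refine Real.exp_le_exp.2 ?_
      have h1 := (abs_le.1 (hre y)).2
      linarith
    have hmem := hN1 _ (lt_of_le_of_lt hw hm3)
    refine ⟨hmem, ?_⟩
    obtain ⟨z, hz, hzw⟩ := hmem
    rw [← hzw, (hh z hz).1]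
    have hz0 : z ≠ 0 := by
      intro h0
      rw [h0, hf.zero] at hzw
      have h1 : ww a B c θ (((-X : ℝ) : ℂ) + y * I) ≠ 0 := Complex.exp_ne_zero _
      exact h1 hzw.symm
    have hzn : 0 < ‖z‖ := norm_pos_iff.2 hz0
    have h2 := hN2 z hz (by rw [hzw]; exact lt_of_le_of_lt hw hm3)
    rw [hzw] at h2
    have h3 : ‖z‖ ≤ Real.exp (-m + ε) := by
      calc ‖z‖ ≤ (1 + ε') * (‖ww a B c θ (((-X : ℝ) : ℂ) + y * I)‖ / R) := h2
        _ ≤ Real.exp (ε / 2) * (R * Real.exp (-m + ε / 2) / R) := by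
            gcongr
        _ = Real.exp (-m + ε) := by
            rw [mul_div_cancel_left₀ _ hR.ne', ← Real.exp_add]
            congr 1
            ring
    calc Real.log ‖z‖ ≤ Real.log (Real.exp (-m + ε)) := Real.log_le_log hzn h3
      _ = -m + ε := Real.log_exp _
  · intro ζ hζ
    obtain ⟨hζ1, hζ2, hζ3, hζ4, z, hz, hzw⟩ := hζ
    rw [← hzw, (hh z hz).1]
    have hζe : ζ = (ζ.re : ℂ) + ζ.im * I := (Complex.re_add_im ζ).symm
    have h1 : (GG a B (((-X : ℝ) : ℂ) + ζ.im * I)).re ≤ (GG a B ζ).re := by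
      have h2 := re_mono a B hd (-X) ζ.re ζ.im hζ1.le hζ2
      rw [Complex.re_add_im ζ] at h2
      exact h2
    have h2 := (abs_le.1 (hre ζ.im)).1
    have h3 : R * Real.exp (-m + -(ε / 2)) ≤ ‖f z‖ := by
      rw [hzw, norm_ww, ← hRexp]
      refine Real.exp_le_exp.2 ?_
      linarith
    have h4 : R * Real.exp (-m + -(ε / 2)) < η := by
      refine lt_of_le_of_lt ?_ hm3
      have h5 : Real.exp (-m + -(ε / 2)) ≤ Real.exp (-m + ε / 2) := Real.exp_le_exp.2 (by linarith)
      exact mul_le_mul_of_nonneg_left h5 hR.le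
    have h5 := hN3 z hz _ (mul_pos hR (Real.exp_pos _)) h4 h3
    refine le_trans (le_of_eq ?_) h5
    rw [mul_div_cancel_left₀ _ hR.ne']
    have h6 : 1 - ε' = Real.exp (-(ε / 2)) := by
      rw [hε']
      ring
    rw [h6, ← Real.exp_add]
    congr 1
    ring

end

end Pool.Agent.Lib.MP250511.ST
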