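import Pool.Agent.Lib.MP_250511_an.ST.Spec
import Pool.Agent.Lib.MP_250511_an.INV

/-!
Problem MP_250511_an, Q2: module SER of the lower bound for `S₁`.
-/

set_option autoImplicit false

namespace Pool.Agent.Lib.MP250511.ST

open Complex Metric Set MeasureTheory Filter Topology
open scoped Real ENNReal

namespace SERM

variable {n : ℕ}

/-- the points of the half plane that are mapped into `f(D)` -/
def OmS (f : ℂ → ℂ) (a B : Fin n → ℝ) (c θ : ℝ) : Set ℂ :=
  {ζ | ζ.re < 0 ∧ ww a B c θ ζ ∈ f '' ball 0 1}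

theorem open_f {f : ℂ → ℂ} {R : ℝ} (hf : Cmap f R) : IsOpen (f '' ball (0 : ℂ) 1) :=
  INVM.open_image isOpen_ball (convex_ball (0 : ℂ) 1).isPreconnected hf.an.differentiableOn
    hf.inj Subset.rfl isOpen_ball

theorem ww_diff {a B : Fin n → ℝ} {c θ : ℝ}
    (hG : ∀ ζ : ℂ, ζ.re < 0 → DifferentiableAt ℂ (GG a B) ζ) :
    DifferentiableOn ℂ (ww a B c θ) {ζ | ζ.re < 0} := by
  intro ζ hζ
  have h := hG ζ hζ
  exact ((h.const_add _).cexp).differentiableWithinAt

theorem open_half : IsOpen {ζ : ℂ | ζ.re < 0} := isOpen_lt continuous_re continuous_const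

theorem open_OmS {f : ℂ → ℂ} {R : ℝ} (hf : Cmap f R) {a B : Fin n → ℝ} {c θ : ℝ}
    (hG : ∀ ζ : ℂ, ζ.re < 0 → DifferentiableAt ℂ (GG a B) ζ) : IsOpen (OmS f a B c θ) :=
  (ww_diff hG).continuousOn.isOpen_inter_preimage open_half (open_f hf)

theorem F_diff {f h : ℂ → ℂ} (hh : Invf f h) {a B : Fin n → ℝ} {c θ : ℝ}
    (hG : ∀ ζ : ℂ, ζ.re < 0 → DifferentiableAt ℂ (GG a B) ζ) :
    DifferentiableOn ℂ (fun ζ => h (ww a B c θ ζ)) (OmS f a B c θ) := by
  intro ζ hζ
  obtain ⟨h1, z, hz, hfz⟩ := hζ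
  have h2 : DifferentiableAt ℂ (ww a B c θ) ζ :=
    (ww_diff hG).differentiableAt (open_half.mem_nhds h1)
  have h3 : DifferentiableAt ℂ h (ww a B c θ ζ) := by
    rw [← hfz]; exact (hh z hz).2.differentiableAt
  exact (h3.comp ζ h2).differentiableWithinAt

/-- the boundary value is in the complement -/
theorem bdry {W : Set ℂ} (hW : StarC W) {a B : Fin n → ℝ} {ρ : ℕ → ℝ} {c θ x : ℝ}
    (hp : pt (ρ (cnt B x)) (θ + π * psum a (cnt B x)) ∈ W)
    (hc : ρ (cnt B x) + HH a B x ≤ c) :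
    exp ((c : ℂ) + θ * I + ((((-(HH a B x) : ℝ) : ℂ)) + (π * psum a (cnt B x) : ℝ) * I)) ∈ W := by
  have h := hW _ hp (Real.exp (c - HH a B x - ρ (cnt B x))) (Real.one_le_exp (by linarith))
  have e : exp ((c : ℂ) + θ * I + ((((-(HH a B x) : ℝ) : ℂ)) + (π * psum a (cnt B x) : ℝ) * I))
      = ((Real.exp (c - HH a B x - ρ (cnt B x)) : ℝ) : ℂ) *
        pt (ρ (cnt B x)) (θ + π * psum a (cnt B x)) := by
    rw [pt, ofReal_exp, ← Complex.exp_add]
    congr 1
    push_cast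
    ring
  rw [e]; exact h

theorem cnt_le (B : Fin n → ℝ) (x : ℝ) : cnt B x ≤ n := by
  refine (Finset.card_filter_le _ _).trans ?_
  simp

end SERM

open SERM in
theorem specSER (hSLF : SpecSLF) (hSLB : SpecSLB) (hRAY : SpecRAY) (hEXT : SpecEXT) : SpecSER := by
  intro f h R hf hh hW n a B ρ c θ ha hρ hB hB1 hc X y hX hy hyp hcos hm
  obtain ⟨hG1, -, -⟩ := hSLF (n + 1) a B (Nat.succ_pos n) ha hB1
  have hG : ∀ ζ : ℂ, ζ.re < 0 → DifferentiableAt ℂ (GG a B) ζ := fun ζ hζ => (hG1 ζ hζ).1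
  obtain ⟨-, hlim⟩ := hSLB (n + 1) a B (Nat.succ_pos n) ha hB1 hB
  have hlim := hlim y hy hyp hcos
  set L : ℝ → ℂ := fun x => (x : ℂ) + y * I with hL
  have hLc : Continuous L := by fun_prop
  have hLr : ∀ x, (L x).re = x := fun x => by simp [hL]
  set F : ℂ → ℂ := fun ζ => h (ww a B c θ ζ) with hF
  set E : Set ℝ := L ⁻¹' (OmS f a B c θ) with hE
  have hEo : IsOpen E := (open_OmS hf hG).preimage hLc
  have hFd : DifferentiableOn ℂ F (OmS f a B c θ) := F_diff hh hG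
  have hmemE : ∀ x : ℝ, x ∈ E ↔ x < 0 ∧ ww a B c θ (x + y * I) ∈ f '' ball 0 1 := by
    intro x
    show (L x).re < 0 ∧ ww a B c θ (x + y * I) ∈ f '' ball 0 1 ↔ _
    rw [hLr]
  have hset : {x : ℝ | -X < x ∧ x < 0 ∧ ww a B c θ (x + y * I) ∈ f '' ball 0 1}
      = E ∩ Ioo (-X) 0 := by
    ext x
    rw [mem_inter_iff, mem_Ioo, hmemE]
    show -X < x ∧ x < 0 ∧ ww a B c θ (x + y * I) ∈ f '' ball 0 1 ↔ _
    tauto
  have hXE : -X ∈ E := (hmemE _).2 ⟨by linarith, hm⟩
  have key := hRAY X E (fun x => F (L x)) (fun x => deriv F (L x)) hX hEo hXE ?_ ?_ ?_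
  · rw [hset]
    exact key
  · intro x hx hx0
    have hx' : L x ∈ OmS f a B c θ := hx
    refine ⟨?_, ?_, ?_⟩
    · have h1 : HasDerivAt F (deriv F (L x)) (L x) :=
        (hFd.differentiableAt ((open_OmS hf hG).mem_nhds hx')).hasDerivAt
      have h2 : HasDerivAt (fun t : ℂ => t + y * I) 1 (x : ℂ) := (hasDerivAt_id _).add_const _
      have h3 : HasDerivAt (fun t : ℂ => F (t + y * I)) (deriv F (L x) * 1) (x : ℂ) :=
        HasDerivAt.comp (h₂ := F) (h := fun t : ℂ => t + y * I) (x : ℂ) h1 h2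
      rw [mul_one] at h3
      exact h3.comp_ofReal
    · obtain ⟨-, z, hz, hfz⟩ := hx'
      show h (ww a B c θ (L x)) ≠ 0
      rw [← hfz, (hh z hz).1]
      intro hz0
      rw [hz0, hf.zero] at hfz
      exact exp_ne_zero _ hfz.symm
    · obtain ⟨-, z, hz, hfz⟩ := hx'
      show ‖h (ww a B c θ (L x))‖ < 1
      rw [← hfz, (hh z hz).1]
      simpa using hz
  · have h1 : ContinuousOn (deriv F) (OmS f a B c θ) :=
      (hFd.deriv (open_OmS hf hG)).continuousOn
    exact (h1.comp hLc.continuousOn (fun x hx => hx.1))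
  · intro x₁ hx1 hx10 hall hex
    have hev : ∀ᶠ x in 𝓝[<] x₁, F (L x) ∈ ball (0 : ℂ) 1 ∧ f (F (L x)) = ww a B c θ (L x) := by
      filter_upwards [Ico_mem_nhdsLT hx1] with x hx
      obtain ⟨-, z, hz, hfz⟩ := (show L x ∈ OmS f a B c θ from hall x hx.1 hx.2)
      have e : F (L x) = z := by
        show h (ww a B c θ (L x)) = z
        rw [← hfz, (hh z hz).1]
      rw [e]
      exact ⟨hz, hfz⟩
    rcases eq_or_lt_of_le hx10 with h0 | hneg
    · subst h0
      refine hEXT f R hf (𝓝[<] 0) (fun x => ww a B c θ (L x)) (fun x => F (L x))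
        (exp ((c : ℂ) + θ * I + ((((-(HH a B (Real.cos y)) : ℝ) : ℂ)) +
          (π * psum a (cnt B (Real.cos y)) : ℝ) * I))) ?_ ?_ hev
      · exact (continuous_exp.tendsto _).comp (tendsto_const_nhds.add hlim)
      · exact bdry hW (hρ _ (cnt_le B _)) (hc _ (Real.abs_cos_le_one y) hcos)
    · have hx1E : x₁ ∉ E := by
        rcases hex with h' | h'
        · exact h'
        · exact absurd h' hneg.ne
      have hw : ww a B c θ (L x₁) ∉ f '' ball 0 1 := fun h' => hx1E ((hmemE _).2 ⟨hneg, h'⟩)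
      refine hEXT f R hf (𝓝[<] x₁) (fun x => ww a B c θ (L x)) (fun x => F (L x)) _ ?_ hw hev
      have hcw : ContinuousAt (ww a B c θ) (L x₁) :=
        ((ww_diff hG).differentiableAt (open_half.mem_nhds (by
          show (L x₁).re < 0
          rw [hLr]; exact hneg))).continuousAt
      have h2 : ContinuousAt (fun x => ww a B c θ (L x)) x₁ :=
        ContinuousAt.comp (f := L) hcw hLc.continuousAt
      exact h2.tendsto.mono_left nhdsWithin_le_nhds

end Pool.Agent.Lib.MP250511.ST
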