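import Pool.Agent.Lib.MP_250511_an.ST.Spec

/-! Problem MP_250511_an, Q2, module SLB: boundary values of the slit function. -/

set_option autoImplicit false

namespace Pool.Agent.Lib.MP250511.ST

open Complex Metric Set MeasureTheory Filter Topology
open scoped Real ENNReal

noncomputable section

namespace SLBM

lemma GG_real {n : ℕ} (a B : Fin n → ℝ) (hB : ∀ l, |B l| < 1) (x : ℝ) (s : ℝ)
    (hs : s = 1 ∨ s = -1) (ζ : ℂ) (hζ : exp ζ = ((s * Real.exp x : ℝ) : ℂ)) :
    (GG a B ζ).im = (∑ l, a l) * ζ.im := by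
  have hp : ∀ l, 0 < 1 - 2 * B l * (s * Real.exp x) + (s * Real.exp x) ^ 2 := by
    intro l
    have h1 := abs_lt.1 (hB l)
    have h2 : s ^ 2 = 1 := by rcases hs with h | h <;> rw [h] <;> norm_num
    have h3 : 0 < (1 - B l ^ 2) := by nlinarith
    nlinarith [sq_nonneg (B l - s * Real.exp x)]
  unfold GG
  rw [Complex.sub_im, Complex.im_ofReal_mul, Complex.im_sum]
  have : ∑ l, ((a l : ℂ) * Complex.log (1 - 2 * (B l : ℂ) * exp ζ + exp ζ ^ 2)).im = 0 := by
    apply Finset.sum_eq_zero
    intro l _
    rw [Complex.im_ofReal_mul, hζ]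
    have : (1 - 2 * (B l : ℂ) * ((s * Real.exp x : ℝ) : ℂ) + ((s * Real.exp x : ℝ) : ℂ) ^ 2) =
        ((1 - 2 * B l * (s * Real.exp x) + (s * Real.exp x) ^ 2 : ℝ) : ℂ) := by
      push_cast; ring
    rw [this, ← Complex.ofReal_log (hp l).le, Complex.ofReal_im, mul_zero]
  rw [this, sub_zero]

lemma psum_cnt {n : ℕ} (a B : Fin n → ℝ) (hB : StrictAnti B) (X : ℝ) :
    psum a (cnt B X) = ∑ l, if X < B l then a l else 0 := by
  unfold psum cnt
  rw [← Finset.sum_filter]
  apply Finset.sum_congr _ (fun _ _ => rfl)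
  ext l
  simp only [Finset.mem_filter, Finset.mem_univ, true_and]
  constructor
  · intro h
    by_contra hcon
    have hsub : (Finset.univ.filter fun l' => X < B l') ⊆ Finset.Iio l := by
      intro l' hl'
      rw [Finset.mem_filter] at hl'
      rw [Finset.mem_Iio]
      by_contra h2
      push Not at h2 hcon
      have := hB.antitone h2
      linarith [hl'.2]
    have := Finset.card_le_card hsub
    rw [Fin.card_Iio] at this
    omega
  · intro h
    have hsub : Finset.Iic l ⊆ (Finset.univ.filter fun l' => X < B l') := by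
      intro l' hl'
      rw [Finset.mem_Iic] at hl'
      rw [Finset.mem_filter]
      exact ⟨Finset.mem_univ _, lt_of_lt_of_le h (hB.antitone hl')⟩
    have := Finset.card_le_card hsub
    rw [Fin.card_Iic] at this
    omega

lemma pfac (B y : ℝ) : (1 : ℂ) - 2 * (B : ℂ) * exp ((y : ℂ) * I) + exp ((y : ℂ) * I) ^ 2 =
    ((2 * (Real.cos y - B) : ℝ) : ℂ) * exp ((y : ℂ) * I) := by
  have h1 : exp ((y : ℂ) * I) = (Real.cos y : ℂ) + (Real.sin y : ℂ) * I := by
    rw [Complex.exp_mul_I, Complex.ofReal_cos, Complex.ofReal_sin]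
  have h2 : (Real.cos y : ℂ) ^ 2 + (Real.sin y : ℂ) ^ 2 = 1 := by
    have := Real.cos_sq_add_sin_sq y
    exact_mod_cast this
  have h3 : I ^ 2 = -1 := Complex.I_sq
  rw [h1]
  push_cast at h2 ⊢
  linear_combination (-1 : ℂ) * h2 + (Complex.sin y : ℂ) ^ 2 * h3

lemma logv (B y : ℝ) (h0 : 0 < y) (h1 : y < π) (hne : Real.cos y ≠ B) :
    Complex.log (((2 * (Real.cos y - B) : ℝ) : ℂ) * exp ((y : ℂ) * I)) =
      ((Real.log (2 * |Real.cos y - B|) : ℝ) : ℂ) +
        ((y - (if Real.cos y < B then π else 0) : ℝ) : ℂ) * I := by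
  by_cases h : Real.cos y < B
  · rw [if_pos h]
    have hpos : 0 < 2 * |Real.cos y - B| := by
      have : Real.cos y - B ≠ 0 := sub_ne_zero.2 hne
      positivity
    have habs : |Real.cos y - B| = -(Real.cos y - B) := abs_of_neg (by linarith)
    have h2 : ((2 * (Real.cos y - B) : ℝ) : ℂ) * exp ((y : ℂ) * I) =
        exp (((Real.log (2 * |Real.cos y - B|) : ℝ) : ℂ) + ((y - π : ℝ) : ℂ) * I) := by
      rw [Complex.exp_add, ← Complex.ofReal_exp, Real.exp_log hpos, habs]
      have : ((y - π : ℝ) : ℂ) * I = (y : ℂ) * I - (π : ℂ) * I := by push_cast; ring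
      rw [this, Complex.exp_sub, Complex.exp_pi_mul_I]
      push_cast
      ring
    rw [h2]
    apply Complex.log_exp
    · simp only [Complex.add_im, Complex.ofReal_im, Complex.mul_im, Complex.ofReal_re, Complex.I_im,
        Complex.I_re, mul_one, mul_zero, zero_add, add_zero]
      linarith
    · simp only [Complex.add_im, Complex.ofReal_im, Complex.mul_im, Complex.ofReal_re, Complex.I_im,
        Complex.I_re, mul_one, mul_zero, zero_add, add_zero]
      linarith [Real.pi_pos]
  · rw [if_neg h, sub_zero]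
    have h' : B < Real.cos y := lt_of_le_of_ne (not_lt.1 h) (Ne.symm hne)
    have habs : |Real.cos y - B| = Real.cos y - B := abs_of_pos (by linarith)
    have hpos : 0 < 2 * |Real.cos y - B| := by rw [habs]; linarith
    have h2 : ((2 * (Real.cos y - B) : ℝ) : ℂ) * exp ((y : ℂ) * I) =
        exp (((Real.log (2 * |Real.cos y - B|) : ℝ) : ℂ) + (y : ℂ) * I) := by
      rw [Complex.exp_add, ← Complex.ofReal_exp, Real.exp_log hpos, habs]
    rw [h2]
    apply Complex.log_exp
    · simp only [Complex.add_im, Complex.ofReal_im, Complex.mul_im, Complex.ofReal_re, Complex.I_im,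
        Complex.I_re, mul_one, mul_zero, zero_add, add_zero]
      linarith [Real.pi_pos]
    · simp only [Complex.add_im, Complex.ofReal_im, Complex.mul_im, Complex.ofReal_re, Complex.I_im,
        Complex.I_re, mul_one, mul_zero, zero_add, add_zero]
      exact h1.le

end SLBM

open SLBM in
theorem specSLB (hSLF : SpecSLF) : SpecSLB := by
  intro n a B hn ha hB hanti
  obtain ⟨hD, -, -⟩ := hSLF n a B hn ha hB
  refine ⟨?_, ?_⟩
  · intro ζ hζ h0 h1
    -- the function of y
    have hmono : StrictMono (fun y : ℝ => (GG a B ((ζ.re : ℂ) + y * I)).im) := by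
      apply strictMono_of_deriv_pos
      intro y
      have hre : ((ζ.re : ℂ) + y * I).re < 0 := by simpa using hζ
      obtain ⟨hd, hp⟩ := hD _ hre
      have h2 : HasDerivAt (fun y : ℝ => (ζ.re : ℂ) + (y : ℂ) * I) I y := by
        have := (Complex.ofRealCLM.hasDerivAt (x := y)).mul_const I
        simpa using this.const_add (ζ.re : ℂ)
      have h3 := hd.hasDerivAt.comp_of_eq y h2 rfl
      have h4 : HasDerivAt (fun y : ℝ => (GG a B ((ζ.re : ℂ) + y * I)).im)
          (deriv (GG a B) ((ζ.re : ℂ) + y * I) * I).im y := by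
        have := (Complex.imCLM.hasFDerivAt (x := GG a B ((ζ.re : ℂ) + y * I))).comp_hasDerivAt y h3
        exact this
      rw [h4.deriv]
      simpa using hp
    have e0 : (GG a B ((ζ.re : ℂ) + ((0 : ℝ) : ℂ) * I)).im = 0 := by
      rw [GG_real a B hB ζ.re 1 (Or.inl rfl)]
      · simp
      · simp
    have e1 : (GG a B ((ζ.re : ℂ) + ((π : ℝ) : ℂ) * I)).im = π * ∑ l, a l := by
      rw [GG_real a B hB ζ.re (-1) (Or.inr rfl)]
      · simp [mul_comm]
      · rw [Complex.exp_add, Complex.exp_pi_mul_I]
        push_cast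
        ring
    have eζ : (ζ.re : ℂ) + (ζ.im : ℂ) * I = ζ := Complex.re_add_im ζ
    have m0 := hmono h0
    have m1 := hmono h1
    simp only at m0 m1
    rw [eζ] at m0 m1
    rw [e0] at m0
    rw [e1] at m1
    exact ⟨m0, m1⟩
  · intro y h0 h1 hne
    have hval : GG a B ((y : ℂ) * I) = ((-(HH a B (Real.cos y)) : ℝ) : ℂ) +
        (π * psum a (cnt B (Real.cos y)) : ℝ) * I := by
      rw [psum_cnt a B hanti]
      unfold GG HH
      have hterm : ∀ l, (a l : ℂ) * Complex.log (1 - 2 * (B l : ℂ) * exp ((y : ℂ) * I) +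
          exp ((y : ℂ) * I) ^ 2) =
          ((a l * Real.log (2 * |Real.cos y - B l|) : ℝ) : ℂ) + ((a l * y : ℝ) : ℂ) * I -
            ((π * (if Real.cos y < B l then a l else 0) : ℝ) : ℂ) * I := by
        intro l
        rw [pfac, logv (B l) y h0 h1 (hne l)]
        split_ifs
        · push_cast; ring
        · push_cast; ring
      rw [Finset.sum_congr rfl (fun l _ => hterm l), Finset.sum_sub_distrib,
        Finset.sum_add_distrib, ← Finset.sum_mul, ← Finset.sum_mul, ← Complex.ofReal_sum,
        ← Complex.ofReal_sum, ← Complex.ofReal_sum, ← Finset.mul_sum, ← Finset.sum_mul]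
      push_cast
      ring
    rw [← hval]
    have hcont : ContinuousAt (fun x : ℝ => GG a B (x + y * I)) 0 := by
      unfold GG
      have hexp : ContinuousAt (fun x : ℝ => exp ((x : ℂ) + y * I)) 0 := by fun_prop
      refine ContinuousAt.sub (by fun_prop) ?_
      refine tendsto_finsetSum _ (fun l _ => ?_)
      refine ContinuousAt.mul continuousAt_const ?_
      refine ContinuousAt.clog (by fun_prop) ?_
      simp only [Complex.ofReal_zero, zero_add]
      rw [pfac, Complex.mem_slitPlane_iff]
      right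
      rw [Complex.im_ofReal_mul, Complex.exp_ofReal_mul_I_im]
      have hs := Real.sin_pos_of_pos_of_lt_pi h0 h1
      have hc : Real.cos y - B l ≠ 0 := sub_ne_zero.2 (hne l)
      exact mul_ne_zero (mul_ne_zero two_ne_zero hc) hs.ne'
    have := hcont.tendsto
    simp only [Complex.ofReal_zero, zero_add] at this
    exact this.mono_left nhdsWithin_le_nhds

end

end Pool.Agent.Lib.MP250511.ST
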