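import Pool.Agent.Lib.MP_250511_an.ST.Spec

/-!
Problem MP_250511_an, Q2.  Module SLF: the slit function in the half plane.
-/

set_option autoImplicit false

namespace Pool.Agent.Lib.MP250511.ST

open Complex Metric Set MeasureTheory Filter Topology
open scoped Real ENNReal

noncomputable section

namespace SLFM

theorem mem_slit {B : ℝ} (hB : |B| < 1) {z : ℂ} (hz : ‖z‖ < 1) :
    1 - 2 * (B : ℂ) * z + z ^ 2 ∈ slitPlane := by
  have h1 : z.re ^ 2 + z.im ^ 2 < 1 := by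
    have h2 := Complex.sq_norm z
    rw [normSq_apply] at h2
    nlinarith [norm_nonneg z]
  have hB2 : B ^ 2 < 1 := by
    rw [← sq_abs]
    nlinarith [abs_nonneg B]
  have hre : (1 - 2 * (B : ℂ) * z + z ^ 2).re = 1 - 2 * B * z.re + (z.re ^ 2 - z.im ^ 2) := by
    simp [pow_two]
  have him : (1 - 2 * (B : ℂ) * z + z ^ 2).im = 2 * z.im * (z.re - B) := by
    simp [pow_two]
    ring
  rw [mem_slitPlane_iff, hre, him]
  by_cases h : 2 * z.im * (z.re - B) = 0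
  · left
    rcases mul_eq_zero.1 h with h2 | h2
    · have h3 : z.im = 0 := by linarith
      rw [h3]
      nlinarith [sq_nonneg (z.re - B)]
    · have h3 : z.re = B := by linarith
      rw [h3] at h1 ⊢
      nlinarith
  · right
    exact h

theorem re_pos {B : ℝ} (hB : |B| < 1) {z : ℂ} (hz : ‖z‖ < 1) :
    0 < ((1 - z ^ 2) / (1 - 2 * (B : ℂ) * z + z ^ 2)).re := by
  have h0 : 1 - 2 * (B : ℂ) * z + z ^ 2 ≠ 0 := slitPlane_ne_zero (mem_slit hB hz)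
  have h1 : z.re ^ 2 + z.im ^ 2 < 1 := by
    have h2 := Complex.sq_norm z
    rw [normSq_apply] at h2
    nlinarith [norm_nonneg z]
  have hB2 : B ^ 2 < 1 := by
    rw [← sq_abs]
    nlinarith [abs_nonneg B]
  rw [Complex.div_re, ← add_div]
  refine div_pos ?_ (normSq_pos.2 h0)
  have hre : (1 - 2 * (B : ℂ) * z + z ^ 2).re = 1 - 2 * B * z.re + (z.re ^ 2 - z.im ^ 2) := by
    simp [pow_two]
  have him : (1 - 2 * (B : ℂ) * z + z ^ 2).im = 2 * z.im * (z.re - B) := by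
    simp [pow_two]
    ring
  have hre2 : (1 - z ^ 2).re = 1 - (z.re ^ 2 - z.im ^ 2) := by simp [pow_two]
  have him2 : (1 - z ^ 2).im = -(2 * z.re * z.im) := by
    simp [pow_two]
    ring
  rw [hre, him, hre2, him2]
  have h3 : (1 - (z.re ^ 2 - z.im ^ 2)) * (1 - 2 * B * z.re + (z.re ^ 2 - z.im ^ 2)) +
      -(2 * z.re * z.im) * (2 * z.im * (z.re - B)) =
      (1 - (z.re ^ 2 + z.im ^ 2)) * (1 + (z.re ^ 2 + z.im ^ 2) - 2 * B * z.re) := by ring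
  rw [h3]
  refine mul_pos (by linarith) ?_
  nlinarith [sq_nonneg (z.re - B), sq_nonneg z.im]

theorem norm_exp_lt {ζ : ℂ} (h : ζ.re < 0) : ‖exp ζ‖ < 1 := by
  rw [Complex.norm_exp]
  exact Real.exp_lt_one_iff.2 h

theorem hasDeriv {n : ℕ} (a B : Fin n → ℝ) (hB : ∀ l, |B l| < 1) {ζ : ℂ} (h : ζ.re < 0) :
    HasDerivAt (GG a B) (∑ l, (a l : ℂ) * ((1 - exp ζ ^ 2) /
      (1 - 2 * (B l : ℂ) * exp ζ + exp ζ ^ 2))) ζ := by
  have h1 : ∀ l, HasDerivAt (fun ζ : ℂ => (a l : ℂ) *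
      Complex.log (1 - 2 * (B l : ℂ) * exp ζ + exp ζ ^ 2))
      ((a l : ℂ) * ((-(2 * (B l : ℂ) * exp ζ) + 2 * exp ζ ^ 2) /
        (1 - 2 * (B l : ℂ) * exp ζ + exp ζ ^ 2))) ζ := by
    intro l
    refine HasDerivAt.const_mul _ ?_
    refine HasDerivAt.clog ?_ (mem_slit (hB l) (norm_exp_lt h))
    have h2 := ((Complex.hasDerivAt_exp ζ).const_mul (2 * (B l : ℂ))).const_sub 1
    have h3 := (Complex.hasDerivAt_exp ζ).pow 2
    have h4 := h2.add h3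
    refine h4.congr_deriv ?_
    push_cast
    ring
  have h2 : HasDerivAt (fun ζ : ℂ => ∑ l, (a l : ℂ) *
      Complex.log (1 - 2 * (B l : ℂ) * exp ζ + exp ζ ^ 2))
      (∑ l, (a l : ℂ) * ((-(2 * (B l : ℂ) * exp ζ) + 2 * exp ζ ^ 2) /
        (1 - 2 * (B l : ℂ) * exp ζ + exp ζ ^ 2))) ζ := by
    have := HasDerivAt.sum (u := Finset.univ) fun l _ => h1 l
    refine this.congr_of_eventuallyEq (Eventually.of_forall fun x => ?_)
    simp
  have h3 : HasDerivAt (fun ζ : ℂ => ((∑ l, a l : ℝ) : ℂ) * ζ) ((∑ l, a l : ℝ) : ℂ) ζ := by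
    simpa using (hasDerivAt_id ζ).const_mul ((∑ l, a l : ℝ) : ℂ)
  refine (h3.sub h2).congr_deriv ?_
  rw [ofReal_sum, ← Finset.sum_sub_distrib]
  refine Finset.sum_congr rfl fun l _ => ?_
  have h0 : 1 - 2 * (B l : ℂ) * exp ζ + exp ζ ^ 2 ≠ 0 :=
    slitPlane_ne_zero (mem_slit (hB l) (norm_exp_lt h))
  field_simp
  ring

theorem re_deriv_pos {n : ℕ} (hn : 0 < n) (a B : Fin n → ℝ) (ha : ∀ l, 0 < a l)
    (hB : ∀ l, |B l| < 1) {ζ : ℂ} (h : ζ.re < 0) : 0 < (deriv (GG a B) ζ).re := by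
  rw [(hasDeriv a B hB h).deriv, re_sum]
  have : Nonempty (Fin n) := ⟨⟨0, hn⟩⟩
  refine Finset.sum_pos (fun l _ => ?_) Finset.univ_nonempty
  rw [re_ofReal_mul]
  exact mul_pos (ha l) (re_pos (hB l) (norm_exp_lt h))

theorem inj {n : ℕ} (hn : 0 < n) (a B : Fin n → ℝ) (ha : ∀ l, 0 < a l) (hB : ∀ l, |B l| < 1) :
    InjOn (GG a B) {ζ | ζ.re < 0} := by
  intro ζ hζ ξ hξ he
  by_contra hne
  have hζ' : ζ.re < 0 := hζ
  have hξ' : ξ.re < 0 := hξ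
  have hd : 0 < normSq (ζ - ξ) := normSq_pos.2 (sub_ne_zero.2 hne)
  have hseg : ∀ t ∈ Icc (0 : ℝ) 1, (ξ + (t : ℂ) * (ζ - ξ)).re < 0 := by
    intro t ht
    have h1 : (ξ + (t : ℂ) * (ζ - ξ)).re = (1 - t) * ξ.re + t * ζ.re := by
      simp
      ring
    rw [h1]
    rcases eq_or_lt_of_le ht.1 with h2 | h2
    · rw [← h2]
      linarith
    · nlinarith [ht.2, mul_nonneg (sub_nonneg.2 ht.2) (neg_nonneg.2 hξ'.le), mul_neg_of_pos_of_neg h2 hζ']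
  let g : ℝ → ℝ := fun t => (GG a B (ξ + (t : ℂ) * (ζ - ξ)) * (starRingEnd ℂ) (ζ - ξ)).re
  have hg : ∀ t ∈ Icc (0 : ℝ) 1, HasDerivAt g
      ((deriv (GG a B) (ξ + (t : ℂ) * (ζ - ξ))).re * normSq (ζ - ξ)) t := by
    intro t ht
    have h1 : HasDerivAt (fun t : ℝ => ξ + (t : ℂ) * (ζ - ξ)) (ζ - ξ) t := by
      have h2 : HasDerivAt (fun t : ℝ => (t : ℂ)) 1 t := Complex.ofRealCLM.hasDerivAt
      simpa using (h2.mul_const (ζ - ξ)).const_add ξ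
    have h3 := (hasDeriv a B hB (hseg t ht))
    have h4 : HasDerivAt (fun t : ℝ => GG a B (ξ + (t : ℂ) * (ζ - ξ)))
        (deriv (GG a B) (ξ + (t : ℂ) * (ζ - ξ)) * (ζ - ξ)) t := by
      rw [h3.deriv]
      exact HasDerivAt.comp t h3 h1
    have h5 := h4.mul_const ((starRingEnd ℂ) (ζ - ξ))
    have h6 := (Complex.reCLM.hasFDerivAt.comp_hasDerivAt t h5)
    refine h6.congr_deriv ?_
    change (deriv (GG a B) (ξ + (t : ℂ) * (ζ - ξ)) * (ζ - ξ) * (starRingEnd ℂ) (ζ - ξ)).re = _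
    rw [mul_assoc, Complex.mul_conj, mul_comm, re_ofReal_mul, mul_comm]
  have hmono : StrictMonoOn g (Icc 0 1) := by
    refine strictMonoOn_of_deriv_pos (convex_Icc 0 1)
      (fun t ht => (hg t ht).continuousAt.continuousWithinAt) fun t ht => ?_
    rw [interior_Icc] at ht
    rw [(hg t (Ioo_subset_Icc_self ht)).deriv]
    exact mul_pos (re_deriv_pos hn a B ha hB (hseg t (Ioo_subset_Icc_self ht))) hd
  have h1 := hmono (left_mem_Icc.2 zero_le_one) (right_mem_Icc.2 zero_le_one) zero_lt_one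
  have h2 : g 0 = g 1 := by
    change (GG a B (ξ + ((0 : ℝ) : ℂ) * (ζ - ξ)) * _).re = (GG a B (ξ + ((1 : ℝ) : ℂ) * (ζ - ξ)) * _).re
    have h3 : ξ + ((0 : ℝ) : ℂ) * (ζ - ξ) = ξ := by push_cast; ring
    have h4 : ξ + ((1 : ℝ) : ℂ) * (ζ - ξ) = ζ := by push_cast; ring
    rw [h3, h4, he]
  exact absurd h2 h1.ne

theorem log_bound {B : ℝ} (hB : |B| < 1) {z : ℂ} (hz : ‖z‖ ≤ Real.exp (-1)) :
    ‖Complex.log (1 - 2 * (B : ℂ) * z + z ^ 2)‖ ≤ 18 * ‖z‖ := by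
  have he : Real.exp (-1) < 0.368 := by
    have := Real.exp_neg_one_lt_d9
    linarith
  have hz1 : ‖z‖ < 0.368 := lt_of_le_of_lt hz he
  have hz0 := norm_nonneg z
  set u : ℂ := -(2 * (B : ℂ) * z) + z ^ 2 with hu
  have hu1 : ‖u‖ ≤ 2 * ‖z‖ + ‖z‖ ^ 2 := by
    calc ‖u‖ ≤ ‖-(2 * (B : ℂ) * z)‖ + ‖z ^ 2‖ := norm_add_le _ _
      _ = 2 * |B| * ‖z‖ + ‖z‖ ^ 2 := by
          rw [norm_neg, norm_mul, norm_mul, norm_pow, Complex.norm_real, Real.norm_eq_abs]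
          simp
      _ ≤ 2 * ‖z‖ + ‖z‖ ^ 2 := by nlinarith [abs_nonneg B]
  have hu3 : ‖u‖ ≤ 3 * ‖z‖ := by nlinarith
  have hu2 : ‖u‖ < 0.88 := by nlinarith
  have h1 : 1 - 2 * (B : ℂ) * z + z ^ 2 = 1 + u := by rw [hu]; ring
  rw [h1]
  have h2 := Complex.norm_log_one_add_le (z := u) (by linarith)
  have h3 : (1 - ‖u‖)⁻¹ ≤ 10 := by
    rw [inv_le_comm₀ (by linarith) (by norm_num)]
    linarith
  have h4 : ‖u‖ ^ 2 * (1 - ‖u‖)⁻¹ / 2 + ‖u‖ ≤ 6 * ‖u‖ := by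
    have h5 : ‖u‖ ^ 2 * (1 - ‖u‖)⁻¹ ≤ ‖u‖ ^ 2 * 10 :=
      mul_le_mul_of_nonneg_left h3 (sq_nonneg _)
    nlinarith [norm_nonneg u]
  linarith

end SLFM

open SLFM in
theorem specSLF : SpecSLF := by
  intro n a B hn ha hB
  refine ⟨fun ζ h => ⟨(hasDeriv a B hB h).differentiableAt, re_deriv_pos hn a B ha hB h⟩,
    inj hn a B ha hB, 18 * ∑ l, a l, fun ζ hζ => ?_⟩
  have h1 : GG a B ζ - ((∑ l, a l : ℝ) : ℂ) * ζ =
      -∑ l, (a l : ℂ) * Complex.log (1 - 2 * (B l : ℂ) * exp ζ + exp ζ ^ 2) := by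
    unfold GG
    ring
  rw [h1, norm_neg]
  have hz : ‖exp ζ‖ = Real.exp ζ.re := Complex.norm_exp ζ
  calc ‖∑ l, (a l : ℂ) * Complex.log (1 - 2 * (B l : ℂ) * exp ζ + exp ζ ^ 2)‖
      ≤ ∑ l, ‖(a l : ℂ) * Complex.log (1 - 2 * (B l : ℂ) * exp ζ + exp ζ ^ 2)‖ := norm_sum_le _ _
    _ ≤ ∑ l, a l * (18 * Real.exp ζ.re) := by
        refine Finset.sum_le_sum fun l _ => ?_
        rw [norm_mul, Complex.norm_real, Real.norm_of_nonneg (ha l).le]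
        refine mul_le_mul_of_nonneg_left ?_ (ha l).le
        rw [← hz]
        exact log_bound (hB l) (by rw [hz]; exact Real.exp_le_exp.2 hζ)
    _ = 18 * (∑ l, a l) * Real.exp ζ.re := by
        rw [← Finset.sum_mul]
        ring

end

end Pool.Agent.Lib.MP250511.ST
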