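import Pool.Agent.Lib.MP_250511_an.ST.Chk0

/-!
Problem MP_250511_an, Q2: the tables of cosines and logarithms are correct (COS, LEE, LWB, LUB, LN2).
-/

set_option autoImplicit false

namespace Pool.Agent.Lib.MP250511.ST.Chk.TABM

open Real

/-! ### cosines -/

/-- evaluate `n` before passing it on -/
@[reducible] def frc (n : ℕ) (f : ℕ → Bool) : Bool := Nat.rec (f 0) (fun m _ => f (m + 1)) n

lemma frc_eq (n : ℕ) (f : ℕ → Bool) : frc n f = f n := by
  cases n <;> rfl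

/-- `2^60 cos (π/2048)`, `2^60 sin (π/2048)` -/
def CC : ℕ := 1152920148139012899
def SS : ℕ := 1768558744408523

def itr : ℕ → ℕ × ℕ
  | 0 => (2 ^ 60, 0)
  | k + 1 => (((itr k).1 * CC - (itr k).2 * SS) / 2 ^ 60, ((itr k).2 * CC + (itr k).1 * SS) / 2 ^ 60)

def chkC (k c s : ℕ) : Bool :=
  Nat.ble (cT k * 2 ^ 30) (c + 2 ^ 30) && Nat.ble c (cT k * 2 ^ 30 + 2 ^ 30) &&
  Nat.ble (cT (1024 - k) * 2 ^ 30) (s + 2 ^ 30) && Nat.ble s (cT (1024 - k) * 2 ^ 30 + 2 ^ 30) &&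
  Nat.ble (s * SS) (c * CC)

def loopC : ℕ → ℕ → ℕ → ℕ → Bool
  | 0, k, c, s => chkC k c s
  | f + 1, k, c, s => chkC k c s &&
      frc ((c * CC - s * SS) / 2 ^ 60) fun c' => frc ((s * CC + c * SS) / 2 ^ 60) fun s' =>
        loopC f (k + 1) c' s'

lemma loopC_spec : ∀ (f k : ℕ), loopC f k (itr k).1 (itr k).2 = true →
    ∀ j ≤ f, chkC (k + j) (itr (k + j)).1 (itr (k + j)).2 = true := by
  intro f
  induction f with
  | zero =>
    intro k h j hj
    have : j = 0 := by omega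
    subst this
    exact h
  | succ f ih =>
    intro k h j hj
    rw [loopC] at h
    simp only [frc_eq, Bool.and_eq_true] at h
    obtain ⟨h1, h2⟩ := h
    rcases Nat.eq_zero_or_pos j with hj0 | hj0
    · subst hj0
      exact h1
    · have h3 := ih (k + 1) h2 (j - 1) (by omega)
      have e : k + 1 + (j - 1) = k + j := by omega
      rw [e] at h3
      exact h3

lemma loopC_true : loopC 512 0 (2 ^ 60) 0 = true := by decide +kernel

lemma chk_all (k : ℕ) (hk : k ≤ 512) : chkC k (itr k).1 (itr k).2 = true := by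
  have h := loopC_spec 512 0 loopC_true k hk
  rwa [Nat.zero_add] at h

/-- one step of the error estimate -/
lemma err_step (Z Z' W V ζ : ℂ) (e η δ : ℝ) (hW : ‖W‖ = 1) (hV : ‖V‖ = 1) (hζ : ‖ζ - V‖ ≤ η)
    (hZ : ‖Z - W‖ ≤ e) (hZ' : ‖Z' - Z * ζ‖ ≤ δ) (he1 : e ≤ 1) :
    ‖Z' - W * V‖ ≤ e + 2 * η + δ := by
  have e1 : Z' - W * V = (Z' - Z * ζ) + Z * (ζ - V) + (Z - W) * V := by ring
  have hZn : ‖Z‖ ≤ 2 := by
    have : Z = (Z - W) + W := by ring
    rw [this]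
    refine (norm_add_le _ _).trans ?_
    rw [hW]
    linarith
  rw [e1]
  refine (norm_add₃_le).trans ?_
  rw [norm_mul, norm_mul, hV, mul_one]
  have : ‖Z‖ * ‖ζ - V‖ ≤ 2 * η := mul_le_mul hZn hζ (norm_nonneg _) (by norm_num)
  linarith

noncomputable def θ : ℝ := Real.pi / 2048

lemma θ_bounds : 0.00153398078788564 < θ ∧ θ < 0.00153398078788565 := by
  unfold θ
  have h1 := Real.pi_gt_d20
  have h2 := Real.pi_lt_d20
  constructor <;> linarith

lemma C_err : |(CC : ℝ) / 2 ^ 60 - Real.cos θ| ≤ 53 / 10 ^ 14 := by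
  obtain ⟨h1, h2⟩ := θ_bounds
  have h0 : |θ| ≤ 1 := by rw [abs_of_pos (by linarith)]; linarith
  have h := Real.cos_bound h0
  have h3 : |θ| ^ 4 * (5 / 96) ≤ 289 / 10 ^ 15 := by
    rw [abs_of_pos (by linarith)]
    have : θ ^ 4 ≤ (0.00153398078788565 : ℝ) ^ 4 := by gcongr
    refine (mul_le_mul_of_nonneg_right this (by norm_num)).trans ?_
    norm_num
  have h4 : |(CC : ℝ) / 2 ^ 60 - (1 - θ ^ 2 / 2)| ≤ 24 / 10 ^ 14 := by
    have a1 : (0.00153398078788564 : ℝ) ^ 2 ≤ θ ^ 2 := by gcongr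
    have a2 : θ ^ 2 ≤ (0.00153398078788565 : ℝ) ^ 2 := by gcongr
    unfold CC
    rw [abs_le]
    constructor <;> norm_num at a1 a2 ⊢ <;> linarith
  have h5 : (CC : ℝ) / 2 ^ 60 - Real.cos θ
      = ((CC : ℝ) / 2 ^ 60 - (1 - θ ^ 2 / 2)) - (Real.cos θ - (1 - θ ^ 2 / 2)) := by ring
  rw [h5]
  refine (abs_sub _ _).trans ?_
  have := h.trans h3
  norm_num at *
  linarith

lemma S_err : |(SS : ℝ) / 2 ^ 60 - Real.sin θ| ≤ 1 / 10 ^ 14 := by
  obtain ⟨h1, h2⟩ := θ_bounds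
  have h0 : |θ| ≤ 1 := by rw [abs_of_pos (by linarith)]; linarith
  have h := Real.sin_bound h0
  have h3 : |θ| ^ 5 / 100 ≤ 1 / 10 ^ 15 := by
    rw [abs_of_pos (by linarith)]
    have : θ ^ 5 ≤ (0.00153398078788565 : ℝ) ^ 5 := by gcongr
    refine (div_le_div_of_nonneg_right this (by norm_num)).trans ?_
    norm_num
  have h4 : |(SS : ℝ) / 2 ^ 60 - (θ - θ ^ 3 / 6)| ≤ 5 / 10 ^ 15 := by
    have a1 : (0.00153398078788564 : ℝ) ^ 3 ≤ θ ^ 3 := by gcongr
    have a2 : θ ^ 3 ≤ (0.00153398078788565 : ℝ) ^ 3 := by gcongr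
    unfold SS
    rw [abs_le]
    constructor <;> norm_num at a1 a2 h1 h2 ⊢ <;> linarith
  have h5 : (SS : ℝ) / 2 ^ 60 - Real.sin θ
      = ((SS : ℝ) / 2 ^ 60 - (θ - θ ^ 3 / 6)) - (Real.sin θ - (θ - θ ^ 3 / 6)) := by ring
  rw [h5]
  refine (abs_sub _ _).trans ?_
  have := h.trans h3
  norm_num at *
  linarith

/-- the iterates as complex numbers -/
noncomputable def Zc (k : ℕ) : ℂ := ⟨((itr k).1 : ℝ) / 2 ^ 60, ((itr k).2 : ℝ) / 2 ^ 60⟩

noncomputable def Wc (k : ℕ) : ℂ := ⟨Real.cos (k * θ), Real.sin (k * θ)⟩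

noncomputable def ζc : ℂ := ⟨(CC : ℝ) / 2 ^ 60, (SS : ℝ) / 2 ^ 60⟩

lemma norm_Wc (k : ℕ) : ‖Wc k‖ = 1 := by
  rw [← sq_eq_sq₀ (norm_nonneg _) zero_le_one, Complex.sq_norm, Complex.normSq_apply]
  simp only [Wc]
  have := Real.cos_sq_add_sin_sq (k * θ)
  nlinarith

lemma Wc_succ (k : ℕ) : Wc (k + 1) = Wc k * Wc 1 := by
  have e : ((k + 1 : ℕ) : ℝ) * θ = k * θ + θ := by push_cast; ring
  apply Complex.ext
  · simp only [Wc, Complex.mul_re]
    rw [e, Real.cos_add]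
    norm_num
  · simp only [Wc, Complex.mul_im]
    rw [e, Real.sin_add]
    norm_num
    ring

lemma fl (A : ℕ) : |((A / 2 ^ 60 : ℕ) : ℝ) / 2 ^ 60 - (A : ℝ) / 2 ^ 120| ≤ 1 / 2 ^ 60 := by
  have b1 : ((A / 2 ^ 60 : ℕ) : ℝ) * 2 ^ 60 ≤ A := by
    exact_mod_cast Nat.div_mul_le_self A (2 ^ 60)
  have b2 : (A : ℝ) < ((A / 2 ^ 60 : ℕ) : ℝ) * 2 ^ 60 + 2 ^ 60 := by
    have := Nat.lt_div_mul_add (a := A) (b := 2 ^ 60) (by norm_num)
    exact_mod_cast this
  rw [abs_le]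
  constructor
  · rw [← sub_nonneg]
    have : ((A / 2 ^ 60 : ℕ) : ℝ) / 2 ^ 60 - (A : ℝ) / 2 ^ 120 - -(1 / 2 ^ 60)
      = ((((A / 2 ^ 60 : ℕ) : ℝ) * 2 ^ 60 + 2 ^ 60) - A) / 2 ^ 120 := by ring
    rw [this]
    apply div_nonneg _ (by norm_num)
    linarith
  · have : ((A / 2 ^ 60 : ℕ) : ℝ) / 2 ^ 60 - (A : ℝ) / 2 ^ 120
      = (((A / 2 ^ 60 : ℕ) : ℝ) * 2 ^ 60 - A) / 2 ^ 120 := by ring
    rw [this]
    refine (div_nonpos_of_nonpos_of_nonneg (by linarith) (by norm_num)).trans (by norm_num)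

lemma Zc_err : ∀ k ≤ 512, ‖Zc k - Wc k‖ ≤ k * (12 / 10 ^ 13) := by
  intro k
  induction k with
  | zero =>
    intro _
    have : Zc 0 - Wc 0 = 0 := by
      apply Complex.ext
      · simp [Zc, Wc, itr]
        norm_num
      · simp [Zc, Wc, itr]
    rw [this]
    simp
  | succ k ih =>
    intro hk
    have h1 := ih (by omega)
    have h2 := chk_all k (by omega)
    have h3 : (itr k).2 * SS ≤ (itr k).1 * CC := by
      unfold chkC at h2
      simp only [Bool.and_eq_true, Nat.ble_eq] at h2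
      exact h2.2
    have hη : ‖ζc - Wc 1‖ ≤ 54 / 10 ^ 14 := by
      refine (Complex.norm_le_abs_re_add_abs_im _).trans ?_
      have a := C_err
      have b := S_err
      simp only [ζc, Wc, Complex.sub_re, Complex.sub_im, Nat.cast_one, one_mul]
      norm_num at *
      linarith
    have hδ : ‖Zc (k + 1) - Zc k * ζc‖ ≤ 2 / 2 ^ 60 := by
      refine (Complex.norm_le_abs_re_add_abs_im _).trans ?_
      have c1 := fl ((itr k).1 * CC - (itr k).2 * SS)
      have c2 := fl ((itr k).2 * CC + (itr k).1 * SS)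
      have r1 : (Zc (k + 1) - Zc k * ζc).re
          = ((((itr k).1 * CC - (itr k).2 * SS) / 2 ^ 60 : ℕ) : ℝ) / 2 ^ 60
            - (((itr k).1 * CC - (itr k).2 * SS : ℕ) : ℝ) / 2 ^ 120 := by
        simp only [Zc, ζc, itr, Complex.sub_re, Complex.mul_re]
        rw [Nat.cast_sub h3]
        push_cast
        ring
      have r2 : (Zc (k + 1) - Zc k * ζc).im
          = ((((itr k).2 * CC + (itr k).1 * SS) / 2 ^ 60 : ℕ) : ℝ) / 2 ^ 60
            - (((itr k).2 * CC + (itr k).1 * SS : ℕ) : ℝ) / 2 ^ 120 := by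
        simp only [Zc, ζc, itr, Complex.sub_im, Complex.mul_im]
        push_cast
        ring
      rw [r1, r2]
      refine (add_le_add c1 c2).trans (by norm_num)
    have hk512 : (k : ℝ) ≤ 512 := by exact_mod_cast (by omega : k ≤ 512)
    have h4 := err_step (Zc k) (Zc (k + 1)) (Wc k) (Wc 1) ζc (k * (12 / 10 ^ 13)) (54 / 10 ^ 14)
      (2 / 2 ^ 60) (norm_Wc k) (norm_Wc 1) hη h1 hδ (by norm_num; linarith)
    rw [Wc_succ]
    refine h4.trans ?_
    push_cast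
    norm_num
    linarith

theorem specCOS : SpecCOS := by
  have key : ∀ k ≤ 512, |(cT k : ℝ) - 2 ^ 30 * Real.cos (k * θ)| ≤ 2 ∧
      |(cT (1024 - k) : ℝ) - 2 ^ 30 * Real.sin (k * θ)| ≤ 2 := by
    intro k hk
    have h1 := Zc_err k hk
    have h2 := chk_all k hk
    unfold chkC at h2
    simp only [Bool.and_eq_true, Nat.ble_eq] at h2
    obtain ⟨⟨⟨⟨c1, c2⟩, s1⟩, s2⟩, -⟩ := h2
    have hk' : (k : ℝ) ≤ 512 := by exact_mod_cast hk
    have h3 : ‖Zc k - Wc k‖ ≤ 1 / 2 ^ 30 := by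
      refine h1.trans ?_
      norm_num
      linarith
    have hr := (Complex.abs_re_le_norm (Zc k - Wc k)).trans h3
    have hi := (Complex.abs_im_le_norm (Zc k - Wc k)).trans h3
    simp only [Complex.sub_re, Complex.sub_im, Zc, Wc] at hr hi
    have c1' : (cT k : ℝ) * 2 ^ 30 ≤ (itr k).1 + 2 ^ 30 := by exact_mod_cast c1
    have c2' : ((itr k).1 : ℝ) ≤ (cT k : ℝ) * 2 ^ 30 + 2 ^ 30 := by exact_mod_cast c2
    have s1' : (cT (1024 - k) : ℝ) * 2 ^ 30 ≤ (itr k).2 + 2 ^ 30 := by exact_mod_cast s1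
    have s2' : ((itr k).2 : ℝ) ≤ (cT (1024 - k) : ℝ) * 2 ^ 30 + 2 ^ 30 := by exact_mod_cast s2
    rw [abs_le] at hr hi
    rw [abs_le, abs_le]
    obtain ⟨hr1, hr2⟩ := hr
    obtain ⟨hi1, hi2⟩ := hi
    norm_num at *
    refine ⟨⟨?_, ?_⟩, ⟨?_, ?_⟩⟩ <;> linarith
  intro k hk
  rcases le_or_gt k 512 with h | h
  · have e : Real.pi * k / 2048 = k * θ := by unfold θ; ring
    rw [e]
    exact (key k h).1
  · have h1 := (key (1024 - k) (by omega)).2
    have e1 : 1024 - (1024 - k) = k := by omega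
    rw [e1] at h1
    have e : Real.pi * k / 2048 = Real.pi / 2 - ((1024 - k : ℕ) : ℝ) * θ := by
      unfold θ
      rw [Nat.cast_sub hk]
      push_cast
      ring
    rw [e, Real.cos_pi_div_two_sub]
    exact h1

/-! ### logarithms -/

lemma log_step_lower (n : ℕ) (hn : 1 ≤ n) :
    2 * (1 / (2 * (n : ℝ) + 1)) + 2 / 3 * (1 / (2 * (n : ℝ) + 1)) ^ 3 ≤
      Real.log (((n : ℝ) + 1) / n) := by
  have hn' : (0 : ℝ) < n := by exact_mod_cast hn
  have h := Real.hasSum_log_one_add_inv hn'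
  set x : ℝ := 1 / (2 * (n : ℝ) + 1) with hxdef
  have hx : 0 < x := by positivity
  have h2 := sum_le_hasSum (Finset.range 2) (fun i _ => by positivity) h
  have e : (1 : ℝ) + (n : ℝ)⁻¹ = ((n : ℝ) + 1) / n := by field_simp
  rw [e] at h2
  refine le_trans (le_of_eq ?_) h2
  rw [Finset.sum_range_succ, Finset.sum_range_one]
  norm_num

lemma log_step_upper (n : ℕ) (hn : 1 ≤ n) :
    Real.log (((n : ℝ) + 1) / n) ≤
    2 * (1 / (2 * (n : ℝ) + 1)) + 2 / 3 * (1 / (2 * (n : ℝ) + 1)) ^ 3 +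
      (1 / (2 * (n : ℝ) + 1)) ^ 5 := by
  have hn' : (1 : ℝ) ≤ n := by exact_mod_cast hn
  have h := Real.hasSum_log_one_add_inv (show (0 : ℝ) < n by linarith)
  set x : ℝ := 1 / (2 * (n : ℝ) + 1) with hxdef
  have hx : 0 < x := by positivity
  have hx3 : x ≤ 1 / 3 := by
    rw [hxdef]
    apply one_div_le_one_div_of_le (by norm_num)
    linarith
  have e : (1 : ℝ) + (n : ℝ)⁻¹ = ((n : ℝ) + 1) / n := by field_simp
  rw [e] at h
  have h3 := (hasSum_nat_add_iff' 2).mpr h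
  have hx1 : x ^ 2 < 1 := by nlinarith
  have hg : HasSum (fun k : ℕ => (2 / 5 * x ^ 5) * (x ^ 2) ^ k) ((2 / 5 * x ^ 5) * (1 - x ^ 2)⁻¹) :=
    (hasSum_geometric_of_lt_one (by positivity) hx1).mul_left _
  have h4 := hasSum_le (fun k => ?_) h3 hg
  · have h5 : (2 / 5 * x ^ 5) * (1 - x ^ 2)⁻¹ ≤ x ^ 5 := by
      rw [← div_eq_mul_inv, div_le_iff₀ (by linarith)]
      have h6 : 0 < x ^ 5 := by positivity
      have hx2 : x ^ 2 ≤ 1 / 9 := by nlinarith
      nlinarith [mul_le_mul_of_nonneg_left hx2 h6.le]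
    rw [Finset.sum_range_succ, Finset.sum_range_one] at h4
    norm_num at h4
    linarith
  · have e1 : ((2 : ℝ) * (1 / (2 * ((k + 2 : ℕ) : ℝ) + 1)) * x ^ (2 * (k + 2) + 1)) =
        (2 / (2 * ((k + 2 : ℕ) : ℝ) + 1)) * (x ^ 5 * (x ^ 2) ^ k) := by
      rw [← pow_mul, ← pow_add]
      ring_nf
    rw [e1]
    have e2 : 2 / 5 * x ^ 5 * (x ^ 2) ^ k = 2 / 5 * (x ^ 5 * (x ^ 2) ^ k) := by ring
    rw [e2]
    apply mul_le_mul_of_nonneg_right _ (by positivity)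
    apply div_le_div_of_nonneg_left (by norm_num) (by norm_num)
    push_cast
    have : (0 : ℝ) ≤ k := Nat.cast_nonneg k
    linarith

/-- `⌊2⁶⁰ (2 x + 2 x³ / 3)⌋`, `x = 1 / d`, `d = 2049 + 2 m` -/
def tm (m : ℕ) : ℕ :=
  (2 ^ 61 * (3 * ((2049 + 2 * m) * (2049 + 2 * m)) + 1)) /
    (3 * ((2049 + 2 * m) * (2049 + 2 * m) * (2049 + 2 * m)))

def Sm : ℕ → ℕ
  | 0 => 0
  | m + 1 => Sm m + tm m

/-- `2⁶⁰ log 2`, rounded down -/
def N2 : ℕ := 799144290325162402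

/-- entry `m` against `log m = S / 2⁶⁰ + t log 2` -/
def chk1 (m t S : ℕ) : Bool :=
  Nat.ble (le m * 2 ^ 30) (2 ^ 64 + S + t * N2) &&
  Nat.ble (2 ^ 64 + S + t * N2 + 2 ^ 30) ((le m + 16) * 2 ^ 30)

def chkD : ℕ → ℕ → ℕ → Bool
  | 0, m, S => chk1 m 0 S
  | t + 1, m, S => chk1 m (t + 1) S && (Nat.ble 1 (m % 2) || chkD t (m / 2) S)

def loopL : ℕ → ℕ → ℕ → Bool
  | 0, j, S => chkD 10 (1024 + j) S && Nat.beq S N2
  | f + 1, j, S => chkD 10 (1024 + j) S && frc (S + tm j) fun S' => loopL f (j + 1) S'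

lemma chkD_spec : ∀ (t m S : ℕ), chkD t m S = true → ∀ s ≤ t, 2 ^ s ∣ m →
    chk1 (m / 2 ^ s) (t - s) S = true := by
  intro t
  induction t with
  | zero =>
    intro m S h s hs _
    have : s = 0 := by omega
    subst this
    simpa [chkD] using h
  | succ t ih =>
    intro m S h s hs hd
    rw [chkD, Bool.and_eq_true, Bool.or_eq_true] at h
    obtain ⟨h1, h2⟩ := h
    rcases Nat.eq_zero_or_pos s with h0 | h0
    · subst h0
      simpa using h1
    · obtain ⟨s, rfl⟩ : ∃ r, s = r + 1 := ⟨s - 1, by omega⟩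
      obtain ⟨q, rfl⟩ := hd
      have e1 : 2 ^ (s + 1) * q = 2 * (2 ^ s * q) := by rw [pow_succ]; ring
      rcases h2 with h2 | h2
      · rw [Nat.ble_eq, e1, Nat.mul_mod_right] at h2
        omega
      · rw [e1, Nat.mul_div_cancel_left _ (by norm_num)] at h2
        have h3 := ih _ _ h2 s (by omega) ⟨q, rfl⟩
        rw [Nat.mul_div_cancel_left _ (by positivity)] at h3 ⊢
        have e2 : t + 1 - (s + 1) = t - s := by omega
        rw [e2]
        exact h3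

lemma loopL_spec : ∀ (f k : ℕ), loopL f k (Sm k) = true →
    (∀ j ≤ f, chkD 10 (1024 + (k + j)) (Sm (k + j)) = true) ∧ Sm (k + f) = N2 := by
  intro f
  induction f with
  | zero =>
    intro k h
    rw [loopL, Bool.and_eq_true] at h
    refine ⟨fun j hj => ?_, Nat.eq_of_beq_eq_true h.2⟩
    have : j = 0 := by omega
    subst this
    exact h.1
  | succ f ih =>
    intro k h
    rw [loopL] at h
    simp only [frc_eq, Bool.and_eq_true] at h
    obtain ⟨h1, h2⟩ := h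
    obtain ⟨h3, h4⟩ := ih (k + 1) h2
    refine ⟨fun j hj => ?_, ?_⟩
    · rcases Nat.eq_zero_or_pos j with hj0 | hj0
      · subst hj0
        exact h1
      · have h5 := h3 (j - 1) (by omega)
        have e : k + 1 + (j - 1) = k + j := by omega
        rw [e] at h5
        exact h5
    · rw [← h4]
      congr 1
      omega

lemma loopL_true : loopL 1024 0 0 = true := by decide +kernel

lemma chkL_all : (∀ j ≤ 1024, chkD 10 (1024 + j) (Sm j) = true) ∧ Sm 1024 = N2 := by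
  obtain ⟨h1, h2⟩ := loopL_spec 1024 0 loopL_true
  rw [Nat.zero_add] at h2
  refine ⟨fun j hj => ?_, h2⟩
  have := h1 j hj
  rwa [Nat.zero_add] at this

lemma tm_bounds (m : ℕ) :
    (tm m : ℝ) ≤ 2 ^ 60 * Real.log (((1024 + m : ℕ) + 1 : ℝ) / (1024 + m : ℕ)) ∧
    2 ^ 60 * Real.log (((1024 + m : ℕ) + 1 : ℝ) / (1024 + m : ℕ)) ≤ tm m + 40 := by
  have h1 := log_step_lower (1024 + m) (by omega)
  have h2 := log_step_upper (1024 + m) (by omega)
  set d : ℝ := 2 * ((1024 + m : ℕ) : ℝ) + 1 with hd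
  have hdn : d = ((2049 + 2 * m : ℕ) : ℝ) := by rw [hd]; push_cast; ring
  have hd0 : (2049 : ℝ) ≤ d := by
    rw [hdn]
    exact_mod_cast (by omega : 2049 ≤ 2049 + 2 * m)
  have hdp : 0 < d := by linarith
  have b1 : ((tm m : ℕ) : ℝ) * (3 * (d * d * d)) ≤ 2 ^ 61 * (3 * (d * d) + 1) := by
    rw [hdn]
    exact_mod_cast Nat.div_mul_le_self (2 ^ 61 * (3 * ((2049 + 2 * m) * (2049 + 2 * m)) + 1))
      (3 * ((2049 + 2 * m) * (2049 + 2 * m) * (2049 + 2 * m)))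
  have b2 : 2 ^ 61 * (3 * (d * d) + 1) < ((tm m : ℕ) : ℝ) * (3 * (d * d * d)) + 3 * (d * d * d) := by
    rw [hdn]
    have := Nat.lt_div_mul_add (a := 2 ^ 61 * (3 * ((2049 + 2 * m) * (2049 + 2 * m)) + 1))
      (b := 3 * ((2049 + 2 * m) * (2049 + 2 * m) * (2049 + 2 * m))) (by positivity)
    exact_mod_cast this
  have hd3 : 0 < 3 * (d * d * d) := by positivity
  have e1 : 2 ^ 60 * (2 * (1 / d) + 2 / 3 * (1 / d) ^ 3)
      = 2 ^ 61 * (3 * (d * d) + 1) / (3 * (d * d * d)) := by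
    field_simp
  constructor
  · refine le_trans ?_ (mul_le_mul_of_nonneg_left h1 (by norm_num))
    rw [e1, le_div_iff₀ hd3]
    exact b1
  · refine le_trans (mul_le_mul_of_nonneg_left h2 (by norm_num)) ?_
    have e2 : (2 : ℝ) ^ 60 * (2 * (1 / d) + 2 / 3 * (1 / d) ^ 3 + (1 / d) ^ 5)
      = 2 ^ 61 * (3 * (d * d) + 1) / (3 * (d * d * d)) + 2 ^ 60 * (1 / d) ^ 5 := by
      rw [mul_add, e1]
    rw [e2]
    have c1 : 2 ^ 61 * (3 * (d * d) + 1) / (3 * (d * d * d)) ≤ (tm m : ℝ) + 1 := by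
      rw [div_le_iff₀ hd3]
      linarith
    have c2 : (2 : ℝ) ^ 60 * (1 / d) ^ 5 ≤ 39 := by
      have : (1 / d) ^ 5 ≤ (1 / 2049 : ℝ) ^ 5 := by
        gcongr
      refine (mul_le_mul_of_nonneg_left this (by norm_num)).trans ?_
      norm_num
    linarith

lemma Sm_bounds (m : ℕ) :
    (Sm m : ℝ) ≤ 2 ^ 60 * Real.log (((1024 + m : ℕ) : ℝ) / 1024) ∧
    2 ^ 60 * Real.log (((1024 + m : ℕ) : ℝ) / 1024) ≤ Sm m + 40 * m := by
  induction m with
  | zero => simp [Sm]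
  | succ m ih =>
    obtain ⟨h1, h2⟩ := ih
    obtain ⟨h3, h4⟩ := tm_bounds m
    have hp : (0 : ℝ) < ((1024 + m : ℕ) : ℝ) := by
      exact_mod_cast (by omega : 0 < 1024 + m)
    have e : Real.log (((1024 + (m + 1) : ℕ) : ℝ) / 1024)
        = Real.log (((1024 + m : ℕ) : ℝ) / 1024)
          + Real.log (((1024 + m : ℕ) + 1 : ℝ) / (1024 + m : ℕ)) := by
      rw [← Real.log_mul (by positivity) (by positivity)]
      congr 1
      push_cast
      field_simp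
      ring
    rw [e]
    constructor
    · rw [Sm]
      push_cast at *
      linarith
    · rw [Sm]
      push_cast at *
      linarith

lemma N2_bounds : (N2 : ℝ) ≤ 2 ^ 60 * Real.log 2 ∧ 2 ^ 60 * Real.log 2 ≤ (N2 : ℝ) + 40960 := by
  obtain ⟨h1, h2⟩ := Sm_bounds 1024
  rw [chkL_all.2] at h1 h2
  have e2 : ((1024 + 1024 : ℕ) : ℝ) / 1024 = 2 := by norm_num
  rw [e2] at h1 h2
  push_cast at h2
  constructor <;> linarith

theorem specLN2 : SpecLN2 := by
  obtain ⟨h1, h2⟩ := N2_bounds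
  unfold SpecLN2 LN2L LN2U
  unfold N2 at h1 h2
  push_cast at *
  norm_num at h1 h2
  norm_num
  constructor <;> linarith

lemma LN2L_le : (LN2L : ℝ) ≤ 2 ^ 30 * Real.log 2 := specLN2.1
lemma le_LN2U : 2 ^ 30 * Real.log 2 ≤ (LN2U : ℝ) := specLN2.2

/-- every `m ≤ 2048` is `(1024 + j) / 2 ^ s` -/
lemma exists_js (m : ℕ) (h1 : 1 ≤ m) (h2 : m ≤ 2048) :
    ∃ j s : ℕ, j ≤ 1024 ∧ s ≤ 10 ∧ 1024 + j = m * 2 ^ s := by
  rcases Nat.lt_or_ge m 1024 with h | h
  · have a1 := Nat.log2_self_le (n := m) (by omega)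
    have a2 := Nat.lt_log2_self (n := m)
    set k := Nat.log2 m with hkdef
    have hk : k ≤ 10 := by
      by_contra hc
      have : 2 ^ 11 ≤ 2 ^ k := Nat.pow_le_pow_right (by norm_num) (by omega)
      norm_num at this
      omega
    have e2 : 2 ^ k * 2 ^ (10 - k) = 1024 := by
      rw [← pow_add]
      have : k + (10 - k) = 10 := by omega
      rw [this]
      norm_num
    have b1 : 1024 ≤ m * 2 ^ (10 - k) := by
      rw [← e2]
      exact Nat.mul_le_mul_right _ a1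
    have b2 : m * 2 ^ (10 - k) < 2048 := by
      have : 2 ^ (k + 1) * 2 ^ (10 - k) = 2048 := by
        rw [pow_succ, mul_assoc, mul_comm 2, ← mul_assoc, e2]
        norm_num
      rw [← this]
      exact Nat.mul_lt_mul_of_pos_right a2 (by positivity)
    exact ⟨m * 2 ^ (10 - k) - 1024, 10 - k, by omega, by omega, by omega⟩
  · exact ⟨m - 1024, 0, by omega, by omega, by omega⟩

theorem specLEE : SpecLEE := by
  intro m hm1 hm2
  obtain ⟨j, s, hj, hs, e⟩ := exists_js m hm1 hm2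
  have h1 := chkD_spec 10 (1024 + j) (Sm j) (chkL_all.1 j hj) s hs ⟨m, by rw [e]; ring⟩
  rw [e, Nat.mul_div_cancel _ (by positivity)] at h1
  unfold chk1 at h1
  rw [Bool.and_eq_true, Nat.ble_eq, Nat.ble_eq] at h1
  obtain ⟨h2, h3⟩ := h1
  have h2' : (le m : ℝ) * 2 ^ 30 ≤ 2 ^ 64 + Sm j + ((10 - s : ℕ) : ℝ) * N2 := by exact_mod_cast h2
  have h3' : 2 ^ 64 + (Sm j : ℝ) + ((10 - s : ℕ) : ℝ) * N2 + 2 ^ 30 ≤ ((le m : ℝ) + 16) * 2 ^ 30 := by
    exact_mod_cast h3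
  obtain ⟨a1, a2⟩ := Sm_bounds j
  obtain ⟨b1, b2⟩ := N2_bounds
  have ht : ((10 - s : ℕ) : ℝ) ≤ 10 := by exact_mod_cast (by omega : 10 - s ≤ 10)
  have ht0 : (0 : ℝ) ≤ ((10 - s : ℕ) : ℝ) := Nat.cast_nonneg _
  have hj' : (j : ℝ) ≤ 1024 := by exact_mod_cast hj
  have el : Real.log m = Real.log (((1024 + j : ℕ) : ℝ) / 1024)
      + ((10 - s : ℕ) : ℝ) * Real.log 2 := by
    have hmp : (0 : ℝ) < m := by exact_mod_cast hm1
    have hjp : (0 : ℝ) < ((1024 + j : ℕ) : ℝ) := by exact_mod_cast (by omega : 0 < 1024 + j)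
    rw [← Real.log_pow, ← Real.log_mul (by positivity) (by positivity)]
    congr 1
    rw [e]
    have e2 : (2 : ℝ) ^ s * 2 ^ (10 - s) = 1024 := by
      rw [← pow_add]
      have : s + (10 - s) = 10 := by omega
      rw [this]
      norm_num
    push_cast
    calc (m : ℝ) = m * (1024 / 1024) := by norm_num
      _ = m * (2 ^ s * 2 ^ (10 - s) / 1024) := by rw [e2]
      _ = (m : ℝ) * 2 ^ s / 1024 * 2 ^ (10 - s) := by ring
  rw [el]
  generalize Real.log (((1024 + j : ℕ) : ℝ) / 1024) = A at *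
  generalize Real.log 2 = B at *
  generalize ((10 - s : ℕ) : ℝ) = t at *
  generalize (Sm j : ℝ) = S at *
  generalize (le m : ℝ) = E at *
  generalize (N2 : ℝ) = N at *
  generalize (j : ℝ) = J at *
  have c1 := mul_le_mul_of_nonneg_left b1 ht0
  have c2 := mul_le_mul_of_nonneg_left b2 ht0
  clear h2 h3 e el
  constructor <;> linarith

set_option exponentiation.threshold 100000 in
lemma LT_lt : LT < 2 ^ 81960 := by decide +kernel

lemma le_big (m : ℕ) (hm : 2048 < m) : le m = 0 := by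
  unfold le
  have h0 := LT_lt
  have e : Nat.shiftRight LT (Nat.mul 40 m) = LT / 2 ^ (40 * m) := Nat.shiftRight_eq_div_pow LT (40 * m)
  have h1 : LT / 2 ^ (40 * m) = 0 := by
    apply Nat.div_eq_of_lt
    exact lt_of_lt_of_le h0 (Nat.pow_le_pow_right (by norm_num) (by omega))
  rw [e, h1]

lemma le_zero : le 0 = 0 := by decide +kernel

lemma log_up (u : ℝ) (hu : 0 ≤ u) : Real.log (1 + u) ≤ u * (2 + u) / (2 * (1 + u)) := by
  have h1 : 0 ≤ Real.log (1 + u) := Real.log_nonneg (by linarith)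
  have h2 := Real.self_le_sinh_iff.mpr h1
  rw [Real.sinh_eq, Real.exp_neg, Real.exp_log (by linarith)] at h2
  refine h2.trans (le_of_eq ?_)
  have : (1 : ℝ) + u ≠ 0 := by positivity
  field_simp
  ring

/-- the splitting `w = m 2 ^ s + f` -/
lemma split (w s : ℕ) : ∃ m f : ℕ, w = m * 2 ^ s + f ∧ f < 2 ^ s ∧ Nat.shiftRight w s = m ∧
    Nat.mod w (Nat.pow 2 s) = f := by
  refine ⟨w / 2 ^ s, w % 2 ^ s, ?_, Nat.mod_lt _ (by positivity), Nat.shiftRight_eq_div_pow w s, rfl⟩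
  rw [mul_comm]
  exact (Nat.div_add_mod _ _).symm

lemma log_split (m f s : ℕ) (hm : 1 ≤ m) :
    Real.log ((m * 2 ^ s + f : ℕ) : ℝ) = Real.log m + s * Real.log 2
      + Real.log (1 + (f : ℝ) / ((m : ℝ) * 2 ^ s)) := by
  have hmp : (0 : ℝ) < m := by exact_mod_cast hm
  rw [← Real.log_pow, ← Real.log_mul (by positivity) (by positivity),
    ← Real.log_mul (by positivity) (by positivity)]
  congr 1
  push_cast
  field_simp

theorem specLWB : SpecLWB := by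
  intro w s hw hs
  obtain ⟨m, f, e, hf, e1, e2⟩ := split w s
  unfold lw
  rw [e1, e2]
  have ex : Nat.sub (Nat.mul 2 w) f = 2 * w - f := rfl
  have ey : Nat.shiftLeft f 31 = f * 2 ^ 31 := Nat.shiftLeft_eq f 31
  have ez : ((Nat.add (Nat.add (le m) (Nat.div (Nat.shiftLeft f 31) (Nat.sub (Nat.mul 2 w) f)))
      (Nat.mul s LN2L) : ℕ) : ℝ)
      = (le m : ℝ) + ((f * 2 ^ 31 / (2 * w - f) : ℕ) : ℝ) + (s : ℝ) * (LN2L : ℝ) := by
    rw [ex, ey, ← Nat.cast_mul, ← Nat.cast_add, ← Nat.cast_add]; rfl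
  rw [ez]
  clear ez ex ey e1 e2
  have hfw : f ≤ w := by rw [e]; exact Nat.le_add_left _ _
  have hwp : (0 : ℝ) < w := by exact_mod_cast hw
  have hfr : (f : ℝ) ≤ w := by exact_mod_cast hfw
  have hf0 : (0 : ℝ) ≤ f := Nat.cast_nonneg f
  have hd : (0 : ℝ) < 2 * (w : ℝ) - f := by linarith
  have hq : ((f * 2 ^ 31 / (2 * w - f) : ℕ) : ℝ) ≤ 2 ^ 30 * (2 * f / (2 * (w : ℝ) - f)) := by
    have h1 : f * 2 ^ 31 / (2 * w - f) * (2 * w - f) ≤ f * 2 ^ 31 := Nat.div_mul_le_self _ _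
    have h2 : ((f * 2 ^ 31 / (2 * w - f) : ℕ) : ℝ) * (2 * (w : ℝ) - f) ≤ (f : ℝ) * 2 ^ 31 := by
      have h3 : ((2 * w - f : ℕ) : ℝ) = 2 * (w : ℝ) - f := by
        rw [Nat.cast_sub (by omega)]; push_cast; ring
      rw [← h3]
      exact_mod_cast h1
    rw [mul_div_assoc', le_div_iff₀ hd]
    linarith
  have hLs : (s : ℝ) * (LN2L : ℝ) ≤ 2 ^ 30 * (s * Real.log 2) := by
    have := mul_le_mul_of_nonneg_left LN2L_le (Nat.cast_nonneg s : (0 : ℝ) ≤ s)
    linarith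
  rcases Nat.eq_zero_or_pos m with hm0 | hm0
  · subst hm0
    rw [le_zero]
    have hlog : 0 ≤ Real.log w := Real.log_nonneg (by exact_mod_cast hw)
    have hfe : f = w := by rw [e]; ring
    have h5 : 2 * (f : ℝ) / (2 * (w : ℝ) - f) = 2 := by
      rw [hfe]
      have : 2 * (w : ℝ) - w = w := by ring
      rw [this]
      field_simp
    rw [h5] at hq
    have hs' : (s : ℝ) ≤ 20 := by exact_mod_cast hs
    have h6 : (s : ℝ) * (LN2L : ℝ) ≤ 20 * 744261117 := by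
      unfold LN2L
      push_cast
      linarith
    have h7 : (((0 : ℕ) : ℕ) : ℝ) = 0 := Nat.cast_zero
    rw [h7]
    clear e hfe
    linarith
  · have hls := log_split m f s hm0
    rw [← e] at hls
    have hu : (0 : ℝ) ≤ (f : ℝ) / ((m : ℝ) * 2 ^ s) :=
      div_nonneg hf0 (mul_nonneg (Nat.cast_nonneg m) (pow_nonneg (by norm_num) s))
    rcases Nat.lt_or_ge 2048 m with hm1 | hm1
    · rw [le_big m hm1]
      have h7 : (2048 : ℝ) ≤ m := by exact_mod_cast hm1.le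
      have h8 : 0 ≤ Real.log m := Real.log_nonneg (by linarith)
      have h9 : 0 ≤ Real.log (1 + (f : ℝ) / ((m : ℝ) * 2 ^ s)) := Real.log_nonneg (by linarith)
      have h10 : 2 * (f : ℝ) / (2 * (w : ℝ) - f) ≤ 2 := by
        rw [div_le_iff₀ hd]
        linarith
      rw [hls]
      have h11 : (((0 : ℕ) : ℕ) : ℝ) = 0 := Nat.cast_zero
      rw [h11]
      clear e
      linarith
    · obtain ⟨h3, -⟩ := specLEE m hm0 hm1
      have h4 := Real.le_log_one_add_of_nonneg hu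
      have h5 : 2 * ((f : ℝ) / ((m : ℝ) * 2 ^ s)) / ((f : ℝ) / ((m : ℝ) * 2 ^ s) + 2)
          = 2 * f / (2 * (w : ℝ) - f) := by
        have hmp : (0 : ℝ) < m := by exact_mod_cast hm0
        have hw' : (w : ℝ) = m * 2 ^ s + f := by
          have := e
          exact_mod_cast this
        have hD : (0 : ℝ) < (m : ℝ) * 2 ^ s := by positivity
        generalize (m : ℝ) * 2 ^ s = D at *
        rw [hw']
        have a1 : (f : ℝ) / D + 2 ≠ 0 := by positivity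
        have a2 : 2 * (D + (f : ℝ)) - f ≠ 0 := by
          have : 2 * (D + (f : ℝ)) - f = 2 * D + f := by ring
          rw [this]
          positivity
        rw [div_eq_div_iff a1 a2]
        field_simp
        ring
      rw [h5] at h4
      rw [hls]
      have h6 := mul_le_mul_of_nonneg_left h4 (by norm_num : (0 : ℝ) ≤ 2 ^ 30)
      linarith

theorem specLUB : SpecLUB := by
  intro N s hN1 hN2
  obtain ⟨m, f, e, hf, e1, e2⟩ := split N s
  rw [e1] at hN1 hN2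
  unfold lu
  rw [e1, e2]
  have hfN : f ≤ N := by rw [e]; exact Nat.le_add_left _ _
  have ex : Nat.sub (Nat.mul 2 N) f = 2 * N - f := rfl
  have ex2 : Nat.sub N f = m * 2 ^ s := by
    have : N - f = m * 2 ^ s := by omega
    exact this
  have ey : Nat.shiftLeft (Nat.mul f (2 * N - f)) 29 = f * (2 * N - f) * 2 ^ 29 :=
    Nat.shiftLeft_eq _ 29
  have ez : ((Nat.add (Nat.add (le m) (Nat.div (Nat.shiftLeft
      (Nat.mul f (Nat.sub (Nat.mul 2 N) f)) 29) (Nat.mul (Nat.sub N f) N)))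
        (Nat.add 17 (Nat.mul s LN2U)) : ℕ) : ℝ)
      = (le m : ℝ) + ((f * (2 * N - f) * 2 ^ 29 / (m * 2 ^ s * N) : ℕ) : ℝ)
        + (17 + (s : ℝ) * (LN2U : ℝ)) := by
    rw [ex, ex2, ey, ← Nat.cast_mul, ← Nat.cast_ofNat (R := ℝ) (n := 17), ← Nat.cast_add,
      ← Nat.cast_add, ← Nat.cast_add]; rfl
  rw [ez]
  clear ez ex ex2 ey e1 e2
  have hmp : (0 : ℝ) < m := by exact_mod_cast hN1
  have hD : (0 : ℝ) < (m : ℝ) * 2 ^ s := by positivity
  have hf0 : (0 : ℝ) ≤ f := Nat.cast_nonneg f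
  have hN' : (N : ℝ) = m * 2 ^ s + f := by exact_mod_cast e
  have hNp : (0 : ℝ) < N := by rw [hN']; positivity
  have hu : (0 : ℝ) ≤ (f : ℝ) / ((m : ℝ) * 2 ^ s) := div_nonneg hf0 hD.le
  have hls := log_split m f s hN1
  rw [← e] at hls
  obtain ⟨-, h3⟩ := specLEE m hN1 hN2
  have h4 := log_up _ hu
  have hLs : 2 ^ 30 * (s * Real.log 2) ≤ (s : ℝ) * (LN2U : ℝ) := by
    have := mul_le_mul_of_nonneg_left le_LN2U (Nat.cast_nonneg s : (0 : ℝ) ≤ s)
    linarith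
  have hq : 2 ^ 30 * ((f : ℝ) / ((m : ℝ) * 2 ^ s) * (2 + (f : ℝ) / ((m : ℝ) * 2 ^ s))
      / (2 * (1 + (f : ℝ) / ((m : ℝ) * 2 ^ s))))
      ≤ ((f * (2 * N - f) * 2 ^ 29 / (m * 2 ^ s * N) : ℕ) : ℝ) + 1 := by
    have hDN : 0 < m * 2 ^ s * N := by
      have : 0 < N := by exact_mod_cast hNp
      positivity
    have h1 := Nat.lt_div_mul_add (a := f * (2 * N - f) * 2 ^ 29) (b := m * 2 ^ s * N) hDN
    have h3 : ((2 * N - f : ℕ) : ℝ) = 2 * (N : ℝ) - f := by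
      rw [Nat.cast_sub (by omega)]; push_cast; ring
    have h2 : (f : ℝ) * (2 * (N : ℝ) - f) * 2 ^ 29
        ≤ ((f * (2 * N - f) * 2 ^ 29 / (m * 2 ^ s * N) : ℕ) : ℝ) * ((m : ℝ) * 2 ^ s * N)
          + (m : ℝ) * 2 ^ s * N := by
      rw [← h3]
      exact_mod_cast h1.le
    have h5 : 2 ^ 30 * ((f : ℝ) / ((m : ℝ) * 2 ^ s) * (2 + (f : ℝ) / ((m : ℝ) * 2 ^ s))
      / (2 * (1 + (f : ℝ) / ((m : ℝ) * 2 ^ s))))
        = (f : ℝ) * (2 * (N : ℝ) - f) * 2 ^ 29 / ((m : ℝ) * 2 ^ s * N) := by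
      generalize (m : ℝ) * 2 ^ s = D at *
      rw [hN']
      have a3 : D + (f : ℝ) ≠ 0 := by positivity
      have a4 : (1 : ℝ) + f / D ≠ 0 := by positivity
      have a5 : (1 : ℝ) + f / D = (D + f) / D := by field_simp
      rw [a5]
      field_simp
      ring
    rw [h5, div_le_iff₀ (by positivity)]
    linarith
  rw [hls]
  have h6 := mul_le_mul_of_nonneg_left h4 (by norm_num : (0 : ℝ) ≤ 2 ^ 30)
  linarith

end Pool.Agent.Lib.MP250511.ST.Chk.TABM
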