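import Pool.Agent.Lib.MP_250511_an.ST.Spec2

/-!
Problem MP_250511_an, Q2: the tip function is convex.
-/

set_option autoImplicit false

namespace Pool.Agent.Lib.MP250511.ST

open Complex Metric Set MeasureTheory Filter Topology
open scoped Real ENNReal

namespace TCXM

theorem dot_ee (u : ℝ) (ν : ℂ) :
    dot (ee u) ν = ν.re * Real.cos (π * u) + ν.im * Real.sin (π * u) := by
  unfold dot ee
  rw [Complex.exp_ofReal_mul_I_re, Complex.exp_ofReal_mul_I_im]
  ring

theorem hasDeriv1 (x y u : ℝ) :
    HasDerivAt (fun u : ℝ => x * Real.cos (π * u) + y * Real.sin (π * u))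
      (π * (y * Real.cos (π * u) - x * Real.sin (π * u))) u := by
  have h0 : HasDerivAt (fun u : ℝ => π * u) π u := by
    simpa using (hasDerivAt_id u).const_mul π
  have h1 := (h0.cos.const_mul x).add (h0.sin.const_mul y)
  refine h1.congr_deriv ?_
  ring

theorem hasDeriv2 (x y u : ℝ) :
    HasDerivAt (fun u : ℝ => π * (y * Real.cos (π * u) - x * Real.sin (π * u)))
      (-π ^ 2 * (x * Real.cos (π * u) + y * Real.sin (π * u))) u := by
  have h0 : HasDerivAt (fun u : ℝ => π * u) π u := by
    simpa using (hasDerivAt_id u).const_mul π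
  have h1 := ((h0.cos.const_mul y).sub (h0.sin.const_mul x)).const_mul π
  refine h1.congr_deriv ?_
  ring

theorem conc (x y lo hi : ℝ)
    (hpos : ∀ u, lo ≤ u → u ≤ hi → 0 < x * Real.cos (π * u) + y * Real.sin (π * u)) :
    ConcaveOn ℝ (Icc lo hi) (fun u : ℝ => x * Real.cos (π * u) + y * Real.sin (π * u)) := by
  have hd : deriv (fun u : ℝ => x * Real.cos (π * u) + y * Real.sin (π * u)) =
      fun u => π * (y * Real.cos (π * u) - x * Real.sin (π * u)) :=
    funext fun u => (hasDeriv1 x y u).deriv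
  refine concaveOn_of_deriv2_nonpos (convex_Icc lo hi) ?_ ?_ ?_ ?_
  · exact fun u _ => (hasDeriv1 x y u).continuousAt.continuousWithinAt
  · exact fun u _ => (hasDeriv1 x y u).differentiableAt.differentiableWithinAt
  · rw [hd]
    exact fun u _ => (hasDeriv2 x y u).differentiableAt.differentiableWithinAt
  · intro u hu
    rw [interior_Icc] at hu
    have h2 : deriv^[2] (fun u : ℝ => x * Real.cos (π * u) + y * Real.sin (π * u)) u =
        -π ^ 2 * (x * Real.cos (π * u) + y * Real.sin (π * u)) := by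
      show deriv (deriv (fun u : ℝ => x * Real.cos (π * u) + y * Real.sin (π * u))) u = _
      rw [hd]
      exact (hasDeriv2 x y u).deriv
    rw [h2]
    have h3 := hpos u hu.1.le hu.2.le
    have h4 : 0 < π ^ 2 := by positivity
    nlinarith

end TCXM

open TCXM in
theorem specTCX : SpecTCX := by
  intro s hs
  have hpos : ∀ u, s.lo ≤ u → u ≤ s.hi →
      0 < s.ν.re * Real.cos (π * u) + s.ν.im * Real.sin (π * u) := by
    intro u h1 h2
    rw [← dot_ee]
    exact hs.dt u h1 h2
  have hc := conc s.ν.re s.ν.im s.lo s.hi hpos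
  refine ⟨convex_Icc _ _, ?_⟩
  intro u hu v hv a b ha hb hab
  have hw : a • u + b • v ∈ Icc s.lo s.hi := (convex_Icc s.lo s.hi) hu hv ha hb hab
  have hDu := hpos u hu.1 hu.2
  have hDv := hpos v hv.1 hv.2
  have hDw := hpos _ hw.1 hw.2
  have hcc := hc.2 hu hv ha hb hab
  have htip : ∀ t, 0 < s.ν.re * Real.cos (π * t) + s.ν.im * Real.sin (π * t) → s.tip t =
      Real.log (1 + dot s.c s.ν) -
        Real.log (s.ν.re * Real.cos (π * t) + s.ν.im * Real.sin (π * t)) := by
    intro t ht
    unfold Slt.tip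
    rw [dot_ee, Real.log_div hs.ps.ne' ht.ne']
  rw [htip _ hDu, htip _ hDv, htip _ hDw]
  have hlog := strictConcaveOn_log_Ioi.concaveOn.2 (x := s.ν.re * Real.cos (π * u) +
    s.ν.im * Real.sin (π * u)) hDu (y := s.ν.re * Real.cos (π * v) +
    s.ν.im * Real.sin (π * v)) hDv ha hb hab
  have hmono := Real.log_le_log (by
    simp only [smul_eq_mul]
    rcases eq_or_lt_of_le ha with h0 | h0
    · rw [← h0] at hab ⊢
      rw [zero_add] at hab
      rw [hab, zero_mul, zero_add, one_mul]
      exact hDv
    · have := mul_pos h0 hDu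
      have := mul_nonneg hb hDv.le
      linarith) hcc
  simp only [smul_eq_mul] at hlog hmono ⊢
  have hsum : Real.log (1 + dot s.c s.ν) =
      a * Real.log (1 + dot s.c s.ν) + b * Real.log (1 + dot s.c s.ν) := by
    rw [← add_mul, hab, one_mul]
  linarith

end Pool.Agent.Lib.MP250511.ST
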