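import Pool.Agent.Lib.MP_250511_an.ST.Spec4

/-!
Problem MP_250511_an, Q2, part 4: module TIP, new slits are correct (helper41).
-/

set_option autoImplicit false

namespace Pool.Agent.Lib.MP250511.ST.Chk

open Complex Metric Set MeasureTheory Filter Topology
open scoped Real ENNReal

namespace TIPM

theorem ee_re (u : ℝ) : (ee u).re = Real.cos (π * u) := by
  unfold ee
  rw [Complex.exp_ofReal_mul_I_re]

theorem ee_im (u : ℝ) : (ee u).im = Real.sin (π * u) := by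
  unfold ee
  rw [Complex.exp_ofReal_mul_I_im]

theorem ee_norm (u : ℝ) : ‖ee u‖ = 1 := by
  unfold ee
  exact Complex.norm_exp_ofReal_mul_I _

theorem dot_ee (u v : ℝ) : dot (ee u) (ee v) = Real.cos (π * (u - v)) := by
  unfold dot
  rw [ee_re, ee_im, ee_re, ee_im, mul_sub, Real.cos_sub]

theorem cast_dst (a b : ℕ) : ((dst a b : ℕ) : ℝ) = |(a : ℝ) - b| := by
  have h : dst a b = (a - b) + (b - a) := rfl
  rw [h]
  rcases le_total a b with hab | hab
  · have : (a : ℝ) ≤ b := by exact_mod_cast hab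
    rw [Nat.sub_eq_zero_of_le hab, zero_add, Nat.cast_sub hab, abs_of_nonpos (by linarith)]
    ring
  · have : (b : ℝ) ≤ a := by exact_mod_cast hab
    rw [Nat.sub_eq_zero_of_le hab, add_zero, Nat.cast_sub hab, abs_of_nonneg (by linarith)]

/-- the cosine between two directions -/
theorem dot_dir (v k : ℕ) : dot (ee (((v : ℝ) - 2048) / 2048)) (ee (((k : ℝ) - 2048) / 2048)) =
    Real.cos (π * ((dst v k : ℕ) : ℝ) / 2048) := by
  rw [dot_ee, cast_dst, ← Real.cos_abs (π * _)]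
  congr 1
  have e : ((v : ℝ) - 2048) / 2048 - ((k : ℝ) - 2048) / 2048 = (1 / 2048) * ((v : ℝ) - k) := by ring
  rw [e, abs_mul, abs_mul, abs_of_pos Real.pi_pos, abs_of_pos (by norm_num : (0 : ℝ) < 1 / 2048)]
  ring

theorem sub_cast_ge (a b : ℕ) : (a : ℝ) - b ≤ ((Nat.sub a b : ℕ) : ℝ) := by
  have h : a ≤ Nat.sub a b + b := by
    have : a ≤ (a - b) + b := by omega
    exact this
  have h' : (a : ℝ) ≤ ((Nat.sub a b : ℕ) : ℝ) + b := by exact_mod_cast h
  linarith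

theorem tip_le (hCOS : SpecCOS) (hLWB : SpecLWB) (hLUB : SpecLUB) (hLN2 : SpecLN2)
    (H k v : ℕ) (D : ℝ) (hD : 0 < D) (hDH : 2 ^ 39 * D ≤ (H : ℝ))
    (h1 : 1 ≤ Nat.shiftRight H 31) (h2 : Nat.shiftRight H 31 ≤ 2048)
    (hv : dst v k ≤ 1023) (hc : 3 ≤ cT (dst v k)) :
    Real.log (D / Real.cos (π * ((dst v k : ℕ) : ℝ) / 2048)) ≤
      (((tip H k v : ℕ) : ℝ) - 2 ^ 34) / 2 ^ 30 := by
  set C := Real.cos (π * ((dst v k : ℕ) : ℝ) / 2048) with hC
  set w := cT (dst v k) - 2 with hw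
  have hw1 : 1 ≤ w := by omega
  have hwc : (w : ℝ) = (cT (dst v k) : ℝ) - 2 := by
    rw [hw, Nat.cast_sub (by omega)]
    norm_num
  have h3 := abs_le.mp (hCOS (dst v k) (by omega))
  have hwC : (w : ℝ) ≤ 2 ^ 30 * C := by
    rw [hwc]
    linarith [h3.2]
  have hwp : (0 : ℝ) < w := by exact_mod_cast hw1
  have hCp : 0 < C := by
    have : 0 < 2 ^ 30 * C := lt_of_lt_of_le hwp hwC
    linarith
  have hHp : (0 : ℝ) < H := lt_of_lt_of_le (by positivity) hDH
  have l1 : Real.log D ≤ Real.log H - 39 * Real.log 2 := by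
    have e : Real.log (2 ^ 39 * D) = 39 * Real.log 2 + Real.log D := by
      rw [Real.log_mul (by positivity) hD.ne', Real.log_pow]
      norm_num
    have := Real.log_le_log (by positivity) hDH
    rw [e] at this
    linarith
  have l2 : Real.log w - 30 * Real.log 2 ≤ Real.log C := by
    have e : Real.log (2 ^ 30 * C) = 30 * Real.log 2 + Real.log C := by
      rw [Real.log_mul (by positivity) hCp.ne', Real.log_pow]
      norm_num
    have := Real.log_le_log hwp hwC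
    rw [e] at this
    linarith
  have l3 := hLUB H 31 h1 h2
  have l4 := hLWB w 19 hw1 (by norm_num)
  have l5 := hLN2.1
  have l6 : ((lu H 31 : ℕ) : ℝ) + 17179869184 - (((lw w 19 : ℕ) : ℝ) + 9 * (LN2L : ℝ)) ≤
      ((tip H k v : ℕ) : ℝ) := by
    have h7 := sub_cast_ge (Nat.add (lu H 31) 17179869184) (Nat.add (lw w 19) (Nat.mul 9 LN2L))
    have e1 : ((Nat.add (lu H 31) 17179869184 : ℕ) : ℝ) = ((lu H 31 : ℕ) : ℝ) + 17179869184 := by
      have : Nat.add (lu H 31) 17179869184 = lu H 31 + 17179869184 := rfl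
      rw [this]
      push_cast
      ring
    have e2 : ((Nat.add (lw w 19) (Nat.mul 9 LN2L) : ℕ) : ℝ) = ((lw w 19 : ℕ) : ℝ)
        + 9 * (LN2L : ℝ) := by
      have : Nat.add (lw w 19) (Nat.mul 9 LN2L) = lw w 19 + 9 * LN2L := rfl
      rw [this]
      push_cast
      ring
    rw [e1, e2] at h7
    exact h7
  rw [Real.log_div hD.ne' hCp.ne', le_div_iff₀ (by norm_num)]
  linarith

end TIPM

open TIPM in
theorem TIP (hCOS : SpecCOS) (hHPM : SpecHPM) (hLWB : SpecLWB) (hLUB : SpecLUB)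
    (hLN2 : SpecLN2) : SpecTIP := by
  intro x yu yv k lo hi h
  unfold slOk at h
  simp only [Bool.and_eq_true, Nat.ble_eq, blt_iff] at h
  obtain ⟨hlt, ⟨hk, hl, hh⟩, ⟨hvl, hvh⟩, hpos, hU1, hU2⟩ := h
  unfold vOk at hvl hvh
  simp only [Bool.and_eq_true, Nat.ble_eq] at hvl hvh
  unfold hPos at hpos
  rw [blt_iff] at hpos
  have hpm := abs_le.mp (hHPM x yu yv k hk)
  set D : ℝ := 1 + dot ⟨(x : ℝ) / 512, ((yu : ℝ) - yv) / 512⟩ (ee (((k : ℝ) - 2048) / 2048))
    with hD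
  have hpos' : ((hm x yu yv k : ℕ) : ℝ) + ((he x yu yv : ℕ) : ℝ) < ((hp x yu yv k : ℕ) : ℝ) := by
    exact_mod_cast hpos
  have hDp : 0 < D := by
    have : 0 < 2 ^ 39 * D := by linarith [hpm.2]
    linarith
  have hDU : 2 ^ 39 * D ≤ ((hU x yu yv k : ℕ) : ℝ) := by
    have h7 := sub_cast_ge (Nat.add (hp x yu yv k) (he x yu yv)) (hm x yu yv k)
    have e1 : ((Nat.add (hp x yu yv k) (he x yu yv) : ℕ) : ℝ) = ((hp x yu yv k : ℕ) : ℝ)
        + ((he x yu yv : ℕ) : ℝ) := by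
      have : Nat.add (hp x yu yv k) (he x yu yv) = hp x yu yv k + he x yu yv := rfl
      rw [this]
      push_cast
      ring
    rw [e1] at h7
    have h8 : ((hU x yu yv k : ℕ) : ℝ)
      = ((Nat.sub (Nat.add (hp x yu yv k) (he x yu yv)) (hm x yu yv k) : ℕ) : ℝ) := rfl
    rw [h8]
    linarith [hpm.1]
  have hltr : (lo : ℝ) < hi := by exact_mod_cast hlt
  refine ⟨⟨?_, ?_, ?_, ?_⟩, ?_, ?_⟩
  · show ((lo : ℝ) - 2048) / 2048 < ((hi : ℝ) - 2048) / 2048
    linarith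
  · exact ee_norm _
  · exact hDp
  · intro u hu1 hu2
    have hu1' : ((lo : ℝ) - 2048) / 2048 ≤ u := hu1
    have hu2' : u ≤ ((hi : ℝ) - 2048) / 2048 := hu2
    show 0 < dot (ee u) (ee (((k : ℝ) - 2048) / 2048))
    rw [dot_ee]
    have a1 : |(lo : ℝ) - k| ≤ 1023 := by
      rw [← cast_dst]
      exact_mod_cast hvl.1
    have a2 : |(hi : ℝ) - k| ≤ 1023 := by
      rw [← cast_dst]
      exact_mod_cast hvh.1
    rw [abs_le] at a1 a2
    apply Real.cos_pos_of_mem_Ioo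
    have hπ := Real.pi_pos
    have b1 : -(1 / 2) < u - ((k : ℝ) - 2048) / 2048 := by linarith [a1.1]
    have b2 : u - ((k : ℝ) - 2048) / 2048 < 1 / 2 := by linarith [a2.2]
    constructor
    · nlinarith
    · nlinarith
  · show Real.log (D / dot (ee (((lo : ℝ) - 2048) / 2048)) (ee (((k : ℝ) - 2048) / 2048))) ≤ _
    have e : (mkS x yu yv k lo hi).tl = tip (hU x yu yv k) k lo := by simp only [mkS]
    rw [dot_dir, e]
    exact tip_le hCOS hLWB hLUB hLN2 (hU x yu yv k) k lo D hDp hDU hU1 hU2 hvl.1 hvl.2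
  · show Real.log (D / dot (ee (((hi : ℝ) - 2048) / 2048)) (ee (((k : ℝ) - 2048) / 2048))) ≤ _
    have e : (mkS x yu yv k lo hi).th = tip (hU x yu yv k) k hi := by simp only [mkS]
    rw [dot_dir, e]
    exact tip_le hCOS hLWB hLUB hLN2 (hU x yu yv k) k hi D hDp hDU hU1 hU2 hvh.1 hvh.2

end Pool.Agent.Lib.MP250511.ST.Chk
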