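import Pool.Agent.Lib.MP_250511_an.ST.NTR

/-!
Problem MP_250511_an, Q2: TRG from NTR (helper41).
-/

set_option autoImplicit false

namespace Pool.Agent.Lib.MP250511.ST.Chk

theorem TRG (h : SpecNTR) : SpecTRG := by
  intro v hv
  have h1 := h (v + 2048) (by omega) (by omega)
  have e1 : dst (v + 2048) 4096 = dst v 2048 := by
    have a : dst (v + 2048) 4096 = (v + 2048 - 4096) + (4096 - (v + 2048)) := rfl
    have b : dst v 2048 = (v - 2048) + (2048 - v) := rfl
    rw [a, b]; omega
  have e2 : dst (v + 2048) 5120 = dst v 3072 := by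
    have a : dst (v + 2048) 5120 = (v + 2048 - 5120) + (5120 - (v + 2048)) := rfl
    have b : dst v 3072 = (v - 3072) + (3072 - v) := rfl
    rw [a, b]; omega
  have e3 : ((v + 2048 : ℕ) : ℝ) - 4096 = (v : ℝ) - 2048 := by push_cast; ring
  rw [e1, e2, e3] at h1
  exact h1

end Pool.Agent.Lib.MP250511.ST.Chk
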