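import Pool.Agent.Lib.MP_250511_an.ST.Spec5

/-!
Problem MP_250511_an, Q2, part 5.  Module VRT: a vertex (from COS, NTR, LWB, LUB, LN2).
-/

set_option autoImplicit false

namespace Pool.Agent.Lib.MP250511.ST.Chk

open Complex Metric Set MeasureTheory Filter Topology
open scoped Real ENNReal

namespace VRTM

theorem ee_re (u : ℝ) : (ee u).re = Real.cos (π * u) := by
  unfold ee
  exact Complex.exp_ofReal_mul_I_re _

theorem ee_im (u : ℝ) : (ee u).im = Real.sin (π * u) := by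
  unfold ee
  exact Complex.exp_ofReal_mul_I_im _

theorem dot_ee (u v : ℝ) : dot (ee u) (ee v) = Real.cos (π * u - π * v) := by
  unfold dot
  rw [ee_re, ee_im, ee_re, ee_im, Real.cos_sub]

theorem dst_cast (a b : ℕ) : (dst a b : ℝ) = |(a : ℝ) - b| := by
  have e : dst a b = (a - b) + (b - a) := rfl
  rw [e]
  rcases le_total a b with h | h
  · rw [Nat.sub_eq_zero_of_le h, zero_add, Nat.cast_sub h, abs_of_nonpos]
    · ring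
    · have : (a : ℝ) ≤ b := by exact_mod_cast h
      linarith
  · rw [Nat.sub_eq_zero_of_le h, add_zero, Nat.cast_sub h, abs_of_nonneg]
    have : (b : ℝ) ≤ a := by exact_mod_cast h
    linarith

theorem sub_ge (a b : ℕ) : (a : ℝ) - b ≤ ((a - b : ℕ) : ℝ) := by
  rcases le_total b a with h | h
  · rw [Nat.cast_sub h]
  · rw [Nat.sub_eq_zero_of_le h, Nat.cast_zero]
    have : (a : ℝ) ≤ b := by exact_mod_cast h
    linarith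

/-- `- 2³⁰ log cos (π d / 2048) ≤ lc d` -/
theorem lc_ge (h₁ : SpecCOS) (h₃ : SpecLWB) (h₅ : SpecLN2) {d : ℕ} (hd : d ≤ 1023)
    (hc : 3 ≤ cT d) :
    0 < Real.cos (π * ((d : ℝ) / 2048)) ∧
      2 ^ 30 * (-Real.log (Real.cos (π * ((d : ℝ) / 2048)))) ≤ (lc d : ℝ) := by
  have g := h₁ d (by omega)
  rw [show Real.pi * (d : ℝ) / 2048 = π * ((d : ℝ) / 2048) by ring] at g
  set c : ℝ := Real.cos (π * ((d : ℝ) / 2048)) with hcdef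
  set w : ℕ := cT d - 2 with hw
  have hw1 : 1 ≤ w := by omega
  have hwr : (w : ℝ) = (cT d : ℝ) - 2 := by
    rw [hw, Nat.cast_sub (by omega)]
    norm_num
  have hwc : (w : ℝ) ≤ 2 ^ 30 * c := by
    rw [hwr]
    have := (abs_le.mp g).2
    linarith
  have hw0 : (0 : ℝ) < w := by exact_mod_cast hw1
  have hc0 : 0 < c := by
    by_contra hcon
    push Not at hcon
    nlinarith
  refine ⟨hc0, ?_⟩
  have hlog : Real.log w ≤ 30 * Real.log 2 + Real.log c := by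
    have h1 : Real.log w ≤ Real.log (2 ^ 30 * c) := Real.log_le_log hw0 hwc
    rw [Real.log_mul (by norm_num) hc0.ne', Real.log_pow] at h1
    simpa using h1
  have hlw := h₃ w 19 hw1 (by norm_num)
  have e : lc d = (17179869184 + 30 * LN2U) - lw w 19 := rfl
  rw [e]
  refine le_trans ?_ (sub_ge _ _)
  have h2 := h₅.2
  have e4 : ((17179869184 + 30 * LN2U : ℕ) : ℝ) = 2 ^ 34 + 30 * (LN2U : ℝ) := by
    rw [Nat.cast_add, Nat.cast_mul]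
    norm_num
  rw [e4]
  linarith

/-- one tip -/
theorem tip_le (h₁ : SpecCOS) (h₃ : SpecLWB) (h₄ : SpecLUB) (h₅ : SpecLN2) {q m d : ℕ}
    (hd : d ≤ 1023) (h : tOk q m d = true) {c : ℝ} (hc : c = Real.cos (π * ((d : ℝ) / 2048))) :
    0 < (m : ℝ) / 2 ^ 20 ∧
    2 ^ 59 * ((q : ℝ) / 2 ^ 29 * (-Real.log c) +
      ((q : ℝ) / 2 ^ 29 * (Real.log ((q : ℝ) / 2 ^ 29 / ((m : ℝ) / 2 ^ 20)) - 1) + (m : ℝ) / 2 ^ 20)) ≤
      (tL q m d : ℝ) - tR q m := by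
  have h' : ((Nat.ble 1 m && Nat.ble 3 (cT d)) &&
      (Nat.ble 1 (Nat.shiftRight q 18) && Nat.ble (Nat.shiftRight q 18) 2048)) = true := h
  simp only [Bool.and_eq_true, Nat.ble_eq] at h'
  obtain ⟨⟨hm, hcd⟩, hq1, hq2⟩ := h'
  obtain ⟨hc0, hl⟩ := lc_ge h₁ h₃ h₅ hd hcd
  rw [← hc] at hc0 hl
  have hm0 : (0 : ℝ) < m := by exact_mod_cast hm
  have hq : 1 ≤ q := by
    rcases Nat.eq_zero_or_pos q with h0 | h0
    · rw [h0] at hq1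
      exact absurd hq1 (by decide)
    · exact h0
  have hq0 : (0 : ℝ) < q := by exact_mod_cast hq
  have hlu := h₄ q 18 hq1 hq2
  have hlw := h₃ m 9 hm (by norm_num)
  have hln := h₅.1
  refine ⟨by positivity, ?_⟩
  have elog : Real.log ((q : ℝ) / 2 ^ 29 / ((m : ℝ) / 2 ^ 20)) =
      Real.log q - Real.log m - 9 * Real.log 2 := by
    have : (q : ℝ) / 2 ^ 29 / ((m : ℝ) / 2 ^ 20) = (q : ℝ) / (m * 2 ^ 9) := by
      field_simp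
    rw [this, Real.log_div hq0.ne' (by positivity), Real.log_mul hm0.ne' (by norm_num), Real.log_pow]
    push_cast
    ring
  rw [elog]
  have eL : (tL q m d : ℝ) = (q : ℝ) * ((lc d : ℝ) + lu q 18) + m * 549755813888 := by
    have e : tL q m d = q * (lc d + lu q 18) + m * 549755813888 := rfl
    rw [e]
    push_cast
    ring
  have eR : (tR q m : ℝ) = (q : ℝ) * ((lw m 9 : ℝ) + (9 * (LN2L : ℝ) + 1073741824)) := by
    have e : tR q m = q * (lw m 9 + (9 * LN2L + 1073741824)) := rfl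
    rw [e]
    push_cast
    ring
  rw [eL, eR]
  have key : 2 ^ 30 * (-Real.log c) + 2 ^ 30 * (Real.log q - Real.log m - 9 * Real.log 2 - 1) ≤
      ((lc d : ℝ) + lu q 18) - ((lw m 9 : ℝ) + (9 * (LN2L : ℝ) + 1073741824)) := by
    linarith
  have key2 := mul_le_mul_of_nonneg_left key hq0.le
  have e3 : 2 ^ 59 * ((q : ℝ) / 2 ^ 29 * (-Real.log c) +
      ((q : ℝ) / 2 ^ 29 * (Real.log q - Real.log m - 9 * Real.log 2 - 1) + (m : ℝ) / 2 ^ 20)) =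
      q * (2 ^ 30 * (-Real.log c) + 2 ^ 30 * (Real.log q - Real.log m - 9 * Real.log 2 - 1)) +
        m * 549755813888 := by ring
  rw [e3]
  linarith

/-- one sector -/
theorem sec_le {s : Sec} {p : Ptl} (h : s.Good p) (x : ℕ) :
    2 ^ 59 * ((x : ℝ) / 256 / 2 * (p.A₀ + p.A₁ * ((x : ℝ) / 256))) ≤ (sL s x : ℝ) - sR x := by
  have eL : (sL s x : ℝ) = (x : ℝ) * s.A * 1073741824 + (x : ℝ) * x * s.BU * 4096 := by
    have e : sL s x = x * s.A * 1073741824 + x * x * s.BU * 4096 := rfl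
    rw [e]
    push_cast
    ring
  have eR : (sR x : ℝ) = (x : ℝ) * x * 4398046511104 := by
    have e : sR x = x * x * 4398046511104 := rfl
    rw [e]
    push_cast
    ring
  rw [eL, eR, h.A]
  have h1 := mul_le_mul_of_nonneg_left h.U (show (0 : ℝ) ≤ (x : ℝ) * x by positivity)
  nlinarith

/-- the norm -/
theorem norm_le (h₂ : SpecNTR) {t : Vt} {k1 k2 k3 : ℕ} (a1 : 1024 ≤ k1) (b1 : k1 ≤ 7168)
    (a2 : 1024 ≤ k2) (b2 : k2 ≤ 7168) (a3 : 1024 ≤ k3) (b3 : k3 ≤ 7168)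
    (h : nOk t k1 k2 k3 = true) :
    2 ^ 59 * ‖(((t.μ₁ : ℝ) / 2 ^ 20 : ℝ) : ℂ) * ee (((k1 : ℝ) - 4096) / 2048) +
      (((t.μ₂ : ℝ) / 2 ^ 20 : ℝ) : ℂ) * ee (((k2 : ℝ) - 4096) / 2048) +
      (((t.μ₃ : ℝ) / 2 ^ 20 : ℝ) : ℂ) * ee (((k3 : ℝ) - 4096) / 2048)‖ ≤ (t.N : ℝ) * 512 := by
  have gen : ∀ (m1 m2 m3 u1 v1 u2 v2 u3 v3 : ℕ) (r1 r2 r3 : ℝ),
      |((u1 : ℝ) - v1) - 2 ^ 30 * r1| ≤ 2 → |((u2 : ℝ) - v2) - 2 ^ 30 * r2| ≤ 2 →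
      |((u3 : ℝ) - v3) - 2 ^ 30 * r3| ≤ 2 →
      |2 ^ 30 * ((m1 : ℝ) * r1 + m2 * r2 + m3 * r3)| ≤ (vc m1 m2 m3 u1 v1 u2 v2 u3 v3 : ℝ) := by
    intro m1 m2 m3 u1 v1 u2 v2 u3 v3 r1 r2 r3 g1 g2 g3
    have e : vc m1 m2 m3 u1 v1 u2 v2 u3 v3 =
        dst (m1 * u1 + (m2 * u2 + m3 * u3)) (m1 * v1 + (m2 * v2 + m3 * v3)) +
          2 * (m1 + (m2 + m3)) := rfl
    rw [e]
    push_cast
    rw [dst_cast]
    push_cast
    have e2 : 2 ^ 30 * ((m1 : ℝ) * r1 + m2 * r2 + m3 * r3) =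
        (((m1 : ℝ) * u1 + (m2 * u2 + m3 * u3)) - (m1 * v1 + (m2 * v2 + m3 * v3))) -
        (m1 * (((u1 : ℝ) - v1) - 2 ^ 30 * r1) + m2 * (((u2 : ℝ) - v2) - 2 ^ 30 * r2) +
          m3 * (((u3 : ℝ) - v3) - 2 ^ 30 * r3)) := by ring
    rw [e2]
    refine (abs_sub _ _).trans ?_
    have n1 : |(m1 : ℝ) * (((u1 : ℝ) - v1) - 2 ^ 30 * r1)| ≤ (m1 : ℝ) * 2 := by
      rw [abs_mul, abs_of_nonneg (Nat.cast_nonneg m1)]
      exact mul_le_mul_of_nonneg_left g1 (Nat.cast_nonneg _)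
    have n2 : |(m2 : ℝ) * (((u2 : ℝ) - v2) - 2 ^ 30 * r2)| ≤ (m2 : ℝ) * 2 := by
      rw [abs_mul, abs_of_nonneg (Nat.cast_nonneg m2)]
      exact mul_le_mul_of_nonneg_left g2 (Nat.cast_nonneg _)
    have n3 : |(m3 : ℝ) * (((u3 : ℝ) - v3) - 2 ^ 30 * r3)| ≤ (m3 : ℝ) * 2 := by
      rw [abs_mul, abs_of_nonneg (Nat.cast_nonneg m3)]
      exact mul_le_mul_of_nonneg_left g3 (Nat.cast_nonneg _)
    have n4 := abs_add_le ((m1 : ℝ) * (((u1 : ℝ) - v1) - 2 ^ 30 * r1) +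
      m2 * (((u2 : ℝ) - v2) - 2 ^ 30 * r2)) (m3 * (((u3 : ℝ) - v3) - 2 ^ 30 * r3))
    have n5 := abs_add_le ((m1 : ℝ) * (((u1 : ℝ) - v1) - 2 ^ 30 * r1))
      (m2 * (((u2 : ℝ) - v2) - 2 ^ 30 * r2))
    linarith
  set a : ℕ := vc t.μ₁ t.μ₂ t.μ₃ (cp (dst k1 4096)) (cn (dst k1 4096)) (cp (dst k2 4096))
    (cn (dst k2 4096)) (cp (dst k3 4096)) (cn (dst k3 4096)) with ha
  set b : ℕ := vc t.μ₁ t.μ₂ t.μ₃ (cp (dst k1 5120)) (cn (dst k1 5120)) (cp (dst k2 5120))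
    (cn (dst k2 5120)) (cp (dst k3 5120)) (cn (dst k3 5120)) with hb
  have h' : a * a + b * b ≤ t.N * t.N := by
    have : Nat.ble (a * a + b * b) (t.N * t.N) = true := h
    rwa [Nat.ble_eq] at this
  have hr : (a : ℝ) * a + b * b ≤ (t.N : ℝ) * t.N := by exact_mod_cast h'
  obtain ⟨c1, s1⟩ := h₂ k1 a1 b1
  obtain ⟨c2, s2⟩ := h₂ k2 a2 b2
  obtain ⟨c3, s3⟩ := h₂ k3 a3 b3
  have ga := gen t.μ₁ t.μ₂ t.μ₃ _ _ _ _ _ _ _ _ _ c1 c2 c3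
  have gb := gen t.μ₁ t.μ₂ t.μ₃ _ _ _ _ _ _ _ _ _ s1 s2 s3
  rw [← ha] at ga
  rw [← hb] at gb
  set w : ℂ := (((t.μ₁ : ℝ) / 2 ^ 20 : ℝ) : ℂ) * ee (((k1 : ℝ) - 4096) / 2048) +
      (((t.μ₂ : ℝ) / 2 ^ 20 : ℝ) : ℂ) * ee (((k2 : ℝ) - 4096) / 2048) +
      (((t.μ₃ : ℝ) / 2 ^ 20 : ℝ) : ℂ) * ee (((k3 : ℝ) - 4096) / 2048) with hw
  have wre : 2 ^ 50 * w.re = 2 ^ 30 * ((t.μ₁ : ℝ) * Real.cos (π * (((k1 : ℝ) - 4096) / 2048)) +
      t.μ₂ * Real.cos (π * (((k2 : ℝ) - 4096) / 2048)) +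
      t.μ₃ * Real.cos (π * (((k3 : ℝ) - 4096) / 2048))) := by
    rw [hw, Complex.add_re, Complex.add_re, Complex.re_ofReal_mul, Complex.re_ofReal_mul,
      Complex.re_ofReal_mul, ee_re, ee_re, ee_re]
    ring
  have wim : 2 ^ 50 * w.im = 2 ^ 30 * ((t.μ₁ : ℝ) * Real.sin (π * (((k1 : ℝ) - 4096) / 2048)) +
      t.μ₂ * Real.sin (π * (((k2 : ℝ) - 4096) / 2048)) +
      t.μ₃ * Real.sin (π * (((k3 : ℝ) - 4096) / 2048))) := by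
    rw [hw, Complex.add_im, Complex.add_im, Complex.im_ofReal_mul, Complex.im_ofReal_mul,
      Complex.im_ofReal_mul, ee_im, ee_im, ee_im]
    ring
  rw [← wre] at ga
  rw [← wim] at gb
  have qa : (2 ^ 50 * w.re) ^ 2 ≤ (a : ℝ) ^ 2 := by
    rw [← sq_abs]
    exact pow_le_pow_left₀ (abs_nonneg _) ga 2
  have qb : (2 ^ 50 * w.im) ^ 2 ≤ (b : ℝ) ^ 2 := by
    rw [← sq_abs]
    exact pow_le_pow_left₀ (abs_nonneg _) gb 2
  have nsq : ‖w‖ ^ 2 = w.re ^ 2 + w.im ^ 2 := by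
    rw [← Complex.normSq_eq_norm_sq, Complex.normSq_apply]
    ring
  have fin : (2 ^ 50 * ‖w‖) ^ 2 ≤ (t.N : ℝ) ^ 2 := by
    have : (2 ^ 50 * ‖w‖) ^ 2 = (2 ^ 50 * w.re) ^ 2 + (2 ^ 50 * w.im) ^ 2 := by
      rw [mul_pow, nsq]
      ring
    rw [this]
    nlinarith
  have fin2 : 2 ^ 50 * ‖w‖ ≤ (t.N : ℝ) := abs_le_of_sq_le_sq' fin (Nat.cast_nonneg _) |>.2
  nlinarith

/-- the cosine of a difference of directions -/
theorem cos_dst (k l : ℕ) (u v : ℝ) (hu : u = ((k : ℝ) - 4096) / 2048)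
    (hv : v = ((l : ℝ) - 4096) / 2048) :
    Real.cos (π * u - π * v) = Real.cos (π * ((dst k l : ℝ) / 2048)) := by
  rw [dst_cast, hu, hv]
  rcases abs_cases ((k : ℝ) - l) with h | h
  · rw [h.1]
    congr 1
    ring
  · rw [h.1, ← Real.cos_neg]
    congr 1
    ring

end VRTM

open VRTM in
/-- VRT -/
theorem VRT (h₁ : SpecCOS) (h₂ : SpecNTR) (h₃ : SpecLWB) (h₄ : SpecLUB) (h₅ : SpecLN2) :
    SpecVRT := by
  intro tab V x0 x1 y0 y1 x y sA sB sC k1 k2 k3 m1 m3 t hx hy gA gB gC a1 b1 a2 b2 a3 b3 hd1 hd2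
    hd3 h
  obtain ⟨z, hz⟩ : ∃ z : ℕ, z = 512 - (x + y) := ⟨_, rfl⟩
  have hzr : (2 : ℝ) - (x : ℝ) / 256 - (y : ℝ) / 256 = (z : ℝ) / 256 := by
    rw [hz, Nat.cast_sub (by omega)]
    push_cast
    ring
  set A : Sec := sec tab sA with hA
  set B : Sec := sec tab sB with hB
  set C : Sec := sec tab sC with hC
  set q1 : ℕ := z * C.g₂ + x * A.g₁ with hq1
  set q2 : ℕ := x * A.g₂ + y * B.g₁ with hq2
  set q3 : ℕ := y * B.g₂ + z * C.g₁ with hq3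
  have h' : ((nOk t k1 k2 k3 && (Nat.ble m1 q1 && Nat.ble m3 q3)) &&
      ((tOk q1 t.μ₁ (dst (4096 - 8 * x) k1) && (tOk q2 t.μ₂ (dst 4096 k2) &&
        tOk q3 t.μ₃ (dst (4096 + 8 * y) k3))) &&
      Nat.ble ((tL q1 t.μ₁ (dst (4096 - 8 * x) k1) + (tL q2 t.μ₂ (dst 4096 k2) +
        tL q3 t.μ₃ (dst (4096 + 8 * y) k3))) + ((sL A x + (sL B y + sL C z)) + t.N * 512))
        ((tR q1 t.μ₁ + (tR q2 t.μ₂ + tR q3 t.μ₃)) + ((sR x + (sR y + sR z)) + V * 536870912))))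
      = true := by
    rw [hq1, hq3, hq2, hz]
    exact h
  simp only [Bool.and_eq_true, Nat.ble_eq] at h'
  obtain ⟨⟨hn, hm1, hm3⟩, ⟨t1, t2, t3⟩, hin⟩ := h'
  have e1 : (cellR tab x0 x1 y0 y1 sA sB sC k1 k2 k3).q₁ ((x : ℝ) / 256) ((y : ℝ) / 256) =
      (q1 : ℝ) / 2 ^ 29 := by
    show ((2 - (x : ℝ) / 256 - (y : ℝ) / 256) * (ptS tab sC).g₂ + (x : ℝ) / 256 * (ptS tab sA).g₁) / 2
      = (q1 : ℝ) / 2 ^ 29
    rw [hzr, gA.g₁, gC.g₂, hq1]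
    push_cast
    ring
  have e2 : (cellR tab x0 x1 y0 y1 sA sB sC k1 k2 k3).q₂ ((x : ℝ) / 256) ((y : ℝ) / 256) =
      (q2 : ℝ) / 2 ^ 29 := by
    show ((x : ℝ) / 256 * (ptS tab sA).g₂ + (y : ℝ) / 256 * (ptS tab sB).g₁) / 2
      = (q2 : ℝ) / 2 ^ 29
    rw [gA.g₂, gB.g₁, hq2]
    push_cast
    ring
  have e3 : (cellR tab x0 x1 y0 y1 sA sB sC k1 k2 k3).q₃ ((x : ℝ) / 256) ((y : ℝ) / 256) =
      (q3 : ℝ) / 2 ^ 29 := by
    show ((y : ℝ) / 256 * (ptS tab sB).g₂ + (2 - (x : ℝ) / 256 - (y : ℝ) / 256) * (ptS tab sC).g₁) / 2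
      = (q3 : ℝ) / 2 ^ 29
    rw [hzr, gB.g₂, gC.g₁, hq3]
    push_cast
    ring
  refine ⟨?_, ?_, ?_, ?_⟩
  · have c1 : dot (ee (-((x : ℝ) / 256))) (ee (((k1 : ℝ) - 4096) / 2048)) =
        Real.cos (π * ((dst (4096 - 8 * x) k1 : ℝ) / 2048)) := by
      rw [dot_ee]
      refine cos_dst _ _ _ _ ?_ rfl
      rw [Nat.cast_sub (by omega)]
      push_cast
      ring
    have c2 : dot 1 (ee (((k2 : ℝ) - 4096) / 2048)) =
        Real.cos (π * ((dst 4096 k2 : ℝ) / 2048)) := by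
      have e0 : (1 : ℂ) = ee 0 := by
        unfold ee
        simp
      rw [e0, dot_ee]
      refine cos_dst _ _ _ _ ?_ rfl
      norm_num
    have c3 : dot (ee ((y : ℝ) / 256)) (ee (((k3 : ℝ) - 4096) / 2048)) =
        Real.cos (π * ((dst (4096 + 8 * y) k3 : ℝ) / 2048)) := by
      rw [dot_ee]
      refine cos_dst _ _ _ _ ?_ rfl
      push_cast
      ring
    obtain ⟨p1, T1⟩ := tip_le h₁ h₃ h₄ h₅ hd1 t1 c1
    obtain ⟨p2, T2⟩ := tip_le h₁ h₃ h₄ h₅ hd2 t2 c2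
    obtain ⟨p3, T3⟩ := tip_le h₁ h₃ h₄ h₅ hd3 t3 c3
    refine ⟨(t.μ₁ : ℝ) / 2 ^ 20, (t.μ₂ : ℝ) / 2 ^ 20, (t.μ₃ : ℝ) / 2 ^ 20, p1, p2, p3, ?_⟩
    unfold Cell.base
    rw [e1, e2, e3]
    show (x : ℝ) / 256 / 2 * ((ptS tab sA).A₀ + (ptS tab sA).A₁ * ((x : ℝ) / 256)) +
          (y : ℝ) / 256 / 2 * ((ptS tab sB).A₀ + (ptS tab sB).A₁ * ((y : ℝ) / 256)) +
          (2 - (x : ℝ) / 256 - (y : ℝ) / 256) / 2 *
            ((ptS tab sC).A₀ + (ptS tab sC).A₁ * (2 - (x : ℝ) / 256 - (y : ℝ) / 256)) -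
          (q1 : ℝ) / 2 ^ 29 *
            Real.log (dot (ee (-((x : ℝ) / 256))) (ee (((k1 : ℝ) - 4096) / 2048))) -
          (q2 : ℝ) / 2 ^ 29 * Real.log (dot 1 (ee (((k2 : ℝ) - 4096) / 2048))) -
          (q3 : ℝ) / 2 ^ 29 * Real.log (dot (ee ((y : ℝ) / 256)) (ee (((k3 : ℝ) - 4096) / 2048))) +
        ((q1 : ℝ) / 2 ^ 29 * (Real.log ((q1 : ℝ) / 2 ^ 29 / ((t.μ₁ : ℝ) / 2 ^ 20)) - 1) +
          (t.μ₁ : ℝ) / 2 ^ 20) +
        ((q2 : ℝ) / 2 ^ 29 * (Real.log ((q2 : ℝ) / 2 ^ 29 / ((t.μ₂ : ℝ) / 2 ^ 20)) - 1) +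
          (t.μ₂ : ℝ) / 2 ^ 20) +
        ((q3 : ℝ) / 2 ^ 29 * (Real.log ((q3 : ℝ) / 2 ^ 29 / ((t.μ₃ : ℝ) / 2 ^ 20)) - 1) +
          (t.μ₃ : ℝ) / 2 ^ 20) +
        ‖(((t.μ₁ : ℝ) / 2 ^ 20 : ℝ) : ℂ) * ee (((k1 : ℝ) - 4096) / 2048) +
          (((t.μ₂ : ℝ) / 2 ^ 20 : ℝ) : ℂ) * ee (((k2 : ℝ) - 4096) / 2048) +
          (((t.μ₃ : ℝ) / 2 ^ 20 : ℝ) : ℂ) * ee (((k3 : ℝ) - 4096) / 2048)‖ ≤ (V : ℝ) / 2 ^ 30
    rw [hzr]
    have S1 := sec_le gA x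
    have S2 := sec_le gB y
    have S3 := sec_le gC z
    have NN := norm_le h₂ a1 b1 a2 b2 a3 b3 hn
    have hinr : ((tL q1 t.μ₁ (dst (4096 - 8 * x) k1) : ℝ) + ((tL q2 t.μ₂ (dst 4096 k2) : ℝ) +
        (tL q3 t.μ₃ (dst (4096 + 8 * y) k3) : ℝ))) + (((sL A x : ℝ) + ((sL B y : ℝ) + (sL C z : ℝ))) +
          (t.N : ℝ) * 512) ≤
        ((tR q1 t.μ₁ : ℝ) + ((tR q2 t.μ₂ : ℝ) + (tR q3 t.μ₃ : ℝ))) +
          (((sR x : ℝ) + ((sR y : ℝ) + (sR z : ℝ))) + (V : ℝ) * 536870912) := by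
      exact_mod_cast hin
    have hV : (V : ℝ) / 2 ^ 30 = (V : ℝ) * 536870912 / 2 ^ 59 := by
      norm_num
      ring
    rw [hV, le_div_iff₀ (by norm_num)]
    linarith
  · rw [e1]
    have : (m1 : ℝ) ≤ q1 := by exact_mod_cast hm1
    exact div_le_div_of_nonneg_right this (by norm_num)
  · rw [e2]
    positivity
  · rw [e3]
    have : (m3 : ℝ) ≤ q3 := by exact_mod_cast hm3
    exact div_le_div_of_nonneg_right this (by norm_num)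

end Pool.Agent.Lib.MP250511.ST.Chk
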