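import Pool.Agent.Lib.MP_250511_an.ST.Spec4

/-!
Problem MP_250511_an, Q2: module VTI, the dual bound in integers.
-/

set_option autoImplicit false

namespace Pool.Agent.Lib.MP250511.ST.Chk

open Finset

namespace VTIM

/-- the signed dual matrix -/
noncomputable def sw (w : ℕ → ℕ → ℕ) (j l : ℕ) : ℝ :=
  if j ≤ l then (w j l : ℝ) / 2 ^ 20 else -((w j l : ℝ) / 2 ^ 20)

lemma sw_abs (w : ℕ → ℕ → ℕ) (j l : ℕ) : |sw w j l| = (w j l : ℝ) / 2 ^ 20 := by
  unfold sw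
  split
  · exact abs_of_nonneg (by positivity)
  · rw [abs_neg]
    exact abs_of_nonneg (by positivity)

lemma sum_split (f g : ℕ → ℝ) (n l : ℕ) (hl : l ≤ n) :
    ∑ j ∈ range n, (if j < l then f j else g j) =
      ∑ j ∈ range l, f j + ∑ i ∈ range (n - l), g (l + i) := by
  have e : n = l + (n - l) := by omega
  conv_lhs => rw [e]
  rw [sum_range_add]
  congr 1
  · refine sum_congr rfl fun j hj => ?_
    rw [mem_range] at hj
    rw [if_pos hj]
  · refine sum_congr rfl fun i _ => ?_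
    rw [if_neg (by omega)]

lemma sw_col (n : ℕ) (w : ℕ → ℕ → ℕ) (h : wOk n w = true) (l : ℕ) (hl : l < n + 1) :
    ∑ j ∈ range (n + 2), sw w j l = 0 := by
  unfold wOk at h
  rw [Bool.and_eq_true, allTo_iff] at h
  have h1 := (beq_iff _ _).mp (h.1 l hl)
  rw [sumTo_eq, sumTo_eq] at h1
  have e1 : ∀ j, sw w j l = if j < l + 1 then (w j l : ℝ) / 2 ^ 20 else -((w j l : ℝ) / 2 ^ 20) := by
    intro j
    unfold sw
    simp only [Nat.lt_succ_iff]
  simp only [e1]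
  rw [sum_split _ _ _ _ (by omega), sum_neg_distrib, ← sum_div, ← sum_div]
  have h2 : ((∑ i ∈ range (Nat.succ l), w i l : ℕ) : ℝ)
      = ((∑ i ∈ range (Nat.sub (Nat.succ n) l), w (Nat.add (Nat.succ l) i) l : ℕ) : ℝ) := by
    rw [h1]
  push_cast at h2
  have e2 : n + 2 - (l + 1) = Nat.sub (Nat.succ n) l := by
    have : n + 2 - (l + 1) = n + 1 - l := by omega
    exact this
  rw [e2]
  have h3 : ∑ i ∈ range (l + 1), (w i l : ℝ)
    = ∑ i ∈ range (Nat.sub (Nat.succ n) l), (w (l + 1 + i) l : ℝ) := h2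
  rw [h3]
  ring

lemma sw_row (n : ℕ) (w : ℕ → ℕ → ℕ) (h : wOk n w = true) (j : ℕ) (hj : j < n) :
    ∑ l ∈ range (n + 1), sw w (j + 1) l = 0 := by
  unfold wOk at h
  rw [Bool.and_eq_true, Bool.and_eq_true, allTo_iff, allTo_iff] at h
  have h1 := (beq_iff _ _).mp (h.2.1 j hj)
  rw [sumTo_eq, sumTo_eq] at h1
  have e1 : ∀ l, sw w (j + 1) l
      = if l < j + 1 then -((w (j + 1) l : ℝ) / 2 ^ 20) else (w (j + 1) l : ℝ) / 2 ^ 20 := by
    intro l
    unfold sw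
    by_cases hc : l < j + 1
    · rw [if_pos hc, if_neg (by omega)]
    · rw [if_neg hc, if_pos (by omega)]
  simp only [e1]
  rw [sum_split _ _ _ _ (by omega), sum_neg_distrib, ← sum_div, ← sum_div]
  have h2 : ((∑ i ∈ range (Nat.succ j), w (Nat.succ j) i : ℕ) : ℝ)
      = ((∑ i ∈ range (Nat.sub n j), w (Nat.succ j) (Nat.add (Nat.succ j) i) : ℕ) : ℝ) := by
    rw [h1]
  push_cast at h2
  have e2 : n + 1 - (j + 1) = Nat.sub n j := by
    have : n + 1 - (j + 1) = n - j := by omega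
    exact this
  rw [e2]
  have h3 : ∑ i ∈ range (j + 1), (w (j + 1) i : ℝ)
    = ∑ i ∈ range (Nat.sub n j), (w (j + 1) (j + 1 + i) : ℝ) := h2
  rw [h3]
  ring

lemma w_pos (n : ℕ) (w : ℕ → ℕ → ℕ) (h : wOk n w = true) (j l : ℕ) (hj : j < n + 2)
    (hl : l < n + 1) : 1 ≤ w j l := by
  unfold wOk at h
  rw [Bool.and_eq_true, Bool.and_eq_true, allTo_iff, allTo_iff, allTo_iff] at h
  have h1 := h.2.2 j hj
  rw [allTo_iff] at h1
  exact Nat.le_of_ble_eq_true (h1 l hl)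

lemma ml_cast (m : ℕ) : ((ml m : ℕ) : ℝ) = m * ((le m : ℝ) + 16) := by
  have : ml m = m * (le m + 16) := rfl
  rw [this]
  push_cast
  ring

lemma ml_ge (hLEE : SpecLEE) (m : ℕ) (h1 : 1 ≤ m) (h2 : m ≤ 2048) :
    (m : ℝ) * (2 ^ 34 + 2 ^ 30 * Real.log m) ≤ ((ml m : ℕ) : ℝ) := by
  rw [ml_cast]
  exact mul_le_mul_of_nonneg_left (hLEE m h1 h2).2 (Nat.cast_nonneg m)

/-- one term of the certificate -/
lemma term (hLEE : SpecLEE) (hLWB : SpecLWB) (q g w s : ℕ) (hq : q ≤ 2048) (hg : g ≤ 2048)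
    (hw : 1 ≤ w) (hs : s ≤ 20) :
    2 ^ 51 * ((q : ℝ) / 1024 * ((g : ℝ) / 2048) *
      (Real.log (2 * ((q : ℝ) / 1024 * ((g : ℝ) / 2048)) / ((w : ℝ) / 2 ^ 20)) - 1)) +
      (g : ℝ) * ((q : ℝ) * (lw w s : ℝ)) + 18253611008 * ((q : ℝ) * g) ≤
    (g : ℝ) * ((ml q : ℕ) : ℝ) + (q : ℝ) * ((ml g : ℕ) : ℝ) := by
  rcases Nat.eq_zero_or_pos q with h0 | h0
  · subst h0
    rw [ml_cast]
    simp
  rcases Nat.eq_zero_or_pos g with h1 | h1
  · subst h1
    rw [ml_cast 0]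
    simp
  have hqp : (0 : ℝ) < q := by exact_mod_cast h0
  have hgp : (0 : ℝ) < g := by exact_mod_cast h1
  have hwp : (0 : ℝ) < w := by exact_mod_cast hw
  have e1 : 2 * ((q : ℝ) / 1024 * ((g : ℝ) / 2048)) / ((w : ℝ) / 2 ^ 20) = q * g / w := by
    field_simp
    norm_num
  have e2 : Real.log ((q : ℝ) * g / w) = Real.log q + Real.log g - Real.log w := by
    rw [Real.log_div (by positivity) hwp.ne', Real.log_mul hqp.ne' hgp.ne']
  rw [e1, e2]
  have a1 := mul_le_mul_of_nonneg_left (ml_ge hLEE q h0 hq) hgp.le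
  have a2 := mul_le_mul_of_nonneg_left (ml_ge hLEE g h1 hg) hqp.le
  have a3 := mul_le_mul_of_nonneg_left (hLWB w s hw hs) (mul_pos hgp hqp).le
  have e3 : 2 ^ 51 * ((q : ℝ) / 1024 * ((g : ℝ) / 2048) *
      (Real.log q + Real.log g - Real.log w - 1)) =
      (q : ℝ) * g * (2 ^ 30 * (Real.log q + Real.log g - Real.log w - 1)) := by
    ring
  rw [e3]
  nlinarith

end VTIM

open VTIM in
theorem VTI (hLEE : SpecLEE) (hLWB : SpecLWB) (hCEW : SpecCEW) : SpecVTI := by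
  intro n q x g a hg ha hq hx hw X B hX
  set w : ℕ → ℕ → ℕ := fun j l => Nat.mod (x j l) 16777216 with hwdef
  have hq' : ∑ j ∈ range (n + 2), q j = 1024 := by rw [← sumTo_eq]; exact hq
  have hqj : ∀ j < n + 2, q j ≤ 2048 := by
    intro j hj
    have : q j ≤ ∑ j ∈ range (n + 2), q j :=
      single_le_sum (f := q) (fun _ _ => Nat.zero_le _) (mem_range.mpr hj)
    omega
  have hsh : ∀ j l, Nat.shiftRight (x j l) 24 ≤ 20 := by
    intro j l
    have h1 := hx j l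
    have e : Nat.shiftRight (x j l) 24 = x j l / 2 ^ 24 := Nat.shiftRight_eq_div_pow _ 24
    rw [e]
    have : x j l / 2 ^ 24 < 16 := by
      rw [Nat.div_lt_iff_lt_mul (by positivity)]
      exact h1
    omega
  -- the certificate
  have hc := hCEW n a (fun j => (q (j : ℕ) : ℝ) / 1024)
    (fun j l => sw w (j : ℕ) (l : ℕ))
    (fun l => by rw [ha l]; positivity) (fun j => by positivity)
    (fun j l h => by
      have h1 : (1 : ℝ) ≤ (w j l : ℝ) := by exact_mod_cast w_pos n w hw j l j.2 l.2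
      unfold sw
      rw [if_pos h]
      positivity)
    (fun j l h => by
      have h1 : (1 : ℝ) ≤ (w j l : ℝ) := by exact_mod_cast w_pos n w hw j l j.2 l.2
      unfold sw
      rw [if_neg (by omega), neg_lt_zero]
      positivity)
    (fun l => by
      rw [Fin.sum_univ_eq_sum_range (fun j => sw w j (l : ℕ)) (n + 2)]
      exact sw_col n w hw l l.2)
    (fun j h0 h1 => by
      obtain ⟨j, hj⟩ := j
      obtain ⟨m, rfl⟩ : ∃ m, j = m + 1 := by
        refine ⟨j - 1, ?_⟩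
        have : j ≠ 0 := fun h => h0 (by ext; simpa using h)
        omega
      have hm : m < n := by
        have : m + 1 ≠ n + 1 := fun h => h1 (by ext; simpa using h)
        omega
      rw [Fin.sum_univ_eq_sum_range (fun l => sw w (m + 1) l) (n + 1)]
      exact sw_row n w hw m hm) X B hX
  have e1 : ∑ j : Fin (n + 2), ∑ l : Fin (n + 1), (q (j : ℕ) : ℝ) / 1024 * a l *
      (Real.log (2 * ((q (j : ℕ) : ℝ) / 1024 * a l) / |sw w (j : ℕ) (l : ℕ)|) - 1) =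
      ∑ j ∈ range (n + 2), ∑ l ∈ range (n + 1), (q j : ℝ) / 1024 * ((g l : ℝ) / 2048) *
      (Real.log (2 * ((q j : ℝ) / 1024 * ((g l : ℝ) / 2048)) / ((w j l : ℝ) / 2 ^ 20)) - 1) := by
    rw [← Fin.sum_univ_eq_sum_range (fun j => ∑ l ∈ range (n + 1), (q j : ℝ) / 1024 *
      ((g l : ℝ) / 2048) * (Real.log (2 * ((q j : ℝ) / 1024 * ((g l : ℝ) / 2048)) /
        ((w j l : ℝ) / 2 ^ 20)) - 1)) (n + 2)]
    refine sum_congr rfl fun j _ => ?_
    rw [← Fin.sum_univ_eq_sum_range (fun l => (q (j : ℕ) : ℝ) / 1024 *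
      ((g l : ℝ) / 2048) * (Real.log (2 * ((q (j : ℕ) : ℝ) / 1024 * ((g l : ℝ) / 2048)) /
        ((w (j : ℕ) l : ℝ) / 2 ^ 20)) - 1)) (n + 1)]
    refine sum_congr rfl fun l _ => ?_
    rw [ha l, sw_abs]
  have e2 : ∑ l : Fin (n + 1), (sw w ((0 : Fin (n + 2)) : ℕ) (l : ℕ)
      - sw w ((Fin.last (n + 1) : Fin (n + 2)) : ℕ) (l : ℕ)) = ((ws n x : ℕ) : ℝ) / 2 ^ 20 := by
    have h1 : ws n x = ∑ l ∈ range (n + 1), (w 0 l + w (n + 1) l) := by
      unfold ws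
      rw [sumTo_eq]
      rfl
    rw [h1]
    push_cast
    rw [sum_div, ← Fin.sum_univ_eq_sum_range (fun l => ((w 0 l : ℝ) + (w (n + 1) l : ℝ)) / 2 ^ 20)
      (n + 1)]
    refine sum_congr rfl fun l _ => ?_
    unfold sw
    have h2 : ((0 : Fin (n + 2)) : ℕ) = 0 := rfl
    rw [h2, if_pos (Nat.zero_le _), if_neg (by have := l.2; omega)]
    ring
  rw [e1, e2] at hc
  -- the terms
  have ht : ∑ j ∈ range (n + 2), ∑ l ∈ range (n + 1), (2 ^ 51 * ((q j : ℝ) / 1024 *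
      ((g l : ℝ) / 2048) * (Real.log (2 * ((q j : ℝ) / 1024 * ((g l : ℝ) / 2048)) /
        ((w j l : ℝ) / 2 ^ 20)) - 1)) +
      (g l : ℝ) * ((q j : ℝ) * (lw (w j l) (Nat.shiftRight (x j l) 24) : ℝ)) +
        18253611008 * ((q j : ℝ) * g l)) ≤
      ∑ j ∈ range (n + 2), ∑ l ∈ range (n + 1),
        ((g l : ℝ) * ((ml (q j) : ℕ) : ℝ) + (q j : ℝ) * ((ml (g l) : ℕ) : ℝ)) := by
    refine sum_le_sum fun j hj => sum_le_sum fun l hl => ?_
    rw [mem_range] at hj hl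
    exact term hLEE hLWB (q j) (g l) (w j l) _ (hqj j hj) (hg l) (w_pos n w hw j l hj hl)
      (hsh j l)
  simp only [sum_add_distrib] at ht
  have hqr : ∑ j ∈ range (n + 2), (q j : ℝ) = 1024 := by exact_mod_cast hq'
  -- the five double sums
  have s1 : ∑ j ∈ range (n + 2), ∑ l ∈ range (n + 1), (2 ^ 51 * ((q j : ℝ) / 1024 *
      ((g l : ℝ) / 2048) * (Real.log (2 * ((q j : ℝ) / 1024 * ((g l : ℝ) / 2048)) /
        ((w j l : ℝ) / 2 ^ 20)) - 1))) = 2 ^ 51 * ∑ j ∈ range (n + 2), ∑ l ∈ range (n + 1),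
        (q j : ℝ) / 1024 * ((g l : ℝ) / 2048) *
      (Real.log (2 * ((q j : ℝ) / 1024 * ((g l : ℝ) / 2048)) / ((w j l : ℝ) / 2 ^ 20)) - 1) := by
    rw [mul_sum]
    exact sum_congr rfl fun j _ => by rw [mul_sum]
  have s2 : ∑ j ∈ range (n + 2), ∑ l ∈ range (n + 1),
      (g l : ℝ) * ((q j : ℝ) * (lw (w j l) (Nat.shiftRight (x j l) 24) : ℝ)) =
      ((∑ l ∈ range (n + 1), g l * fl n q x l : ℕ) : ℝ) := by
    rw [sum_comm]
    push_cast
    refine sum_congr rfl fun l _ => ?_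
    rw [← mul_sum]
    congr 1
    have h1 : fl n q x l = ∑ j ∈ range (n + 2), q j * lw (w j l) (Nat.shiftRight (x j l) 24) := by
      unfold fl
      rw [sumTo_eq]
      rfl
    rw [h1]
    push_cast
    rfl
  have s3 : ∑ j ∈ range (n + 2), ∑ l ∈ range (n + 1), (18253611008 : ℝ) * ((q j : ℝ) * g l) =
      18691697672192 * ((∑ l ∈ range (n + 1), g l : ℕ) : ℝ) := by
    have h1 : ∑ j ∈ range (n + 2), ∑ l ∈ range (n + 1), (18253611008 : ℝ) * ((q j : ℝ) * g l)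
        = 18253611008 * ((∑ j ∈ range (n + 2), (q j : ℝ)) * ∑ l ∈ range (n + 1), (g l : ℝ)) := by
      rw [sum_mul_sum, mul_sum]
      exact sum_congr rfl fun j _ => by rw [mul_sum]
    rw [h1, hqr]
    push_cast
    ring
  have s4 : ∑ j ∈ range (n + 2), ∑ l ∈ range (n + 1), (g l : ℝ) * ((ml (q j) : ℕ) : ℝ) =
      ((sumTo (n + 2) (fun j => ml (q j)) * ∑ l ∈ range (n + 1), g l : ℕ) : ℝ) := by
    rw [sumTo_eq]
    push_cast
    rw [sum_mul_sum]
    exact sum_congr rfl fun j _ => sum_congr rfl fun l _ => by rw [mul_comm]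
  have s5 : ∑ j ∈ range (n + 2), ∑ l ∈ range (n + 1), (q j : ℝ) * ((ml (g l) : ℕ) : ℝ) =
      1024 * ((∑ l ∈ range (n + 1), ml (g l) : ℕ) : ℝ) := by
    rw [← sum_mul_sum, hqr]
    push_cast
    rfl
  rw [s1, s2, s3, s4, s5] at ht
  have hc' := mul_le_mul_of_nonneg_left hc (by norm_num : (0 : ℝ) ≤ 2 ^ 51)
  rw [mul_add] at hc'
  have e5 : (2 : ℝ) ^ 51 * (((ws n x : ℕ) : ℝ) / 2 ^ 20) = 2 ^ 31 * ((ws n x : ℕ) : ℝ) := by
    ring
  rw [e5] at hc'
  linarith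

end Pool.Agent.Lib.MP250511.ST.Chk
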