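import Pool.Agent.Lib.MP_250511_an.ST.Spec2

/-!
Problem MP_250511_an, Q2: module VTX (helper19), separately convex functions.
-/

set_option autoImplicit false

namespace Pool.Agent.Lib.MP250511.ST

open Set

theorem specVTX : SpecVTX := by
  intro m lo hi F hlh hconv hvert
  have key : ∀ (S : Finset (Fin m)) (v : Fin m → ℝ), (∀ k, v k ∈ Icc (lo k) (hi k)) →
      (∀ k, k ∉ S → v k = lo k ∨ v k = hi k) → F v ≤ 0 := by
    intro S
    induction S using Finset.induction_on with
    | empty =>
      intro v _ h
      exact hvert v fun k => h k (Finset.notMem_empty k)
    | insert i S hi' ih =>
      intro v hv h
      have hc := hconv i v hv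
      have h1 := hc.le_max_of_mem_Icc (left_mem_Icc.2 (hlh i)) (right_mem_Icc.2 (hlh i)) (hv i)
      simp only [Function.update_eq_self] at h1
      refine h1.trans (max_le ?_ ?_)
      · refine ih _ (fun k => ?_) fun k hk => ?_
        · by_cases hki : k = i
          · subst hki
            rw [Function.update_self]
            exact left_mem_Icc.2 (hlh k)
          · rw [Function.update_of_ne hki]
            exact hv k
        · by_cases hki : k = i
          · subst hki
            rw [Function.update_self]
            exact Or.inl rfl
          · rw [Function.update_of_ne hki]
            exact h k (by simp [hki, hk])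
      · refine ih _ (fun k => ?_) fun k hk => ?_
        · by_cases hki : k = i
          · subst hki
            rw [Function.update_self]
            exact right_mem_Icc.2 (hlh k)
          · rw [Function.update_of_ne hki]
            exact hv k
        · by_cases hki : k = i
          · subst hki
            rw [Function.update_self]
            exact Or.inr rfl
          · rw [Function.update_of_ne hki]
            exact h k (by simp [hki, hk])
  intro v hv
  exact key Finset.univ v hv fun k hk => absurd (Finset.mem_univ k) hk

end Pool.Agent.Lib.MP250511.ST
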