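import Pool.Agent.Lib.MP_250511_an.ST.JOI
import Pool.Agent.Lib.MP_250511_an.ST.ARA
import Pool.Agent.Lib.MP_250511_an.ST.ASM
import Pool.Agent.Lib.MP_250511_an.ST.CEL
import Pool.Agent.Lib.MP_250511_an.ST.CER
import Pool.Agent.Lib.MP_250511_an.ST.CEW
import Pool.Agent.Lib.MP_250511_an.ST.CVX
import Pool.Agent.Lib.MP_250511_an.ST.DLC
import Pool.Agent.Lib.MP_250511_an.ST.DLM
import Pool.Agent.Lib.MP_250511_an.ST.DUB
import Pool.Agent.Lib.MP_250511_an.ST.EMB
import Pool.Agent.Lib.MP_250511_an.ST.EXT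
import Pool.Agent.Lib.MP_250511_an.ST.LCH
import Pool.Agent.Lib.MP_250511_an.ST.LEF
import Pool.Agent.Lib.MP_250511_an.ST.LNI
import Pool.Agent.Lib.MP_250511_an.ST.LNS
import Pool.Agent.Lib.MP_250511_an.ST.NEA
import Pool.Agent.Lib.MP_250511_an.ST.QRY
import Pool.Agent.Lib.MP_250511_an.ST.QUA
import Pool.Agent.Lib.MP_250511_an.ST.QUE
import Pool.Agent.Lib.MP_250511_an.ST.RAY
import Pool.Agent.Lib.MP_250511_an.ST.ROR
import Pool.Agent.Lib.MP_250511_an.ST.SCL
import Pool.Agent.Lib.MP_250511_an.ST.SEI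
import Pool.Agent.Lib.MP_250511_an.ST.SEL
import Pool.Agent.Lib.MP_250511_an.ST.SER
import Pool.Agent.Lib.MP_250511_an.ST.SLB
import Pool.Agent.Lib.MP_250511_an.ST.SLF
import Pool.Agent.Lib.MP_250511_an.ST.TAB
import Pool.Agent.Lib.MP_250511_an.ST.TCX
import Pool.Agent.Lib.MP_250511_an.ST.VTI
import Pool.Agent.Lib.MP_250511_an.ST.VTX
import Pool.Agent.Lib.MP_250511_an.ST.CHI
import Pool.Agent.Lib.MP_250511_an.ST.EMI
import Pool.Agent.Lib.MP_250511_an.ST.HPM
import Pool.Agent.Lib.MP_250511_an.ST.LFI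
import Pool.Agent.Lib.MP_250511_an.ST.QRI
import Pool.Agent.Lib.MP_250511_an.ST.SEG
import Pool.Agent.Lib.MP_250511_an.ST.TIP
import Pool.Agent.Lib.MP_250511_an.ST.TRG
import Pool.Agent.Lib.MP_250511_an.ST.END
import Pool.Agent.Lib.MP_250511_an.ST.LOG
import Pool.Agent.Lib.MP_250511_an.ST.NTR
import Pool.Agent.Lib.MP_250511_an.ST.RCH
import Pool.Agent.Lib.MP_250511_an.ST.SCG
import Pool.Agent.Lib.MP_250511_an.ST.VRT
import Pool.Agent.Lib.MP_250511_an.ST.RCI

/-!
Problem MP_250511_an, Q2: all modules plugged together (helper41).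
-/

set_option autoImplicit false

namespace Pool.Agent.Lib.MP250511.ST.Chk

open TABM

/-! ### Parts 1 to 3 -/

theorem slbF : SpecSLB := specSLB specSLF
theorem selF : SpecSEL := specSEL specSLF specNEA
theorem serF : SpecSER := specSER specSLF slbF specRAY specEXT
theorem seiF : SpecSEI := specSEI selF serF
theorem dubF : SpecDUB := specDUB specSLF slbF selF seiF specARA
theorem eqlF : SpecEQL := specEQL specEQA specEQB
theorem qfmF : SpecQFM := specQFM eqlF specINT
theorem lefF : SpecLEF := specLEF qfmF specTCX specVTX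
theorem quaF : SpecQUA := specQUA specQRY specLNS
theorem queF : SpecQUE := specQUE quaF
theorem celF : SpecCEL := specCEL specCVX
theorem asmF : SpecASM := specASM dubF specDLM specDLC specROR celF specSCL

/-! ### Part 4 -/

theorem ntrF : SpecNTR := specNTR specCOS
theorem trgF : SpecTRG := TRG ntrF
theorem hpmF : SpecHPM := specHPM trgF
theorem tipF : SpecTIP := TIP specCOS hpmF specLWB specLUB specLN2
theorem lniF : SpecLNI := LNI specCOS specLCH
theorem qriF : SpecQRI := QRI trgF hpmF lniF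
theorem vtiF : SpecVTI := VTI specLEE specLWB specCEW
theorem lfiF : SpecLFI := specLFI specLEE specLN2 vtiF lefF
theorem emiF : SpecEMI := specEMI specCOS specEMB
theorem chiF : SpecCHI := CHI tipF qriF lfiF emiF queF
theorem segF : SpecSEG := specSEG chiF

/-- one segment of a row from the checker -/
theorem seg (P : IPt) (al0 al1 a b : ℕ) (l : List (ℕ × T)) (u v : ℕ)
    (h : segOk P al0 al1 a b l u v = true) : Seg P al0 al1 a b u v := segF P al0 al1 a b l u v h

/-! ### Part 5 -/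

theorem scgF : SpecSCG := specSCG specLEE specLN2
theorem vrtF : SpecVRT := VRT specCOS ntrF specLWB specLUB specLN2
theorem rciF : SpecRCI := RCI scgF vrtF
theorem rchF : SpecRCH := RCH rciF vbaF
theorem endF : SpecEND := END rchF asmF

/-- the end: `exp (-V / 2³⁰) ≤ S₁` -/
theorem finish (tab : ℕ → IPt) (V : ℕ) (t : R)
    (hv : ∀ i : ℕ, i ≤ 14 → Valid (tab i).ptl ((17 + (i : ℝ)) / 32) ((18 + (i : ℝ)) / 32))
    (hr : rchk tab V t 0 256 0 256 = true) (hg : (tab 14).g₁ = (tab 14).g₂)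
    (hA : 1024 * ((tab 14).A + (tab 14).Bp) ≤ V + 1024 * (tab 14).Bn) :
    ENNReal.ofReal (Real.exp (-((V : ℝ) / 2 ^ 30))) ≤ S₁ := endF tab V t hv hr hg hA

end Pool.Agent.Lib.MP250511.ST.Chk
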