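import Pool.Agent.Lib.MP_250511_an.ST.Spec3

/-!
Problem MP_250511_an, row 319, module PTV: from the boxes to the potential.
-/

set_option autoImplicit false

namespace Pool.Agent.Lib.MP250511.ST

open Complex Metric Set MeasureTheory Filter Topology
open scoped Real ENNReal

namespace PTVM

lemma conj_pt (ρ θ : ℝ) : (starRingEnd ℂ) (pt ρ θ) = pt ρ (-θ) := by
  unfold pt
  rw [← Complex.exp_conj]
  congr 1
  simp

lemma norm_pt (ρ θ : ℝ) : ‖pt ρ θ‖ = Real.exp ρ := by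
  unfold pt
  rw [Complex.norm_exp]
  simp

lemma norm_conj_sub (z w : ℂ) : ‖(starRingEnd ℂ) z - w‖ = ‖z - (starRingEnd ℂ) w‖ := by
  rw [← Complex.norm_conj ((starRingEnd ℂ) z - w), map_sub, Complex.conj_conj]

lemma cfg_refl {W : Set ℂ} {cs : ℂ} {r α ρ₁ ρ₂ : ℝ} (h : Cfg W cs r α ρ₁ ρ₂) :
    Cfg {w | (starRingEnd ℂ) w ∈ W} ((starRingEnd ℂ) cs) r α ρ₂ ρ₁ where
  star := by
    intro w hw t ht
    show (starRingEnd ℂ) ((t : ℂ) * w) ∈ W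
    rw [map_mul, Complex.conj_ofReal]
    exact h.star _ hw t ht
  hit := by
    intro c
    obtain ⟨w, hw, hd⟩ := h.hit ((starRingEnd ℂ) c)
    refine ⟨(starRingEnd ℂ) w, ?_, ?_⟩
    · show (starRingEnd ℂ) ((starRingEnd ℂ) w) ∈ W
      rwa [Complex.conj_conj]
    · rwa [norm_conj_sub]
  r0 := h.r0
  r1 := h.r1
  cen := by
    rw [Complex.norm_conj]
    exact h.cen
  emp := by
    intro w hw
    have h1 := h.emp _ hw
    rwa [norm_conj_sub] at h1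
  al0 := h.al0
  al1 := h.al1
  m1 := by
    show (starRingEnd ℂ) (pt ρ₂ (-(π * (α / 2)))) ∈ W
    rw [conj_pt, neg_neg]
    exact h.m2
  m2 := by
    show (starRingEnd ℂ) (pt ρ₁ (π * (α / 2))) ∈ W
    rw [conj_pt]
    exact h.m1
  c1 := by
    rw [← norm_conj_sub, conj_pt, neg_neg]
    exact h.c2
  c2 := by
    rw [← norm_conj_sub, conj_pt]
    exact h.c1

lemma exp_le {W : Set ℂ} {cs : ℂ} {r α ρ₁ ρ₂ : ℝ} (h : Cfg W cs r α ρ₁ ρ₂) :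
    Real.exp ρ₁ ≤ 2 ∧ Real.exp ρ₂ ≤ 2 := by
  have key : ∀ z : ℂ, ‖z - cs‖ = r → ‖z‖ ≤ 2 := by
    intro z hz
    have h1 : ‖z‖ ≤ ‖z - cs‖ + ‖cs‖ := by
      simpa using norm_add_le (z - cs) cs
    have h2 := h.cen
    have h3 := h.r1
    linarith
  constructor
  · rw [← norm_pt ρ₁ (-(π * (α / 2)))]
    exact key _ h.c1
  · rw [← norm_pt ρ₂ (π * (α / 2))]
    exact key _ h.c2

lemma valid_of (hREF : SpecREF) (p : Ptl) (α₀ α₁ : ℝ)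
    (H : ∀ r₁ r₂ α : ℝ, 0 < r₁ → r₁ ≤ 2 → 0 < r₂ → r₂ ≤ 2 → α₀ ≤ α → α ≤ α₁ →
      ∃ b : Box, (Good b p [] ∧ b.Has r₁ r₂ α) ∨ (Good b p.flip [] ∧ b.Has r₂ r₁ α)) :
    Valid p α₀ α₁ := by
  intro W cs r α ρ₁ ρ₂ hc h0 h1
  obtain ⟨he1, he2⟩ := exp_le hc
  obtain ⟨b, ⟨hb, hh⟩ | ⟨hb, hh⟩⟩ :=
    H (Real.exp ρ₁) (Real.exp ρ₂) α (Real.exp_pos _) he1 (Real.exp_pos _) he2 h0 h1
  · obtain ⟨g1, g2, g3, g4, g5, g6⟩ := hh
    exact hb W cs r α ρ₁ ρ₂ hc g1 g2 g3 g4 g5 g6 [] List.Forall₂.nil List.Pairwise.nil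
      (fun u hu => absurd hu List.not_mem_nil)
  · obtain ⟨g1, g2, g3, g4, g5, g6⟩ := hh
    have h2 := hb _ _ r α ρ₂ ρ₁ (cfg_refl hc) g1 g2 g3 g4 g5 g6 [] List.Forall₂.nil
      List.Pairwise.nil (fun u hu => absurd hu List.not_mem_nil)
    have h3 := hREF W α _ h2
    have h4 : α / 2 * (p.flip.A₀ + p.flip.A₁ * α + p.flip.g₁ * ρ₂ + p.flip.g₂ * ρ₁) =
        α / 2 * (p.A₀ + p.A₁ * α + p.g₁ * ρ₁ + p.g₂ * ρ₂) := by
      simp only [Ptl.flip]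
      ring
    rwa [h4] at h3

lemma valid_flip (hREF : SpecREF) (p : Ptl) (α₀ α₁ : ℝ) (H : Valid p α₀ α₁) :
    Valid p.flip α₀ α₁ := by
  intro W cs r α ρ₁ ρ₂ hc h0 h1
  have h2 := H _ _ r α ρ₂ ρ₁ (cfg_refl hc) h0 h1
  have h3 := hREF W α _ h2
  have h4 : α / 2 * (p.A₀ + p.A₁ * α + p.g₁ * ρ₂ + p.g₂ * ρ₁) =
      α / 2 * (p.flip.A₀ + p.flip.A₁ * α + p.flip.g₁ * ρ₁ + p.flip.g₂ * ρ₂) := by
    simp only [Ptl.flip]
    ring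
  rwa [h4] at h3

end PTVM

open PTVM in
theorem specPTV (hREF : SpecREF) : SpecPTV := by
  intro p α₀ α₁ H
  have h1 := valid_of hREF p α₀ α₁ H
  exact ⟨h1, valid_flip hREF p α₀ α₁ h1⟩

end Pool.Agent.Lib.MP250511.ST
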