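import Pool.Agent.Lib.MP_250511_an.ST.Spec

/-! Module QFM: the dual form of the sector certificate. -/

set_option autoImplicit false

namespace Pool.Agent.Lib.MP250511.ST

open scoped Real

theorem specQFM (hEQL : SpecEQL) (hINT : SpecINT) : SpecQFM := by
  intro W θ n a ρ Q V ha hp hQ hV
  obtain ⟨X, B, c, hI, hc, hX⟩ := hEQL n a ρ ha
  obtain ⟨hB, hB1, hm⟩ := hINT n a X B ha hI hX
  refine ⟨n, a, B, fun j => if h : j < n + 2 then ρ ⟨j, h⟩ else 0, c, ha, rfl, ?_, hB, hB1, ?_, ?_⟩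
  · intro j hj
    have hj' : j < n + 2 := by omega
    have h1 := hp ⟨j, hj'⟩
    simp only [hj', dif_pos]
    exact h1
  · intro x hx hne
    obtain ⟨h, h1⟩ := hm x hx hne
    simp only [h, dif_pos]
    have h2 := hc ⟨cnt B x, h⟩
    linarith
  · have h1 : c = ∑ j, Q j * (ρ j + HH a B (X j)) := by
      have : ∑ j, Q j * (ρ j + HH a B (X j)) = ∑ j, Q j * c :=
        Finset.sum_congr rfl fun j _ => by rw [hc j]
      rw [this, ← Finset.sum_mul, hQ, one_mul]
    have h2 : c ≤ V := by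
      rw [h1]
      exact hV X B hI
    have h3 : 0 ≤ (∑ l, a l) / 2 := by
      have : 0 ≤ ∑ l, a l := Finset.sum_nonneg fun l _ => (ha l).le
      linarith
    exact mul_le_mul_of_nonneg_left h2 h3

end Pool.Agent.Lib.MP250511.ST
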