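import Pool.Agent.Lib.MP_250511_an.ST.Spec3

/-! Module REF: reflection of a sector in the real axis. -/

set_option autoImplicit false

namespace Pool.Agent.Lib.MP250511.ST

open scoped Real

namespace REFM

theorem conj_pt (ρ φ : ℝ) : (starRingEnd ℂ) (pt ρ φ) = pt ρ (-φ) := by
  unfold pt
  rw [← Complex.exp_conj]
  congr 1
  rw [map_add, map_mul, Complex.conj_ofReal, Complex.conj_ofReal, Complex.conj_I]
  push_cast
  ring

theorem sum_rev {n : ℕ} (g : Fin n → ℝ) : ∑ l, g (Fin.rev l) = ∑ l, g l :=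
  Equiv.sum_comp Fin.revPerm g

theorem psum_rev {n : ℕ} (a : Fin (n + 1) → ℝ) (j : ℕ) (hj : j ≤ n + 1) :
    psum (fun l => a (Fin.rev l)) j = ∑ l, a l - psum a (n + 1 - j) := by
  have h1 : psum (fun l => a (Fin.rev l)) j =
      ∑ l ∈ Finset.univ.filter (fun l : Fin (n + 1) => ¬ ((l : ℕ) < n + 1 - j)), a l := by
    unfold psum
    rw [Finset.sum_filter, Finset.sum_filter,
      ← sum_rev (fun l => if ¬ ((l : ℕ) < n + 1 - j) then a l else 0)]
    refine Finset.sum_congr rfl fun l _ => ?_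
    have hl := l.isLt
    have hiff : ((l : ℕ) < j) ↔ ¬ (((Fin.rev l : Fin (n + 1)) : ℕ) < n + 1 - j) := by
      rw [Fin.val_rev]
      omega
    by_cases h : (l : ℕ) < j
    · rw [if_pos h, if_pos (hiff.1 h)]
    · rw [if_neg h, if_neg (fun h' => h (hiff.2 h'))]
  rw [h1]
  unfold psum
  have h2 := Finset.sum_filter_add_sum_filter_not (Finset.univ : Finset (Fin (n + 1)))
    (fun l : Fin (n + 1) => (l : ℕ) < n + 1 - j) a
  linarith

theorem cnt_rev {n : ℕ} (B : Fin (n + 1) → ℝ) (X : ℝ) (hX : ∀ l, X ≠ -B (Fin.rev l)) :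
    cnt (fun l => -B (Fin.rev l)) X = n + 1 - cnt B (-X) := by
  have h1 : cnt (fun l => -B (Fin.rev l)) X =
      (Finset.univ.filter fun l : Fin (n + 1) => ¬ (-X < B l)).card := by
    unfold cnt
    refine Finset.card_bij (fun l _ => Fin.rev l) ?_ ?_ ?_
    · intro l hl
      rw [Finset.mem_filter] at hl ⊢
      refine ⟨Finset.mem_univ _, ?_⟩
      linarith [hl.2]
    · intro l _ m _ h
      exact Fin.rev_injective h
    · intro m hm
      rw [Finset.mem_filter] at hm
      refine ⟨Fin.rev m, ?_, Fin.rev_rev m⟩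
      rw [Finset.mem_filter]
      refine ⟨Finset.mem_univ _, ?_⟩
      show X < -B (Fin.rev (Fin.rev m))
      have h2 := hX (Fin.rev m)
      rw [Fin.rev_rev] at h2 ⊢
      exact lt_of_le_of_ne (by linarith [hm.2]) h2
  rw [h1]
  unfold cnt
  have h2 := Finset.card_filter_add_card_filter_not (s := (Finset.univ : Finset (Fin (n + 1))))
    (fun l => -X < B l)
  rw [Finset.card_univ, Fintype.card_fin] at h2
  omega

theorem cnt_le {n : ℕ} (B : Fin (n + 1) → ℝ) (X : ℝ) : cnt B X ≤ n + 1 := by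
  unfold cnt
  exact (Finset.card_le_univ _).trans (by rw [Fintype.card_fin])

theorem HH_rev {n : ℕ} (a B : Fin (n + 1) → ℝ) (X : ℝ) :
    HH (fun l => a (Fin.rev l)) (fun l => -B (Fin.rev l)) X = HH a B (-X) := by
  unfold HH
  rw [← sum_rev (fun l => a l * Real.log (2 * |-X - B l|))]
  refine Finset.sum_congr rfl fun l _ => ?_
  have e : |X - -B (Fin.rev l)| = |-X - B (Fin.rev l)| := by
    rw [← abs_neg]
    congr 1
    ring
  rw [e]

end REFM

open REFM in
theorem specREF : SpecREF := by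
  intro W α v h
  obtain ⟨n, a, B, ρ, c, ha, hs, hp, hB, hB1, hc, hv⟩ := h
  refine ⟨n, fun l => a (Fin.rev l), fun l => -B (Fin.rev l), fun j => ρ (n + 1 - j), c,
    fun l => ha _, ?_, ?_, ?_, ?_, ?_, hv⟩
  · rw [sum_rev, hs]
  · intro j hj
    have h1 := hp (n + 1 - j) (Nat.sub_le _ _)
    rw [Set.mem_ofPred_eq, conj_pt] at h1
    rw [psum_rev a j hj, hs]
    have e : -(π * (α / 2)) + π * (α - psum a (n + 1 - j)) =
        -(-(π * (α / 2)) + π * psum a (n + 1 - j)) := by ring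
    rw [e]
    exact h1
  · intro l m hlm
    have h1 := hB (Fin.rev_lt_rev.2 hlm)
    show -B (Fin.rev m) < -B (Fin.rev l)
    linarith
  · intro l
    show |-B (Fin.rev l)| < 1
    rw [abs_neg]
    exact hB1 _
  · intro X hX hne
    have hcn := cnt_le B (-X)
    rw [cnt_rev B X hne, HH_rev]
    show ρ (n + 1 - (n + 1 - cnt B (-X))) + _ ≤ c
    have e : n + 1 - (n + 1 - cnt B (-X)) = cnt B (-X) := by omega
    rw [e]
    refine hc (-X) (by rw [abs_neg]; exact hX) ?_
    intro l h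
    apply hne (Fin.rev l)
    show X = -B (Fin.rev (Fin.rev l))
    rw [Fin.rev_rev, ← h, neg_neg]

end Pool.Agent.Lib.MP250511.ST
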