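import Pool.Agent.Lib.MP_250511_an.ST.Spec4

/-!
Problem MP_250511_an, row 321, module ROW: rows of boxes and the potential.
-/

set_option autoImplicit false

namespace Pool.Agent.Lib.MP250511.ST.Chk

open Complex Metric Set MeasureTheory Filter Topology
open scoped Real ENNReal

theorem ROW (hPTV : SpecPTV) : SpecROW := by
  refine ⟨?_, ?_, ?_, ?_⟩
  · intro P al0 al1 r₁ r₂ α h1 h2 _ _ _ _
    have : ((0 : ℕ) : ℝ) / 256 = 0 := by norm_num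
    rw [this] at h2
    exact absurd h1 (not_lt.mpr h2)
  · intro P al0 al1 a b hR hS r₁ r₂ α h1 h2 h3 h4 h5 h6
    by_cases h : r₁ ≤ (a : ℝ) / 256
    · exact hR r₁ r₂ α h1 h h3 h4 h5 h6
    · have h0 : ((0 : ℕ) : ℝ) / 256 = 0 := by norm_num
      exact hS r₁ r₂ α (not_le.mp h) h2 (by rw [h0]; exact h3) (h4.trans h2) h5 h6
  · intro P al0 al1 a b u v w hS hT r₁ r₂ α h1 h2 h3 h4 h5 h6
    by_cases h : r₂ ≤ (v : ℝ) / 256
    · exact hS r₁ r₂ α h1 h2 h3 h h5 h6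
    · exact hT r₁ r₂ α h1 h2 (not_le.mp h) h4 h5 h6
  · intro P al0 al1 hg hR
    have h2 : ((512 : ℕ) : ℝ) / 256 = 2 := by norm_num
    refine (hPTV P.ptl _ _ ?_).1
    intro r₁ r₂ α h1 h1' h3 h3' h5 h6
    by_cases h : r₂ ≤ r₁
    · obtain ⟨b, hb, hb'⟩ := hR r₁ r₂ α h1 (by rw [h2]; exact h1') h3 h h5 h6
      exact ⟨b, Or.inl ⟨hb, hb'⟩⟩
    · obtain ⟨b, hb, hb'⟩ := hR r₂ r₁ α h3 (by rw [h2]; exact h3') h1 (le_of_lt (not_le.mp h)) h5 h6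
      have hf : P.ptl.flip = P.ptl := by
        unfold Ptl.flip IPt.ptl
        rw [hg]
      exact ⟨b, Or.inr ⟨by rw [hf]; exact hb, hb'⟩⟩

end Pool.Agent.Lib.MP250511.ST.Chk
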