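import Pool.Agent.Lib.MP_250511_an.ST.Spec3

/-! Module VBA: the potentials of BAS are valid. -/

set_option autoImplicit false

namespace Pool.Agent.Lib.MP250511.ST

open scoped Real

theorem specVBA (hBAS : SpecBAS) : SpecVBA := by
  intro q hq0 hq1 W cs r α ρ₁ ρ₂ hC _ _
  have h2 : pt ρ₂ (-(π * (α / 2)) + π * α) ∈ W := by
    have e : -(π * (α / 2)) + π * α = π * (α / 2) := by ring
    rw [e]
    exact hC.m2
  have h := hBAS W (-(π * (α / 2))) α ρ₁ ρ₂ q hC.al0 hq0 hq1 hC.m1 h2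
  have e : α / 2 * (q * ρ₁ + (1 - q) * ρ₂ +
      α * (Real.log 4 + q * Real.log q + (1 - q) * Real.log (1 - q))) =
      α / 2 * (0 + (Real.log 4 + q * Real.log q + (1 - q) * Real.log (1 - q)) * α + q * ρ₁ +
        (1 - q) * ρ₂) := by ring
  rw [e] at h
  exact h

end Pool.Agent.Lib.MP250511.ST
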