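import Pool.Agent.Lib.MP_250511_an.ST.Spec5
import Pool.Agent.Lib.MP_250511_an.ST.ROW
import Pool.Agent.Lib.MP_250511_an.ST.PTV
import Pool.Agent.Lib.MP_250511_an.ST.REF
import Pool.Agent.Lib.MP_250511_an.ST.VBA
import Pool.Agent.Lib.MP_250511_an.ST.BAS
import Pool.Agent.Lib.MP_250511_an.ST.QFM
import Pool.Agent.Lib.MP_250511_an.ST.EQL
import Pool.Agent.Lib.MP_250511_an.ST.EQA
import Pool.Agent.Lib.MP_250511_an.ST.EQB
import Pool.Agent.Lib.MP_250511_an.ST.INT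

/-!
Problem MP_250511_an, Q2: joining pieces of the certificate (helper41).
-/

set_option autoImplicit false

namespace Pool.Agent.Lib.MP250511.ST.Chk

open Real

/-! ### Validity of potentials -/

theorem Valid.join {p : Ptl} {a b c : ℝ} (h1 : Valid p a b) (h2 : Valid p b c) : Valid p a c := by
  intro W cs r α ρ₁ ρ₂ hc ha hb
  rcases le_total α b with h | h
  · exact h1 W cs r α ρ₁ ρ₂ hc ha h
  · exact h2 W cs r α ρ₁ ρ₂ hc h hb

theorem Valid.sub {p : Ptl} {a b a' b' : ℝ} (h : Valid p a b) (h1 : a ≤ a') (h2 : b' ≤ b) :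
    Valid p a' b' := by
  intro W cs r α ρ₁ ρ₂ hc ha hb
  exact h W cs r α ρ₁ ρ₂ hc (h1.trans ha) (hb.trans h2)

theorem Valid.mono {p p' : Ptl} {a b : ℝ} (h : Valid p a b) (ha : 0 ≤ a)
    (h0 : ∀ α, a ≤ α → α ≤ b → p.A₀ + p.A₁ * α ≤ p'.A₀ + p'.A₁ * α)
    (h1 : p.g₁ = p'.g₁) (h2 : p.g₂ = p'.g₂) : Valid p' a b := by
  intro W cs r α ρ₁ ρ₂ hc hl hu
  obtain ⟨n, A, B, ρ, c, k1, k2, k3, k4, k5, k6, k7⟩ := h W cs r α ρ₁ ρ₂ hc hl hu
  refine ⟨n, A, B, ρ, c, k1, k2, k3, k4, k5, k6, k7.trans ?_⟩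
  have h3 := h0 α hl hu
  rw [h1, h2]
  have h4 : 0 ≤ α / 2 := by linarith
  exact mul_le_mul_of_nonneg_left (by linarith) h4

/-- the unconditional part: ROW and VBA -/
theorem rowF : SpecROW := ROW (specPTV specREF)

theorem vbaF : SpecVBA := specVBA (specBAS (specQFM (specEQL specEQA specEQB) specINT))

/-- a trivial potential, for the unused entries of the table -/
def trv : IPt := ⟨0, 726818, 0, 524288, 524288⟩

theorem trv_valid : Valid trv.ptl 0 1 := by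
  refine Valid.mono (vbaF (1 / 2) (by norm_num) (by norm_num)) le_rfl ?_ ?_ ?_
  · intro α h1 h2
    have e1 : (1 : ℝ) - 1 / 2 = 1 / 2 := by norm_num
    have e2 : Real.log (1 / 2) = - Real.log 2 := by
      rw [one_div, Real.log_inv]
    have e3 : Real.log 4 = 2 * Real.log 2 := by
      rw [show (4 : ℝ) = 2 ^ 2 by norm_num, Real.log_pow]
      norm_num
    have h3 := Real.log_two_lt_d9
    simp only [trv, IPt.ptl]
    rw [e1, e2, e3]
    have h4 : Real.log 2 * α ≤ (726818 : ℝ) / 2 ^ 20 * α := by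
      apply mul_le_mul_of_nonneg_right _ h1
      norm_num
      linarith
    push_cast
    linarith
  · simp only [trv, IPt.ptl]
    norm_num
  · simp only [trv, IPt.ptl]
    norm_num

/-! ### Segments and rows -/

theorem Seg.join {P : IPt} {al0 al1 a b u v w : ℕ} (h1 : Seg P al0 al1 a b u v)
    (h2 : Seg P al0 al1 a b v w) : Seg P al0 al1 a b u w := rowF.2.2.1 P al0 al1 a b u v w h1 h2

theorem rows0 (P : IPt) (al0 al1 : ℕ) : Rows P al0 al1 0 := rowF.1 P al0 al1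

theorem Rows.step {P : IPt} {al0 al1 a b : ℕ} (h : Rows P al0 al1 a)
    (s : Seg P al0 al1 a b 0 b) : Rows P al0 al1 b := rowF.2.1 P al0 al1 a b h s

theorem Rows.valid {P : IPt} {al0 al1 : ℕ} (h : Rows P al0 al1 512) (hg : P.g₁ = P.g₂) :
    Valid P.ptl ((al0 : ℝ) / 1024) ((al1 : ℝ) / 1024) := rowF.2.2.2 P al0 al1 hg h

/-- the piece `[al0, al1] / 1024` is valid -/
def VP (P : IPt) (al0 al1 : ℕ) : Prop := Valid P.ptl ((al0 : ℝ) / 1024) ((al1 : ℝ) / 1024)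

theorem VP.join {P : IPt} {a b c : ℕ} (h1 : VP P a b) (h2 : VP P b c) : VP P a c :=
  Valid.join h1 h2

/-- cell `i` from the pieces -/
theorem VP.cell {P : IPt} (i : ℕ) (h : VP P (32 * (17 + i)) (32 * (18 + i))) :
    Valid P.ptl ((17 + (i : ℝ)) / 32) ((18 + (i : ℝ)) / 32) := by
  have h' : Valid P.ptl (((32 * (17 + i) : ℕ) : ℝ) / 1024) (((32 * (18 + i) : ℕ) : ℝ) / 1024) := h
  have e1 : ((32 * (17 + i) : ℕ) : ℝ) / 1024 = (17 + (i : ℝ)) / 32 := by
    push_cast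
    ring
  have e2 : ((32 * (18 + i) : ℕ) : ℝ) / 1024 = (18 + (i : ℝ)) / 32 := by
    push_cast
    ring
  rwa [e1, e2] at h'

theorem trv_cell (i : ℕ) (hi : i ≤ 14) :
    Valid trv.ptl ((17 + (i : ℝ)) / 32) ((18 + (i : ℝ)) / 32) := by
  have h1 : (i : ℝ) ≤ 14 := by exact_mod_cast hi
  have h0 : (0 : ℝ) ≤ i := Nat.cast_nonneg i
  refine Valid.sub trv_valid ?_ ?_
  · positivity
  · rw [div_le_one (by norm_num)]
    linarith

end Pool.Agent.Lib.MP250511.ST.Chk
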