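import Pool.Agent.Lib.MP_250511_an.ST.Spec4
import Pool.Agent.Lib.MP_250511_an.ST.LEF

/-!
Problem MP_250511_an, Q2, part 4.  Module LFI: the leaf check implies the leaf rule.
-/

set_option autoImplicit false

namespace Pool.Agent.Lib.MP250511.ST.Chk

open Complex Metric Set MeasureTheory Filter Topology
open scoped Real ENNReal

noncomputable section

namespace LFIM

/-- meaning of `vxs` -/
theorem vxs_sound (q F : ℕ → ℕ) (e : ℕ) : ∀ (S : List ISl) (k u A B : ℕ) (d t : ℕ → ℕ),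
    vxs q F e S k u A B = true → d 0 = u → d (S.length + 1) = e →
    (∀ (i : ℕ) (h : i < S.length),
      (d (i + 1) = (S[i]'h).lo ∧ t i = (S[i]'h).tl) ∨
      (d (i + 1) = (S[i]'h).hi ∧ t i = (S[i]'h).th)) →
    (∀ i ≤ S.length, d i ≤ d (i + 1)) ∧
    A + 1024 * (∑ i ∈ Finset.range (S.length + 1), ml (d (i + 1) - d i)) +
        2048 * (∑ i ∈ Finset.range S.length, q (k + (i + 1)) * t i) ≤
      B + ∑ i ∈ Finset.range (S.length + 1), (d (i + 1) - d i) * F (k + i) := by
  intro S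
  induction S with
  | nil =>
    intro k u A B d t h h0 h1 _
    have h' : (Nat.ble u e && Nat.ble (Nat.add A (Nat.mul 1024 (ml (Nat.sub e u))))
      (Nat.add B (Nat.mul (Nat.sub e u) (F k)))) = true := h
    rw [Bool.and_eq_true, Nat.ble_eq, Nat.ble_eq] at h'
    obtain ⟨h2, h3⟩ := h'
    have h4 : A + 1024 * ml (e - u) ≤ B + (e - u) * F k := h3
    have h1' : d 1 = e := h1
    refine ⟨?_, ?_⟩
    · intro i hi
      have : i = 0 := by simpa using hi
      subst this
      rw [h0, h1']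
      exact h2
    · simpa [h0, h1'] using h4
  | cons s S ih =>
    intro k u A B d t h h0 h1 h2
    have h' : ((Nat.ble u s.lo && vxs q F e S (Nat.succ k) s.lo
          (Nat.add A (Nat.add (Nat.mul 1024 (ml (Nat.sub s.lo u)))
            (Nat.mul 2048 (Nat.mul (q (Nat.succ k)) s.tl)))) (Nat.add B (Nat.mul (Nat.sub s.lo u) (F k)))) &&
        (Nat.ble u s.hi && vxs q F e S (Nat.succ k) s.hi
          (Nat.add A (Nat.add (Nat.mul 1024 (ml (Nat.sub s.hi u)))
            (Nat.mul 2048 (Nat.mul (q (Nat.succ k)) s.th))))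
              (Nat.add B (Nat.mul (Nat.sub s.hi u) (F k))))) = true := h
    rw [Bool.and_eq_true, Bool.and_eq_true, Bool.and_eq_true, Nat.ble_eq, Nat.ble_eq] at h'
    have key : ∀ (w τ : ℕ), u ≤ w → vxs q F e S (Nat.succ k) w
          (Nat.add A (Nat.add (Nat.mul 1024 (ml (Nat.sub w u)))
            (Nat.mul 2048 (Nat.mul (q (Nat.succ k)) τ)))) (Nat.add B (Nat.mul (Nat.sub w u) (F k))) = true →
        d 1 = w → t 0 = τ →
        (∀ i ≤ (s :: S).length, d i ≤ d (i + 1)) ∧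
        A + 1024 * (∑ i ∈ Finset.range ((s :: S).length + 1), ml (d (i + 1) - d i)) +
            2048 * (∑ i ∈ Finset.range (s :: S).length, q (k + (i + 1)) * t i) ≤
          B + ∑ i ∈ Finset.range ((s :: S).length + 1), (d (i + 1) - d i) * F (k + i) := by
      intro w τ hw hv hd ht
      have h3 := ih (Nat.succ k) w _ _ (fun i => d (i + 1)) (fun i => t (i + 1)) hv hd
        (by simpa using h1) (fun i hi => by
          have := h2 (i + 1) (by simpa using hi)
          simpa using this)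
      obtain ⟨h4, h5⟩ := h3
      refine ⟨?_, ?_⟩
      · intro i hi
        cases i with
        | zero => rw [h0, zero_add, hd]; exact hw
        | succ i => exact h4 i (by simpa using hi)
      · have f1 : ∑ i ∈ Finset.range (S.length + 1 + 1), ml (d (i + 1) - d i) =
            ∑ i ∈ Finset.range (S.length + 1), ml (d (i + 1 + 1) - d (i + 1)) + ml (w - u) := by
          rw [Finset.sum_range_succ' _ (S.length + 1), zero_add, h0, hd]
        have f2 : ∑ i ∈ Finset.range (S.length + 1), q (k + (i + 1)) * t i =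
            ∑ i ∈ Finset.range S.length, q (k + (i + 1 + 1)) * t (i + 1) + q (k + 1) * τ := by
          rw [Finset.sum_range_succ' _ S.length, zero_add, ht]
        have f3 : ∑ i ∈ Finset.range (S.length + 1 + 1), (d (i + 1) - d i) * F (k + i) =
            ∑ i ∈ Finset.range (S.length + 1), (d (i + 1 + 1) - d (i + 1)) * F (k + (i + 1)) +
              (w - u) * F k := by
          rw [Finset.sum_range_succ' _ (S.length + 1), zero_add, h0, hd, add_zero]
        have e1 : ∑ i ∈ Finset.range S.length, q (Nat.succ k + (i + 1)) * t (i + 1) =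
            ∑ i ∈ Finset.range S.length, q (k + (i + 1 + 1)) * t (i + 1) := by
          refine Finset.sum_congr rfl fun i _ => ?_
          rw [show Nat.succ k + (i + 1) = k + (i + 1 + 1) by omega]
        have e2 : ∑ i ∈ Finset.range (S.length + 1), (d (i + 1 + 1) - d (i + 1)) * F (Nat.succ k + i) =
            ∑ i ∈ Finset.range (S.length + 1), (d (i + 1 + 1) - d (i + 1)) * F (k + (i + 1)) := by
          refine Finset.sum_congr rfl fun i _ => ?_
          rw [show Nat.succ k + i = k + (i + 1) by omega]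
        have h6 : A + (1024 * ml (w - u) + 2048 * (q (k + 1) * τ)) +
            1024 * (∑ i ∈ Finset.range (S.length + 1), ml (d (i + 1 + 1) - d (i + 1))) +
              2048 * (∑ i ∈ Finset.range S.length, q (Nat.succ k + (i + 1)) * t (i + 1)) ≤
            B + (w - u) * F k + ∑ i ∈ Finset.range (S.length + 1),
              (d (i + 1 + 1) - d (i + 1)) * F (Nat.succ k + i) := h5
        rw [e1, e2] at h6
        rw [List.length_cons, f1, f2, f3]
        linarith [h6]
    rcases h2 0 (by simp) with ⟨h3, h4⟩ | ⟨h3, h4⟩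
    · exact key _ _ h'.1.1 h'.1.2 h3 h4
    · exact key _ _ h'.2.1 h'.2.2 h3 h4

theorem endOk_iff (g q a b : ℕ) (h : endOk g q a b = true) :
    1 ≤ b ∧ b ≤ 2048 ∧ a ≤ b ∧ (g ≤ 1024 * q ∨ 1 ≤ a) := by
  unfold endOk at h
  rw [Bool.and_eq_true, Bool.and_eq_true, Bool.and_eq_true, Nat.ble_eq, Nat.ble_eq, Nat.ble_eq,
    Bool.or_eq_true, Nat.ble_eq, Nat.ble_eq] at h
  exact ⟨h.1.1, h.1.2, h.2.1, h.2.2⟩

theorem nmul (a b : ℕ) : Nat.mul a b = a * b := rfl
theorem nadd (a b : ℕ) : Nat.add a b = a + b := rfl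
theorem nsub (a b : ℕ) : Nat.sub a b = a - b := rfl

theorem endL1 (g q b : ℕ) (h : g ≤ 1024 * q) :
    endL g q b = 2 * (1024 * q - g) * (le b + 16) := by
  have hg : Nat.ble g (Nat.mul 1024 q) = true := Nat.ble_eq.mpr h
  unfold endL
  rw [hg, cond_true, nmul (Nat.mul _ _) (Nat.add _ _), nmul 2 (Nat.sub _ _), nsub, nmul 1024 q, nadd]

theorem endR1 (g q a : ℕ) (h : g ≤ 1024 * q) :
    endR g q a = 2 * (1024 * q - g) * (17179869184 + 8 * LN2L) := by
  have hg : Nat.ble g (Nat.mul 1024 q) = true := Nat.ble_eq.mpr h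
  unfold endR
  rw [hg, cond_true, nmul (Nat.mul _ _) (Nat.add _ _), nmul 2 (Nat.sub _ _), nsub, nmul 1024 q, nadd,
    nmul 8 LN2L]

theorem ble_false (g m : ℕ) (h : m < g) : Nat.ble g m = false := by
  cases hx : Nat.ble g m with
  | false => rfl
  | true => exact absurd (Nat.ble_eq.mp hx) (Nat.not_le.mpr h)

theorem endL2 (g q b : ℕ) (h : 1024 * q < g) :
    endL g q b = 2 * (g - 1024 * q) * (17179869184 + 8 * LN2U) := by
  have hg : Nat.ble g (Nat.mul 1024 q) = false := ble_false _ _ h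
  unfold endL
  rw [hg, cond_false, nmul (Nat.mul _ _) (Nat.add _ _), nmul 2 (Nat.sub _ _), nsub, nmul 1024 q, nadd,
    nmul 8 LN2U]

theorem endR2 (g q a : ℕ) (h : 1024 * q < g) :
    endR g q a = 2 * (g - 1024 * q) * (le a) := by
  have hg : Nat.ble g (Nat.mul 1024 q) = false := ble_false _ _ h
  unfold endR
  rw [hg, cond_false, nmul (Nat.mul _ _) (le a), nmul 2 (Nat.sub _ _), nsub, nmul 1024 q]

theorem nshl (a b : ℕ) : Nat.shiftLeft a b = a * 2 ^ b := Nat.shiftLeft_eq a b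

theorem cL_eq (P : IPt) (e E w al : ℕ) : cL P e E w al =
    e + w * 2 ^ 31 + (E * (2 * al) + P.Bn * al * 2097152) := by
  unfold cL
  rw [nshl, nmul (Nat.mul P.Bn al) 2097152, nmul P.Bn al, nmul E, nmul 2 al, nadd (Nat.add _ _),
    nadd e, nadd (E * _)]

theorem cR_eq (P : IPt) (e F al : ℕ) : cR P e F al =
    e + (18691697672192 * (2 * al) + F * 35184372088832) +
      (P.A * 2147483648 + P.Bp * al * 2097152) := by
  unfold cR
  rw [nmul (Nat.mul P.Bp al) 2097152, nmul P.Bp al, nmul P.A, nmul F, nmul 18691697672192,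
    nmul 2 al, nadd (Nat.add _ _), nadd e, nadd (18691697672192 * _), nadd (P.A * _)]

/-- the ends -/
theorem end_sound (hLEE : SpecLEE) (hLN2 : SpecLN2) (g q a b : ℕ) (h : endOk g q a b = true) :
    ((q : ℝ) / 1024 - (g : ℝ) / 2 ^ 20) * Real.log ((b : ℝ) / 256) ≤
        ((endL g q b : ℝ) - (endR g q a : ℝ)) / 2 ^ 51 ∧
      ((g : ℝ) / 2 ^ 20 ≤ (q : ℝ) / 1024 ∨ (0 < (a : ℝ) / 256 ∧
        ((q : ℝ) / 1024 - (g : ℝ) / 2 ^ 20) * Real.log ((a : ℝ) / 256) ≤
        ((endL g q b : ℝ) - (endR g q a : ℝ)) / 2 ^ 51)) := by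
  obtain ⟨hb1, hb2, hab, hc⟩ := endOk_iff _ _ _ _ h
  obtain ⟨hl1, hl2⟩ := hLN2
  have h256 : Real.log 256 = 8 * Real.log 2 := by
    rw [show (256 : ℝ) = 2 ^ (8 : ℕ) by norm_num, Real.log_pow]; norm_num
  have lg : ∀ m : ℕ, 1 ≤ m → Real.log ((m : ℝ) / 256) = Real.log m - 8 * Real.log 2 := by
    intro m hm
    have : (m : ℝ) ≠ 0 := by exact_mod_cast (by omega : m ≠ 0)
    rw [Real.log_div this (by norm_num), h256]
  by_cases hg' : g ≤ 1024 * q
  · have hL := endL1 g q b hg'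
    have hR := endR1 g q a hg'
    have hgr : (g : ℝ) ≤ 1024 * (q : ℝ) := by exact_mod_cast hg'
    have hsub : ((1024 * q - g : ℕ) : ℝ) = 1024 * (q : ℝ) - g := by
      rw [Nat.cast_sub hg']; push_cast; ring
    have hE := (hLEE b hb1 hb2).2
    refine ⟨?_, Or.inl ?_⟩
    · rw [hL, hR, lg b hb1]
      push_cast
      rw [hsub]
      rw [le_div_iff₀ (by positivity)]
      have h3 : (2 : ℝ) ^ 30 * (Real.log b - 8 * Real.log 2) ≤
          (le b : ℝ) + 16 - 2 ^ 34 - 8 * (LN2L : ℝ) := by nlinarith [hE, hl1]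
      have h4 : (0 : ℝ) ≤ 2 * (1024 * (q : ℝ) - g) := by linarith
      have h5 := mul_le_mul_of_nonneg_left h3 h4
      calc ((q : ℝ) / 1024 - (g : ℝ) / 2 ^ 20) * (Real.log b - 8 * Real.log 2) * 2 ^ 51
          = 2 * (1024 * (q : ℝ) - g) * (2 ^ 30 * (Real.log b - 8 * Real.log 2)) := by ring
        _ ≤ 2 * (1024 * (q : ℝ) - g) * ((le b : ℝ) + 16 - 2 ^ 34 - 8 * (LN2L : ℝ)) := h5
        _ = _ := by ring
    · rw [div_le_div_iff₀ (by positivity) (by positivity)]
      nlinarith [hgr]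
  · have hg' : 1024 * q < g := Nat.lt_of_not_le hg'
    have ha : 1 ≤ a := by
      rcases hc with h | h
      · exact absurd h (Nat.not_le.mpr hg')
      · exact h
    have hL := endL2 g q b hg'
    have hR := endR2 g q a hg'
    have hgr : 1024 * (q : ℝ) < (g : ℝ) := by exact_mod_cast hg'
    have hsub : ((g - 1024 * q : ℕ) : ℝ) = (g : ℝ) - 1024 * (q : ℝ) := by
      rw [Nat.cast_sub hg'.le]; push_cast; ring
    have hE := (hLEE a ha (hab.trans hb2)).1
    have hapos : (0 : ℝ) < (a : ℝ) := by exact_mod_cast ha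
    have hcoef : (q : ℝ) / 1024 - (g : ℝ) / 2 ^ 20 ≤ 0 := by
      have : (q : ℝ) / 1024 - (g : ℝ) / 2 ^ 20 = (1024 * (q : ℝ) - g) / 2 ^ 20 := by ring
      rw [this]
      exact div_nonpos_of_nonpos_of_nonneg (by linarith) (by positivity)
    have main : ((q : ℝ) / 1024 - (g : ℝ) / 2 ^ 20) * Real.log ((a : ℝ) / 256) ≤
        ((endL g q b : ℝ) - (endR g q a : ℝ)) / 2 ^ 51 := by
      rw [hL, hR, lg a ha]
      push_cast
      rw [hsub]
      rw [le_div_iff₀ (by positivity)]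
      have h3 : (le a : ℝ) - 2 ^ 34 - 8 * (LN2U : ℝ) ≤
          (2 : ℝ) ^ 30 * (Real.log a - 8 * Real.log 2) := by nlinarith [hE, hl2]
      have h4 : (0 : ℝ) ≤ 2 * ((g : ℝ) - 1024 * (q : ℝ)) := by linarith
      have h5 := mul_le_mul_of_nonneg_left h3 h4
      calc ((q : ℝ) / 1024 - (g : ℝ) / 2 ^ 20) * (Real.log a - 8 * Real.log 2) * 2 ^ 51
          = -(2 * ((g : ℝ) - 1024 * (q : ℝ)) * (2 ^ 30 * (Real.log a - 8 * Real.log 2))) := by ring
        _ ≤ -(2 * ((g : ℝ) - 1024 * (q : ℝ)) * ((le a : ℝ) - 2 ^ 34 - 8 * (LN2U : ℝ))) := by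
            linarith [h5]
        _ = _ := by ring
    refine ⟨le_trans ?_ main, Or.inr ⟨by positivity, main⟩⟩
    apply mul_le_mul_of_nonpos_left _ hcoef
    apply Real.log_le_log (by positivity)
    have : (a : ℝ) ≤ (b : ℝ) := by exact_mod_cast hab
    linarith

end LFIM

open LFIM in
theorem specLFI (hLEE : SpecLEE) (hLN2 : SpecLN2) (hVTI : SpecVTI) (hLEF : SpecLEF) : SpecLFI := by
  intro P a1 b1 a2 b2 al0 al1 S Q W hS hleaf
  have hlen : (S.map ISl.slt).length = S.length := List.length_map _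
  have hlt : ∀ {i : ℕ}, i < S.length → i < (S.map ISl.slt).length := fun h => by
    rw [hlen]; exact h
  have hl : leafN P a1 b1 a2 b2 al0 al1 S Q W (S.map ISl.slt).length = true := by
    rw [hlen]; exact hleaf
  set n : ℕ := (S.map ISl.slt).length with hn
  unfold leafN at hl
  rw [Bool.and_eq_true, Bool.and_eq_true, Bool.and_eq_true, Bool.and_eq_true, Bool.and_eq_true,
    Bool.and_eq_true, Bool.and_eq_true, Nat.ble_eq, Nat.ble_eq, beq_iff] at hl
  obtain ⟨⟨⟨⟨h01, h11⟩, hsum⟩, hwok⟩, ⟨hend1, hend2⟩, hv0, hv1⟩ := hl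
  have hsumN : ∑ j ∈ Finset.range (n + 2), qj Q j = 1024 := by rw [← sumTo_eq]; exact hsum
  have hsumF : ∑ j : Fin (n + 2), qj Q (j : ℕ) = 1024 := by
    rw [Fin.sum_univ_eq_sum_range]; exact hsumN
  refine hLEF (bx a1 b1 a2 b2 al0 al1) P.ptl (S.map ISl.slt)
    (fun j => (qj Q (j : ℕ) : ℝ) / 1024) ?_ ?_ ?_ ?_ ?_
  · show (al0 : ℝ) / 1024 ≤ (al1 : ℝ) / 1024
    have : (al0 : ℝ) ≤ (al1 : ℝ) := by exact_mod_cast h01
    linarith
  · intro s hs
    obtain ⟨s', hs', rfl⟩ := List.mem_map.mp hs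
    exact (hS s' hs').ok
  · intro j; positivity
  · rw [← Finset.sum_div]
    have : (∑ j : Fin (n + 2), (qj Q (j : ℕ) : ℝ)) = 1024 := by exact_mod_cast hsumF
    show (∑ j : Fin (n + 2), (qj Q (j : ℕ) : ℝ)) / 1024 = 1
    rw [this]; norm_num
  · intro α v hα hvk
    -- the opening
    obtain ⟨al, hal, hα', hvx⟩ : ∃ al : ℕ, al ≤ 1024 ∧ α = (al : ℝ) / 1024 ∧
        vxs (qj Q) (fl n (qj Q) (wx W n)) (Nat.add 2048 al) S 0 (Nat.sub 2048 al)
          (cL P (Nat.add (endL P.g₁ (qj Q 0) b1) (endL P.g₂ (qj Q (Nat.succ n)) b2))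
            (sumTo (Nat.add n 2) (fun j => ml (qj Q j))) (ws n (wx W n)) al)
          (cR P (Nat.add (endR P.g₁ (qj Q 0) a1) (endR P.g₂ (qj Q (Nat.succ n)) a2))
            (sumTo n (fun k => qj Q (Nat.succ k))) al) = true := by
      rcases hα with h | h
      · exact ⟨al0, h01.trans h11, h, hv0⟩
      · exact ⟨al1, h11, h, hv1⟩
    -- the choice of the vertex
    have hch : ∀ i : ℕ, ∃ dt : ℕ × ℕ, ∀ h : i < S.length,
        ((dt.1 = (S[i]'h).lo ∧ dt.2 = (S[i]'h).tl) ∨ (dt.1 = (S[i]'h).hi ∧ dt.2 = (S[i]'h).th)) ∧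
        v ⟨i, hlt h⟩ = ((dt.1 : ℝ) - 2048) / 2048 ∧
        ((S.map ISl.slt).get ⟨i, hlt h⟩).tip (v ⟨i, hlt h⟩) ≤
          ((dt.2 : ℝ) - 2 ^ 34) / 2 ^ 30 := by
      intro i
      by_cases h : i < S.length
      · have hget : (S.map ISl.slt).get ⟨i, hlt h⟩ = (S[i]'h).slt := by simp
        have hg := hS _ (List.getElem_mem h)
        rcases hvk ⟨i, hlt h⟩ with h1 | h1
        · refine ⟨((S[i]'h).lo, (S[i]'h).tl), fun _ => ⟨Or.inl ⟨rfl, rfl⟩, ?_, ?_⟩⟩
          · rw [h1, hget]; rfl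
          · rw [h1, hget]; exact hg.tl
        · refine ⟨((S[i]'h).hi, (S[i]'h).th), fun _ => ⟨Or.inr ⟨rfl, rfl⟩, ?_, ?_⟩⟩
          · rw [h1, hget]; rfl
          · rw [h1, hget]; exact hg.th
      · exact ⟨(0, 0), fun h' => absurd h' h⟩
    choose dt hdt using hch
    set d : ℕ → ℕ := fun k => if k = 0 then 2048 - al else if k - 1 < n then (dt (k - 1)).1
      else 2048 + al with hd
    set t : ℕ → ℕ := fun k => (dt k).2 with ht
    have hd0 : d 0 = 2048 - al := by simp [hd]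
    have hdS : ∀ i, i < S.length → d (i + 1) = (dt i).1 := by
      intro i hi
      have : i < n := by rw [hlen] ; exact hi
      simp [hd, this]
    have hdT : ∀ i, S.length ≤ i → d (i + 1) = 2048 + al := by
      intro i hi
      have : ¬ i < n := by rw [hlen] ; omega
      simp [hd, this]
    obtain ⟨hmono, hineq⟩ := vxs_sound (qj Q) (fl n (qj Q) (wx W n)) (Nat.add 2048 al) S 0
      (Nat.sub 2048 al) _ _ d t hvx hd0 (hdT _ le_rfl) (fun i h => by
        rw [hdS i h]
        exact (hdt i h).1)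
    have hmono' : ∀ i, d i ≤ d (i + 1) := by
      intro i
      by_cases h : i ≤ S.length
      · exact hmono i h
      · obtain ⟨i, rfl⟩ : ∃ j, i = j + 1 := ⟨i - 1, by omega⟩
        rw [hdT i (by omega), hdT (i + 1) (by omega)]
    have hdm : Monotone d := monotone_nat_of_le_succ hmono'
    have hd_hi : ∀ i, d i ≤ 2048 + al := by
      intro i
      calc d i ≤ d (i + S.length + 1) := hdm (by omega)
        _ = 2048 + al := hdT _ (by omega)
    have hd_lo : ∀ i, 2048 - al ≤ d i := by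
      intro i
      rw [← hd0]; exact hdm (Nat.zero_le i)
    set g : ℕ → ℕ := fun l => d (l + 1) - d l with hg
    have hgle : ∀ l, g l ≤ 2048 := by
      intro l
      have h1 := hd_hi (l + 1)
      have h2 := hd_lo l
      simp only [hg]
      omega
    have halr : ((2048 - al : ℕ) : ℝ) = 2048 - (al : ℝ) := by
      rw [Nat.cast_sub (by omega)]; norm_num
    have heN : ∀ k : ℕ, LEFM.eN α v k = ((d k : ℝ) - 2048) / 2048 := by
      intro k
      unfold LEFM.eN
      by_cases hk : k = 0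
      · subst hk
        rw [if_pos rfl, hd0, halr, hα']
        ring
      · rw [if_neg hk]
        obtain ⟨i, rfl⟩ : ∃ i, k = i + 1 := ⟨k - 1, by omega⟩
        by_cases hi : i < S.length
        · have hi' : i + 1 - 1 < n := by rw [hlen, Nat.add_sub_cancel]; exact hi
          rw [dif_pos hi', hdS i hi, ← (hdt i hi).2.1]
          rfl
        · have hi' : ¬ (i + 1 - 1 < n) := by rw [hlen, Nat.add_sub_cancel]; exact hi
          rw [dif_neg hi', hdT i (by omega), hα']
          push_cast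
          ring
    have hgr : ∀ l, (g l : ℝ) = (d (l + 1) : ℝ) - d l := by
      intro l
      simp only [hg]
      rw [Nat.cast_sub (hmono' l)]
    have hgp : ∀ l : Fin (n + 1), gp α v l = (g (l : ℕ) : ℝ) / 2048 := by
      intro l
      rw [LEFM.gp_eq, heN, heN, hgr]
      ring
    have hsg : ∑ l ∈ Finset.range (n + 1), g l = 2 * al := by
      have h1 : ∀ m, ∑ l ∈ Finset.range m, g l = d m - d 0 := by
        intro m
        induction m with
        | zero => simp
        | succ m ih =>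
          rw [Finset.sum_range_succ, ih]
          have h2 : d 0 ≤ d m := hdm (Nat.zero_le m)
          have h3 := hmono' m
          simp only [hg]
          omega
      rw [h1, hdT n hlen.symm.le, hd0]
      omega
    obtain ⟨hE1, hE1'⟩ := end_sound hLEE hLN2 _ _ _ _ hend1
    obtain ⟨hE2, hE2'⟩ := end_sound hLEE hLN2 _ _ _ _ hend2
    set eL1 : ℕ := endL P.g₁ (qj Q 0) b1
    set eL2 : ℕ := endL P.g₂ (qj Q (Nat.succ n)) b2
    set eR1 : ℕ := endR P.g₁ (qj Q 0) a1
    set eR2 : ℕ := endR P.g₂ (qj Q (Nat.succ n)) a2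
    set E : ℕ := sumTo (Nat.add n 2) (fun j => ml (qj Q j)) with hEdef
    set ww : ℕ := ws n (wx W n) with hww
    set FF : ℕ := sumTo n (fun k => qj Q (Nat.succ k)) with hFF
    -- the main inequality in the integers
    have hI : (eL1 + eL2 + ww * 2 ^ 31 + (E * (2 * al) + P.Bn * al * 2097152)) +
        1024 * (∑ i ∈ Finset.range (n + 1), ml (g i)) +
        2048 * (∑ i ∈ Finset.range n, qj Q (i + 1) * t i) ≤
        (eR1 + eR2 + (18691697672192 * (2 * al) + FF * 35184372088832) +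
          (P.A * 2147483648 + P.Bp * al * 2097152)) +
        ∑ i ∈ Finset.range (n + 1), g i * fl n (qj Q) (wx W n) i := by
      rw [cL_eq, cR_eq, nadd eL1, nadd eR1, ← hlen] at hineq
      simpa [hg, Nat.zero_add] using hineq
    have hIr : ((eL1 : ℝ) + eL2 + ww * 2 ^ 31 + (E * (2 * al) + P.Bn * al * 2097152)) +
        1024 * (∑ i ∈ Finset.range (n + 1), (ml (g i) : ℝ)) +
        2048 * (∑ i ∈ Finset.range n, (qj Q (i + 1) : ℝ) * t i) ≤
        ((eR1 : ℝ) + eR2 + (18691697672192 * (2 * al) + FF * 35184372088832) +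
          (P.A * 2147483648 + P.Bp * al * 2097152)) +
        ∑ i ∈ Finset.range (n + 1), (g i : ℝ) * fl n (qj Q) (wx W n) i := by
      exact_mod_cast hI
    refine ⟨((E : ℝ) * (2 * al) + 1024 * (∑ i ∈ Finset.range (n + 1), (ml (g i) : ℝ)) +
        2 ^ 31 * (ww : ℝ) - ∑ i ∈ Finset.range (n + 1), (g i : ℝ) * fl n (qj Q) (wx W n) i -
        18691697672192 * (2 * al)) / 2 ^ 51,
      ((eL1 : ℝ) - eR1) / 2 ^ 51, ((eL2 : ℝ) - eR2) / 2 ^ 51, ?_, hE1, hE1', hE2, hE2', ?_⟩
    · intro X B hXB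
      have h1 := hVTI n (qj Q) (wx W n) g (gp α v) hgle hgp hsum
        (fun j l => Nat.mod_lt _ (by norm_num)) hwok X B hXB
      rw [hsg] at h1
      push_cast at h1
      rw [le_div_iff₀ (by positivity)]
      show (∑ j : Fin (n + 2), ((qj Q (j : ℕ) : ℝ) / 1024) * HH (gp α v) B (X j)) * 2 ^ 51 ≤ _
      have h2 : ((sumTo (n + 2) (fun j => ml (qj Q j)) : ℕ) : ℝ) = (E : ℝ) := rfl
      rw [h2] at h1
      linarith [h1]
    · have htip : ∑ k : Fin n, (qj Q ((k.succ.castSucc : Fin (n + 2)) : ℕ) : ℝ) / 1024 *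
          ((S.map ISl.slt).get k).tip (v k) ≤
          ∑ k : Fin n, ((2048 * ((qj Q ((k : ℕ) + 1) : ℝ) * t k)) -
            2 ^ 45 * (qj Q ((k : ℕ) + 1) : ℝ)) / 2 ^ 51 := by
        refine Finset.sum_le_sum fun k _ => ?_
        have hk : (k : ℕ) < S.length := by rw [← hlen]; exact k.isLt
        have h1 : ((S.map ISl.slt).get k).tip (v k) ≤ ((t k : ℝ) - 2 ^ 34) / 2 ^ 30 :=
          (hdt k hk).2.2
        have h2 : (0 : ℝ) ≤ (qj Q ((k : ℕ) + 1) : ℝ) / 1024 := by positivity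
        have h3 := mul_le_mul_of_nonneg_left h1 h2
        have h4 : (((k.succ.castSucc : Fin (n + 2)) : ℕ)) = (k : ℕ) + 1 := rfl
        rw [h4]
        refine h3.trans (le_of_eq ?_)
        ring
      have hFr : (FF : ℝ) = ∑ i ∈ Finset.range n, (qj Q (i + 1) : ℝ) := by
        rw [hFF, sumTo_eq]; push_cast; rfl
      have hs : ∑ k : Fin n, ((2048 * ((qj Q ((k : ℕ) + 1) : ℝ) * t k)) -
            2 ^ 45 * (qj Q ((k : ℕ) + 1) : ℝ)) / 2 ^ 51 =
          (2048 * (∑ i ∈ Finset.range n, (qj Q (i + 1) : ℝ) * t i) - 2 ^ 45 * (FF : ℝ)) / 2 ^ 51 := by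
        rw [Fin.sum_univ_eq_sum_range (fun k : ℕ => ((2048 * ((qj Q (k + 1) : ℝ) * t k)) -
            2 ^ 45 * (qj Q (k + 1) : ℝ)) / 2 ^ 51), ← Finset.sum_div, Finset.sum_sub_distrib,
            ← Finset.mul_sum, ← Finset.mul_sum, ← hFr]
      rw [hs] at htip
      show ((eL1 : ℝ) - eR1) / 2 ^ 51 + ((eL2 : ℝ) - eR2) / 2 ^ 51 +
        ∑ k : Fin n, (qj Q ((k.succ.castSucc : Fin (n + 2)) : ℕ) : ℝ) / 1024 *
          ((S.map ISl.slt).get k).tip (v k) + _ ≤
        (P.A : ℝ) / 2 ^ 20 + ((P.Bp : ℝ) - P.Bn) / 2 ^ 20 * α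
      rw [hα']
      have h51 : (0 : ℝ) < 2 ^ 51 := by positivity
      calc ((eL1 : ℝ) - eR1) / 2 ^ 51 + ((eL2 : ℝ) - eR2) / 2 ^ 51 +
            ∑ k : Fin n, (qj Q ((k.succ.castSucc : Fin (n + 2)) : ℕ) : ℝ) / 1024 *
              ((S.map ISl.slt).get k).tip (v k) +
            ((E : ℝ) * (2 * al) + 1024 * (∑ i ∈ Finset.range (n + 1), (ml (g i) : ℝ)) +
              2 ^ 31 * (ww : ℝ) - ∑ i ∈ Finset.range (n + 1), (g i : ℝ) * fl n (qj Q) (wx W n) i -
              18691697672192 * (2 * al)) / 2 ^ 51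
          ≤ ((eL1 : ℝ) - eR1) / 2 ^ 51 + ((eL2 : ℝ) - eR2) / 2 ^ 51 +
            (2048 * (∑ i ∈ Finset.range n, (qj Q (i + 1) : ℝ) * t i) - 2 ^ 45 * (FF : ℝ)) / 2 ^ 51 +
            ((E : ℝ) * (2 * al) + 1024 * (∑ i ∈ Finset.range (n + 1), (ml (g i) : ℝ)) +
              2 ^ 31 * (ww : ℝ) - ∑ i ∈ Finset.range (n + 1), (g i : ℝ) * fl n (qj Q) (wx W n) i -
              18691697672192 * (2 * al)) / 2 ^ 51 := by linarith [htip]
        _ = (((eL1 : ℝ) + eL2 + ww * 2 ^ 31 + (E * (2 * al) + P.Bn * al * 2097152)) +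
              1024 * (∑ i ∈ Finset.range (n + 1), (ml (g i) : ℝ)) +
              2048 * (∑ i ∈ Finset.range n, (qj Q (i + 1) : ℝ) * t i) -
              ((eR1 : ℝ) + eR2 + (18691697672192 * (2 * al) + FF * 35184372088832) +
                (P.A * 2147483648 + P.Bp * al * 2097152)) -
              ∑ i ∈ Finset.range (n + 1), (g i : ℝ) * fl n (qj Q) (wx W n) i +
              (P.A * 2147483648 + P.Bp * al * 2097152 - P.Bn * al * 2097152)) / 2 ^ 51 := by ring
        _ ≤ (P.A * 2147483648 + P.Bp * al * 2097152 - P.Bn * al * 2097152) / 2 ^ 51 := by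
            apply div_le_div_of_nonneg_right _ h51.le
            linarith [hIr]
        _ = (P.A : ℝ) / 2 ^ 20 + ((P.Bp : ℝ) - P.Bn) / 2 ^ 20 * ((al : ℝ) / 1024) := by ring

end

end Pool.Agent.Lib.MP250511.ST.Chk
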