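import Pool.Agent.Lib.MP_250511_an.ST.Spec

/-!
Problem MP_250511_an, row 317, module SEI: integration over the rays.
-/

set_option autoImplicit false

namespace Pool.Agent.Lib.MP250511.ST

open Complex Metric Set MeasureTheory Filter Topology
open scoped Real ENNReal

namespace SEIM

lemma img_open {f : ℂ → ℂ} {R : ℝ} (hf : Cmap f R) : IsOpen (f '' ball 0 1) := by
  rcases hf.an.is_constant_or_isOpen (convex_ball (0 : ℂ) 1).isPreconnected with ⟨w, hw⟩ | h
  · exfalso
    have h0 : (0 : ℂ) ∈ ball (0 : ℂ) 1 := by simp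
    have h1 : (1 / 2 : ℂ) ∈ ball (0 : ℂ) 1 := by
      rw [mem_ball_zero_iff]
      norm_num
    have := hf.inj h0 h1 ((hw _ h0).trans (hw _ h1).symm)
    norm_num at this
  · exact h _ subset_rfl isOpen_ball

lemma slit {z : ℂ} {B : ℝ} (hB : |B| < 1) (hz : ‖z‖ < 1) :
    1 - 2 * (B : ℂ) * z + z ^ 2 ∈ slitPlane := by
  rw [mem_slitPlane_iff]
  have hn : z.re ^ 2 + z.im ^ 2 < 1 := by
    have h1 : ‖z‖ ^ 2 < 1 := by
      have := norm_nonneg z
      nlinarith
    rw [← Complex.normSq_eq_norm_sq, Complex.normSq_apply] at h1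
    nlinarith
  have hB2 : B ^ 2 < 1 := by
    have := sq_lt_one_iff_abs_lt_one B
    exact this.2 hB
  have hre : (1 - 2 * (B : ℂ) * z + z ^ 2).re = 1 - 2 * B * z.re + z.re ^ 2 - z.im ^ 2 := by
    simp [pow_two]
    ring
  have him : (1 - 2 * (B : ℂ) * z + z ^ 2).im = 2 * z.im * (z.re - B) := by
    simp [pow_two]
    ring
  rw [hre, him]
  by_cases h : 2 * z.im * (z.re - B) = 0
  · left
    rcases mul_eq_zero.1 h with h1 | h1
    · have h2 : z.im = 0 := by linarith
      rw [h2]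
      nlinarith [sq_nonneg (z.re - B)]
    · have h2 : z.re = B := by linarith
      rw [h2] at hn ⊢
      nlinarith
  · right
    exact h

lemma GG_diff {n : ℕ} {a B : Fin n → ℝ} (hB : ∀ l, |B l| < 1) {ζ : ℂ} (hζ : ζ.re < 0) :
    DifferentiableAt ℂ (GG a B) ζ := by
  unfold GG
  refine (differentiableAt_id.const_mul _).sub ?_
  refine DifferentiableAt.fun_sum fun l _ => ?_
  refine DifferentiableAt.const_mul ?_ _
  refine DifferentiableAt.clog ?_ ?_
  · fun_prop
  · refine slit (hB l) ?_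
    rw [Complex.norm_exp]
    rw [← Real.exp_zero]
    exact Real.exp_lt_exp.2 hζ

lemma ww_diff {n : ℕ} {a B : Fin n → ℝ} (hB : ∀ l, |B l| < 1) (c θ : ℝ) {ζ : ℂ} (hζ : ζ.re < 0) :
    DifferentiableAt ℂ (ww a B c θ) ζ := by
  unfold ww
  exact ((GG_diff hB hζ).const_add _).cexp

lemma EE_open {f : ℂ → ℂ} {R : ℝ} (hf : Cmap f R) {n : ℕ} {a B : Fin n → ℝ}
    (hB : ∀ l, |B l| < 1) (c θ X : ℝ) : IsOpen (EE f a B c θ X) := by
  have h1 : IsOpen {ζ : ℂ | ζ.re < 0} := isOpen_lt Complex.continuous_re continuous_const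
  have h2 : ContinuousOn (ww a B c θ) {ζ : ℂ | ζ.re < 0} := fun ζ hζ =>
    (ww_diff hB c θ hζ).continuousAt.continuousWithinAt
  have h3 := h2.isOpen_inter_preimage h1 (img_open hf)
  have h4 : IsOpen {ζ : ℂ | -X < ζ.re} := isOpen_lt continuous_const Complex.continuous_re
  have h5 : IsOpen {ζ : ℂ | 0 < ζ.im} := isOpen_lt continuous_const Complex.continuous_im
  have h6 : IsOpen {ζ : ℂ | ζ.im < π} := isOpen_lt Complex.continuous_im continuous_const
  have h7 := ((h3.inter h4).inter h5).inter h6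
  convert h7 using 1
  ext ζ
  simp only [EE, Set.mem_ofPred_eq, mem_inter_iff, mem_preimage]
  tauto

end SEIM

open SEIM in
theorem specSEI (hSEL : SpecSEL) (hSER : SpecSER) : SpecSEI := by
  intro f h R hf hh hst n a B ρ c θ ha hW hBa hB hc ε hε
  have hspos : 0 < ∑ l, a l := Finset.sum_pos (fun l _ => ha l) Finset.univ_nonempty
  filter_upwards [hSEL f h R hf hh n a B c θ ha hB ε hε, eventually_ge_atTop ε,
    eventually_gt_atTop (Real.log R - c)] with m hm1 hm2 hm3
  obtain ⟨X, hX⟩ : ∃ X, X = (m + c - Real.log R) / ∑ l, a l := ⟨_, rfl⟩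
  rw [← hX] at hm1 ⊢
  have hXpos : 0 < X := by
    rw [hX]
    exact div_pos (by linarith) hspos
  obtain ⟨hm4, -⟩ := hm1
  obtain ⟨g, hg⟩ : ∃ g : ℂ → ℝ≥0∞, g = fun ζ =>
    ENNReal.ofReal (‖deriv (fun ζ => h (ww a B c θ ζ)) ζ / h (ww a B c θ ζ)‖ ^ 2) := ⟨_, rfl⟩
  have hEo := EE_open hf (a := a) hB c θ X
  have hEm : MeasurableSet (EE f a B c θ X) := hEo.measurableSet
  -- measurability
  have hcont : ContinuousOn (fun ζ => h (ww a B c θ ζ)) (EE f a B c θ X) := by
    intro ζ hζ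
    obtain ⟨h1, h2, h3, h4, z, hz, hzw⟩ := hζ
    have h5 := (hh z hz).2.continuousAt
    rw [hzw] at h5
    exact (ContinuousAt.comp (f := ww a B c θ) (g := h) h5
      (ww_diff hB c θ h2).continuousAt).continuousWithinAt
  have hgm : AEMeasurable ((EE f a B c θ X).indicator g) (volume : Measure ℂ) := by
    rw [aemeasurable_indicator_iff hEm, hg]
    refine ENNReal.measurable_ofReal.comp_aemeasurable ?_
    refine AEMeasurable.pow_const ?_ 2
    refine AEMeasurable.norm ?_
    refine AEMeasurable.div ?_ ?_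
    · exact (measurable_deriv _).aemeasurable
    · exact hcont.aemeasurable hEm
  -- Tonelli
  have hton : ∫⁻ ζ in EE f a B c θ X, g ζ =
      ∫⁻ y : ℝ, ∫⁻ x : ℝ, (EE f a B c θ X).indicator g ((x : ℂ) + y * I) := by
    rw [← lintegral_indicator hEm]
    have h1 := (Complex.volume_preserving_equiv_real_prod.symm).lintegral_comp_emb
      (Complex.measurableEquivRealProd.symm.measurableEmbedding) ((EE f a B c θ X).indicator g)
    rw [← h1, Measure.volume_eq_prod, lintegral_prod_symm]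
    · refine lintegral_congr fun y => lintegral_congr fun x => ?_
      rw [Complex.measurableEquivRealProd_symm_apply, Complex.mk_eq_add_mul_I]
    · have h2 := hgm.comp_quasiMeasurePreserving
        Complex.volume_preserving_equiv_real_prod.symm.quasiMeasurePreserving
      rw [Measure.volume_eq_prod] at h2
      exact h2
  -- the rays
  have hray : ∀ y : ℝ, 0 < y → y < π → (∀ l, Real.cos y ≠ B l) →
      ENNReal.ofReal ((m - ε) ^ 2) ≤ ENNReal.ofReal X *
        ∫⁻ x : ℝ, (EE f a B c θ X).indicator g ((x : ℂ) + y * I) := by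
    intro y hy0 hy1 hyB
    have h1 := hSER f h R hf hh hst n a B ρ c θ ha hW hBa hB hc X y hXpos hy0 hy1 hyB (hm4 y).1
    have h2 : ENNReal.ofReal ((m - ε) ^ 2) ≤
        ENNReal.ofReal (Real.log ‖h (ww a B c θ ((-X : ℝ) + y * I))‖ ^ 2) := by
      refine ENNReal.ofReal_le_ofReal ?_
      have h3 := (hm4 y).2
      nlinarith
    refine h2.trans (h1.trans ?_)
    refine mul_le_mul_right ?_ _
    have hms : MeasurableSet {x : ℝ | -X < x ∧ x < 0 ∧ ww a B c θ (x + y * I) ∈ f '' ball 0 1} := by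
      have h3 : {x : ℝ | -X < x ∧ x < 0 ∧ ww a B c θ (x + y * I) ∈ f '' ball 0 1} =
          (fun x : ℝ => (x : ℂ) + y * I) ⁻¹' (EE f a B c θ X) := by
        ext x
        simp [EE, hy0, hy1]
      rw [h3]
      exact (hEo.preimage (by fun_prop)).measurableSet
    rw [← lintegral_indicator hms]
    refine lintegral_mono fun x => ?_
    by_cases hx : x ∈ {x : ℝ | -X < x ∧ x < 0 ∧ ww a B c θ (x + y * I) ∈ f '' ball 0 1}
    · have hx' : (x : ℂ) + y * I ∈ EE f a B c θ X := by
        obtain ⟨h4, h5, h6⟩ := hx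
        refine ⟨?_, ?_, ?_, ?_, h6⟩
        · simpa using h4
        · simpa using h5
        · simpa using hy0
        · simpa using hy1
      rw [indicator_of_mem hx, indicator_of_mem hx', hg]
    · rw [indicator_of_notMem hx]
      exact zero_le
  have hae : ∀ᵐ y : ℝ ∂(volume.restrict (Ioo 0 π)), ENNReal.ofReal ((m - ε) ^ 2) ≤
      ENNReal.ofReal X * ∫⁻ x : ℝ, (EE f a B c θ X).indicator g ((x : ℂ) + y * I) := by
    have h1 : ∀ᵐ y : ℝ, y ∉ Set.range (fun l => Real.arccos (B l)) :=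
      measure_eq_zero_iff_ae_notMem.1 ((Set.finite_range _).measure_zero volume)
    have h2 := ae_restrict_of_ae (s := Ioo 0 π) h1
    filter_upwards [h2, ae_restrict_mem (measurableSet_Ioo (a := (0 : ℝ)) (b := π))] with y hy1 hy2
    refine hray y hy2.1 hy2.2 fun l hl => hy1 ⟨l, ?_⟩
    simp only [← hl]
    exact Real.arccos_cos hy2.1.le hy2.2.le
  have hint := lintegral_mono_ae hae
  rw [lintegral_const, Measure.restrict_apply MeasurableSet.univ, univ_inter, Real.volume_Ioo,
    sub_zero, lintegral_const_mul' _ _ ENNReal.ofReal_ne_top] at hint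
  have hle : ∫⁻ y in Ioo 0 π, ∫⁻ x : ℝ, (EE f a B c θ X).indicator g ((x : ℂ) + y * I) ≤
      ∫⁻ ζ in EE f a B c θ X, g ζ := by
    rw [hton]
    exact setLIntegral_le_lintegral _ _
  have hfin : ENNReal.ofReal (π * (m - ε) ^ 2) ≤ ENNReal.ofReal X * ∫⁻ ζ in EE f a B c θ X, g ζ := by
    rw [mul_comm π, ENNReal.ofReal_mul (sq_nonneg _)]
    exact hint.trans (mul_le_mul_right hle _)
  rw [hg] at hfin
  rw [ENNReal.ofReal_div_of_pos hXpos]
  exact ENNReal.div_le_of_le_mul' hfin

end Pool.Agent.Lib.MP250511.ST
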