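import Pool.Agent.Lib.MP_250511_an.ST.Defs

/-!
Problem MP_250511_an, Q2: a lower bound for `S₁` (starlike functions).  Part 1: the analytic core
(decoupling of the sectors, a finite form of Dubinin's separating transformation with a
length-area proof) and the geometry.  Every module has its proof in the docstring.

File `Lib/MP_250511_an/ST/<NAME>.lean`, `theorem specNAME (other Specs as hypotheses) : SpecNAME`,
own lemmas in `namespace Pool.Agent.Lib.MP250511.ST.NAMEM`.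
-/

set_option autoImplicit false

namespace Pool.Agent.Lib.MP250511.ST

open Complex Metric Set MeasureTheory Filter Topology
open scoped Real ENNReal

noncomputable section

/-! ## The slit function -/

/-- SLF [180].  The slit function in the half plane `re ζ < 0`.

Proof.  Put `z = exp ζ`, `|z| < 1`.  (0) For real `|B| < 1` and `|z| < 1` the number
`p = 1 - 2 B z + z²` is in the slit plane: if `p = -s`, `s ≥ 0` real, then `z² - 2 B z + 1 + s = 0`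
has real coefficients and negative discriminant, so its roots are conjugate and
`|z|² = 1 + s ≥ 1` (in coordinates: `im p = 2 y (x - B) = 0`; if `x = B`,
`re p = 1 - B² - y² > 0` since `x² + y² < 1`; if `y = 0`, `re p = 1 - 2 B x + x² ≥ 1 - B² > 0`).  So `GG` is
differentiable and (1) `GG' = ∑ a_l (1 + (2 B_l z - 2 z²) / p_l) = ∑ a_l (1 - z²) / p_l`
(use `α = ∑ a_l`).  (2) `re ((1 - z²) / p) > 0`: `re ((1 - z²) conj p) =
(1 - |z|²)(1 + |z|² - 2 B x)`, `z = x + i y`, and `2 |B x| < 2 |z| ≤ 1 + |z|²` if `z ≠ 0`.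
(3) Injectivity (Noshiro-Warschawski): the half plane is convex and `re GG' > 0`, so
for `ζ ≠ ξ` the real part of `(GG ζ - GG ξ) / (ζ - ξ)` is positive (the function
`t ↦ re ((GG (ξ + t (ζ - ξ)) - GG ξ) / (ζ - ξ))` has positive derivative on `[0, 1]`).
(4) For `|z| ≤ e⁻¹`: `|p - 1| ≤ 2 |z| + |z|² ≤ 0.88`, `‖log (1 + u)‖ ≤ C ‖u‖` for `‖u‖ ≤ 0.88`
(`Complex.norm_log_one_add_le` or a compactness argument), so the sum is at most `K |z|`. -/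
def SpecSLF : Prop := ∀ (n : ℕ) (a B : Fin n → ℝ), 0 < n → (∀ l, 0 < a l) → (∀ l, |B l| < 1) →
  (∀ ζ : ℂ, ζ.re < 0 → DifferentiableAt ℂ (GG a B) ζ ∧ 0 < (deriv (GG a B) ζ).re) ∧
  InjOn (GG a B) {ζ | ζ.re < 0} ∧
  ∃ K : ℝ, ∀ ζ : ℂ, ζ.re ≤ -1 → ‖GG a B ζ - ((∑ l, a l : ℝ) : ℂ) * ζ‖ ≤ K * Real.exp ζ.re

/-- SLB [150].  Imaginary part and boundary values of the slit function (from SLF).

Proof.  (1) `d/dy im GG (x + i y) = re GG' (x + i y) > 0`; at `y = 0` the function is real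
(`exp ζ` real, `p_l > 0`), and at `y = π` also `exp ζ` is real, `p_l > 0`, so `im GG = π α`.
(2) Let `0 < y < π`, `cos y ≠ B_l`.  `1 - 2 B e^{iy} + e^{2iy} = 2 (cos y - B) e^{iy}`, which is in
the slit plane (`sin y ≠ 0`), so `GG (x + i y)` is continuous at `x = 0` and
`log (2 (cos y - B) e^{iy}) = log (2 |cos y - B|) + i y` if `B < cos y` and
`= log (2 |cos y - B|) + i (y - π)` if `cos y < B`.  The value at `i y` is
`i α y - ∑ a_l (log (2 |cos y - B_l|) + i y - i π [cos y < B_l])`, and the set of the `l` with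
`cos y < B_l` is `{l | l < cnt B (cos y)}` because `B` is strictly decreasing. -/
def SpecSLB : Prop := ∀ (n : ℕ) (a B : Fin n → ℝ), 0 < n → (∀ l, 0 < a l) → (∀ l, |B l| < 1) →
  StrictAnti B →
  (∀ ζ : ℂ, ζ.re < 0 → 0 < ζ.im → ζ.im < π →
    0 < (GG a B ζ).im ∧ (GG a B ζ).im < π * ∑ l, a l) ∧
  ∀ y : ℝ, 0 < y → y < π → (∀ l, Real.cos y ≠ B l) →
    Tendsto (fun x : ℝ => GG a B (x + y * I)) (𝓝[<] 0)
      (𝓝 (((-(HH a B (Real.cos y)) : ℝ) : ℂ) + (π * psum a (cnt B (Real.cos y)) : ℝ) * I))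

/-! ## The length-area argument -/

/-- RAY [150].  One ray.

Proof.  Let `x₁ = sup {x ∈ (-X, 0] | [-X, x) ⊆ E}` (`E` is open, `-X ∈ E`, so the set is nonempty).
Then `[-X, x₁) ⊆ E`, and `x₁ ∉ E` or `x₁ = 0` (`E` open), so `‖v x‖ → 1` for `x → x₁` from the left.
For `-X < x < x₁`: `log ‖v‖` is differentiable on `[-X, x]` with derivative `re (v'/v)`, so
`- log ‖v (-X)‖ ≤ - log ‖v x‖ + ∫_{-X}^x ‖v'/v‖`, and by Cauchy-Schwarz
`(∫_{-X}^x ‖v'/v‖)² ≤ X ∫_{-X}^x ‖v'/v‖² ≤ X J`, `J` the integral on the right (if `J = ∞` there is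
nothing to prove).  Let `x → x₁`. -/
def SpecRAY : Prop := ∀ (X : ℝ) (E : Set ℝ) (v v' : ℝ → ℂ), 0 < X → IsOpen E → -X ∈ E →
  (∀ x ∈ E, x < 0 → HasDerivAt v (v' x) x ∧ v x ≠ 0 ∧ ‖v x‖ < 1) → ContinuousOn v' (E ∩ Iio 0) →
  (∀ x₁ : ℝ, -X < x₁ → x₁ ≤ 0 → (∀ x, -X ≤ x → x < x₁ → x ∈ E) → (x₁ ∉ E ∨ x₁ = 0) →
    Tendsto (fun x => ‖v x‖) (𝓝[<] x₁) (𝓝 1)) →
  ENNReal.ofReal (Real.log ‖v (-X)‖ ^ 2) ≤
    ENNReal.ofReal X * ∫⁻ x in E ∩ Ioo (-X) 0, ENNReal.ofReal (‖v' x / v x‖ ^ 2)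

/-- EXT [50].  At a point outside `f(D)` the inverse function tends to the circle.

Proof.  For `0 < s < 1` the set `f (closedBall 0 s)` is compact and does not contain `w₁`, so
eventually `w x` is not in it, i.e. `s < ‖z x‖ < 1`. -/
def SpecEXT : Prop := ∀ (f : ℂ → ℂ) (R : ℝ), Cmap f R → ∀ (l : Filter ℝ) (w z : ℝ → ℂ) (w₁ : ℂ),
  Tendsto w l (𝓝 w₁) → w₁ ∉ f '' ball 0 1 → (∀ᶠ x in l, z x ∈ ball (0 : ℂ) 1 ∧ f (z x) = w x) →
  Tendsto (fun x => ‖z x‖) l (𝓝 1)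

/-- NEA [120].  Behaviour near `0`.

Proof.  `f z = R z (1 + o(1))`: there is `δ > 0` with `R |z| / (1 + ε) ≤ |f z|` and
`|f z| < R |z| / (1 - ε)` for `0 < |z| < δ` (for `ε < 1`; for `ε ≥ 1` the third claim is trivial).
`f (ball 0 δ)` is open (INV in the parent directory, or `AnalyticOnNhd.is_constant_or_isOpen`) and
contains a ball `ball 0 η`; by injectivity `|f z| < η` implies `|z| < δ`.  Take also
`η ≤ R δ`.  Third claim: if `|z| < (1 - ε) t / R` then `|z| < δ` and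
`|f z| < t` (or `z = 0`, `f z = 0`). -/
def SpecNEA : Prop := ∀ (f : ℂ → ℂ) (R : ℝ), Cmap f R → ∀ ε : ℝ, 0 < ε → ∃ η : ℝ, 0 < η ∧
  (∀ w : ℂ, ‖w‖ < η → w ∈ f '' ball 0 1) ∧
  (∀ z ∈ ball (0 : ℂ) 1, ‖f z‖ < η → ‖z‖ ≤ (1 + ε) * (‖f z‖ / R)) ∧
  ∀ z ∈ ball (0 : ℂ) 1, ∀ t : ℝ, 0 < t → t < η → t ≤ ‖f z‖ → (1 - ε) * (t / R) ≤ ‖z‖

/-- SEL [150].  The bounds at the level `m` (from SLF, NEA).  `X = (m + c - log R) / α`.

Proof.  On the line `re ζ = -X`: `re GG = - α X + O(e^{-X})` (SLF (3)), so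
`log ‖ww (-X + i y)‖ = c - α X + o(1) = log R - m + o(1)` for `m → ∞`, uniformly in `y`; NEA gives
the first claim (`ww ∈ f(D)` because it is small, `z = h (ww)`, `log ‖z‖ ≤ log ‖ww‖ - log R + ε/2`).
For `ζ ∈ EE`, `re ζ > -X`: `re GG` increases along horizontal lines (`re GG' > 0`), so
`‖ww ζ‖ ≥ ‖ww (-X + i im ζ)‖ ≥ R e^{-m - ε/2}`, and the third claim of NEA with
`t = R e^{-m - ε/2}` gives `‖z‖ ≥ (1 - ε') e^{-m - ε/2} ≥ e^{-m-ε}`. -/
def SpecSEL : Prop := ∀ (f h : ℂ → ℂ) (R : ℝ), Cmap f R → Invf f h →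
  ∀ (n : ℕ) (a B : Fin (n + 1) → ℝ) (c θ : ℝ), (∀ l, 0 < a l) → (∀ l, |B l| < 1) →
  ∀ ε : ℝ, 0 < ε → ∀ᶠ m : ℝ in atTop,
    (∀ y : ℝ, ww a B c θ ((-((m + c - Real.log R) / ∑ l, a l) : ℝ) + y * I) ∈ f '' ball 0 1 ∧
      Real.log ‖h (ww a B c θ ((-((m + c - Real.log R) / ∑ l, a l) : ℝ) + y * I))‖ ≤ -m + ε) ∧
    ∀ ζ ∈ EE f a B c θ ((m + c - Real.log R) / ∑ l, a l),
      Real.exp (-m - ε) ≤ ‖h (ww a B c θ ζ)‖

/-- SER [150].  The rays of one sector (from SLF, SLB, RAY, EXT).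

Proof.  Fix `y`.  Apply RAY with `E = {x | x < 0, ww (x + i y) ∈ f(D)} ` (open: `f(D)` is open,
`ww` continuous on `re ζ < 0`), `v x = h (ww (x + i y))`, `v' x` its derivative (`h` is analytic on the
open set `f(D)`, `Invf`; `v x ≠ 0` because `f (v x) = ww ≠ 0`).  The exit condition: let
`x₁ ∈ (-X, 0]` with `[-X, x₁) ⊆ E`.  If `x₁ < 0` and `x₁ ∉ E` then `ww (x + i y) → ww (x₁ + i y)`,
which is not in `f(D)`; EXT.  If `x₁ = 0`: by SLB `GG (x + i y)` tends to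
`- HH (cos y) + i π psum a j`, `j = cnt B (cos y)`, so `ww` tends to
`exp (c - HH (cos y) + i (θ + π psum a j)) = pt (c - HH) (..)`, and `c - HH (cos y) ≥ ρ j`, so this
point is in `W` (`StarC`, it is `t` times `pt (ρ j) (..)`, `t = exp (c - HH - ρ j) ≥ 1`); EXT. -/
def SpecSER : Prop := ∀ (f h : ℂ → ℂ) (R : ℝ), Cmap f R → Invf f h → StarC (f '' ball 0 1)ᶜ →
  ∀ (n : ℕ) (a B : Fin (n + 1) → ℝ) (ρ : ℕ → ℝ) (c θ : ℝ), (∀ l, 0 < a l) →
  (∀ j ≤ n + 1, pt (ρ j) (θ + π * psum a j) ∈ (f '' ball 0 1)ᶜ) →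
  StrictAnti B → (∀ l, |B l| < 1) →
  (∀ X : ℝ, |X| ≤ 1 → (∀ l, X ≠ B l) → ρ (cnt B X) + HH a B X ≤ c) →
  ∀ (X y : ℝ), 0 < X → 0 < y → y < π → (∀ l, Real.cos y ≠ B l) →
  ww a B c θ ((-X : ℝ) + y * I) ∈ f '' ball 0 1 →
  ENNReal.ofReal (Real.log ‖h (ww a B c θ ((-X : ℝ) + y * I))‖ ^ 2) ≤ ENNReal.ofReal X *
    ∫⁻ x in {x : ℝ | -X < x ∧ x < 0 ∧ ww a B c θ (x + y * I) ∈ f '' ball 0 1},
      ENNReal.ofReal (‖deriv (fun ζ => h (ww a B c θ ζ)) (x + y * I) /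
        h (ww a B c θ (x + y * I))‖ ^ 2)

/-- SEI [150].  Integration over the rays (from SEL, SER).

Proof.  `X = (m + c - log R) / α > 0` for large `m`.  For all `y ∈ (0, π)` except the finitely many
with `cos y = B_l`: SEL and SER give (`- log ‖h‖ ≥ m - ε ≥ 0`)
`ofReal ((m - ε)²) ≤ ofReal X * ∫⁻ x ..`; integrate over `y ∈ (0, π)` and use Tonelli
(`MeasureTheory.lintegral_prod` with `Complex.volume_preserving_equiv_real_prod`; the integrand is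
continuous on the open set `EE`, so measurable with the indicator).  Divide by `X`. -/
def SpecSEI : Prop := ∀ (f h : ℂ → ℂ) (R : ℝ), Cmap f R → Invf f h → StarC (f '' ball 0 1)ᶜ →
  ∀ (n : ℕ) (a B : Fin (n + 1) → ℝ) (ρ : ℕ → ℝ) (c θ : ℝ), (∀ l, 0 < a l) →
  (∀ j ≤ n + 1, pt (ρ j) (θ + π * psum a j) ∈ (f '' ball 0 1)ᶜ) →
  StrictAnti B → (∀ l, |B l| < 1) →
  (∀ X : ℝ, |X| ≤ 1 → (∀ l, X ≠ B l) → ρ (cnt B X) + HH a B X ≤ c) →
  ∀ ε : ℝ, 0 < ε → ∀ᶠ m : ℝ in atTop,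
    ENNReal.ofReal (π * (m - ε) ^ 2 / ((m + c - Real.log R) / ∑ l, a l)) ≤
      ∫⁻ ζ in EE f a B c θ ((m + c - Real.log R) / ∑ l, a l),
        ENNReal.ofReal (‖deriv (fun ζ => h (ww a B c θ ζ)) ζ / h (ww a B c θ ζ)‖ ^ 2)

/-- ARA [150].  The area inequality.

Proof.  Change of variables on each `E k` (`lintegral_image_eq_lintegral_abs_det_fderiv_mul`, the
determinant of a complex derivative is `‖F'‖²`; see `STA.lean` in the parent directory) for the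
function `‖z‖⁻²`: the integral over `E k` is `∫⁻_{F k (E k)} ‖z‖⁻²`.  The images are disjoint,
measurable (open) subsets of `{s ≤ ‖z‖ < 1}`, and `∫_{s ≤ ‖z‖ < 1} ‖z‖⁻² = 2 π log (1/s)` (polar
coordinates, `POL.lean`). -/
def SpecARA : Prop := ∀ (m : ℕ) (E : Fin m → Set ℂ) (F : Fin m → ℂ → ℂ) (s : ℝ), 0 < s → s ≤ 1 →
  (∀ k, IsOpen (E k)) → (∀ k, DifferentiableOn ℂ (F k) (E k)) → (∀ k, InjOn (F k) (E k)) →
  (∀ k, ∀ ζ ∈ E k, s ≤ ‖F k ζ‖ ∧ ‖F k ζ‖ < 1) →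
  (∀ k l, k ≠ l → Disjoint (F k '' E k) (F l '' E l)) →
  ∑ k, ∫⁻ ζ in E k, ENNReal.ofReal (‖deriv (F k) ζ / F k ζ‖ ^ 2) ≤
    ENNReal.ofReal (2 * π * Real.log (1 / s))

/-- DUB [250].  The decoupling inequality (from SLF, SLB, SEL, SEI, ARA).

Proof.  Let `h` be the inverse function (INV in the parent directory), `θ_k = θ₀ + π ∑_{i<k} al i`.
Let `ε > 0` and `m` large.  Apply ARA with `E k = EE f a B c θ_k X_k`,
`X_k = (m + c_k - log R) / al_k`, `F k = h ∘ ww`, `s = exp (-m - ε)` (SEL).  `F k` is injective: `h` is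
injective on `f(D)`; `ww ζ = ww ξ` gives `GG ζ - GG ξ ∈ 2 π i ℤ`, and the imaginary parts are in
`(0, π al_k)`, `al_k ≤ 2` (SLB), so `GG ζ = GG ξ` and `ζ = ξ` (SLF).  The images for different `k`
are disjoint because the `ww`-images are in disjoint sectors
(`ww = |..| exp (i φ)`, `φ ∈ (θ_k, θ_k + π al_k)`, disjoint intervals in `(θ₀, θ₀ + 2 π)`).
With SEI: `∑ al_k (m - ε)² / (m + d_k) ≤ 2 (m + ε)`, `d_k = c_k - log R`.  As
`(m - ε)² ≥ (m + d)(m - 2 ε - d)` (the difference is `(ε + d)²`), `∑ al_k (m - 2 ε - d_k) ≤ 2 (m + ε)`,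
`∑ al_k d_k ≥ - 6 ε`.  So `∑ al_k (c_k - log R) ≥ 0`. -/
def SpecDUB : Prop := ∀ (f : ℂ → ℂ) (R : ℝ), Cmap f R → StarC (f '' ball 0 1)ᶜ →
  ∀ (m : ℕ) (al v : Fin m → ℝ) (θ₀ : ℝ), (∀ k, 0 < al k) → ∑ k, al k = 2 →
  (∀ k : Fin m, SecVal (f '' ball 0 1)ᶜ (θ₀ + π * psum al k) (al k) (v k)) →
  Real.log R ≤ ∑ k, v k

/-! ## Equal tips -/

/-- EQA [150].  A maximum of the minimum exists.

Proof.  Let `M = ∑ a_l log 4` (an upper bound of all `HH a B x`, `|x - B_l| ≤ 2`), and let `c₀` be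
the value of `min_j (ρ j + HH a B (X j))` at some interlacing point.  If
`c₀ ≤ ρ j + HH a B (X j)` then every `a_l log (2 |X j - B l|) ≥ c₀ - ρ j - M'`, so
`|X j - B l| ≥ δ` for all `j, l` with some `δ > 0`.  The set of the `(X, B)` with `X 0 = 1`,
`X (n+1) = -1`, `X j - B j ≥ δ`, `B j - X (j+1) ≥ δ` is compact, the minimum is
continuous on it, and its maximum point over this set is a maximum point over all interlacing
points. -/
def SpecEQA : Prop := ∀ (n : ℕ) (a : Fin (n + 1) → ℝ) (ρ : Fin (n + 2) → ℝ), (∀ l, 0 < a l) →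
  ∃ (X : Fin (n + 2) → ℝ) (B : Fin (n + 1) → ℝ) (c : ℝ), Inter n X B ∧
    (∀ j, c ≤ ρ j + HH a B (X j)) ∧
    ∀ X' B', Inter n X' B' → ¬ ∀ j, c < ρ j + HH a B' (X' j)

/-- EQB [180].  Multipliers at the maximum.

Proof.  Let `J` be the set of the `j` with `ρ j + HH a B (X j) = c` (nonempty by maximality).  For
`j ∈ J` let `D_j` be the linear form `(x, b) ↦ ∑_l a_l (x_j - b_l) / (X_j - B_l)` on the
space `V` of the `(x, b)` with `x_0 = x_{n+1} = 0` (the derivative of `HH a B (X j)` in the direction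
`(x, b)`).  If `0` is not in the convex hull of the `D_j`, `j ∈ J` (a compact convex set in the finite
dimensional dual), then by separation there is `(x, b) ∈ V` with
`D_j (x, b) > 0` for all `j ∈ J`; for small `t > 0` the point `(X + t x, B + t b)` is interlacing, the
values with `j ∈ J` are `> c` (positive derivative), the others too (continuity).
Contradiction.  (Alternatively: a theorem of the alternative of Gordan for finitely many vectors.) -/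
def SpecEQB : Prop := ∀ (n : ℕ) (a : Fin (n + 1) → ℝ) (ρ : Fin (n + 2) → ℝ), (∀ l, 0 < a l) →
  ∀ (X : Fin (n + 2) → ℝ) (B : Fin (n + 1) → ℝ) (c : ℝ), Inter n X B →
    (∀ j, c ≤ ρ j + HH a B (X j)) →
    (∀ X' B', Inter n X' B' → ¬ ∀ j, c < ρ j + HH a B' (X' j)) →
    ∃ lam : Fin (n + 2) → ℝ, (∀ j, 0 ≤ lam j) ∧ ∑ j, lam j = 1 ∧
      (∀ j, c < ρ j + HH a B (X j) → lam j = 0) ∧
      ∀ (x : Fin (n + 2) → ℝ) (b : Fin (n + 1) → ℝ), x 0 = 0 → x (Fin.last (n + 1)) = 0 →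
        ∑ j, lam j * ∑ l, a l * ((x j - b l) / (X j - B l)) = 0

/-- EQL [150].  Equal tips (from EQA, EQB).

Proof.  Take `X, B, c` of EQA and `lam` of EQB.  With `x = 0`, `b = e_l`: `∑_j lam_j / (X_j - B_l) = 0`
for every `l`.  All `lam_j > 0`: the polynomial `P(t) = ∑_{j ∈ J} lam_j ∏_{i ∈ J, i ≠ j} (X_i - t)`,
`J = {j | lam_j ≠ 0}`, has degree at most `|J| - 1`, it is not zero
(its value at `X_j`, `j ∈ J`, is not zero), and it vanishes at the `n + 1` different points `B_l`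
(it is `∏_{i ∈ J} (X_i - B_l) ∑ lam_j / (X_j - B_l)`), so `|J| - 1 ≥ n + 1`, `J` is everything.  (Or by
sign changes: between two neighbouring `X_j`, `j ∈ J`, the function `∑ lam_j / (X_j - t)` is strictly
monotone, so it has at most one zero there, and it has no zero outside.)  So
`ρ j + HH a B (X j) = c` for all `j` (EQB (3)).  With `b = 0`, `x = e_j` (`j` inner):
`lam_j ∑_l a_l / (X_j - B_l) = 0`. -/
def SpecEQL : Prop := ∀ (n : ℕ) (a : Fin (n + 1) → ℝ) (ρ : Fin (n + 2) → ℝ), (∀ l, 0 < a l) →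
  ∃ (X : Fin (n + 2) → ℝ) (B : Fin (n + 1) → ℝ) (c : ℝ), Inter n X B ∧
    (∀ j, ρ j + HH a B (X j) = c) ∧
    ∀ j, j ≠ 0 → j ≠ Fin.last (n + 1) → ∑ l, a l / (X j - B l) = 0

/-- INT [100].  The critical points are the maxima.

Proof.  `B` is strictly decreasing with values in `(-1, 1)`.  Let `x` be given and
`j = cnt B x ≤ n + 1`, so `B l > x` for `l < j` and `B l < x` for `l ≥ j`; the same holds for `X j`, so
`x - B l` and `X j - B l` have the same sign for every `l`.  `log t ≤ t - 1` for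
`t = (x - B l) / (X j - B l) > 0`: `HH a B x ≤ HH a B (X j) + ∑ a_l (x - X j) / (X j - B l)`.  The sum is
`(x - X j) ∑ a_l / (X j - B l) = 0` for inner `j`; for `j = 0`, `X 0 = 1 ≥ x` and all `1 - B l > 0`;
for `j = n + 1`, `X j = -1 ≤ x` and all `-1 - B l < 0`. -/
def SpecINT : Prop := ∀ (n : ℕ) (a : Fin (n + 1) → ℝ) (X : Fin (n + 2) → ℝ)
  (B : Fin (n + 1) → ℝ), (∀ l, 0 < a l) → Inter n X B →
  (∀ j, j ≠ 0 → j ≠ Fin.last (n + 1) → ∑ l, a l / (X j - B l) = 0) →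
  StrictAnti B ∧ (∀ l, |B l| < 1) ∧
  ∀ x : ℝ, |x| ≤ 1 → (∀ l, x ≠ B l) → ∃ h : cnt B x < n + 2, HH a B x ≤ HH a B (X ⟨cnt B x, h⟩)

/-- QFM [60].  The dual form (from EQL, INT).

Proof.  Take `X, B, c` of EQL; `c = ∑ Q_j (ρ_j + HH a B (X_j)) ≤ V`.  `SecVal` with `n`, `a`, `B`, `ρ`
(extended by `0`), `c` (INT). -/
def SpecQFM : Prop := ∀ (W : Set ℂ) (θ : ℝ) (n : ℕ) (a : Fin (n + 1) → ℝ) (ρ : Fin (n + 2) → ℝ)
  (Q : Fin (n + 2) → ℝ) (V : ℝ), (∀ l, 0 < a l) →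
  (∀ j : Fin (n + 2), pt (ρ j) (θ + π * psum a j) ∈ W) → ∑ j, Q j = 1 →
  (∀ X B, Inter n X B → ∑ j, Q j * (ρ j + HH a B (X j)) ≤ V) →
  SecVal W θ (∑ l, a l) ((∑ l, a l) / 2 * V)

/-- CER [100].  The certificate for the dual form.

Proof.  `X j - B l` and `X₀ j - B₀ l` have the same sign for all `j, l` (both are positive iff `l ≥ j`),
so `log (2 |X j - B l|) ≤ log (2 |X₀ j - B₀ l|) - 1 + (X j - B l) / (X₀ j - B₀ l)`.  Sum with the
weights `Q j * a l ≥ 0`.  The last terms give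
`∑_j Q_j X_j ∑_l a_l / (X₀ j - B₀ l) - ∑_l a_l B_l ∑_j Q_j / (X₀ j - B₀ l)`; for `j = 0` and `j = n + 1`
the value `X_j = ±1` is known, the others and the `B_l` are at most `1` in absolute value. -/
def SpecCER : Prop := ∀ (n : ℕ) (a : Fin (n + 1) → ℝ) (Q X₀ X : Fin (n + 2) → ℝ)
  (B₀ B : Fin (n + 1) → ℝ), (∀ l, 0 ≤ a l) → (∀ j, 0 ≤ Q j) → Inter n X₀ B₀ → Inter n X B →
  ∑ j, Q j * HH a B (X j) ≤
    ∑ j, Q j * ∑ l, a l * (Real.log (2 * |X₀ j - B₀ l|) - 1) +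
    Q 0 * ∑ l, a l / (1 - B₀ l) + Q (Fin.last (n + 1)) * ∑ l, a l / (1 + B₀ l) +
    ∑ j ∈ Finset.univ.filter (fun j => j ≠ 0 ∧ j ≠ Fin.last (n + 1)),
      Q j * |∑ l, a l / (X₀ j - B₀ l)| +
    ∑ l, a l * |∑ j, Q j / (X₀ j - B₀ l)|

/-! ## Geometry -/

/-- QRY [120].  A query disc.  `p = c' + P` and `q = c' + Q` are the end points of the back arc.

Proof.  Let `K` be the closed unit disc about `c'`.  (i) Let `crs p w ≤ 0`; claim
`crs (w - p) (q - p) ≤ 0`.  Put `v = w - p`, `e = q - p`.  `e` and `p` are a basis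
(`crs p e = crs p q > 0`): `v = x p + y e`, `crs p v = y crs p q ≤ 0` gives `y ≤ 0`.
If `crs v e > 0` then `x crs p e > 0`, `x > 0`.  `dot v P ≤ 0` (`2 dot v P + |v|² = |w - c'|² - 1 ≤ 0`),
`dot e P < 0` (`2 dot e P + |e|² = 0`, `e ≠ 0`), `dot p P > 0`: `dot v P = x dot p P + y dot e P > 0`,
a contradiction.  The same for `crs w q ≤ 0` (by reflection).  (ii) Write
`w - c' = s P + t Q` (`crs P Q < 0`); `s + t - 1 = crs (w - p) (q - p) / crs P Q ≥ 0`.  (iii) `s, t ≥ 0`: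
if `s < 0` then `t ≥ 1 - s`, and `|s P + t Q|² = s² + t² + 2 s t dot P Q > (t + s)² ≥ 1` because
`dot P Q < 1` and `s t < 0`; contradiction.  (iv) Let
`Λ x = (|x - cs|² - r²) - (|x - c'|² - 1)`, an affine function: `Λ c' ≥ 0` (`r ≤ 1`), `Λ p < 0`,
`Λ q < 0`.  `Λ w = Λ c' + s (Λ p - Λ c') + t (Λ q - Λ c') = Λ c' (1 - s - t) + s Λ p + t Λ q < 0`
(`s + t ≥ 1`), so `|w - cs|² - r² < |w - c'|² - 1 ≤ 0`, a contradiction to `r ≤ |w - cs|`.  -/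
def SpecQRY : Prop := ∀ (cs c' P Q w : ℂ) (r : ℝ), 0 < r → r ≤ 1 → ‖P‖ = 1 → ‖Q‖ = 1 →
  0 < dot P (c' + P) → 0 < dot Q (c' + Q) → crs P Q < 0 → 0 < crs (c' + P) (c' + Q) →
  ‖c' + P - cs‖ < r → ‖c' + Q - cs‖ < r → ‖w - c'‖ ≤ 1 → r ≤ ‖w - cs‖ →
  0 < crs (c' + P) w ∧ 0 < crs w (c' + Q)

/-- LNS [60].  The lens of two points lies in every disc of radius `≤ 1` whose circle contains them.

Proof.  Let `M = (w₁ + w₂)/2`, `2 L = |w₁ - w₂|`, `n` a unit vector orthogonal to `w₁ - w₂`,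
`cs = M + s n`, `r² = L² + s²`, so `|s| ≤ √(1 - L²) ≤ κ L` (from `κ² + 1 ≥ 1 / L²`).
`dot (w₁ - p) (w₂ - p) = |p - M|² - L²`, `|crs (w₁ - p) (w₂ - p)| = 2 L |y|`, `y = dot n (p - M)`.
`|p - cs|² - r² = |p - M|² - 2 s y - L² ≤ (|p - M|² - L²) + 2 κ L |y| < 0`. -/
def SpecLNS : Prop := ∀ (cs w₁ w₂ p : ℂ) (r κ : ℝ), 0 < r → r ≤ 1 → ‖w₁ - cs‖ = r →
  ‖w₂ - cs‖ = r → w₁ ≠ w₂ → 0 ≤ κ → 4 ≤ (κ ^ 2 + 1) * ‖w₁ - w₂‖ ^ 2 →
  dot (w₁ - p) (w₂ - p) + κ * |crs (w₁ - p) (w₂ - p)| < 0 → ‖p - cs‖ < r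

/-- DLM [180].  The maximal disc.

Proof.  `d(c) = infDist c W` is `1`-Lipschitz, `0 < d 0`, `d c ≤ 1` (`Hit`).  `Φ c = d(c)² - |c|²` is
continuous, `Φ c ≤ 1 - |c|²`, so it has a maximum point `cs` (in the closed unit disc);
`Φ cs ≥ Φ 0 = d(0)² > 0`, so `r = d(cs) > |cs|`.  Let `A = {w ∈ W | |w - cs| = r}`: compact, nonempty
(closed set, nearest points exist).  Suppose that `0` is not in the convex hull of `A` (compact
convex): there are a unit vector `v` and `δ > 0` with `dot v w ≤ - δ` on `A`.  For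
all `c`: `Φ c = inf_{w ∈ W} (|w|² - 2 dot c w)` (as `|w - c|² - |c|² = |w|² - 2 dot c w`).  For
`c = cs + t v`, `t > 0` small: for `w ∈ W` with `|w - cs| ≤ r + η` (`η` so small that
`dot v w ≤ - δ/2` for these `w`, by compactness) the value is `≥ Φ cs + t δ`; for
`|w - cs| ≥ r + η`: `|w - cs - t v|² - |cs + t v|² ≥ (r + η - t)² - (|cs| + t)²
> r² - |cs|²` for small `t`.  So `Φ (cs + t v) > Φ cs`, a contradiction. -/
def SpecDLM : Prop := ∀ W : Set ℂ, IsClosed W → (0 : ℂ) ∉ W → Hit W →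
  ∃ (cs : ℂ) (r : ℝ), 0 < r ∧ r ≤ 1 ∧ ‖cs‖ < r ∧ (∀ w ∈ W, r ≤ ‖w - cs‖) ∧
    (0 : ℂ) ∈ convexHull ℝ {w | w ∈ W ∧ ‖w - cs‖ = r}

/-- DLC [180].  Two or three directions (no other module).

Proof.  Caratheodory (`convexHull_eq_union`): `0 = ∑ λ_i w_i` with positive weights and affinely
independent `w_i`, so at most three points (`finrank ℝ ℂ = 2`), and at least two because
`w_i ≠ 0`.  Two: `w_2` is a negative multiple of `w_1`.  Three: from `∑ λ_i w_i = 0`,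
`λ_2 crs w_1 w_2 = λ_3 crs w_3 w_1` and cyclic, so `crs w_1 w_2`, `crs w_2 w_3`, `crs w_3 w_1` have the
same sign; they are not zero (otherwise all three points are on a line through `0`, not affinely
independent); after exchanging `w_2, w_3` they are positive.
Then `arg (w_2 / w_1), arg (w_3 / w_2), arg (w_1 / w_3) ∈ (0, π)`, and their sum is a multiple of
`2 π` in `(0, 3 π)`, so it is `2 π`; `w_1 = pt ρ₁ θ` with `θ = arg w_1`, `ρ₁ = log |w_1|` etc. -/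
def SpecDLC : Prop := ∀ A : Set ℂ, (0 : ℂ) ∉ A → (0 : ℂ) ∈ convexHull ℝ A →
  (∃ θ ρ₁ ρ₂ : ℝ, pt ρ₁ θ ∈ A ∧ pt ρ₂ (θ + π) ∈ A) ∨
  ∃ θ a₁ a₂ a₃ ρ₁ ρ₂ ρ₃ : ℝ, 0 < a₁ ∧ a₁ < 1 ∧ 0 < a₂ ∧ a₂ < 1 ∧ 0 < a₃ ∧ a₃ < 1 ∧
    a₁ + a₂ + a₃ = 2 ∧ pt ρ₁ θ ∈ A ∧ pt ρ₂ (θ + π * a₁) ∈ A ∧ pt ρ₃ (θ + π * (a₁ + a₂)) ∈ A

/-- SCL [120].  Normalisation.

Proof.  If `S₁ < ofReal τ` there is a univalent starlike `g` with `rho g < ofReal τ`; so no open disc
of radius `τ` is contained in `g(D)`.  Put `f z = g z / τ`, `R = 1/τ`, `W = (f(D))ᶜ`.  `W` is closed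
(`g(D)` is open, INV in the parent directory), `0 ∉ W`, `StarC` from `StarConvex`.  `Hit`: the open
disc of radius `τ` about `τ c` is not contained in `g(D)`. -/
def SpecSCL : Prop := ∀ τ : ℝ, 0 < τ → S₁ < ENNReal.ofReal τ →
  ∃ f : ℂ → ℂ, Cmap f (1 / τ) ∧ IsClosed (f '' ball 0 1)ᶜ ∧ (0 : ℂ) ∉ (f '' ball 0 1)ᶜ ∧
    StarC (f '' ball 0 1)ᶜ ∧ Hit (f '' ball 0 1)ᶜ

end

end Pool.Agent.Lib.MP250511.ST
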