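import Pool.Agent.Lib.MP_250511_an.ST.Spec

/-!
Problem MP_250511_an, Q2, part 2: the query game in one sector (semantic rules of the certificate).
Own lemmas of module `XXX` in `namespace Pool.Agent.Lib.MP250511.ST.XXXM`.
-/

set_option autoImplicit false

namespace Pool.Agent.Lib.MP250511.ST

open Complex Metric Set MeasureTheory Filter Topology
open scoped Real ENNReal

noncomputable section

/-- the unit vector with argument `π u` -/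
def ee (u : ℝ) : ℂ := exp ((π * u : ℝ) * I)

/-- The configuration of one sector; its bisector is the positive real axis, its opening is `π α`,
the tips are `e^{ρ₁} ee (-α/2)` and `e^{ρ₂} ee (α/2)`; they lie on the circle `|w - cs| = r ≤ 1`
whose interior contains `0` and no point of `W`. -/
structure Cfg (W : Set ℂ) (cs : ℂ) (r α ρ₁ ρ₂ : ℝ) : Prop where
  star : StarC W
  hit : Hit W
  r0 : 0 < r
  r1 : r ≤ 1
  cen : ‖cs‖ < r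
  emp : ∀ w ∈ W, r ≤ ‖w - cs‖
  al0 : 0 < α
  al1 : α ≤ 1
  m1 : pt ρ₁ (-(π * (α / 2))) ∈ W
  m2 : pt ρ₂ (π * (α / 2)) ∈ W
  c1 : ‖pt ρ₁ (-(π * (α / 2))) - cs‖ = r
  c2 : ‖pt ρ₂ (π * (α / 2)) - cs‖ = r

/-- A slit with direction in `[lo, hi)`, found by the query of the closed unit disc about `c`; the
line `dot w ν = 1 + dot c ν` is tangent to this disc. -/
structure Slt where
  lo : ℝ
  hi : ℝ
  c : ℂ
  ν : ℂ

/-- logarithm of the modulus of the point of the tangent line in direction `u` -/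
def Slt.tip (s : Slt) (u : ℝ) : ℝ := Real.log ((1 + dot s.c s.ν) / dot (ee u) s.ν)

/-- admissible slit data -/
structure Slt.Ok (s : Slt) : Prop where
  lt : s.lo < s.hi
  un : ‖s.ν‖ = 1
  ps : 0 < 1 + dot s.c s.ν
  dt : ∀ u : ℝ, s.lo ≤ u → u ≤ s.hi → 0 < dot (ee u) s.ν

/-- a box of parameters: `a1 ≤ |w₁| ≤ b1`, `a2 ≤ |w₂| ≤ b2`, `α₀ ≤ α ≤ α₁` -/
structure Box where
  a1 : ℝ
  b1 : ℝ
  a2 : ℝ
  b2 : ℝ
  α₀ : ℝ
  α₁ : ℝ

/-- a potential: the bound `c ≤ A₀ + A₁ α + g₁ ρ₁ + g₂ ρ₂` -/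
structure Ptl where
  A₀ : ℝ
  A₁ : ℝ
  g₁ : ℝ
  g₂ : ℝ

/-- the potential `p` is an upper bound of `c` in the box if slits with the data `S` are known -/
def Good (b : Box) (p : Ptl) (S : List Slt) : Prop :=
  ∀ (W : Set ℂ) (cs : ℂ) (r α ρ₁ ρ₂ : ℝ), Cfg W cs r α ρ₁ ρ₂ →
    b.a1 ≤ Real.exp ρ₁ → Real.exp ρ₁ ≤ b.b1 → b.a2 ≤ Real.exp ρ₂ → Real.exp ρ₂ ≤ b.b2 →
    b.α₀ ≤ α → α ≤ b.α₁ →
    ∀ us : List ℝ,
      List.Forall₂ (fun (s : Slt) (u : ℝ) => s.lo ≤ u ∧ u < s.hi ∧ pt (s.tip u) (π * u) ∈ W) S us →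
      us.Pairwise (· < ·) → (∀ u ∈ us, -(α / 2) < u ∧ u < α / 2) →
      SecVal W (-(π * (α / 2))) α (α / 2 * (p.A₀ + p.A₁ * α + p.g₁ * ρ₁ + p.g₂ * ρ₂))

/-- directions: `-α/2, v 0, .., v (n-1), α/2` -/
def ex {n : ℕ} (α : ℝ) (v : Fin n → ℝ) : Fin (n + 2) → ℝ :=
  Fin.cons (-(α / 2)) (Fin.snoc v (α / 2))

/-- gaps between the directions -/
def gp {n : ℕ} (α : ℝ) (v : Fin n → ℝ) : Fin (n + 1) → ℝ :=
  fun l => ex α v l.succ - ex α v l.castSucc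

/-- the leaf inequality at the vertex `(α, v)` -/
def Vert (b : Box) (p : Ptl) (S : List Slt) (Q : Fin (S.length + 2) → ℝ) (α : ℝ)
    (v : Fin S.length → ℝ) : Prop :=
  ∃ (N R₁ R₂ : ℝ),
    (∀ (X : Fin (S.length + 2) → ℝ) (B : Fin (S.length + 1) → ℝ), Inter S.length X B →
      ∑ j, Q j * HH (gp α v) B (X j) ≤ N) ∧
    (Q 0 - p.g₁) * Real.log b.b1 ≤ R₁ ∧
    (p.g₁ ≤ Q 0 ∨ (0 < b.a1 ∧ (Q 0 - p.g₁) * Real.log b.a1 ≤ R₁)) ∧
    (Q (Fin.last _) - p.g₂) * Real.log b.b2 ≤ R₂ ∧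
    (p.g₂ ≤ Q (Fin.last _) ∨ (0 < b.a2 ∧ (Q (Fin.last _) - p.g₂) * Real.log b.a2 ≤ R₂)) ∧
    R₁ + R₂ + ∑ k : Fin S.length, Q k.succ.castSucc * (S.get k).tip (v k) + N ≤ p.A₀ + p.A₁ * α

/-- the lens condition for `p`, all parameters in the box -/
def Lens (b : Box) (κ : ℝ) (p : ℂ) : Prop :=
  ∀ r₁ r₂ α : ℝ, b.a1 ≤ r₁ → r₁ ≤ b.b1 → b.a2 ≤ r₂ → r₂ ≤ b.b2 → b.α₀ ≤ α → α ≤ b.α₁ →
    ‖(r₁ : ℂ) * ee (-(α / 2)) - r₂ * ee (α / 2)‖ ≤ 2 →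
    4 ≤ (κ ^ 2 + 1) * ‖(r₁ : ℂ) * ee (-(α / 2)) - r₂ * ee (α / 2)‖ ^ 2 ∧
    dot (r₁ * ee (-(α / 2)) - p) (r₂ * ee (α / 2) - p) +
      κ * |crs (r₁ * ee (-(α / 2)) - p) (r₂ * ee (α / 2) - p)| < 0

/-- a valid query: closed unit disc about `c`, back points `c + P`, `c + Q`, directions of the
answer in `(um, up)` -/
structure Query (b : Box) (c P Q : ℂ) (κ um up : ℝ) : Prop where
  k0 : 0 ≤ κ
  a1 : 0 < b.a1
  a2 : 0 < b.a2
  pn : ‖P‖ = 1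
  qn : ‖Q‖ = 1
  pf : 0 < dot P (c + P)
  qf : 0 < dot Q (c + Q)
  bk : crs P Q < 0
  cn : 0 < crs (c + P) (c + Q)
  lp : Lens b κ (c + P)
  lq : Lens b κ (c + Q)
  lt : um < up
  lo : -(b.α₀ / 2) ≤ um
  hi : up ≤ b.α₀ / 2
  d1 : 0 ≤ crs (ee um) (c + P)
  d2 : 0 < dot (ee um) (c + P)
  d3 : 0 ≤ crs (c + Q) (ee up)
  d4 : 0 < dot (c + Q) (ee up)

/-! ## Modules -/

/-- TCX [80].  The tip function is convex.

Proof.  `s.tip u = log (1 + dot c ν) - log (dot (ee u) ν)` and `dot (ee u) ν = cos (π u - φ)`,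
`ν = exp (i φ)`; this is concave where it is positive (second derivative `- π² cos ≤ 0`), and the
logarithm of a positive concave function is concave. -/
def SpecTCX : Prop := ∀ s : Slt, s.Ok → ConvexOn ℝ (Icc s.lo s.hi) s.tip

/-- VTX [80].  Separately convex functions on a product of intervals.

Proof.  Induction over the number of coordinates that are not end points: replace them one by one
by an end point without decreasing the value (a convex function on `[lo, hi]` is at most the maximum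
of its values at the end points, `ConvexOn.le_max_of_mem_Icc`). -/
def SpecVTX : Prop := ∀ (m : ℕ) (lo hi : Fin m → ℝ) (F : (Fin m → ℝ) → ℝ), (∀ i, lo i ≤ hi i) →
  (∀ (i : Fin m) (v : Fin m → ℝ), (∀ k, v k ∈ Icc (lo k) (hi k)) →
    ConvexOn ℝ (Icc (lo i) (hi i)) (fun t => F (Function.update v i t))) →
  (∀ v : Fin m → ℝ, (∀ k, v k = lo k ∨ v k = hi k) → F v ≤ 0) →
  ∀ v : Fin m → ℝ, (∀ k, v k ∈ Icc (lo k) (hi k)) → F v ≤ 0

/-- LEF [200].  The leaf rule (from QFM, TCX, VTX).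

Proof.  Let a configuration and `us` be given, `v k = us[k]`, `a = gp α v` (positive: `us` is
increasing, inside `(-α/2, α/2)`), `ρ 0 = ρ₁`, `ρ last = ρ₂`, `ρ (k+1) = tip_k (v k)`.  The points
`pt (ρ j) (-π α/2 + π psum a j)` are in `W` because `psum (gp α v) j = ex α v j + α/2` (telescoping).
By QFM with `V = A₀ + A₁ α + g₁ ρ₁ + g₂ ρ₂` it is enough to show for every interlacing `X, B`:
`∑ Q_j ρ_j + ∑ Q_j HH (gp α v) B (X j) ≤ V`.  Since `log a1 ≤ ρ₁ ≤ log b1`,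
`(Q 0 - g₁) ρ₁ ≤ R₁` for every `R₁` as in `Vert` (affine function; if `g₁ ≤ Q 0` only the upper end
matters), the same for `ρ₂`; so take `R₁ = sup` over the `ρ₁` in question, i.e. fix `ρ₁, ρ₂` and show
`F (α, v) = (Q 0 - g₁) ρ₁ + (Q last - g₂) ρ₂ + ∑ Q (k+1) tip_k (v k) + ∑ Q_j HH (gp α v) B (X j)
- A₀ - A₁ α ≤ 0`.  `F` is separately convex in `α` (affine, `HH` is linear in `a`) and in every `v k`
(affine plus a convex function, TCX), so by VTX it is enough to consider the vertices, and there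
`F ≤ R₁ + R₂ + ∑ Q tip + N - A₀ - A₁ α ≤ 0`. -/
def SpecLEF : Prop := ∀ (b : Box) (p : Ptl) (S : List Slt) (Q : Fin (S.length + 2) → ℝ),
  b.α₀ ≤ b.α₁ → (∀ s ∈ S, s.Ok) → (∀ j, 0 ≤ Q j) → ∑ j, Q j = 1 →
  (∀ (α : ℝ) (v : Fin S.length → ℝ), (α = b.α₀ ∨ α = b.α₁) →
    (∀ k, v k = (S.get k).lo ∨ v k = (S.get k).hi) → Vert b p S Q α v) →
  Good b p S

/-- CEW [80].  The bound `N` from a dual certificate `w`.

Proof.  `X j - B l` is positive iff `j ≤ l`, so `w j l * (X j - B l) = |w j l| |X j - B l|`.  For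
`p = Q j * a l > 0`: `p log (2 |X - B|) = p log (2 p / |w|) + p log (|w| |X - B| / p) ≤
p (log (2 p / |w|) - 1) + w (X - B)` (`log t ≤ t - 1`); for `p = 0` both sides are `0 ≤ |w| |X - B|`.
Sum over `j, l`: `∑ w j l X j - ∑ w j l B l`; the second sum is `0` by `col`, and in the first only
`j = 0` (`X = 1`) and `j = n + 1` (`X = -1`) remain by `row`. -/
def SpecCEW : Prop := ∀ (n : ℕ) (a : Fin (n + 1) → ℝ) (Q : Fin (n + 2) → ℝ)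
  (w : Fin (n + 2) → Fin (n + 1) → ℝ), (∀ l, 0 ≤ a l) → (∀ j, 0 ≤ Q j) →
  (∀ (j : Fin (n + 2)) (l : Fin (n + 1)), (j : ℕ) ≤ l → 0 < w j l) →
  (∀ (j : Fin (n + 2)) (l : Fin (n + 1)), (l : ℕ) < j → w j l < 0) →
  (∀ l, ∑ j, w j l = 0) →
  (∀ j, j ≠ 0 → j ≠ Fin.last (n + 1) → ∑ l, w j l = 0) →
  ∀ (X : Fin (n + 2) → ℝ) (B : Fin (n + 1) → ℝ), Inter n X B →
  ∑ j, Q j * HH a B (X j) ≤
    ∑ j, ∑ l, Q j * a l * (Real.log (2 * (Q j * a l) / |w j l|) - 1) +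
      ∑ l, (w 0 l - w (Fin.last (n + 1)) l)

/-- QUA [150].  The answer of a valid query (from QRY, LNS).

Proof.  `w₁ = pt ρ₁ (-π α/2) = e^{ρ₁} ee (-α/2)`, `w₂` similarly, `‖w₁ - w₂‖ ≤ 2 r ≤ 2`, `w₁ ≠ w₂`
(`0 < α ≤ 1`).  By LNS the points `c + P`, `c + Q` are in the open disc `|x - cs| < r`.  Let
`w ∈ W`, `‖w - c‖ ≤ 1` (`Hit`).  QRY: `crs (c + P) w > 0`, `crs w (c + Q) > 0`, in particular
`w ≠ 0`.  Directions: let `δ₁ ∈ [0, π/2)` be the angle from `ee um` to `c + P`, `δ₂ ∈ (0, π)` from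
`c + P` to `w`, `δ₃ ∈ (0, π)` from `w` to `c + Q`, `δ₄ ∈ [0, π/2)` from `c + Q` to `ee up`; `δ₂ + δ₃ < π`
(`crs (c + P) (c + Q) > 0`), so `0 < δ₁ + .. + δ₄ < 2 π`, and the sum is congruent to
`π (up - um) ∈ (0, π]` modulo `2 π`, so it is equal to it.  Hence `w = |w| ee u` with
`π u = π um + δ₁ + δ₂`, `um < u < up`. -/
def SpecQUA : Prop := ∀ (b : Box) (c P Q : ℂ) (κ um up : ℝ), Query b c P Q κ um up →
  ∀ (W : Set ℂ) (cs : ℂ) (r α ρ₁ ρ₂ : ℝ), Cfg W cs r α ρ₁ ρ₂ →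
    b.a1 ≤ Real.exp ρ₁ → Real.exp ρ₁ ≤ b.b1 → b.a2 ≤ Real.exp ρ₂ → Real.exp ρ₂ ≤ b.b2 →
    b.α₀ ≤ α → α ≤ b.α₁ →
    ∃ ρ u : ℝ, um < u ∧ u < up ∧ pt ρ (π * u) ∈ W ∧ ‖pt ρ (π * u) - c‖ ≤ 1

/-- QUE [150].  The query rule (from QUA).

Proof.  Let a configuration and `us` for `S` be given.  QUA gives `ρ, u`; take `s, S₁, S₂` of the
cover condition for `u`.  `w = pt ρ (π u)`: `e^ρ dot (ee u) ν = dot w ν = dot (w - c) ν + dot c ν ≤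
1 + dot c ν`, so `ρ ≤ s.tip u`, and `pt (s.tip u) (π u) ∈ W` by `StarC`.  The sublist `S₁ ++ S₂` of `S`
corresponds to a sublist `us₁ ++ us₂` of `us` (`List.Forall₂` and sublists), the directions in `us₁` are
`< hi ≤ s.lo ≤ u`, those in `us₂` are `≥ lo ≥ s.hi > u`; so `us₁ ++ u :: us₂` is increasing.
`-(α/2) ≤ um < u`, `u < up ≤ α/2`.  Apply `Good b (S₁ ++ s :: S₂)`. -/
def SpecQUE : Prop := ∀ (b : Box) (p : Ptl) (S : List Slt) (c P Q : ℂ) (κ um up : ℝ),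
  Query b c P Q κ um up →
  (∀ u : ℝ, um < u → u < up → ∃ (s : Slt) (S₁ S₂ : List Slt), s.c = c ∧ s.Ok ∧ s.lo ≤ u ∧
    u < s.hi ∧ (S₁ ++ S₂).Sublist S ∧ (∀ t ∈ S₁, t.hi ≤ s.lo) ∧ (∀ t ∈ S₂, s.hi ≤ t.lo) ∧
    Good b p (S₁ ++ s :: S₂)) →
  Good b p S

/-- EMB [40].  Empty boxes.

Proof.  `‖w₁ - w₂‖² = r₁² + r₂² - 2 r₁ r₂ cos (π α)` is at most `(2 r)² ≤ 4`, and for `α ≥ 1/2` it is
increasing in `r₁`, `r₂`, `α`. -/
def SpecEMB : Prop := ∀ (b : Box) (p : Ptl) (S : List Slt), 0 ≤ b.a1 → 0 ≤ b.a2 →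
  1 / 2 ≤ b.α₀ → 4 < b.a1 ^ 2 + b.a2 ^ 2 - 2 * b.a1 * b.a2 * Real.cos (π * b.α₀) →
  Good b p S

/-- LCH [150].  A checkable form of the lens condition (`σ = ±1`).

Proof.  Let `l² = ‖w₁ - w₂‖² = r₁² + r₂² - 2 r₁ r₂ cos (π α)`; it is increasing in `r₁, r₂, α` for
`α ≥ 1/2`, which gives the first claim from `k`.  `|crs| = max (crs) (- crs)`.  For `σ = ±1`:
`E = dot (w₁ - p) (w₂ - p) + σ κ crs (w₁ - p) (w₂ - p)
= r₁ r₂ (cos (π α) + σ κ sin (π α)) - r₁ (dot (ee (-α/2)) p + σ κ crs (ee (-α/2)) p)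
- r₂ (dot (ee (α/2)) p + σ κ crs p (ee (α/2))) + |p|²`.  For fixed `α` it is affine in `r₁` and in `r₂`, so
it is enough to consider the four vertices `(r₁, r₂)`.  As a function of `α` it has the form
`x + y cos (π α) + z sin (π α) + y' cos (π α/2) + z' sin (π α/2)` with second derivative at
most `K = π² √(1 + κ²) (r₁ r₂ + (r₁ + r₂) |p| / 4)` in absolute value, so on `[α₀, α₁]` it is at most
the maximum of the end point values plus `K (α₁ - α₀)² / 8`.  (`E` at an end point is the expression in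
`vt`.)  The bound `π² ≤ 10`. -/
def SpecLCH : Prop := ∀ (b : Box) (κ η : ℝ) (p : ℂ), 0 ≤ κ → 0 < b.a1 → b.a1 ≤ b.b1 → 0 < b.a2 →
  b.a2 ≤ b.b2 → 1 / 2 ≤ b.α₀ → b.α₀ ≤ b.α₁ → b.α₁ ≤ 1 →
  4 ≤ (κ ^ 2 + 1) * (b.a1 ^ 2 + b.a2 ^ 2 - 2 * b.a1 * b.a2 * Real.cos (π * b.α₀)) →
  10 * Real.sqrt (1 + κ ^ 2) * (b.b1 * b.b2 + (b.b1 + b.b2) * ‖p‖ / 4) * (b.α₁ - b.α₀) ^ 2 / 8
    ≤ η →
  (∀ r₁ r₂ α σ : ℝ, (r₁ = b.a1 ∨ r₁ = b.b1) → (r₂ = b.a2 ∨ r₂ = b.b2) → (α = b.α₀ ∨ α = b.α₁) →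
    (σ = 1 ∨ σ = -1) →
    r₁ * r₂ * (Real.cos (π * α) + σ * κ * Real.sin (π * α)) -
      r₁ * (dot (ee (-(α / 2))) p + σ * κ * crs (ee (-(α / 2))) p) -
      r₂ * (dot (ee (α / 2)) p + σ * κ * crs p (ee (α / 2))) + ‖p‖ ^ 2 + η < 0) →
  Lens b κ p

/-- BAS [100].  Sectors without inner slits, arbitrary weights (from QFM; or directly).

Proof.  QFM with `n = 0`, `a = (α)`, weights `q, 1 - q`: `X = (1, -1)`, `B = (x)`, and
`q log (2 (1 - x)) + (1 - q) log (2 (1 + x)) ≤ log 4 + q log q + (1 - q) log (1 - q)` by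
`log t ≤ t - 1` for `t = (1 - x)/(2 q)` and `t = (1 + x)/(2 (1 - q))`. -/
def SpecBAS : Prop := ∀ (W : Set ℂ) (θ α ρ₁ ρ₂ q : ℝ), 0 < α → 0 < q → q < 1 →
  pt ρ₁ θ ∈ W → pt ρ₂ (θ + π * α) ∈ W →
  SecVal W θ α (α / 2 * (q * ρ₁ + (1 - q) * ρ₂ +
    α * (Real.log 4 + q * Real.log q + (1 - q) * Real.log (1 - q))))

/-- ROT2 [60].  Rotation and reflection of the sector certificate.

Proof.  Rotation: `pt ρ (θ + φ) = exp (φ I) pt ρ θ`.  (The reflection is not needed.) -/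
def SpecROR : Prop := ∀ (W : Set ℂ) (θ φ α v : ℝ), SecVal {w | exp ((φ : ℂ) * I) * w ∈ W} θ α v →
  SecVal W (θ + φ) α v

end

end Pool.Agent.Lib.MP250511.ST
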