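import Pool.Agent.Lib.MP_250511_an.ST.Spec2

/-!
Problem MP_250511_an, Q2, part 3: the final inequality (three sectors) and the assembly.
Own lemmas of module `XXX` in `namespace Pool.Agent.Lib.MP250511.ST.XXXM`.
-/

set_option autoImplicit false

namespace Pool.Agent.Lib.MP250511.ST

open Complex Metric Set MeasureTheory Filter Topology
open scoped Real ENNReal

noncomputable section

/-- the potential `p` is valid for all sectors with opening in `[α₀, α₁]` -/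
def Valid (p : Ptl) (α₀ α₁ : ℝ) : Prop :=
  ∀ (W : Set ℂ) (cs : ℂ) (r α ρ₁ ρ₂ : ℝ), Cfg W cs r α ρ₁ ρ₂ → α₀ ≤ α → α ≤ α₁ →
    SecVal W (-(π * (α / 2))) α (α / 2 * (p.A₀ + p.A₁ * α + p.g₁ * ρ₁ + p.g₂ * ρ₂))

/-- The data of a cell `[x₀, x₁] × [y₀, y₁]` in the plane of the openings `(α₁, α₂)` of the sectors
`A` (from `e₁ = ee (-α₁)` to `e₂ = 1`) and `B` (from `e₂` to `e₃ = ee α₂`); the sector `C` (from `e₃`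
to `e₁`) has the opening `2 - α₁ - α₂`.  `n₁ n₂ n₃` are unit vectors. -/
structure Cell where
  x₀ : ℝ
  x₁ : ℝ
  y₀ : ℝ
  y₁ : ℝ
  pA : Ptl
  pB : Ptl
  pC : Ptl
  n₁ : ℂ
  n₂ : ℂ
  n₃ : ℂ

/-- weights of the three tips -/
def Cell.q₁ (k : Cell) (x y : ℝ) : ℝ := ((2 - x - y) * k.pC.g₂ + x * k.pA.g₁) / 2
def Cell.q₂ (k : Cell) (x y : ℝ) : ℝ := (x * k.pA.g₂ + y * k.pB.g₁) / 2
def Cell.q₃ (k : Cell) (x y : ℝ) : ℝ := (y * k.pB.g₂ + (2 - x - y) * k.pC.g₁) / 2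

/-- the part of the bound without `c` -/
def Cell.base (k : Cell) (x y : ℝ) : ℝ :=
  x / 2 * (k.pA.A₀ + k.pA.A₁ * x) + y / 2 * (k.pB.A₀ + k.pB.A₁ * y) +
    (2 - x - y) / 2 * (k.pC.A₀ + k.pC.A₁ * (2 - x - y)) -
    k.q₁ x y * Real.log (dot (ee (-x)) k.n₁) - k.q₂ x y * Real.log (dot 1 k.n₂) -
    k.q₃ x y * Real.log (dot (ee y) k.n₃)

/-- side conditions of a cell; `m₁`, `m₃` are lower bounds of `q₁`, `q₃` -/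
structure Cell.Ok (k : Cell) (m₁ m₃ : ℝ) : Prop where
  hx : 0 ≤ k.x₀ ∧ k.x₀ ≤ k.x₁ ∧ k.x₁ ≤ 1
  hy : 0 ≤ k.y₀ ∧ k.y₀ ≤ k.y₁ ∧ k.y₁ ≤ 1
  u₁ : ‖k.n₁‖ = 1
  u₂ : ‖k.n₂‖ = 1
  u₃ : ‖k.n₃‖ = 1
  d₁ : ∀ x, k.x₀ ≤ x → x ≤ k.x₁ → 0 < dot (ee (-x)) k.n₁
  d₂ : 0 < dot 1 k.n₂
  d₃ : ∀ y, k.y₀ ≤ y → y ≤ k.y₁ → 0 < dot (ee y) k.n₃
  hm₁ : 0 < m₁
  hm₃ : 0 < m₃
  hq₁ : ∀ x y, k.x₀ ≤ x → x ≤ k.x₁ → k.y₀ ≤ y → y ≤ k.y₁ → m₁ ≤ k.q₁ x y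
  hq₂ : ∀ x y, k.x₀ ≤ x → x ≤ k.x₁ → k.y₀ ≤ y → y ≤ k.y₁ → 0 ≤ k.q₂ x y
  hq₃ : ∀ x y, k.x₀ ≤ x → x ≤ k.x₁ → k.y₀ ≤ y → y ≤ k.y₁ → m₃ ≤ k.q₃ x y
  cx : (k.pA.g₁ - k.pC.g₂) ^ 2 / 4 ≤ m₁ * (9.8 * m₁ + k.pA.A₁ + k.pC.A₁)
  cx' : 0 ≤ 9.8 * m₁ + k.pA.A₁ + k.pC.A₁
  cy : (k.pB.g₂ - k.pC.g₁) ^ 2 / 4 ≤ m₃ * (9.8 * m₃ + k.pB.A₁ + k.pC.A₁)
  cy' : 0 ≤ 9.8 * m₃ + k.pB.A₁ + k.pC.A₁

/-- the inequality at a vertex of a cell -/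
def Cell.Vtx (k : Cell) (V x y : ℝ) : Prop :=
  ∃ μ₁ μ₂ μ₃ : ℝ, 0 < μ₁ ∧ 0 < μ₂ ∧ 0 < μ₃ ∧
    k.base x y + (k.q₁ x y * (Real.log (k.q₁ x y / μ₁) - 1) + μ₁) +
      (k.q₂ x y * (Real.log (k.q₂ x y / μ₂) - 1) + μ₂) +
      (k.q₃ x y * (Real.log (k.q₃ x y / μ₃) - 1) + μ₃) +
      ‖(μ₁ : ℂ) * k.n₁ + μ₂ * k.n₂ + μ₃ * k.n₃‖ ≤ V

/-- CVX [120].  Convexity of `-(a + b x) log (dot (ee (s x)) n) + A x² / 2` (`s = ±1`).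

Proof.  `dot (ee (s x)) n = cos (π s x - φ)`, `n = exp (i φ)`.  Second derivative:
`2 b s π tan + (a + b x) π² (1 + tan²) + A`, `tan = tan (π s x - φ)`.  With `Q = a + b x ≥ m > 0`:
`Q π² t² + 2 b π s t + (Q π² + A) ≥ 0` for all real `t` because
`b² π² ≤ Q π² (Q π² + A)`: `Q (Q π² + A) ≥ m (9.8 m + A) ≥ b²` (`9.8 ≤ π²`, and
`Q ↦ Q (9.8 Q + A)` is increasing for `Q ≥ m` since `9.8 m + A ≥ 0`). -/
def SpecCVX : Prop := ∀ (a b A m s x₀ x₁ : ℝ) (n : ℂ), (s = 1 ∨ s = -1) → ‖n‖ = 1 → 0 < m →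
  (∀ x, x₀ ≤ x → x ≤ x₁ → m ≤ a + b * x) →
  (∀ x, x₀ ≤ x → x ≤ x₁ → 0 < dot (ee (s * x)) n) →
  0 ≤ 9.8 * m + A → b ^ 2 ≤ m * (9.8 * m + A) →
  ConvexOn ℝ (Icc x₀ x₁)
    (fun x => -((a + b * x) * Real.log (dot (ee (s * x)) n)) + A * x ^ 2 / 2)

/-- CEL [200].  One cell (from CVX).

Proof.  `e^{ρ₁} dot e₁ n₁ = dot w₁ n₁ ≤ dot cs n₁ + r ≤ 1 + dot c n₁` with `c = cs / r`
(`r (1 + dot c n₁) ≤ 1 + dot c n₁`, `|c| < 1`), so `ρ₁ ≤ log (1 + dot c n₁) - log (dot e₁ n₁)`, and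
similarly `ρ₂, ρ₃`.  As `q_j ≥ 0` the left-hand side is at most
`G(x, y) = base x y + ∑ q_j(x, y) log (1 + dot c n_j)`.  For fixed `c` and `y` this is convex in `x`
(CVX with `s = -1`, `a + b x = q₁`, `b = (pA.g₁ - pC.g₂)/2`, `A = pA.A₁ + pC.A₁`, plus affine terms;
`q₂, q₃` are affine in `x`, their logarithms do not depend on `x`), and for fixed `x` convex in `y`
(`s = 1`).  So `G` is at most the maximum of its values at the four vertices.  At a vertex: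
`q log (1 + t) ≤ q (log (q/μ) - 1) + μ (1 + t)` (`log z ≤ z - 1` with `z = μ (1 + t)/q`; for `q = 0`
clear), and `∑ μ_j dot c n_j = dot c (∑ μ_j n_j) ≤ ‖∑ μ_j n_j‖`. -/
def SpecCEL : Prop := ∀ (k : Cell) (m₁ m₃ V : ℝ), k.Ok m₁ m₃ →
  k.Vtx V k.x₀ k.y₀ → k.Vtx V k.x₀ k.y₁ → k.Vtx V k.x₁ k.y₀ → k.Vtx V k.x₁ k.y₁ →
  ∀ (cs : ℂ) (r x y ρ₁ ρ₂ ρ₃ : ℝ), 0 < r → r ≤ 1 → ‖cs‖ < r →
    k.x₀ ≤ x → x ≤ k.x₁ → k.y₀ ≤ y → y ≤ k.y₁ →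
    ‖pt ρ₁ (-(π * x)) - cs‖ = r → ‖pt ρ₂ 0 - cs‖ = r → ‖pt ρ₃ (π * y) - cs‖ = r →
    x / 2 * (k.pA.A₀ + k.pA.A₁ * x + k.pA.g₁ * ρ₁ + k.pA.g₂ * ρ₂) +
      y / 2 * (k.pB.A₀ + k.pB.A₁ * y + k.pB.g₁ * ρ₂ + k.pB.g₂ * ρ₃) +
      (2 - x - y) / 2 * (k.pC.A₀ + k.pC.A₁ * (2 - x - y) + k.pC.g₁ * ρ₃ + k.pC.g₂ * ρ₁) ≤ V

/-- The final certificate: cells cover all pairs `(x, y)` in question and every potential is valid in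
its cell (`V` is the bound of `log R`). -/
def Cover (V : ℝ) : Prop :=
  ∀ x y : ℝ, 0 < x → x < 1 → 0 < y → y < 1 → 0 < 2 - x - y → 2 - x - y ≤ x → 2 - x - y ≤ y →
    ∃ (k : Cell) (m₁ m₃ : ℝ), k.Ok m₁ m₃ ∧ k.x₀ ≤ x ∧ x ≤ k.x₁ ∧ k.y₀ ≤ y ∧ y ≤ k.y₁ ∧
      k.Vtx V k.x₀ k.y₀ ∧ k.Vtx V k.x₀ k.y₁ ∧ k.Vtx V k.x₁ k.y₀ ∧ k.Vtx V k.x₁ k.y₁ ∧
      Valid k.pA x x ∧ Valid k.pB y y ∧ Valid k.pC (2 - x - y) (2 - x - y)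

/-- exchange of the two sides -/
def Ptl.flip (p : Ptl) : Ptl := ⟨p.A₀, p.A₁, p.g₂, p.g₁⟩

/-- the parameters `(r₁, r₂, α)` are in the box -/
def Box.Has (b : Box) (r₁ r₂ α : ℝ) : Prop :=
  b.a1 ≤ r₁ ∧ r₁ ≤ b.b1 ∧ b.a2 ≤ r₂ ∧ r₂ ≤ b.b2 ∧ b.α₀ ≤ α ∧ α ≤ b.α₁

/-- REF [150].  Reflection of a sector in the real axis.

Proof.  From the data `n, a, B, ρ, c` for the reflected set take `a' l = a (rev l)`,
`B' l = - B (rev l)`, `ρ' j = ρ (n + 1 - j)`, the same `c`.  `pt ρ' (-π α/2 + π psum a' j)` is the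
conjugate of `pt (ρ (n+1-j)) (-π α/2 + π psum a (n+1-j))` because `psum a' j = α - psum a (n + 1 - j)`.
`B'` is strictly decreasing, `HH a' B' X = HH a B (-X)`, and `cnt B' X = n + 1 - cnt B (-X)` if `X` is none of
the `B' l`. -/
def SpecREF : Prop := ∀ (W : Set ℂ) (α v : ℝ),
  SecVal {w | (starRingEnd ℂ) w ∈ W} (-(π * (α / 2))) α v → SecVal W (-(π * (α / 2))) α v

/-- PTV [120].  From the boxes to the potential (from REF).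

Proof.  `|w_i| ≤ |cs| + r < 2 r ≤ 2`, so `0 < e^{ρ_i} ≤ 2`.  In the first case apply `Good b p []`
with `us = []`.  In the second case apply `Good b p.flip []` to the reflected set
`{w | conj w ∈ W}` with the reflected centre, `ρ₂`, `ρ₁` in this order, and REF.  The second claim follows
from the first in the same way (reflect once more: `Valid p` implies `Valid p.flip`). -/
def SpecPTV : Prop := ∀ (p : Ptl) (α₀ α₁ : ℝ),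
  (∀ r₁ r₂ α : ℝ, 0 < r₁ → r₁ ≤ 2 → 0 < r₂ → r₂ ≤ 2 → α₀ ≤ α → α ≤ α₁ →
    ∃ b : Box, (Good b p [] ∧ b.Has r₁ r₂ α) ∨ (Good b p.flip [] ∧ b.Has r₂ r₁ α)) →
  Valid p α₀ α₁ ∧ Valid p.flip α₀ α₁

/-- VBA [60].  The potentials of BAS are valid (from BAS).

Proof.  BAS with `θ = -π α/2`; only `m1`, `m2`, `al0` of the configuration are used. -/
def SpecVBA : Prop := ∀ q : ℝ, 0 < q → q < 1 →
  Valid ⟨0, Real.log 4 + q * Real.log q + (1 - q) * Real.log (1 - q), q, 1 - q⟩ 0 1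

/-- ASM [250].  Assembly (from DUB, DLM, DLC, ROR, CEL, SCL).

Proof.  Suppose `S₁ < ofReal (exp (-V))`; choose `τ > 0` with `S₁ < ofReal τ` and
`τ < exp (-V)`; SCL gives `f`, `R = 1/τ`, `log R > V`; `W` the complement.  DLM and DLC (with
`A = {w ∈ W | ‖w - cs‖ = r}`, `0 ∉ W`).
(A) Two antipodal points, `w₁ = pt ρ₁ θ`, `w₂ = pt ρ₂ (θ + π)`.  Both half planes are sectors with
`α = 1`; rotate by `-(θ + π/2)` and `-(θ + 3π/2)` (ROR; the rotated sets satisfy `Cfg` with the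
rotated centre), apply `Valid p 1 1` and DUB with `m = 2`:
`log R ≤ p.A₀ + p.A₁ + β (ρ₁ + ρ₂)` (`p.g₁ = p.g₂ = β`).  The power of `0`:
`e^{ρ₁ + ρ₂} = r² - |cs|² ≤ 1`, so `ρ₁ + ρ₂ ≤ 0` and `log R ≤ p.A₀ + p.A₁ ≤ V`.
(B) Three directions.  By a cyclic change of the names we may assume that `a₃` is the smallest
opening (then `θ` becomes `θ + π a₁` or `θ + π (a₁ + a₂)`).  Rotate so that `w₂` is on the positive axis.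
`Cover` with `x = a₁`, `y = a₂` gives a cell; the three potentials give three `SecVal` (rotate every
sector to the symmetric position, ROR), DUB with `m = 3` gives `log R ≤` the left-hand side of CEL
`≤ V`.  Contradiction. -/
def SpecASM : Prop := ∀ (V : ℝ) (p : Ptl), Cover V → Valid p 1 1 → p.g₁ = p.g₂ → 0 ≤ p.g₁ →
  p.A₀ + p.A₁ ≤ V → ENNReal.ofReal (Real.exp (-V)) ≤ S₁

end

end Pool.Agent.Lib.MP250511.ST
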