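import Pool.Agent.Lib.MP_250511_an.ST.Chk1

/-!
Problem MP_250511_an, Q2, part 4: soundness of the integer checker.
Own lemmas of module `XXX` in `namespace Pool.Agent.Lib.MP250511.ST.XXXM`; the theorem has the form
`theorem XXX (h₁ : SpecA) .. : SpecXXX`.  The definitions of `Chk0`, `Chk1` are in
`namespace Pool.Agent.Lib.MP250511.ST.Chk`.
-/

set_option autoImplicit false

namespace Pool.Agent.Lib.MP250511.ST.Chk

open Complex Metric Set MeasureTheory Filter Topology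
open scoped Real ENNReal

/-! ## Basic lemmas (proved here) -/

theorem sumTo_eq (n : ℕ) (f : ℕ → ℕ) : sumTo n f = ∑ i ∈ Finset.range n, f i := by
  induction n with
  | zero => rfl
  | succ n ih => rw [Finset.sum_range_succ, ← ih]; rfl

theorem allTo_iff (n : ℕ) (f : ℕ → Bool) : allTo n f = true ↔ ∀ i < n, f i = true := by
  induction n with
  | zero => exact ⟨fun _ i hi => absurd hi (Nat.not_lt_zero i), fun _ => rfl⟩
  | succ n ih =>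
    have h : allTo (n + 1) f = (f n && allTo n f) := rfl
    rw [h, Bool.and_eq_true, ih]
    constructor
    · rintro ⟨h1, h2⟩ i hi
      rcases Nat.lt_succ_iff_lt_or_eq.mp hi with h | h
      · exact h2 i h
      · exact h ▸ h1
    · exact fun h => ⟨h n (Nat.lt_succ_self n), fun i hi => h i (Nat.lt_succ_of_lt hi)⟩

theorem blt_iff (a b : ℕ) : Nat.blt a b = true ↔ a < b := by
  show Nat.ble (Nat.succ a) b = true ↔ a < b
  rw [Nat.ble_eq]; exact Iff.rfl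

theorem beq_iff (a b : ℕ) : Nat.beq a b = true ↔ a = b := Nat.beq_eq ▸ Iff.rfl

noncomputable section

/-! ## Trigonometry and slits -/

/-- TRG [80].  Cosine and sine of a biased direction `v` (from COS).

Proof.  Quadrants: `dst v 2048 = |v - 2048|`, `cos` is even and `cos (π d / 2048)` for
`1024 ≤ d ≤ 3072` is `- cos (π (d - 2048) / 2048)`, etc.; `sin θ = cos (θ - π / 2)`. -/
def SpecTRG : Prop := ∀ v : ℕ, v ≤ 4096 →
  |((cp (dst v 2048) : ℝ) - cn (dst v 2048)) - 2 ^ 30 * Real.cos (π * (((v : ℝ) - 2048) / 2048))| ≤ 2 ∧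
  |((cp (dst v 3072) : ℝ) - cn (dst v 3072)) - 2 ^ 30 * Real.sin (π * (((v : ℝ) - 2048) / 2048))| ≤ 2

/-- HPM [60].  The number `1 + dot c ν` (from TRG). -/
def SpecHPM : Prop := ∀ x yu yv k : ℕ, k ≤ 4096 →
  |(((hp x yu yv k : ℕ) : ℝ) - ((hm x yu yv k : ℕ) : ℝ)) - 2 ^ 39 *
    (1 + dot ⟨(x : ℝ) / 512, ((yu : ℝ) - yv) / 512⟩ (ee (((k : ℝ) - 2048) / 2048)))| ≤
    ((he x yu yv : ℕ) : ℝ)

/-- TIP [150].  New slits are correct (from COS, HPM, LWB, LUB, LN2).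

Proof.  `Slt.Ok`: `dot (ee u) (ee κ) = cos (π (u - κ))` and `|u - κ| < 1/2` for `u` between the ends.
Tip: `log (1 + dot c ν) ≤ log (H / 2³⁹)`, `H = hU`, `2³⁴ + 2³⁰ log H ≤ lu H 31`;
`cos (π (v - k) / 2048) ≥ (cT (dst v k) - 2) / 2³⁰`, `lw (cT .. - 2) 19 ≤ 2³⁴ + 2³⁰ log (cT .. - 2)`;
`- 39 log 2 + 30 log 2 = - 9 log 2`.  (`Nat.sub` truncates only upwards.) -/
def SpecTIP : Prop := ∀ x yu yv k lo hi : ℕ, slOk x yu yv k lo hi = true → (mkS x yu yv k lo hi).Good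

/-! ## Queries -/

/-- LNI [250].  The lens condition (from COS, LCH).

Proof.  LCH with `η = eta / 2⁷⁸`; `√z ≤ (z / s + s) / 2` for the bounds of `√(1 + κ²)` and `‖p‖`.
Vertices: in units `2⁻⁷⁸` the expression of LCH (without `η`) differs from
`(r₁ r₂ (- 1024 C + σ K D) 2²² - r₁ N₁ - r₂ N₂)/.. + P2 2¹⁸` by at most `erV`, where
`C = cT (2048 - 2 al)` (`cos (π α) = - cos (π - π α)`), `D = cT (2 al - 1024)` (`sin (π α)`),
`c = cT al`, `s = cT (1024 - al)`, `py = pu - pv`,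
`N₁ = 1024 (c px - s py) + σ K (c py + s px)`, `N₂ = 1024 (c px + s py) + σ K (s px - c py)`;
every product of two approximate numbers `a b` has an error at most `2 |a| + 2 |b| + 4`. -/
def SpecLNI : Prop := ∀ (a1 b1 a2 b2 al0 al1 K px pu pv : ℕ) (p : ℂ),
  boxOk a1 b1 a2 b2 al0 al1 = true → kOk a1 a2 al0 K = true →
  |(px : ℝ) - 2 ^ 30 * p.re| ≤ 2 → |((pu : ℝ) - pv) - 2 ^ 30 * p.im| ≤ 2 →
  lens a1 b1 a2 b2 al0 al1 K px pu pv = true →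
  Lens (bx a1 b1 a2 b2 al0 al1) ((K : ℝ) / 1024) p

/-- QRI [150].  A checked query is a query (from TRG, HPM, LNI).

Proof.  `dot P (c + P) = 1 + dot c P`; `crs P Q = sin (π (kQ - kP) / 2048) < 0`; `crP`, `dtP` with
TRG; Lens from LNI with `px = pX x kP` etc. -/
def SpecQRI : Prop := ∀ a1 b1 a2 b2 al0 al1 x yu yv kP kQ K um up : ℕ,
  qOk a1 b1 a2 b2 al0 al1 x yu yv kP kQ K um up = true →
  Query (bx a1 b1 a2 b2 al0 al1) ⟨(x : ℝ) / 512, ((yu : ℝ) - yv) / 512⟩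
    (ee (((kP : ℝ) - 2048) / 2048)) (ee (((kQ : ℝ) - 2048) / 2048)) ((K : ℝ) / 1024)
    (((um : ℝ) - 2048) / 2048) (((up : ℝ) - 2048) / 2048)

/-! ## Leaves -/

/-- VTI [200].  The dual bound in integers (from LEE, LWB, CEW).

Proof.  CEW with `Q j = q j / 1024` and `w j l = ± (x j l mod 2²⁴) / 2²⁰` (`+` for `j ≤ l`):
`2 Q_j a_l / |w| = q_j g_l / w'` with `w' = x j l mod 2²⁴`, so in units `2⁻⁵¹`
`∑ q_j g_l 2³⁰ (log q_j + log g_l - log w' - 1) + 2³¹ ∑_l (w'_{0 l} + w'_{n+1, l})`;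
`m (2³⁴ + 2³⁰ log m) ≤ ml m` for `m ≤ 2048`, `lw w' s ≤ 2³⁴ + 2³⁰ log w'`; `∑ q_j = 1024`.
(`18691697672192 = 2⁴⁰ + 2⁴⁴`.) -/
def SpecVTI : Prop := ∀ (n : ℕ) (q : ℕ → ℕ) (x : ℕ → ℕ → ℕ) (g : ℕ → ℕ) (a : Fin (n + 1) → ℝ),
  (∀ l, g l ≤ 2048) → (∀ l : Fin (n + 1), a l = (g (l : ℕ) : ℝ) / 2048) →
  sumTo (n + 2) q = 1024 → (∀ j l, x j l < 268435456) →
  wOk n (fun j l => Nat.mod (x j l) 16777216) = true →
  ∀ (X : Fin (n + 2) → ℝ) (B : Fin (n + 1) → ℝ), Inter n X B →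
    2 ^ 51 * ∑ j : Fin (n + 2), ((q (j : ℕ) : ℝ) / 1024) * HH a B (X j) +
      ((∑ l ∈ Finset.range (n + 1), g l * fl n q x l : ℕ) : ℝ) +
      18691697672192 * ((∑ l ∈ Finset.range (n + 1), g l : ℕ) : ℝ) ≤
    ((sumTo (n + 2) (fun j => ml (q j)) * ∑ l ∈ Finset.range (n + 1), g l : ℕ) : ℝ) +
      1024 * ((∑ l ∈ Finset.range (n + 1), ml (g l) : ℕ) : ℝ) + 2 ^ 31 * ((ws n x : ℕ) : ℝ)

/-- LFI [250].  The leaf (from LEE, LN2, VTI, LEF).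

Proof.  LEF with `Q j = qj Q j / 1024`.  Let a vertex `(α, v)` be given, `α = al / 1024`.  Induction
over `S` in `vxs` (general `k, u, A, B`): the check reaches this vertex with
`A = c₁ + ∑ (1024 ml g_l + 2048 q_{l+1} t_l)`, `B = c₂ + ∑ g_l F l`, where `g_l` are the gaps
(`gp α v l = g_l / 2048`, `∑ g_l = 2 al`) and `t_l = tl` or `th` (`tip_l (v_l) ≤ (t_l - 2³⁴) / 2³⁰`).
Ends: `R₁ = (endL - endR) / 2⁵¹` etc.  `Vert` follows from VTI with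
`N = (E 2 al + 1024 ∑ ml g + 2³¹ ws - ∑ g F - (2⁴⁰ + 2⁴⁴) 2 al) / 2⁵¹`. -/
def SpecLFI : Prop := ∀ (P : IPt) (a1 b1 a2 b2 al0 al1 : ℕ) (S : List ISl) (Q W : ℕ),
  (∀ s ∈ S, s.Good) → leaf P a1 b1 a2 b2 al0 al1 S Q W = true →
  ST.Good (bx a1 b1 a2 b2 al0 al1) P.ptl (S.map ISl.slt)

/-! ## Trees -/

/-- EMI [40].  Empty boxes (from COS, EMB). -/
def SpecEMI : Prop := ∀ (P : IPt) (a1 b1 a2 b2 al0 al1 : ℕ) (S : List Slt), emOk a1 a2 al0 = true →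
  ST.Good (bx a1 b1 a2 b2 al0 al1) P.ptl S

/-- CHI [200].  Soundness of the checker (from TIP, QRI, LFI, EMI, QUE).

Proof.  Induction over `t`, general box, `S` with all `s ∈ S` correct:
`md = false`: `Good (bx ..) P.ptl (S.map slt)`; `md = true` (`c = (x, yu - yv) / 512`): for all `w` with
`u' ≤ w < up'` (`u' = (u - 2048) / 2048`, ..) there are `s, S₁, S₂` as in QUE.  For `pt`: if `w < v'` take the new slit and `keepL = S₁ ++ s :: S₂`. -/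
def SpecCHI : Prop := ∀ (P : IPt) (a1 b1 a2 b2 al0 al1 : ℕ) (t : T),
  top P a1 b1 a2 b2 al0 al1 t = true → ST.Good (bx a1 b1 a2 b2 al0 al1) P.ptl []

/-- boxes for `r₁ ∈ (a, b] / 256`, `r₂ ∈ (u, v] / 256`, all openings of the cell -/
def Seg (P : IPt) (al0 al1 a b u v : ℕ) : Prop := ∀ r₁ r₂ α : ℝ, (a : ℝ) / 256 < r₁ →
  r₁ ≤ (b : ℝ) / 256 → (u : ℝ) / 256 < r₂ → r₂ ≤ (v : ℝ) / 256 → (al0 : ℝ) / 1024 ≤ α →
  α ≤ (al1 : ℝ) / 1024 → ∃ bo : Box, ST.Good bo P.ptl [] ∧ bo.Has r₁ r₂ α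

/-- boxes for `0 < r₂ ≤ r₁ ≤ c / 256` -/
def Rows (P : IPt) (al0 al1 c : ℕ) : Prop := ∀ r₁ r₂ α : ℝ, 0 < r₁ → r₁ ≤ (c : ℝ) / 256 →
  0 < r₂ → r₂ ≤ r₁ → (al0 : ℝ) / 1024 ≤ α → α ≤ (al1 : ℝ) / 1024 →
  ∃ bo : Box, ST.Good bo P.ptl [] ∧ bo.Has r₁ r₂ α

end

/-- check of consecutive boxes in the second radius -/
def segOk (P : IPt) (al0 al1 a b : ℕ) : List (ℕ × T) → ℕ → ℕ → Bool
  | [], u, v => Nat.ble v u
  | (m, t) :: l, u, v => and (top P a b u m al0 al1 t) (segOk P al0 al1 a b l m v)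

/-- SEG [60] (from CHI) -/
def SpecSEG : Prop := ∀ (P : IPt) (al0 al1 a b : ℕ) (l : List (ℕ × T)) (u v : ℕ),
  segOk P al0 al1 a b l u v = true → Seg P al0 al1 a b u v

/-- ROW [60] (from PTV) -/
def SpecROW : Prop := (∀ (P : IPt) (al0 al1 : ℕ), Rows P al0 al1 0) ∧
  (∀ (P : IPt) (al0 al1 a b : ℕ), Rows P al0 al1 a → Seg P al0 al1 a b 0 b → Rows P al0 al1 b) ∧
  (∀ (P : IPt) (al0 al1 a b u v w : ℕ), Seg P al0 al1 a b u v → Seg P al0 al1 a b v w →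
    Seg P al0 al1 a b u w) ∧
  (∀ (P : IPt) (al0 al1 : ℕ), P.g₁ = P.g₂ → Rows P al0 al1 512 →
    Valid P.ptl ((al0 : ℝ) / 1024) ((al1 : ℝ) / 1024))

end Pool.Agent.Lib.MP250511.ST.Chk
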