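import Pool.Agent.Lib.MP_250511_an.ST.Chk2

/-!
Problem MP_250511_an, Q2, part 5: soundness of the checker of the final inequality, and the end.
Own lemmas of module `XXX` in `namespace Pool.Agent.Lib.MP250511.ST.Chk.XXXM`; the theorem has the
form `theorem XXX (h₁ : SpecA) .. : SpecXXX`.
-/

set_option autoImplicit false

namespace Pool.Agent.Lib.MP250511.ST.Chk

open Complex Metric Set MeasureTheory Filter Topology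
open scoped Real ENNReal

noncomputable section

/-- the potential of a code -/
def ptS (tab : ℕ → IPt) (c : ℕ) : Ptl :=
  if c < 64 then
    ⟨0, Real.log 4 + (c : ℝ) / 64 * Real.log ((c : ℝ) / 64) +
      (1 - (c : ℝ) / 64) * Real.log (1 - (c : ℝ) / 64), (c : ℝ) / 64, 1 - (c : ℝ) / 64⟩
  else (tab (c - 64)).ptl

/-- correct sector data for a potential -/
structure Sec.Good (s : Sec) (p : Ptl) : Prop where
  A : p.A₀ = (s.A : ℝ) / 2 ^ 20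
  U : p.A₁ ≤ (s.BU : ℝ) / 2 ^ 30 - 1
  L : (s.BL : ℝ) / 2 ^ 30 - 1 ≤ p.A₁
  g₁ : p.g₁ = (s.g₁ : ℝ) / 2 ^ 20
  g₂ : p.g₂ = (s.g₂ : ℝ) / 2 ^ 20

/-- SCG [80].  Sector data (from LEE, LN2).

Proof.  `c ≥ 64`: `Bn ≤ 2²⁰`, so the subtraction is exact.  `1 ≤ c ≤ 63`: with `Q = c`,
`A₁ = (Q log Q + (64 - Q) log (64 - Q)) / 64 - 4 log 2` and
`m (2³⁴ + 2³⁰ log m) ≤ ml m`, `m le m ≤ m (2³⁴ + 2³⁰ log m)`. -/
def SpecSCG : Prop := ∀ (tab : ℕ → IPt) (c z0 z1 : ℕ), rgOk tab c z0 z1 = true →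
  (sec tab c).Good (ptS tab c)

/-- NTR [60].  Cosine and sine of a direction biased by `4096` (from COS). -/
def SpecNTR : Prop := ∀ k : ℕ, 1024 ≤ k → k ≤ 7168 →
  |((cp (dst k 4096) : ℝ) - cn (dst k 4096)) - 2 ^ 30 * Real.cos (π * (((k : ℝ) - 4096) / 2048))| ≤ 2 ∧
  |((cp (dst k 5120) : ℝ) - cn (dst k 5120)) - 2 ^ 30 * Real.sin (π * (((k : ℝ) - 4096) / 2048))| ≤ 2

/-- the cell described by integer data -/
def cellR (tab : ℕ → IPt) (x0 x1 y0 y1 sA sB sC k1 k2 k3 : ℕ) : Cell :=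
  ⟨(x0 : ℝ) / 256, (x1 : ℝ) / 256, (y0 : ℝ) / 256, (y1 : ℝ) / 256, ptS tab sA, ptS tab sB, ptS tab sC,
    ee (((k1 : ℝ) - 4096) / 2048), ee (((k2 : ℝ) - 4096) / 2048), ee (((k3 : ℝ) - 4096) / 2048)⟩

/-- VRT [200].  A vertex (from COS, NTR, LWB, LUB, LN2).

Proof.  Units `2⁻⁵⁹`.  `z = 512 - x - y` (`x, y ≤ 256`), `q_j = 2²⁹ (q_j)` exactly.  `dot (ee (-x)) n₁ =
cos (π d / 2048)`, `d = dst (4096 - 8 x) k1 ≤ 1023`, at least `(cT d - 2) / 2³⁰`.  `μ_j = m_j / 2²⁰`: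
`q (- log cos + log (q / μ) - 1) + μ` is at most `tL - tR` with `- log cos ≤ lc / 2³⁰`,
`2³⁴ + 2³⁰ log q ≤ lu q 18`, `lw m 9 ≤ 2³⁴ + 2³⁰ log m`, `log (q / μ) = log q - log m - 9 log 2`.  Norm: the
coordinates of `∑ m_j n_j` (units `2⁻⁵⁰`) are at most `vc`. -/
def SpecVRT : Prop := ∀ (tab : ℕ → IPt) (V x0 x1 y0 y1 x y sA sB sC k1 k2 k3 m1 m3 : ℕ) (t : Vt),
  x ≤ 256 → y ≤ 256 →
  (sec tab sA).Good (ptS tab sA) → (sec tab sB).Good (ptS tab sB) → (sec tab sC).Good (ptS tab sC) →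
  1024 ≤ k1 → k1 ≤ 7168 → 1024 ≤ k2 → k2 ≤ 7168 → 1024 ≤ k3 → k3 ≤ 7168 →
  dst (4096 - 8 * x) k1 ≤ 1023 → dst 4096 k2 ≤ 1023 → dst (4096 + 8 * y) k3 ≤ 1023 →
  vtx V x y k1 k2 k3 m1 m3 (sec tab sA) (sec tab sB) (sec tab sC) t = true →
  (cellR tab x0 x1 y0 y1 sA sB sC k1 k2 k3).Vtx ((V : ℝ) / 2 ^ 30) ((x : ℝ) / 256) ((y : ℝ) / 256) ∧
    (m1 : ℝ) / 2 ^ 29 ≤ (cellR tab x0 x1 y0 y1 sA sB sC k1 k2 k3).q₁ ((x : ℝ) / 256) ((y : ℝ) / 256) ∧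
    0 ≤ (cellR tab x0 x1 y0 y1 sA sB sC k1 k2 k3).q₂ ((x : ℝ) / 256) ((y : ℝ) / 256) ∧
    (m3 : ℝ) / 2 ^ 29 ≤ (cellR tab x0 x1 y0 y1 sA sB sC k1 k2 k3).q₃ ((x : ℝ) / 256) ((y : ℝ) / 256)

/-- RCI [150].  A checked cell is a cell of the certificate (from SCG, VRT).

Proof.  `Ok`: the weights are affine in `(x, y)`, so it is enough to look at the vertices; the
directions: `dot (ee (-x)) n₁ = cos (π (-x - κ₁))` with `|.. | < 1/2` at both ends; `cvOk` is the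
convexity condition times `10 · 2⁵⁹`. -/
def SpecRCI : Prop := ∀ (tab : ℕ → IPt)
  (V x0 x1 y0 y1 sA sB sC k1 k2 k3 m1 m3 : ℕ) (t00 t01 t10 t11 : Vt),
  cell tab V x0 x1 y0 y1 sA sB sC k1 k2 k3 m1 m3 t00 t01 t10 t11 = true →
  (cellR tab x0 x1 y0 y1 sA sB sC k1 k2 k3).Ok ((m1 : ℝ) / 2 ^ 29) ((m3 : ℝ) / 2 ^ 29) ∧
  (cellR tab x0 x1 y0 y1 sA sB sC k1 k2 k3).Vtx ((V : ℝ) / 2 ^ 30) ((x0 : ℝ) / 256) ((y0 : ℝ) / 256) ∧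
  (cellR tab x0 x1 y0 y1 sA sB sC k1 k2 k3).Vtx ((V : ℝ) / 2 ^ 30) ((x0 : ℝ) / 256) ((y1 : ℝ) / 256) ∧
  (cellR tab x0 x1 y0 y1 sA sB sC k1 k2 k3).Vtx ((V : ℝ) / 2 ^ 30) ((x1 : ℝ) / 256) ((y0 : ℝ) / 256) ∧
  (cellR tab x0 x1 y0 y1 sA sB sC k1 k2 k3).Vtx ((V : ℝ) / 2 ^ 30) ((x1 : ℝ) / 256) ((y1 : ℝ) / 256)

/-- RCH [120].  The cover (from RCI, VBA).

Proof.  Induction over the tree for points of the half open rectangle `[x0, x1) × [y0, y1)` of the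
domain.  `Valid` for the openings: `rgOk` (codes `< 64`: VBA and `z ≤ 1`; codes `64 + i`: the
hypothesis, `[z0, z1] ⊆ [8 (17 + i), 8 (18 + i)] / 256`); `x0 / 256 ≤ x ≤ x1 / 256`, and `2 - x - y` is
between `(512 - x1 - y1) / 256` and `(512 - x0 - y0) / 256`. -/
def SpecRCH : Prop := ∀ (tab : ℕ → IPt) (V : ℕ) (t : R),
  (∀ i : ℕ, i ≤ 14 → Valid (tab i).ptl ((17 + (i : ℝ)) / 32) ((18 + (i : ℝ)) / 32)) →
  rchk tab V t 0 256 0 256 = true → Cover ((V : ℝ) / 2 ^ 30)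

/-- END [60].  The end (from RCH, ASM). -/
def SpecEND : Prop := ∀ (tab : ℕ → IPt) (V : ℕ) (t : R),
  (∀ i : ℕ, i ≤ 14 → Valid (tab i).ptl ((17 + (i : ℝ)) / 32) ((18 + (i : ℝ)) / 32)) →
  rchk tab V t 0 256 0 256 = true → (tab 14).g₁ = (tab 14).g₂ →
  1024 * ((tab 14).A + (tab 14).Bp) ≤ V + 1024 * (tab 14).Bn →
  ENNReal.ofReal (Real.exp (-((V : ℝ) / 2 ^ 30))) ≤ S₁

/-- LOG [30].  Constants: `exp (- V) ≥ 0.63` for `V = 496106000 / 2³⁰`. -/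
def SpecLOG : Prop := (63 : ℝ) / 100 ≤ Real.exp (-((496106000 : ℝ) / 2 ^ 30))

end

end Pool.Agent.Lib.MP250511.ST.Chk
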